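import Pool.Agent.MP_a28cf0_nt.D4.Osc

attribute [-instance] IdemSemiring.toCanonicallyOrderedAdd covariant_swap_mul_of_covariant_mul
  AddQuantale.instAddLeftMono IsOrderedMonoid.toMulLeftMono IdemSemiring.toMulLeftMono
  Quantale.instMulLeftMono AddQuantale.instAddRightMono NumberField.to_charZero
  Quantale.instMulRightMono IsTopologicalTorsor.toContinuousSMul ProperSMul.toContinuousSMul
  CanonicallyOrderedAdd.toMulLeftMono LinearOrderedCommMonoidWithZero.toPosMulStrictMono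
  TotallySeparatedSpace.t2Space RKHS.instFunLike IsScalarTower.complexToReal
  LieRinehartAlgebra.toIsScalarTower Topology.IsScott.instClosedIicTopologyOfUnivSet
  LeftPreLieAlgebra.toModule RightPreLieAlgebra.toModule Valued.toUniformSpace
  Group.IsPerfect.subsingleton_of_isMulCommutative CStarAlgebra.instOrderClosedTopology
  CanonicallyOrderedMul.toMulLeftMono instCoeOTCOfCoeOut continuousSub_of_discreteTopology
  instCoeHTCTOfCoeTailOfCoeHTC instCoeHTCOfCoeHeadOfCoeOTC instCoeTOfCoeDep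
  NonarchimedeanRing.toIsTopologicalRing instCoeTCOfCoe instCoeHTC
  LieAdmissibleRing.toNonUnitalNonAssocRing instIsModuleTopology
  NonarchimedeanAddGroup.toIsTopologicalAddGroup instCoeOTC NonUnitalAlgSemiHomClass.toMulHomClass
  MonTypeEquivalenceMon.monMonoid Unique.instSubsingleton instCoeHTCT NeZero.of_gt' instCoeTC

/-!
The Whittaker equation.
-/

set_option autoImplicit false
set_option linter.unusedVariables false

namespace Pool.Agent.MP_a28cf0_nt.D4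

open MeasureTheory Complex Set
open scoped ComplexConjugate

theorem wka_mono {f f1 : ℝ → ℝ} {x y : ℝ} (hxy : x ≤ y)
    (hf : ∀ t ∈ Icc x y, HasDerivAt f (f1 t) t) (h : ∀ t ∈ Icc x y, 0 ≤ f1 t) : f x ≤ f y := by
  have : MonotoneOn f (Icc x y) := by
    refine monotoneOn_of_deriv_nonneg (convex_Icc x y)
      (fun t ht => (hf t ht).continuousAt.continuousWithinAt)
      (fun t ht => (hf t (interior_subset ht)).differentiableAt.differentiableWithinAt) ?_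
    intro t ht
    rw [(hf t (interior_subset ht)).deriv]
    exact h t (interior_subset ht)
  exact this ⟨le_rfl, hxy⟩ ⟨hxy, le_rfl⟩ hxy

theorem wka_decay (u u1 u2 : ℝ → ℝ) (r1 k : ℝ) (hk : 0 ≤ k)
    (hu : ∀ x, r1 ≤ x → HasDerivAt u (u1 x) x) (hu1 : ∀ x, r1 ≤ x → HasDerivAt u1 (u2 x) x)
    (h0 : ∀ x, r1 ≤ x → 0 ≤ u x) (h2 : ∀ x, r1 ≤ x → k ^ 2 * u x ≤ u2 x)
    (hi : IntegrableOn u (Ioi r1)) {x y : ℝ} (hx : r1 ≤ x) (hxy : x ≤ y) :
    u y ≤ u x * Real.exp (-(k * (y - x))) := by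
  have hex : ∀ c t : ℝ, HasDerivAt (fun z => Real.exp (c * z)) (Real.exp (c * t) * c) t := by
    intro c t
    simpa using ((hasDerivAt_id t).const_mul c).exp
  have hw : ∀ r0, r1 ≤ r0 → u1 r0 + k * u r0 ≤ 0 := by
    intro r0 hr0
    by_contra hc
    push Not at hc
    set c := u1 r0 + k * u r0 with hcdef
    have hge : ∀ t, r0 ≤ t → c ≤ u1 t + k * u t := by
      intro t ht
      have h1 := wka_mono (f := fun z => (u1 z + k * u z) * Real.exp (-k * z))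
        (f1 := fun z => (u2 z + k * u1 z) * Real.exp (-k * z)
          + (u1 z + k * u z) * (Real.exp (-k * z) * -k)) ht
        (fun z hz => ((hu1 z (hr0.trans hz.1)).add ((hu z (hr0.trans hz.1)).const_mul k)).mul
          (hex (-k) z))
        (fun z hz => by
          have := h2 z (hr0.trans hz.1)
          have e := Real.exp_pos (-k * z)
          nlinarith only [this, e])
      have e1 : Real.exp (-k * t) ≤ Real.exp (-k * r0) := Real.exp_le_exp.2 (by nlinarith only [hk, ht])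
      have e2 := Real.exp_pos (-k * t)
      have h3 : c * Real.exp (-k * t) ≤ (u1 t + k * u t) * Real.exp (-k * t) :=
        (mul_le_mul_of_nonneg_left e1 hc.le).trans h1
      exact le_of_mul_le_mul_right h3 e2
    have hlow : ∀ t, r0 + 1 ≤ t → c * Real.exp (-k) ≤ u t := by
      intro t ht
      have h1 := wka_mono (x := t - 1) (y := t)
        (f := fun z => u z * Real.exp (k * z) - c * Real.exp (k * (t - 1)) * z)
        (f1 := fun z => u1 z * Real.exp (k * z) + u z * (Real.exp (k * z) * k)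
          - c * Real.exp (k * (t - 1)) * 1) (by linarith)
        (fun z hz => ((hu z (by linarith [hz.1])).mul (hex k z)).sub
          ((hasDerivAt_id z).const_mul _))
        (fun z hz => by
          have a1 := hge z (by linarith [hz.1])
          have a2 : Real.exp (k * (t - 1)) ≤ Real.exp (k * z) :=
            Real.exp_le_exp.2 (by nlinarith only [hz.1, hk])
          have a3 := Real.exp_pos (k * z)
          nlinarith only [hc, a1, a2, a3])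
      have a0 := h0 (t - 1) (by linarith)
      have a3 := Real.exp_pos (k * (t - 1))
      have a4 : Real.exp (k * (t - 1)) = Real.exp (-k) * Real.exp (k * t) := by
        rw [← Real.exp_add]; ring_nf
      have a5 : c * Real.exp (-k) * Real.exp (k * t) ≤ u t * Real.exp (k * t) := by
        have : 0 ≤ u (t - 1) * Real.exp (k * (t - 1)) := by positivity
        rw [mul_assoc, ← a4]
        linarith only [h1, this]
      exact le_of_mul_le_mul_right a5 (Real.exp_pos _)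
    have hpos : 0 < c * Real.exp (-k) := by positivity
    have hi2 : IntegrableOn (fun _ : ℝ => c * Real.exp (-k)) (Ioi (r0 + 1)) := by
      refine (hi.mono_set (Ioi_subset_Ioi (by linarith : r1 ≤ r0 + 1))).mono'
        aestronglyMeasurable_const ?_
      refine (ae_restrict_iff' measurableSet_Ioi).2 (Filter.Eventually.of_forall fun t ht => ?_)
      rw [Real.norm_eq_abs, abs_of_pos hpos]
      exact hlow t (le_of_lt ht)
    rw [integrableOn_const_iff] at hi2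
    rcases hi2 with h | h
    · rw [enorm_eq_zero] at h
      exact hpos.ne' h
    · simp at h
  have h1 := wka_mono (f := fun z => -(u z * Real.exp (k * z)))
    (f1 := fun z => -(u1 z * Real.exp (k * z) + u z * (Real.exp (k * z) * k))) hxy
    (fun z hz => ((hu z (hx.trans hz.1)).mul (hex k z)).neg)
    (fun z hz => by
      have := hw z (hx.trans hz.1)
      have e := Real.exp_pos (k * z)
      nlinarith only [this, e])
  have a4 : Real.exp (k * x) = Real.exp (-(k * (y - x))) * Real.exp (k * y) := by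
    rw [← Real.exp_add]; ring_nf
  have a5 : u y * Real.exp (k * y) ≤ u x * Real.exp (-(k * (y - x))) * Real.exp (k * y) := by
    rw [mul_assoc, ← a4]
    linarith
  exact le_of_mul_le_mul_right a5 (Real.exp_pos _)

/-- WKA.  Paper 2, DECAY: `v = u' + κ u` has `v' ≥ κ v`; if `v` is positive somewhere it stays above a
positive constant, which contradicts integrability. -/
theorem decay {u u₁ u₂ : ℝ → ℝ} {r₁ κ : ℝ} (hκ : 0 ≤ κ) (h0 : ∀ r, 0 ≤ u r)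
    (d0 : ∀ r, HasDerivAt u (u₁ r) r) (d1 : ∀ r, HasDerivAt u₁ (u₂ r) r)
    (h : ∀ r, r₁ ≤ r → κ ^ 2 * u r ≤ u₂ r) (hi : IntegrableOn u (Ioi r₁)) {r : ℝ} (hr : r₁ ≤ r) :
    u r ≤ u r₁ * Real.exp (-(κ * (r - r₁))) :=
  wka_decay u u₁ u₂ r₁ κ hκ (fun x _ => d0 x) (fun x _ => d1 x) (fun x _ => h0 x) h hi le_rfl hr

theorem wka_sq {f : ℝ → ℂ} {f₁ : ℂ} {x : ℝ} (h : HasDerivAt f f₁ x) :
    HasDerivAt (fun y => ‖f y‖ ^ 2) (2 * inner ℝ (f x) f₁) x :=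
  h.norm_sq

theorem wka_inn (c : ℝ) (z : ℂ) : inner ℝ z (-(c : ℂ) * z) = -(c * ‖z‖ ^ 2) := by
  rw [← ofReal_neg, ← real_smul, real_inner_smul_right, real_inner_self_eq_norm_sq, neg_mul]

/-- WKA.  `decay` for `‖b‖ ^ 2`. -/
theorem Sol.decay {t : ℝ} {b b₁ : ℝ → ℂ} (h : Sol t b b₁) {r₁ κ : ℝ} (hr₁ : 0 ≤ r₁) (hκ : 0 ≤ κ)
    (hk : κ ^ 2 ≤ 2 * t ^ 2 * (Real.exp (2 * r₁) - 1)) {r : ℝ} (hr : r₁ ≤ r) :
    ‖b r‖ ≤ ‖b r₁‖ * Real.exp (-(κ * (r - r₁) / 2)) := by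
  have key := D4.decay (u := fun ρ => ‖b ρ‖ ^ 2) (u₁ := fun ρ => 2 * inner ℝ (b ρ) (b₁ ρ))
    (u₂ := fun ρ => 2 * (inner ℝ (b ρ) (-((t ^ 2 * qq ρ : ℝ) : ℂ) * b ρ) + inner ℝ (b₁ ρ) (b₁ ρ)))
    hκ (fun _ => by positivity) (fun ρ => wka_sq (h.d0 ρ))
    (fun ρ => ((h.d0 ρ).inner ℝ (h.d1 ρ)).const_mul 2)
    (fun ρ hρ => by
      rw [wka_inn, real_inner_self_eq_norm_sq]
      have h1 : Real.exp (2 * r₁) ≤ Real.exp (2 * ρ) := Real.exp_le_exp.2 (by linarith)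
      have h2 : κ ^ 2 ≤ 2 * t ^ 2 * (Real.exp (2 * ρ) - 1) := hk.trans (by gcongr)
      have h3 := mul_le_mul_of_nonneg_right h2 (sq_nonneg ‖b ρ‖)
      have h4 := sq_nonneg ‖b₁ ρ‖
      unfold qq
      linarith)
    (h.int.mono_set (Ioi_subset_Ioi hr₁)) hr
  refine (pow_le_pow_iff_left₀ (norm_nonneg _) (by positivity) two_ne_zero).1 (key.trans_eq ?_)
  rw [mul_pow, ← Real.exp_nat_mul]
  congr 2
  push_cast
  ring

/-- WKA.  The energy `t ^ 2 q ‖b‖ ^ 2 + ‖b₁‖ ^ 2` decreases. -/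
theorem Sol.energy {t : ℝ} {b b₁ : ℝ → ℂ} (h : Sol t b b₁) :
    Antitone fun ρ => t ^ 2 * qq ρ * ‖b ρ‖ ^ 2 + ‖b₁ ρ‖ ^ 2 := by
  have hd : ∀ ρ, HasDerivAt (fun ρ => t ^ 2 * qq ρ * ‖b ρ‖ ^ 2 + ‖b₁ ρ‖ ^ 2)
      (t ^ 2 * (-2 * (1 - qq ρ)) * ‖b ρ‖ ^ 2) ρ := fun ρ => by
    refine ((((hasDerivAt_qq ρ).const_mul (t ^ 2)).mul (wka_sq (h.d0 ρ))).add
      (wka_sq (h.d1 ρ))).congr_deriv ?_
    rw [← ofReal_neg, ← real_smul, real_inner_smul_right, real_inner_comm]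
    ring
  refine antitone_of_deriv_nonpos (fun ρ => (hd ρ).differentiableAt) fun ρ => ?_
  rw [(hd ρ).deriv]
  have h1 := sub_pos.2 (qq_lt ρ)
  have h2 : 0 ≤ t ^ 2 * (1 - qq ρ) * ‖b ρ‖ ^ 2 := by positivity
  linarith

theorem wkb_cmp {f f₁ : ℝ → ℂ} {B B₁ : ℝ → ℝ} {a c : ℝ}
    (hf : ∀ x ∈ uIcc a c, HasDerivAt f (f₁ x) x) (hB : ∀ x ∈ uIcc a c, HasDerivAt B (B₁ x) x)
    (hb : ∀ x ∈ uIcc a c, ‖f₁ x‖ ≤ B₁ x) : ‖f c - f a‖ ≤ |B c - B a| := by
  wlog hac : a ≤ c generalizing a c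
  · rw [norm_sub_rev, abs_sub_comm]
    rw [uIcc_comm] at hf hB hb
    exact this hf hB hb (le_of_not_ge hac)
  rw [uIcc_of_le hac] at hf hB hb
  refine le_trans ?_ (le_abs_self _)
  exact image_norm_le_of_norm_deriv_right_le_deriv_boundary' (f := fun x => f x - f a) (f' := f₁)
    (B := fun x => B x - B a) (B' := B₁)
    (fun x hx => ((hf x hx).sub_const _).continuousAt.continuousWithinAt)
    (fun x hx => ((hf x (Ico_subset_Icc_self hx)).sub_const _).hasDerivWithinAt) (by simp)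
    (fun x hx => ((hB x hx).sub_const _).continuousAt.continuousWithinAt)
    (fun x hx => ((hB x (Ico_subset_Icc_self hx)).sub_const _).hasDerivWithinAt)
    (fun x hx => hb x (Ico_subset_Icc_self hx)) ⟨hac, le_rfl⟩

noncomputable def wkb_mu (ρ : ℝ) : ℝ := (1 - qq ρ) / (2 * qq ρ)

noncomputable def wkb_R (ρ : ℝ) : ℝ := wkb_mu ρ ^ 2 + (1 - qq ρ) / qq ρ ^ 2

noncomputable def wkb_u (b : ℝ → ℂ) (ρ : ℝ) : ℂ := ((pp ρ * gg ρ : ℝ) : ℂ) * b ρ

noncomputable def wkb_v (t : ℝ) (b b₁ : ℝ → ℂ) (ρ : ℝ) : ℂ :=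
  ((pp ρ / t : ℝ) : ℂ) * (b₁ ρ - (wkb_mu ρ : ℂ) * b ρ)

noncomputable def wkb_c (t s : ℝ) (b b₁ : ℝ → ℂ) (ρ : ℝ) : ℂ :=
  ci (-(s * (t * FF ρ))) * (wkb_u b ρ - (s : ℂ) * I * wkb_v t b b₁ ρ) / 2

theorem wkb_gsq {ρ : ℝ} (h : 0 < qq ρ) : 0 < gg ρ ∧ gg ρ ^ 2 = qq ρ :=
  ⟨Real.sqrt_pos.2 h, Real.sq_sqrt h.le⟩

theorem wkb_dmu {ρ : ℝ} (h : 0 < qq ρ) : HasDerivAt wkb_mu ((1 - qq ρ) / qq ρ ^ 2) ρ := by
  have h1 := ((hasDerivAt_qq ρ).const_sub 1).div ((hasDerivAt_qq ρ).const_mul 2) (by positivity)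
  refine HasDerivAt.congr_deriv (f := wkb_mu) h1 ?_
  field_simp
  ring

theorem wkb_du {t : ℝ} (ht : 0 < t) {b b₁ : ℝ → ℂ} (h : Sol t b b₁) {ρ : ℝ} (hq : 0 < qq ρ) :
    HasDerivAt (wkb_u b) (((t * gg ρ : ℝ) : ℂ) * wkb_v t b b₁ ρ) ρ := by
  obtain ⟨g0, g2⟩ := wkb_gsq hq
  have h1 : HasDerivAt (fun x => pp x * gg x) (-(wkb_mu ρ * (pp ρ * gg ρ))) ρ := by
    refine ((hasDerivAt_pp hq).mul (hasDerivAt_gg hq)).congr_deriv ?_
    rw [wkb_mu, ← g2]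
    field_simp
    ring
  refine HasDerivAt.congr_deriv (f := wkb_u b) (h1.ofReal_comp.mul (h.d0 ρ)) ?_
  have : (t : ℂ) ≠ 0 := by exact_mod_cast ht.ne'
  simp only [wkb_v]
  push_cast
  field_simp
  ring

theorem wkb_dv {t : ℝ} (ht : 0 < t) {b b₁ : ℝ → ℂ} (h : Sol t b b₁) {ρ : ℝ} (hq : 0 < qq ρ) :
    HasDerivAt (wkb_v t b b₁)
      (-(((t * gg ρ : ℝ) : ℂ) * wkb_u b ρ) - ((wkb_R ρ * pp ρ / t : ℝ) : ℂ) * b ρ) ρ := by
  obtain ⟨g0, g2⟩ := wkb_gsq hq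
  have h1 : HasDerivAt (fun x => pp x / t) (wkb_mu ρ * pp ρ / t) ρ :=
    (hasDerivAt_pp hq).div_const t
  refine HasDerivAt.congr_deriv (f := wkb_v t b b₁)
    (h1.ofReal_comp.mul ((h.d1 ρ).sub ((wkb_dmu hq).ofReal_comp.mul (h.d0 ρ)))) ?_
  have : (t : ℂ) ≠ 0 := by exact_mod_cast ht.ne'
  have g3 : (qq ρ : ℂ) = (gg ρ : ℂ) ^ 2 := by exact_mod_cast g2.symm
  simp only [wkb_u, wkb_R]
  generalize (1 - qq ρ) / qq ρ ^ 2 = w
  push_cast
  rw [g3]
  field_simp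
  ring

theorem wkb_dc {t s : ℝ} (ht : 0 < t) (hs : Sg s) {b b₁ : ℝ → ℂ} (h : Sol t b b₁) {ρ : ℝ}
    (hq : 0 < qq ρ) : HasDerivAt (wkb_c t s b b₁)
      (ci (-(s * (t * FF ρ))) * ((s : ℂ) * I * (((wkb_R ρ * pp ρ / t : ℝ) : ℂ) * b ρ)) / 2) ρ := by
  have h0 : HasDerivAt (fun x => -(s * (t * FF x))) (-(s * (t * gg ρ))) ρ :=
    (((hasDerivAt_FF ρ).const_mul t).const_mul s).neg
  have h1 := (hasDerivAt_ci (-(s * (t * FF ρ)))).scomp ρ h0
  have h2 := (h1.mul ((wkb_du ht h hq).sub ((wkb_dv ht h hq).const_mul ((s : ℂ) * I)))).div_const 2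
  refine HasDerivAt.congr_deriv (f := wkb_c t s b b₁) h2 ?_
  simp only [Function.comp_apply, Pi.sub_apply, Complex.real_smul]
  generalize ((wkb_R ρ * pp ρ / t : ℝ) : ℂ) * b ρ = w
  rcases hs with rfl | rfl
  · push_cast
    linear_combination (ci (-(1 * (t * FF ρ))) * t * gg ρ * wkb_v t b b₁ ρ / 2) * I_sq
  · push_cast
    linear_combination (ci (-(-1 * (t * FF ρ))) * t * gg ρ * wkb_v t b b₁ ρ / 2) * I_sq

theorem wkb_rep {t : ℝ} (ht : 0 < t) (b b₁ : ℝ → ℂ) {ρ : ℝ} (hq : 0 < qq ρ) :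
    b ρ = pp ρ * wk t (wkb_c t 1 b b₁ ρ) (wkb_c t (-1) b b₁ ρ) ρ ∧
    wkb_v t b b₁ ρ = I * wk t (wkb_c t 1 b b₁ ρ) (-wkb_c t (-1) b b₁ ρ) ρ := by
  have e1 : ci (-(t * FF ρ)) * ci (t * FF ρ) = 1 := by rw [← ci_add, neg_add_cancel, ci_zero]
  have e2 : ((pp ρ : ℂ)) ^ 2 * gg ρ = 1 := by exact_mod_cast (pp_pow hq).2.1
  simp only [wk, wkb_c, one_mul, neg_mul, neg_neg, wkb_u]
  push_cast
  constructor
  · linear_combination (-(pp ρ : ℂ) ^ 2 * gg ρ * b ρ) * e1 - b ρ * e2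
  · linear_combination (I ^ 2 * wkb_v t b b₁ ρ) * e1 + wkb_v t b b₁ ρ * I_sq

theorem wkb_Rle {ρ : ℝ} (hq : 0 < qq ρ) :
    0 ≤ wkb_R ρ ∧ wkb_R ρ * pp ρ ^ 2 ≤ 5 / 2 * (wkb_mu ρ * pp ρ ^ 6) := by
  obtain ⟨p0, -, p4⟩ := pp_pow hq
  have h1 : 0 < 1 - qq ρ := sub_pos.2 (qq_lt ρ)
  refine ⟨by unfold wkb_R; positivity, ?_⟩
  have e : pp ρ ^ 6 = pp ρ ^ 2 / qq ρ := by
    rw [eq_div_iff hq.ne']
    linear_combination pp ρ ^ 2 * p4
  have h2 : wkb_R ρ ≤ 5 / 2 * (wkb_mu ρ / qq ρ) := by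
    have : 5 / 2 * (wkb_mu ρ / qq ρ) - wkb_R ρ = (1 - qq ρ) / (4 * qq ρ) := by
      unfold wkb_R wkb_mu
      field_simp
      ring
    have h3 : 0 ≤ (1 - qq ρ) / (4 * qq ρ) := by positivity
    linarith
  calc wkb_R ρ * pp ρ ^ 2 ≤ 5 / 2 * (wkb_mu ρ / qq ρ) * pp ρ ^ 2 := by gcongr
    _ = _ := by rw [e]; ring

theorem wkb_var {t s d K : ℝ} (ht : 0 < t) (hs : Sg s) {b b₁ : ℝ → ℂ} (h : Sol t b b₁) (hd : 0 < d)
    (hK : 0 ≤ K) {a c : ℝ} (hq : ∀ x ∈ uIcc a c, d ^ 4 ≤ qq x)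
    (hb : ∀ x ∈ uIcc a c, ‖b x‖ ≤ pp x * K) :
    ‖wkb_c t s b b₁ c - wkb_c t s b b₁ a‖ ≤ 5 / 24 * K / (t * d ^ 6) := by
  have hq0 : ∀ x ∈ uIcc a c, 0 < qq x := fun x hx => (pow_pos hd 4).trans_le (hq x hx)
  have key := wkb_cmp (B := fun x => 5 / 24 * K / t * pp x ^ 6)
    (B₁ := fun x => 5 / 24 * K / t * (6 * (wkb_mu x * pp x ^ 6)))
    (fun x hx => wkb_dc ht hs h (hq0 x hx))
    (fun x hx => (((hasDerivAt_pp (hq0 x hx)).pow 6).const_mul (5 / 24 * K / t)).congr_deriv (by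
      rw [wkb_mu]; push_cast; ring))
    (fun x hx => by
      obtain ⟨r0, r1⟩ := wkb_Rle (hq0 x hx)
      have p0 := (pp_pow (hq0 x hx)).1
      have s1 : ‖(s : ℂ)‖ = 1 := by rcases hs with rfl | rfl <;> simp
      rw [norm_div, norm_mul, norm_mul, norm_mul, norm_mul, norm_ci, s1, norm_I, norm_real,
        Real.norm_of_nonneg (by positivity), Complex.norm_two]
      calc 1 * (1 * 1 * (wkb_R x * pp x / t * ‖b x‖)) / 2
          ≤ 1 * (1 * 1 * (wkb_R x * pp x / t * (pp x * K))) / 2 := by gcongr; exact hb x hx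
        _ = K / (2 * t) * (wkb_R x * pp x ^ 2) := by field_simp
        _ ≤ K / (2 * t) * (5 / 2 * (wkb_mu x * pp x ^ 6)) := by gcongr
        _ = _ := by field_simp; ring)
  refine key.trans ?_
  have hm : ∀ x ∈ uIcc a c, 0 ≤ 5 / 24 * K / t * pp x ^ 6 ∧
      5 / 24 * K / t * pp x ^ 6 ≤ 5 / 24 * K / (t * d ^ 6) := fun x hx => by
    have p0 := (pp_pow (hq0 x hx)).1
    refine ⟨by positivity, ?_⟩
    calc 5 / 24 * K / t * pp x ^ 6 ≤ 5 / 24 * K / t * (1 / d) ^ 6 := by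
          gcongr; exact pp_le hd (hq x hx)
      _ = _ := by field_simp
  have m1 := hm a left_mem_uIcc
  have m2 := hm c right_mem_uIcc
  rw [abs_le]
  constructor <;> linarith only [m1.1, m1.2, m2.1, m2.2]

/-- WKB.  Paper 2, variation of constants. -/
theorem Sol.wkb {t : ℝ} (ht : 0 < t) {b b₁ : ℝ → ℂ} (h : Sol t b b₁) : ∃ Cp Cm : ℂ,
    ∀ d : ℝ, 0 < d → d ^ 4 ≤ 1 / 2 → 1 ≤ t * d ^ 6 → ∀ ρ, d ^ 4 ≤ qq ρ →
      ‖b ρ - pp ρ * wk t Cp Cm ρ‖ ≤ 4 * (‖Cp‖ + ‖Cm‖) * pp ρ / (t * d ^ 6) ∧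
      ‖b ρ‖ ≤ 4 * (‖Cp‖ + ‖Cm‖) * pp ρ ∧ ‖b₁ ρ‖ ≤ 8 * (‖Cp‖ + ‖Cm‖) * t / pp ρ := by
  refine ⟨wkb_c t 1 b b₁ (-1), wkb_c t (-1) b b₁ (-1), fun d hd hd1 htd ρ hρ => ?_⟩
  set Cp := wkb_c t 1 b b₁ (-1)
  set Cm := wkb_c t (-1) b b₁ (-1)
  have ha : d ^ 4 ≤ qq (-1) := by
    have h1 : Real.exp (2 * (-1)) * Real.exp 2 = 1 := by rw [← Real.exp_add]; norm_num
    have h2 := Real.add_one_le_exp 2
    have h3 := Real.exp_pos (2 * (-1))
    unfold qq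
    nlinarith only [hd1, h1, h2]
  have hq : ∀ x ∈ uIcc (-1) ρ, d ^ 4 ≤ qq x := fun x hx => by
    have hx2 : x ≤ max (-1) ρ := hx.2
    have : ∀ y, x ≤ y → qq y ≤ qq x := fun y hy => by
      unfold qq
      gcongr
    rcases le_max_iff.1 hx2 with h1 | h1
    · exact ha.trans (this _ h1)
    · exact hρ.trans (this _ h1)
  have hq0 : ∀ x ∈ uIcc (-1) ρ, 0 < qq x := fun x hx => (pow_pos hd 4).trans_le (hq x hx)
  have s1 : Sg 1 := Or.inl rfl
  have s2 : Sg (-1) := Or.inr rfl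
  obtain ⟨z, hz, hmax⟩ := isCompact_uIcc.exists_isMaxOn (s := uIcc (-1) ρ) nonempty_uIcc
    (f := fun x => ‖wkb_c t 1 b b₁ x‖ + ‖wkb_c t (-1) b b₁ x‖) (fun x hx =>
      ((wkb_dc ht s1 h (hq0 x hx)).continuousAt.norm.add
        (wkb_dc ht s2 h (hq0 x hx)).continuousAt.norm).continuousWithinAt)
  set K := ‖wkb_c t 1 b b₁ z‖ + ‖wkb_c t (-1) b b₁ z‖ with hKdef
  have hK : 0 ≤ K := by positivity
  have hS : ∀ x ∈ uIcc (-1) ρ, ‖wkb_c t 1 b b₁ x‖ + ‖wkb_c t (-1) b b₁ x‖ ≤ K := fun x hx => hmax hx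
  have hb : ∀ x ∈ uIcc (-1) ρ, ‖b x‖ ≤ pp x * K := fun x hx => by
    have p0 := (pp_pow (hq0 x hx)).1
    rw [(wkb_rep ht b b₁ (hq0 x hx)).1, norm_mul, norm_real, Real.norm_of_nonneg p0.le]
    exact mul_le_mul_of_nonneg_left ((norm_wk _ _ _ _).trans (hS x hx)) p0.le
  have hv : ∀ s, Sg s → ∀ x ∈ uIcc (-1) ρ,
      ‖wkb_c t s b b₁ x - wkb_c t s b b₁ (-1)‖ ≤ 5 / 24 * K / (t * d ^ 6) := fun s hs x hx =>
    wkb_var ht hs h hd hK (fun y hy => hq y (uIcc_subset_uIcc_left hx hy))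
      (fun y hy => hb y (uIcc_subset_uIcc_left hx hy))
  have hKO : K ≤ 2 * (‖Cp‖ + ‖Cm‖) := by
    have a1 := (norm_sub_norm_le _ _).trans (hv 1 s1 z hz)
    have a2 := (norm_sub_norm_le _ _).trans (hv (-1) s2 z hz)
    have a3 : 5 / 24 * K / (t * d ^ 6) ≤ 5 / 24 * K := div_le_self (by positivity) htd
    linarith
  have hr : ρ ∈ uIcc (-1) ρ := right_mem_uIcc
  obtain ⟨p0, -, p4⟩ := pp_pow (hq0 ρ hr)
  obtain ⟨r1, r2⟩ := wkb_rep ht b b₁ (hq0 ρ hr)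
  have hO : 0 ≤ ‖Cp‖ + ‖Cm‖ := by positivity
  refine ⟨?_, ?_, ?_⟩
  · have e : b ρ - pp ρ * wk t Cp Cm ρ =
        pp ρ * wk t (wkb_c t 1 b b₁ ρ - Cp) (wkb_c t (-1) b b₁ ρ - Cm) ρ := by
      conv_lhs => rw [r1]
      simp only [wk]
      ring
    rw [e, norm_mul, norm_real, Real.norm_of_nonneg p0.le]
    calc _ ≤ pp ρ * (5 / 24 * K / (t * d ^ 6) + 5 / 24 * K / (t * d ^ 6)) :=
          mul_le_mul_of_nonneg_left
            ((norm_wk _ _ _ _).trans (add_le_add (hv 1 s1 ρ hr) (hv (-1) s2 ρ hr))) p0.le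
      _ = 5 / 12 * K * pp ρ / (t * d ^ 6) := by ring
      _ ≤ _ := by gcongr ?_ * _ / _; linarith only [hK, hKO]
  · refine (hb ρ hr).trans ?_
    rw [mul_comm]
    gcongr ?_ * _
    linarith only [hK, hKO]
  · have hvn : ‖wkb_v t b b₁ ρ‖ ≤ K := by
      rw [r2, norm_mul, norm_I, one_mul]
      refine (norm_wk _ _ _ _).trans ?_
      rw [norm_neg]
      exact hS ρ hr
    have e : b₁ ρ = ((t / pp ρ : ℝ) : ℂ) * wkb_v t b b₁ ρ + (wkb_mu ρ : ℂ) * b ρ := by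
      have h1 : (t : ℂ) ≠ 0 := by exact_mod_cast ht.ne'
      have h2 : (pp ρ : ℂ) ≠ 0 := by exact_mod_cast p0.ne'
      simp only [wkb_v]
      push_cast
      field_simp
      ring
    have q0 := hq0 ρ hr
    have m0 : 0 ≤ wkb_mu ρ := by
      have := sub_pos.2 (qq_lt ρ)
      unfold wkb_mu
      positivity
    have m1 : wkb_mu ρ * pp ρ ≤ t / pp ρ := by
      have a1 : wkb_mu ρ ≤ pp ρ ^ 4 := by
        rw [wkb_mu, div_le_iff₀ (by positivity)]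
        linarith only [p4, q0]
      have a2 : pp ρ ^ 6 ≤ (1 / d) ^ 6 := by gcongr; exact pp_le hd hρ
      have a3 : (1 / d) ^ 6 ≤ t := by
        rw [one_div, inv_pow, inv_le_iff_one_le_mul₀ (by positivity)]
        exact htd
      rw [le_div_iff₀ p0]
      calc wkb_mu ρ * pp ρ * pp ρ ≤ pp ρ ^ 4 * pp ρ * pp ρ := by gcongr
        _ = pp ρ ^ 6 := by ring
        _ ≤ t := a2.trans a3
    rw [e]
    refine (norm_add_le _ _).trans ?_
    rw [norm_mul, norm_mul, norm_real, norm_real, Real.norm_of_nonneg (by positivity),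
      Real.norm_of_nonneg m0]
    calc t / pp ρ * ‖wkb_v t b b₁ ρ‖ + wkb_mu ρ * ‖b ρ‖
        ≤ t / pp ρ * K + wkb_mu ρ * (pp ρ * K) := by gcongr; exact hb ρ hr
      _ = t / pp ρ * K + wkb_mu ρ * pp ρ * K := by ring
      _ ≤ t / pp ρ * K + t / pp ρ * K := by gcongr
      _ = 2 * K * t / pp ρ := by ring
      _ ≤ _ := by gcongr ?_ * _ / _; linarith only [hK, hKO]

theorem wkc_pt {d : ℝ} (hd : 0 < d) (hd1 : d ^ 4 ≤ 1 / 2) :
    ∃ r : ℝ, qq r = d ^ 4 ∧ r ≤ 0 ∧ -d ^ 4 ≤ r ∧ ∀ ρ, (qq ρ ≤ d ^ 4 → r ≤ ρ) ∧ (ρ ≤ r → d ^ 4 ≤ qq ρ) := by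
  have h4 : 0 < d ^ 4 := by positivity
  have h1 : 0 < 1 - d ^ 4 := by linarith
  have e : Real.exp (2 * (Real.log (1 - d ^ 4) / 2)) = 1 - d ^ 4 := by
    rw [mul_div_cancel₀ _ two_ne_zero, Real.exp_log h1]
  refine ⟨Real.log (1 - d ^ 4) / 2, by rw [qq, e]; ring, ?_, ?_, fun ρ => ⟨fun h => ?_, fun h => ?_⟩⟩
  · have := Real.log_nonpos h1.le (by linarith only [h4])
    linarith only [this]
  · have a := Real.one_sub_inv_le_log_of_pos h1
    have b : (1 - d ^ 4)⁻¹ ≤ 1 + 2 * d ^ 4 := by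
      rw [inv_le_iff_one_le_mul₀ h1]
      nlinarith only [hd1, h4]
    linarith only [a, b]
  · have : Real.exp (2 * (Real.log (1 - d ^ 4) / 2)) ≤ Real.exp (2 * ρ) := by
      rw [e]; unfold qq at h; linarith only [h]
    have := Real.exp_le_exp.1 this
    linarith only [this]
  · have : Real.exp (2 * ρ) ≤ Real.exp (2 * (Real.log (1 - d ^ 4) / 2)) :=
      Real.exp_le_exp.2 (by linarith only [h])
    rw [e] at this
    unfold qq
    linarith only [this]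

theorem wkc_two {t d O : ℝ} {b b₁ : ℝ → ℂ} (ht : 0 < t) (h : Sol t b b₁) (hO : 0 ≤ O) (hd : 0 < d)
    (hd1 : d ^ 4 ≤ 1 / 2) (htd : 1 ≤ t * d ^ 6)
    (hw : ∀ ρ, d ^ 4 ≤ qq ρ → ‖b ρ‖ ≤ 4 * O * pp ρ ∧ ‖b₁ ρ‖ ≤ 8 * O * t / pp ρ) {ρ : ℝ}
    (hρ : qq ρ ≤ 2 * d ^ 4) : ‖b ρ‖ ≤ 13 * O * t * d ^ 5 := by
  have h4 : 0 < d ^ 4 := by positivity
  have hinv : 1 / d ≤ t * d ^ 5 := by
    rw [div_le_iff₀ hd]
    linarith only [htd]
  have hX : 0 ≤ O * t * d ^ 5 := by positivity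
  have h1 : ∀ x, d ^ 4 ≤ qq x → ‖b x‖ ≤ 4 * O * (1 / d) := fun x hx =>
    (hw x hx).1.trans (by gcongr; exact pp_le hd hx)
  have h2 : ∀ x, d ^ 4 ≤ qq x → ‖b x‖ ≤ 4 * (O * t * d ^ 5) := fun x hx =>
    (h1 x hx).trans (by
      calc 4 * O * (1 / d) ≤ 4 * O * (t * d ^ 5) := by gcongr
        _ = _ := by ring)
  obtain ⟨r, r1, r2, r3, r4⟩ := wkc_pt hd hd1
  have hp : pp r * d = 1 := by
    obtain ⟨p0, -, p4⟩ := pp_pow (ρ := r) (r1 ▸ h4)
    rw [r1, ← mul_pow] at p4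
    exact (pow_eq_one_iff_of_nonneg (by positivity) (by norm_num)).1 p4
  have hb1 : ‖b₁ r‖ ≤ 8 * (O * t * d) := by
    refine (hw r r1.ge).2.trans (le_of_eq ?_)
    have : pp r ≠ 0 := left_ne_zero_of_mul_eq_one hp
    rw [div_eq_iff this]
    linear_combination (-(8 * O * t)) * hp
  have hE : t ^ 2 * qq r * ‖b r‖ ^ 2 + ‖b₁ r‖ ^ 2 ≤ (9 * (O * t * d)) ^ 2 := by
    have a1 : t ^ 2 * qq r * ‖b r‖ ^ 2 ≤ t ^ 2 * d ^ 4 * (4 * O * (1 / d)) ^ 2 := by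
      rw [r1]
      gcongr
      exact h1 r r1.ge
    have a2 : t ^ 2 * d ^ 4 * (4 * O * (1 / d)) ^ 2 = 16 * (O * t * d) ^ 2 := by field_simp; ring
    have a3 : ‖b₁ r‖ ^ 2 ≤ (8 * (O * t * d)) ^ 2 := by gcongr
    linarith only [sq_nonneg (O * t * d), a1, a2, a3]
  have h3 : ∀ x, r ≤ x → x ≤ 0 → ‖b x‖ ≤ 13 * (O * t * d ^ 5) := fun x hx hx0 => by
    have key := norm_image_sub_le_of_norm_deriv_le_segment' (f := b) (f' := b₁) (a := r) (b := x)
      (C := 9 * (O * t * d)) (fun y _ => (h.d0 y).hasDerivWithinAt) (fun y hy => by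
        have q0 : 0 ≤ qq y := by
          have : Real.exp (2 * y) ≤ 1 := Real.exp_le_one_iff.2 (by linarith only [hy.2, hx0])
          unfold qq
          linarith only [this]
        have e1 := h.energy hy.1
        have e2 : 0 ≤ t ^ 2 * qq y * ‖b y‖ ^ 2 := by positivity
        exact le_of_sq_le_sq (by simp only at e1; linarith only [hE, e1, e2]) (by positivity) |>.trans le_rfl)
      x ⟨hx, le_rfl⟩
    have a1 := norm_sub_norm_le (b x) (b r)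
    have a2 := h2 r r1.ge
    have a3 : 9 * (O * t * d) * (x - r) ≤ 9 * (O * t * d) * d ^ 4 := by gcongr; linarith only [r3, hx0]
    have a4 : 9 * (O * t * d) * d ^ 4 = 9 * (O * t * d ^ 5) := by ring
    linarith only [key, a1, a2, a3]
  rw [show 13 * O * t * d ^ 5 = 13 * (O * t * d ^ 5) by ring]
  rcases le_total (d ^ 4) (qq ρ) with c | c
  · linarith only [h2 ρ c, hX]
  rcases le_total ρ 0 with c0 | c0
  · exact h3 ρ ((r4 ρ).1 c) c0
  · have := h.decay (r₁ := 0) (κ := 0) le_rfl le_rfl (by simp) c0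
    rw [zero_mul, zero_div, neg_zero, Real.exp_zero, mul_one] at this
    exact this.trans (h3 0 r2 le_rfl)

theorem wkc_three {t d X : ℝ} {b b₁ : ℝ → ℂ} (ht : 0 < t) (h : Sol t b b₁) (hd : 0 < d)
    (hw : ∀ ρ, qq ρ ≤ 2 * d ^ 4 → ‖b ρ‖ ≤ X) {ρ : ℝ} (hρ : d ^ 4 / 3 ≤ ρ) :
    ‖b ρ‖ ≤ X * Real.exp (-(t * d ^ 2 * ρ / 5)) := by
  have h4 : 0 < d ^ 4 := by positivity
  have key := h.decay (r₁ := ρ / 2) (κ := 4 / 5 * (t * d ^ 2)) (r := ρ) (by linarith) (by positivity)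
    (by
      have a1 := Real.add_one_le_exp (2 * (ρ / 2))
      have a2 : 2 * t ^ 2 * (d ^ 4 / 3) ≤ 2 * t ^ 2 * (Real.exp (2 * (ρ / 2)) - 1) := by
        gcongr; linarith
      have a3 : 0 ≤ t ^ 2 * d ^ 4 := by positivity
      nlinarith only [a2]) (by linarith)
  rw [show 4 / 5 * (t * d ^ 2) * (ρ - ρ / 2) / 2 = t * d ^ 2 * ρ / 5 by ring] at key
  refine key.trans (mul_le_mul_of_nonneg_right (hw _ ?_) (Real.exp_pos _).le)
  have : 1 ≤ Real.exp (2 * (ρ / 2)) := Real.one_le_exp (by linarith)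
  unfold qq
  linarith only [h4, this]

theorem wkc_four {d O : ℝ} {b : ℝ → ℂ} (hc : Continuous b)
    (hi : ∀ ρ, IntegrableOn (fun x => ‖b x‖ ^ 2) (Ioi ρ)) (hO : 0 ≤ O) (hd : 0 < d)
    (hd1 : d ^ 4 ≤ 1 / 2) (h1 : ∀ ρ, d ^ 4 ≤ qq ρ → ‖b ρ‖ ≤ 4 * O * pp ρ)
    (h2 : ∀ ρ, qq ρ ≤ 2 * d ^ 4 → ‖b ρ‖ ≤ 13 * O / d)
    (h3 : ∀ ρ, d ^ 4 / 3 ≤ ρ → ‖b ρ‖ ≤ 13 * O / d * Real.exp (-(ρ / (5 * d ^ 4)))) (ρ₁ : ℝ) :
    ∫ ρ in Ioi ρ₁, ‖b ρ‖ ^ 2 ≤ 2600 * O ^ 2 * (1 + |ρ₁|) := by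
  have h4 : 0 < d ^ 4 := by positivity
  obtain ⟨r, r1, r2, r3, r4⟩ := wkc_pt hd hd1
  have hc0 : -(2 / (5 * d ^ 4)) < 0 := neg_neg_of_pos (by positivity)
  have A1 : ∫ ρ in Ioi r, ‖b ρ‖ ^ 2 ≤ 2535 * O ^ 2 := by
    have b1 : ∫ ρ in Ioi r, ‖b ρ‖ ^ 2 ≤
        ∫ ρ in Ioi r, 2 * (13 * O / d) ^ 2 * Real.exp (-(2 / (5 * d ^ 4)) * ρ) := by
      refine setIntegral_mono_on (hi r) ((integrableOn_exp_mul_Ioi hc0 r).const_mul _)
        measurableSet_Ioi fun x hx => ?_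
      have hx' : r < x := hx
      rcases le_total x (d ^ 4 / 3) with c | c
      · have q1 : qq x ≤ 2 * d ^ 4 := by
          have : Real.exp (2 * r) ≤ Real.exp (2 * x) := Real.exp_le_exp.2 (by linarith only [hx'])
          unfold qq at r1 ⊢
          linarith only [h4, r1, this]
        have a1 : ‖b x‖ ^ 2 ≤ (13 * O / d) ^ 2 := by gcongr; exact h2 x q1
        have a2 := Real.add_one_le_exp (-(2 / (5 * d ^ 4)) * x)
        have a3 : 2 / (5 * d ^ 4) * x ≤ 2 / (5 * d ^ 4) * (d ^ 4 / 3) := by gcongr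
        have a4 : 2 / (5 * d ^ 4) * (d ^ 4 / 3) = 2 / 15 := by field_simp; ring
        have a5 : 1 / 2 ≤ Real.exp (-(2 / (5 * d ^ 4)) * x) := by linarith only [a2, a3, a4]
        nlinarith only [a1, a2, a3, a4]
      · have a1 : ‖b x‖ ^ 2 ≤ (13 * O / d * Real.exp (-(x / (5 * d ^ 4)))) ^ 2 := by
          gcongr; exact h3 x c
        have a2 : Real.exp (-(x / (5 * d ^ 4))) ^ 2 = Real.exp (-(2 / (5 * d ^ 4)) * x) := by
          rw [← Real.exp_nat_mul]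
          congr 1
          push_cast
          ring
        rw [mul_pow, a2] at a1
        have a3 : 0 ≤ (13 * O / d) ^ 2 * Real.exp (-(2 / (5 * d ^ 4)) * x) := by positivity
        linarith only [a1, a3]
    rw [integral_const_mul, integral_exp_mul_Ioi hc0] at b1
    have b2 : Real.exp (-(2 / (5 * d ^ 4)) * r) ≤ 3 := by
      have a1 : 2 / (5 * d ^ 4) * (-r) ≤ 2 / (5 * d ^ 4) * d ^ 4 := by gcongr; linarith only [r3]
      have a2 : 2 / (5 * d ^ 4) * d ^ 4 = 2 / 5 := by field_simp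
      have a3 : Real.exp (-(2 / (5 * d ^ 4)) * r) ≤ Real.exp 1 := Real.exp_le_exp.2 (by linarith only [a1, a2])
      linarith only [Real.exp_one_lt_d9, a3]
    have b3 : d ^ 2 ≤ 1 := by nlinarith only [hd1]
    calc _ ≤ _ := b1
      _ = 845 * O ^ 2 * d ^ 2 * Real.exp (-(2 / (5 * d ^ 4)) * r) := by field_simp; ring
      _ ≤ 845 * O ^ 2 * 1 * 3 := by gcongr
      _ = _ := by ring
  have hm : min ρ₁ r ≤ r := min_le_right _ _
  have A2 : ∫ ρ in min ρ₁ r..r, ‖b ρ‖ ^ 2 ≤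
      16 * O ^ 2 * (r - gg r) - 16 * O ^ 2 * (min ρ₁ r - gg (min ρ₁ r)) := by
    refine intervalIntegral.integral_le_sub_of_hasDeriv_right_of_le
      (g := fun x => 16 * O ^ 2 * (x - gg x)) (g' := fun x => 16 * O ^ 2 * (1 - (gg x - (gg x)⁻¹)))
      hm (continuous_const.mul (continuous_id.sub continuous_gg)).continuousOn
      (fun x hx => (((hasDerivAt_id x).sub (hasDerivAt_gg (h4.trans_le ((r4 x).2 hx.2.le)))).const_mul
        _).hasDerivWithinAt) (hc.norm.pow 2).integrableOn_Icc fun x hx => ?_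
    have q1 := (r4 x).2 hx.2.le
    obtain ⟨p0, p2, -⟩ := pp_pow (h4.trans_le q1)
    have a1 : ‖b x‖ ^ 2 ≤ (4 * O * pp x) ^ 2 := by gcongr; exact h1 x q1
    have a2 : pp x ^ 2 = (gg x)⁻¹ := eq_inv_of_mul_eq_one_left p2
    have a3 : gg x ≤ 1 := Real.sqrt_le_one.2 (qq_lt x).le
    have a4 : 0 ≤ O ^ 2 * (1 - gg x) := mul_nonneg (sq_nonneg _) (by linarith only [a3])
    rw [mul_pow, a2] at a1
    linarith only [a1, a4]
  have A3 : r - gg r - (min ρ₁ r - gg (min ρ₁ r)) ≤ 1 + |ρ₁| := by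
    have a1 : 0 ≤ gg r := Real.sqrt_nonneg _
    have a2 : gg (min ρ₁ r) ≤ 1 := Real.sqrt_le_one.2 (qq_lt _).le
    have a3 : -|ρ₁| ≤ ρ₁ := neg_abs_le _
    have a4 : r - |ρ₁| ≤ min ρ₁ r := le_min (by linarith only [r2, a3]) (by linarith only [abs_nonneg ρ₁])
    linarith only [a1, a2, a4]
  have A4 : ∫ ρ in Ioi ρ₁, ‖b ρ‖ ^ 2 ≤ ∫ ρ in Ioi (min ρ₁ r), ‖b ρ‖ ^ 2 :=
    setIntegral_mono_set (hi _) (Filter.Eventually.of_forall fun x => by positivity)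
      (Ioi_subset_Ioi (min_le_left _ _)).eventuallyLE
  rw [← intervalIntegral.integral_interval_add_Ioi (hi (min ρ₁ r)) (hi r)] at A4
  have A5 := mul_le_mul_of_nonneg_left A3 (sq_nonneg O)
  have A6 : 0 ≤ O ^ 2 * |ρ₁| := by positivity
  linarith only [sq_nonneg O, A1, A2, A4, A5, A6]

/-- WKC.  Paper 2, (w2), (w3), (w4) from `Sol.wkb`, `Sol.energy`, `Sol.decay`. -/
theorem exists_wkb : ∃ k : ℝ, 1 ≤ k ∧ ∀ (t : ℝ) (b b₁ : ℝ → ℂ), 3 ≤ t → Sol t b b₁ →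
    ∃ Cp Cm : ℂ, Wkb k t b Cp Cm := by
  refine ⟨2600, by norm_num, fun t b b₁ ht3 h => ?_⟩
  have ht : 0 < t := by linarith
  obtain ⟨Cp, Cm, hw⟩ := h.wkb ht
  have hO : 0 ≤ ‖Cp‖ + ‖Cm‖ := by positivity
  have hc : Continuous b := continuous_iff_continuousAt.2 fun x => (h.d0 x).continuousAt
  have w2 : ∀ d : ℝ, 0 < d → d ^ 4 ≤ 1 / 2 → 1 ≤ t * d ^ 6 → ∀ ρ, qq ρ ≤ 2 * d ^ 4 →
      ‖b ρ‖ ≤ 13 * (‖Cp‖ + ‖Cm‖) * t * d ^ 5 := fun d hd h1 h2 ρ hρ =>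
    wkc_two ht h hO hd h1 h2 (fun x hx => (hw d hd h1 h2 x hx).2) hρ
  have hi : ∀ ρ, IntegrableOn (fun x => ‖b x‖ ^ 2) (Ioi ρ) := fun ρ =>
    (((hc.norm.pow 2).integrableOn_Icc (a := ρ) (b := 0)).union h.int).mono_set fun x hx => by
      rcases le_or_gt x 0 with c | c
      · exact Or.inl ⟨le_of_lt hx, c⟩
      · exact Or.inr c
  refine ⟨Cp, Cm, hc, fun d hd h1 h2 ρ hρ => (hw d hd h1 h2 ρ hρ).1,
    fun d hd h1 h2 ρ hρ => (w2 d hd h1 h2 ρ hρ).trans (by gcongr; norm_num),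
    fun d hd h1 h2 ρ hρ => (wkc_three ht h hd (w2 d hd h1 h2) hρ).trans (by gcongr; norm_num),
    fun ρ₁ => ⟨hi ρ₁, ?_⟩⟩
  obtain ⟨d, hd, hd6⟩ : ∃ d : ℝ, 0 < d ∧ t * d ^ 6 = 1 := by
    refine ⟨t⁻¹ ^ (((6 : ℕ) : ℝ)⁻¹), by positivity, ?_⟩
    rw [Real.rpow_inv_natCast_pow (by positivity) (by norm_num), mul_inv_cancel₀ ht.ne']
  have hd1 : d ^ 4 ≤ 1 / 2 := by
    refine le_of_pow_le_pow_left₀ (n := 3) (by norm_num) (by norm_num) ?_
    have a1 : 3 * d ^ 6 ≤ t * d ^ 6 := by gcongr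
    have a2 : 0 ≤ d ^ 6 := by positivity
    rw [show (d ^ 4) ^ 3 = d ^ 6 * d ^ 6 by ring]
    nlinarith only [ht3, hd6, a1]
  have e1 : 13 * (‖Cp‖ + ‖Cm‖) * t * d ^ 5 = 13 * (‖Cp‖ + ‖Cm‖) / d := by
    rw [eq_div_iff hd.ne']
    linear_combination (13 * (‖Cp‖ + ‖Cm‖)) * hd6
  refine wkc_four hc hi hO hd hd1 (fun ρ hρ => (hw d hd hd1 hd6.ge ρ hρ).2.1)
    (fun ρ hρ => e1 ▸ w2 d hd hd1 hd6.ge ρ hρ) (fun ρ hρ => ?_) ρ₁
  have key := wkc_three ht h hd (w2 d hd hd1 hd6.ge) hρ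
  have e2 : t * d ^ 2 * ρ / 5 = ρ / (5 * d ^ 4) := by
    rw [div_eq_div_iff (by norm_num) (by positivity)]
    linear_combination (5 * ρ) * hd6
  rwa [e1, e2] at key

theorem Wkb.mono {k k' t : ℝ} {b : ℝ → ℂ} {Cp Cm : ℂ} (h : Wkb k t b Cp Cm) (ht : 0 ≤ t)
    (hk : k ≤ k') : Wkb k' t b Cp Cm :=
  ⟨h.cont, h.w1, fun d h1 h2 h3 ρ h4 => (h.w2 d h1 h2 h3 ρ h4).trans (by gcongr),
    fun d h1 h2 h3 ρ h4 => (h.w3 d h1 h2 h3 ρ h4).trans (by gcongr),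
    fun ρ => ⟨(h.w4 ρ).1, (h.w4 ρ).2.trans (by gcongr)⟩⟩

theorem wkd_rho {y ρ : ℝ} (h0 : 0 ≤ y) (h1 : y ≤ 1 / 2) (h : 1 + y ≤ Real.exp (2 * ρ)) :
    y / 3 ≤ ρ := by
  by_contra hc
  have hc' : 2 * ρ < 2 * y / 3 := by linarith only [hc]
  have h2 : Real.exp (2 * ρ) < Real.exp (2 * y / 3) := Real.exp_lt_exp.2 hc'
  have h3 : 1 - 2 * y / 3 ≤ Real.exp (-(2 * y / 3)) := by
    linarith only [Real.add_one_le_exp (-(2 * y / 3))]
  have h4 : Real.exp (2 * y / 3) * Real.exp (-(2 * y / 3)) = 1 := by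
    rw [← Real.exp_add, add_neg_cancel, Real.exp_zero]
  have h5 : (1 + y) * (1 - 2 * y / 3) < 1 := by
    calc (1 + y) * (1 - 2 * y / 3) ≤ (1 + y) * Real.exp (-(2 * y / 3)) :=
          mul_le_mul_of_nonneg_left h3 (by linarith only [h0])
      _ < Real.exp (2 * y / 3) * Real.exp (-(2 * y / 3)) :=
          mul_lt_mul_of_pos_right (lt_of_le_of_lt h h2) (Real.exp_pos _)
      _ = 1 := h4
  linarith only [mul_nonneg h0 (sub_nonneg.2 h1), h5]

theorem wkd_exp {s y ρ : ℝ} (hs : 40 ≤ s) (h0 : 0 ≤ y) (h : y / 3 ≤ ρ) :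
    Real.exp (-(s * ρ / 5)) ≤ Real.exp (-(s * y / 30)) * Real.exp (-ρ) ^ 4 := by
  rw [← Real.exp_nat_mul, ← Real.exp_add]
  refine Real.exp_le_exp.2 ?_
  have h1 : 0 ≤ ρ := by linarith
  have h2 : s * (y / 3) ≤ s * ρ := mul_le_mul_of_nonneg_left h (by linarith only [hs])
  have h3 : 40 * ρ ≤ s * ρ := mul_le_mul_of_nonneg_right hs h1
  push_cast
  linarith only [h2, h3]

theorem wkd_term {k t B d r : ℝ} {b : ℝ → ℂ} {Cp Cm : ℂ} {l : ℝ} {n : ℕ} (hk : 0 ≤ k)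
    (hB : 0 ≤ B) (h : Wkb k t b Cp Cm) (hn : 1 ≤ n) (hl : (‖Cp‖ + ‖Cm‖) * |l| ≤ B * n) (hd : 0 < d)
    (hd1 : d ^ 4 ≤ 1 / 2) (htd : 1 ≤ t * d ^ 6) (ht2 : 40 ≤ t * d ^ 2)
    (hρ : d ^ 4 / 3 ≤ r + Real.log n) :
    |l| * ‖b (r + Real.log n)‖ ≤
      k * B * t * d ^ 5 * Real.exp (-(t * d ^ 6 / 30)) * Real.exp (-r) ^ 4 * (1 / (n : ℝ) ^ 2) := by
  have hn1 : (1 : ℝ) ≤ n := by exact_mod_cast hn
  have hn0 : (0 : ℝ) < n := by linarith only [hn1]
  have ht : 0 ≤ t := by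
    by_contra hc
    have : t * d ^ 2 ≤ 0 := mul_nonpos_of_nonpos_of_nonneg (not_le.1 hc).le (by positivity)
    linarith only [ht2, this]
  have h1 := h.w3 d hd hd1 htd _ hρ
  have h2 := wkd_exp ht2 (by positivity) hρ
  have h3 : t * d ^ 2 * d ^ 4 = t * d ^ 6 := by ring
  have h4 : Real.exp (-(r + Real.log n)) = Real.exp (-r) / n := by
    rw [neg_add, Real.exp_add, Real.exp_neg (Real.log n), Real.exp_log hn0, div_eq_mul_inv]
  rw [h3, h4] at h2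
  set E := Real.exp (-(t * d ^ 6 / 30)) with hE
  set R := Real.exp (-r) with hR
  have hE0 : 0 ≤ E := (Real.exp_pos _).le
  have hR0 : 0 ≤ R := (Real.exp_pos _).le
  have h5 : (n : ℝ) * (R / n) ^ 4 ≤ R ^ 4 * (1 / (n : ℝ) ^ 2) := by
    have : (n : ℝ) * (R / n) ^ 4 = R ^ 4 * (1 / (n : ℝ) ^ 3) := by field_simp
    rw [this]
    exact mul_le_mul_of_nonneg_left
      (one_div_le_one_div_of_le (by positivity) (pow_le_pow_right₀ hn1 (by norm_num)))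
      (by positivity)
  calc |l| * ‖b (r + Real.log n)‖
      ≤ |l| * (k * (‖Cp‖ + ‖Cm‖) * t * d ^ 5 * (E * (R / n) ^ 4)) :=
        mul_le_mul_of_nonneg_left (h1.trans (mul_le_mul_of_nonneg_left h2 (by positivity)))
          (abs_nonneg _)
    _ = k * t * d ^ 5 * E * (R / n) ^ 4 * ((‖Cp‖ + ‖Cm‖) * |l|) := by ring
    _ ≤ k * t * d ^ 5 * E * (R / n) ^ 4 * (B * n) := mul_le_mul_of_nonneg_left hl (by positivity)
    _ = k * B * t * d ^ 5 * E * (n * (R / n) ^ 4) := by ring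
    _ ≤ k * B * t * d ^ 5 * E * (R ^ 4 * (1 / (n : ℝ) ^ 2)) :=
        mul_le_mul_of_nonneg_left h5 (by positivity)
    _ = _ := by ring

/-- WKD.  Paper 7, TL.  The difference is the sum of the terms times `cm d` for `n ≤ N` and of the
terms with `n > N`; in all of them `ρ = r + log n ≥ d ^ 4 / 3`, and
`exp (- t d² ρ / 5) ≤ exp (- t d⁶ / 30) exp (- 4 ρ)`. -/
theorem tail_le {k t B d r x G : ℝ} {b : ℝ → ℂ} {Cp Cm : ℂ} {lam : ℕ → ℝ} {N : ℕ} (hk : 0 ≤ k)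
    (hB : 0 ≤ B) (h : Wkb k t b Cp Cm) (h0 : lam 0 = 0)
    (hl : ∀ n : ℕ, (‖Cp‖ + ‖Cm‖) * |lam n| ≤ B * n) (hd : 0 < d) (hd1 : d ^ 4 ≤ 1 / 2)
    (htd : 1 ≤ t * d ^ 6) (ht2 : 40 ≤ t * d ^ 2) (hN : 2 ≤ N * Real.exp r)
    (hG : HasSum (fun n : ℕ => 2 * ((lam n : ℂ) * b (r + Real.log n) * ee (n * x)).re) G) :
    |G - tp (Finset.Icc 1 N)
        (fun n => ((lam n * (1 - cm d (r + Real.log n)) : ℝ) : ℂ) * b (r + Real.log n)) x| ≤
      4 * k * B * t * d ^ 5 * Real.exp (-(t * d ^ 6 / 30)) * Real.exp (-r) ^ 4 := by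
  classical
  have ht : 0 ≤ t := by
    by_contra hc
    have : t * d ^ 2 ≤ 0 := mul_nonpos_of_nonpos_of_nonneg (not_le.1 hc).le (by positivity)
    linarith only [ht2, this]
  set C := k * B * t * d ^ 5 * Real.exp (-(t * d ^ 6 / 30)) * Real.exp (-r) ^ 4 with hC
  have hC0 : 0 ≤ C := by positivity
  set f : ℕ → ℝ := fun n => 2 * ((lam n : ℂ) * b (r + Real.log n) * ee (n * x)).re with hf
  set g : ℕ → ℝ := fun n => if n ∈ Finset.Icc 1 N then (1 - cm d (r + Real.log n)) * f n else 0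
    with hg
  have h1 : HasSum g (tp (Finset.Icc 1 N)
      (fun n => ((lam n * (1 - cm d (r + Real.log n)) : ℝ) : ℂ) * b (r + Real.log n)) x) := by
    have h2 : tp (Finset.Icc 1 N)
        (fun n => ((lam n * (1 - cm d (r + Real.log n)) : ℝ) : ℂ) * b (r + Real.log n)) x =
        ∑ n ∈ Finset.Icc 1 N, g n := by
      refine Finset.sum_congr rfl fun n hn => ?_
      have h3 : ((lam n * (1 - cm d (r + Real.log n)) : ℝ) : ℂ) * b (r + Real.log n) * ee (n * x) =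
          ((1 - cm d (r + Real.log n) : ℝ) : ℂ) *
            ((lam n : ℂ) * b (r + Real.log n) * ee (n * x)) := by
        rw [ofReal_mul]
        ring
      simp only [hg, hf, if_pos hn]
      rw [h3, re_ofReal_mul]
      ring
    rw [h2]
    exact hasSum_sum_of_ne_finset_zero fun n hn => if_neg hn
  have h2 : HasSum (fun n : ℕ => 2 * C * (1 / (n : ℝ) ^ 2)) (2 * C * (Real.pi ^ 2 / 6)) :=
    hasSum_zeta_two.mul_left _
  have hfn : ∀ n : ℕ, 1 ≤ n → d ^ 4 / 3 ≤ r + Real.log n → |f n| ≤ 2 * C * (1 / (n : ℝ) ^ 2) := by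
    intro n hn hρ
    have h3 := wkd_term hk hB h hn (hl n) hd hd1 htd ht2 hρ
    have h4 := abs_re_le_norm ((lam n : ℂ) * b (r + Real.log n) * ee (n * x))
    rw [norm_mul, norm_mul, norm_ee, mul_one, norm_real, Real.norm_eq_abs] at h4
    simp only [hf, abs_mul, abs_two]
    linarith only [h3, h4]
  have h3 : ∀ n : ℕ, ‖f n - g n‖ ≤ 2 * C * (1 / (n : ℝ) ^ 2) := by
    intro n
    rw [Real.norm_eq_abs]
    by_cases hn : n ∈ Finset.Icc 1 N
    · have e : f n - g n = cm d (r + Real.log n) * f n := by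
        simp only [hg, if_pos hn]
        ring
      rw [e]
      by_cases hq : -d ^ 4 ≤ qq (r + Real.log n)
      · rw [(ct_eq hd _).2.2.1 hq, zero_mul, abs_zero]
        positivity
      · have hρ : d ^ 4 / 3 ≤ r + Real.log n := by
          refine wkd_rho (by positivity) hd1 ?_
          have := not_le.1 hq
          unfold qq at this
          linarith only [this]
        obtain ⟨-, -, c0, c1⟩ := ct_mem d (r + Real.log n)
        rw [abs_mul, abs_of_nonneg c0]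
        exact (mul_le_of_le_one_left (abs_nonneg _) c1).trans (hfn n (Finset.mem_Icc.1 hn).1 hρ)
    · have e : f n - g n = f n := by simp only [hg, if_neg hn, sub_zero]
      rw [e]
      rcases Nat.eq_zero_or_pos n with rfl | hn0
      · simp [hf, h0]
      · have hNn : N ≤ n := by
          by_contra hc
          exact hn (Finset.mem_Icc.2 ⟨hn0, (not_le.1 hc).le⟩)
        have hn1 : (0 : ℝ) < n := by exact_mod_cast hn0
        refine hfn n hn0 (wkd_rho (by positivity) hd1 ?_)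
        have e1 : Real.exp (r + Real.log n) = n * Real.exp r := by
          rw [Real.exp_add, Real.exp_log hn1, mul_comm]
        have e2 : (2 : ℝ) ≤ n * Real.exp r :=
          hN.trans (mul_le_mul_of_nonneg_right (by exact_mod_cast hNn) (Real.exp_pos r).le)
        rw [two_mul, Real.exp_add, e1]
        nlinarith only [hd1, e2]
  have h4 := (hG.sub h1).norm_le_of_bounded h2 h3
  rw [Real.norm_eq_abs] at h4
  have h5 : Real.pi ^ 2 / 6 ≤ 2 := by nlinarith only [Real.pi_pos, Real.pi_lt_d2]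
  calc _ ≤ 2 * C * (Real.pi ^ 2 / 6) := h4
    _ ≤ 2 * C * 2 := mul_le_mul_of_nonneg_left h5 (by positivity)
    _ = _ := by rw [hC]; ring

theorem wke_win {T M t τ : ℝ} (hM : 1 ≤ M) (hT : T ≤ M ^ 2) (hMT : M ≤ T) (h1 : T ≤ t)
    (h2 : t ≤ T + M) (hτ : τ ∈ Icc (-(1 / (100 * M))) (1 / (100 * M))) :
    7 / 10 ≤ qq (τ + Real.log (T / (2 * t))) ∧
      |t * gg (τ + Real.log (T / (2 * t))) - T * √3 / 2| ≤ 4 * M := by
  have hT0 : 0 < T := by linarith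
  have ht0 : 0 < t := by linarith
  have hm : 1 / (100 * M) ≤ 1 / 100 := one_div_le_one_div_of_le (by norm_num) (by linarith only [hM])
  have ha := abs_le.2 hτ
  have hE := Real.abs_exp_sub_one_le (ha.trans (by linarith only [hm]))
  have hq := qq_log τ (n := T / (2 * t)) (by positivity)
  have hE0 := Real.exp_pos τ
  generalize Real.exp τ = E at hE hq hE0
  have hE1 := abs_le.1 (hE.trans (by linarith only [hm, ha] : 2 * |τ| ≤ 1 / 50))
  have hE2 : |E - 1| * M ≤ 1 / 50 := by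
    have : |τ| * (100 * M) ≤ 1 := (le_div_iff₀ (by positivity)).1 ha
    linarith only [mul_le_mul_of_nonneg_right hE (by linarith only [hM] : 0 ≤ M), this]
  have hx : T / (2 * t) ≤ 1 / 2 := by
    rw [div_le_iff₀ (by positivity)]
    linarith only [h1]
  have hx1 : T / (2 * t) * E ≤ 1 / 2 * (51 / 50) :=
    mul_le_mul hx (by linarith only [hE1]) hE0.le (by norm_num)
  have hx0 : 0 ≤ T / (2 * t) * E := by positivity
  have hq1 : 7 / 10 ≤ qq (τ + Real.log (T / (2 * t))) := by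
    rw [hq]
    nlinarith only [hx1, hx0]
  refine ⟨hq1, ?_⟩
  have hg : (t * gg (τ + Real.log (T / (2 * t)))) ^ 2 = t ^ 2 - T ^ 2 * E ^ 2 / 4 := by
    rw [mul_pow, gg, Real.sq_sqrt (by linarith only [hq1]), hq]
    field_simp
    ring
  have hg0 : 0 ≤ t * gg (τ + Real.log (T / (2 * t))) := mul_nonneg ht0.le (Real.sqrt_nonneg _)
  generalize t * gg (τ + Real.log (T / (2 * t))) = x at hg hg0
  have h3 : (8 / 5 : ℝ) ≤ √3 := Real.le_sqrt_of_sq_le (by norm_num)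
  have hs : (T * √3 / 2) ^ 2 = 3 * T ^ 2 / 4 := by
    rw [div_pow, mul_pow, Real.sq_sqrt (by norm_num)]
    ring
  have hs1 : 4 / 5 * T ≤ T * √3 / 2 := by nlinarith only [hM, hMT, h3]
  generalize T * √3 / 2 = σ at hs hs1
  have h4 : |(E ^ 2 - 1) * T ^ 2| ≤ T * M / 10 := by
    have e1 : |E ^ 2 - 1| ≤ |E - 1| * 3 := by
      rw [show E ^ 2 - 1 = (E - 1) * (E + 1) by ring, abs_mul, abs_of_pos (by linarith only [hE0] : 0 < E + 1)]
      exact mul_le_mul_of_nonneg_left (by linarith only [hE1]) (abs_nonneg _)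
    rw [abs_mul, abs_of_nonneg (sq_nonneg T)]
    calc _ ≤ |E - 1| * 3 * (T * M ^ 2) :=
          mul_le_mul e1 (by nlinarith only [hM, hT, hMT]) (sq_nonneg T) (by positivity)
      _ = |E - 1| * M * (3 * (T * M)) := by ring
      _ ≤ 1 / 50 * (3 * (T * M)) := mul_le_mul_of_nonneg_right hE2 (by positivity)
      _ ≤ _ := by linarith only [mul_pos hT0 (by linarith only [hM] : 0 < M)]
  have h5 : |x ^ 2 - σ ^ 2| ≤ 16 / 5 * (T * M) := by
    have := abs_le.1 h4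
    have e1 : T ^ 2 ≤ t ^ 2 := pow_le_pow_left₀ hT0.le h1 2
    have e2 : t ^ 2 ≤ (T + M) ^ 2 := pow_le_pow_left₀ ht0.le h2 2
    have e3 : M * M ≤ T * M := mul_le_mul_of_nonneg_right hMT (by linarith only [hM])
    have e4 : 0 ≤ T * M := by positivity
    rw [hg, hs, abs_le]
    constructor <;> linarith only [this, e1, e2, e3]
  have hσ : 0 < σ := by linarith only [hM, hMT, hs1]
  refine le_of_mul_le_mul_right ?_ hσ
  calc |x - σ| * σ ≤ |x - σ| * (x + σ) := mul_le_mul_of_nonneg_left (by linarith only [hg0]) (abs_nonneg _)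
    _ = |x ^ 2 - σ ^ 2| := by
      rw [show x ^ 2 - σ ^ 2 = (x - σ) * (x + σ) by ring, abs_mul,
        abs_of_pos (by linarith only [hg0, hσ] : 0 < x + σ)]
    _ ≤ 4 * M * (4 / 5 * T) := by linarith only [h5]
    _ ≤ _ := mul_le_mul_of_nonneg_left hs1 (by positivity)

theorem wke_supp {L τ : ℝ} (hL : 0 < L) (h : τ ∉ Icc (-(1 / L)) (1 / L)) : zt (L * τ) = 0 := by
  by_contra h0
  have := zt_supp h0
  rw [abs_mul, abs_of_pos hL, mul_comm, ← lt_div_iff₀ hL] at this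
  exact h (abs_le.1 this.le)

theorem wke_int {L : ℝ} (hL : 0 < L) {G : ℝ → ℂ} (hG : Continuous G) :
    Integrable fun τ => (zt (L * τ) : ℂ) * G τ :=
  ((continuous_ofReal.comp (contDiff_zt.continuous.comp (continuous_const.mul continuous_id))).mul
    hG).integrable_of_hasCompactSupport (HasCompactSupport.intro
      (isCompact_Icc (a := -(1 / L)) (b := 1 / L)) fun τ h => by simp [wke_supp hL h])

theorem wke_one {L : ℝ} (hL : 0 < L) : ∫ τ, zt (L * τ) = 1 / L := by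
  rw [Measure.integral_comp_mul_left, int_zt, abs_of_pos (inv_pos.2 hL), smul_eq_mul, mul_one,
    one_div]

theorem wke_bd {L B : ℝ} (hL : 0 < L) {G : ℝ → ℂ}
    (h : ∀ τ ∈ Icc (-(1 / L)) (1 / L), ‖G τ‖ ≤ B) : ‖∫ τ, (zt (L * τ) : ℂ) * G τ‖ ≤ 1 / L * B := by
  have hi : Integrable fun τ => zt (L * τ) := by
    simpa using (wke_int hL (G := fun _ => 1) continuous_const).re
  rw [← wke_one hL, ← integral_mul_const]
  refine norm_integral_le_of_norm_le (hi.mul_const B) (Filter.Eventually.of_forall fun τ => ?_)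
  by_cases hτ : τ ∈ Icc (-(1 / L)) (1 / L)
  · rw [norm_mul, norm_real, Real.norm_of_nonneg (zt_mem _).1]
    exact mul_le_mul_of_nonneg_left (h τ hτ) (zt_mem _).1
  · simp [wke_supp hL hτ]

theorem wke_am {ρ : ℝ} (h : 7 / 10 ≤ qq ρ) :
    am (1 / 2) 1 ρ = pp ρ ∧ 1 ≤ pp ρ ∧ pp ρ ≤ 5 / 4 ∧ 4 / 5 ≤ gg ρ ∧ gg ρ ≤ 1 := by
  have h1 := qq_lt ρ
  obtain ⟨p0, -, p4⟩ := pp_pow (ρ := ρ) (by linarith)
  refine ⟨?_, ?_, ?_, Real.le_sqrt_of_sq_le (by linarith only [h]), Real.sqrt_le_one.2 h1.le⟩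
  · rw [am, (ct_eq (d := 1 / 2) (by norm_num) ρ).2.1 (by linarith),
      (ct_eq one_pos ρ).1 (by linarith only [h1]), sub_zero, one_mul]
  · refine (one_le_pow_iff_of_nonneg p0.le (n := 4) (by norm_num)).1 ?_
    nlinarith only [h, h1, p4]
  · simpa only [one_div, inv_div] using pp_le (d := 4 / 5) (ρ := ρ) (by norm_num) (by linarith)

theorem wke_ci (x y : ℝ) : ‖ci x - ci y‖ ≤ |x - y| := by
  have : ci x - ci y = ci y * (ci (x - y) - 1) := by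
    rw [mul_sub, ← ci_add, mul_one, add_sub_cancel]
  rw [this, norm_mul, norm_ci, one_mul, ci, mul_comm]
  exact Real.norm_exp_I_mul_ofReal_sub_one_le

theorem wke_cont (t u σ : ℝ) :
    Continuous fun τ => (am (1 / 2) 1 (τ + u) : ℂ) * ci (t * FF (τ + u) + σ * τ) := by
  obtain ⟨k, -, hk⟩ := pc_am
  have h := (hk (1 / 2) 1 (by norm_num) (by norm_num) le_rfl).sm.c2.continuous
  have := continuous_ci
  have := continuous_FF
  fun_prop

theorem wke_slow {T M t : ℝ} (hM : 1 ≤ M) (hT : T ≤ M ^ 2) (hMT : M ≤ T) (h1 : T ≤ t)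
    (h2 : t ≤ T + M) {u : ℝ} (hu : u = Real.log (T / (2 * t))) :
    1 / (100 * M) * (7 / 10) ≤ ‖∫ τ, (zt (100 * M * τ) : ℂ) *
      ((am (1 / 2) 1 (τ + u) : ℂ) * ci (t * FF (τ + u) + -(T * √3 / 2) * τ))‖ := by
  have hL : 0 < 100 * M := by positivity
  have hw := fun τ hτ => hu ▸ wke_win (τ := τ) hM hT hMT h1 h2 hτ
  set φ : ℝ → ℝ := fun τ => t * FF (τ + u) + -(T * √3 / 2) * τ with hφ
  have hd : ∀ τ, HasDerivAt φ (t * gg (τ + u) - T * √3 / 2) τ := fun τ => by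
    have := (((hasDerivAt_FF (τ + u)).comp_add_const τ u).const_mul t).fun_add
      ((hasDerivAt_id' τ).const_mul (-(T * √3 / 2)))
    rwa [mul_one, ← sub_eq_add_neg] at this
  have h0 : (0 : ℝ) ∈ Icc (-(1 / (100 * M))) (1 / (100 * M)) :=
    abs_le.1 (by rw [abs_zero]; positivity)
  have hb := wke_bd hL (B := 3 / 10)
    (G := fun τ => (am (1 / 2) 1 (τ + u) : ℂ) * ci (φ τ) - ci (φ 0)) fun τ hτ => by
      obtain ⟨e1, e2, e3, -⟩ := wke_am (hw τ hτ).1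
      have e4 := (convex_Icc _ _).norm_image_sub_le_of_norm_hasDerivWithin_le
        (fun x _ => (hd x).hasDerivWithinAt) (fun x hx => (hw x hx).2) h0 hτ
      rw [sub_zero, Real.norm_eq_abs, Real.norm_eq_abs] at e4
      have e5 : |τ| * (100 * M) ≤ 1 := (le_div_iff₀ hL).1 (abs_le.2 hτ)
      have e6 := wke_ci (φ τ) (φ 0)
      have e7 : ‖((pp (τ + u) - 1 : ℝ) : ℂ) * ci (φ τ)‖ ≤ 1 / 4 := by
        rw [norm_mul, norm_ci, mul_one, norm_real, Real.norm_of_nonneg (by linarith only [e2])]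
        linarith only [e3]
      rw [e1, show (pp (τ + u) : ℂ) * ci (φ τ) - ci (φ 0) =
        ((pp (τ + u) - 1 : ℝ) : ℂ) * ci (φ τ) + (ci (φ τ) - ci (φ 0)) by push_cast; ring]
      refine (norm_add_le _ _).trans ?_
      linarith only [e4, e5, e6, e7]
  simp only [mul_sub] at hb
  rw [integral_sub (wke_int hL (wke_cont t u _)) (wke_int hL continuous_const), integral_mul_const,
    integral_complex_ofReal, wke_one hL] at hb
  have := norm_sub_norm_le (((1 / (100 * M) : ℝ) : ℂ) * ci (φ 0)) (∫ τ, (zt (100 * M * τ) : ℂ) *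
      ((am (1 / 2) 1 (τ + u) : ℂ) * ci (φ τ)))
  rw [norm_sub_rev, norm_mul, norm_ci, mul_one, norm_real,
    Real.norm_of_nonneg (by positivity)] at this
  linarith

theorem wke_fast : ∃ K : ℝ, 1 ≤ K ∧ ∀ T M t u : ℝ, 1 ≤ M → T ≤ M ^ 2 → K * M ≤ T → T ≤ t →
    t ≤ T + M → u = Real.log (T / (2 * t)) → ‖∫ τ, (zt (100 * M * τ) : ℂ) *
      ((am (1 / 2) 1 (τ + u) : ℂ) * ci (t * FF (τ + u) + T * √3 / 2 * τ))‖ ≤
        1 / (100 * M) * (1 / 10) := by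
  obtain ⟨k, hk1, hk⟩ := sm_zt
  obtain ⟨k', hk1', hk'⟩ := pc_am
  refine ⟨25 * (200 * k + 16 * k'), by linarith, fun T M t u hM hT hK h1 h2 hu => ?_⟩
  have hL : 0 < 100 * M := by positivity
  have hkM : M ≤ k * M := le_mul_of_one_le_left (by linarith only [hM]) hk1
  have hkM' : k' ≤ k' * M := le_mul_of_one_le_right (by linarith) hM
  have hMT : M ≤ T := by linarith only [hk1', hM, hK, hkM, hkM']
  have ht : 0 < t := by linarith
  have hw := fun τ hτ => wke_am (hu ▸ wke_win (τ := τ) hM hT hMT h1 h2 hτ).1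
  have hq := fun τ hτ => lt_of_lt_of_le (by norm_num : (0 : ℝ) < 7 / 10)
    (hu ▸ wke_win (τ := τ) hM hT hMT h1 h2 hτ).1
  have hl : deriv (fun x : ℝ => 100 * M * x) = fun _ => 100 * M := by
    funext x
    simp
  have hA := (Sm.comp (S := Icc (-(1 / (100 * M))) (1 / (100 * M))) (h := fun x => 100 * M * x)
    hk hk1 hL.le (by fun_prop) (fun x _ => by rw [hl, abs_of_pos hL]) fun x _ => by
      rw [hl]; simp only [differentiableAt_const, deriv_fun_mul, deriv_const', zero_mul, mul_zero, add_zero, abs_zero]; positivity).mul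
    (((hk' (1 / 2) 1 (by norm_num) (by norm_num) le_rfl).sm.shift u).mono (subset_univ _) le_rfl
      le_rfl)
  have h3 : (8 / 5 : ℝ) ≤ √3 := Real.le_sqrt_of_sq_le (by norm_num)
  have hs1 : 4 / 5 * T ≤ T * √3 / 2 := by nlinarith only [hk1', hM, hK, hkM, hkM', h3]
  generalize T * √3 / 2 = σ at hs1
  have hσ : 0 < σ := by linarith only [hk1', hM, hK, hkM, hkM', hs1]
  have hκ0 : 2 * k * (100 * M) + k' / (1 / 2) ^ 4 = 200 * (k * M) + 16 * k' := by ring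
  have hκ : 20 * (2 * k * (100 * M) + k' / (1 / 2) ^ 4) ≤ σ := by rw [hκ0]; linarith only [hK, hkM', hs1]
  have hκ2 : 2 ≤ 2 * k * (100 * M) + k' / (1 / 2) ^ 4 := by rw [hκ0]; linarith only [hk1', hM, hkM]
  generalize 2 * k * (100 * M) + k' / (1 / 2) ^ 4 = κ at hA hκ hκ2
  have hd := fun τ hτ => (hasDerivAt_gg (hq τ hτ)).comp_add_const τ u
  have hg0 : ∀ τ ∈ Icc (-(1 / (100 * M))) (1 / (100 * M)), gg (τ + u) ≠ 0 := fun τ hτ =>
    (lt_of_lt_of_le (by norm_num) (hw τ hτ).2.2.2.1).ne'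
  have hc : Continuous fun τ => gg (τ + u) := continuous_gg.comp (continuous_add_const u)
  have := osc (Φ := fun τ => t * FF (τ + u) + σ * τ) (Φ₁ := fun τ => t * gg (τ + u) + σ)
    (Φ₂ := fun τ => t * (gg (τ + u) - (gg (τ + u))⁻¹))
    (Φ₃ := fun τ => t * (gg (τ + u) - (gg (τ + u))⁻¹ -
      -(gg (τ + u) - (gg (τ + u))⁻¹) / gg (τ + u) ^ 2))
    (x₀ := -(1 / (100 * M))) (l := 2 * (1 / (100 * M))) (by positivity) hσ isClosed_Icc
    ordConnected_Icc (Icc_subset_Icc le_rfl (by linarith only [])) hA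
    (fun τ hτ => by rw [wke_supp hL hτ, zero_mul])
    (fun τ _ => by
      have := (((hasDerivAt_FF (τ + u)).comp_add_const τ u).const_mul t).fun_add
        ((hasDerivAt_id' τ).const_mul σ)
      rwa [mul_one] at this)
    (fun τ hτ => ((hd τ hτ).const_mul t).add_const σ)
    (fun τ hτ => ((hd τ hτ).fun_sub ((hd τ hτ).fun_inv (hg0 τ hτ))).const_mul t)
    (continuousOn_const.mul ((hc.continuousOn.sub (hc.continuousOn.inv₀ hg0)).sub
      ((hc.continuousOn.sub (hc.continuousOn.inv₀ hg0)).neg.div (hc.pow 2).continuousOn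
        fun τ hτ => pow_ne_zero 2 (hg0 τ hτ))))
    fun τ hτ => by
      obtain ⟨-, -, -, g1, g2⟩ := hw τ hτ
      generalize gg (τ + u) = g at g1 g2
      have g0 : 0 < g := by linarith only [g1]
      have i1 : 1 ≤ g⁻¹ := (one_le_inv₀ g0).2 g2
      have i2 : g⁻¹ ≤ 5 / 4 := inv_le_of_inv_le₀ (by norm_num) (by linarith only [g1])
      have e1 : t * (4 / 5) ≤ t * g := mul_le_mul_of_nonneg_left g1 ht.le
      have e2 : |g - g⁻¹| ≤ 1 / 2 := abs_le.2 ⟨by linarith only [g1, i2], by linarith only [g2, i1]⟩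
      have e3 : |g - g⁻¹ - -(g - g⁻¹) / g ^ 2| ≤ 1 / 2 * 3 := by
        rw [show g - g⁻¹ - -(g - g⁻¹) / g ^ 2 = (g - g⁻¹) * (1 + g⁻¹ ^ 2) by ring, abs_mul,
          abs_of_pos (by positivity : 0 < 1 + g⁻¹ ^ 2)]
        exact mul_le_mul e2 (by nlinarith only [i1, i2]) (by positivity) (by norm_num)
      have e4 : 4 ≤ κ ^ 2 := by nlinarith only [hκ2]
      rw [abs_of_pos (by linarith only [hk1', hM, hK, h1, hkM, hkM', hs1, e1] : 0 < t * g + σ), abs_mul, abs_mul, abs_of_pos ht]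
      refine ⟨by linarith only [hk1', hM, hK, h1, hkM, hkM', e1], ?_, ?_⟩
      · calc _ ≤ t * (1 / 2) := mul_le_mul_of_nonneg_left e2 ht.le
          _ ≤ 2 * (t * g + σ) := by linarith only [hk1', hM, hK, h1, hkM, hkM', hs1, e1]
          _ ≤ _ := mul_le_mul_of_nonneg_right hκ2 (by linarith only [hk1', hM, hK, h1, hkM, hkM', hs1, e1])
      · calc _ ≤ t * (1 / 2 * 3) := mul_le_mul_of_nonneg_left e3 ht.le
          _ ≤ 4 * (t * g + σ) := by linarith only [hk1', hM, hK, h1, hkM, hkM', hs1, e1]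
          _ ≤ _ := mul_le_mul_of_nonneg_right e4 (by linarith only [hk1', hM, hK, h1, hkM, hkM', hs1, e1])
  simp only [ofReal_mul, mul_assoc] at this ⊢
  refine this.trans ?_
  rw [div_le_iff₀ (by positivity)]
  have e1 : (20 * κ) ^ 2 ≤ σ ^ 2 := pow_le_pow_left₀ (by linarith only [hκ2]) hκ 2
  have e2 : 0 ≤ 1 / (100 * M) := by positivity
  generalize 1 / (100 * M) = w at e2
  linarith only [mul_le_mul_of_nonneg_left e1 e2, mul_nonneg e2 (sq_nonneg κ)]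

theorem wke_dec {L t u σ : ℝ} (hL : 0 < L) {b : ℝ → ℂ} (hb : Continuous b) (Cp Cm : ℂ) :
    ∫ τ : ℝ, (zt (L * τ) : ℂ) * ci (-(σ * τ)) * b (τ + u) =
      Cp * (∫ τ, (zt (L * τ) : ℂ) * ((am (1 / 2) 1 (τ + u) : ℂ) * ci (t * FF (τ + u) + -σ * τ))) +
      Cm * conj (∫ τ, (zt (L * τ) : ℂ) *
        ((am (1 / 2) 1 (τ + u) : ℂ) * ci (t * FF (τ + u) + σ * τ))) +
      ∫ τ, (zt (L * τ) : ℂ) *
        (ci (-(σ * τ)) * (b (τ + u) - am (1 / 2) 1 (τ + u) * wk t Cp Cm (τ + u))) := by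
  obtain ⟨k, -, hk⟩ := pc_am
  have h := (hk (1 / 2) 1 (by norm_num) (by norm_num) le_rfl).sm.c2.continuous
  have h1 := continuous_ci
  have h2 := continuous_wk t Cp Cm
  have i1 := (wke_int hL (wke_cont t u (-σ))).const_mul Cp
  have i2 := (Complex.conjCLE.integrable_comp_iff.2 (wke_int hL (wke_cont t u σ))).const_mul Cm
  have i3 := wke_int hL (G := fun τ =>
    ci (-(σ * τ)) * (b (τ + u) - am (1 / 2) 1 (τ + u) * wk t Cp Cm (τ + u))) (by fun_prop)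
  simp only [conjCLE_apply] at i2
  rw [← integral_conj, ← integral_const_mul, ← integral_const_mul, ← integral_add i1 i2]
  refine Eq.trans (integral_congr_ae (Filter.Eventually.of_forall fun τ => ?_))
    (integral_add (i1.add i2) i3)
  simp only [map_mul, conj_ofReal, conj_ci, wk, neg_mul, ci_add]
  ring

/-- WKE.  Paper 4.2.  `M' = 100 M`, `σ = T √3 / 2`; use `w1` with `d = 4 / 5`, the amplitude
`am (1 / 2) 1` (equal to `pp` on the window) and `osc` for the fast term. -/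
theorem test_ge : ∃ c₁ : ℝ, 1 ≤ c₁ ∧ ∀ (k T M t : ℝ) (b : ℝ → ℂ) (Cp Cm : ℂ), 1 ≤ M → T ≤ M ^ 2 →
    c₁ * M ≤ T → T ≤ t → t ≤ T + M → Wkb k t b Cp Cm →
    ‖Cp‖ + ‖Cm‖ ≤ 400 * M *
      (‖∫ τ : ℝ, (zt (100 * M * τ) : ℂ) * ci (-(T * √3 / 2 * τ)) * b (τ + Real.log (T / (2 * t)))‖ +
       ‖∫ τ : ℝ, (zt (100 * M * τ) : ℂ) * ci (-(-(T * √3 / 2) * τ)) *
          b (τ + Real.log (T / (2 * t)))‖) := by
  obtain ⟨K, hK, hf⟩ := wke_fast
  refine ⟨K + 1000, by linarith, fun k T M t b Cp Cm hM hT hc h1 h2 hb => ?_⟩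
  have hL : 0 < 100 * M := by positivity
  have hKM : M ≤ K * M := le_mul_of_one_le_left (by linarith) hK
  have hMT : M ≤ T := by linarith
  have ht : 1000 ≤ t := by linarith
  have s1 := wke_slow hM hT hMT h1 h2 rfl
  have f1 := hf T M t _ hM hT (by linarith only [hM, hc]) h1 h2 rfl
  have he : ∀ σ : ℝ, ‖∫ τ, (zt (100 * M * τ) : ℂ) * (ci (-(σ * τ)) *
      (b (τ + Real.log (T / (2 * t))) - am (1 / 2) 1 (τ + Real.log (T / (2 * t))) *
        wk t Cp Cm (τ + Real.log (T / (2 * t)))))‖ ≤ 1 / (100 * M) * ((‖Cp‖ + ‖Cm‖) / 20) :=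
    fun σ => wke_bd hL fun τ hτ => by
      have hq := (wke_win hM hT hMT h1 h2 hτ).1
      obtain ⟨e1, e2, e3, -⟩ := wke_am hq
      rw [norm_mul, norm_ci, one_mul, e1]
      refine (hb.w1 (4 / 5) (by norm_num) (by norm_num) (by linarith only [hM, hc, h1, hKM]) _ (by linarith only [hq])).trans ?_
      have e4 : 0 ≤ ‖Cp‖ + ‖Cm‖ := by positivity
      rw [div_le_iff₀ (by positivity)]
      linarith only [mul_le_mul_of_nonneg_left e3 e4, mul_le_mul_of_nonneg_left ht e4, e4]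
  have key : ∀ x y z : ℂ, ‖x‖ - ‖y‖ - ‖z‖ ≤ ‖x + y + z‖ := fun x y z => by
    have a1 := norm_sub_le (x + y + z) z
    have a2 := norm_sub_le (x + y) y
    rw [add_sub_cancel_right] at a1 a2
    linarith only [a1, a2]
  have e1 := he (T * √3 / 2)
  have e2 := he (-(T * √3 / 2))
  rw [wke_dec (t := t) hL hb.cont Cp Cm, wke_dec (t := t) hL hb.cont Cp Cm, neg_neg]
  generalize (∫ τ : ℝ, (zt (100 * M * τ) : ℂ) * (ci (-(T * √3 / 2 * τ)) * _)) = E1 at e1 ⊢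
  generalize (∫ τ : ℝ, (zt (100 * M * τ) : ℂ) * (ci (-(-(T * √3 / 2) * τ)) * _)) = E2 at e2 ⊢
  generalize (∫ τ : ℝ, (zt (100 * M * τ) : ℂ) * (_ * ci (_ + -(T * √3 / 2) * τ))) = S at s1 ⊢
  generalize (∫ τ : ℝ, (zt (100 * M * τ) : ℂ) * (_ * ci (_ + T * √3 / 2 * τ))) = F at f1 ⊢
  have k1 := key (Cp * S) (Cm * conj F) E1
  have k2 := key (Cm * conj S) (Cp * F) E2
  rw [add_comm (Cm * conj S)] at k2
  simp only [norm_mul, norm_conj] at k1 k2
  have a1 := mul_le_mul_of_nonneg_left s1 (norm_nonneg Cp)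
  have a2 := mul_le_mul_of_nonneg_left s1 (norm_nonneg Cm)
  have a3 := mul_le_mul_of_nonneg_left f1 (norm_nonneg Cp)
  have a4 := mul_le_mul_of_nonneg_left f1 (norm_nonneg Cm)
  have a5 : 0 ≤ 1 / (100 * M) * (‖Cp‖ + ‖Cm‖) := by positivity
  calc ‖Cp‖ + ‖Cm‖ = 400 * M * (1 / (100 * M) * (‖Cp‖ + ‖Cm‖) / 4) := by field_simp; ring
    _ ≤ _ := mul_le_mul_of_nonneg_left (by linarith) (by positivity)

end Pool.Agent.MP_a28cf0_nt.D4
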