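import Pool.Agent.MP_a28cf0_nt.D4.Piece
import Pool.Agent.MP_a28cf0_nt.D4.Wkb

attribute [-instance] IdemSemiring.toCanonicallyOrderedAdd IdemSemiring.toMulLeftMono
  IsOrderedMonoid.toMulLeftMono AddQuantale.instAddLeftMono Quantale.instMulLeftMono
  covariant_swap_mul_of_covariant_mul NumberField.to_charZero Fintype.decidableForallFintype
  CanonicallyOrderedAdd.toMulLeftMono AddQuantale.instAddRightMono
  LinearOrderedCommMonoidWithZero.toPosMulStrictMono Quantale.instMulRightMono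
  continuousSub_of_discreteTopology RKHS.instFunLike CStarAlgebra.instOrderClosedTopology
  CanonicallyOrderedMul.toMulLeftMono Valued.toUniformSpace continuousSub_of_indiscreteTopology
  NonarchimedeanAddGroup.toIsTopologicalAddGroup instCoeOTCOfCoeOut
  NonarchimedeanRing.toIsTopologicalRing Topology.IsScott.instClosedIicTopologyOfUnivSet
  Finset.decidableDforallFinset LieAdmissibleRing.toNonUnitalNonAssocRing
  instCoeHTCTOfCoeTailOfCoeHTC instCoeHTCOfCoeHeadOfCoeOTC Multiset.decidableDforallMultiset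
  Vector.instDecidableForallForallMemOfDecidablePred instCoeTOfCoeDep Option.decidableForallMem
  Array.instDecidableForallForallMemOfDecidablePred Int.decidableLTLE instCoeTCOfCoe
  CompletePartialOrder.toPartialOrder Int.decidableLELE Int.decidableLTLT Int.decidableLELT
  Valued.isTopologicalDivisionRing

/-!
The decomposition into pieces, and the escape of mass.
-/

set_option autoImplicit false
set_option linter.unusedVariables false

namespace Pool.Agent.MP_a28cf0_nt.D4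

open MeasureTheory Complex Set
open scoped ComplexConjugate

/-- what is used of one form -/
structure Frm (c T t : ℝ) (lam : ℕ → ℝ) (b : ℝ → ℂ) (Cp Cm : ℂ) (G : ℝ → ℝ → ℝ) : Prop where
  wkb : Wkb c t b Cp Cm
  zero : lam 0 = 0
  bd : ∀ n : ℕ, (‖Cp‖ + ‖Cm‖) * |lam n| ≤ c * T * n
  cont : Continuous fun p : ℝ × ℝ => G p.1 p.2
  sum : ∀ r x : ℝ,
    HasSum (fun n : ℕ => 2 * ((lam n : ℂ) * b (r + Real.log n) * ee (n * x)).re) (G r x)

theorem Frm.mono {c c' T t : ℝ} {lam : ℕ → ℝ} {b : ℝ → ℂ} {Cp Cm : ℂ} {G : ℝ → ℝ → ℝ}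
    (h : Frm c T t lam b Cp Cm G) (hT : 0 ≤ T) (ht : 0 ≤ t) (hc : c ≤ c') :
    Frm c' T t lam b Cp Cm G :=
  ⟨h.wkb.mono ht hc, h.zero, fun n => (h.bd n).trans (by gcongr), h.cont, h.sum⟩

/-- the scales -/
noncomputable def dd (R : ℝ) : ℕ → ℝ
  | 0 => 1
  | j + 1 => (R ^ (j + 2))⁻¹

noncomputable def HH (k : ℕ) (R : ℝ) : ℕ := ⌈R ^ (50 * k + 63)⌉₊

noncomputable def NN (k : ℕ) (R : ℝ) : ℕ := ⌈R ^ (100 * k) / (2 * R ^ 8)⌉₊

section I4

variable {c T : ℝ} {V : ℝ → ℝ}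

theorem I4_nonneg (h : Vw c T V) (G : ℝ → ℝ → ℝ) : 0 ≤ I4 V G :=
  integral_nonneg fun r => mul_nonneg (h.nn r)
    (intervalIntegral.integral_nonneg zero_le_one fun x _ => by positivity)

/-- CRB. -/
theorem I4_congr (h : Vw c T V) {A B : ℝ → ℝ → ℝ}
    (hAB : ∀ r, 1 / (c * T) ≤ Real.exp r → Real.exp r ≤ c / T → ∀ x, A r x = B r x) :
    I4 V A = I4 V B := by
  refine integral_congr_ae (Filter.Eventually.of_forall fun r => ?_)
  beta_reduce
  by_cases hv : V r = 0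
  · rw [hv, zero_mul, zero_mul]
  · simp only [hAB r (h.supp r hv).1 (h.supp r hv).2]

/-- CRB.  `Vw.int_le`. -/
theorem I4_le_of_abs (hc : 1 ≤ c) (hT : 1 ≤ T) (h : Vw c T V) {A : ℝ → ℝ → ℝ} {e : ℝ} (he : 0 ≤ e)
    (hA : ∀ r, 1 / (c * T) ≤ Real.exp r → Real.exp r ≤ c / T → ∀ x, |A r x| ≤ e) :
    I4 V A ≤ 2 * c ^ 2 * e ^ 4 / T ^ 2 := by
  refine (le_abs_self _).trans (Vw.int_le hc hT h (pow_nonneg he 4) fun r h1 h2 => ?_)
  have h3 := intervalIntegral.norm_integral_le_of_norm_le_const (a := (0 : ℝ)) (b := 1)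
    (C := e ^ 4) (f := fun x => A r x ^ 4) fun x _ => by
      rw [Real.norm_eq_abs, abs_pow]
      exact pow_le_pow_left₀ (abs_nonneg _) (hA r h1 h2 x) 4
  simpa only [ge_iff_le, Real.norm_eq_abs, sub_zero, abs_one, mul_one] using h3

theorem crb_int (hc : 1 ≤ c) (hT : 1 ≤ T) (h : Vw c T V) {A : ℝ → ℝ → ℝ}
    (hA : Continuous fun p : ℝ × ℝ => A p.1 p.2) :
    Integrable fun r => V r * ∫ x in (0 : ℝ)..1, A r x ^ 4 :=
  Vw.int hc hT h (intervalIntegral.continuous_parametric_intervalIntegral_of_continuous'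
    (f := fun r x => A r x ^ 4) (by exact hA.fun_pow 4) 0 1)

theorem crb_le {ι : Type} (hc : 1 ≤ c) (hT : 1 ≤ T) (h : Vw c T V) (S : Finset ι) {G : ℝ → ℝ → ℝ}
    (hG : Continuous fun p : ℝ × ℝ => G p.1 p.2) {P : ι → ℝ → ℝ → ℝ} {w : ι → ℝ}
    (hP : ∀ i ∈ S, Continuous fun p : ℝ × ℝ => P i p.1 p.2)
    (hb : ∀ r x, G r x ^ 4 ≤ ∑ i ∈ S, w i * P i r x ^ 4) :
    I4 V G ≤ ∑ i ∈ S, w i * I4 V (P i) := by
  have hi : ∀ i ∈ S, Integrable fun r => w i * (V r * ∫ x in (0 : ℝ)..1, P i r x ^ 4) :=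
    fun i hi => (crb_int hc hT h (hP i hi)).const_mul _
  unfold I4
  simp only [← integral_const_mul]
  rw [← integral_finsetSum _ hi]
  refine integral_mono (crb_int hc hT h hG) (integrable_finsetSum _ hi) fun r => ?_
  have hx : ∀ i ∈ S, IntervalIntegrable (fun x => w i * P i r x ^ 4) volume 0 1 := fun i hi =>
    (continuous_const.mul (((hP i hi).comp (Continuous.prodMk_right r)).pow 4)).intervalIntegrable _ _
  have h1 : ∫ x in (0 : ℝ)..1, G r x ^ 4 ≤ ∑ i ∈ S, w i * ∫ x in (0 : ℝ)..1, P i r x ^ 4 := by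
    simp only [← intervalIntegral.integral_const_mul]
    rw [← intervalIntegral.integral_finsetSum hx]
    refine intervalIntegral.integral_mono_on zero_le_one
      (((hG.comp (Continuous.prodMk_right r)).pow 4).intervalIntegrable _ _) ?_ fun x _ => hb r x
    exact (continuous_finsetSum _ fun i hi =>
      continuous_const.mul (((hP i hi).comp (Continuous.prodMk_right r)).pow 4)).intervalIntegrable _ _
  refine (mul_le_mul_of_nonneg_left h1 (h.nn r)).trans (le_of_eq ?_)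
  rw [Finset.mul_sum]
  exact Finset.sum_congr rfl fun i _ => by ring

theorem crb_two {η : ℝ} (hη : 0 < η) (a b : ℝ) :
    (a + b) ^ 2 ≤ (1 + η) * a ^ 2 + (1 + 1 / η) * b ^ 2 := by
  have h : (1 + η) * a ^ 2 + (1 + 1 / η) * b ^ 2 - (a + b) ^ 2 = (η * a - b) ^ 2 / η := by
    field_simp
    ring
  have h2 : 0 ≤ (η * a - b) ^ 2 / η := by positivity
  linarith

theorem crb_four {η : ℝ} (hη : 0 < η) (a b : ℝ) :
    (a + b) ^ 4 ≤ (1 + η) ^ 3 * a ^ 4 + (1 + 1 / η) ^ 3 * b ^ 4 := by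
  have h1 := pow_le_pow_left₀ (sq_nonneg _) (crb_two hη a b) 2
  have h2 := crb_two hη ((1 + η) * a ^ 2) ((1 + 1 / η) * b ^ 2)
  generalize 1 + 1 / η = v at h1 h2 ⊢
  generalize 1 + η = u at h1 h2 ⊢
  linarith

/-- CRB.  `Vw.int`, `intervalIntegral.continuous_parametric_intervalIntegral_of_continuous'`. -/
theorem I4_add_le (hc : 1 ≤ c) (hT : 1 ≤ T) (h : Vw c T V) {A B : ℝ → ℝ → ℝ}
    (hA : Continuous fun p : ℝ × ℝ => A p.1 p.2) (hB : Continuous fun p : ℝ × ℝ => B p.1 p.2)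
    {η : ℝ} (hη : 0 < η) :
    I4 V (fun r x => A r x + B r x) ≤ (1 + η) ^ 3 * I4 V A + (1 + 1 / η) ^ 3 * I4 V B := by
  have h1 := crb_le hc hT h (Finset.univ : Finset Bool)
    (G := fun r x => A r x + B r x) (hA.add hB)
    (P := fun i => if i then A else B) (w := fun i => if i then (1 + η) ^ 3 else (1 + 1 / η) ^ 3)
    (by rintro (_ | _) _; exacts [hB, hA])
    (fun r x => by simpa only [Fintype.univ_bool, one_div, ite_mul, Finset.mem_singleton, Bool.true_eq_false, not_false_eq_true, Finset.sum_insert, ↓ reduceIte, Finset.sum_singleton, Bool.false_eq_true] using crb_four hη (A r x) (B r x))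
  simpa only [one_div, ge_iff_le, Fintype.univ_bool, ite_mul, Finset.mem_singleton, Bool.true_eq_false, not_false_eq_true, Finset.sum_insert, ↓ reduceIte, Finset.sum_singleton, Bool.false_eq_true] using h1

/-- CRB. -/
theorem I4_sum_le (hc : 1 ≤ c) (hT : 1 ≤ T) (h : Vw c T V) (S : Finset ℕ) {P : ℕ → ℝ → ℝ → ℝ}
    (hP : ∀ i ∈ S, Continuous fun p : ℝ × ℝ => P i p.1 p.2) :
    I4 V (fun r x => ∑ i ∈ S, P i r x) ≤ (S.card : ℝ) ^ 3 * ∑ i ∈ S, I4 V (P i) := by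
  rw [Finset.mul_sum]
  refine crb_le hc hT h S (continuous_finsetSum _ hP) hP fun r x => ?_
  have e4 : ∀ y : ℝ, |y| ^ 4 = y ^ 4 := fun y => Even.pow_abs (by decide) y
  have h1 := pow_sum_le_card_mul_sum_pow (s := S) (f := fun i => |P i r x|)
    (fun i _ => abs_nonneg _) 3
  rw [← Finset.mul_sum, ← e4]
  refine (pow_le_pow_left₀ (abs_nonneg _) (Finset.abs_sum_le_sum_abs _ _) 4).trans ?_
  simpa only [e4] using h1

theorem cre_le (hc : 1 ≤ c) (hT : 1 ≤ T) (h : Vw c T V) {g g₁ g₂ : ℝ → ℝ} (c₀ : Continuous g)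
    (c₁ : Continuous g₁) (c₂ : Continuous g₂) {k a b : ℝ}
    (hle : ∀ r, k * g r ≤ a * g₁ r + b * g₂ r) :
    k * ∫ r, V r * g r ≤ a * (∫ r, V r * g₁ r) + b * ∫ r, V r * g₂ r := by
  have i₀ : Integrable fun r => V r * g r := h.int hc hT c₀
  have i₁ : Integrable fun r => V r * g₁ r := h.int hc hT c₁
  have i₂ : Integrable fun r => V r * g₂ r := h.int hc hT c₂
  rw [← integral_const_mul, ← integral_const_mul, ← integral_const_mul,
    ← integral_add (i₁.const_mul a) (i₂.const_mul b)]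
  refine integral_mono (i₀.const_mul k) ((i₁.const_mul a).add (i₂.const_mul b)) fun r => ?_
  have := mul_le_mul_of_nonneg_left (hle r) (h.nn r)
  beta_reduce
  linarith

theorem cre_le01 {g g₁ g₂ : ℝ → ℝ} (c₀ : Continuous g) (c₁ : Continuous g₁) (c₂ : Continuous g₂)
    {k a b : ℝ} (hle : ∀ x, k * g x ≤ a * g₁ x + b * g₂ x) :
    k * ∫ x in (0 : ℝ)..1, g x ≤ a * (∫ x in (0 : ℝ)..1, g₁ x) + b * ∫ x in (0 : ℝ)..1, g₂ x := by
  have i₁ : IntervalIntegrable (fun x => a * g₁ x) volume 0 1 :=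
    (c₁.intervalIntegrable 0 1).const_mul a
  have i₂ : IntervalIntegrable (fun x => b * g₂ x) volume 0 1 :=
    (c₂.intervalIntegrable 0 1).const_mul b
  rw [← intervalIntegral.integral_const_mul, ← intervalIntegral.integral_const_mul,
    ← intervalIntegral.integral_const_mul, ← intervalIntegral.integral_add i₁ i₂]
  exact intervalIntegral.integral_mono_on zero_le_one
    ((c₀.intervalIntegrable 0 1).const_mul k) (i₁.add i₂)
    fun x _ => hle x

theorem cre_pow {G : ℝ → ℝ → ℝ} (hG : Continuous fun p : ℝ × ℝ => G p.1 p.2) (n : ℕ) (r : ℝ) :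
    Continuous fun x => G r x ^ n :=
  (hG.comp (Continuous.prodMk_right r)).pow n

theorem cre_cont {G : ℝ → ℝ → ℝ} (hG : Continuous fun p : ℝ × ℝ => G p.1 p.2) (n : ℕ) :
    Continuous fun r => ∫ x in (0 : ℝ)..1, G r x ^ n :=
  intervalIntegral.continuous_parametric_intervalIntegral_of_continuous'
    (f := fun r x => G r x ^ n) (hG.pow n) 0 1

theorem cre_exp : Continuous fun r : ℝ => Real.exp (-r) := Real.continuous_exp.comp continuous_neg

theorem cre_I2 (hc : 1 ≤ c) (hT : 1 ≤ T) (h : Vw c T V) {A B E : ℝ → ℝ → ℝ}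
    (hA : Continuous fun p : ℝ × ℝ => A p.1 p.2) (hB : Continuous fun p : ℝ × ℝ => B p.1 p.2)
    (hE : Continuous fun p : ℝ × ℝ => E p.1 p.2) {k a b : ℝ}
    (hle : ∀ r x, k * A r x ^ 2 ≤ a * B r x ^ 2 + b * E r x ^ 2) :
    k * I2 V A ≤ a * I2 V B + b * I2 V E :=
  cre_le hc hT h (cre_exp.fun_mul (cre_cont hA 2)) (cre_exp.fun_mul (cre_cont hB 2))
    (cre_exp.fun_mul (cre_cont hE 2)) fun r => by
      have := mul_le_mul_of_nonneg_left (cre_le01 (cre_pow hA 2 r) (cre_pow hB 2 r) (cre_pow hE 2 r)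
        (hle r)) (Real.exp_pos (-r)).le
      linarith

theorem cre_I24 (hc : 1 ≤ c) (hT : 1 ≤ T) (h : Vw c T V) {A : ℝ → ℝ → ℝ}
    (hA : Continuous fun p : ℝ × ℝ => A p.1 p.2) (a : ℝ) :
    2 * a * I2 V A ≤ a ^ 2 * I0 V + 1 * I4 V A :=
  cre_le hc hT h (cre_exp.fun_mul (cre_cont hA 2)) (cre_exp.fun_pow 2) (cre_cont hA 4) fun r => by
    have := cre_le01 (cre_pow hA 2 r) (continuous_const (y := (1 : ℝ))) (cre_pow hA 4 r)
      (k := 2 * (a * Real.exp (-r))) (a := (a * Real.exp (-r)) ^ 2) (b := 1)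
      fun x => by linarith only [sq_nonneg (a * Real.exp (-r) - A r x ^ 2)]
    rw [intervalIntegral.integral_const, sub_zero, smul_eq_mul, mul_one] at this
    linarith

theorem cre_sq (x y : ℝ) {η u : ℝ} (hη : 0 < η) (hu : η * u = 1) :
    1 * (x + y) ^ 2 ≤ (1 + η) * x ^ 2 + (1 + u) * y ^ 2 ∧
      (1 - η) * x ^ 2 ≤ 1 * (x + y) ^ 2 + u * y ^ 2 := by
  have hu0 : 0 ≤ u := by
    by_contra hn
    linarith only [mul_pos hη (neg_pos.2 (not_le.1 hn)), hu]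
  have h1 : 0 ≤ u * (η * x - y) ^ 2 := by positivity
  have h2 : 0 ≤ u * (η * x + y) ^ 2 := by positivity
  have e1 : u * (η * x - y) ^ 2 = (η * u) * η * x ^ 2 - 2 * (η * u) * x * y + u * y ^ 2 := by ring
  have e2 : u * (η * x + y) ^ 2 = (η * u) * η * x ^ 2 + 2 * (η * u) * x * y + u * y ^ 2 := by ring
  rw [hu] at e1 e2
  constructor <;> linarith only [sq_nonneg y, h1, e1, h2, e2]

/-- CRE.  One form: the main piece `P`, its diagonal `D`, and the rest `G - P`.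
`I4_add_le`; `(x + y)² ≤ (1 + η) x² + (1 + 1 / η) y²`; `|G² - P²| ≤ η P² + (1 + 1 / η) (G - P)²`;
`exp (-r) u² ≤ η² exp (-r) ^ 2 + u⁴ / (4 η²)`. -/
theorem comb (hc : 1 ≤ c) (hT : 1 ≤ T) (h : Vw c T V) {G P : ℝ → ℝ → ℝ}
    (hG : Continuous fun p : ℝ × ℝ => G p.1 p.2) (hP : Continuous fun p : ℝ × ℝ => P p.1 p.2)
    {D : ℝ → ℝ} (hD : Continuous D) {Z e₁ e₂ e₃ η : ℝ} (hη : 0 < η) (hη1 : η ≤ 1) (he : 0 ≤ e₁)
    (h4 : I4 V P ≤ 12 * (1 + η) * (∫ r, V r * D r ^ 2) + e₁ / η)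
    (h2 : |I2 V P - 2 * ∫ r, V r * (Real.exp (-r) * D r)| ≤ η * I0 V + e₁ / η)
    (hZ : ∫ r, V r * (D r - Real.exp (-r) * Z) ^ 2 ≤ e₂)
    (hR : I4 V (fun r x => G r x - P r x) ≤ e₃) :
    I4 V G ≤ 3 * (1 + η) ^ 5 * (2 * Z) ^ 2 * I0 V + 400 * (e₁ + e₂ + e₃) / η ^ 4 ∧
      |I2 V G - 2 * Z * I0 V| ≤ 6 * η * (1 + |2 * Z|) * I0 V + 400 * (e₁ + e₂ + e₃) / η ^ 4 := by
  have hE : Continuous fun p : ℝ × ℝ => G p.1 p.2 - P p.1 p.2 := hG.sub hP
  have hw : Continuous fun r => D r - Real.exp (-r) * Z := hD.sub (cre_exp.mul continuous_const)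
  have h₂ : 0 ≤ e₂ := (integral_nonneg fun r => mul_nonneg (h.nn r) (sq_nonneg _)).trans hZ
  have h₃ : 0 ≤ e₃ := (I4_nonneg h _).trans hR
  have h₀ := I0_nonneg h
  obtain ⟨u, hu⟩ : ∃ u, η * u = 1 := ⟨η⁻¹, mul_inv_cancel₀ hη.ne'⟩
  have hu' : 1 / η = u := by rw [div_eq_iff hη.ne', mul_comm, hu]
  have hu1 : 1 ≤ u := by rw [← hu']; exact one_le_one_div hη hη1
  have hu0 : 0 ≤ u := zero_le_one.trans hu1
  have hdiv : ∀ x : ℝ, x / η = x * u := fun x => by rw [← hu', mul_one_div]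
  have hdiv4 : ∀ x : ℝ, x / η ^ 4 = x * u ^ 4 := fun x => by rw [← hu', one_div_pow, mul_one_div]
  have p1 : u ≤ u ^ 4 := le_self_pow₀ hu1 (by norm_num)
  have p3 : u ^ 3 ≤ u ^ 4 := pow_le_pow_right₀ hu1 (by norm_num)
  have q1 : e₁ * u ≤ e₁ * u ^ 4 := mul_le_mul_of_nonneg_left p1 he
  have q2 : e₂ * u ≤ e₂ * u ^ 4 := mul_le_mul_of_nonneg_left p1 h₂
  have q3 : e₃ * u ^ 3 ≤ e₃ * u ^ 4 := mul_le_mul_of_nonneg_left p3 h₃
  have n1 : 0 ≤ e₁ * u := mul_nonneg he hu0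
  have n2 : 0 ≤ e₂ * u := mul_nonneg h₂ hu0
  have n3 : 0 ≤ e₃ * u ^ 3 := by positivity
  rw [hdiv] at h4 h2
  rw [hdiv4]
  constructor
  · have a1 := I4_add_le hc hT h (B := fun r x => G r x - P r x) hP hE hη
    simp only [add_sub_cancel] at a1
    have a2 : 1 * ∫ r, V r * D r ^ 2 ≤ (1 + η) * Z ^ 2 * I0 V +
        (1 + u) * ∫ r, V r * (D r - Real.exp (-r) * Z) ^ 2 :=
      cre_le hc hT h (hD.fun_pow 2) (cre_exp.fun_pow 2) (hw.fun_pow 2) fun r => by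
        have := (cre_sq (Real.exp (-r) * Z) (D r - Real.exp (-r) * Z) hη hu).1
        rw [add_sub_cancel] at this
        linarith only [this]
    have a3 : ∫ r, V r * D r ^ 2 ≤ (1 + η) * Z ^ 2 * I0 V + 2 * u * e₂ := by
      have : (1 + u) * ∫ r, V r * (D r - Real.exp (-r) * Z) ^ 2 ≤ 2 * u * e₂ :=
        (mul_le_mul_of_nonneg_left hZ (by linarith only [hu1])).trans
          (mul_le_mul_of_nonneg_right (by linarith only [hu1]) h₂)
      linarith only [a2, this]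
    have b1 : (1 + η) ^ 3 ≤ 2 ^ 3 := pow_le_pow_left₀ (by linarith only [hη]) (by linarith only [hη1]) 3
    have b2 : (1 + η) ^ 4 ≤ 2 ^ 4 := pow_le_pow_left₀ (by linarith only [hη]) (by linarith only [hη1]) 4
    have b3 : (1 + u) ^ 3 ≤ (2 * u) ^ 3 := pow_le_pow_left₀ (by linarith only [hu1]) (by linarith only [hu1]) 3
    have d1 := mul_le_mul_of_nonneg_right b1 n1
    have d2 := mul_le_mul_of_nonneg_right b2 n2
    have d3 := mul_le_mul_of_nonneg_right b3 h₃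
    rw [hu'] at a1
    calc I4 V G ≤ (1 + η) ^ 3 * (12 * (1 + η) * ((1 + η) * Z ^ 2 * I0 V + 2 * u * e₂) + e₁ * u) +
          (1 + u) ^ 3 * e₃ := by
          refine a1.trans (add_le_add (mul_le_mul_of_nonneg_left (h4.trans ?_) (by positivity))
            (mul_le_mul_of_nonneg_left hR (by positivity)))
          gcongr
      _ = 3 * (1 + η) ^ 5 * (2 * Z) ^ 2 * I0 V + (24 * ((1 + η) ^ 4 * (e₂ * u)) +
          (1 + η) ^ 3 * (e₁ * u) + (1 + u) ^ 3 * e₃) := by ring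
      _ ≤ _ := by linarith only [q1, q2, q3, n1, n2, n3, d1, d2, d3]
  · have a1 := cre_I2 hc hT h (E := fun r x => G r x - P r x) hG hP hE (k := 1) (a := 1 + η)
      (b := 1 + u) fun r x => by
      have := (cre_sq (P r x) (G r x - P r x) hη hu).1
      rwa [add_sub_cancel] at this
    have a2 := cre_I2 hc hT h (E := fun r x => G r x - P r x) hP hG hE (k := 1 - η) (a := 1)
      (b := u) fun r x => by
      have := (cre_sq (P r x) (G r x - P r x) hη hu).2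
      rwa [add_sub_cancel] at this
    have a3 := cre_I24 hc hT h (A := fun r x => G r x - P r x) hE (η ^ 2)
    have a4 : 0 ≤ I2 V fun r x => G r x - P r x := integral_nonneg fun r => mul_nonneg (h.nn r)
      (mul_nonneg (Real.exp_pos _).le
        (intervalIntegral.integral_nonneg zero_le_one fun x _ => sq_nonneg _))
    have a5 : ∀ σ : ℝ, σ ^ 2 = 1 → 2 * σ * (∫ r, V r * (Real.exp (-r) * D r)) ≤
        (2 * σ * Z + η) * I0 V + u * ∫ r, V r * (D r - Real.exp (-r) * Z) ^ 2 := fun σ hσ =>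
      cre_le hc hT h (cre_exp.fun_mul hD) (cre_exp.fun_pow 2) (hw.fun_pow 2) fun r => by
        have k1 : 0 ≤ u * (η * Real.exp (-r) - σ * (D r - Real.exp (-r) * Z)) ^ 2 := by positivity
        have k2 : u * (η * Real.exp (-r) - σ * (D r - Real.exp (-r) * Z)) ^ 2 =
            (η * u) * η * Real.exp (-r) ^ 2 -
              2 * (η * u) * σ * Real.exp (-r) * (D r - Real.exp (-r) * Z) +
              u * σ ^ 2 * (D r - Real.exp (-r) * Z) ^ 2 := by ring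
        rw [hu, hσ] at k2
        linarith only [k1, k2]
    have a6 := a5 1 (by norm_num)
    have a7 := a5 (-1) (by norm_num)
    have a8 := mul_le_mul_of_nonneg_left hZ hu0
    obtain ⟨a9, a10⟩ := abs_le.1 h2
    generalize I2 V (fun r x => G r x - P r x) = X at a1 a2 a3 a4
    have b1 : 2 * u * X ≤ η * I0 V + e₃ * u ^ 3 := by
      have k1 := mul_le_mul_of_nonneg_left a3 (pow_nonneg hu0 3)
      have k2 : u ^ 3 * (2 * η ^ 2 * X) = (η * u) ^ 2 * (2 * u * X) := by ring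
      have k3 : u ^ 3 * ((η ^ 2) ^ 2 * I0 V) = (η * u) ^ 3 * (η * I0 V) := by ring
      have k4 := mul_le_mul_of_nonneg_left hR (pow_nonneg hu0 3)
      rw [hu] at k2 k3
      linarith only [k1, k2, k3, k4]
    have b2 : X ≤ u * X := le_mul_of_one_le_left a4 hu1
    have b3 : 2 * Z * I0 V ≤ |2 * Z| * I0 V := mul_le_mul_of_nonneg_right (le_abs_self _) h₀
    have b4 : I2 V P ≤ |2 * Z| * I0 V + 2 * I0 V + (e₁ * u + e₂ * u) := by
      have := mul_le_mul_of_nonneg_right hη1 h₀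
      linarith only [a6, a8, a10, b3, this]
    have b5 : η * I2 V P ≤ η * (|2 * Z| * I0 V) + 2 * (η * I0 V) + (e₁ * u + e₂ * u) := by
      have k1 := mul_le_mul_of_nonneg_left b4 hη.le
      have k2 := mul_le_mul_of_nonneg_right hη1 (add_nonneg n1 n2)
      linarith only [k1, k2]
    have b6 : 0 ≤ η * (|2 * Z| * I0 V) := by positivity
    have b7 : 0 ≤ η * I0 V := by positivity
    have b8 : 0 ≤ u * X := mul_nonneg hu0 a4
    exact abs_le.2 ⟨by linarith only [q1, q2, q3, n1, n2, n3, a6, a7, a8, a9, a2, b1, b5, b6], by linarith only [q1, q2, q3, n1, n2, n3, a6, a7, a8, a10, a1, b1, b2, b5, b6]⟩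

end I4

namespace Fa

variable {ι : Type} {c : ℝ}

/-- the choice of the parameters -/
structure Ch (F : Fa ι c) (k : ℕ) (R : ℝ) : Prop where
  hk : 13 ≤ k
  hR : 2 * c ≤ R
  hT : F.T = R ^ (100 * k)
  hM : F.M ≤ R ^ (50 * k + 80)
  he : F.ε * R ^ 150 ≤ 1
  hD : F.DD ^ 2 ≤ R
  pc : ∀ d d' : ℝ, 0 < d → d ≤ d' → d' ≤ 1 → Pc c d (2 * d' ^ 4) (am d d')

/-- the WKB error of a piece -/
noncomputable def er (F : Fa ι c) (b : ι → ℝ → ℂ) (d d' : ℝ) (j : ι) (r : ℝ) (n : ℕ) : ℂ :=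
  ((F.lam j n * (ct d (r + Real.log n) - ct d' (r + Real.log n)) : ℝ) : ℂ) *
    b j (r + Real.log n) - F.al (am d d') j r n

/-- the piece at the turning point -/
noncomputable def tu (F : Fa ι c) (b : ι → ℝ → ℂ) (d : ℝ) (j : ι) (r : ℝ) (n : ℕ) : ℂ :=
  ((F.lam j n * (1 - ct d (r + Real.log n) - cm d (r + Real.log n)) : ℝ) : ℂ) *
    b j (r + Real.log n)

/-- all members of the family come from forms -/
def Fr (F : Fa ι c) (b : ι → ℝ → ℂ) (G : ι → ℝ → ℝ → ℝ) : Prop :=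
  ∀ j ∈ F.s, Frm c F.T (F.t j) (F.lam j) (b j) (F.Cp j) (F.Cm j) (G j)

end Fa

/-- CRA. -/
theorem dd_mem {R : ℝ} (hR : 2 ≤ R) (i : ℕ) :
    0 < dd R (i + 1) ∧ dd R (i + 1) ≤ dd R i ∧ dd R i ≤ 1 ∧ dd R (i + 1) ≤ 1 / 4 := by
  have h1 : (1 : ℝ) ≤ R := by linarith
  have h0 : (0 : ℝ) < R := by linarith
  have h4 : dd R (i + 1) ≤ 1 / 4 := by
    rw [dd, one_div]
    refine inv_anti₀ (by norm_num) ?_
    calc (4 : ℝ) = 2 ^ 2 := by norm_num
      _ ≤ R ^ 2 := by gcongr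
      _ ≤ R ^ (i + 2) := pow_le_pow_right₀ h1 (by omega)
  refine ⟨by rw [dd]; positivity, ?_, ?_, h4⟩
  · cases i with
    | zero => exact h4.trans (by rw [dd]; norm_num)
    | succ j =>
      rw [dd, dd]
      exact inv_anti₀ (by positivity) (pow_le_pow_right₀ h1 (by omega))
  · cases i with
    | zero => rw [dd]
    | succ j =>
      rw [dd]
      exact inv_le_one_of_one_le₀ (one_le_pow₀ h1)

theorem cra_ratio {R : ℝ} (hR : 2 ≤ R) (i : ℕ) : dd R i ≤ R ^ 2 * dd R (i + 1) := by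
  have h1 : (1 : ℝ) ≤ R := by linarith
  have h0 : (0 : ℝ) < R := by linarith
  cases i with
  | zero =>
    rw [dd, dd, zero_add, mul_inv_cancel₀ (by positivity)]
  | succ j =>
    rw [dd, dd, ← div_eq_mul_inv, inv_eq_one_div, div_le_div_iff₀ (by positivity) (by positivity),
      one_mul, ← pow_add]
    exact pow_le_pow_right₀ h1 (by omega)

theorem cra_le {R : ℝ} (hR : 2 ≤ R) {i m a b : ℕ} (h : a + (i + 2) * m ≤ b) :
    R ^ a ≤ dd R (i + 1) ^ m * R ^ b := by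
  have h1 : (1 : ℝ) ≤ R := by linarith only [hR]
  have h0 : (0 : ℝ) < R := by linarith only [hR]
  rw [dd, inv_pow, ← pow_mul, ← div_eq_inv_mul, le_div_iff₀ (by positivity), ← pow_add]
  exact pow_le_pow_right₀ h1 h

theorem cra_HH {R : ℝ} (hR : 2 ≤ R) (k : ℕ) :
    R ^ (50 * k + 63) ≤ (HH k R : ℝ) ∧ (HH k R : ℝ) ≤ R ^ (50 * k + 64) := by
  have h1 : (1 : ℝ) ≤ R := by linarith
  have h2 : (1 : ℝ) ≤ R ^ (50 * k + 63) := one_le_pow₀ h1
  refine ⟨Nat.le_ceil _, ?_⟩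
  have h3 := (Nat.ceil_lt_add_one (le_trans zero_le_one h2)).le
  calc (HH k R : ℝ) ≤ R ^ (50 * k + 63) + 1 := h3
    _ ≤ R ^ (50 * k + 63) * 2 := by linarith
    _ ≤ R ^ (50 * k + 63) * R := by gcongr
    _ = R ^ (50 * k + 64) := (pow_succ _ _).symm

theorem cra_Q {R : ℝ} (hR : 2 ≤ R) : 2 * R ^ 8 ≤ R ^ 9 := by
  have h0 : (0 : ℝ) < R := by linarith
  calc 2 * R ^ 8 ≤ R * R ^ 8 := by gcongr
    _ = R ^ 9 := by ring

/-- CRA.  Paper 8. -/
theorem par_ok {ι : Type} {c R : ℝ} {k : ℕ} (hc : 1 ≤ c) {F : Fa ι c} (h : F.Ch k R) {i : ℕ}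
    (hi : i < 16 * k - 1) : F.Par (2 * R ^ 8) (dd R (i + 1)) (2 * dd R i ^ 4) (NN k R) (HH k R)
      (am (dd R (i + 1)) (dd R i)) := by
  have hR : 2 ≤ R := by linarith only [h.hR, hc]
  have h1 : (1 : ℝ) ≤ R := by linarith only [hR]
  have h0 : (0 : ℝ) < R := by linarith only [hR]
  have hk := h.hk
  obtain ⟨a1, a2, a3, a4⟩ := dd_mem hR i
  obtain ⟨b1, b2⟩ := cra_HH hR k
  have hQ := cra_Q hR
  have hQ0 : 0 < 2 * R ^ 8 := by positivity
  have hR8 : R ≤ R ^ 8 := le_self_pow₀ h1 (by norm_num)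
  have hH0 : (0 : ℝ) ≤ HH k R := Nat.cast_nonneg _
  have a0 : 0 < dd R i := a1.trans_le a2
  have hHQ : (HH k R : ℝ) ^ 2 * (2 * R ^ 8) ^ 2 ≤ R ^ (100 * k + 146) := by
    calc (HH k R : ℝ) ^ 2 * (2 * R ^ 8) ^ 2 ≤ (R ^ (50 * k + 64)) ^ 2 * (R ^ 9) ^ 2 := by gcongr
      _ = R ^ (100 * k + 146) := by rw [← pow_mul, ← pow_mul, ← pow_add]; congr 1; omega
  refine ⟨h.pc _ _ a1 a2 a3, a1, a2.trans a3, ?_, ?_, ?_, ?_, ?_, ?_, ?_, ?_, ?_, ?_, ?_, ?_⟩
  · have := pow_le_pow_left₀ a1.le a2 4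
    have := pow_pos a0 4
    linarith
  · have := pow_le_one₀ (n := 4) a0.le a3
    linarith only [this]
  · linarith only [hR, a1, a4, hR8]
  · linarith only [h.hR, hR8]
  · have := F.one_le_DD
    have h2 : F.DD ≤ F.DD ^ 2 := le_self_pow₀ this (by norm_num)
    linarith only [h.hD, hR, a1, a4, hR8, h2]
  · have h2 := pow_le_pow_left₀ a0.le (cra_ratio hR i) 4
    rw [mul_pow, ← pow_mul, show 2 * 4 = 8 from rfl] at h2
    linarith only [h2]
  · rw [h.hT, ← div_le_iff₀' hQ0]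
    exact Nat.le_ceil _
  · rw [h.hT, mul_comm, ← pow_zero R]
    exact cra_le hR (by omega)
  · rw [h.hT]
    calc (2 * R ^ 8) ^ 14 * R ^ (100 * k) ≤ (R ^ 9) ^ 14 * R ^ (100 * k) := by gcongr
      _ = (R ^ (50 * k + 63)) ^ 2 := by
        rw [← pow_mul, ← pow_mul, ← pow_add]; congr 1; omega
      _ ≤ _ := by gcongr
  · rw [h.hT]
    calc (HH k R : ℝ) * (2 * R ^ 8) ^ 4 ≤ R ^ (50 * k + 64) * (R ^ 9) ^ 4 := by gcongr
      _ = R ^ (50 * k + 100) := by rw [← pow_mul, ← pow_add]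
      _ ≤ _ := cra_le hR (by omega)
  · rw [h.hT, mul_assoc]
    have he := h.he
    have e0 := F.e0
    calc F.ε * ((HH k R : ℝ) ^ 2 * (2 * R ^ 8) ^ 2) ≤ F.ε * R ^ (100 * k + 150) := by
          gcongr
          exact hHQ.trans (pow_le_pow_right₀ h1 (by omega))
      _ = F.ε * R ^ 150 * R ^ (100 * k) := by rw [pow_add]; ring
      _ ≤ 1 * R ^ (100 * k) := by gcongr
      _ = _ := one_mul _
  · rw [h.hT, mul_assoc, ← pow_mul]
    have hM := h.hM
    calc F.M * ((HH k R : ℝ) ^ 2 * (2 * R ^ 8) ^ 2) ≤ R ^ (50 * k + 80) * R ^ (100 * k + 146) := by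
          gcongr
      _ = R ^ (150 * k + 226) := by rw [← pow_add]; congr 1; omega
      _ ≤ _ := cra_le hR (by omega)

/-- CRA. -/
theorem par_N {ι : Type} {c R : ℝ} {k : ℕ} (hc : 1 ≤ c) {F : Fa ι c} (h : F.Ch k R) :
    1 ≤ NN k R ∧ NN k R ≤ F.N₁ ∧ NN k R * (2 * R ^ 8) ≤ 2 * F.T ∧
      F.U (2 * R ^ 8) ≤ F.W * F.KK / R := by
  have hR : 2 ≤ R := by linarith [h.hR]
  have h1 : (1 : ℝ) ≤ R := by linarith
  have h0 : (0 : ℝ) < R := by linarith
  have hk := h.hk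
  have hQ0 : 0 < 2 * R ^ 8 := by positivity
  have hR8 : (1 : ℝ) ≤ R ^ 8 := one_le_pow₀ h1
  have hT0 : 0 < R ^ (100 * k) := by positivity
  refine ⟨Nat.ceil_pos.2 (by positivity), Nat.ceil_le.2 ?_, ?_, ?_⟩
  · have h2 := F.n0
    rw [h.hT] at h2
    have h3 : R ^ (100 * k) / (2 * R ^ 8) ≤ R ^ (100 * k) := div_le_self hT0.le (by linarith only [hR8])
    have h4 : 1 * R ^ (100 * k) ≤ 2 * c * R ^ (100 * k) := by gcongr; linarith only [hc]
    linarith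
  · have h2 : (NN k R : ℝ) ≤ R ^ (100 * k) / (2 * R ^ 8) + 1 :=
      (Nat.ceil_lt_add_one (by positivity)).le
    have h3 : 2 * R ^ 8 ≤ R ^ (100 * k) := (cra_Q hR).trans (pow_le_pow_right₀ h1 (by omega))
    rw [h.hT]
    calc (NN k R : ℝ) * (2 * R ^ 8) ≤ (R ^ (100 * k) / (2 * R ^ 8) + 1) * (2 * R ^ 8) := by gcongr
      _ = R ^ (100 * k) + 2 * R ^ 8 := by rw [add_mul, div_mul_cancel₀ _ hQ0.ne', one_mul]
      _ ≤ _ := by linarith only [h3]
  · have hW : 0 ≤ F.W := le_trans zero_le_one F.hW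
    have hK := F.hK
    have h2 : F.DD ^ 4 ≤ R ^ 2 := by
      calc F.DD ^ 4 = (F.DD ^ 2) ^ 2 := by ring
        _ ≤ R ^ 2 := pow_le_pow_left₀ (sq_nonneg _) h.hD 2
    have h3 : R ^ 2 * R ≤ 2 * R ^ 8 := by
      have : R ^ (2 + 1) ≤ R ^ 8 := pow_le_pow_right₀ h1 (by norm_num)
      rw [← pow_succ]
      linarith only [hR8, this]
    rw [Fa.U, div_le_div_iff₀ hQ0 h0]
    calc F.W * F.DD ^ 4 * F.KK * R = F.W * F.KK * (F.DD ^ 4 * R) := by ring
      _ ≤ F.W * F.KK * (R ^ 2 * R) := by gcongr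
      _ ≤ _ := by gcongr

theorem crb_tp_add (J : Finset ℕ) (a b : ℕ → ℂ) (x : ℝ) :
    tp J (fun n => a n + b n) x = tp J a x + tp J b x := by
  unfold tp
  rw [← Finset.sum_add_distrib]
  exact Finset.sum_congr rfl fun n _ => by rw [add_mul, add_re, mul_add]

theorem crb_tp_sum (J S : Finset ℕ) (a : ℕ → ℕ → ℂ) (x : ℝ) :
    tp J (fun n => ∑ i ∈ S, a i n) x = ∑ i ∈ S, tp J (a i) x := by
  unfold tp
  rw [Finset.sum_comm]
  exact Finset.sum_congr rfl fun n _ => by rw [Finset.sum_mul, re_sum, Finset.mul_sum]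

theorem crb_tp_congr {J : Finset ℕ} {a b : ℕ → ℂ} (h : ∀ n ∈ J, a n = b n) (x : ℝ) :
    tp J a x = tp J b x :=
  Finset.sum_congr rfl fun n hn => by rw [h n hn]

theorem crb_tp_split {N N₁ : ℕ} (h1 : 1 ≤ N) (h2 : N ≤ N₁) (a : ℕ → ℂ) (x : ℝ) :
    tp (Finset.Icc 1 N₁) a x = tp (Finset.Ico 1 N) a x + tp (Finset.Icc N N₁) a x := by
  have e : Finset.Icc 1 N₁ = Finset.Ico 1 N ∪ Finset.Icc N N₁ := by
    ext n
    simp only [Finset.mem_union, Finset.mem_Icc, Finset.mem_Ico]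
    omega
  unfold tp
  rw [e, Finset.sum_union]
  rw [Finset.disjoint_left]
  intro n h3 h4
  rw [Finset.mem_Ico] at h3
  rw [Finset.mem_Icc] at h4
  omega

/-- CRB.  Telescoping, `ct 1 = 0`; for `n < NN` one has `3 / 4 ≤ qq`, so `ct (dd R (i + 1)) = 1` and
`ct (1 / 2) = 1`. -/
theorem decomp {ι : Type} {c R : ℝ} {k : ℕ} (hc : 1 ≤ c) {F : Fa ι c} (h : F.Ch k R)
    (b : ι → ℝ → ℂ) (j : ι) {r : ℝ} (hr : Real.exp r ≤ c / F.T) (x : ℝ) :
    tp (Finset.Icc 1 F.N₁) (fun n => ((F.lam j n *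
        (1 - cm (dd R (16 * k - 1)) (r + Real.log n)) : ℝ) : ℂ) * b j (r + Real.log n)) x =
      tp (Finset.Icc (NN k R) F.N₁) (F.al (am (dd R 1) 1) j r) x +
      (tp (Finset.Ico 1 (NN k R)) (F.al (am (1 / 2) 1) j r) x +
      (∑ i ∈ Finset.Ico 1 (16 * k - 1),
        tp (Finset.Icc (NN k R) F.N₁) (F.al (am (dd R (i + 1)) (dd R i)) j r) x +
      (∑ i ∈ Finset.range (16 * k - 1),
        tp (Finset.Icc 1 F.N₁) (F.er b (dd R (i + 1)) (dd R i) j r) x +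
      tp (Finset.Icc 1 F.N₁) (F.tu b (dd R (16 * k - 1)) j r) x))) := by
  obtain ⟨hN1, hN2, hN3, -⟩ := par_N hc h
  have hk := h.hk
  have hR := h.hR
  have hR2 : 2 ≤ R := by linarith only [hc, hR]
  have hT : 0 < F.T := lt_of_lt_of_le zero_lt_one F.hT
  have hK : 1 ≤ 16 * k - 1 := by omega
  generalize 16 * k - 1 = K at hK ⊢
  have c1 : ∀ ρ, ct 1 ρ = 0 := fun ρ =>
    (ct_eq zero_lt_one ρ).1 (by rw [one_pow]; exact (qq_lt ρ).le)
  have e1 : ∀ n : ℕ, ((F.lam j n * (1 - cm (dd R K) (r + Real.log n)) : ℝ) : ℂ) *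
      b j (r + Real.log n) = ∑ i ∈ Finset.range K, F.al (am (dd R (i + 1)) (dd R i)) j r n +
      (∑ i ∈ Finset.range K, F.er b (dd R (i + 1)) (dd R i) j r n + F.tu b (dd R K) j r n) := by
    intro n
    have h1 := Finset.sum_range_sub (fun i => ct (dd R i) (r + Real.log n)) K
    have h2 : ct (dd R 0) (r + Real.log n) = 0 := c1 _
    rw [← add_assoc, ← Finset.sum_add_distrib]
    simp only [Fa.er, add_sub_cancel]
    rw [← Finset.sum_mul, ← ofReal_sum, ← Finset.mul_sum, h1, h2, Fa.tu]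
    push_cast
    ring
  have e2 : ∀ n ∈ Finset.Ico 1 (NN k R),
      ∑ i ∈ Finset.range K, F.al (am (dd R (i + 1)) (dd R i)) j r n =
        F.al (am (1 / 2) 1) j r n := by
    intro n hn
    rw [Finset.mem_Ico] at hn
    have hn0 : (0 : ℝ) < n := by exact_mod_cast hn.1
    have hn1 : (n : ℝ) ≤ NN k R := by exact_mod_cast hn.2.le
    have hR8 : R ≤ R ^ 8 := le_self_pow₀ (by linarith only [hc, hR]) (by norm_num)
    have a1 : n * (2 * c) ≤ F.T := by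
      have := mul_le_mul hn1 (hR.trans hR8) (by linarith only [hc]) (Nat.cast_nonneg _)
      linarith only [hN3, this]
    have a2 : n * Real.exp r ≤ 1 / 2 := by
      refine (mul_le_mul_of_nonneg_left hr hn0.le).trans ?_
      rw [← mul_div_assoc, div_le_iff₀ hT]
      linarith only [a1]
    have a3 : 3 / 4 ≤ qq (r + Real.log n) := by
      rw [qq_log r hn0.ne']
      have := pow_le_pow_left₀ (mul_pos hn0 (Real.exp_pos r)).le a2 2
      linarith only [this]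
    have a4 : ∀ d : ℝ, 0 < d → d ≤ 1 / 2 → ct d (r + Real.log n) = 1 := by
      intro d hd hd2
      refine (ct_eq hd _).2.1 ?_
      have := pow_le_pow_left₀ hd.le hd2 4
      linarith only [a3, this]
    have a5 : ∀ i, ct (dd R (i + 1)) (r + Real.log n) = 1 := fun i =>
      a4 _ (dd_mem hR2 i).1 ((dd_mem hR2 i).2.2.2.trans (by norm_num))
    rw [Finset.sum_eq_single_of_mem 0 (Finset.mem_range.2 hK)]
    · have h0 : dd R 0 = 1 := rfl
      simp only [Fa.al, am, a5, h0, a4 (1 / 2) (by norm_num) le_rfl]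
    · intro i _ hi
      obtain ⟨i, rfl⟩ := Nat.exists_eq_succ_of_ne_zero hi
      simp only [Fa.al, am, Nat.succ_eq_add_one, a5, sub_self, zero_mul, mul_zero, ofReal_zero]
  have h0 : dd R 0 = 1 := rfl
  simp only [e1]
  rw [crb_tp_add, crb_tp_add, crb_tp_split hN1 hN2, crb_tp_congr e2, crb_tp_sum, crb_tp_sum,
    Finset.range_eq_Ico, Finset.sum_eq_sum_Ico_succ_bot hK, ← Finset.range_eq_Ico, zero_add, h0]
  ring

theorem crc_fin {C W K D X R a : ℝ} (hC : 0 ≤ C) (hW : 0 ≤ W) (hK : 0 ≤ K) (hR : 0 < R)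
    (hD : D ^ 2 ≤ R) (ha : 0 ≤ a) (hX0 : 0 ≤ X) (hX : X * R ^ 2 ≤ a) :
    C * (W * D ^ 2 * K) * X ≤ C * a * (W * K / R) := by
  have h1 : X ≤ a / R ^ 2 := by rwa [le_div_iff₀ (by positivity)]
  calc C * (W * D ^ 2 * K) * X ≤ C * (W * R * K) * (a / R ^ 2) := by gcongr
    _ = C * a * (W * K / R) := by field_simp

theorem crc_one {T d Δ : ℝ} (hT : 0 ≤ T) (hd : 0 < d) (hd1 : d ≤ 1) (h : 1 ≤ T * d ^ 6)
    (hΔ : d ^ 4 ≤ Δ) : 1 ≤ Δ * T := by
  have h1 : d ^ 6 ≤ d ^ 4 := pow_le_pow_of_le_one hd.le hd1 (by norm_num)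
  calc 1 ≤ T * d ^ 6 := h
    _ ≤ T * Δ := by gcongr; linarith
    _ = Δ * T := mul_comm _ _

/-- CRC.  `piece` with `η = 1`, `pc_side`; `Δ² / d⁴ = 4 R⁴ d'⁴ ≤ 4 / R⁴`. -/
theorem side_le {c : ℝ} (hc : 1 ≤ c) : ∃ C : ℝ, 0 ≤ C ∧ ∀ (ι : Type) (F : Fa ι c) (k i : ℕ) (R : ℝ),
    F.Ch k R → 1 ≤ i → i < 16 * k - 1 →
    ∑ j ∈ F.s, I4 (F.V j) (fun r => tp (Finset.Icc (NN k R) F.N₁)
      (F.al (am (dd R (i + 1)) (dd R i)) j r)) ≤ C * (F.W * F.KK / R) := by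
  obtain ⟨C₁, h₁, H₁⟩ := piece hc
  obtain ⟨C₂, h₂, H₂⟩ := pc_side hc
  refine ⟨24 * (C₂ * 4) + C₁, by positivity, fun ι F k i R h hi1 hi => ?_⟩
  have hp := par_ok hc h hi
  obtain ⟨err, -, e1, e2⟩ := H₁ ι F _ _ _ _ _ _ hp
  have hs := H₂ ι F _ _ _ _ _ _ hp
  have hR : 1 ≤ R := by linarith only [h.hR, hc]
  have hR0 : 0 < R := by linarith only [hR]
  have hW : 0 ≤ F.W := le_trans zero_le_one F.hW
  have hU := (par_N hc h).2.2.2
  have hX : (2 * dd R i ^ 4) ^ 2 / dd R (i + 1) ^ 4 * R ^ 2 ≤ 4 := by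
    obtain ⟨m, rfl⟩ : ∃ m, i = m + 1 := ⟨i - 1, by omega⟩
    have e : (2 * dd R (m + 1) ^ 4) ^ 2 / dd R (m + 1 + 1) ^ 4 * R ^ 2 = 4 / (R ^ m) ^ 4 / R ^ 2 := by
      simp only [dd, pow_add]
      field_simp
      norm_num
    rw [e]
    have h1 : 1 ≤ (R ^ m) ^ 4 := one_le_pow₀ (one_le_pow₀ hR)
    have h2 : 1 ≤ R ^ 2 := one_le_pow₀ hR
    exact (div_le_self (by positivity) h2).trans (div_le_self (by norm_num) h1)
  have hf := crc_fin h₂ hW F.hK hR0 h.hD (by norm_num) (by positivity) hX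
  have hU' : C₁ * F.U (2 * R ^ 8) ≤ C₁ * (F.W * F.KK / R) := by gcongr
  refine (Finset.sum_le_sum fun j hj => (e2 j hj 1 one_pos le_rfl).1).trans ?_
  rw [Finset.sum_add_distrib, ← Finset.mul_sum]
  simp only [div_one]
  linarith only [e1, hs, hf, hU']

/-- CRC.  `pc_triv` with `Δ = 2 d'⁴`, `e = 4 / (d⁷ T)`: `er = lam (ct d - ct d') (b - pp wk)`,
`Wkb.w1`, `pp_le`, `ct_eq`. -/
theorem er_le {c : ℝ} (hc : 1 ≤ c) : ∃ C : ℝ, 0 ≤ C ∧ ∀ (ι : Type) (F : Fa ι c) (k i : ℕ) (R : ℝ)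
    (b : ι → ℝ → ℂ) (G : ι → ℝ → ℝ → ℝ), F.Ch k R → F.Fr b G → i < 16 * k - 1 →
    ∑ j ∈ F.s, I4 (F.V j) (fun r => tp (Finset.Icc 1 F.N₁)
      (F.er b (dd R (i + 1)) (dd R i) j r)) ≤ C * (F.W * F.KK / R) := by
  obtain ⟨C₁, h₁, H₁⟩ := pc_triv hc
  refine ⟨C₁ * 2048, by positivity, fun ι F k i R b G h hF hi => ?_⟩
  have hp := par_ok hc h hi
  have hR2 : 2 ≤ R := by linarith only [h.hR, hc]
  have hR : 1 ≤ R := by linarith only [hR2]
  have hR0 : 0 < R := by linarith only [hR2]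
  have hW : 0 ≤ F.W := le_trans zero_le_one F.hW
  have hT0 : 0 < F.T := lt_of_lt_of_le one_pos F.hT
  obtain ⟨d0, d1, d2, d3⟩ := dd_mem hR2 i
  have hlow : 1 ≤ dd R (i + 1) * R ^ (16 * k) := by
    rw [dd, inv_mul_eq_div, one_le_div (by positivity)]
    exact pow_le_pow_right₀ hR (by omega)
  generalize dd R (i + 1) = d at *
  generalize dd R i = d' at *
  have d4 : d ^ 4 ≤ d' ^ 4 := by gcongr
  have d5 : d ^ 4 ≤ 1 / 2 := (pow_le_pow_left₀ d0.le d3 4).trans (by norm_num)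
  have hA : Continuous (am d d') := hp.pc.sm.c2.continuous
  have key := H₁ ι F (2 * d' ^ 4) (4 / (d ^ 7 * F.T)) (F.er b d d') (by positivity)
    (crc_one hT0.le d0 hp.d1 hp.td hp.D0) (fun j hj n => ?_) (fun j hj r n hn => ?_)
  · refine key.trans (crc_fin h₁ hW F.hK hR0 h.hD (by norm_num) (by positivity) ?_)
    have h1 : R ^ 26 ≤ d ^ 16 * F.T ^ 3 := by
      have hk := h.hk
      have e : d ^ 16 * F.T ^ 3 = (d * R ^ (16 * k)) ^ 16 * R ^ (44 * k) := by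
        rw [h.hT]; ring
      rw [e]
      calc R ^ 26 ≤ R ^ (44 * k) := pow_le_pow_right₀ hR (by omega)
        _ ≤ _ := le_mul_of_one_le_left (by positivity) (one_le_pow₀ hlow)
    have h2 := hp.dq
    have h3 : 0 ≤ d' := d0.le.trans d1
    calc (2 * d' ^ 4) ^ 3 * F.T * (4 / (d ^ 7 * F.T)) ^ 4 * R ^ 2
        ≤ (2 * R ^ 8 * d ^ 4) ^ 3 * F.T * (4 / (d ^ 7 * F.T)) ^ 4 * R ^ 2 := by gcongr
      _ = 2048 * (R ^ 26 / (d ^ 16 * F.T ^ 3)) := by field_simp; norm_num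
      _ ≤ 2048 * 1 := by gcongr; exact div_le_one_of_le₀ h1 (by positivity)
      _ = 2048 := mul_one _
  · have hs : Continuous fun r : ℝ => r + Real.log n := continuous_id.add continuous_const
    exact ((continuous_ofReal.comp (continuous_const.mul (((continuous_ct d).1.comp hs).sub
      ((continuous_ct d').1.comp hs)))).mul ((hF j hj).wkb.cont.comp hs)).sub
      (F.continuous_al hA j n)
  · have e : F.er b d d' j r n = ((F.lam j n * (ct d (r + Real.log n) - ct d' (r + Real.log n)) : ℝ) : ℂ) *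
        (b j (r + Real.log n) - pp (r + Real.log n) * wk (F.t j) (F.Cp j) (F.Cm j) (r + Real.log n)) := by
      simp only [Fa.er, Fa.al, am]
      push_cast
      ring
    rw [e]
    generalize r + Real.log n = ρ
    have hO := F.Om_nonneg j
    by_cases h0 : ct d ρ - ct d' ρ = 0
    · rw [h0]
      simp only [mul_zero, ofReal_zero, zero_mul, norm_zero, ne_eq, not_true_eq_false, false_imp_iff,
        and_true]
      positivity
    have hd' : 0 < d' := d0.trans_le d1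
    have q1 : d ^ 4 ≤ qq ρ := by
      by_contra hn
      rw [(ct_eq d0 ρ).1 (not_le.1 hn).le, (ct_eq hd' ρ).1 ((not_le.1 hn).le.trans d4)] at h0
      exact h0 (sub_self _)
    have q2 : qq ρ ≤ 2 * d' ^ 4 := by
      by_contra hn
      rw [(ct_eq d0 ρ).2.1 (by linarith only [d4, hn]), (ct_eq hd' ρ).2.1 (not_le.1 hn).le] at h0
      exact h0 (sub_self _)
    have q0 : 0 < qq ρ := lt_of_lt_of_le (by positivity) q1
    refine ⟨?_, fun _ => by rwa [abs_of_pos q0]⟩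
    have ht := F.t1 j hj
    have htd : 1 ≤ F.t j * d ^ 6 := hp.td.trans (by gcongr)
    have hw := (hF j hj).wkb.w1 d d0 d5 htd ρ q1
    have hpp := pp_le d0 q1
    have hpp0 := (pp_pow q0).1
    have hw' : ‖b j ρ - pp ρ * wk (F.t j) (F.Cp j) (F.Cm j) ρ‖ ≤
        4 * F.Om j * (1 / d) / (F.T * d ^ 6) := by
      refine hw.trans ?_
      change 4 * F.Om j * pp ρ / (F.t j * d ^ 6) ≤ _
      gcongr
    have hct : |ct d ρ - ct d' ρ| ≤ 1 := by
      obtain ⟨a1, a2, -⟩ := ct_mem d ρ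
      obtain ⟨a3, a4, -⟩ := ct_mem d' ρ
      rw [abs_le]
      constructor <;> linarith only [a1, a4, a2, a3]
    rw [norm_mul, Complex.norm_real, Real.norm_eq_abs, abs_mul]
    calc |F.lam j n| * |ct d ρ - ct d' ρ| * ‖b j ρ - pp ρ * wk (F.t j) (F.Cp j) (F.Cm j) ρ‖
        ≤ |F.lam j n| * 1 * (4 * F.Om j * (1 / d) / (F.T * d ^ 6)) := by gcongr
      _ = F.Om j * |F.lam j n| * (4 / (d ^ 7 * F.T)) := by field_simp

/-- CRC.  `pc_triv` with `Δ = 2 d⁴`, `e = 2 c T d⁵`, `d = 1 / R ^ (16 k)`: `Wkb.w2`. -/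
theorem tu_le {c : ℝ} (hc : 1 ≤ c) : ∃ C : ℝ, 0 ≤ C ∧ ∀ (ι : Type) (F : Fa ι c) (k : ℕ) (R : ℝ)
    (b : ι → ℝ → ℂ) (G : ι → ℝ → ℝ → ℝ), F.Ch k R → F.Fr b G →
    ∑ j ∈ F.s, I4 (F.V j) (fun r => tp (Finset.Icc 1 F.N₁)
      (F.tu b (dd R (16 * k - 1)) j r)) ≤ C * (F.W * F.KK / R) := by
  obtain ⟨C₁, h₁, H₁⟩ := pc_triv hc
  refine ⟨C₁ * (128 * c ^ 4), by positivity, fun ι F k R b G h hF => ?_⟩
  have hk := h.hk
  obtain ⟨i, hi⟩ : ∃ i, 16 * k - 1 = i + 1 := ⟨16 * k - 2, by omega⟩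
  have hp := par_ok hc h (i := i) (by omega)
  rw [hi]
  have hR2 : 2 ≤ R := by linarith only [h.hR, hc]
  have hR : 1 ≤ R := by linarith only [hR2]
  have hR0 : 0 < R := by linarith only [hR2]
  have hW : 0 ≤ F.W := le_trans zero_le_one F.hW
  have hT0 : 0 < F.T := lt_of_lt_of_le one_pos F.hT
  obtain ⟨d0, -, -, d3⟩ := dd_mem hR2 i
  have hd : dd R (i + 1) * R ^ (16 * k) = 1 := by
    rw [dd, show i + 2 = 16 * k by omega]
    exact inv_mul_cancel₀ (by positivity)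
  have htd := hp.td
  have hd1 := hp.d1
  clear hp
  generalize dd R (i + 1) = d at *
  have d4 : 0 < d ^ 4 := by positivity
  have d5 : d ^ 4 ≤ 1 / 2 := (pow_le_pow_left₀ d0.le d3 4).trans (by norm_num)
  have key := H₁ ι F (2 * d ^ 4) (2 * c * F.T * d ^ 5) (F.tu b d) (by positivity)
    (crc_one hT0.le d0 hd1 htd (by linarith only [d4])) (fun j hj n => ?_) (fun j hj r n hn => ?_)
  · refine key.trans (crc_fin h₁ hW F.hK hR0 h.hD (by positivity) (by positivity) ?_)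
    have h1 : F.T ^ 5 * d ^ 32 * R ^ 2 ≤ 1 := by
      calc F.T ^ 5 * d ^ 32 * R ^ 2 ≤ F.T ^ 5 * d ^ 32 * R ^ (12 * k) := by
            gcongr
            omega
        _ = (d * R ^ (16 * k)) ^ 32 := by rw [h.hT]; ring
        _ = 1 := by rw [hd, one_pow]
    calc (2 * d ^ 4) ^ 3 * F.T * (2 * c * F.T * d ^ 5) ^ 4 * R ^ 2
        = 128 * c ^ 4 * (F.T ^ 5 * d ^ 32 * R ^ 2) := by ring
      _ ≤ 128 * c ^ 4 * 1 := by gcongr
      _ = _ := mul_one _
  · have hs : Continuous fun r : ℝ => r + Real.log n := continuous_id.add continuous_const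
    exact (continuous_ofReal.comp (continuous_const.mul ((continuous_const.sub
      ((continuous_ct d).1.comp hs)).sub ((continuous_ct d).2.comp hs)))).mul
      ((hF j hj).wkb.cont.comp hs)
  · rw [Fa.tu]
    generalize r + Real.log n = ρ
    have hO := F.Om_nonneg j
    by_cases h0 : 1 - ct d ρ - cm d ρ = 0
    · rw [h0]
      simp only [mul_zero, ofReal_zero, zero_mul, norm_zero, ne_eq, not_true_eq_false, false_imp_iff,
        and_true]
      positivity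
    obtain ⟨c1, c2, c3, c4⟩ := ct_eq d0 ρ
    have q1 : qq ρ ≤ 2 * d ^ 4 := by
      by_contra hn
      rw [c2 (not_le.1 hn).le, c3 (by linarith only [d4, hn])] at h0
      exact h0 (by norm_num)
    have q2 : -(2 * d ^ 4) ≤ qq ρ := by
      by_contra hn
      rw [c1 (by linarith only [d4, hn]), c4 (not_le.1 hn).le] at h0
      exact h0 (by norm_num)
    refine ⟨?_, fun _ => abs_le.2 ⟨q2, q1⟩⟩
    have ht := F.t1 j hj
    have ht2 : F.t j ≤ 2 * F.T := by linarith only [F.t2 j hj, F.hMT]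
    have hw := (hF j hj).wkb.w2 d d0 d5 (htd.trans (by gcongr)) ρ q1
    have hw' : ‖b j ρ‖ ≤ c * F.Om j * (2 * F.T) * d ^ 5 := by
      refine hw.trans ?_
      change c * F.Om j * F.t j * d ^ 5 ≤ _
      gcongr
    have hct : |1 - ct d ρ - cm d ρ| ≤ 1 := by
      obtain ⟨a1, a2, a3, a4⟩ := ct_mem d ρ
      rw [abs_le]
      constructor <;> linarith only [a2, a4, a1, a3]
    rw [norm_mul, Complex.norm_real, Real.norm_eq_abs, abs_mul]
    calc |F.lam j n| * |1 - ct d ρ - cm d ρ| * ‖b j ρ‖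
        ≤ |F.lam j n| * 1 * (c * F.Om j * (2 * F.T) * d ^ 5) := by gcongr
      _ = F.Om j * |F.lam j n| * (2 * c * F.T * d ^ 5) := by ring

theorem crd_exp (a : ℝ) (n : ℕ) :
    ∃ y₀ : ℝ, ∀ y : ℝ, y₀ ≤ y → a * y ^ n * Real.exp (-(y / 30)) ≤ 1 := by
  have h1 := ((Real.tendsto_pow_mul_exp_neg_atTop_nhds_zero n).comp
    (Filter.tendsto_id.atTop_div_const (by norm_num : (0 : ℝ) < 30))).const_mul (a * 30 ^ n)
  rw [mul_zero] at h1
  obtain ⟨y₀, h2⟩ := Filter.eventually_atTop.1 (h1.eventually (ge_mem_nhds one_pos))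
  refine ⟨y₀, fun y hy => le_trans (le_of_eq ?_) (h2 y hy)⟩
  simp only [Function.comp, id, div_pow]
  field_simp

theorem crd_dd (R : ℝ) {k : ℕ} (hk : 13 ≤ k) : dd R (16 * k - 1) = ((R ^ (4 * k)) ^ 4)⁻¹ := by
  obtain ⟨m, hm⟩ : ∃ m, 16 * k - 1 = m + 1 := ⟨16 * k - 2, by omega⟩
  rw [hm, dd, ← pow_mul, show m + 2 = 4 * k * 4 by omega]

/-- CRD.  `tail_le`: the bound is at most `8 c ^ 6 T ^ 6 exp (- R ^ (4 k) / 30)`. -/
theorem tail_small {c : ℝ} (hc : 1 ≤ c) (k : ℕ) : ∃ R₀ : ℝ, ∀ (ι : Type) (F : Fa ι c) (R : ℝ)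
    (b : ι → ℝ → ℂ) (G : ι → ℝ → ℝ → ℝ), R₀ ≤ R → F.Ch k R → F.Fr b G → ∀ j ∈ F.s, ∀ r x : ℝ,
    1 / (c * F.T) ≤ Real.exp r →
    |G j r x - tp (Finset.Icc 1 F.N₁) (fun n => ((F.lam j n *
        (1 - cm (dd R (16 * k - 1)) (r + Real.log n)) : ℝ) : ℂ) * b j (r + Real.log n)) x| ≤ 1 := by
  obtain ⟨y₀, hy₀⟩ := crd_exp (8 * c ^ 6) 150
  refine ⟨max y₀ 40, fun ι F R b G hR h hF j hj r x hr => ?_⟩
  have hk := h.hk
  have hR1 : 40 ≤ R := (le_max_right _ _).trans hR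
  have hy : R ≤ R ^ (4 * k) := le_self_pow₀ (by linarith only [hR1]) (by omega)
  have hT : F.T = (R ^ (4 * k)) ^ 25 := by rw [h.hT, ← pow_mul, show 4 * k * 25 = 100 * k by omega]
  have hb := hy₀ _ (((le_max_left _ _).trans hR).trans hy)
  have f := hF j hj
  have t1 := F.t1 j hj
  have t2 : F.t j ≤ 2 * F.T := by linarith only [F.t2 j hj, F.hMT]
  have n0 := F.n0
  rw [crd_dd R hk]
  have hy1 : 40 ≤ R ^ (4 * k) := hR1.trans hy
  generalize R ^ (4 * k) = y at *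
  have y0 : 0 < y := by linarith only [hR1, hy]
  have y1 : 1 ≤ y := by linarith only [hR1, hy]
  have c0 : 0 < c := by linarith only [hc]
  have T0 : 0 < F.T := by linarith only [F.hT]
  have d0 : 0 < (y ^ 4)⁻¹ := by positivity
  have d1 : (y ^ 4)⁻¹ ≤ 1 / 2 := by
    rw [one_div]
    exact inv_anti₀ two_pos (le_trans (by linarith only [hR1, hy]) (le_self_pow₀ y1 (by norm_num)))
  have d2 : (y ^ 4)⁻¹ ≤ 1 := by linarith only [d0, d1]
  have e6 : y ≤ F.t j * (y ^ 4)⁻¹ ^ 6 := by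
    refine le_trans (le_of_eq ?_) (mul_le_mul_of_nonneg_right t1 (by positivity))
    rw [hT]
    field_simp
  have e2 : F.t j * (y ^ 4)⁻¹ ^ 6 ≤ F.t j * (y ^ 4)⁻¹ ^ 2 :=
    mul_le_mul_of_nonneg_left (pow_le_pow_of_le_one d0.le d2 (by norm_num)) (by linarith only [t1, T0])
  have e4 : (y ^ 4)⁻¹ ^ 4 ≤ 1 / 2 := (pow_le_of_le_one d0.le d2 (by norm_num)).trans d1
  have cT : 0 < c * F.T := mul_pos c0 T0
  have hr' : 1 ≤ c * F.T * Real.exp r := by rwa [div_le_iff₀' cT] at hr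
  have hN : 2 ≤ F.N₁ * Real.exp r := by
    have := mul_le_mul_of_nonneg_right n0 (Real.exp_pos r).le
    linarith only [hr', this]
  have hr2 : Real.exp (-r) ≤ c * F.T := by
    rw [Real.exp_neg, inv_le_iff_one_le_mul₀ (Real.exp_pos r)]
    exact hr'
  refine (tail_le c0.le cT.le f.wkb f.zero f.bd d0 e4 (by linarith only [hR1, hy, e6]) (by linarith only [hR1, hy, e6, e2]) hN
    (f.sum r x)).trans (le_trans ?_ hb)
  have e5 : (y ^ 4)⁻¹ ^ 5 ≤ 1 := pow_le_one₀ d0.le d2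
  have e7 : Real.exp (-(F.t j * (y ^ 4)⁻¹ ^ 6 / 30)) ≤ Real.exp (-(y / 30)) :=
    Real.exp_le_exp.2 (by linarith only [e6])
  have e8 : 8 * c ^ 6 * y ^ 150 * Real.exp (-(y / 30)) =
      4 * c * (c * F.T) * (2 * F.T) * 1 * Real.exp (-(y / 30)) * (c * F.T) ^ 4 := by
    rw [hT]
    ring
  rw [e8]
  have t0 : 0 ≤ F.t j := by linarith only [t1, T0]
  gcongr

theorem crd_add {c T : ℝ} {V : ℝ → ℝ} (hc : 1 ≤ c) (hT : 1 ≤ T) (h : Vw c T V)
    {A B : ℝ → ℝ → ℝ} (hA : Continuous fun p : ℝ × ℝ => A p.1 p.2)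
    (hB : Continuous fun p : ℝ × ℝ => B p.1 p.2) :
    I4 V (fun r x => A r x + B r x) ≤ 8 * I4 V A + 8 * I4 V B := by
  have h1 := I4_add_le hc hT h hA hB one_pos
  norm_num at h1
  exact h1

theorem crd_comb {c T : ℝ} {V : ℝ → ℝ} (hc : 1 ≤ c) (hT : 1 ≤ T) (h : Vw c T V)
    {A P Q : ℝ → ℝ → ℝ} {S S' : Finset ℕ} {B E : ℕ → ℝ → ℝ → ℝ}
    (hA : Continuous fun p : ℝ × ℝ => A p.1 p.2) (hP : Continuous fun p : ℝ × ℝ => P p.1 p.2)
    (hB : ∀ i ∈ S, Continuous fun p : ℝ × ℝ => B i p.1 p.2)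
    (hE : ∀ i ∈ S', Continuous fun p : ℝ × ℝ => E i p.1 p.2)
    (hQ : Continuous fun p : ℝ × ℝ => Q p.1 p.2) :
    I4 V (fun r x => A r x + (P r x + (∑ i ∈ S, B i r x + (∑ i ∈ S', E i r x + Q r x)))) ≤
      8 * I4 V A + (64 * I4 V P + 512 * (S.card : ℝ) ^ 3 * ∑ i ∈ S, I4 V (B i) +
        4096 * (S'.card : ℝ) ^ 3 * ∑ i ∈ S', I4 V (E i) + 4096 * I4 V Q) := by
  have cB : Continuous fun p : ℝ × ℝ => ∑ i ∈ S, B i p.1 p.2 := continuous_finsetSum _ hB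
  have cE : Continuous fun p : ℝ × ℝ => ∑ i ∈ S', E i p.1 p.2 := continuous_finsetSum _ hE
  have h1 := crd_add hc hT h (A := fun r x => ∑ i ∈ S', E i r x) cE hQ
  have h2 := crd_add hc hT h (A := fun r x => ∑ i ∈ S, B i r x)
    (B := fun r x => ∑ i ∈ S', E i r x + Q r x) cB (cE.add hQ)
  have h3 := crd_add hc hT h
    (B := fun r x => ∑ i ∈ S, B i r x + (∑ i ∈ S', E i r x + Q r x)) hP (cB.add (cE.add hQ))
  have h4 := crd_add hc hT h
    (B := fun r x => P r x + (∑ i ∈ S, B i r x + (∑ i ∈ S', E i r x + Q r x))) hA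
    (hP.add (cB.add (cE.add hQ)))
  have h5 := I4_sum_le hc hT h S hB
  have h6 := I4_sum_le hc hT h S' hE
  linarith

theorem crd_sum {ι : Type} (s : Finset ι) (S : Finset ℕ) {e : ℕ → ι → ℝ} {B : ℝ} {n : ℕ}
    (hB : 0 ≤ B) (hn : S.card ≤ n) (h : ∀ i ∈ S, ∑ j ∈ s, e i j ≤ B) {a : ℝ} (ha : 0 ≤ a) :
    ∑ j ∈ s, a * (S.card : ℝ) ^ 3 * ∑ i ∈ S, e i j ≤ a * (n : ℝ) ^ 4 * B := by
  have h1 : ∑ i ∈ S, ∑ j ∈ s, e i j ≤ S.card * B := by
    simpa only [nsmul_eq_mul] using Finset.sum_le_card_nsmul S _ B h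
  have h2 : (S.card : ℝ) ≤ n := by exact_mod_cast hn
  rw [← Finset.mul_sum, Finset.sum_comm]
  refine (mul_le_mul_of_nonneg_left h1 (by positivity)).trans ?_
  rw [show a * (S.card : ℝ) ^ 3 * (S.card * B) = a * (S.card : ℝ) ^ 4 * B by ring]
  gcongr

/-- CRD.  `decomp`, `tail_small`, `I4_congr`, `I4_add_le` with `η = 1`, `I4_sum_le`, `I4_le_of_abs`,
`pc_vert`, `side_le`, `er_le`, `tu_le`.  `err j` is a multiple of the sum of the `I4` of the pieces. -/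
theorem rest_le {c : ℝ} (hc : 1 ≤ c) (k : ℕ) : ∃ C R₀ : ℝ, 0 ≤ C ∧ ∀ (ι : Type) (F : Fa ι c) (R : ℝ)
    (b : ι → ℝ → ℂ) (G : ι → ℝ → ℝ → ℝ), R₀ ≤ R → F.Ch k R → F.Fr b G →
    ∃ err : ι → ℝ, (∀ j ∈ F.s, 0 ≤ err j) ∧ ∑ j ∈ F.s, err j ≤ C * (F.W * F.KK / R) ∧ ∀ j ∈ F.s,
      I4 (F.V j) (fun r x => G j r x -
        tp (Finset.Icc (NN k R) F.N₁) (F.al (am (dd R 1) 1) j r) x) ≤ err j + C / R := by
  obtain ⟨R₀, hR₀⟩ := tail_small hc k
  obtain ⟨C₁, p₁, k₁⟩ := pc_vert hc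
  obtain ⟨C₂, p₂, k₂⟩ := side_le hc
  obtain ⟨C₃, p₃, k₃⟩ := er_le hc
  obtain ⟨C₄, p₄, k₄⟩ := tu_le hc
  have p₅ : 0 ≤ 64 * C₁ + 512 * ((16 * k : ℕ) : ℝ) ^ 4 * C₂ + 4096 * ((16 * k : ℕ) : ℝ) ^ 4 * C₃ +
      4096 * C₄ := by positivity
  refine ⟨64 * C₁ + 512 * ((16 * k : ℕ) : ℝ) ^ 4 * C₂ + 4096 * ((16 * k : ℕ) : ℝ) ^ 4 * C₃ +
    4096 * C₄ + 16 * c ^ 2, R₀, by positivity, fun ι F R b G hR h hF => ?_⟩
  have hk := h.hk
  have hR2 : 2 ≤ R := by linarith only [h.hR, hc]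
  have R0 : 0 < R := by linarith only [hR2]
  have hT := F.hT
  have hX : 0 ≤ F.W * F.KK / R := div_nonneg (mul_nonneg (by linarith [F.hW]) F.hK) R0.le
  obtain ⟨-, -, n3, n4⟩ := par_N hc h
  have pv : Pc c (1 / 2) 2 (am (1 / 2) 1) := by
    simpa only [one_pow, mul_one] using h.pc (1 / 2) 1 (by norm_num) (by norm_num) le_rfl
  have ca : ∀ i, Continuous (am (dd R (i + 1)) (dd R i)) := fun i =>
    (h.pc _ _ (dd_mem hR2 i).1 (dd_mem hR2 i).2.1 (dd_mem hR2 i).2.2.1).sm.c2.continuous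
  have k₁ := (k₁ ι F (2 * R ^ 8) (NN k R) _ pv (by
    have := le_self_pow₀ (show 1 ≤ R by linarith only [hR2]) (show 8 ≠ 0 by norm_num)
    linarith only [h.hR, this]) n3).trans (mul_le_mul_of_nonneg_left n4 p₁)
  have k₂ := crd_sum F.s (Finset.Ico 1 (16 * k - 1)) (n := 16 * k) (mul_nonneg p₂ hX)
    (by rw [Nat.card_Ico]; omega)
    (fun i hi => k₂ ι F k i R h (Finset.mem_Ico.1 hi).1 (Finset.mem_Ico.1 hi).2)
    (show (0 : ℝ) ≤ 512 by norm_num)
  have k₃ := crd_sum F.s (Finset.range (16 * k - 1)) (n := 16 * k) (mul_nonneg p₃ hX)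
    (by rw [Finset.card_range]; omega)
    (fun i hi => k₃ ι F k i R b G h hF (Finset.mem_range.1 hi))
    (show (0 : ℝ) ≤ 4096 by norm_num)
  have k₄ := k₄ ι F k R b G h hF
  refine ⟨fun j => 64 * I4 (F.V j) (fun r => tp (Finset.Ico 1 (NN k R)) (F.al (am (1 / 2) 1) j r)) +
    512 * ((Finset.Ico 1 (16 * k - 1)).card : ℝ) ^ 3 * ∑ i ∈ Finset.Ico 1 (16 * k - 1),
      I4 (F.V j) (fun r => tp (Finset.Icc (NN k R) F.N₁) (F.al (am (dd R (i + 1)) (dd R i)) j r)) +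
    4096 * ((Finset.range (16 * k - 1)).card : ℝ) ^ 3 * ∑ i ∈ Finset.range (16 * k - 1),
      I4 (F.V j) (fun r => tp (Finset.Icc 1 F.N₁) (F.er b (dd R (i + 1)) (dd R i) j r)) +
    4096 * I4 (F.V j) (fun r => tp (Finset.Icc 1 F.N₁) (F.tu b (dd R (16 * k - 1)) j r)),
    fun j hj => ?_, ?_, fun j hj => ?_⟩
  · have nn := I4_nonneg (F.vw j hj)
    exact add_nonneg (add_nonneg (add_nonneg (mul_nonneg (by norm_num) (nn _))
      (mul_nonneg (by positivity) (Finset.sum_nonneg fun i _ => nn _)))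
      (mul_nonneg (by positivity) (Finset.sum_nonneg fun i _ => nn _)))
      (mul_nonneg (by norm_num) (nn _))
  · rw [Finset.sum_add_distrib, Finset.sum_add_distrib, Finset.sum_add_distrib, ← Finset.mul_sum,
      ← Finset.mul_sum _ _ (4096 : ℝ)]
    have : 0 ≤ c ^ 2 * (F.W * F.KK / R) := by positivity
    linarith
  have hV := F.vw j hj
  have f := hF j hj
  have cl : ∀ n : ℕ, Continuous fun r : ℝ => r + Real.log n := fun n =>
    continuous_id.add continuous_const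
  have cb : ∀ (n : ℕ) {u : ℝ → ℝ}, Continuous u → Continuous fun r : ℝ =>
      ((F.lam j n * u (r + Real.log n) : ℝ) : ℂ) * b j (r + Real.log n) := fun n u hu =>
    (continuous_ofReal.comp (continuous_const.mul (hu.comp (cl n)))).mul (f.wkb.cont.comp (cl n))
  have c1 := f.cont.sub (continuous_tp₂ (Finset.Icc 1 F.N₁) (c := fun r n => ((F.lam j n *
    (1 - cm (dd R (16 * k - 1)) (r + Real.log n)) : ℝ) : ℂ) * b j (r + Real.log n)) fun n _ =>
      cb n (u := fun ρ => 1 - cm (dd R (16 * k - 1)) ρ) (continuous_const.sub (continuous_ct _).2))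
  have h1 := crd_comb hc hT hV
    (A := fun r x => G j r x - tp (Finset.Icc 1 F.N₁) (fun n => ((F.lam j n *
      (1 - cm (dd R (16 * k - 1)) (r + Real.log n)) : ℝ) : ℂ) * b j (r + Real.log n)) x)
    (P := fun r => tp (Finset.Ico 1 (NN k R)) (F.al (am (1 / 2) 1) j r))
    (Q := fun r => tp (Finset.Icc 1 F.N₁) (F.tu b (dd R (16 * k - 1)) j r))
    (S := Finset.Ico 1 (16 * k - 1)) (S' := Finset.range (16 * k - 1))
    (B := fun i r => tp (Finset.Icc (NN k R) F.N₁) (F.al (am (dd R (i + 1)) (dd R i)) j r))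
    (E := fun i r => tp (Finset.Icc 1 F.N₁) (F.er b (dd R (i + 1)) (dd R i) j r)) c1
    (continuous_tp₂ _ fun n _ => F.continuous_al pv.sm.c2.continuous j n)
    (fun i _ => continuous_tp₂ _ fun n _ => F.continuous_al (ca i) j n)
    (fun i _ => continuous_tp₂ _ fun n _ =>
      (cb n (u := fun ρ => ct (dd R (i + 1)) ρ - ct (dd R i) ρ)
        ((continuous_ct _).1.sub (continuous_ct _).1)).sub (F.continuous_al (ca i) j n))
    (continuous_tp₂ _ fun n _ =>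
      cb n (u := fun ρ => 1 - ct (dd R (16 * k - 1)) ρ - cm (dd R (16 * k - 1)) ρ)
        ((continuous_const.sub (continuous_ct _).1).sub (continuous_ct _).2))
  have h2 := I4_le_of_abs hc hT hV zero_le_one fun r hr _ x => hR₀ ι F R b G hR h hF j hj r x hr
  have h3 : 2 * c ^ 2 * 1 ^ 4 / F.T ^ 2 ≤ 2 * c ^ 2 / R := by
    have a1 : R ≤ F.T := by
      rw [h.hT]
      exact le_self_pow₀ (by linarith only [hR2]) (by omega)
    rw [one_pow, mul_one]
    exact div_le_div_of_nonneg_left (by positivity) R0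
      (a1.trans (le_self_pow₀ hT (by norm_num)))
  refine (le_of_eq (I4_congr hV fun r _ hr x => ?_)).trans (h1.trans ?_)
  · rw [decomp hc h b j hr x]
    ring
  · have a1 := div_nonneg p₅ R0.le
    have a2 : 16 * c ^ 2 / R = 8 * (2 * c ^ 2 / R) := by ring
    rw [add_div _ (16 * c ^ 2), a2]
    linarith only [h2, h3, a1]

/-- CRF.  `par_ok` with `i = 0`, `piece`, `pc_main`, `rest_le`, `comb`, `p9b`, `IV_mem`;
`Z = 2 om2 IV LL`. -/
theorem coreA {c : ℝ} (hc : 1 ≤ c) (k : ℕ) : ∃ C R₀ : ℝ, 0 ≤ C ∧ ∀ (ι : Type) (F : Fa ι c) (R : ℝ)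
    (b : ι → ℝ → ℂ) (G : ι → ℝ → ℝ → ℝ), R₀ ≤ R → F.Ch k R → F.Fr b G →
    ∃ Z err : ι → ℝ, (∀ j ∈ F.s, 0 ≤ err j) ∧ ∑ j ∈ F.s, err j ≤ C * (F.W * F.KK / R) ∧
      ∑ j ∈ F.s, Z j ^ 2 ≤ 3200 * c ^ 2 * (F.W * F.KK) ∧ ∀ j ∈ F.s, ∀ η : ℝ, 0 < η → η ≤ 1 →
      I4 (F.V j) (G j) ≤ 3 * (1 + η) ^ 5 * Z j ^ 2 * I0 (F.V j) + (err j + C / R) / η ^ 4 ∧
      |I2 (F.V j) (G j) - Z j * I0 (F.V j)| ≤
        6 * η * (1 + |Z j|) * I0 (F.V j) + (err j + C / R) / η ^ 4 := by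
  obtain ⟨C₁, hC₁, hp⟩ := piece hc
  obtain ⟨C₂, hC₂, hm⟩ := pc_main hc
  obtain ⟨C₃, R₀, hC₃, hr⟩ := rest_le hc k
  refine ⟨400 * (C₁ + C₂ + C₃), R₀, by positivity, fun ι F R b G hR h hF => ?_⟩
  have hk := h.hk
  have hR0 : 0 < R := by linarith only [h.hR, hc]
  have par : F.Par (2 * R ^ 8) (dd R 1) 2 (NN k R) (HH k R) (am (dd R 1) 1) := by
    have h0 := par_ok hc h (i := 0) (by omega)
    have h1 : dd R 0 = 1 := rfl
    rw [h1, one_pow, mul_one] at h0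
    exact h0
  obtain ⟨-, -, hN, hU⟩ := par_N hc h
  obtain ⟨e₁, he₁, hs₁, h₁⟩ := hp ι F _ _ _ _ _ _ par
  have h₂ := hm ι F _ _ _ _ par hN
  obtain ⟨e₃, he₃, hs₃, h₃⟩ := hr ι F R b G hR h hF
  have hb := Fa.p9b hc F par
  obtain ⟨iv0, iv2⟩ := IV_mem par.d0 par.d1
  have hA : Continuous (am (dd R 1) 1) := par.pc.sm.c2.continuous
  generalize am (dd R 1) 1 = A at *
  generalize IV (dd R 1) = v at *
  generalize Finset.Icc (NN k R) F.N₁ = J at *
  generalize HH k R = H at *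
  generalize F.U (2 * R ^ 8) = U at *
  have he₂ : ∀ j ∈ F.s, 0 ≤ ∫ r, F.V j r * (F.om2 j *
      (F.Dm A J j r - Real.exp (-r) * (v * F.LL H j))) ^ 2 := fun j hj =>
    integral_nonneg fun r => mul_nonneg ((F.vw j hj).nn r) (sq_nonneg _)
  refine ⟨fun j => 2 * (F.om2 j * (v * F.LL H j)), fun j => 400 * (e₁ j + (∫ r, F.V j r *
    (F.om2 j * (F.Dm A J j r - Real.exp (-r) * (v * F.LL H j))) ^ 2) + e₃ j), ?_, ?_, ?_, ?_⟩
  · intro j hj
    exact mul_nonneg (by norm_num) (add_nonneg (add_nonneg (he₁ j hj) (he₂ j hj)) (he₃ j hj))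
  · rw [← Finset.mul_sum, Finset.sum_add_distrib, Finset.sum_add_distrib]
    have a₁ := mul_le_mul_of_nonneg_left hU hC₁
    have a₂ := mul_le_mul_of_nonneg_left hU hC₂
    linarith only [hs₃, hs₁, h₂, a₁, a₂]
  · have h16 : ∀ j ∈ F.s, (2 * (F.om2 j * (v * F.LL H j))) ^ 2 ≤
        16 * (F.Om j ^ 4 * F.LL H j ^ 2) := by
      intro j hj
      obtain ⟨o0, o1⟩ := F.om2_le j
      have a₁ : F.om2 j * v ≤ F.Om j ^ 2 * 2 := mul_le_mul o1 iv2 iv0 (sq_nonneg _)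
      have a₂ : (F.om2 j * v) ^ 2 ≤ (F.Om j ^ 2 * 2) ^ 2 :=
        pow_le_pow_left₀ (mul_nonneg o0 iv0) a₁ 2
      have a₃ := mul_le_mul_of_nonneg_right a₂ (sq_nonneg (F.LL H j))
      calc (2 * (F.om2 j * (v * F.LL H j))) ^ 2 = 4 * ((F.om2 j * v) ^ 2 * F.LL H j ^ 2) := by ring
        _ ≤ 4 * ((F.Om j ^ 2 * 2) ^ 2 * F.LL H j ^ 2) := by linarith only [a₃]
        _ = _ := by ring
    refine (Finset.sum_le_sum h16).trans ?_
    rw [← Finset.mul_sum]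
    linarith only [hb]
  · intro j hj η hη hη1
    have hD : Continuous fun r => F.om2 j * F.Dm A J j r := by
      unfold Fa.Dm
      exact continuous_const.mul (continuous_finsetSum _ fun m _ => continuous_const.mul
        ((hA.comp (continuous_id.add continuous_const)).pow 2))
    have hP : Continuous fun p : ℝ × ℝ => tp J (F.al A j p.1) p.2 :=
      continuous_tp₂ J fun n _ => F.continuous_al hA j n
    have hZ : ∫ r, F.V j r * (F.om2 j * F.Dm A J j r -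
        Real.exp (-r) * (F.om2 j * (v * F.LL H j))) ^ 2 ≤ ∫ r, F.V j r * (F.om2 j *
        (F.Dm A J j r - Real.exp (-r) * (v * F.LL H j))) ^ 2 :=
      le_of_eq (integral_congr_ae (Filter.Eventually.of_forall fun r => by ring))
    obtain ⟨c₁, c₂⟩ := comb (P := fun r => tp J (F.al A j r)) hc F.hT (F.vw j hj) (hF j hj).cont hP
      hD hη hη1 (he₁ j hj) (h₁ j hj η hη hη1).1 (h₁ j hj η hη hη1).2 hZ (h₃ j hj)
    have hle : 400 * (e₁ j + (∫ r, F.V j r * (F.om2 j *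
        (F.Dm A J j r - Real.exp (-r) * (v * F.LL H j))) ^ 2) + (e₃ j + C₃ / R)) / η ^ 4 ≤
        (400 * (e₁ j + (∫ r, F.V j r * (F.om2 j *
        (F.Dm A J j r - Real.exp (-r) * (v * F.LL H j))) ^ 2) + e₃ j) +
          400 * (C₁ + C₂ + C₃) / R) / η ^ 4 := by
      refine div_le_div_of_nonneg_right ?_ (by positivity)
      have a₁ : 400 * C₃ / R ≤ 400 * (C₁ + C₂ + C₃) / R :=
        div_le_div_of_nonneg_right (by linarith only [hC₁, hC₂]) hR0.le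
      have a₂ : 400 * C₃ / R = 400 * (C₃ / R) := mul_div_assoc _ _ _
      linarith only [a₁, a₂]
    exact ⟨c₁.trans (by linarith only [hle]), c₂.trans (by linarith only [hle])⟩

theorem crg_shift {g : ℝ → ℝ} (a u : ℝ) (h : IntegrableOn g (Ioi (a + u))) :
    IntegrableOn (fun r => g (r + u)) (Ioi a) ∧
      ∫ r in Ioi a, g (r + u) = ∫ ρ in Ioi (a + u), g ρ := by
  have hp := measurePreserving_add_right (volume : Measure ℝ) u
  have he := measurableEmbedding_addRight u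
  have hs : (fun r : ℝ => r + u) ⁻¹' Ioi (a + u) = Ioi a := by
    ext r; simp
  constructor
  · have := (hp.integrableOn_comp_preimage he (f := g) (s := Ioi (a + u))).2 h
    rwa [hs] at this
  · have := hp.setIntegral_preimage_emb he g (Ioi (a + u))
    rwa [hs] at this

theorem crg_pt {c T t X r : ℝ} {lam : ℕ → ℝ} {b : ℝ → ℂ} {Cp Cm : ℂ} {G : ℝ → ℝ → ℝ} (hc : 1 ≤ c)
    (h : Frm c T t lam b Cp Cm G) (hT : 160 ≤ T) (h1 : T ≤ t) (h2 : t ≤ 2 * T) (hX : 1 ≤ X)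
    (hXT : X ≤ T) (hr : -Real.log X < r) :
    ∫ x in (0 : ℝ)..1, G r x ^ 2 ≤
      4 * ∑ n ∈ Finset.Icc 1 ⌈2 * X⌉₊, lam n ^ 2 * ‖b (r + Real.log n)‖ ^ 2 +
        c ^ 4 * T ^ 11 * Real.exp (-(T / 960)) * Real.exp (-r) := by
  have hX0 : 0 < X := by linarith
  have hT0 : 0 < T := by linarith
  have hc0 : 0 ≤ c := by linarith
  have hu0 := Real.exp_pos (-r)
  have hu : Real.exp (-r) ≤ X := by
    rw [← Real.exp_log hX0]
    exact Real.exp_le_exp.2 (by linarith)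
  have hN : (2 : ℝ) ≤ (⌈2 * X⌉₊ : ℕ) * Real.exp r := by
    have e1 : Real.exp (-r) * Real.exp r = 1 := by rw [← Real.exp_add]; simp
    have e2 := Real.exp_pos r
    calc (2 : ℝ) = 2 * Real.exp (-r) * Real.exp r := by rw [mul_assoc, e1, mul_one]
      _ ≤ 2 * X * Real.exp r := by gcongr
      _ ≤ _ := by gcongr; exact Nat.le_ceil _
  set a : ℕ → ℂ := fun n =>
    ((lam n * (1 - cm (1 / 2) (r + Real.log n)) : ℝ) : ℂ) * b (r + Real.log n) with ha
  set E : ℝ := c ^ 2 * T ^ 5 * Real.exp (-(T / 1920)) / 2 with hE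
  have hE0 : 0 ≤ E := by positivity
  have key : ∀ x, |G r x - tp (Finset.Icc 1 ⌈2 * X⌉₊) a x| ≤ E * Real.exp (-r) := fun x => by
    refine (tail_le (d := 1 / 2) hc0 (by positivity) h.wkb h.zero h.bd (by norm_num) (by norm_num)
      (by linarith only [hT, h1]) (by linarith only [hT, h1]) hN (h.sum r x)).trans ?_
    have e1 : Real.exp (-(t * (1 / 2) ^ 6 / 30)) ≤ Real.exp (-(T / 1920)) :=
      Real.exp_le_exp.2 (by linarith only [h1])
    have e2 : Real.exp (-r) ≤ T := hu.trans hXT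
    calc _ = 4 * c * (c * T) * t * (1 / 2) ^ 5 * Real.exp (-(t * (1 / 2) ^ 6 / 30)) *
          Real.exp (-r) ^ 3 * Real.exp (-r) := by ring
      _ ≤ 4 * c * (c * T) * (2 * T) * (1 / 2) ^ 5 * Real.exp (-(T / 1920)) *
          T ^ 3 * Real.exp (-r) := by gcongr
      _ = E / 2 * Real.exp (-r) := by rw [hE]; ring
      _ ≤ _ := by gcongr; linarith only [hE0]
  have hP := continuous_tp (Finset.Icc 1 ⌈2 * X⌉₊) a
  have hG : Continuous fun x => G r x := h.cont.comp (Continuous.prodMk_right r)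
  have s1 : ∫ x in (0 : ℝ)..1, G r x ^ 2 ≤
      ∫ x in (0 : ℝ)..1, (2 * tp (Finset.Icc 1 ⌈2 * X⌉₊) a x ^ 2 + 2 * (E * Real.exp (-r)) ^ 2) := by
    refine intervalIntegral.integral_mono_on zero_le_one ((hG.pow 2).intervalIntegrable _ _)
      (Continuous.intervalIntegrable (by fun_prop) _ _) fun x _ => ?_
    have k1 := sq_le_sq' (abs_le.1 (key x)).1 (abs_le.1 (key x)).2
    linarith only [sq_nonneg (G r x - 2 * tp (Finset.Icc 1 ⌈2 * X⌉₊) a x), k1]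
  rw [intervalIntegral.integral_add (Continuous.intervalIntegrable (by fun_prop) _ _)
    (Continuous.intervalIntegrable (by fun_prop) _ _), intervalIntegral.integral_const_mul,
    tp_two fun n hn => (Finset.mem_Icc.1 hn).1, intervalIntegral.integral_const] at s1
  have s2 : ∑ n ∈ Finset.Icc 1 ⌈2 * X⌉₊, ‖a n‖ ^ 2 ≤
      ∑ n ∈ Finset.Icc 1 ⌈2 * X⌉₊, lam n ^ 2 * ‖b (r + Real.log n)‖ ^ 2 := by
    refine Finset.sum_le_sum fun n _ => ?_
    obtain ⟨-, -, m0, m1⟩ := ct_mem (1 / 2) (r + Real.log n)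
    have m2 : (1 - cm (1 / 2) (r + Real.log n)) ^ 2 ≤ 1 := by nlinarith only [m0, m1]
    rw [ha, norm_mul, mul_pow, Complex.norm_real, Real.norm_eq_abs, sq_abs, mul_pow]
    gcongr
    exact mul_le_of_le_one_right (sq_nonneg _) m2
  have s3 : 2 * (E * Real.exp (-r)) ^ 2 ≤
      c ^ 4 * T ^ 11 * Real.exp (-(T / 960)) * Real.exp (-r) := by
    have e1 : Real.exp (-(T / 1920)) ^ 2 = Real.exp (-(T / 960)) := by
      rw [sq, ← Real.exp_add]; congr 1; ring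
    have e2 : Real.exp (-r) / 2 ≤ T := by linarith only [hT, hXT, hu]
    calc _ = c ^ 4 * T ^ 10 * Real.exp (-(T / 1920)) ^ 2 * (Real.exp (-r) / 2) * Real.exp (-r) := by
          rw [hE]; ring
      _ ≤ c ^ 4 * T ^ 10 * Real.exp (-(T / 1920)) ^ 2 * T * Real.exp (-r) := by gcongr
      _ = _ := by rw [e1]; ring
  rw [sub_zero, one_smul] at s1
  linarith only [s1, s2, s3]

/-- CRG.  Paper 8, ESC, for one form: `tail_le` with `d = 1 / 2`, `tp_two`, `Wkb.w4`. -/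
theorem esc_one {c T t X : ℝ} {lam : ℕ → ℝ} {b : ℝ → ℂ} {Cp Cm : ℂ} {G : ℝ → ℝ → ℝ} (hc : 1 ≤ c)
    (h : Frm c T t lam b Cp Cm G) (hT : 160 ≤ T) (h1 : T ≤ t) (h2 : t ≤ 2 * T) (hX : 1 ≤ X)
    (hXT : X ≤ T) :
    IntegrableOn (fun r => ∫ x in (0 : ℝ)..1, G r x ^ 2) (Ioi (-Real.log X)) ∧
      ∫ r in Ioi (-Real.log X), ∫ x in (0 : ℝ)..1, G r x ^ 2 ≤
        4 * c * ∑ n ∈ Finset.Icc 1 ⌈2 * X⌉₊,
          (‖Cp‖ + ‖Cm‖) ^ 2 * lam n ^ 2 * (1 + |Real.log (n / X)|) +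
        c ^ 4 * T ^ 12 * Real.exp (-(T / 960)) := by
  have hX0 : 0 < X := by linarith
  have sh := fun n : ℕ => crg_shift (g := fun ρ => ‖b ρ‖ ^ 2) (-Real.log X) (Real.log n)
    (h.wkb.w4 _).1
  have i0 : ∀ n ∈ Finset.Icc 1 ⌈2 * X⌉₊,
      IntegrableOn (fun r => lam n ^ 2 * ‖b (r + Real.log n)‖ ^ 2) (Ioi (-Real.log X)) :=
    fun n _ => (sh n).1.const_mul _
  have i1 := (integrable_finsetSum _ i0).const_mul 4
  have i2 := (integrableOn_exp_neg_Ioi (-Real.log X)).const_mul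
    (c ^ 4 * T ^ 11 * Real.exp (-(T / 960)))
  have hb : ∀ r ∈ Ioi (-Real.log X), _ := fun r hr => crg_pt hc h hT h1 h2 hX hXT hr
  have hcont : Continuous fun r => ∫ x in (0 : ℝ)..1, G r x ^ 2 :=
    intervalIntegral.continuous_parametric_intervalIntegral_of_continuous'
      (f := fun r x => G r x ^ 2) (h.cont.fun_pow 2) 0 1
  have hi : IntegrableOn (fun r => ∫ x in (0 : ℝ)..1, G r x ^ 2) (Ioi (-Real.log X)) := by
    refine (i1.add i2).mono' hcont.aestronglyMeasurable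
      ((ae_restrict_iff' measurableSet_Ioi).2 (.of_forall fun r hr => ?_))
    rw [Real.norm_of_nonneg
      (intervalIntegral.integral_nonneg zero_le_one fun x _ => sq_nonneg _)]
    exact hb r hr
  refine ⟨hi, (setIntegral_mono_on hi (i1.add i2) measurableSet_Ioi hb).trans ?_⟩
  refine (integral_add i1 i2).trans_le ?_
  rw [integral_const_mul, integral_const_mul, integral_finsetSum _ i0, integral_exp_neg_Ioi,
    neg_neg, Real.exp_log hX0, mul_assoc 4, Finset.mul_sum _ _ c]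
  refine add_le_add (mul_le_mul_of_nonneg_left (Finset.sum_le_sum fun n hn => ?_) (by norm_num)) ?_
  · have hn0 : (n : ℝ) ≠ 0 := Nat.cast_ne_zero.2 (by have := (Finset.mem_Icc.1 hn).1; omega)
    rw [integral_const_mul, (sh n).2, Real.log_div hn0 hX0.ne']
    refine (mul_le_mul_of_nonneg_left (h.wkb.w4 _).2 (sq_nonneg _)).trans_eq ?_
    rw [neg_add_eq_sub]; ring
  · have hT0 : 0 < T := by linarith
    calc _ ≤ c ^ 4 * T ^ 11 * Real.exp (-(T / 960)) * T := by gcongr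
      _ = _ := by ring

/-- CRG.  The large sieve for singletons, `sum_log_le`. -/
theorem esc_sum {ι : Type} {s : Finset ι} {Om : ι → ℝ} {lam : ι → ℕ → ℝ} {KK ε K X : ℝ}
    (h : LS s Om lam KK ε K) (hK : 0 ≤ KK) (h0 : 0 ≤ ε) (h1 : ε ≤ 1) (hX : 1 ≤ X) (hXK : 3 * X ≤ K) :
    ∑ j ∈ s, ∑ n ∈ Finset.Icc 1 ⌈2 * X⌉₊, Om j ^ 2 * lam j n ^ 2 * (1 + |Real.log (n / X)|) ≤
      40 * X * KK := by
  have hN : ((⌈2 * X⌉₊ : ℕ) : ℝ) ≤ 3 * X := by
    have := Nat.ceil_lt_add_one (show 0 ≤ 2 * X by linarith)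
    linarith
  rw [Finset.sum_comm]
  calc _ ≤ ∑ n ∈ Finset.Icc 1 ⌈2 * X⌉₊, 2 * KK * (1 + |Real.log (n / X)|) := by
        refine Finset.sum_le_sum fun n hn => ?_
        obtain ⟨n1, n2⟩ := Finset.mem_Icc.1 hn
        have := h {n} (fun _ => 1) fun k hk => by
          rw [Finset.mem_singleton.1 hk]
          exact ⟨n1, ((Nat.cast_le.2 n2).trans hN).trans hXK⟩
        simp only [Finset.sum_singleton, one_mul, norm_one, one_pow, mul_one, Complex.norm_real,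
          Real.norm_eq_abs, sq_abs] at this
        rw [← Finset.sum_mul]
        gcongr
        nlinarith only [hK, h1, this]
    _ ≤ 2 * KK * (20 * X) := by
        rw [← Finset.mul_sum]
        gcongr
        exact sum_log_le hX (by linarith)
    _ = _ := by ring

end Pool.Agent.MP_a28cf0_nt.D4
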