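import Pool.Agent.MP_a28cf0_nt.D4.Osc

attribute [-instance] IdemSemiring.toCanonicallyOrderedAdd AddQuantale.instAddLeftMono
  IsOrderedMonoid.toMulLeftMono NumberField.to_charZero IdemSemiring.toMulLeftMono
  Quantale.instMulLeftMono AddQuantale.instAddRightMono Fintype.decidableForallFintype
  LinearOrderedCommMonoidWithZero.toPosMulStrictMono RKHS.instFunLike Quantale.instMulRightMono
  CanonicallyOrderedAdd.toMulLeftMono IsTopologicalTorsor.toContinuousSMul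
  AlgHom.instNonUnitalAlgHomClassOfAlgHomClass covariant_swap_mul_of_covariant_mul
  NonarchimedeanRing.toIsTopologicalRing instCoeTOfCoeDep Unique.instSubsingleton
  CanonicallyOrderedMul.toMulLeftMono TestFunctionClass.toDFunLike Finset.decidableDforallFinset
  LieAdmissibleRing.toNonUnitalNonAssocRing NonUnitalAlgSemiHomClass.toDistribMulActionSemiHomClass
  Valued.isTopologicalDivisionRing MonTypeEquivalenceMon.monMonoid Multiset.decidableDforallMultiset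
  IsStarProjection.instTrivialStarOfStarOrderedRing Valued.toUniformSpace
  Vector.instDecidableForallForallMemOfDecidablePred
  Array.instDecidableForallForallMemOfDecidablePred Option.decidableForallMem
  ContDiffMapSupportedInClass.toDFunLike instCoeHTCOfCoeHeadOfCoeOTC
  Group.IsPerfect.subsingleton_of_isMulCommutative Int.decidableLTLE
  continuousSub_of_discreteTopology instCoeOTCOfCoeOut AddGroupWithOne.toIntCast
  MulSemiringActionSemiHomClass.toDistribMulActionSemiHomClass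
  instNonUnitalAlgHomClassOfNonUnitalAlgEquivClass Int.decidableLELE
  CStarAlgebra.instOrderClosedTopology Int.decidableLTLT instCoeTCOfCoe Int.decidableLELT

/-!
Four unit vectors, the four-linear integrals, and trigonometric polynomials.
-/

set_option autoImplicit false
set_option linter.unusedVariables false

namespace Pool.Agent.MP_a28cf0_nt.D4

open MeasureTheory Complex Set
open scoped ComplexConjugate

noncomputable def GG (x : ℝ) : ℝ := √(1 - x ^ 2)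

/-- the signed sum of the values of `Ψ` -/
noncomputable def S4 (Ψ : ℝ → ℝ) (x₁ x₂ x₃ x₄ s₁ s₂ s₃ s₄ : ℝ) : ℝ :=
  s₁ * Ψ x₁ + s₂ * Ψ x₂ + s₃ * Ψ x₃ + s₄ * Ψ x₄

section Vec

variable {x₁ x₂ x₃ x₄ s₁ s₂ s₃ s₄ : ℝ}

/-- GEA.  Paper 5 (a). -/
theorem vec_prod {z₁ z₂ z₃ z₄ : ℂ} (h₁ : ‖z₁‖ = 1) (h₂ : ‖z₂‖ = 1) (h₃ : ‖z₃‖ = 1) (h₄ : ‖z₄‖ = 1) :
    ‖z₁ + z₂‖ * ‖z₁ + z₃‖ * ‖z₁ + z₄‖ ≤ 2 * ‖z₁ + z₂ + z₃ + z₄‖ := by
  have n : ∀ z : ℂ, ‖z‖ = 1 → z * conj z = 1 := fun z h => by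
    rw [Complex.mul_conj', h, ofReal_one, one_pow]
  have id1 : (z₁ + z₂) * (z₁ + z₃) * (z₁ + z₄) = z₁ ^ 2 * (z₁ + z₂ + z₃ + z₄)
      + z₁ * z₂ * z₃ * z₄ * conj (z₁ + z₂ + z₃ + z₄) := by
    simp only [map_add]
    linear_combination (-(z₂ * z₃ * z₄)) * n _ h₁ - z₁ * z₃ * z₄ * n _ h₂ - z₁ * z₂ * z₄ * n _ h₃
      - z₁ * z₂ * z₃ * n _ h₄
  rw [← norm_mul, ← norm_mul, id1]
  refine (norm_add_le _ _).trans ?_
  simp only [norm_mul, norm_pow, Complex.norm_conj, h₁, h₂, h₃, h₄]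
  linarith

/-- Squared form of `vec_prod`. -/
theorem gea_a {x1 x2 x3 x4 y1 y2 y3 y4 : ℝ} (h1 : x1 ^ 2 + y1 ^ 2 = 1) (h2 : x2 ^ 2 + y2 ^ 2 = 1)
    (h3 : x3 ^ 2 + y3 ^ 2 = 1) (h4 : x4 ^ 2 + y4 ^ 2 = 1) (hs : x1 + x2 + x3 + x4 = 0) :
    ((x1 + x2) ^ 2 + (y1 + y2) ^ 2) * ((x1 + x3) ^ 2 + (y1 + y3) ^ 2)
      * ((x1 + x4) ^ 2 + (y1 + y4) ^ 2) ≤ 4 * (y1 + y2 + y3 + y4) ^ 2 := by
  have n : ∀ x y : ℝ, ‖(⟨x, y⟩ : ℂ)‖ ^ 2 = x ^ 2 + y ^ 2 := fun x y => by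
    rw [Complex.sq_norm, Complex.normSq_mk, sq, sq]
  have n1 : ∀ x y : ℝ, x ^ 2 + y ^ 2 = 1 → ‖(⟨x, y⟩ : ℂ)‖ = 1 := fun x y h =>
    (pow_eq_one_iff_of_nonneg (norm_nonneg _) two_ne_zero).1 ((n x y).trans h)
  have e : ∀ x y x' y' : ℝ, (⟨x, y⟩ : ℂ) + ⟨x', y'⟩ = ⟨x + x', y + y'⟩ := fun _ _ _ _ => rfl
  have k := pow_le_pow_left₀ (by positivity) (vec_prod (n1 _ _ h1) (n1 _ _ h2) (n1 _ _ h3) (n1 _ _ h4)) 2
  simp only [e, mul_pow, n, hs] at k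
  linarith

theorem gea_unit {x s : ℝ} (h : Sg s) (a : 0 ≤ 1 - x ^ 2) :
    x ^ 2 + (s * GG x) ^ 2 = 1 ∧ (s * GG x) ^ 2 = 1 - x ^ 2 := by
  have e : (s * GG x) ^ 2 = 1 - x ^ 2 := by
    rw [mul_pow, GG, Real.sq_sqrt a]
    rcases h with rfl | rfl <;> ring
  exact ⟨by linarith, e⟩

theorem gea_b_aux {x1 y1 x y D : ℝ} (h1 : x1 ^ 2 + y1 ^ 2 = 1) (h : x ^ 2 + y ^ 2 = 1)
    (d1 : y1 ^ 2 ≤ D) (d : y ^ 2 ≤ D) (hD : D ≤ 1 / 4) (hs : x1 * x ≤ 0) :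
    (x1 + x) ^ 2 ≤ 4 / 3 * D * ((x1 + x) ^ 2 + (y1 + y) ^ 2) := by
  have e : (x1 + x) ^ 2 * (x1 - x) ^ 2 = (y1 + y) ^ 2 * (y1 - y) ^ 2 := by
    have : (x1 + x) * (x1 - x) = -((y1 + y) * (y1 - y)) := by linarith only [h1, h]
    rw [← mul_pow, this]; ring
  have D0 : 0 ≤ D := (sq_nonneg _).trans d
  have a1 : (y1 - y) ^ 2 ≤ 4 * D := by linarith only [sq_nonneg (y1 + y), d1, d]
  have p : 3 / 4 * (3 / 4) ≤ (x1 * x) ^ 2 := by
    rw [mul_pow]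
    exact mul_le_mul (by linarith only [h1, d1, hD]) (by linarith) (by norm_num) (sq_nonneg _)
  have p2 : x1 * x ≤ -(3 / 4) := by nlinarith only [hs, p]
  have a2 : 3 ≤ (x1 - x) ^ 2 := by nlinarith
  have a3 : (x1 + x) ^ 2 * 3 ≤ (y1 + y) ^ 2 * (4 * D) :=
    (mul_le_mul_of_nonneg_left a2 (sq_nonneg _)).trans
      (e.le.trans (mul_le_mul_of_nonneg_left a1 (sq_nonneg _)))
  linarith only [mul_nonneg D0 (sq_nonneg (x1 + x)), a3]

theorem gea_big {a b : ℝ} (ha : 3 / 4 ≤ a ^ 2) (hb : 3 / 4 ≤ b ^ 2) (hp : 0 < a * b) :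
    3 / 4 ≤ a * b := by
  have p : 3 / 4 * (3 / 4) ≤ (a * b) ^ 2 := by
    rw [mul_pow]
    exact mul_le_mul ha hb (by norm_num) (sq_nonneg _)
  nlinarith only [hp, p]

theorem gea_neg {a b : ℝ} (ha : 3 / 4 ≤ a ^ 2) (hb : 3 / 4 ≤ b ^ 2) (hp : a * b < 0) :
    a * b ≤ -(3 / 4) := by
  have := gea_big (a := -a) (b := b) (by rwa [neg_sq]) hb (by linarith only [hp])
  linarith only [this]

theorem gea_low {a b c d : ℝ} (h1 : a ^ 2 + c ^ 2 = 1) (h : b ^ 2 + d ^ 2 = 1) : -1 ≤ a * b := by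
  linarith only [sq_nonneg (a + b), sq_nonneg c, sq_nonneg d, h1, h]

theorem gea_sq {x y : ℝ} (h : x ^ 2 + y ^ 2 = 1) (d : |x| ≤ 1 / 2) : 3 / 4 ≤ y ^ 2 := by
  have := abs_le.1 d
  nlinarith

theorem gea_one {t a b : ℝ} (ha : 3 / 4 ≤ a ^ 2) (hb : 3 / 4 ≤ b ^ 2) (h : 0 ≤ a * b) :
    1 ≤ t ^ 2 + (a + b) ^ 2 := by
  linarith only [sq_nonneg t, ha, hb, h]

/-- (b) -/
theorem gea_b {x1 x2 x3 x4 y1 y2 y3 y4 D : ℝ} (h1 : x1 ^ 2 + y1 ^ 2 = 1)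
    (h2 : x2 ^ 2 + y2 ^ 2 = 1) (h3 : x3 ^ 2 + y3 ^ 2 = 1) (h4 : x4 ^ 2 + y4 ^ 2 = 1)
    (hs : x1 + x2 + x3 + x4 = 0) (d1 : y1 ^ 2 ≤ D) (d2 : y2 ^ 2 ≤ D) (d3 : y3 ^ 2 ≤ D)
    (d4 : y4 ^ 2 ≤ D) :
    |(x1 + x2) * (x1 + x3) * (x1 + x4)| ≤ 8 * D * |y1 + y2 + y3 + y4| := by
  have ha := gea_a h1 h2 h3 h4 hs
  have D0 : 0 ≤ D := (sq_nonneg _).trans d1
  set S := y1 + y2 + y3 + y4
  set A2 := (x1 + x2) ^ 2 + (y1 + y2) ^ 2 with hA2
  set A3 := (x1 + x3) ^ 2 + (y1 + y3) ^ 2 with hA3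
  set A4 := (x1 + x4) ^ 2 + (y1 + y4) ^ 2 with hA4
  have t2 : (x1 + x2) ^ 2 ≤ A2 := le_add_of_nonneg_right (sq_nonneg _)
  have t3 : (x1 + x3) ^ 2 ≤ A3 := le_add_of_nonneg_right (sq_nonneg _)
  have t4 : (x1 + x4) ^ 2 ≤ A4 := le_add_of_nonneg_right (sq_nonneg _)
  have p2 : 0 ≤ A2 := by positivity
  have p3 : 0 ≤ A3 := by positivity
  have p4 : 0 ≤ A4 := by positivity
  refine abs_le_of_sq_le_sq' ?_ (by positivity) |> fun h => abs_le.2 h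
  rw [mul_pow, mul_pow, mul_pow, sq_abs]
  rcases le_total (1 / 4) D with hD | hD
  · have : (x1 + x2) ^ 2 * (x1 + x3) ^ 2 * (x1 + x4) ^ 2 ≤ A2 * A3 * A4 := by gcongr
    have : 4 * S ^ 2 ≤ (8 * D) ^ 2 * S ^ 2 :=
      mul_le_mul_of_nonneg_right ((show (4 : ℝ) = 2 ^ 2 by norm_num).le.trans
        (pow_le_pow_left₀ (by norm_num) (by linarith only [hD]) 2)) (sq_nonneg _)
    linarith
  · have fin : (x1 + x2) ^ 2 * (x1 + x3) ^ 2 * (x1 + x4) ^ 2 ≤ (4 / 3 * D) ^ 2 * (A2 * A3 * A4) →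
        (x1 + x2) ^ 2 * (x1 + x3) ^ 2 * (x1 + x4) ^ 2 ≤ (8 * D) ^ 2 * S ^ 2 := by
      intro h
      have := mul_le_mul_of_nonneg_left ha (sq_nonneg (4 / 3 * D))
      have e : (8 * D) ^ 2 * S ^ 2 = (4 / 3 * D) ^ 2 * (4 * S ^ 2) + 512 / 9 * (D ^ 2 * S ^ 2) := by
        ring
      have := mul_nonneg (sq_nonneg D) (sq_nonneg S)
      linarith
    apply fin
    have big : ∀ x y : ℝ, x ^ 2 + y ^ 2 = 1 → y ^ 2 ≤ D → 0 < x1 * x → 3 / 4 ≤ x1 * x := by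
      intro x y h d hp
      exact gea_big (by linarith only [h1, d1, hD]) (by linarith only [hD, h, d]) hp
    have low : ∀ x y : ℝ, x ^ 2 + y ^ 2 = 1 → -1 ≤ x1 * x := by
      intro x y h
      exact gea_low h1 h
    have hz : x1 ^ 2 + x1 * x2 + x1 * x3 + x1 * x4 = 0 := by linear_combination x1 * hs
    have hx1 : 3 / 4 ≤ x1 ^ 2 := by linarith only [h1, d1, hD]
    have l2 := low _ _ h2
    have l3 := low _ _ h3
    have l4 := low _ _ h4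
    rcases le_or_gt (x1 * x2) 0 with s2 | s2
    · have u2 := gea_b_aux h1 h2 d1 d2 hD s2
      rcases le_or_gt (x1 * x3) 0 with s3 | s3
      · have u3 := gea_b_aux h1 h3 d1 d3 hD s3
        calc _ ≤ (4 / 3 * D * A2) * (4 / 3 * D * A3) * A4 := by gcongr
          _ = _ := by ring
      · have b3 := big _ _ h3 d3 s3
        have s4 : x1 * x4 ≤ 0 := by linarith only [h1, d1, hD, hz, l2, b3]
        have u4 := gea_b_aux h1 h4 d1 d4 hD s4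
        calc _ ≤ (4 / 3 * D * A2) * A3 * (4 / 3 * D * A4) := by gcongr
          _ = _ := by ring
    · have b2 := big _ _ h2 d2 s2
      have u3 := gea_b_aux h1 h3 d1 d3 hD (by linarith only [h1, d1, hD, hz, l4, b2])
      have u4 := gea_b_aux h1 h4 d1 d4 hD (by linarith only [h1, d1, hD, hz, l3, b2])
      calc _ ≤ A2 * (4 / 3 * D * A3) * (4 / 3 * D * A4) := by gcongr
        _ = _ := by ring

/-- GEA.  Paper 5 (b), with `z i = x i + s i * GG (x i) * I`. -/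
theorem low_b {Δ : ℝ} (h₁ : Sg s₁) (h₂ : Sg s₂) (h₃ : Sg s₃) (h₄ : Sg s₄)
    (hs : x₁ + x₂ + x₃ + x₄ = 0) (a₁ : 0 ≤ 1 - x₁ ^ 2 ∧ 1 - x₁ ^ 2 ≤ Δ)
    (a₂ : 0 ≤ 1 - x₂ ^ 2 ∧ 1 - x₂ ^ 2 ≤ Δ) (a₃ : 0 ≤ 1 - x₃ ^ 2 ∧ 1 - x₃ ^ 2 ≤ Δ)
    (a₄ : 0 ≤ 1 - x₄ ^ 2 ∧ 1 - x₄ ^ 2 ≤ Δ) :
    |(x₁ + x₂) * (x₁ + x₃) * (x₁ + x₄)| ≤ 8 * Δ * |S4 GG x₁ x₂ x₃ x₄ s₁ s₂ s₃ s₄| := by
  obtain ⟨u₁, v₁⟩ := gea_unit h₁ a₁.1
  obtain ⟨u₂, v₂⟩ := gea_unit h₂ a₂.1
  obtain ⟨u₃, v₃⟩ := gea_unit h₃ a₃.1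
  obtain ⟨u₄, v₄⟩ := gea_unit h₄ a₄.1
  exact gea_b u₁ u₂ u₃ u₄ hs (v₁.le.trans a₁.2) (v₂.le.trans a₂.2) (v₃.le.trans a₃.2)
    (v₄.le.trans a₄.2)

theorem gea_le {a b : ℝ} (hb : 0 ≤ b) (h : a ^ 2 ≤ b ^ 2) : a ≤ b :=
  (abs_le_of_sq_le_sq' h hb).2

theorem gea_c_aux {y1 S : ℝ} (h : y1 ^ 2 ≤ 1) (m1 : y1 * S ≤ -(5 / 4)) : 1 ≤ 4 * S ^ 2 := by
  have m2 : 25 / 16 ≤ (y1 * S) ^ 2 := by nlinarith
  have m3 : (y1 * S) ^ 2 ≤ S ^ 2 := by rw [mul_pow]; nlinarith only [h]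
  linarith

/-- (c) -/
theorem gea_c {x1 x2 x3 x4 y1 y2 y3 y4 P : ℝ} (h1 : x1 ^ 2 + y1 ^ 2 = 1)
    (h2 : x2 ^ 2 + y2 ^ 2 = 1) (h3 : x3 ^ 2 + y3 ^ 2 = 1) (h4 : x4 ^ 2 + y4 ^ 2 = 1)
    (hs : x1 + x2 + x3 + x4 = 0) (d1 : |x1| ≤ 1 / 2) (d2 : |x2| ≤ 1 / 2) (d3 : |x3| ≤ 1 / 2)
    (d4 : |x4| ≤ 1 / 2) (p1 : P ≤ |(x1 + x2) * (x1 + x3)|) (p2 : P ≤ |(x1 + x2) * (x1 + x4)|)
    (p3 : P ≤ |(x1 + x3) * (x1 + x4)|) : P / 2 ≤ |y1 + y2 + y3 + y4| := by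
  rcases le_or_gt P 0 with hP | hP
  · have := abs_nonneg (y1 + y2 + y3 + y4)
    linarith only [hP, this]
  have ha := gea_a h1 h2 h3 h4 hs
  have sq : ∀ x y : ℝ, x ^ 2 + y ^ 2 = 1 → |x| ≤ 1 / 2 → 3 / 4 ≤ y ^ 2 := by
    intro x y h d
    exact gea_sq h d
  have q1 := sq _ _ h1 d1
  have q2 := sq _ _ h2 d2
  have q3 := sq _ _ h3 d3
  have q4 := sq _ _ h4 d4
  set S := y1 + y2 + y3 + y4 with hS
  set A2 := (x1 + x2) ^ 2 + (y1 + y2) ^ 2 with hA2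
  set A3 := (x1 + x3) ^ 2 + (y1 + y3) ^ 2 with hA3
  set A4 := (x1 + x4) ^ 2 + (y1 + y4) ^ 2 with hA4
  have t2 : (x1 + x2) ^ 2 ≤ A2 := le_add_of_nonneg_right (sq_nonneg _)
  have t3 : (x1 + x3) ^ 2 ≤ A3 := le_add_of_nonneg_right (sq_nonneg _)
  have t4 : (x1 + x4) ^ 2 ≤ A4 := le_add_of_nonneg_right (sq_nonneg _)
  have sqP : ∀ a b : ℝ, P ≤ |a * b| → P ^ 2 ≤ a ^ 2 * b ^ 2 := by
    intro a b h
    rw [← mul_pow, ← sq_abs (a * b)]
    gcongr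
  have r1 := sqP _ _ p1
  have r2 := sqP _ _ p2
  have r3 := sqP _ _ p3
  have fin : P ^ 2 ≤ 4 * S ^ 2 → P / 2 ≤ |S| := by
    intro h
    refine gea_le (abs_nonneg _) ?_
    rw [sq_abs]
    linarith only [h]
  apply fin
  have one : ∀ x y : ℝ, 3 / 4 ≤ y ^ 2 → 0 ≤ y1 * y → 1 ≤ (x1 + x) ^ 2 + (y1 + y) ^ 2 := by
    intro x y q h
    exact gea_one q1 q h
  rcases le_or_gt 0 (y1 * y2) with s2 | s2
  · have o := one x2 y2 q2 s2
    have : 1 * (x1 + x3) ^ 2 * (x1 + x4) ^ 2 ≤ A2 * A3 * A4 := by gcongr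
    linarith only [ha, r3, this]
  rcases le_or_gt 0 (y1 * y3) with s3 | s3
  · have o := one x3 y3 q3 s3
    have : (x1 + x2) ^ 2 * 1 * (x1 + x4) ^ 2 ≤ A2 * A3 * A4 := by gcongr
    linarith only [ha, r2, this]
  rcases le_or_gt 0 (y1 * y4) with s4 | s4
  · have o := one x4 y4 q4 s4
    have : (x1 + x2) ^ 2 * (x1 + x3) ^ 2 * 1 ≤ A2 * A3 * A4 := by gcongr
    linarith only [ha, r1, this]
  have neg : ∀ y : ℝ, 3 / 4 ≤ y ^ 2 → y1 * y < 0 → y1 * y ≤ -(3 / 4) := by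
    intro y q h
    exact gea_neg q1 q h
  have n2 := neg _ q2 s2
  have n3 := neg _ q3 s3
  have n4 := neg _ q4 s4
  have y1le : y1 ^ 2 ≤ 1 := by linarith only [sq_nonneg x1, h1]
  have m0 : y1 * S = y1 ^ 2 + y1 * y2 + y1 * y3 + y1 * y4 := by rw [hS]; ring
  have m1 := gea_c_aux y1le (show y1 * S ≤ -(5 / 4) by linarith only [n2, n3, n4, y1le])
  have u : ∀ x : ℝ, |x| ≤ 1 / 2 → (x1 + x) ^ 2 ≤ 1 := by
    intro x d
    have a := abs_le.1 d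
    have b := abs_le.1 d1
    exact (sq_le_one_iff_abs_le_one _).2 (abs_le.2 ⟨by linarith only [a.1, b.1], by linarith only [a.2, b.2]⟩)
  have : (x1 + x2) ^ 2 * (x1 + x3) ^ 2 ≤ 1 * 1 := by
    have := u _ d2
    have := u _ d3
    gcongr
  linarith only [r1, m1, this]

/-- GEA.  Paper 5 (c). -/
theorem low_c {P : ℝ} (h₁ : Sg s₁) (h₂ : Sg s₂) (h₃ : Sg s₃) (h₄ : Sg s₄)
    (hs : x₁ + x₂ + x₃ + x₄ = 0) (a₁ : |x₁| ≤ 1 / 2) (a₂ : |x₂| ≤ 1 / 2) (a₃ : |x₃| ≤ 1 / 2)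
    (a₄ : |x₄| ≤ 1 / 2) (p₁ : P ≤ |(x₁ + x₂) * (x₁ + x₃)|) (p₂ : P ≤ |(x₁ + x₂) * (x₁ + x₄)|)
    (p₃ : P ≤ |(x₁ + x₃) * (x₁ + x₄)|) : P ≤ 2 * |S4 GG x₁ x₂ x₃ x₄ s₁ s₂ s₃ s₄| := by
  have n : ∀ x : ℝ, |x| ≤ 1 / 2 → 0 ≤ 1 - x ^ 2 := fun x h =>
    sub_nonneg.2 ((sq_le_one_iff_abs_le_one x).2 (h.trans (by norm_num)))
  have := gea_c (gea_unit h₁ (n _ a₁)).1 (gea_unit h₂ (n _ a₂)).1 (gea_unit h₃ (n _ a₃)).1
    (gea_unit h₄ (n _ a₄)).1 hs a₁ a₂ a₃ a₄ p₁ p₂ p₃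
  unfold S4
  linarith only [this]

theorem gea_d_aux {a b ga gb ν D : ℝ} (ha : a ^ 2 + ga ^ 2 = 1) (hb : b ^ 2 + gb ^ 2 = 1)
    (pa : 0 ≤ ga) (pb : 0 ≤ gb) (da : ga ≤ D) (db : gb ≤ D) (hν : 0 ≤ ν) (na : ν ≤ a)
    (hab : a ≤ b) : 0 ≤ ga - gb ∧ (b - a) * ν ≤ D * (ga - gb) := by
  have h0 : gb ≤ ga := gea_le pa (by nlinarith only [ha, hb, hν, na, hab])
  refine ⟨by linarith, ?_⟩
  have e : (b - a) * (b + a) = (ga - gb) * (ga + gb) := by linarith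
  have e1 : (b - a) * (2 * ν) ≤ (b - a) * (b + a) :=
    mul_le_mul_of_nonneg_left (by linarith) (by linarith)
  have e2 : (ga - gb) * (ga + gb) ≤ (ga - gb) * (2 * D) :=
    mul_le_mul_of_nonneg_left (by linarith) (by linarith)
  linarith

/-- (d): `g1, g2, g3, g4` belong to `a + h, a, b + h, b`; `D` bounds `g2, g4` (`D = sqrt Del`). -/
theorem gea_d {a b h g1 g2 g3 g4 ν D : ℝ} (h1 : (a + h) ^ 2 + g1 ^ 2 = 1) (h2 : a ^ 2 + g2 ^ 2 = 1)
    (h3 : (b + h) ^ 2 + g3 ^ 2 = 1) (h4 : b ^ 2 + g4 ^ 2 = 1) (p1 : 0 ≤ g1) (p2 : 0 ≤ g2)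
    (p3 : 0 ≤ g3) (p4 : 0 ≤ g4) (d2 : g2 ≤ D) (d4 : g4 ≤ D) (hν : 0 ≤ ν) (na : ν ≤ a)
    (nb : ν ≤ b) (hh : 0 ≤ h) : |a - b| * ν ≤ D * |g1 + g2 - g3 - g4| := by
  have D0 : 0 ≤ D := p2.trans d2
  rcases le_total a b with hab | hab
  · obtain ⟨u1, u2⟩ := gea_d_aux h2 h4 p2 p4 d2 d4 hν na hab
    obtain ⟨u3, -⟩ := gea_d_aux (ν := 0) (D := g1 + g3) h1 h3 p1 p3 (by linarith) (by linarith only [p1])
      le_rfl (by linarith) (by linarith)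
    rw [abs_of_nonpos (by linarith), abs_of_nonneg (by linarith)]
    have := mul_nonneg D0 u3
    linarith only [u2, this]
  · obtain ⟨u1, u2⟩ := gea_d_aux h4 h2 p4 p2 d4 d2 hν nb hab
    obtain ⟨u3, -⟩ := gea_d_aux (ν := 0) (D := g1 + g3) h3 h1 p3 p1 (by linarith) (by linarith)
      le_rfl (by linarith) (by linarith)
    rw [abs_of_nonneg (by linarith), abs_of_nonpos (by linarith)]
    have := mul_nonneg D0 u3
    linarith only [u2, this]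

/-- GEA.  Paper 5 (d). -/
theorem low_d {a a' l ν Δ : ℝ} (hν : 0 ≤ ν) (ha : ν ≤ a) (ha' : ν ≤ a') (hl : 0 ≤ l)
    (a₁ : (a + l) ^ 2 ≤ 1) (a₂ : (a' + l) ^ 2 ≤ 1) (b₁ : 1 - a ^ 2 ≤ Δ) (b₂ : 1 - a' ^ 2 ≤ Δ) :
    |a - a'| * ν ≤ √Δ * |S4 GG (a + l) (-a) (-(a' + l)) a' 1 1 (-1) (-1)| := by
  have n : ∀ x : ℝ, x ^ 2 ≤ 1 → x ^ 2 + GG x ^ 2 = 1 := fun x h => by
    rw [GG, Real.sq_sqrt (sub_nonneg.2 h)]; ring
  have m : ∀ x : ℝ, ν ≤ x → (x + l) ^ 2 ≤ 1 → x ^ 2 ≤ 1 := fun x h k =>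
    (pow_le_pow_left₀ (hν.trans h) (le_add_of_nonneg_right hl) 2).trans k
  have e : S4 GG (a + l) (-a) (-(a' + l)) a' 1 1 (-1) (-1)
      = GG (a + l) + GG a - GG (a' + l) - GG a' := by
    simp only [S4, GG, neg_sq]
    ring
  rw [e]
  exact gea_d (n _ a₁) (n _ (m a ha a₁)) (n _ a₂) (n _ (m a' ha' a₂)) (Real.sqrt_nonneg _)
    (Real.sqrt_nonneg _) (Real.sqrt_nonneg _) (Real.sqrt_nonneg _) (Real.sqrt_le_sqrt b₁)
    (Real.sqrt_le_sqrt b₂) hν ha ha' hl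

theorem geb_second {Ψ : ℝ → ℝ} {S : Set ℝ} (h : ConvexOn ℝ S Ψ) {a b c d : ℝ} (ha : a ∈ S)
    (hb : b ∈ S) (hs : a + b = c + d) (hc : a ≤ c) (hd : a ≤ d) : Ψ c + Ψ d ≤ Ψ a + Ψ b := by
  rcases eq_or_lt_of_le (show a ≤ b by linarith) with hab | hab
  · have e1 : c = a := by linarith
    have e2 : d = a := by linarith
    rw [e1, e2, ← hab]
  · have hp : 0 < b - a := sub_pos.2 hab
    have hl0 : 0 ≤ (c - a) / (b - a) := div_nonneg (sub_nonneg.2 hc) hp.le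
    have hl1 : 0 ≤ (d - a) / (b - a) := div_nonneg (sub_nonneg.2 hd) hp.le
    have hsum : (d - a) / (b - a) + (c - a) / (b - a) = 1 := by
      rw [← add_div, div_eq_one_iff_eq hp.ne']
      linarith only [hs]
    have k1 := h.2 ha hb hl1 hl0 hsum
    have k2 := h.2 ha hb hl0 hl1 (by linarith only [hsum])
    have hmul : (c - a) / (b - a) * (b - a) = c - a := div_mul_cancel₀ _ hp.ne'
    generalize (c - a) / (b - a) = u at *
    generalize (d - a) / (b - a) = v at *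
    have hv : v = 1 - u := by linarith only [hsum]
    subst hv
    simp only [smul_eq_mul] at k1 k2
    have e1 : (1 - u) * a + u * b = c := by linarith only [hmul]
    have e2 : u * a + (1 - u) * b = d := by linarith only [hs, hmul]
    rw [e1] at k1
    rw [e2] at k2
    linarith only [k1, k2]

/-- GEB.  Second differences of convex functions. -/
theorem second_diff {Ψ : ℝ → ℝ} {S : Set ℝ} (h : ConvexOn ℝ S Ψ) {a b c d : ℝ} (ha : a ∈ S)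
    (hb : b ∈ S) (hc : c ∈ S) (hd : d ∈ S) (hs : a + b = c + d) (hm : min a b ≤ min c d) :
    Ψ c + Ψ d ≤ Ψ a + Ψ b := by
  have h1 := hm.trans (min_le_left c d)
  have h2 := hm.trans (min_le_right c d)
  rcases le_total a b with hab | hab
  · rw [min_eq_left hab] at h1 h2
    exact geb_second h ha hb hs h1 h2
  · rw [min_eq_right hab] at h1 h2
    rw [add_comm (Ψ a)]
    exact geb_second h hb ha (by linarith) h1 h2

theorem geb_sq {x : ℝ} (h : 0 ≤ 1 - x ^ 2) : GG x ^ 2 = 1 - x ^ 2 := Real.sq_sqrt h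

theorem geb_pos {x : ℝ} (h : 0 < 1 - x ^ 2) : 0 < GG x := Real.sqrt_pos.2 h

theorem geb_neg (x : ℝ) : GG (-x) = GG x := by rw [GG, GG, neg_sq]

theorem geb_deriv {x : ℝ} (h : 0 < 1 - x ^ 2) : HasDerivAt GG (-x * (GG x)⁻¹) x := by
  have h1 : HasDerivAt (fun y : ℝ => 1 - y ^ 2) (-(2 * x)) x := by
    simpa using (hasDerivAt_pow 2 x).const_sub 1
  have h2 := h1.sqrt h.ne'
  have hp := geb_pos h
  refine h2.congr_deriv ?_
  change -(2 * x) / (2 * GG x) = _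
  field_simp

theorem geb_inv {x : ℝ} (h : 0 < 1 - x ^ 2) :
    HasDerivAt (fun y => (GG y)⁻¹) (x * (GG x)⁻¹ ^ 3) x := by
  have hp := geb_pos h
  refine ((geb_deriv h).inv hp.ne').congr_deriv ?_
  field_simp

theorem geb_conv {δ : ℝ} (hδ : 0 < δ) (α β γ : ℝ)
    (h : ∀ x u : ℝ, 0 < u → δ * u ^ 2 ≤ 1 → x ^ 2 ≤ 1 →
      0 ≤ -α + β * ((1 + 2 * x ^ 2) * u ^ 2) + γ * (3 * (1 + 4 * x ^ 2) * u ^ 4)) :
    ConvexOn ℝ {x | δ ≤ 1 - x ^ 2} (fun x => α * GG x + β * (GG x)⁻¹ + γ * (GG x)⁻¹ ^ 3) := by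
  have hD : Convex ℝ {x : ℝ | δ ≤ 1 - x ^ 2} := by
    have h1 : ConvexOn ℝ univ fun x : ℝ => x ^ 2 := Even.convexOn_pow even_two
    have h2 := h1.convex_le (1 - δ)
    convert h2 using 1
    ext x
    simp only [mem_ofPred_eq, mem_univ, true_and]
    constructor <;> intro h <;> linarith
  have d0 : ∀ x : ℝ, δ ≤ 1 - x ^ 2 →
      HasDerivAt (fun x => α * GG x + β * (GG x)⁻¹ + γ * (GG x)⁻¹ ^ 3)
        (α * (-x * (GG x)⁻¹) + β * (x * (GG x)⁻¹ ^ 3) + γ * (3 * (x * (GG x)⁻¹ ^ 5))) x := by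
    intro x hx
    have hx0 := hδ.trans_le hx
    refine ((((geb_deriv hx0).const_mul α).add ((geb_inv hx0).const_mul β)).add
      (((geb_inv hx0).fun_pow 3).const_mul γ)).congr_deriv ?_
    push_cast
    ring
  have d1 : ∀ x : ℝ, δ ≤ 1 - x ^ 2 →
      HasDerivAt (fun x => α * (-x * (GG x)⁻¹) + β * (x * (GG x)⁻¹ ^ 3) +
          γ * (3 * (x * (GG x)⁻¹ ^ 5)))
        ((GG x)⁻¹ ^ 3 * (-α + β * ((1 + 2 * x ^ 2) * (GG x)⁻¹ ^ 2) +
          γ * (3 * (1 + 4 * x ^ 2) * (GG x)⁻¹ ^ 4))) x := by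
    intro x hx
    have hx0 := hδ.trans_le hx
    have hp := geb_pos hx0
    have hu : (1 - x ^ 2) * (GG x)⁻¹ ^ 2 = 1 := by
      rw [← geb_sq hx0.le, ← mul_pow, mul_inv_cancel₀ hp.ne', one_pow]
    refine (((((hasDerivAt_id' x).fun_neg.fun_mul (geb_inv hx0)).const_mul α).add
      (((hasDerivAt_id' x).fun_mul ((geb_inv hx0).fun_pow 3)).const_mul β)).add
      ((((hasDerivAt_id' x).fun_mul ((geb_inv hx0).fun_pow 5)).const_mul 3).const_mul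
        γ)).congr_deriv ?_
    generalize (GG x)⁻¹ = u at *
    push_cast
    linear_combination (α * u - β * u ^ 3 - 3 * γ * u ^ 5) * hu
  have sub : ∀ x ∈ interior {x : ℝ | δ ≤ 1 - x ^ 2}, δ ≤ 1 - x ^ 2 := fun x hx => by
    have := interior_subset hx
    exact this
  refine convexOn_of_hasDerivWithinAt2_nonneg hD
    (fun x hx => (d0 x hx).continuousAt.continuousWithinAt)
    (fun x hx => (d0 x (sub x hx)).hasDerivWithinAt)
    (fun x hx => (d1 x (sub x hx)).hasDerivWithinAt) fun x hx => ?_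
  have hx1 : δ ≤ 1 - x ^ 2 := sub x hx
  have hx0 := hδ.trans_le hx1
  have hp := geb_pos hx0
  have hu : (1 - x ^ 2) * (GG x)⁻¹ ^ 2 = 1 := by
    rw [← geb_sq hx0.le, ← mul_pow, mul_inv_cancel₀ hp.ne', one_pow]
  refine mul_nonneg (by positivity) (h x _ (inv_pos.2 hp) ?_ (by linarith only [hδ, hx1]))
  rw [← hu]
  exact mul_le_mul_of_nonneg_right hx1 (sq_nonneg _)

/-- GEB.  Paper 5 (e), the five convex functions. -/
theorem convex_GG {δ : ℝ} (hδ : 0 < δ) :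
    ConvexOn ℝ {x | δ ≤ 1 - x ^ 2} (fun x => -GG x) ∧
    ConvexOn ℝ {x | δ ≤ 1 - x ^ 2} (fun x => (GG x)⁻¹) ∧
    ConvexOn ℝ {x | δ ≤ 1 - x ^ 2} (fun x => ((GG x) ^ 3)⁻¹) ∧
    ConvexOn ℝ {x | δ ≤ 1 - x ^ 2} (fun x => -(3 / δ) * GG x - (GG x)⁻¹) ∧
    ConvexOn ℝ {x | δ ≤ 1 - x ^ 2} (fun x => -(15 / δ ^ 2) * GG x - ((GG x) ^ 3)⁻¹) := by
  refine ⟨?_, ?_, ?_, ?_, ?_⟩
  · convert geb_conv hδ (-1) 0 0 (fun x u _ _ _ => by norm_num) using 2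
    ring
  · convert geb_conv hδ 0 1 0 (fun x u _ _ _ => by
      simp only [neg_zero, zero_add, one_mul, zero_mul, add_zero]; positivity) using 2
    ring
  · convert geb_conv hδ 0 0 1 (fun x u _ _ _ => by
      simp only [neg_zero, zero_add, one_mul, zero_mul, add_zero]; positivity) using 2
    rw [inv_pow]
    ring
  · convert geb_conv hδ (-(3 / δ)) (-1) 0 (fun x u hu h1 h2 => by
      have h3 : u ^ 2 ≤ 1 / δ := by rw [le_div_iff₀ hδ]; linarith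
      have h4 : (1 + 2 * x ^ 2) * u ^ 2 ≤ 3 * (1 / δ) :=
        mul_le_mul (by linarith only [h2]) h3 (sq_nonneg _) (by norm_num)
      have h5 : 3 / δ = 3 * (1 / δ) := by ring
      linarith) using 2
    ring
  · convert geb_conv hδ (-(15 / δ ^ 2)) 0 (-1) (fun x u hu h1 h2 => by
      have h3 : u ^ 2 ≤ 1 / δ := by rw [le_div_iff₀ hδ]; linarith
      have h3' : (u ^ 2) ^ 2 ≤ (1 / δ) ^ 2 := pow_le_pow_left₀ (sq_nonneg _) h3 2
      have h4 : 3 * (1 + 4 * x ^ 2) * (u ^ 2) ^ 2 ≤ 15 * (1 / δ) ^ 2 :=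
        mul_le_mul (by linarith only [h2]) h3' (sq_nonneg _) (by norm_num)
      have h5 : 15 / δ ^ 2 = 15 * (1 / δ) ^ 2 := by ring
      have h6 : (u ^ 2) ^ 2 = u ^ 4 := by ring
      rw [h6] at h4
      linarith) using 2
    rw [inv_pow]
    ring

theorem geb_le {δ x : ℝ} (h : δ ≤ 1 - x ^ 2) : √δ ≤ GG x := Real.sqrt_le_sqrt h

theorem geb_three {δ x y z w : ℝ} (hδ : 0 < δ) (hs : x + y + z + w = 0) (a₁ : δ ≤ 1 - x ^ 2)
    (a₂ : δ ≤ 1 - y ^ 2) (a₃ : δ ≤ 1 - z ^ 2) (a₄ : δ ≤ 1 - w ^ 2) (hz : 0 ≤ (z + x) * (z + y)) :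
    √δ ≤ GG x + GG y + GG z - GG w := by
  have h1 := geb_le a₃
  have p1 := geb_pos (hδ.trans_le a₁)
  have p2 := geb_pos (hδ.trans_le a₂)
  have q1 := geb_sq (hδ.trans_le a₁).le
  have q2 := geb_sq (hδ.trans_le a₂).le
  have h2 : GG w ≤ GG x + GG y := by
    refine Real.sqrt_le_iff.2 ⟨by positivity, ?_⟩
    have hw : w = -(x + y + z) := by linarith only [hs]
    have h3 := mul_pos p1 p2
    have h4 : (GG x + GG y) ^ 2 = GG x ^ 2 + GG y ^ 2 + 2 * (GG x * GG y) := by ring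
    have h5 : w ^ 2 = x ^ 2 + y ^ 2 - z ^ 2 + 2 * ((z + x) * (z + y)) := by rw [hw]; ring
    linarith
  linarith

/-- GEB.  Paper 5 (e), three against one. -/
theorem three_one {δ : ℝ} (hδ : 0 < δ) (hs : x₁ + x₂ + x₃ + x₄ = 0) (a₁ : δ ≤ 1 - x₁ ^ 2)
    (a₂ : δ ≤ 1 - x₂ ^ 2) (a₃ : δ ≤ 1 - x₃ ^ 2) (a₄ : δ ≤ 1 - x₄ ^ 2) :
    √δ ≤ GG x₁ + GG x₂ + GG x₃ - GG x₄ := by
  rcases le_total 0 ((x₃ + x₁) * (x₃ + x₂)) with h3 | h3
  · exact geb_three hδ hs a₁ a₂ a₃ a₄ h3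
  rcases le_total 0 ((x₂ + x₁) * (x₂ + x₃)) with h2 | h2
  · have := geb_three hδ (show x₁ + x₃ + x₂ + x₄ = 0 by linarith only [hs]) a₁ a₃ a₂ a₄ h2
    linarith
  by_cases h0 : x₃ + x₂ = 0
  · exact geb_three hδ hs a₁ a₂ a₃ a₄ (by rw [h0, mul_zero])
  have h1 : 0 ≤ (x₁ + x₂) * (x₁ + x₃) := by
    have h4 := mul_nonneg_of_nonpos_of_nonpos h3 h2
    have h5 : (x₃ + x₁) * (x₃ + x₂) * ((x₂ + x₁) * (x₂ + x₃)) =
        (x₃ + x₂) ^ 2 * ((x₁ + x₂) * (x₁ + x₃)) := by ring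
    rw [h5] at h4
    exact (mul_nonneg_iff_of_pos_left (by positivity)).1 h4
  have := geb_three hδ (show x₂ + x₃ + x₁ + x₄ = 0 by linarith only [hs]) a₂ a₃ a₁ a₄ h1
  linarith

theorem geb_two {δ a b c d : ℝ} (hδ : 0 < δ) (hs : a + b + c + d = 0) (a₁ : δ ≤ 1 - a ^ 2)
    (a₂ : δ ≤ 1 - b ^ 2) (a₃ : δ ≤ 1 - c ^ 2) (a₄ : δ ≤ 1 - d ^ 2) {X Y Z : ℝ}
    (hX : X = GG a + GG b - GG c - GG d)
    (hY : Y = (GG a)⁻¹ + (GG b)⁻¹ - (GG c)⁻¹ - (GG d)⁻¹)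
    (hZ : Z = (GG a ^ 3)⁻¹ + (GG b ^ 3)⁻¹ - (GG c ^ 3)⁻¹ - (GG d ^ 3)⁻¹) :
    |X - Y| ≤ 4 / δ * |X| ∧ |X - Z| ≤ (4 / δ) ^ 2 * |X| := by
  obtain ⟨c1, c2, c3, c4, c5⟩ := convex_GG hδ
  have b₃ : -c ∈ {x : ℝ | δ ≤ 1 - x ^ 2} := by
    change δ ≤ 1 - (-c) ^ 2
    rwa [neg_sq]
  have b₄ : -d ∈ {x : ℝ | δ ≤ 1 - x ^ 2} := by
    change δ ≤ 1 - (-d) ^ 2
    rwa [neg_sq]
  have hs' : a + b = -c + -d := by linarith only [hs]
  have hδ1 : 1 ≤ 1 / δ := by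
    rw [le_div_iff₀ hδ]
    linarith only [sq_nonneg a, a₁]
  have hδ2 : 1 ≤ (1 / δ) ^ 2 := one_le_pow₀ hδ1
  have e3 : 3 / δ = 3 * (1 / δ) := by ring
  have e4 : 4 / δ = 4 * (1 / δ) := by ring
  have e15 : 15 / δ ^ 2 = 15 * (1 / δ) ^ 2 := by ring
  have e16 : (4 * (1 / δ)) ^ 2 = 16 * (1 / δ) ^ 2 := by ring
  rw [e4, e16]
  rw [e3] at c4
  rw [e15] at c5
  generalize (1 / δ) ^ 2 = v at *
  generalize 1 / δ = u at *
  rcases le_total (min a b) (min (-c) (-d)) with hm | hm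
  · have k1 := second_diff c1 a₁ a₂ b₃ b₄ hs' hm
    have k2 := second_diff c2 a₁ a₂ b₃ b₄ hs' hm
    have k3 := second_diff c3 a₁ a₂ b₃ b₄ hs' hm
    have k4 := second_diff c4 a₁ a₂ b₃ b₄ hs' hm
    have k5 := second_diff c5 a₁ a₂ b₃ b₄ hs' hm
    simp only [geb_neg] at k1 k2 k3 k4 k5
    have m1 : X ≤ 0 := by linarith only [hX, k1]
    have m2 : 0 ≤ Y := by linarith only [hY, k2]
    have m3 : 0 ≤ Z := by linarith only [hZ, k3]
    have m4 : Y ≤ 3 * (u * -X) := by rw [hX, hY]; linarith only [k4]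
    have m5 : Z ≤ 15 * (v * -X) := by rw [hX, hZ]; linarith only [k5]
    have m6 : -X ≤ u * -X := le_mul_of_one_le_left (by linarith only [hX, k1]) hδ1
    have m7 : -X ≤ v * -X := le_mul_of_one_le_left (by linarith only [hX, k1]) hδ2
    rw [abs_of_nonpos m1, abs_of_nonpos (by linarith only [hX, hY, k1, k2]), abs_of_nonpos (by linarith only [hX, hZ, k1, k3])]
    constructor <;> linarith only [m4, m6, m5, m7]
  · have k1 := second_diff c1 b₃ b₄ a₁ a₂ hs'.symm hm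
    have k2 := second_diff c2 b₃ b₄ a₁ a₂ hs'.symm hm
    have k3 := second_diff c3 b₃ b₄ a₁ a₂ hs'.symm hm
    have k4 := second_diff c4 b₃ b₄ a₁ a₂ hs'.symm hm
    have k5 := second_diff c5 b₃ b₄ a₁ a₂ hs'.symm hm
    simp only [geb_neg] at k1 k2 k3 k4 k5
    have m1 : 0 ≤ X := by linarith only [hX, k1]
    have m2 : Y ≤ 0 := by linarith only [hY, k2]
    have m3 : Z ≤ 0 := by linarith only [hZ, k3]
    have m4 : -Y ≤ 3 * (u * X) := by rw [hX, hY]; linarith only [k4]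
    have m5 : -Z ≤ 15 * (v * X) := by rw [hX, hZ]; linarith only [k5]
    have m6 : X ≤ u * X := le_mul_of_one_le_left m1 hδ1
    have m7 : X ≤ v * X := le_mul_of_one_le_left m1 hδ2
    rw [abs_of_nonneg m1, abs_of_nonneg (by linarith only [hX, hY, k1, k2]), abs_of_nonneg (by linarith only [hX, hZ, k1, k3])]
    constructor <;> linarith only [m4, m6, m5, m7]

theorem geb_term {δ x s : ℝ} (hδ : 0 < δ) (hs : Sg s) (a : δ ≤ 1 - x ^ 2) :
    |s * (GG x - (GG x)⁻¹)| ≤ (√δ)⁻¹ ∧ |s * (GG x - (GG x ^ 3)⁻¹)| ≤ (√δ ^ 3)⁻¹ := by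
  have hp := geb_pos (hδ.trans_le a)
  have h1 := geb_le a
  have h2 : GG x ≤ 1 := Real.sqrt_le_one.2 (by linarith only [sq_nonneg x])
  have hq : 0 < √δ := Real.sqrt_pos.2 hδ
  have h3 : (GG x)⁻¹ ≤ (√δ)⁻¹ := inv_anti₀ hq h1
  have h4 : (GG x ^ 3)⁻¹ ≤ (√δ ^ 3)⁻¹ := inv_anti₀ (by positivity) (pow_le_pow_left₀ hq.le h1 3)
  have h5 : 1 ≤ (GG x)⁻¹ := (one_le_inv₀ hp).2 h2
  have h6 : 1 ≤ (GG x ^ 3)⁻¹ := (one_le_inv₀ (by positivity)).2 (pow_le_one₀ hp.le h2)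
  have h7 : |s| = 1 := by rcases hs with rfl | rfl <;> simp
  rw [abs_mul, abs_mul, h7, one_mul, one_mul, abs_of_nonpos (by linarith only [h2, h5]),
    abs_of_nonpos (by linarith only [h2, h6])]
  constructor <;> linarith only [hp, h3, h4]

theorem geb_big {δ : ℝ} (hδ : 0 < δ) (h₁ : Sg s₁) (h₂ : Sg s₂) (h₃ : Sg s₃) (h₄ : Sg s₄)
    (a₁ : δ ≤ 1 - x₁ ^ 2) (a₂ : δ ≤ 1 - x₂ ^ 2) (a₃ : δ ≤ 1 - x₃ ^ 2)
    (a₄ : δ ≤ 1 - x₄ ^ 2) (h : √δ ≤ |S4 GG x₁ x₂ x₃ x₄ s₁ s₂ s₃ s₄|) :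
    |S4 (fun x => GG x - (GG x)⁻¹) x₁ x₂ x₃ x₄ s₁ s₂ s₃ s₄| ≤
        4 / δ * |S4 GG x₁ x₂ x₃ x₄ s₁ s₂ s₃ s₄| ∧
      |S4 (fun x => GG x - ((GG x) ^ 3)⁻¹) x₁ x₂ x₃ x₄ s₁ s₂ s₃ s₄| ≤
        (4 / δ) ^ 2 * |S4 GG x₁ x₂ x₃ x₄ s₁ s₂ s₃ s₄| := by
  obtain ⟨p1, q1⟩ := geb_term hδ h₁ a₁
  obtain ⟨p2, q2⟩ := geb_term hδ h₂ a₂
  obtain ⟨p3, q3⟩ := geb_term hδ h₃ a₃
  obtain ⟨p4, q4⟩ := geb_term hδ h₄ a₄
  have hq : 0 < √δ := Real.sqrt_pos.2 hδ
  have hq2 : √δ ^ 2 = δ := Real.sq_sqrt hδ.le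
  have tri : ∀ a b c d : ℝ, |a + b + c + d| ≤ |a| + |b| + |c| + |d| := fun a b c d =>
    (abs_add_le _ _).trans (add_le_add (abs_add_three a b c) le_rfl)
  have e1 : 4 / δ * √δ = 4 * (√δ)⁻¹ := by
    generalize √δ = u at *
    rw [← hq2]
    field_simp
  have e2 : (4 / δ) ^ 2 * √δ = 16 * (√δ ^ 3)⁻¹ := by
    generalize √δ = u at *
    rw [← hq2]
    field_simp
    norm_num
  have e3 : 0 < (√δ ^ 3)⁻¹ := by positivity
  constructor
  · refine (tri _ _ _ _).trans (le_trans ?_ (mul_le_mul_of_nonneg_left h (by positivity)))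
    rw [e1]
    linarith only [p1, p2, p3, p4]
  · refine (tri _ _ _ _).trans (le_trans ?_ (mul_le_mul_of_nonneg_left h (by positivity)))
    rw [e2]
    linarith only [q1, q2, q3, q4, e3]

theorem geb_flip (Ψ : ℝ → ℝ) :
    |S4 Ψ x₁ x₂ x₃ x₄ (-1) s₂ s₃ s₄| = |S4 Ψ x₁ x₂ x₃ x₄ 1 (-s₂) (-s₃) (-s₄)| := by
  rw [← abs_neg]
  congr 1
  unfold S4
  ring

theorem geb_one {δ : ℝ} (hδ : 0 < δ) (h₂ : Sg s₂) (h₃ : Sg s₃) (h₄ : Sg s₄)
    (hs : x₁ + x₂ + x₃ + x₄ = 0) (a₁ : δ ≤ 1 - x₁ ^ 2) (a₂ : δ ≤ 1 - x₂ ^ 2) (a₃ : δ ≤ 1 - x₃ ^ 2)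
    (a₄ : δ ≤ 1 - x₄ ^ 2) :
    |S4 (fun x => GG x - (GG x)⁻¹) x₁ x₂ x₃ x₄ 1 s₂ s₃ s₄| ≤
        4 / δ * |S4 GG x₁ x₂ x₃ x₄ 1 s₂ s₃ s₄| ∧
      |S4 (fun x => GG x - ((GG x) ^ 3)⁻¹) x₁ x₂ x₃ x₄ 1 s₂ s₃ s₄| ≤
        (4 / δ) ^ 2 * |S4 GG x₁ x₂ x₃ x₄ 1 s₂ s₃ s₄| := by
  have h₁ : Sg 1 := Or.inl rfl
  have big := geb_big hδ h₁ h₂ h₃ h₄ a₁ a₂ a₃ a₄
  rcases h₂ with rfl | rfl <;> rcases h₃ with rfl | rfl <;> rcases h₄ with rfl | rfl
  · refine big (le_trans ?_ (le_abs_self _))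
    have := geb_le a₁
    have := geb_pos (hδ.trans_le a₂)
    have := geb_pos (hδ.trans_le a₃)
    have := geb_pos (hδ.trans_le a₄)
    unfold S4
    linarith
  · refine big (le_trans ?_ (le_abs_self _))
    have := three_one hδ hs a₁ a₂ a₃ a₄
    unfold S4
    linarith
  · refine big (le_trans ?_ (le_abs_self _))
    have := three_one hδ (show x₁ + x₂ + x₄ + x₃ = 0 by linarith) a₁ a₂ a₄ a₃
    unfold S4
    linarith
  · have := geb_two hδ hs a₁ a₂ a₃ a₄ (X := S4 GG x₁ x₂ x₃ x₄ 1 1 (-1) (-1))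
      (by unfold S4; ring) rfl rfl
    convert this using 3 <;> unfold S4 <;> ring
  · refine big (le_trans ?_ (le_abs_self _))
    have := three_one hδ (show x₁ + x₃ + x₄ + x₂ = 0 by linarith) a₁ a₃ a₄ a₂
    unfold S4
    linarith
  · have := geb_two hδ (show x₁ + x₃ + x₂ + x₄ = 0 by linarith) a₁ a₃ a₂ a₄
      (X := S4 GG x₁ x₂ x₃ x₄ 1 (-1) 1 (-1)) (by unfold S4; ring) rfl rfl
    convert this using 3 <;> unfold S4 <;> ring
  · have := geb_two hδ (show x₁ + x₄ + x₂ + x₃ = 0 by linarith) a₁ a₄ a₂ a₃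
      (X := S4 GG x₁ x₂ x₃ x₄ 1 (-1) (-1) 1) (by unfold S4; ring) rfl rfl
    convert this using 3 <;> unfold S4 <;> ring
  · refine big (le_trans ?_ (neg_le_abs _))
    have := three_one hδ (show x₂ + x₃ + x₄ + x₁ = 0 by linarith) a₂ a₃ a₄ a₁
    unfold S4
    linarith

/-- GEB.  Paper 5 (e).  Sixteen sign patterns; `GG` is even. -/
theorem ratio {δ : ℝ} (hδ : 0 < δ) (h₁ : Sg s₁) (h₂ : Sg s₂) (h₃ : Sg s₃) (h₄ : Sg s₄)
    (hs : x₁ + x₂ + x₃ + x₄ = 0) (a₁ : δ ≤ 1 - x₁ ^ 2) (a₂ : δ ≤ 1 - x₂ ^ 2) (a₃ : δ ≤ 1 - x₃ ^ 2)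
    (a₄ : δ ≤ 1 - x₄ ^ 2) :
    |S4 (fun x => GG x - (GG x)⁻¹) x₁ x₂ x₃ x₄ s₁ s₂ s₃ s₄| ≤
        4 / δ * |S4 GG x₁ x₂ x₃ x₄ s₁ s₂ s₃ s₄| ∧
      |S4 (fun x => GG x - ((GG x) ^ 3)⁻¹) x₁ x₂ x₃ x₄ s₁ s₂ s₃ s₄| ≤
        (4 / δ) ^ 2 * |S4 GG x₁ x₂ x₃ x₄ s₁ s₂ s₃ s₄| := by
  have ng : ∀ s : ℝ, Sg s → Sg (-s) := fun s h => by
    rcases h with rfl | rfl
    · exact Or.inr rfl
    · exact Or.inl (neg_neg 1)
  rcases h₁ with rfl | rfl
  · exact geb_one hδ h₂ h₃ h₄ hs a₁ a₂ a₃ a₄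
  · rw [geb_flip, geb_flip, geb_flip]
    exact geb_one hδ (ng _ h₂) (ng _ h₃) (ng _ h₄) hs a₁ a₂ a₃ a₄

end Vec

section J

theorem gec_len {c T d Δ : ℝ} (hc : 1 ≤ c) (hT : 1 ≤ T) (hd : 0 < d) (hΔ : 0 ≤ Δ) (u : ℝ) :
    ∃ x₀ : ℝ, ∀ r : ℝ, 1 / (c * T) ≤ Real.exp r → Real.exp r ≤ c / T → d ^ 4 ≤ qq (r + u) →
      qq (r + u) ≤ Δ → r ∈ Icc x₀ (x₀ + 4 * c * Δ) := by
  have hc0 : 0 < c := by linarith
  have hT0 : 0 < T := by linarith
  rcases le_total Δ (1 / 2) with h | h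
  · refine ⟨-u - Δ, fun r _ _ h1 h2 => ⟨?_, ?_⟩⟩
    · have h3 : 1 - Δ ≤ Real.exp (2 * (r + u)) := by unfold qq at h2; linarith only [h2]
      by_contra hlt
      have h4 : 2 * (r + u) < -(2 * Δ) := by linarith only [hlt]
      have h5 : Real.exp (2 * (r + u)) < Real.exp (-(2 * Δ)) := Real.exp_lt_exp.2 h4
      have h6 : 2 * Δ + 1 ≤ Real.exp (2 * Δ) := Real.add_one_le_exp _
      have h7 : Real.exp (-(2 * Δ)) * Real.exp (2 * Δ) = 1 := by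
        rw [← Real.exp_add, neg_add_cancel, Real.exp_zero]
      have h8 : (1 - Δ) * (2 * Δ + 1) < Real.exp (-(2 * Δ)) * Real.exp (2 * Δ) :=
        mul_lt_mul (h3.trans_lt h5) h6 (by linarith only [hΔ]) (Real.exp_pos _).le
      nlinarith only [hΔ, h, h7, h8]
    · have h3 : Real.exp (2 * (r + u)) < 1 := by
        have := pow_pos hd 4
        unfold qq at h1
        linarith only [h1, this]
      have h4 : 2 * (r + u) < 0 := Real.exp_lt_one_iff.1 h3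
      nlinarith only [hc, hΔ, h4]
  · refine ⟨Real.log (1 / (c * T)), fun r h1 h2 _ _ => ⟨?_, ?_⟩⟩
    · exact (Real.log_le_iff_le_exp (by positivity)).2 h1
    · have h3 : r ≤ Real.log (c / T) := (Real.le_log_iff_exp_le (by positivity)).2 h2
      have h4 : Real.log (c / T) = Real.log (1 / (c * T)) + 2 * Real.log c := by
        rw [Real.log_div hc0.ne' hT0.ne', one_div, Real.log_inv, Real.log_mul hc0.ne' hT0.ne']
        ring
      have h5 : Real.log c ≤ c - 1 := Real.log_le_sub_one_of_pos hc0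
      nlinarith only [hc, h, h3, h4, h5]

theorem gec_sm {c T d Δ : ℝ} {V A : ℝ → ℝ} (hV : Vw c T V) (hA : Pc c d Δ A) (u₁ u₂ u₃ u₄ : ℝ) :
    Sm univ (c / T ^ 2 * (1 / d * (1 / d) * (1 / d) * (1 / d)))
      (1 + (c / d ^ 4 + c / d ^ 4 + c / d ^ 4 + c / d ^ 4))
      fun r => V r * (A (r + u₁) * A (r + u₂) * A (r + u₃) * A (r + u₄)) :=
  hV.sm.mul ((((hA.sm.shift u₁).mul (hA.sm.shift u₂)).mul (hA.sm.shift u₃)).mul (hA.sm.shift u₄))

theorem gec_zero {c d Δ : ℝ} {A : ℝ → ℝ} (hA : Pc c d Δ A) (h : Δ < d ^ 4) (V : ℝ → ℝ)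
    (t n₁ n₂ n₃ n₄ s₁ s₂ s₃ s₄ : ℝ) : JJ V A t n₁ n₂ n₃ n₄ s₁ s₂ s₃ s₄ = 0 := by
  have h0 : ∀ ρ, A ρ = 0 := fun ρ => by
    by_contra hne
    have := hA.supp ρ hne
    linarith [this.1, this.2]
  simp [JJ, h0]

/-- GEC.  The support `{r | exp r ∈ [1 / (c T), c / T], d ^ 4 ≤ q ≤ Δ}` lies in an interval of length
`≤ C Δ`; `osc0`. -/
theorem J0 {c : ℝ} (hc : 1 ≤ c) : ∃ C : ℝ, 0 ≤ C ∧ ∀ (T Q d Δ t n₁ n₂ n₃ n₄ s₁ s₂ s₃ s₄ : ℝ)
    (V A : ℝ → ℝ), 1 ≤ T → 0 < d → 0 ≤ Q → Δ ≤ Q * d ^ 4 → Vw c T V → Pc c d Δ A →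
    ‖JJ V A t n₁ n₂ n₃ n₄ s₁ s₂ s₃ s₄‖ ≤ C * Q / T ^ 2 := by
  refine ⟨4 * c ^ 2, by positivity, fun T Q d Δ t n₁ n₂ n₃ n₄ s₁ s₂ s₃ s₄ V A hT hd hQ hΔ hV hA => ?_⟩
  have hc0 : 0 < c := by linarith
  have hT0 : 0 < T := by linarith
  rcases lt_or_ge Δ (d ^ 4) with h | h
  · rw [gec_zero hA h, norm_zero]
    positivity
  have hΔ0 : 0 ≤ Δ := (pow_pos hd 4).le.trans h
  obtain ⟨x₀, hx⟩ := gec_len hc hT hd hΔ0 (Real.log n₁)
  have hs := gec_sm hV hA (Real.log n₁) (Real.log n₂) (Real.log n₃) (Real.log n₄)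
  refine (osc0 (S := Icc x₀ (x₀ + 4 * c * Δ)) (by positivity) hs.a0 subset_rfl
    (fun r hr => ?_) (fun r _ => hs.b0 r trivial)).trans ?_
  · by_contra hne
    have h1 := hV.supp r (left_ne_zero_of_mul hne)
    have h2 := hA.supp _ (left_ne_zero_of_mul (left_ne_zero_of_mul (left_ne_zero_of_mul
      (right_ne_zero_of_mul hne))))
    exact hr (hx r h1.1 h1.2 h2.1 h2.2)
  · calc 4 * c * Δ * (c / T ^ 2 * (1 / d * (1 / d) * (1 / d) * (1 / d)))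
        ≤ 4 * c * (Q * d ^ 4) * (c / T ^ 2 * (1 / d * (1 / d) * (1 / d) * (1 / d))) := by gcongr
      _ = 4 * c ^ 2 * Q / T ^ 2 := by field_simp

theorem gec_gg (r : ℝ) {n : ℝ} (hn : n ≠ 0) : gg (r + Real.log n) = GG (n * Real.exp r) := by
  rw [gg, qq_log r hn, GG]

theorem gec_anti : Antitone qq := fun x y h => by
  have : Real.exp (2 * x) ≤ Real.exp (2 * y) := Real.exp_le_exp.2 (by linarith)
  unfold qq
  linarith

theorem gec_d0 (u r : ℝ) : HasDerivAt (fun x => FF (x + u)) (gg (r + u)) r :=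
  (hasDerivAt_FF (r + u)).comp_add_const r u

theorem gec_d1 {u r : ℝ} (h : 0 < qq (r + u)) :
    HasDerivAt (fun x => gg (x + u)) (gg (r + u) - (gg (r + u))⁻¹) r :=
  (hasDerivAt_gg h).comp_add_const r u

theorem gec_d2 {u r : ℝ} (h : 0 < qq (r + u)) :
    HasDerivAt (fun x => gg (x + u) - (gg (x + u))⁻¹) (gg (r + u) - (gg (r + u) ^ 3)⁻¹) r := by
  have hg : gg (r + u) ≠ 0 := (Real.sqrt_pos.2 h).ne'
  have h1 := (gec_d1 h).fun_sub ((gec_d1 h).fun_inv hg)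
  have e : gg (r + u) - (gg (r + u) ^ 3)⁻¹ =
      gg (r + u) - (gg (r + u))⁻¹ - -(gg (r + u) - (gg (r + u))⁻¹) / gg (r + u) ^ 2 := by
    field_simp
    ring
  rw [e]
  exact h1

theorem gec_c3 {u r : ℝ} (h : 0 < qq (r + u)) :
    ContinuousAt (fun x => gg (x + u) - (gg (x + u) ^ 3)⁻¹) r := by
  have hg : gg (r + u) ≠ 0 := (Real.sqrt_pos.2 h).ne'
  have h1 := (gec_d1 h).continuousAt
  exact h1.sub ((h1.pow 3).inv₀ (pow_ne_zero 3 hg))

/-- GEC.  `osc` on the closed interval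
`S = {r | exp r ∈ [1 / (c T), c / T], ∀ i, d ^ 4 ≤ qq (r + log (n i)) ≤ Δ}`, `gg (r + log n) = GG (n * exp r)`,
`hasDerivAt_gg`, `ratio`. -/
theorem J1 {c : ℝ} (hc : 1 ≤ c) : ∃ C : ℝ, 0 ≤ C ∧ ∀ (T Q d Δ t m n₁ n₂ n₃ n₄ s₁ s₂ s₃ s₄ : ℝ)
    (V A : ℝ → ℝ), 1 ≤ T → 0 < d → d ≤ 1 → 0 ≤ Q → Δ ≤ Q * d ^ 4 → Vw c T V → Pc c d Δ A → 0 < t →
    0 < m → n₁ ≠ 0 → n₂ ≠ 0 → n₃ ≠ 0 → n₄ ≠ 0 → n₁ + n₂ + n₃ + n₄ = 0 → Sg s₁ → Sg s₂ → Sg s₃ → Sg s₄ →
    (∀ u : ℝ, 1 / (c * T) ≤ u → u ≤ c / T → (∀ n ∈ ({n₁, n₂, n₃, n₄} : Set ℝ),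
      d ^ 4 ≤ 1 - (n * u) ^ 2 ∧ 1 - (n * u) ^ 2 ≤ Δ) →
      m ≤ |S4 GG (n₁ * u) (n₂ * u) (n₃ * u) (n₄ * u) s₁ s₂ s₃ s₄|) →
    ‖JJ V A t n₁ n₂ n₃ n₄ s₁ s₂ s₃ s₄‖ ≤ C * Q / T ^ 2 / (t * d ^ 4 * m) ^ 2 := by
  refine ⟨800 * c ^ 4, by positivity, fun T Q d Δ t m n₁ n₂ n₃ n₄ s₁ s₂ s₃ s₄ V A hT hd hd1 hQ hΔ hV hA
    ht hm e₁ e₂ e₃ e₄ hn g₁ g₂ g₃ g₄ hlow => ?_⟩
  have hc0 : 0 < c := by linarith
  have hT0 : 0 < T := by linarith only [hT]
  have hd4 : 0 < d ^ 4 := pow_pos hd 4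
  rcases lt_or_ge Δ (d ^ 4) with h | h
  · rw [gec_zero hA h, norm_zero]
    positivity
  have hΔ0 : 0 ≤ Δ := hd4.le.trans h
  obtain ⟨x₀, hx⟩ := gec_len hc hT hd hΔ0 (Real.log n₁)
  have hs := gec_sm hV hA (Real.log n₁) (Real.log n₂) (Real.log n₃) (Real.log n₄)
  let W : ℝ → Set ℝ := fun u => (fun r => qq (r + u)) ⁻¹' Icc (d ^ 4) Δ
  let S : Set ℝ := Real.exp ⁻¹' Icc (1 / (c * T)) (c / T) ∩
    (W (Real.log n₁) ∩ W (Real.log n₂) ∩ W (Real.log n₃) ∩ W (Real.log n₄))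
  have hWc : ∀ u, IsClosed (W u) := fun u =>
    isClosed_Icc.preimage (continuous_qq.comp (continuous_id.add continuous_const))
  have hWo : ∀ u, (W u).OrdConnected := fun u =>
    ordConnected_Icc.preimage_anti fun x y hxy => gec_anti (by linarith only [hxy])
  have hSc : IsClosed S :=
    (isClosed_Icc.preimage Real.continuous_exp).inter
      ((((hWc _).inter (hWc _)).inter (hWc _)).inter (hWc _))
  have hSo : S.OrdConnected :=
    (ordConnected_Icc.preimage_mono Real.exp_monotone).inter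
      ((((hWo _).inter (hWo _)).inter (hWo _)).inter (hWo _))
  have hp : ∀ {u r : ℝ}, r ∈ W u → 0 < qq (r + u) := fun hr => hd4.trans_le hr.1
  have hκ : 1 + (c / d ^ 4 + c / d ^ 4 + c / d ^ 4 + c / d ^ 4) ≤ 5 * c / d ^ 4 := by
    have h1 : 1 ≤ c / d ^ 4 := (one_le_div hd4).2 ((pow_le_one₀ hd.le hd1).trans hc)
    have h2 : 5 * c / d ^ 4 = 5 * (c / d ^ 4) := by ring
    linarith
  have hκ4 : 4 / d ^ 4 ≤ 5 * c / d ^ 4 := div_le_div_of_nonneg_right (by linarith only [hc]) hd4.le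
  have key := osc (S := S) (x₀ := x₀) (l := 4 * c * Δ) (m := t * m)
    (Φ := fun r => t * (s₁ * FF (r + Real.log n₁) + s₂ * FF (r + Real.log n₂) +
      s₃ * FF (r + Real.log n₃) + s₄ * FF (r + Real.log n₄)))
    (Φ₁ := fun r => t * (s₁ * gg (r + Real.log n₁) + s₂ * gg (r + Real.log n₂) +
      s₃ * gg (r + Real.log n₃) + s₄ * gg (r + Real.log n₄)))
    (Φ₂ := fun r => t * (s₁ * (gg (r + Real.log n₁) - (gg (r + Real.log n₁))⁻¹) +
      s₂ * (gg (r + Real.log n₂) - (gg (r + Real.log n₂))⁻¹) +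
      s₃ * (gg (r + Real.log n₃) - (gg (r + Real.log n₃))⁻¹) +
      s₄ * (gg (r + Real.log n₄) - (gg (r + Real.log n₄))⁻¹)))
    (Φ₃ := fun r => t * (s₁ * (gg (r + Real.log n₁) - (gg (r + Real.log n₁) ^ 3)⁻¹) +
      s₂ * (gg (r + Real.log n₂) - (gg (r + Real.log n₂) ^ 3)⁻¹) +
      s₃ * (gg (r + Real.log n₃) - (gg (r + Real.log n₃) ^ 3)⁻¹) +
      s₄ * (gg (r + Real.log n₄) - (gg (r + Real.log n₄) ^ 3)⁻¹)))
    (by positivity) (mul_pos ht hm) hSc hSo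
    (fun r hr => hx r hr.1.1 hr.1.2 hr.2.1.1.1.1 hr.2.1.1.1.2)
    (hs.mono (subset_univ S) le_rfl hκ)
    (fun r hr => by
      by_contra hne
      have h1 := hV.supp r (left_ne_zero_of_mul hne)
      have h2 := right_ne_zero_of_mul hne
      have h3 := left_ne_zero_of_mul h2
      have h4 := left_ne_zero_of_mul h3
      exact hr ⟨h1, ⟨⟨hA.supp _ (left_ne_zero_of_mul h4), hA.supp _ (right_ne_zero_of_mul h4)⟩,
        hA.supp _ (right_ne_zero_of_mul h3)⟩, hA.supp _ (right_ne_zero_of_mul h2)⟩)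
    (fun r _ => (((((gec_d0 _ r).const_mul s₁).add ((gec_d0 _ r).const_mul s₂)).add
      ((gec_d0 _ r).const_mul s₃)).add ((gec_d0 _ r).const_mul s₄)).const_mul t)
    (fun r hr => (((((gec_d1 (hp hr.2.1.1.1)).const_mul s₁).add
      ((gec_d1 (hp hr.2.1.1.2)).const_mul s₂)).add ((gec_d1 (hp hr.2.1.2)).const_mul s₃)).add
      ((gec_d1 (hp hr.2.2)).const_mul s₄)).const_mul t)
    (fun r hr => (((((gec_d2 (hp hr.2.1.1.1)).const_mul s₁).add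
      ((gec_d2 (hp hr.2.1.1.2)).const_mul s₂)).add ((gec_d2 (hp hr.2.1.2)).const_mul s₃)).add
      ((gec_d2 (hp hr.2.2)).const_mul s₄)).const_mul t)
    (fun r hr => (continuousAt_const.mul ((((continuousAt_const.mul (gec_c3 (hp hr.2.1.1.1))).add
      (continuousAt_const.mul (gec_c3 (hp hr.2.1.1.2)))).add
      (continuousAt_const.mul (gec_c3 (hp hr.2.1.2)))).add
      (continuousAt_const.mul (gec_c3 (hp hr.2.2))))).continuousWithinAt)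
    (fun r hr => by
      have a₁ : qq (r + Real.log n₁) ∈ Icc (d ^ 4) Δ := hr.2.1.1.1
      have a₂ : qq (r + Real.log n₂) ∈ Icc (d ^ 4) Δ := hr.2.1.1.2
      have a₃ : qq (r + Real.log n₃) ∈ Icc (d ^ 4) Δ := hr.2.1.2
      have a₄ : qq (r + Real.log n₄) ∈ Icc (d ^ 4) Δ := hr.2.2
      rw [qq_log r e₁] at a₁
      rw [qq_log r e₂] at a₂
      rw [qq_log r e₃] at a₃
      rw [qq_log r e₄] at a₄
      have hsum : n₁ * Real.exp r + n₂ * Real.exp r + n₃ * Real.exp r + n₄ * Real.exp r = 0 := by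
        rw [← add_mul, ← add_mul, ← add_mul, hn, zero_mul]
      have hr1 := ratio hd4 g₁ g₂ g₃ g₄ hsum a₁.1 a₂.1 a₃.1 a₄.1
      have hl := hlow (Real.exp r) hr.1.1 hr.1.2 (by
        rintro n (rfl | rfl | rfl | rfl)
        exacts [a₁, a₂, a₃, a₄])
      simp only [gec_gg r e₁, gec_gg r e₂, gec_gg r e₃, gec_gg r e₄, abs_mul t, abs_of_pos ht]
      simp only [S4] at hr1 hl
      refine ⟨mul_le_mul_of_nonneg_left hl ht.le, ?_, ?_⟩
      · rw [mul_left_comm]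
        exact mul_le_mul_of_nonneg_left (hr1.1.trans
          (mul_le_mul_of_nonneg_right hκ4 (abs_nonneg _))) ht.le
      · rw [mul_left_comm]
        exact mul_le_mul_of_nonneg_left (hr1.2.trans (mul_le_mul_of_nonneg_right
          (pow_le_pow_left₀ (by positivity) hκ4 2) (abs_nonneg _))) ht.le)
  refine key.trans ?_
  calc 8 * (4 * c * Δ) * (c / T ^ 2 * (1 / d * (1 / d) * (1 / d) * (1 / d))) *
        (5 * c / d ^ 4) ^ 2 / (t * m) ^ 2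
      ≤ 8 * (4 * c * (Q * d ^ 4)) * (c / T ^ 2 * (1 / d * (1 / d) * (1 / d) * (1 / d))) *
        (5 * c / d ^ 4) ^ 2 / (t * m) ^ 2 := by gcongr
    _ = 800 * c ^ 4 * Q / T ^ 2 / (t * d ^ 4 * m) ^ 2 := by
      field_simp
      ring

theorem ged_fin {X C B y z k : ℝ} (hC : 0 ≤ C) (hB : 0 ≤ B) (hy : 0 < y) (h : X ≤ C * B / y ^ 2)
    (hz : 1 ≤ k * z * y) : X ≤ C * k ^ 2 * B * z ^ 2 := by
  refine h.trans ?_
  rw [div_le_iff₀ (by positivity)]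
  have h2 : 1 ≤ (k * z * y) ^ 2 := one_le_pow₀ hz
  calc C * B = C * B * 1 := (mul_one _).symm
    _ ≤ C * B * (k * z * y) ^ 2 := mul_le_mul_of_nonneg_left h2 (mul_nonneg hC hB)
    _ = _ := by ring

theorem ged_three {a b e P N : ℝ} (hP : 0 ≤ P) (hN : 2 * N ≤ |a + b + e|) (h₁ : P ≤ |a * b|)
    (h₂ : P ≤ |a * e|) (h₃ : P ≤ |b * e|) : P * (2 * N) ≤ 3 * |a * b * e| := by
  have t : |a + b + e| ≤ |a| + |b| + |e| := abs_add_three a b e
  rw [abs_mul] at h₁ h₂ h₃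
  rw [abs_mul, abs_mul]
  have k₁ := mul_le_mul_of_nonneg_right h₁ (abs_nonneg e)
  have k₂ := mul_le_mul_of_nonneg_right h₂ (abs_nonneg b)
  have k₃ := mul_le_mul_of_nonneg_right h₃ (abs_nonneg a)
  have k₄ := mul_le_mul_of_nonneg_left (hN.trans t) hP
  linarith only [k₁, k₂, k₃, k₄]

/-- GED.  `J1`, `low_b`; one of the three sums is at least `2 N / 3`. -/
theorem JA {c : ℝ} (hc : 1 ≤ c) : ∃ C : ℝ, 0 ≤ C ∧ ∀ (T Q d Δ t N P n₁ n₂ n₃ n₄ s₁ s₂ s₃ s₄ : ℝ)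
    (V A : ℝ → ℝ), 1 ≤ T → 0 < d → d ≤ 1 → 0 < Δ → Δ ≤ Q * d ^ 4 → Vw c T V → Pc c d Δ A → T ≤ t →
    T ≤ Q * N → N ≤ |n₁| → N ≤ |n₂| → N ≤ |n₃| → N ≤ |n₄| → n₁ + n₂ + n₃ + n₄ = 0 →
    Sg s₁ → Sg s₂ → Sg s₃ → Sg s₄ → 0 < P → P ≤ |(n₁ + n₂) * (n₁ + n₃)| →
    P ≤ |(n₁ + n₂) * (n₁ + n₄)| → P ≤ |(n₁ + n₃) * (n₁ + n₄)| →
    ‖JJ V A t n₁ n₂ n₃ n₄ s₁ s₂ s₃ s₄‖ ≤ C * Q / T ^ 2 * (Q ^ 2 * T / P) ^ 2 := by
  obtain ⟨C, hC, H⟩ := J1 hc
  refine ⟨C * (12 * c ^ 3) ^ 2, by positivity, ?_⟩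
  intro T Q d Δ t N P n₁ n₂ n₃ n₄ s₁ s₂ s₃ s₄ V A hT hd hd1 hΔ hQ hV hA ht hN k₁ k₂ k₃ k₄ hs
    g₁ g₂ g₃ g₄ hP p₁ p₂ p₃
  have hT0 : 0 < T := by linarith only [hT]
  have hc0 : 0 < c := by linarith only [hc]
  have hd4 : 0 < d ^ 4 := by positivity
  have hQ0 : 0 < Q := (mul_pos_iff_of_pos_right hd4).1 (hΔ.trans_le hQ)
  have hN0 : 0 < N := (mul_pos_iff_of_pos_left hQ0).1 (hT0.trans_le hN)
  have ht0 : 0 < t := by linarith only [hT, ht]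
  have hm : 0 < P / (12 * c ^ 3 * Q ^ 2 * T ^ 2 * d ^ 4) := by positivity
  have h := H T Q d Δ t _ n₁ n₂ n₃ n₄ s₁ s₂ s₃ s₄ V A hT hd hd1 hQ0.le hQ hV hA ht0 hm
    (abs_pos.1 (hN0.trans_le k₁)) (abs_pos.1 (hN0.trans_le k₂)) (abs_pos.1 (hN0.trans_le k₃))
    (abs_pos.1 (hN0.trans_le k₄)) hs g₁ g₂ g₃ g₄ (by
      intro u u1 u2 hu
      have hu0 : 0 < u := lt_of_lt_of_le (by positivity) u1
      have b := low_b (x₁ := n₁ * u) (x₂ := n₂ * u) (x₃ := n₃ * u) (x₄ := n₄ * u) (Δ := Δ)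
        g₁ g₂ g₃ g₄ (by linear_combination u * hs)
        ⟨hd4.le.trans (hu n₁ (by simp)).1, (hu n₁ (by simp)).2⟩
        ⟨hd4.le.trans (hu n₂ (by simp)).1, (hu n₂ (by simp)).2⟩
        ⟨hd4.le.trans (hu n₃ (by simp)).1, (hu n₃ (by simp)).2⟩
        ⟨hd4.le.trans (hu n₄ (by simp)).1, (hu n₄ (by simp)).2⟩
      generalize |S4 GG (n₁ * u) (n₂ * u) (n₃ * u) (n₄ * u) s₁ s₂ s₃ s₄| = S at b ⊢
      have e : (n₁ * u + n₂ * u) * (n₁ * u + n₃ * u) * (n₁ * u + n₄ * u) =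
          (n₁ + n₂) * (n₁ + n₃) * (n₁ + n₄) * u ^ 3 := by ring
      rw [e, abs_mul, abs_of_pos (pow_pos hu0 3)] at b
      have e2 : n₁ + n₂ + (n₁ + n₃) + (n₁ + n₄) = 2 * n₁ := by linear_combination hs
      have w := ged_three (N := N) hP.le (by rw [e2, abs_mul, abs_two]; linarith only [k₁]) p₁ p₂ p₃
      generalize |(n₁ + n₂) * (n₁ + n₃) * (n₁ + n₄)| = Y at b w
      have hcu : 1 ≤ c * T * u := by
        rw [div_le_iff₀ (by positivity)] at u1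
        linarith only [u1]
      have hcu3 : 1 ≤ (c * T * u) ^ 3 := one_le_pow₀ hcu
      have hY : 0 ≤ Y := by linarith only [mul_pos hP hN0, w]
      have hS : 0 ≤ S := by
        by_contra hS
        have := mul_neg_of_pos_of_neg (show 0 < 8 * Δ by positivity) (not_le.1 hS)
        have := mul_nonneg hY (pow_pos hu0 3).le
        linarith
      rw [div_le_iff₀ (by positivity)]
      refine le_of_mul_le_mul_right ?_ (show 0 < 2 * T by positivity)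
      calc P * (2 * T) ≤ P * (2 * (Q * N)) := by gcongr
        _ = Q * (P * (2 * N)) := by ring
        _ ≤ Q * (3 * Y) := by gcongr
        _ = Q * (3 * Y) * 1 := (mul_one _).symm
        _ ≤ Q * (3 * Y) * (c * T * u) ^ 3 := by gcongr
        _ = 3 * Q * (c * T) ^ 3 * (Y * u ^ 3) := by ring
        _ ≤ 3 * Q * (c * T) ^ 3 * (8 * Δ * S) := by gcongr
        _ ≤ 3 * Q * (c * T) ^ 3 * (8 * (Q * d ^ 4) * S) := by gcongr
        _ = _ := by ring)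
  rw [mul_div_assoc C] at h
  rw [mul_div_assoc (C * _)]
  refine ged_fin hC (by positivity) (by positivity) h ?_
  have e : 12 * c ^ 3 * (Q ^ 2 * T / P) * (t * d ^ 4 * (P / (12 * c ^ 3 * Q ^ 2 * T ^ 2 * d ^ 4))) =
      t / T := by field_simp
  rw [e]
  exact (one_le_div hT0).2 ht

/-- GED.  `J1`, `low_c`. -/
theorem JV {c : ℝ} (hc : 1 ≤ c) : ∃ C : ℝ, 0 ≤ C ∧ ∀ (T t P n₁ n₂ n₃ n₄ s₁ s₂ s₃ s₄ : ℝ)
    (V A : ℝ → ℝ), 1 ≤ T → Vw c T V → Pc c (1 / 2) 2 A → T ≤ t →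
    n₁ ≠ 0 → n₂ ≠ 0 → n₃ ≠ 0 → n₄ ≠ 0 → 2 * c * |n₁| ≤ T → 2 * c * |n₂| ≤ T → 2 * c * |n₃| ≤ T →
    2 * c * |n₄| ≤ T → n₁ + n₂ + n₃ + n₄ = 0 →
    Sg s₁ → Sg s₂ → Sg s₃ → Sg s₄ → 0 < P → P ≤ |(n₁ + n₂) * (n₁ + n₃)| →
    P ≤ |(n₁ + n₂) * (n₁ + n₄)| → P ≤ |(n₁ + n₃) * (n₁ + n₄)| →
    ‖JJ V A t n₁ n₂ n₃ n₄ s₁ s₂ s₃ s₄‖ ≤ C / T ^ 2 * (T / P) ^ 2 := by
  obtain ⟨C, hC, H⟩ := J1 hc
  refine ⟨C * 32 * (32 * c ^ 2) ^ 2, by positivity, ?_⟩
  intro T t P n₁ n₂ n₃ n₄ s₁ s₂ s₃ s₄ V A hT hV hA ht z₁ z₂ z₃ z₄ k₁ k₂ k₃ k₄ hs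
    g₁ g₂ g₃ g₄ hP p₁ p₂ p₃
  have hT0 : 0 < T := by linarith
  have hc0 : 0 < c := by linarith only [hc]
  have ht0 : 0 < t := by linarith
  have hm : 0 < P / (2 * c ^ 2 * T ^ 2) := by positivity
  have h := H T 32 (1 / 2) 2 t _ n₁ n₂ n₃ n₄ s₁ s₂ s₃ s₄ V A hT (by norm_num) (by norm_num)
    (by norm_num) (by norm_num) hV hA ht0 hm z₁ z₂ z₃ z₄ hs g₁ g₂ g₃ g₄ (by
      intro u u1 u2 hu
      have hu0 : 0 < u := lt_of_lt_of_le (by positivity) u1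
      have hx : ∀ n : ℝ, 2 * c * |n| ≤ T → |n * u| ≤ 1 / 2 := by
        intro n hn
        rw [abs_mul, abs_of_pos hu0]
        rw [le_div_iff₀ hT0] at u2
        refine le_of_mul_le_mul_right ?_ hT0
        have := mul_le_mul_of_nonneg_left u2 (abs_nonneg n)
        linarith only [hn, this]
      have hp : ∀ a b e f : ℝ, P ≤ |(a + b) * (e + f)| →
          P * u ^ 2 ≤ |(a * u + b * u) * (e * u + f * u)| := by
        intro a b e f hh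
        rw [show (a * u + b * u) * (e * u + f * u) = (a + b) * (e + f) * u ^ 2 by ring, abs_mul,
          abs_of_pos (pow_pos hu0 2)]
        gcongr
      have b := low_c (x₁ := n₁ * u) (x₂ := n₂ * u) (x₃ := n₃ * u) (x₄ := n₄ * u) (P := P * u ^ 2)
        g₁ g₂ g₃ g₄ (by linear_combination u * hs) (hx _ k₁) (hx _ k₂) (hx _ k₃) (hx _ k₄)
        (hp _ _ _ _ p₁) (hp _ _ _ _ p₂) (hp _ _ _ _ p₃)
      generalize |S4 GG (n₁ * u) (n₂ * u) (n₃ * u) (n₄ * u) s₁ s₂ s₃ s₄| = S at b ⊢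
      have hcu : 1 ≤ c * T * u := by
        rw [div_le_iff₀ (by positivity)] at u1
        linarith only [u1]
      have hcu2 : 1 ≤ (c * T * u) ^ 2 := one_le_pow₀ hcu
      rw [div_le_iff₀ (by positivity)]
      calc P = P * 1 := (mul_one _).symm
        _ ≤ P * (c * T * u) ^ 2 := by gcongr
        _ = (c * T) ^ 2 * (P * u ^ 2) := by ring
        _ ≤ (c * T) ^ 2 * (2 * S) := by gcongr
        _ = _ := by ring)
  rw [show C * 32 / T ^ 2 = C * 32 * (1 / T ^ 2) by ring] at h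
  rw [show C * 32 * (32 * c ^ 2) ^ 2 / T ^ 2 = C * 32 * (32 * c ^ 2) ^ 2 * (1 / T ^ 2) by ring]
  refine ged_fin (by positivity) (by positivity) (by positivity) h ?_
  have e : 32 * c ^ 2 * (T / P) * (t * (1 / 2) ^ 4 * (P / (2 * c ^ 2 * T ^ 2))) = t / T := by
    field_simp
    norm_num
  rw [e]
  exact (one_le_div hT0).2 ht

/-- GED.  `J1`, `low_d`. -/
theorem JF {c : ℝ} (hc : 1 ≤ c) : ∃ C : ℝ, 0 ≤ C ∧ ∀ (T Q d Δ t N m m' l : ℝ)
    (V A : ℝ → ℝ), 1 ≤ T → 0 < d → d ≤ 1 → 1 ≤ Q → 0 < Δ → Δ ≤ Q * d ^ 4 → Vw c T V → Pc c d Δ A →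
    T ≤ t → T ≤ Q * N → N ≤ m → N ≤ m' → 0 ≤ l → m ≠ m' →
    ‖JJ V A t (m + l) (-m) (-(m' + l)) m' 1 1 (-1) (-1)‖ ≤
      C * Q / T ^ 2 * (Q ^ 2 / (d ^ 2 * |m - m'|)) ^ 2 := by
  obtain ⟨C, hC, H⟩ := J1 hc
  refine ⟨C * (c ^ 2) ^ 2, by positivity, ?_⟩
  intro T Q d Δ t N m m' l V A hT hd hd1 hQ1 hΔ hQ hV hA ht hN k₁ k₂ hl hne
  have hT0 : 0 < T := by linarith
  have hc0 : 0 < c := by linarith only [hc]
  have hd4 : 0 < d ^ 4 := by positivity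
  have hQ0 : 0 < Q := by linarith
  have hN0 : 0 < N := (mul_pos_iff_of_pos_left hQ0).1 (hT0.trans_le hN)
  have ht0 : 0 < t := by linarith
  have hD : 0 < |m - m'| := abs_pos.2 (sub_ne_zero.2 hne)
  have hm : 0 < |m - m'| / (c ^ 2 * T * Q ^ 2 * d ^ 2) := by positivity
  have h := H T Q d Δ t _ (m + l) (-m) (-(m' + l)) m' 1 1 (-1) (-1) V A hT hd hd1 hQ0.le hQ hV hA
    ht0 hm (by linarith only [k₁, hl, hN0] : 0 < m + l).ne' (by linarith only [k₁, hN0] : -m < 0).ne (by linarith only [k₂, hl, hN0] : -(m' + l) < 0).ne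
    (by linarith only [k₂, hN0] : 0 < m').ne' (by ring) (Or.inl rfl) (Or.inl rfl) (Or.inr rfl) (Or.inr rfl) (by
      intro u u1 u2 hu
      have hu0 : 0 < u := lt_of_lt_of_le (by positivity) u1
      have c₁ := (hu (m + l) (by simp only [neg_add_rev, mem_insert_iff, mem_singleton_iff, true_or])).1
      have c₂ := (hu (-m) (by simp only [neg_add_rev, mem_insert_iff, mem_singleton_iff, true_or, or_true])).2
      have c₃ := (hu (-(m' + l)) (by simp only [neg_add_rev, mem_insert_iff, mem_singleton_iff, true_or, or_true])).1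
      have c₄ := (hu m' (by simp only [neg_add_rev, mem_insert_iff, mem_singleton_iff, or_true])).2
      have b := low_d (a := m * u) (a' := m' * u) (l := l * u) (ν := N * u) (Δ := Δ)
        (by positivity) (by gcongr) (by gcongr) (by positivity)
        (by linarith only [hd4, c₁])
        (by linarith only [hd4, c₃])
        (by linarith only [c₂]) c₄
      rw [show m * u + l * u = (m + l) * u by ring, show -(m * u) = -m * u by ring,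
        show -(m' * u + l * u) = -(m' + l) * u by ring, ← sub_mul, abs_mul, abs_of_pos hu0] at b
      have hS := abs_nonneg (S4 GG ((m + l) * u) (-m * u) (-(m' + l) * u) (m' * u) 1 1 (-1) (-1))
      generalize |S4 GG ((m + l) * u) (-m * u) (-(m' + l) * u) (m' * u) 1 1 (-1) (-1)| = S at b hS ⊢
      have hcu : 1 ≤ c * T * u := by
        rw [div_le_iff₀ (by positivity)] at u1
        linarith only [u1]
      have hcu2 : 1 ≤ (c * T * u) ^ 2 := one_le_pow₀ hcu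
      have hq : √Δ ≤ Q * d ^ 2 := by
        refine Real.sqrt_le_iff.2 ⟨by positivity, hQ.trans ?_⟩
        have := mul_le_mul_of_nonneg_right hQ1 (mul_pos hQ0 hd4).le
        linarith only [this]
      rw [div_le_iff₀ (by positivity)]
      refine le_of_mul_le_mul_right ?_ hT0
      calc |m - m'| * T ≤ |m - m'| * (Q * N) := by gcongr
        _ = |m - m'| * (Q * N) * 1 := (mul_one _).symm
        _ ≤ |m - m'| * (Q * N) * (c * T * u) ^ 2 := by gcongr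
        _ = Q * (c * T) ^ 2 * (|m - m'| * u * (N * u)) := by ring
        _ ≤ Q * (c * T) ^ 2 * (√Δ * S) := by gcongr
        _ ≤ Q * (c * T) ^ 2 * (Q * d ^ 2 * S) := by gcongr
        _ = _ := by ring)
  rw [mul_div_assoc C] at h
  rw [mul_div_assoc (C * _)]
  refine ged_fin hC (by positivity) (by positivity) h ?_
  have e : c ^ 2 * (Q ^ 2 / (d ^ 2 * |m - m'|)) *
      (t * d ^ 4 * (|m - m'| / (c ^ 2 * T * Q ^ 2 * d ^ 2))) = t / T := by field_simp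
  rw [e]
  exact (one_le_div hT0).2 ht

theorem ged_d1 {s : ℝ} (hs : 0 < s) :
    HasDerivAt (fun x => FF (Real.log x)) (gg (Real.log s) * s⁻¹) s :=
  (hasDerivAt_FF (Real.log s)).comp s (Real.hasDerivAt_log hs.ne')

theorem ged_qq {s : ℝ} (hs : 0 < s) : qq (Real.log s) = 1 - s ^ 2 := by
  have h := qq_log 0 hs.ne'
  rwa [zero_add, Real.exp_zero, mul_one] at h

theorem ged_d2 {s : ℝ} (hs : 0 < s) (h : 0 < qq (Real.log s)) :
    HasDerivAt (fun x => gg (Real.log x) * x⁻¹) (-((gg (Real.log s))⁻¹ * (s ^ 2)⁻¹)) s := by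
  have h1 := ((hasDerivAt_gg h).comp s (Real.hasDerivAt_log hs.ne')).mul (hasDerivAt_inv hs.ne')
  refine h1.congr_deriv ?_
  simp only [Function.comp]
  rw [pow_two, mul_inv]
  ring

theorem ged_lip {ν d B x y : ℝ} (hν : 0 < ν) (hd : 0 < d) (hB : d ^ 4 ≤ 1 - B ^ 2)
    (hx : x ∈ Icc ν B) (hy : y ∈ Icc ν B) :
    |gg (Real.log x) * x⁻¹ - gg (Real.log y) * y⁻¹| ≤ (d ^ 2 * ν ^ 2)⁻¹ * |x - y| := by
  have key : ∀ s ∈ Icc ν B, 0 < s ∧ d ^ 4 ≤ qq (Real.log s) := by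
    intro s hs
    have h0 : 0 < s := hν.trans_le hs.1
    refine ⟨h0, ?_⟩
    rw [ged_qq h0]
    have := pow_le_pow_left₀ h0.le hs.2 2
    linarith
  refine Convex.norm_image_sub_le_of_norm_hasDerivWithin_le (f := fun x => gg (Real.log x) * x⁻¹)
    (fun s hs => (ged_d2 (key s hs).1
      (lt_of_lt_of_le (by positivity) (key s hs).2)).hasDerivWithinAt) ?_ (convex_Icc ν B) hy hx
  intro s hs
  have h0 := (key s hs).1
  have h1 : d ^ 2 ≤ gg (Real.log s) :=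
    Real.le_sqrt_of_sq_le (by linarith [(key s hs).2, show (d ^ 2) ^ 2 = d ^ 4 by ring])
  have h2 : 0 < gg (Real.log s) := lt_of_lt_of_le (by positivity) h1
  rw [norm_neg, Real.norm_of_nonneg (by positivity), mul_inv]
  have h3 := hs.1
  gcongr

/-- GED.  Paper 7, P7: `(FF ∘ log)'' = -1 / (g s ^ 2)`; mean value inequality twice. -/
theorem nu_diff {a a' l ν d : ℝ} (hν : 0 < ν) (hd : 0 < d) (ha : ν ≤ a) (ha' : ν ≤ a') (hl : 0 ≤ l)
    (b₁ : d ^ 4 ≤ 1 - (a + l) ^ 2) (b₂ : d ^ 4 ≤ 1 - (a' + l) ^ 2) :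
    |(FF (Real.log (a + l)) - FF (Real.log a)) - (FF (Real.log (a' + l)) - FF (Real.log a'))| ≤
      l * |a - a'| / (d ^ 2 * ν ^ 2) := by
  have hB : d ^ 4 ≤ 1 - (max a a' + l) ^ 2 := by
    rcases le_total a a' with h | h
    · rwa [max_eq_right h]
    · rwa [max_eq_left h]
  have m₁ := le_max_left a a'
  have m₂ := le_max_right a a'
  have h := Convex.norm_image_sub_le_of_norm_hasDerivWithin_le
    (f := fun x => FF (Real.log (a + x)) - FF (Real.log (a' + x)))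
    (f' := fun x => gg (Real.log (a + x)) * (a + x)⁻¹ - gg (Real.log (a' + x)) * (a' + x)⁻¹)
    (C := (d ^ 2 * ν ^ 2)⁻¹ * |a - a'|) (s := Icc 0 l) (x := 0) (y := l)
    (fun x hx => ((((ged_d1 (s := a + x) (by linarith [hx.1])).comp_const_add a x)).sub
      ((ged_d1 (s := a' + x) (by linarith [hx.1])).comp_const_add a' x)).hasDerivWithinAt)
    (fun x hx => by
      have := ged_lip (x := a + x) (y := a' + x) hν hd hB
        ⟨by linarith [hx.1], by linarith [hx.2]⟩ ⟨by linarith [hx.1], by linarith [hx.2]⟩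
      rwa [add_sub_add_right_eq_sub] at this)
    (convex_Icc 0 l) (left_mem_Icc.2 hl) (right_mem_Icc.2 hl)
  simp only [add_zero, sub_zero, Real.norm_eq_abs, abs_of_nonneg hl] at h
  rw [show FF (Real.log (a + l)) - FF (Real.log a) - (FF (Real.log (a' + l)) - FF (Real.log a')) =
    FF (Real.log (a + l)) - FF (Real.log (a' + l)) - (FF (Real.log a) - FF (Real.log a')) by ring]
  refine h.trans (le_of_eq ?_)
  rw [div_eq_mul_inv]
  ring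

end J

section Trig

variable {J : Finset ℕ} {c : ℕ → ℂ}

section

open Finset

namespace tra

/-- the tent `max 0 (1 - |x|/H)` -/
noncomputable def tent (H : ℕ) (x : ℤ) : ℝ := max 0 (1 - |(x : ℝ)| / H)

/-- `min 1 (|x|/H) = 1 - tent` -/
noncomputable def wt (H : ℕ) (x : ℤ) : ℝ := min 1 (|(x : ℝ)| / H)

lemma wt_eq (H : ℕ) (x : ℤ) : wt H x = 1 - tent H x := by
  unfold wt tent
  rcases le_total 1 (|(x : ℝ)| / H) with h | h
  · rw [min_eq_left h, max_eq_left (by linarith)]; ring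
  · rw [min_eq_right h, max_eq_right (by linarith)]; ring

lemma tent_nonneg (H : ℕ) (x : ℤ) : 0 ≤ tent H x := le_max_left _ _

lemma wt_nonneg (H : ℕ) (x : ℤ) : 0 ≤ wt H x := le_min zero_le_one (by positivity)

lemma wt_le_one (H : ℕ) (x : ℤ) : wt H x ≤ 1 := min_le_left _ _

lemma wt_le (H : ℕ) (x : ℤ) : wt H x ≤ |(x : ℝ)| / H := min_le_right _ _

lemma tent_le_one (H : ℕ) (x : ℤ) : tent H x ≤ 1 := by
  have := wt_nonneg H x; rw [wt_eq] at this; linarith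

lemma tent_eq_zero {H : ℕ} (hH : 0 < H) {x : ℤ} (hx : (H : ℤ) ≤ |x|) : tent H x = 0 := by
  unfold tent
  apply max_eq_left
  have h1 : (H : ℝ) ≤ |(x : ℝ)| := by exact_mod_cast hx
  have h2 : (0 : ℝ) < H := by exact_mod_cast hH
  have : 1 ≤ |(x : ℝ)| / H := (one_le_div h2).2 h1
  linarith only [this]

lemma tent_count {L : ℕ} (hL : 0 < L) (a b n n' : ℤ) (hn : n ∈ Finset.Icc a b) (hn' : n' ∈ Finset.Icc a b) :
    tent L (n - n') = (1 / (L : ℝ)) * ∑ s ∈ Finset.Ioc (a - L) b,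
      ((if s ≤ n ∧ n < s + L then (1 : ℝ) else 0) * (if s ≤ n' ∧ n' < s + L then (1 : ℝ) else 0)) := by
  rw [Finset.mem_Icc] at hn hn'
  have h2 : (0 : ℝ) < L := by exact_mod_cast hL
  have e1 : ∑ s ∈ Finset.Ioc (a - L) b,
      ((if s ≤ n ∧ n < s + L then (1 : ℝ) else 0) * (if s ≤ n' ∧ n' < s + L then (1 : ℝ) else 0))
      = ((Finset.Ioc (max n n' - L) (min n n')).card : ℝ) := by
    have : ∀ s ∈ Finset.Ioc (a - L) b,
        ((if s ≤ n ∧ n < s + L then (1 : ℝ) else 0) * (if s ≤ n' ∧ n' < s + L then (1 : ℝ) else 0))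
        = if s ∈ Finset.Ioc (max n n' - L) (min n n') then (1 : ℝ) else 0 := by
      intro s _
      by_cases h : s ∈ Finset.Ioc (max n n' - L) (min n n')
      · rw [if_pos h]
        rw [Finset.mem_Ioc] at h
        rw [if_pos (by omega), if_pos (by omega)]; ring
      · rw [if_neg h]
        rw [Finset.mem_Ioc] at h
        by_cases h1 : s ≤ n ∧ n < s + L
        · rw [if_neg (show ¬ (s ≤ n' ∧ n' < s + L) by omega)]; ring
        · rw [if_neg h1]; ring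
    rw [sum_congr rfl this, sum_ite_mem, sum_const, nsmul_eq_mul, mul_one]
    congr 2
    ext s
    simp only [Finset.mem_inter, Finset.mem_Ioc]
    omega
  rw [e1, Int.card_Ioc]
  by_cases h : (L : ℤ) ≤ |n - n'|
  · rw [tent_eq_zero hL h]
    have : (min n n' - (max n n' - L)).toNat = 0 := by
      rcases abs_cases (n - n') with h3 | h3 <;> omega
    rw [this]; simp
  · have h4 : ((min n n' - (max n n' - L)).toNat : ℤ) = L - |n - n'| := by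
      rcases abs_cases (n - n') with h3 | h3 <;> omega
    have h5 : (((min n n' - (max n n' - L)).toNat : ℕ) : ℝ) = L - |((n - n' : ℤ) : ℝ)| := by
      exact_mod_cast h4
    rw [h5]
    have h6 : |((n - n' : ℤ) : ℝ)| ≤ L := by
      have : |n - n'| ≤ (L : ℤ) := by omega
      exact_mod_cast this
    unfold tent
    rw [max_eq_right (by
      have : |((n - n' : ℤ) : ℝ)| / L ≤ 1 := (div_le_one h2).2 h6
      linarith only [this])]
    field_simp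

/-- the tent quadratic form is an average of squares of block sums -/
theorem tent_sum {L : ℕ} (hL : 0 < L) (a b : ℤ) (J : Finset ℤ) (hJ : J ⊆ Finset.Icc a b) (x : ℤ → ℂ) :
    ∑ n ∈ J, ∑ n' ∈ J, (tent L (n - n') : ℂ) * (x n * conj (x n'))
      = (((1 / (L : ℝ)) * ∑ s ∈ Finset.Ioc (a - L) b,
          ‖∑ n ∈ J.filter (fun n => s ≤ n ∧ n < s + L), x n‖ ^ 2 : ℝ) : ℂ) := by
  have e : ∀ s : ℤ, ((‖∑ n ∈ J.filter (fun n => s ≤ n ∧ n < s + L), x n‖ ^ 2 : ℝ) : ℂ)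
      = ∑ n ∈ J, ∑ n' ∈ J, (((if s ≤ n ∧ n < s + L then (1 : ℝ) else 0)
        * (if s ≤ n' ∧ n' < s + L then (1 : ℝ) else 0) : ℝ) : ℂ) * (x n * conj (x n')) := by
    intro s
    push_cast
    rw [← Complex.mul_conj', map_sum, sum_filter, sum_filter, sum_mul_sum]
    refine sum_congr rfl fun n _ => sum_congr rfl fun n' _ => ?_
    split_ifs <;> simp
  rw [Complex.ofReal_mul, Complex.ofReal_sum, sum_congr rfl fun s _ => e s]
  conv_rhs => rw [sum_comm, mul_sum]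
  refine sum_congr rfl fun n hn => ?_
  conv_rhs => rw [sum_comm, mul_sum]
  refine sum_congr rfl fun n' hn' => ?_
  rw [tent_count hL a b n n' (hJ hn) (hJ hn'), ← sum_mul, Complex.ofReal_mul, Complex.ofReal_sum,
    mul_assoc]

theorem tent_psd {L : ℕ} (hL : 0 < L) (J : Finset ℤ) (x : ℤ → ℂ) :
    0 ≤ (∑ n ∈ J, ∑ n' ∈ J, (tent L (n - n') : ℂ) * (x n * conj (x n'))).re := by
  obtain ⟨a, ha⟩ := J.bddBelow
  obtain ⟨b, hb⟩ := J.bddAbove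
  rw [tent_sum hL a b J (fun n hn => Finset.mem_Icc.2 ⟨ha hn, hb hn⟩), Complex.ofReal_re]
  positivity

/-- weighted quartic form over `n1+n2+n3+n4=0`; the weight sees `u=n1+n2, v=n1+n3, w=n1+n4`. -/
noncomputable def Q4 (J : Finset ℤ) (h : ℤ → ℂ) (w : ℤ → ℤ → ℤ → ℝ) : ℂ :=
  ∑ n1 ∈ J, ∑ n2 ∈ J, ∑ n3 ∈ J, ∑ n4 ∈ J,
    if n1 + n2 + n3 + n4 = 0 then
      (w (n1 + n2) (n1 + n3) (n1 + n4) : ℂ) * (h n1 * h n2 * h n3 * h n4) else 0

lemma Q4_swap23 (J : Finset ℤ) (h : ℤ → ℂ) (w : ℤ → ℤ → ℤ → ℝ) :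
    Q4 J h w = Q4 J h (fun u v z => w v u z) := by
  unfold Q4
  refine sum_congr rfl fun n1 _ => ?_
  rw [sum_comm]
  refine sum_congr rfl fun n2 _ => sum_congr rfl fun n3 _ => sum_congr rfl fun n4 _ => ?_
  have : n1 + n3 + n2 + n4 = n1 + n2 + n3 + n4 := by ring
  rw [this]
  split_ifs
  · ring
  · rfl

lemma Q4_swap34 (J : Finset ℤ) (h : ℤ → ℂ) (w : ℤ → ℤ → ℤ → ℝ) :
    Q4 J h w = Q4 J h (fun u v z => w u z v) := by
  unfold Q4
  refine sum_congr rfl fun n1 _ => sum_congr rfl fun n2 _ => ?_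
  rw [sum_comm]
  refine sum_congr rfl fun n3 _ => sum_congr rfl fun n4 _ => ?_
  have : n1 + n2 + n4 + n3 = n1 + n2 + n3 + n4 := by ring
  rw [this]
  split_ifs
  · ring
  · rfl

lemma sum_neg {J : Finset ℤ} (hJ : ∀ n ∈ J, -n ∈ J) (F : ℤ → ℂ) :
    ∑ n ∈ J, F n = ∑ n ∈ J, F (-n) := by
  refine sum_bij' (fun n _ => -n) (fun n _ => -n) (fun n hn => hJ n hn) (fun n hn => hJ n hn)
    (fun n _ => neg_neg n) (fun n _ => neg_neg n) (fun n _ => by rw [neg_neg])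

/-- `x^l_n = h_n h_{l-n}` (zero unless `l-n ∈ J`) -/
noncomputable def xl (J : Finset ℤ) (h : ℤ → ℂ) (l n : ℤ) : ℂ :=
  ∑ n2 ∈ J, if n + n2 = l then h n * h n2 else 0

lemma Q4_tent {H : ℕ} (hH : 0 < H) {J : Finset ℤ} (hJ : ∀ n ∈ J, -n ∈ J) {h : ℤ → ℂ}
    (hh : ∀ n ∈ J, h (-n) = conj (h n)) (φ : ℤ → ℝ) :
    Q4 J h (fun u v _ => tent H u * φ v) = ∑ l ∈ Finset.Ioo (-(H : ℤ)) H, (tent H l : ℂ) *
      ∑ n ∈ J, ∑ n' ∈ J, (φ (n - n') : ℂ) * (xl J h l n * conj (xl J h l n')) := by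
  have key : ∀ n1 n2 n3 n4 : ℤ,
      (if n1 + n2 + -n3 + -n4 = 0 then
        ((tent H (n1 + n2) * φ (n1 + -n3) : ℝ) : ℂ) * (h n1 * h n2 * conj (h n3) * conj (h n4)) else 0)
      = ∑ l ∈ Finset.Ioo (-(H : ℤ)) H, (tent H l : ℂ) * ((φ (n1 - n3) : ℂ) *
        ((if n1 + n2 = l then h n1 * h n2 else 0)
          * conj (if n3 + n4 = l then h n3 * h n4 else 0))) := by
    intro n1 n2 n3 n4
    by_cases hm : n1 + n2 ∈ Finset.Ioo (-(H : ℤ)) H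
    · rw [sum_eq_single_of_mem (n1 + n2) hm (fun l _ hl => by rw [if_neg (Ne.symm hl)]; simp)]
      rw [if_pos rfl]
      by_cases h0 : n1 + n2 + -n3 + -n4 = 0
      · rw [if_pos h0, if_pos (by omega), ← sub_eq_add_neg, map_mul]
        push_cast; ring
      · rw [if_neg h0, if_neg (by omega)]; simp
    · have h1 : tent H (n1 + n2) = 0 := by
        apply tent_eq_zero hH
        rw [Finset.mem_Ioo] at hm
        rcases abs_cases (n1 + n2) with h3 | h3 <;> omega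
      rw [h1, sum_eq_zero]
      · simp only [zero_mul, ofReal_zero, ite_self]
      · intro l hl
        rw [if_neg (fun (e : n1 + n2 = l) => hm (e ▸ hl))]; simp
  have e1 : Q4 J h (fun u v _ => tent H u * φ v) = ∑ n1 ∈ J, ∑ n2 ∈ J, ∑ n3 ∈ J, ∑ n4 ∈ J,
      ∑ l ∈ Finset.Ioo (-(H : ℤ)) H, (tent H l : ℂ) * ((φ (n1 - n3) : ℂ) *
        ((if n1 + n2 = l then h n1 * h n2 else 0)
          * conj (if n3 + n4 = l then h n3 * h n4 else 0))) := by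
    unfold Q4
    refine sum_congr rfl fun n1 _ => sum_congr rfl fun n2 _ => ?_
    rw [sum_neg hJ]
    refine sum_congr rfl fun n3 h3 => ?_
    rw [sum_neg hJ]
    refine sum_congr rfl fun n4 h4 => ?_
    rw [hh n3 h3, hh n4 h4]
    exact key n1 n2 n3 n4
  rw [e1]
  symm
  simp only [xl, map_sum, sum_mul_sum]
  simp only [mul_sum]
  rw [sum_comm]
  refine sum_congr rfl fun n1 _ => ?_
  rw [sum_comm]
  conv_rhs => rw [sum_comm]
  refine sum_congr rfl fun n3 _ => ?_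
  rw [sum_comm]
  refine sum_congr rfl fun n2 _ => ?_
  rw [sum_comm]

/-- `beta_l = sum_n h_n h_{l-n}` -/
noncomputable def beta (J : Finset ℤ) (h : ℤ → ℂ) (l : ℤ) : ℂ := ∑ n ∈ J, xl J h l n

lemma Q4_a {H : ℕ} (hH : 0 < H) {J : Finset ℤ} (hJ : ∀ n ∈ J, -n ∈ J) {h : ℤ → ℂ}
    (hh : ∀ n ∈ J, h (-n) = conj (h n)) :
    (Q4 J h (fun u _ _ => tent H u)).re ≤ ∑ l ∈ Finset.Ioo (-(H : ℤ)) H, ‖beta J h l‖ ^ 2 := by
  have := Q4_tent hH hJ hh (fun _ => 1)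
  simp only [mul_one, Complex.ofReal_one, one_mul] at this
  rw [this, re_sum]
  refine sum_le_sum fun l _ => ?_
  rw [← sum_mul_sum, ← map_sum]
  change ((tent H l : ℂ) * (beta J h l * conj (beta J h l))).re ≤ _
  rw [Complex.mul_conj', ← Complex.ofReal_pow, ← Complex.ofReal_mul, Complex.ofReal_re]
  have := tent_le_one H l
  nlinarith only [this]

lemma Q4_ab {H : ℕ} (hH : 0 < H) {J : Finset ℤ} (hJ : ∀ n ∈ J, -n ∈ J) {h : ℤ → ℂ}
    (hh : ∀ n ∈ J, h (-n) = conj (h n)) :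
    0 ≤ (Q4 J h (fun u v _ => tent H u * tent H v)).re := by
  rw [Q4_tent hH hJ hh (tent H), re_sum]
  refine sum_nonneg fun l _ => ?_
  rw [Complex.re_ofReal_mul]
  exact mul_nonneg (tent_nonneg H l) (tent_psd hH J _)

/-- abstract Fejer inequality -/
theorem Q4_fej {H N : ℕ} (hH : 0 < H) (hN : 3 * H ≤ 2 * N) {J : Finset ℤ} (hJ : ∀ n ∈ J, -n ∈ J)
    (hJN : ∀ n ∈ J, (N : ℤ) ≤ |n|) {h : ℤ → ℂ} (hh : ∀ n ∈ J, h (-n) = conj (h n)) :
    (Q4 J h (fun _ _ _ => 1)).re ≤ 3 * ∑ l ∈ Finset.Ioo (-(H : ℤ)) H, ‖beta J h l‖ ^ 2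
      + (Q4 J h (fun u v w => wt H u * wt H v * wt H w)).re := by
  have e : Q4 J h (fun _ _ _ => 1) = Q4 J h (fun u v w => wt H u * wt H v * wt H w)
      + Q4 J h (fun u _ _ => tent H u) + Q4 J h (fun _ v _ => tent H v)
      + Q4 J h (fun _ _ w => tent H w) - Q4 J h (fun u v _ => tent H u * tent H v)
      - Q4 J h (fun u _ w => tent H u * tent H w) - Q4 J h (fun _ v w => tent H v * tent H w) := by
    unfold Q4
    simp only [← sum_add_distrib, ← sum_sub_distrib]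
    refine sum_congr rfl fun n1 h1 => sum_congr rfl fun n2 _ => sum_congr rfl fun n3 _ =>
      sum_congr rfl fun n4 _ => ?_
    split_ifs with h0
    · have habc : tent H (n1 + n2) * tent H (n1 + n3) * tent H (n1 + n4) = 0 := by
        have h5 := hJN n1 h1
        by_cases ha : (H : ℤ) ≤ |n1 + n2|
        · rw [tent_eq_zero hH ha]; ring
        by_cases hb : (H : ℤ) ≤ |n1 + n3|
        · rw [tent_eq_zero hH hb]; ring
        have hc : (H : ℤ) ≤ |n1 + n4| := by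
          rcases abs_cases (n1 + n2) with h6 | h6 <;> rcases abs_cases (n1 + n3) with h7 | h7 <;>
            rcases abs_cases (n1 + n4) with h8 | h8 <;> rcases abs_cases n1 with h9 | h9 <;> omega
        rw [tent_eq_zero hH hc]; ring
      have habc' : (tent H (n1 + n2) : ℂ) * tent H (n1 + n3) * tent H (n1 + n4) = 0 := by
        exact_mod_cast habc
      simp only [wt_eq]
      push_cast
      linear_combination (h n1 * h n2 * h n3 * h n4) * habc'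
    · simp
  have a1 := Q4_a hH hJ hh
  have a2 : Q4 J h (fun _ v _ => tent H v) = Q4 J h (fun u _ _ => tent H u) := Q4_swap23 _ _ _
  have a3 : Q4 J h (fun _ _ w => tent H w) = Q4 J h (fun u _ _ => tent H u) := by
    rw [Q4_swap34, a2]
  have b1 := Q4_ab hH hJ hh
  have b2 : Q4 J h (fun u _ w => tent H u * tent H w)
      = Q4 J h (fun u v _ => tent H u * tent H v) := Q4_swap34 _ _ _
  have b3 : Q4 J h (fun _ v w => tent H v * tent H w)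
      = Q4 J h (fun u v _ => tent H u * tent H v) := by
    rw [Q4_swap23, b2]
  rw [e, a2, a3, b2, b3]
  simp only [add_re, sub_re]
  linarith only [a1, b1]

lemma int_e (k : ℤ) :
    ∫ x in (0 : ℝ)..1, cexp (2 * Real.pi * I * k * x) = if k = 0 then 1 else 0 := by
  split_ifs with h
  · simp [h]
  · have hc : (2 * Real.pi * I * k : ℂ) ≠ 0 := by
      have : (k : ℂ) ≠ 0 := by exact_mod_cast h
      have : (Real.pi : ℂ) ≠ 0 := by exact_mod_cast Real.pi_ne_zero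
      simp [*]
    rw [integral_exp_mul_complex hc]
    have : cexp (2 * Real.pi * I * k * (1 : ℝ)) = 1 := by
      have := Complex.exp_int_mul_two_pi_mul_I k
      rw [← this]; congr 1; push_cast; ring
    rw [this]; simp

lemma int_sum4 (J : Finset ℤ) (h : ℤ → ℂ) :
    ∫ x in (0 : ℝ)..1, (∑ n ∈ J, h n * cexp (2 * Real.pi * I * n * x)) ^ 4
      = Q4 J h (fun _ _ _ => 1) := by
  have e : ∀ x : ℝ, (∑ n ∈ J, h n * cexp (2 * Real.pi * I * n * x)) ^ 4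
      = ∑ n1 ∈ J, ∑ n2 ∈ J, ∑ n3 ∈ J, ∑ n4 ∈ J, (h n1 * h n2 * h n3 * h n4) *
        cexp (2 * Real.pi * I * (n1 + n2 + n3 + n4 : ℤ) * x) := by
    intro x
    set S := ∑ n ∈ J, h n * cexp (2 * Real.pi * I * n * x) with hS
    have : S ^ 4 = S * (S * (S * S)) := by ring
    rw [this]
    nth_rewrite 1 [hS]
    rw [sum_mul]
    refine sum_congr rfl fun n1 _ => ?_
    nth_rewrite 1 [hS]
    rw [sum_mul, mul_sum]
    refine sum_congr rfl fun n2 _ => ?_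
    nth_rewrite 1 [hS]
    rw [sum_mul, mul_sum, mul_sum]
    refine sum_congr rfl fun n3 _ => ?_
    rw [hS, mul_sum, mul_sum, mul_sum]
    refine sum_congr rfl fun n4 _ => ?_
    have : (2 * Real.pi * I * (n1 + n2 + n3 + n4 : ℤ) * x : ℂ) = 2 * Real.pi * I * n1 * x
        + 2 * Real.pi * I * n2 * x + 2 * Real.pi * I * n3 * x + 2 * Real.pi * I * n4 * x := by
      push_cast; ring
    rw [this, Complex.exp_add, Complex.exp_add, Complex.exp_add]; ring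
  simp_rw [e]
  unfold Q4
  rw [intervalIntegral.integral_finsetSum (fun _ _ => Continuous.intervalIntegrable (by fun_prop) _ _)]
  refine sum_congr rfl fun n1 _ => ?_
  rw [intervalIntegral.integral_finsetSum (fun _ _ => Continuous.intervalIntegrable (by fun_prop) _ _)]
  refine sum_congr rfl fun n2 _ => ?_
  rw [intervalIntegral.integral_finsetSum (fun _ _ => Continuous.intervalIntegrable (by fun_prop) _ _)]
  refine sum_congr rfl fun n3 _ => ?_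
  rw [intervalIntegral.integral_finsetSum (fun _ _ => Continuous.intervalIntegrable (by fun_prop) _ _)]
  refine sum_congr rfl fun n4 _ => ?_
  rw [intervalIntegral.integral_const_mul, int_e]
  split_ifs <;> simp

lemma int_sum2 (J : Finset ℤ) (h : ℤ → ℂ) :
    ∫ x in (0 : ℝ)..1, (∑ n ∈ J, h n * cexp (2 * Real.pi * I * n * x)) ^ 2 = beta J h 0 := by
  have e : ∀ x : ℝ, (∑ n ∈ J, h n * cexp (2 * Real.pi * I * n * x)) ^ 2
      = ∑ n1 ∈ J, ∑ n2 ∈ J, (h n1 * h n2) * cexp (2 * Real.pi * I * (n1 + n2 : ℤ) * x) := by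
    intro x
    rw [sq, sum_mul_sum]
    refine sum_congr rfl fun n1 _ => sum_congr rfl fun n2 _ => ?_
    have : (2 * Real.pi * I * (n1 + n2 : ℤ) * x : ℂ) = 2 * Real.pi * I * n1 * x
        + 2 * Real.pi * I * n2 * x := by
      push_cast; ring
    rw [this, Complex.exp_add]; ring
  simp_rw [e]
  unfold beta xl
  rw [intervalIntegral.integral_finsetSum (fun _ _ => Continuous.intervalIntegrable (by fun_prop) _ _)]
  refine sum_congr rfl fun n1 _ => ?_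
  rw [intervalIntegral.integral_finsetSum (fun _ _ => Continuous.intervalIntegrable (by fun_prop) _ _)]
  refine sum_congr rfl fun n2 _ => ?_
  rw [intervalIntegral.integral_const_mul, int_e]
  split_ifs <;> simp

/-- `I ∪ -I` -/
def sym (I : Finset ℕ) : Finset ℤ :=
  I.image (fun n : ℕ => (n : ℤ)) ∪ I.image (fun n : ℕ => -(n : ℤ))

lemma mem_sym {I : Finset ℕ} {n : ℤ} : n ∈ sym I ↔ n.natAbs ∈ I := by
  unfold sym
  simp only [Finset.mem_union, Finset.mem_image]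
  constructor
  · rintro (⟨m, hm, rfl⟩ | ⟨m, hm, rfl⟩) <;> simpa using hm
  · intro h
    rcases Int.natAbs_eq n with e | e
    · exact Or.inl ⟨_, h, e.symm⟩
    · exact Or.inr ⟨_, h, e.symm⟩

lemma neg_mem_sym {I : Finset ℕ} (n : ℤ) (h : n ∈ sym I) : -n ∈ sym I := by
  rw [mem_sym] at h ⊢; simpa using h

lemma sum_sym {M : Type*} [AddCommMonoid M] {I : Finset ℕ} (h0 : 0 ∉ I) (F : ℤ → M) :
    ∑ n ∈ sym I, F n = ∑ m ∈ I, (F m + F (-(m : ℤ))) := by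
  unfold sym
  rw [sum_union, sum_image, sum_image, sum_add_distrib]
  · intro a _ b _ h; simpa using h
  · intro a _ b _ h; simpa using h
  · rw [Finset.disjoint_left]
    intro n h1 h2
    simp only [Finset.mem_image] at h1 h2
    obtain ⟨a, ha, rfl⟩ := h1
    obtain ⟨b, hb, e⟩ := h2
    have : a = 0 := by omega
    exact h0 (this ▸ ha)

/-- two-sided coefficients -/
noncomputable def chat (c : ℕ → ℂ) (n : ℤ) : ℂ :=
  if 0 ≤ n then c n.natAbs else conj (c n.natAbs)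

@[simp] lemma chat_nat (c : ℕ → ℂ) (m : ℕ) : chat c m = c m := by simp [chat]

lemma chat_neg_nat (c : ℕ → ℂ) {m : ℕ} (hm : m ≠ 0) : chat c (-(m : ℤ)) = conj (c m) := by
  unfold chat
  rw [if_neg (by omega)]; simp

lemma chat_neg (c : ℕ → ℂ) {n : ℤ} (hn : n ≠ 0) : chat c (-n) = conj (chat c n) := by
  unfold chat
  by_cases h : 0 ≤ n
  · rw [if_pos h, if_neg (by omega)]; simp
  · rw [if_neg h, if_pos (by omega)]; simp

lemma chat_neg_sym (c : ℕ → ℂ) {I : Finset ℕ} (h0 : 0 ∉ I) (n : ℤ) (hn : n ∈ sym I) :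
    chat c (-n) = conj (chat c n) := by
  apply chat_neg
  rintro rfl
  exact h0 (by simpa only [mem_sym, Int.natAbs_zero] using hn)

/-- the real trigonometric polynomial -/
noncomputable def TP (I : Finset ℕ) (c : ℕ → ℂ) (x : ℝ) : ℝ :=
  ∑ n ∈ I, 2 * (c n * cexp (2 * Real.pi * Complex.I * n * x)).re

lemma continuous_TP (I : Finset ℕ) (c : ℕ → ℂ) : Continuous (TP I c) := by
  unfold TP; fun_prop

lemma TP_eq {I : Finset ℕ} (h0 : 0 ∉ I) (c : ℕ → ℂ) (x : ℝ) :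
    (TP I c x : ℂ) = ∑ n ∈ sym I, chat c n * cexp (2 * Real.pi * Complex.I * n * x) := by
  rw [sum_sym h0, TP, Complex.ofReal_sum]
  refine sum_congr rfl fun m hm => ?_
  have hm0 : m ≠ 0 := fun e => h0 (e ▸ hm)
  rw [chat_nat, chat_neg_nat c hm0, ← Complex.add_conj, map_mul, ← Complex.exp_conj]
  congr 2
  simp [Complex.conj_ofReal, map_ofNat]

/-- `int P^4` as a sum over resonant quadruples -/
theorem int_TP4 {I : Finset ℕ} (h0 : 0 ∉ I) (c : ℕ → ℂ) :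
    ((∫ x in (0 : ℝ)..1, TP I c x ^ 4 : ℝ) : ℂ) = Q4 (sym I) (chat c) (fun _ _ _ => 1) := by
  rw [← int_sum4, ← intervalIntegral.integral_ofReal]
  refine intervalIntegral.integral_congr fun x _ => ?_
  simp only [Complex.ofReal_pow, TP_eq h0]

lemma beta_zero {I : Finset ℕ} (h0 : 0 ∉ I) (c : ℕ → ℂ) :
    beta (sym I) (chat c) 0 = ((2 * ∑ n ∈ I, ‖c n‖ ^ 2 : ℝ) : ℂ) := by
  have e : ∀ n ∈ sym I, xl (sym I) (chat c) 0 n = chat c n * chat c (-n) := by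
    intro n hn
    unfold xl
    rw [sum_eq_single_of_mem (-n) (neg_mem_sym n hn) (fun b _ hb => if_neg (by omega)),
      if_pos (by ring)]
  rw [beta, sum_congr rfl e, sum_sym h0]
  push_cast
  rw [mul_sum]
  refine sum_congr rfl fun m hm => ?_
  have hm0 : m ≠ 0 := fun e => h0 (e ▸ hm)
  rw [neg_neg, chat_nat, chat_neg_nat c hm0, mul_comm (conj (c m)), Complex.mul_conj']; ring

/-- Parseval -/
theorem int_TP2 {I : Finset ℕ} (h0 : 0 ∉ I) (c : ℕ → ℂ) :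
    ∫ x in (0 : ℝ)..1, TP I c x ^ 2 = 2 * ∑ n ∈ I, ‖c n‖ ^ 2 := by
  apply Complex.ofReal_injective
  rw [← beta_zero h0, ← int_sum2, ← intervalIntegral.integral_ofReal]
  refine intervalIntegral.integral_congr fun x _ => ?_
  simp only [Complex.ofReal_pow, TP_eq h0]

lemma abs_TP_le (I : Finset ℕ) (c : ℕ → ℂ) (x : ℝ) : |TP I c x| ≤ 2 * ∑ n ∈ I, ‖c n‖ := by
  rw [TP, mul_sum]
  refine (abs_sum_le_sum_abs _ _).trans (sum_le_sum fun n _ => ?_)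
  rw [abs_mul, abs_two]
  have h1 : ‖cexp (2 * Real.pi * Complex.I * n * x)‖ = 1 := by
    have : (2 * Real.pi * Complex.I * n * x : ℂ) = ((2 * Real.pi * n * x : ℝ) : ℂ) * Complex.I := by
      push_cast; ring
    rw [this, Complex.norm_exp_ofReal_mul_I]
  have h2 := Complex.abs_re_le_norm (c n * cexp (2 * Real.pi * Complex.I * n * x))
  rw [norm_mul, h1, mul_one] at h2
  linarith

/-- TRIV -/
theorem triv {I : Finset ℕ} (h0 : 0 ∉ I) (c : ℕ → ℂ) :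
    ∫ x in (0 : ℝ)..1, TP I c x ^ 4 ≤ 8 * I.card * (∑ n ∈ I, ‖c n‖ ^ 2) ^ 2 := by
  have h1 : ∀ x, TP I c x ^ 2 ≤ 4 * (I.card * ∑ n ∈ I, ‖c n‖ ^ 2) := by
    intro x
    have h2 := abs_TP_le I c x
    have h3 : (∑ n ∈ I, ‖c n‖) ^ 2 ≤ I.card * ∑ n ∈ I, ‖c n‖ ^ 2 := sq_sum_le_card_mul_sum_sq
    have h4 : TP I c x ^ 2 ≤ (2 * ∑ n ∈ I, ‖c n‖) ^ 2 := by
      rw [← sq_abs]; exact pow_le_pow_left₀ (abs_nonneg _) h2 2
    linarith only [h3, h4]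
  have hc := continuous_TP I c
  calc ∫ x in (0 : ℝ)..1, TP I c x ^ 4
      ≤ ∫ x in (0 : ℝ)..1, 4 * (I.card * ∑ n ∈ I, ‖c n‖ ^ 2) * TP I c x ^ 2 := by
        refine intervalIntegral.integral_mono_on zero_le_one
          (Continuous.intervalIntegrable (by fun_prop) _ _)
          (Continuous.intervalIntegrable (by fun_prop) _ _) fun x _ => ?_
        have : TP I c x ^ 4 = TP I c x ^ 2 * TP I c x ^ 2 := by ring
        rw [this]
        exact mul_le_mul_of_nonneg_right (h1 x) (sq_nonneg _)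
    _ = _ := by rw [intervalIntegral.integral_const_mul, int_TP2 h0]; ring

lemma beta_pos {I : Finset ℕ} {N : ℕ} (hI : ∀ n ∈ I, N ≤ n) (c : ℕ → ℂ) {l : ℕ} (hl : 0 < l)
    (hlN : l < 2 * N) :
    beta (sym I) (chat c) l = 2 * ∑ m ∈ I.filter (fun m => m + l ∈ I), c (m + l) * conj (c m) := by
  have h0 : 0 ∉ I := fun h => by have := hI 0 h; omega
  have e1 : ∀ a ∈ I, ∀ b ∈ I,
      ((if (a : ℤ) + b = l then chat c a * chat c b else 0)
        + (if (a : ℤ) + -(b : ℤ) = l then chat c a * chat c (-(b : ℤ)) else 0))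
      + ((if -(a : ℤ) + b = l then chat c (-(a : ℤ)) * chat c b else 0)
        + (if -(a : ℤ) + -(b : ℤ) = l then chat c (-(a : ℤ)) * chat c (-(b : ℤ)) else 0))
      = (if a = b + l then c a * conj (c b) else 0) + (if b = a + l then c b * conj (c a) else 0) := by
    intro a ha b hb
    have := hI a ha
    have := hI b hb
    rw [if_neg (show ¬ ((a : ℤ) + b = l) by omega), if_neg (show ¬ (-(a : ℤ) + -(b : ℤ) = l) by omega),
      chat_nat, chat_nat, chat_neg_nat c (show a ≠ 0 by omega), chat_neg_nat c (show b ≠ 0 by omega),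
      zero_add, add_zero]
    congr 1
    · exact if_congr (by omega) rfl rfl
    · exact if_congr (by omega) (mul_comm _ _) rfl
  have e2 : ∑ a ∈ I, ∑ b ∈ I, (if b = a + l then c b * conj (c a) else 0)
      = ∑ m ∈ I.filter (fun m => m + l ∈ I), c (m + l) * conj (c m) := by
    rw [sum_filter]
    refine sum_congr rfl fun a _ => ?_
    rw [sum_ite_eq']
  unfold beta xl
  rw [sum_sym h0]
  simp only [sum_sym h0, ← sum_add_distrib]
  rw [sum_congr rfl fun a ha => sum_congr rfl fun b hb => e1 a ha b hb]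
  simp only [sum_add_distrib]
  rw [sum_comm, e2, two_mul]

lemma beta_neg {J : Finset ℤ} (hJ : ∀ n ∈ J, -n ∈ J) {h : ℤ → ℂ}
    (hh : ∀ n ∈ J, h (-n) = conj (h n)) (l : ℤ) : beta J h (-l) = conj (beta J h l) := by
  unfold beta xl
  rw [sum_neg hJ, map_sum]
  refine sum_congr rfl fun n hn => ?_
  rw [sum_neg hJ, map_sum]
  refine sum_congr rfl fun m hm => ?_
  rw [hh n hn, hh m hm]
  by_cases e : n + m = l
  · rw [if_pos e, if_pos (by omega), map_mul]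
  · rw [if_neg e, if_neg (by omega), map_zero]

lemma sum_Ioo_symm {H : ℕ} (hH : 0 < H) (F : ℤ → ℝ) (hF : ∀ l, F (-l) = F l) :
    ∑ l ∈ Finset.Ioo (-(H : ℤ)) H, F l = F 0 + 2 * ∑ l ∈ Finset.Ioo 0 H, F (l : ℕ) := by
  have e : Finset.Ioo (-(H : ℤ)) H = insert 0 (sym (Finset.Ioo 0 H)) := by
    ext n
    simp only [Finset.mem_insert, mem_sym, Finset.mem_Ioo]
    omega
  rw [e, sum_insert (by simp only [mem_sym, Int.natAbs_zero, Finset.mem_Ioo, lt_self_iff_false, false_and, not_false_eq_true]), sum_sym (by simp only [Finset.mem_Ioo, lt_self_iff_false, false_and, not_false_eq_true]), mul_sum]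
  congr 1
  refine sum_congr rfl fun l _ => ?_
  rw [hF]; ring

/-- FEJ -/
theorem fej {I : Finset ℕ} {H N : ℕ} (hH : 0 < H) (hN : 3 * H ≤ 2 * N) (hI : ∀ n ∈ I, N ≤ n)
    (c : ℕ → ℂ) :
    ∫ x in (0 : ℝ)..1, TP I c x ^ 4 ≤ 3 * (2 * ∑ n ∈ I, ‖c n‖ ^ 2) ^ 2
      + 6 * ∑ l ∈ Finset.Ioo 0 H, ‖2 * ∑ m ∈ I.filter (fun m => m + l ∈ I), c (m + l) * conj (c m)‖ ^ 2
      + (Q4 (sym I) (chat c) (fun u v w => wt H u * wt H v * wt H w)).re := by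
  have h0 : 0 ∉ I := fun h => by have := hI 0 h; omega
  have h1 := Q4_fej hH hN (J := sym I) neg_mem_sym
    (fun n hn => by have := hI _ (mem_sym.1 hn); rw [Int.abs_eq_natAbs]; exact_mod_cast this)
    (chat_neg_sym c h0)
  rw [← int_TP4 h0, Complex.ofReal_re, sum_Ioo_symm hH _
    (fun l => by rw [beta_neg neg_mem_sym (chat_neg_sym c h0), Complex.norm_conj]),
    beta_zero h0, Complex.norm_real, Real.norm_eq_abs, sq_abs] at h1
  have h2 : ∑ l ∈ Finset.Ioo 0 H, ‖beta (sym I) (chat c) (l : ℕ)‖ ^ 2 = ∑ l ∈ Finset.Ioo 0 H,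
      ‖2 * ∑ m ∈ I.filter (fun m => m + l ∈ I), c (m + l) * conj (c m)‖ ^ 2 := by
    refine sum_congr rfl fun l hl => ?_
    rw [Finset.mem_Ioo] at hl
    rw [beta_pos hI c hl.1 (by omega)]
  rw [h2] at h1
  linarith only [h1]

end tra

lemma tra_tp_eq (J : Finset ℕ) (c : ℕ → ℂ) : tp J c = tra.TP J c := by
  funext x
  unfold tp tra.TP ee ci
  refine sum_congr rfl fun n _ => ?_
  congr 4
  push_cast; ring

lemma tra_sx_eq {J : Finset ℕ} (h0 : 0 ∉ J) (c : ℕ → ℂ) (n : ℤ) :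
    sx J c n = if n ∈ tra.sym J then tra.chat c n else 0 := by
  unfold sx tra.chat
  simp only [tra.mem_sym]
  by_cases h : n.natAbs ∈ J
  · have : n ≠ 0 := by
      rintro rfl
      exact h0 (by simpa only [Int.natAbs_zero] using h)
    rw [if_pos h, if_pos h]
    exact if_congr (by omega) rfl rfl
  · rw [if_neg h, if_neg h]

lemma tra_q4_bridge {J : Finset ℕ} {N : ℕ} (h0 : 0 ∉ J) (hN : ∀ n ∈ J, n ≤ N) (c : ℕ → ℂ)
    (w : ℤ → ℤ → ℤ → ℝ) :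
    tra.Q4 (tra.sym J) (tra.chat c) w = ∑ x ∈ Z3 N,
      (w (x.1 + x.2.1) (x.1 + x.2.2) (-(x.2.1 + x.2.2)) : ℂ) * q4 J c x := by
  have ext : ∀ F : ℤ → ℂ, ∑ n ∈ tra.sym J, tra.chat c n * F n
      = ∑ n ∈ Finset.Icc (-(N : ℤ)) N, sx J c n * F n := by
    intro F
    have hsub : tra.sym J ⊆ Finset.Icc (-(N : ℤ)) N := by
      intro n hn
      have := hN _ (tra.mem_sym.1 hn)
      rw [Finset.mem_Icc]; omega
    rw [← sum_subset hsub (fun n _ hn => by rw [tra_sx_eq h0, if_neg hn, zero_mul])]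
    exact sum_congr rfl fun n hn => by rw [tra_sx_eq h0, if_pos hn]
  have e1 : tra.Q4 (tra.sym J) (tra.chat c) w = ∑ n1 ∈ tra.sym J, tra.chat c n1 *
      ∑ n2 ∈ tra.sym J, tra.chat c n2 * ∑ n3 ∈ tra.sym J, tra.chat c n3 *
        ((w (n1 + n2) (n1 + n3) (-(n2 + n3)) : ℂ) * sx J c (-n1 - n2 - n3)) := by
    unfold tra.Q4
    simp only [mul_sum]
    refine sum_congr rfl fun n1 _ => sum_congr rfl fun n2 _ => sum_congr rfl fun n3 _ => ?_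
    have : ∀ n4 : ℤ, (n1 + n2 + n3 + n4 = 0) = (-n1 - n2 - n3 = n4) := fun n4 =>
      propext ⟨fun h => by omega, fun h => by omega⟩
    simp only [this]
    rw [sum_ite_eq, tra_sx_eq h0]
    split_ifs
    · rw [show n1 + (-n1 - n2 - n3) = -(n2 + n3) by ring]; ring
    · simp
  rw [e1, ext]
  simp only [ext]
  unfold Z3 q4
  rw [sum_product]
  refine sum_congr rfl fun n1 _ => ?_
  rw [sum_product, mul_sum]
  refine sum_congr rfl fun n2 _ => ?_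
  rw [mul_sum, mul_sum]
  refine sum_congr rfl fun n3 _ => ?_
  ring

theorem tra_continuous_tp (J : Finset ℕ) (c : ℕ → ℂ) : Continuous (tp J c) := by
  rw [tra_tp_eq]; exact tra.continuous_TP J c

theorem tra_abs_tp_le (J : Finset ℕ) (c : ℕ → ℂ) (x : ℝ) : |tp J c x| ≤ 2 * ∑ n ∈ J, ‖c n‖ := by
  rw [tra_tp_eq]; exact tra.abs_TP_le J c x

theorem tra_int_tp2 {J : Finset ℕ} (h0 : 0 ∉ J) (c : ℕ → ℂ) :
    ∫ x in (0 : ℝ)..1, tp J c x ^ 2 = 2 * ∑ n ∈ J, ‖c n‖ ^ 2 := by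
  rw [tra_tp_eq]; exact tra.int_TP2 h0 c

theorem tra_int_tp4_triv {J : Finset ℕ} (h0 : 0 ∉ J) (c : ℕ → ℂ) :
    ∫ x in (0 : ℝ)..1, tp J c x ^ 4 ≤ 8 * J.card * (∑ n ∈ J, ‖c n‖ ^ 2) ^ 2 := by
  rw [tra_tp_eq]; exact tra.triv h0 c

theorem tra_int_tp4 {J : Finset ℕ} {N : ℕ} (h0 : 0 ∉ J) (hN : ∀ n ∈ J, n ≤ N) (c : ℕ → ℂ) :
    ∫ x in (0 : ℝ)..1, tp J c x ^ 4 = (∑ x ∈ Z3 N, q4 J c x).re := by
  have := tra.int_TP4 h0 c
  rw [tra_q4_bridge h0 hN] at this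
  simp only [Complex.ofReal_one, one_mul] at this
  rw [← this, tra_tp_eq, Complex.ofReal_re]

theorem tra_fej {J : Finset ℕ} {H N N₁ : ℕ} (hH : 0 < H) (hN : 3 * H ≤ 2 * N)
    (hJ : ∀ n ∈ J, N ≤ n ∧ n ≤ N₁) (c : ℕ → ℂ) :
    ∫ x in (0 : ℝ)..1, tp J c x ^ 4 ≤ 3 * (2 * ∑ n ∈ J, ‖c n‖ ^ 2) ^ 2
      + 24 * ∑ l ∈ Finset.Ioo 0 H, ‖bt J c l‖ ^ 2
      + (∑ x ∈ Z3 N₁, (w3 H x : ℂ) * q4 J c x).re := by
  have h0 : 0 ∉ J := fun h => by have := (hJ 0 h).1; omega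
  have h1 := tra.fej hH hN (fun n hn => (hJ n hn).1) c
  rw [tra_q4_bridge h0 (fun n hn => (hJ n hn).2), ← tra_tp_eq] at h1
  have e1 : ∀ x : ℤ × ℤ × ℤ, tra.wt H (x.1 + x.2.1) * tra.wt H (x.1 + x.2.2)
      * tra.wt H (-(x.2.1 + x.2.2)) = w3 H x := by
    intro x
    unfold w3 wt tra.wt
    push_cast
    rw [abs_neg]
  simp only [e1] at h1
  have e2 : ∑ l ∈ Finset.Ioo 0 H,
      ‖2 * ∑ m ∈ J.filter (fun m => m + l ∈ J), c (m + l) * conj (c m)‖ ^ 2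
      = 4 * ∑ l ∈ Finset.Ioo 0 H, ‖bt J c l‖ ^ 2 := by
    rw [mul_sum]
    refine sum_congr rfl fun l _ => ?_
    rw [norm_mul, mul_pow]
    unfold bt sh
    norm_num
  rw [e2] at h1
  linarith only [h1]

/-- the block identity of P6 -/
theorem tra_blk_id {J : Finset ℕ} {L N : ℕ} (hL : 0 < L) (hJ : ∀ n ∈ J, n ≤ N) (x : ℕ → ℂ) :
    ‖∑ m ∈ J, x m‖ ^ 2 = 1 / (L : ℝ) * ∑ s ∈ Finset.range (N + L), ‖∑ m ∈ blk J L s, x m‖ ^ 2
      + (∑ m ∈ J, ∑ m' ∈ J, (wt L ((m : ℝ) - m') : ℂ) * (x m * conj (x m'))).re := by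
  have h2 : (0 : ℝ) < L := by exact_mod_cast hL
  have cnt : ∀ m ∈ J, ∀ m' ∈ J, (1 : ℝ) = 1 / (L : ℝ) * ∑ s ∈ Finset.range (N + L),
      ((if m ≤ s ∧ s < m + L then (1 : ℝ) else 0) * (if m' ≤ s ∧ s < m' + L then (1 : ℝ) else 0))
      + wt L ((m : ℝ) - m') := by
    intro m hm m' hm'
    have := hJ m hm
    have := hJ m' hm'
    have e : ∀ s ∈ Finset.range (N + L),
        ((if m ≤ s ∧ s < m + L then (1 : ℝ) else 0) * (if m' ≤ s ∧ s < m' + L then (1 : ℝ) else 0))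
        = if s ∈ Finset.Ico (max m m') (min m m' + L) then (1 : ℝ) else 0 := by
      intro s _
      by_cases h : s ∈ Finset.Ico (max m m') (min m m' + L)
      · rw [if_pos h]
        rw [Finset.mem_Ico] at h
        rw [if_pos (by omega), if_pos (by omega)]; ring
      · rw [if_neg h]
        rw [Finset.mem_Ico] at h
        by_cases h1 : m ≤ s ∧ s < m + L
        · rw [if_neg (show ¬ (m' ≤ s ∧ s < m' + L) by omega)]; ring
        · rw [if_neg h1]; ring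
    have e' : Finset.range (N + L) ∩ Finset.Ico (max m m') (min m m' + L)
        = Finset.Ico (max m m') (min m m' + L) := by
      ext s
      simp only [Finset.mem_inter, Finset.mem_range, Finset.mem_Ico]
      omega
    rw [sum_congr rfl e, sum_ite_mem, sum_const, nsmul_eq_mul, mul_one, e', Nat.card_Ico]
    have habs : |(m : ℝ) - m'| = ((max m m' - min m m' : ℕ) : ℝ) := by
      rcases le_total m m' with h | h
      · have h' : (m : ℝ) ≤ m' := by exact_mod_cast h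
        rw [max_eq_right h, min_eq_left h, Nat.cast_sub h, abs_of_nonpos (by linarith only [h'])]; ring
      · have h' : (m' : ℝ) ≤ m := by exact_mod_cast h
        rw [max_eq_left h, min_eq_right h, Nat.cast_sub h, abs_of_nonneg (by linarith only [h'])]
    unfold wt
    rw [habs]
    generalize hk : max m m' - min m m' = k
    have hk2 : min m m' + L - max m m' = L - k := by omega
    rw [hk2]
    rcases le_total k L with h | h
    · have h' : (k : ℝ) ≤ L := by exact_mod_cast h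
      rw [Nat.cast_sub h, min_eq_right ((div_le_one h2).2 h')]
      field_simp
      ring
    · have h' : (L : ℝ) ≤ k := by exact_mod_cast h
      rw [Nat.sub_eq_zero_of_le h, min_eq_left ((one_le_div h2).2 h')]
      simp
  have e : ∀ s : ℕ, ‖∑ m ∈ blk J L s, x m‖ ^ 2 = ∑ m ∈ J, ∑ m' ∈ J,
      ((if m ≤ s ∧ s < m + L then (1 : ℝ) else 0) * (if m' ≤ s ∧ s < m' + L then (1 : ℝ) else 0))
        * (x m * conj (x m')).re := by
    intro s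
    rw [← Complex.ofReal_re (‖_‖ ^ 2), Complex.ofReal_pow, ← Complex.mul_conj', map_sum, blk,
      sum_filter, sum_filter, sum_mul_sum, re_sum]
    refine sum_congr rfl fun n _ => ?_
    rw [re_sum]
    refine sum_congr rfl fun n' _ => ?_
    split_ifs <;> simp
  rw [← Complex.ofReal_re (‖∑ m ∈ J, x m‖ ^ 2), Complex.ofReal_pow, ← Complex.mul_conj', map_sum,
    sum_mul_sum, sum_congr rfl fun s _ => e s, re_sum, re_sum]
  conv_rhs => rw [sum_comm, mul_sum, ← sum_add_distrib]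
  refine sum_congr rfl fun m hm => ?_
  rw [re_sum, re_sum]
  conv_rhs => rw [sum_comm, mul_sum, ← sum_add_distrib]
  refine sum_congr rfl fun m' hm' => ?_
  rw [Complex.re_ofReal_mul, ← sum_mul, ← mul_assoc, ← add_mul, ← cnt m hm m' hm', one_mul]

end

/-- TRA. -/
theorem int_ee (n : ℤ) : ∫ x in (0 : ℝ)..1, ee (n * x) = if n = 0 then 1 else 0 := by
  rw [← tra.int_e n]
  refine intervalIntegral.integral_congr fun x _ => ?_
  simp only [ee, ci]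
  congr 1
  push_cast; ring

theorem continuous_tp (J : Finset ℕ) (c : ℕ → ℂ) : Continuous (tp J c) :=
  continuous_finsetSum _ fun n _ => continuous_const.mul (continuous_re.comp
    (continuous_const.mul (continuous_ee.comp (continuous_const.mul continuous_id))))

/-- TRA. -/
theorem continuous_tp₂ (J : Finset ℕ) {c : ℝ → ℕ → ℂ} (h : ∀ n ∈ J, Continuous fun r => c r n) :
    Continuous fun p : ℝ × ℝ => tp J (c p.1) p.2 := by
  unfold tp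
  refine continuous_finsetSum _ fun n hn => continuous_const.mul (continuous_re.comp ?_)
  exact ((h n hn).comp continuous_fst).mul
    (continuous_ee.comp (continuous_const.mul continuous_snd))

/-- TRA. -/
theorem tp_eq {N : ℕ} (hJ : ∀ n ∈ J, 1 ≤ n ∧ n ≤ N) (x : ℝ) :
    (tp J c x : ℂ) = ∑ n ∈ Finset.Icc (-(N : ℤ)) N, sx J c n * ee (n * x) := by
  have h0 : 0 ∉ J := fun h => by have := (hJ 0 h).1; omega
  have hsub : tra.sym J ⊆ Finset.Icc (-(N : ℤ)) N := by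
    intro n hn
    have := (hJ _ (tra.mem_sym.1 hn)).2
    rw [Finset.mem_Icc]; omega
  rw [tra_tp_eq, tra.TP_eq h0,
    ← Finset.sum_subset hsub (fun n _ hn => by rw [tra_sx_eq h0, if_neg hn, zero_mul])]
  refine Finset.sum_congr rfl fun n hn => ?_
  rw [tra_sx_eq h0, if_pos hn]
  simp only [ee, ci]
  congr 2
  push_cast; ring

/-- TRA. -/
theorem sx_neg (hJ : ∀ n ∈ J, 1 ≤ n) (n : ℤ) : sx J c (-n) = conj (sx J c n) := by
  have h0 : 0 ∉ J := fun h => by have := hJ 0 h; omega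
  rw [tra_sx_eq h0, tra_sx_eq h0]
  by_cases hn : n ∈ tra.sym J
  · rw [if_pos hn, if_pos (tra.neg_mem_sym n hn), tra.chat_neg_sym c h0 n hn]
  · rw [if_neg hn, if_neg (fun h => hn (by simpa using tra.neg_mem_sym _ h)), map_zero]

/-- TRA.  Orthogonality. -/
theorem int_sq {K : Finset ℤ} (a : ℤ → ℂ) :
    ∫ x in (0 : ℝ)..1, ‖∑ n ∈ K, a n * ee (n * x)‖ ^ 2 = ∑ n ∈ K, ‖a n‖ ^ 2 := by
  apply Complex.ofReal_injective
  have e : ∀ x : ℝ, ((‖∑ n ∈ K, a n * ee (n * x)‖ ^ 2 : ℝ) : ℂ)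
      = ∑ n ∈ K, ∑ m ∈ K, (a n * conj (a m)) * ee ((n - m : ℤ) * x) := by
    intro x
    rw [Complex.ofReal_pow, ← Complex.mul_conj', map_sum, Finset.sum_mul_sum]
    refine Finset.sum_congr rfl fun n _ => Finset.sum_congr rfl fun m _ => ?_
    rw [map_mul, conj_ee, show ((n - m : ℤ) : ℝ) * x = n * x + -(m * x) by push_cast; ring, ee_add]
    ring
  have hc := continuous_ee
  rw [← intervalIntegral.integral_ofReal]
  simp_rw [e]
  rw [intervalIntegral.integral_finsetSum (fun n _ => Continuous.intervalIntegrable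
    (by fun_prop) _ _), Complex.ofReal_sum]
  refine Finset.sum_congr rfl fun n hn => ?_
  rw [intervalIntegral.integral_finsetSum (fun m _ => Continuous.intervalIntegrable
    (by fun_prop) _ _)]
  simp_rw [intervalIntegral.integral_const_mul, int_ee]
  rw [Finset.sum_eq_single_of_mem n hn (fun m _ hm => by rw [if_neg (by omega), mul_zero]),
    if_pos (sub_self n), mul_one, Complex.mul_conj', Complex.ofReal_pow]

/-- TRA. -/
theorem tp_two (hJ : ∀ n ∈ J, 1 ≤ n) : ∫ x in (0 : ℝ)..1, tp J c x ^ 2 = 2 * ∑ n ∈ J, ‖c n‖ ^ 2 := by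
  exact tra_int_tp2 (fun h => by have := hJ 0 h; omega) c

/-- TRA.  Supremum squared times `tp_two`. -/
theorem tp_triv (hJ : ∀ n ∈ J, 1 ≤ n) :
    ∫ x in (0 : ℝ)..1, tp J c x ^ 4 ≤ 8 * J.card * (∑ n ∈ J, ‖c n‖ ^ 2) ^ 2 := by
  exact tra_int_tp4_triv (fun h => by have := hJ 0 h; omega) c

/-- TRA. -/
theorem tp_four {N : ℕ} (hJ : ∀ n ∈ J, 1 ≤ n ∧ n ≤ N) :
    ∫ x in (0 : ℝ)..1, tp J c x ^ 4 = (∑ x ∈ Z3 N, q4 J c x).re := by
  exact tra_int_tp4 (fun h => by have := (hJ 0 h).1; omega) (fun n hn => (hJ n hn).2) c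

/-- TRB.  `#{s | max m m' ≤ s < min m m' + L} = L - |m - m'|` if this is positive. -/
theorem tent {N L : ℕ} (hL : 1 ≤ L) (hJ : ∀ n ∈ J, n ≤ N) :
    ‖∑ m ∈ J, c m‖ ^ 2 = (∑ s ∈ Finset.range (N + L), ‖∑ m ∈ blk J L s, c m‖ ^ 2) / L +
      (∑ m ∈ J, ∑ m' ∈ J, (wt L (m - m') : ℂ) * (c m * conj (c m'))).re := by
  rw [tra_blk_id hL hJ c]
  ring

/-- TRB.  The tent function is positive definite (shift `tent`, or repeat the count on `ℤ`). -/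
theorem tent_pos {L : ℕ} (hL : 1 ≤ L) (K : Finset ℤ) (a : ℤ → ℂ) :
    0 ≤ (∑ n ∈ K, ∑ n' ∈ K, ((1 - wt L (n - n') : ℝ) : ℂ) * (a n * conj (a n'))).re := by
  have h := tra.tent_psd hL K a
  have e : ∀ n n' : ℤ, tra.tent L (n - n') = 1 - wt L (n - n') := by
    intro n n'
    have := tra.wt_eq L (n - n')
    unfold tra.wt at this
    unfold wt
    push_cast at this
    linarith only [this]
  simpa only [e] using h

/-- TRB. -/
theorem sum_blk (J : Finset ℕ) {N L : ℕ} (hJ : ∀ n ∈ J, n ≤ N) (e : ℕ → ℝ) :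
    ∑ s ∈ Finset.range (N + L), ∑ m ∈ blk J L s, e m = L * ∑ m ∈ J, e m := by
  simp only [blk, Finset.sum_filter]
  rw [Finset.sum_comm, Finset.mul_sum]
  refine Finset.sum_congr rfl fun m hm => ?_
  have := hJ m hm
  rw [← Finset.sum_filter, Finset.sum_const, nsmul_eq_mul]
  have e : (Finset.range (N + L)).filter (fun s => m ≤ s ∧ s < m + L) = Finset.Ico m (m + L) := by
    ext s
    simp only [Finset.mem_filter, Finset.mem_range, Finset.mem_Ico]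
    omega
  rw [e, Nat.card_Ico, Nat.add_sub_cancel_left]

/-- TRB. -/
theorem card_blk (J : Finset ℕ) (L s : ℕ) : (blk J L s).card ≤ L := by
  have : blk J L s ⊆ Finset.Ioc (s - L) s ∪ (if s < L then {0} else ∅) := by
    intro m hm
    simp only [blk, Finset.mem_filter] at hm
    simp only [Finset.mem_union, Finset.mem_Ioc]
    split_ifs with h
    · simp only [Finset.mem_singleton]; omega
    · left; omega
  refine (Finset.card_le_card this).trans ((Finset.card_union_le _ _).trans ?_)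
  rw [Nat.card_Ioc]
  split_ifs with h
  · rw [Finset.card_singleton]; omega
  · rw [Finset.card_empty]; omega

/-- TRC.  The sum with the weight `1 - wt H (x₁ + x₂)`. -/
theorem fej_one {N₁ N H : ℕ} (hH : 1 ≤ H) (hN : H ≤ 2 * N) (hN1 : 1 ≤ N)
    (hJ : ∀ n ∈ J, N ≤ n ∧ n ≤ N₁) :
    (∑ x ∈ Z3 N₁, ((1 - wt H (x.1 + x.2.1) : ℝ) : ℂ) * q4 J c x).re ≤
      4 * (∑ n ∈ J, ‖c n‖ ^ 2) ^ 2 + 8 * ∑ l ∈ Finset.Ico 1 H, ‖bt J c l‖ ^ 2 := by
  have h0 : 0 ∉ J := fun h => by have := (hJ 0 h).1; omega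
  have h1 := tra.Q4_a hH (J := tra.sym J) tra.neg_mem_sym (tra.chat_neg_sym c h0)
  rw [tra_q4_bridge h0 (fun n hn => (hJ n hn).2), tra.sum_Ioo_symm hH _
    (fun l => by rw [tra.beta_neg tra.neg_mem_sym (tra.chat_neg_sym c h0), Complex.norm_conj]),
    tra.beta_zero h0, Complex.norm_real, Real.norm_eq_abs, sq_abs] at h1
  have e : ∀ n n' : ℤ, tra.tent H (n + n') = 1 - wt H (n + n') := by
    intro n n'
    have := tra.wt_eq H (n + n')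
    unfold tra.wt at this
    unfold wt
    push_cast at this
    linarith only [this]
  have h2 : ∑ l ∈ Finset.Ioo 0 H, ‖tra.beta (tra.sym J) (tra.chat c) (l : ℕ)‖ ^ 2
      = 4 * ∑ l ∈ Finset.Ico 1 H, ‖bt J c l‖ ^ 2 := by
    rw [Finset.mul_sum]
    refine Finset.sum_congr (by ext l; simp only [Finset.mem_Ioo, Finset.mem_Ico]; omega)
      fun l hl => ?_
    rw [Finset.mem_Ico] at hl
    rw [tra.beta_pos (fun n hn => (hJ n hn).1) c hl.1 (by omega), norm_mul, mul_pow]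
    unfold bt sh
    norm_num
  simp only [e] at h1
  rw [h2] at h1
  linarith only [h1]

/-- TRC.  Fix `l = x₁ + x₂` and apply `tent_pos` to `n ↦ sx n * sx (l - n)`, `n' = - x₃`. -/
theorem fej_two {N₁ H : ℕ} (hH : 1 ≤ H) (hJ : ∀ n ∈ J, 1 ≤ n ∧ n ≤ N₁) :
    0 ≤ (∑ x ∈ Z3 N₁,
      (((1 - wt H (x.1 + x.2.1)) * (1 - wt H (x.1 + x.2.2)) : ℝ) : ℂ) * q4 J c x).re := by
  have h0 : 0 ∉ J := fun h => by have := (hJ 0 h).1; omega
  have h1 := tra.Q4_ab hH (J := tra.sym J) tra.neg_mem_sym (tra.chat_neg_sym c h0)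
  rw [tra_q4_bridge h0 (fun n hn => (hJ n hn).2)] at h1
  have e : ∀ n n' : ℤ, tra.tent H (n + n') = 1 - wt H (n + n') := by
    intro n n'
    have := tra.wt_eq H (n + n')
    unfold tra.wt at this
    unfold wt
    push_cast at this
    linarith only [this]
  simpa only [e] using h1

/-- TRD.  Paper 6.  The sums are symmetric under permutations of the three coordinates, and `q4`
vanishes unless all four indices have modulus in `J`. -/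
theorem fej {N₁ N H : ℕ} (hH : 1 ≤ H) (hN : 3 * H ≤ 2 * N) (hJ : ∀ n ∈ J, N ≤ n ∧ n ≤ N₁) :
    ∫ x in (0 : ℝ)..1, tp J c x ^ 4 ≤ 12 * (∑ n ∈ J, ‖c n‖ ^ 2) ^ 2 +
      24 * ∑ l ∈ Finset.Ico 1 H, ‖bt J c l‖ ^ 2 +
      (∑ x ∈ Z3 N₁, (w3 H x : ℂ) * q4 J c x).re := by
  have h1 := tra_fej hH hN hJ c
  have e : Finset.Ioo 0 H = Finset.Ico 1 H := by
    ext l; simp only [Finset.mem_Ioo, Finset.mem_Ico]; omega
  rw [e] at h1
  linarith only [h1]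

end Trig

end Pool.Agent.MP_a28cf0_nt.D4
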