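import Pool.Agent.MP_a28cf0_nt.D4.Wkb
import Pool.Agent.MP_a28cf0_nt.D4.Geo
import Pool.Agent.MP_a28cf0_nt.Mg.Dec_Erg

attribute [-instance] AddQuantale.instAddLeftMono IdemSemiring.toCanonicallyOrderedAdd
  IsScalarTower.complexToReal
  TopologicalSpace.instSecondCountableTopologyOfLindelofSpaceOfPseudoMetrizableSpace RKHS.instFunLike
  LeftPreLieAlgebra.toModule RightPreLieAlgebra.toModule LieRinehartAlgebra.toIsScalarTower
  NumberField.to_charZero instPolishSpaceOfSeparableSpaceOfIsCompletelyMetrizableSpace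
  LinearOrderedCommMonoidWithZero.toPosMulStrictMono ProperSMul.toContinuousSMul
  AddQuantale.instAddRightMono GrpTypeEquivalenceGrp.grpGroup instCoeTOfCoeDep
  NonarchimedeanRing.toIsTopologicalRing Valued.toUniformSpace
  Action.FintypeCat.instMulActionObjFiniteOf TotallySeparatedSpace.t2Space
  IsTopologicalTorsor.toContinuousSMul Quantale.instMulRightMono
  Topology.IsScott.instClosedIicTopologyOfUnivSet CompactSpace.sigmaCompact instCoeOTCOfCoeOut
  ENNReal.instTopologicalSpace IdemSemiring.toMulLeftMono instCoeHTCOfCoeHeadOfCoeOTC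
  AlgHom.instNonUnitalAlgHomClassOfAlgHomClass Valued.isTopologicalDivisionRing
  Quantale.instMulLeftMono CStarAlgebra.instOrderClosedTopology instCoeHTCTOfCoeTailOfCoeHTC
  LieAdmissibleRing.toNonUnitalNonAssocRing MonTypeEquivalenceMon.monMonoid
  TestFunctionClass.toDFunLike AlexandrovDiscrete.toLocallyCompactSpace
  ContDiffMapSupportedInClass.toDFunLike Group.IsPerfect.subsingleton_of_isMulCommutative
  LinearOrderedCommMonoidWithZero.toIsBotZeroClass instCoeTCOfCoe DivisionRing.toRing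
  MeasureTheory.instSFiniteOfCountable IsOrderedCancelMonoid.toIsOrderedMonoid
  DiscreteMeasurableSpace.toMeasurableDiv instCoeHTCT
  instNonUnitalAlgHomClassOfNonUnitalAlgEquivClass Torsor.toMulAction instCoeHTC instCoeTC instCoeOTC
  Unique.instSubsingleton littleWedderburn LieAdmissibleAlgebra.toSMulCommClass
  CommMonTypeEquivalenceCommMon.commMonCommMonoid continuousSub_of_discreteTopology
  Invertible.toNeZero CanonicallyOrderedAdd.toMulLeftMono RightPreLieAlgebra.toSMulCommClass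
  LeftPreLieAlgebra.toSMulCommClass UpgradedStandardBorel.toTopologicalSpace
  RightPreLieRing.toNonUnitalNonAssocRing NormedRing.toRing
  LinearOrderedCommMonoidWithZero.toIsOrderedMonoid IdemSemiring.toMulRightMono instIsModuleTopology
  LeftPreLieRing.toNonUnitalNonAssocRing LieAdmissibleAlgebra.toIsScalarTower
  AddCommGroupWithOne.toAddGroupWithOne DiscreteMeasurableSpace.toMeasurableMul
  PolishSpace.toSecondCountableTopology

/-!
Fourier coefficients of Hecke-Maass cusp forms and the large sieve.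
-/

set_option autoImplicit false
set_option linter.unusedVariables false

namespace Pool.Agent.MP_a28cf0_nt.D4

open MeasureTheory Complex Set
open scoped ComplexConjugate ENNReal MatrixGroups
open Pool.Agent.MP_a28cf0_nt.Cub Pool.Agent.MP_a28cf0_nt.Dec

/-- Fourier coefficients -/
noncomputable def fc (f : ℂ → ℝ) (n : ℤ) (y : ℝ) : ℂ :=
  ∫ x in (0 : ℝ)..1, (f ((x : ℂ) + (y : ℂ) * I) : ℂ) * ee (-(n * x))

def Hecke (f : ℂ → ℝ) : Prop :=
  ∀ m : ℕ, 0 < m → ∃ c : ℝ, ∀ z : ℂ, 0 < z.im →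
    ∑ d ∈ m.divisors, ∑ b ∈ Finset.range d,
      f ((((m / d : ℕ) : ℂ) * z + (b : ℂ)) / (d : ℂ)) = c * f z

/-- the data attached to a form -/
structure Dat (k t : ℝ) (f : ℂ → ℝ) (lam : ℕ → ℝ) (b : ℝ → ℂ) (Cp Cm : ℂ) : Prop where
  hk : Hk lam
  wkb : Wkb k t b Cp Cm
  coef : ∀ n : ℕ, 1 ≤ n → ∀ y : ℝ, 0 < y → fc f n y =
    ((lam n * √(y / t) : ℝ) : ℂ) * b (Real.log (2 * Real.pi * y / t) + Real.log n)
  sum : ∀ x y : ℝ, 0 < y → HasSum (fun n : ℕ => 2 * ((lam n : ℂ) *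
    b (Real.log (2 * Real.pi * y / t) + Real.log n) * ee (n * x)).re)
      (f ((x : ℂ) + (y : ℂ) * I) / √(y / t))

/-- orthogonal families in a window -/
structure Win {ι : Type} (s : Finset ι) (f : ι → ℂ → ℝ) (t : ι → ℝ) (T M : ℝ) : Prop
    extends Ort s f t where
  cusp : ∀ j ∈ s, Cusp (f j)
  hecke : ∀ j ∈ s, Hecke (f j)
  t1 : ∀ j ∈ s, T ≤ t j
  t2 : ∀ j ∈ s, t j ≤ T + M

theorem hka_slice {F : ℝ → ℝ → ℂ}
    (hF : ContinuousOn (fun p : ℝ × ℝ => F p.1 p.2) (univ ×ˢ Ioi 0)) {y : ℝ} (hy : 0 < y) :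
    Continuous fun x => F x y :=
  hF.comp_continuous (f := fun x : ℝ => (x, y)) (by fun_prop) fun _ => ⟨trivial, hy⟩

theorem hka_deriv {F F' : ℝ → ℝ → ℂ}
    (hF : ContinuousOn (fun p : ℝ × ℝ => F p.1 p.2) (univ ×ˢ Ioi 0))
    (hF' : ContinuousOn (fun p : ℝ × ℝ => F' p.1 p.2) (univ ×ˢ Ioi 0))
    (hd : ∀ x y, 0 < y → HasDerivAt (F x) (F' x y) y) (a b : ℝ) {y : ℝ} (hy : 0 < y) :
    HasDerivAt (fun y => ∫ x in a..b, F x y) (∫ x in a..b, F' x y) y := by
  have hsub : uIcc a b ×ˢ Icc (y / 2) (2 * y) ⊆ univ ×ˢ Ioi 0 :=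
    prod_mono (subset_univ _) fun u hu => lt_of_lt_of_le (by positivity) hu.1
  obtain ⟨C, hC⟩ := (isCompact_uIcc.prod isCompact_Icc).exists_bound_of_continuousOn
    (hF'.mono hsub)
  refine (intervalIntegral.hasDerivAt_integral_of_dominated_loc_of_deriv_le
    (F := fun y x => F x y) (F' := fun y x => F' x y) (bound := fun _ => C)
    (s := Icc (y / 2) (2 * y)) (Icc_mem_nhds (by linarith) (by linarith)) ?_
    ((hka_slice hF hy).intervalIntegrable a b) (hka_slice hF' hy).aestronglyMeasurable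
    (ae_of_all _ fun x hx u hu => hC (x, u) ⟨uIoc_subset_uIcc hx, hu⟩)
    intervalIntegrable_const
    (ae_of_all _ fun x _ u hu => hd x u (lt_of_lt_of_le (by positivity) hu.1))).2
  filter_upwards [lt_mem_nhds hy] with u hu using (hka_slice hF hu).aestronglyMeasurable

theorem hka_ee (n x : ℝ) : HasDerivAt (fun x : ℝ => ee (-(n * x)))
    (ee (-(n * x)) * (I * ((-(2 * Real.pi * n) : ℝ) : ℂ))) x := by
  have h1 : HasDerivAt (fun x : ℝ => 2 * Real.pi * (-(n * x))) (-(2 * Real.pi * n)) x := by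
    have := (((hasDerivAt_id x).const_mul n).neg).const_mul (2 * Real.pi)
    refine this.congr_deriv ?_
    ring
  have h2 := (hasDerivAt_ci (2 * Real.pi * (-(n * x)))).scomp x h1
  refine h2.congr_deriv ?_
  rw [real_smul, ee]
  ring

theorem hka_strip {u ux uy uxx uyy : ℝ → ℝ → ℝ} {l : ℝ}
    (c0 : ContinuousOn (fun p : ℝ × ℝ => u p.1 p.2) (univ ×ˢ Ioi 0))
    (cy : ContinuousOn (fun p : ℝ × ℝ => uy p.1 p.2) (univ ×ˢ Ioi 0))
    (cxx : ContinuousOn (fun p : ℝ × ℝ => uxx p.1 p.2) (univ ×ˢ Ioi 0))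
    (cyy : ContinuousOn (fun p : ℝ × ℝ => uyy p.1 p.2) (univ ×ˢ Ioi 0))
    (dx : ∀ x y, 0 < y → HasDerivAt (fun x => u x y) (ux x y) x)
    (dxx : ∀ x y, 0 < y → HasDerivAt (fun x => ux x y) (uxx x y) x)
    (dy : ∀ x y, 0 < y → HasDerivAt (u x) (uy x y) y)
    (dyy : ∀ x y, 0 < y → HasDerivAt (uy x) (uyy x y) y)
    (eq : ∀ x y, 0 < y → -(y ^ 2) * (uxx x y + uyy x y) = l * u x y)
    (per : ∀ x y, 0 < y → u (x + 1) y = u x y) (n : ℤ) {y : ℝ} (hy : 0 < y) :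
    HasDerivAt (fun y => ∫ x in (0 : ℝ)..1, (u x y : ℂ) * ee (-(n * x)))
      (∫ x in (0 : ℝ)..1, (uy x y : ℂ) * ee (-(n * x))) y ∧
    HasDerivAt (fun y => ∫ x in (0 : ℝ)..1, (uy x y : ℂ) * ee (-(n * x)))
      (((4 * Real.pi ^ 2 * n ^ 2 - l / y ^ 2 : ℝ) : ℂ) *
        ∫ x in (0 : ℝ)..1, (u x y : ℂ) * ee (-(n * x))) y := by
  have ce : Continuous fun x : ℝ => ee (-(n * x)) := continuous_ee.comp (by fun_prop)
  have cc : ∀ {v : ℝ → ℝ → ℝ}, ContinuousOn (fun p : ℝ × ℝ => v p.1 p.2) (univ ×ˢ Ioi 0) →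
      ContinuousOn (fun p : ℝ × ℝ => (v p.1 p.2 : ℂ) * ee (-(n * p.1))) (univ ×ˢ Ioi 0) :=
    fun hv => (continuous_ofReal.comp_continuousOn hv).mul (ce.comp continuous_fst).continuousOn
  refine ⟨hka_deriv (F := fun x y => (u x y : ℂ) * ee (-(n * x)))
    (F' := fun x y => (uy x y : ℂ) * ee (-(n * x))) (cc c0) (cc cy)
    (fun x y hy => (dy x y hy).ofReal_comp.mul_const _) _ _ hy, ?_⟩
  refine (hka_deriv (F := fun x y => (uy x y : ℂ) * ee (-(n * x)))
    (F' := fun x y => (uyy x y : ℂ) * ee (-(n * x))) (cc cy) (cc cyy)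
    (fun x y hy => (dyy x y hy).ofReal_comp.mul_const _) _ _ hy).congr_deriv ?_
  have s0 := hka_slice (F := fun x y => (u x y : ℂ) * ee (-(n * x))) (cc c0) hy
  have sxx := hka_slice (F := fun x y => (uxx x y : ℂ) * ee (-(n * x))) (cc cxx) hy
  have perx : ∀ x, ux (x + 1) y = ux x y := by
    intro x
    have h1 := (dx (x + 1) y hy).comp_add_const x 1
    simp only [per _ y hy] at h1
    exact h1.unique (dx x y hy)
  obtain ⟨w, hw⟩ : ∃ w : ℂ, w = I * ((-(2 * Real.pi * n) : ℝ) : ℂ) := ⟨_, rfl⟩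
  have hw2 : w ^ 2 = -((4 * Real.pi ^ 2 * n ^ 2 : ℝ) : ℂ) := by
    rw [hw, mul_pow, I_sq]
    push_cast
    ring
  have ibp : ∫ x in (0 : ℝ)..1, ((uxx x y : ℂ) * ee (-(n * x)) -
      w ^ 2 * ((u x y : ℂ) * ee (-(n * x)))) = 0 := by
    rw [intervalIntegral.integral_eq_sub_of_hasDerivAt
      (f := fun x => ((ux x y : ℂ) - w * (u x y : ℂ)) * ee (-(n * x))) (fun x _ => ?_)
      ((sxx.intervalIntegrable _ _).sub ((s0.intervalIntegrable _ _).const_mul _))]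
    · have e1 : ee (-((n : ℝ) * 1)) = 1 := by
        have := ee_int (-n)
        rwa [Int.cast_neg, ← mul_one (n : ℝ)] at this
      have e0 : ee (-((n : ℝ) * 0)) = 1 := by
        have := ee_int 0
        rwa [Int.cast_zero, ← neg_zero, ← mul_zero (n : ℝ)] at this
      have p1 := perx 0
      have p2 := per 0 y hy
      rw [zero_add] at p1 p2
      rw [e1, e0, p1, p2, sub_self]
    · have h1 := (((dxx x y hy).ofReal_comp).sub ((dx x y hy).ofReal_comp.const_mul w)).mul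
        (hka_ee n x)
      refine h1.congr_deriv ?_
      rw [← hw]
      simp only [Pi.sub_apply]
      ring
  rw [intervalIntegral.integral_sub (sxx.intervalIntegrable _ _)
    ((s0.intervalIntegrable _ _).const_mul _), intervalIntegral.integral_const_mul,
    sub_eq_zero] at ibp
  have e : ∀ x, (uyy x y : ℂ) * ee (-(n * x)) =
      ((-(l / y ^ 2) : ℝ) : ℂ) * ((u x y : ℂ) * ee (-(n * x))) - (uxx x y : ℂ) * ee (-(n * x)) := by
    intro x
    have h1 : uyy x y = -(l / y ^ 2) * u x y - uxx x y := by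
      have := eq x y hy
      field_simp
      linarith
    rw [h1]
    push_cast
    ring
  simp only [e]
  rw [intervalIntegral.integral_sub ((s0.intervalIntegrable _ _).const_mul _)
    (sxx.intervalIntegrable _ _), intervalIntegral.integral_const_mul, ibp, hw2]
  push_cast
  ring

theorem hka_per {t : ℝ} {f : ℂ → ℝ} (h : Form t f) (x : ℝ) {y : ℝ} (hy : 0 < y) :
    f (((x + 1 : ℝ) : ℂ) + (y : ℂ) * I) = f ((x : ℂ) + (y : ℂ) * I) := by
  rw [← (h.inv ((x : ℂ) + (y : ℂ) * I) (by simpa using hy)).1]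
  congr 1
  push_cast
  ring

/-- HKA.  Differentiate under the integral and integrate by parts twice in `x`; see the proof of
`Dec.tail` (`tail0_deriv`, `tail0_dx`, `tail0_dy`) in Mg/Dec_Erg.lean. -/
theorem fc_ode {t : ℝ} {f : ℂ → ℝ} (h : Form t f) (n : ℤ) : ∃ a₁ : ℝ → ℂ, ∀ y : ℝ, 0 < y →
    HasDerivAt (fc f n) (a₁ y) y ∧ HasDerivAt a₁
      (((4 * Real.pi ^ 2 * n ^ 2 - (1 / 4 + t ^ 2) / y ^ 2 : ℝ) : ℂ) * fc f n y) y := by
  have hU : IsOpen Up := isOpen_lt continuous_const continuous_im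
  have hm : ∀ x y : ℝ, 0 < y → (x : ℂ) + (y : ℂ) * I ∈ Up := fun x y hy => by simpa [Up] using hy
  have cc : ∀ {f : ℂ → ℝ}, ContinuousOn f Up →
      ContinuousOn (fun p : ℝ × ℝ => f ((p.1 : ℂ) + (p.2 : ℂ) * I)) (univ ×ˢ Ioi 0) :=
    fun hf => hf.comp (by fun_prop) fun p hp => hm p.1 p.2 hp.2
  have g1 : ContDiffOn ℝ 1 (fderiv ℝ f) Up := h.c2.fderiv_of_isOpen hU (by norm_num)
  have g2 : ∀ v : ℂ, ContDiffOn ℝ 1 (fun z => fderiv ℝ f z v) Up := fun v =>
    g1.clm_apply contDiffOn_const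
  have g3 : ∀ v : ℂ, ContinuousOn (fun z => fderiv ℝ (fun z => fderiv ℝ f z v) z v) Up := fun v =>
    ((g2 v).continuousOn_fderiv_of_isOpen hU le_rfl).clm_apply continuousOn_const
  have d0 : ∀ z ∈ Up, DifferentiableAt ℝ f z := fun z hz =>
    (h.c2.contDiffAt (hU.mem_nhds hz)).differentiableAt (by norm_num)
  have d1 : ∀ v : ℂ, ∀ z ∈ Up, DifferentiableAt ℝ (fun z => fderiv ℝ f z v) z := fun v z hz =>
    ((g2 v).contDiffAt (hU.mem_nhds hz)).differentiableAt (by norm_num)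
  have e2 : ∀ v : ℂ, ∀ z ∈ Up, iteratedFDeriv ℝ 2 f z ![v, v] =
      fderiv ℝ (fun z => fderiv ℝ f z v) z v := by
    intro v z hz
    rw [iteratedFDeriv_two_apply, fderiv_clm_apply
      ((g1.contDiffAt (hU.mem_nhds hz)).differentiableAt (by norm_num)) (differentiableAt_const _)]
    simp
  refine ⟨fun y => ∫ x in (0 : ℝ)..1,
    ((fderiv ℝ f ((x : ℂ) + (y : ℂ) * I) I : ℝ) : ℂ) * ee (-(n * x)), fun y hy => ?_⟩
  refine hka_strip (u := fun x y => f ((x : ℂ) + (y : ℂ) * I))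
    (ux := fun x y => fderiv ℝ f ((x : ℂ) + (y : ℂ) * I) 1)
    (uy := fun x y => fderiv ℝ f ((x : ℂ) + (y : ℂ) * I) I)
    (uxx := fun x y => fderiv ℝ (fun z => fderiv ℝ f z 1) ((x : ℂ) + (y : ℂ) * I) 1)
    (uyy := fun x y => fderiv ℝ (fun z => fderiv ℝ f z I) ((x : ℂ) + (y : ℂ) * I) I)
    (l := 1 / 4 + t ^ 2) (cc h.c2.continuousOn) (cc (g2 I).continuousOn)
    (cc (g3 1)) (cc (g3 I)) (fun x y hy => tail0_dx (d0 _ (hm x y hy)))
    (fun x y hy => tail0_dx (d1 1 _ (hm x y hy))) (fun x y hy => tail0_dy (d0 _ (hm x y hy)))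
    (fun x y hy => tail0_dy (d1 I _ (hm x y hy))) (fun x y hy => ?_)
    (fun x y hy => hka_per h x hy) n hy
  have := h.eq _ (hm x y hy)
  rw [e2 1 _ (hm x y hy), e2 I _ (hm x y hy)] at this
  simpa only [neg_mul, one_div, add_im, ofReal_im, mul_im, ofReal_re, I_im, mul_one, I_re, mul_zero, add_zero, zero_add] using this

theorem hka_cs {u : ℝ → ℝ} (hu : Continuous u) (n : ℝ) :
    ‖∫ x in (0 : ℝ)..1, (u x : ℂ) * ee (-(n * x))‖ ^ 2 ≤ ∫ x in (0 : ℝ)..1, u x ^ 2 := by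
  obtain ⟨m, hm⟩ : ∃ m : ℝ, m = ∫ x in (0 : ℝ)..1, |u x| := ⟨_, rfl⟩
  have h1 : ‖∫ x in (0 : ℝ)..1, (u x : ℂ) * ee (-(n * x))‖ ≤ m := by
    refine (intervalIntegral.norm_integral_le_integral_norm zero_le_one).trans (le_of_eq ?_)
    simp only [hm, norm_mul, norm_ee, mul_one, norm_real, Real.norm_eq_abs]
  have h2 : ∫ x in (0 : ℝ)..1, (2 * m * |u x| - m ^ 2) ≤ ∫ x in (0 : ℝ)..1, u x ^ 2 :=
    intervalIntegral.integral_mono_on zero_le_one
      (Continuous.intervalIntegrable (by fun_prop) _ _)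
      (Continuous.intervalIntegrable (by fun_prop) _ _) fun x _ => by
        linarith only [sq_nonneg (|u x| - m), sq_abs (u x)]
  rw [intervalIntegral.integral_sub (Continuous.intervalIntegrable (by fun_prop) _ _)
    intervalIntegrable_const, intervalIntegral.integral_const_mul, ← hm,
    intervalIntegral.integral_const] at h2
  have h3 := pow_le_pow_left₀ (norm_nonneg _) h1 2
  simp only [sub_zero, one_smul] at h2
  linarith only [h3, h2]

/-- HKA.  `‖fc‖ ^ 2 ≤ ∫ f ^ 2 dx`, `tail0_fub`, periodicity. -/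
theorem fc_int {t : ℝ} {f : ℂ → ℝ} (h : Form t f) (n : ℤ) :
    IntegrableOn (fun y : ℝ => ‖fc f n y‖ ^ 2 / y ^ 2) (Ioi 1) := by
  have f1 := (tail0_fub (F := fun z => f z ^ 2) h.int (A := Ioi 1) measurableSet_Ioi subset_rfl).1
  obtain ⟨a₁, ha⟩ := fc_ode h n
  have hc : ContinuousOn (fun y : ℝ => ‖fc f n y‖ ^ 2 / y ^ 2) (Ioi 1) := fun y hy => by
    have hy0 : (0 : ℝ) < y := zero_lt_one.trans hy
    exact (((ha y hy0).1.continuousAt.norm.pow 2).div (continuousAt_id.pow 2)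
      (pow_pos hy0 2).ne').continuousWithinAt
  refine Integrable.mono' f1 (hc.aestronglyMeasurable measurableSet_Ioi) ?_
  filter_upwards [ae_restrict_mem measurableSet_Ioi] with y hy
  have hy0 : (0 : ℝ) < y := zero_lt_one.trans hy
  rw [Real.norm_of_nonneg (by positivity)]
  refine div_le_div_of_nonneg_right ?_ (by positivity)
  have hu : Continuous fun x : ℝ => f ((x : ℂ) + (y : ℂ) * I) :=
    h.c2.continuousOn.comp_continuous (by fun_prop) fun x => by simpa [Up] using hy0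
  have hp : Function.Periodic (fun x : ℝ => f ((x : ℂ) + (y : ℂ) * I) ^ 2) 1 := fun x => by
    simp only [hka_per h x hy0]
  rw [hp.intervalIntegral_add_eq (-(1 / 2)) 0, zero_add]
  exact hka_cs hu n

/-- HKA.  `b ρ = √(t / u) * fc f 1 u`, `u = t exp ρ / (2 π)`. -/
theorem exists_sol {t : ℝ} (ht : 0 < t) {f : ℂ → ℝ} (h : Form t f) : ∃ b b₁ : ℝ → ℂ, Sol t b b₁ ∧
    ∀ y : ℝ, 0 < y → fc f 1 y = (√(y / t) : ℝ) * b (Real.log (2 * Real.pi * y / t)) := by
  obtain ⟨a₁, ha⟩ := fc_ode h 1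
  have hπ := Real.pi_pos
  obtain ⟨u, hu⟩ : ∃ u : ℝ → ℝ, u = fun ρ => t / (2 * Real.pi) * Real.exp ρ := ⟨_, rfl⟩
  obtain ⟨g, hg⟩ : ∃ g : ℝ → ℝ, g = fun ρ => √(2 * Real.pi) * Real.exp (-(ρ / 2)) := ⟨_, rfl⟩
  have u0 : ∀ ρ, 0 < u ρ := fun ρ => by rw [hu]; positivity
  have du : ∀ ρ, HasDerivAt u (u ρ) ρ := fun ρ => by
    rw [hu]; exact (Real.hasDerivAt_exp ρ).const_mul _
  have dg : ∀ ρ, HasDerivAt g (-(g ρ / 2)) ρ := fun ρ => by
    rw [hg]
    refine ((((hasDerivAt_id ρ).div_const 2).neg.exp).const_mul _).congr_deriv ?_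
    simp only [id, Pi.neg_apply]
    ring
  have g2 : ∀ ρ, g ρ ^ 2 * u ρ = t := fun ρ => by
    have e : Real.exp (-(ρ / 2)) ^ 2 * Real.exp ρ = 1 := by
      rw [sq, ← Real.exp_add, ← Real.exp_add, ← Real.exp_zero]
      congr 1
      ring
    have e' : √(2 * Real.pi) ^ 2 = 2 * Real.pi := Real.sq_sqrt (by positivity)
    simp only [hg, hu]
    rw [mul_pow, e']
    field_simp
    linarith only [e]
  have d0 : ∀ ρ, HasDerivAt (fun ρ => (g ρ : ℂ) * fc f 1 (u ρ))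
      ((g ρ : ℂ) * ((u ρ : ℂ) * a₁ (u ρ) - fc f 1 (u ρ) / 2)) ρ := fun ρ => by
    refine ((dg ρ).ofReal_comp.mul (((ha _ (u0 ρ)).1).scomp ρ (du ρ))).congr_deriv ?_
    simp only [real_smul, Function.comp_apply]
    push_cast
    ring
  refine ⟨fun ρ => (g ρ : ℂ) * fc f 1 (u ρ),
    fun ρ => (g ρ : ℂ) * ((u ρ : ℂ) * a₁ (u ρ) - fc f 1 (u ρ) / 2), ⟨d0, fun ρ => ?_, ?_⟩,
    fun y hy => ?_⟩
  · refine ((dg ρ).ofReal_comp.mul (((du ρ).ofReal_comp.mul
      (((ha _ (u0 ρ)).2).scomp ρ (du ρ))).sub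
        ((((ha _ (u0 ρ)).1).scomp ρ (du ρ)).div_const 2))).congr_deriv ?_
    have e : t ^ 2 * qq ρ = -(1 / 4 + u ρ * (u ρ *
        (4 * Real.pi ^ 2 * ((1 : ℤ) : ℝ) ^ 2 - (1 / 4 + t ^ 2) / u ρ ^ 2))) := by
      have e1 : Real.exp (2 * ρ) = Real.exp ρ ^ 2 := by rw [sq, ← Real.exp_add, two_mul]
      have e2 : 4 * Real.pi ^ 2 * u ρ ^ 2 = t ^ 2 * Real.exp ρ ^ 2 := by
        rw [hu]; field_simp; norm_num
      have e3 := (u0 ρ).ne'
      have e4 : u ρ * (u ρ * (4 * Real.pi ^ 2 * ((1 : ℤ) : ℝ) ^ 2 - (1 / 4 + t ^ 2) / u ρ ^ 2)) =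
          4 * Real.pi ^ 2 * u ρ ^ 2 - (1 / 4 + t ^ 2) := by
        push_cast
        field_simp
      rw [e4, e2, qq, e1]
      ring
    rw [e]
    simp only [real_smul, Function.comp_apply, Pi.sub_apply, Pi.mul_apply]
    generalize (4 * Real.pi ^ 2 * ((1 : ℤ) : ℝ) ^ 2 - (1 / 4 + t ^ 2) / u ρ ^ 2) = κ
    push_cast
    ring
  · have hc : Continuous fun ρ => ‖(g ρ : ℂ) * fc f 1 (u ρ)‖ ^ 2 :=
      (continuous_iff_continuousAt.2 fun ρ => (d0 ρ).continuousAt).norm.pow 2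
    have hmono : StrictMono u := fun a b hab => by
      rw [hu]
      exact mul_lt_mul_of_pos_left (Real.exp_lt_exp.2 hab) (by positivity)
    have h1 : u (Real.log (2 * Real.pi / t)) = 1 := by
      rw [hu]
      simp only
      rw [Real.exp_log (by positivity)]
      field_simp
    have h2 := ((integrableOn_image_iff_integrableOn_abs_deriv_smul
      (s := Ioi (Real.log (2 * Real.pi / t))) measurableSet_Ioi
      (fun ρ _ => (du ρ).hasDerivWithinAt) hmono.injective.injOn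
      (fun y : ℝ => ‖fc f 1 y‖ ^ 2 / y ^ 2)).1 ((fc_int h 1).mono_set (by
        rintro _ ⟨ρ, hρ, rfl⟩
        rw [mem_Ioi, ← h1]
        exact hmono hρ))).const_mul t
    have h3 : IntegrableOn (fun ρ => ‖(g ρ : ℂ) * fc f 1 (u ρ)‖ ^ 2)
        (Ioi (Real.log (2 * Real.pi / t))) := by
      refine (IntegrableOn.congr_fun h2 (fun ρ _ => ?_) measurableSet_Ioi)
      have e3 := (u0 ρ).ne'
      simp only [smul_eq_mul, abs_of_pos (u0 ρ), norm_mul, norm_real, Real.norm_eq_abs, mul_pow,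
        sq_abs]
      rw [← g2 ρ]
      field_simp
    refine ((hc.continuousOn.integrableOn_compact
      (isCompact_Icc (a := 0) (b := Real.log (2 * Real.pi / t)))).union h3).mono_set fun ρ hρ => ?_
    rcases le_or_gt ρ (Real.log (2 * Real.pi / t)) with h4 | h4
    · exact Or.inl ⟨le_of_lt hρ, h4⟩
    · exact Or.inr h4
  · have h1 : u (Real.log (2 * Real.pi * y / t)) = y := by
      rw [hu]
      simp only
      rw [Real.exp_log (by positivity)]
      field_simp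
    have h2 := g2 (Real.log (2 * Real.pi * y / t))
    have h3 : 0 < g (Real.log (2 * Real.pi * y / t)) := by rw [hg]; positivity
    rw [h1] at h2
    have h4 : √(y / t) * g (Real.log (2 * Real.pi * y / t)) = 1 := by
      generalize g (Real.log (2 * Real.pi * y / t)) = G at h2 h3
      rw [← Real.sqrt_sq h3.le, ← Real.sqrt_mul (by positivity), ← h2,
        show y / (G ^ 2 * y) * G ^ 2 = 1 by field_simp, Real.sqrt_one]
    simp only [h1]
    rw [← mul_assoc, ← ofReal_mul, h4, ofReal_one, one_mul]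

theorem hkb_ibp {v v₁ : ℝ → ℝ} (h : ∀ x, HasDerivAt v (v₁ x) x) (hc : Continuous v₁)
    (hp : v 1 = v 0) (n : ℤ) :
    ∫ s in (0 : ℝ)..1, (v₁ s : ℂ) * ee (-(n * s)) =
      ((2 * Real.pi * n : ℝ) * I) * ∫ s in (0 : ℝ)..1, (v s : ℂ) * ee (-(n * s)) := by
  have hv : Continuous v := continuous_iff_continuousAt.2 fun x => (h x).continuousAt
  have he : Continuous fun s : ℝ => ee (-(n * s)) := continuous_ee.comp (by fun_prop)
  have hd : ∀ s : ℝ, HasDerivAt (fun s : ℝ => ee (-(n * s)))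
      (-((2 * Real.pi * n : ℝ) * I) * ee (-(n * s))) s := fun s => by
    have h1 : HasDerivAt (fun s : ℝ => 2 * Real.pi * -(n * s)) (-(2 * Real.pi * n)) s := by
      simpa using (((hasDerivAt_id s).const_mul (n : ℝ)).neg).const_mul (2 * Real.pi)
    have h2 := (hasDerivAt_ci (2 * Real.pi * -(n * s))).scomp s h1
    refine HasDerivAt.congr_deriv (f := fun s : ℝ => ee (-(n * s))) h2 ?_
    rw [real_smul, ee]
    push_cast
    ring
  have c1 : Continuous fun s : ℝ => (v₁ s : ℂ) * ee (-(n * s)) :=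
    (continuous_ofReal.comp hc).mul he
  have c0 : Continuous fun s : ℝ => (v s : ℂ) * ee (-(n * s)) :=
    (continuous_ofReal.comp hv).mul he
  have c3 : Continuous fun s : ℝ => ((2 * Real.pi * n : ℝ) * I) * ((v s : ℂ) * ee (-(n * s))) :=
    continuous_const.mul c0
  have hi := intervalIntegral.integral_eq_sub_of_hasDerivAt (a := 0) (b := 1)
    (f := fun s : ℝ => (v s : ℂ) * ee (-(n * s)))
    (f' := fun s : ℝ => (v₁ s : ℂ) * ee (-(n * s)) -
      ((2 * Real.pi * n : ℝ) * I) * ((v s : ℂ) * ee (-(n * s))))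
    (fun s _ => (((h s).ofReal_comp).mul (hd s)).congr_deriv (by ring))
    ((c1.sub c3).intervalIntegrable 0 1)
  rw [intervalIntegral.integral_sub (c1.intervalIntegrable 0 1) (c3.intervalIntegrable 0 1),
    intervalIntegral.integral_const_mul] at hi
  have e1 : ee (-(n * (1 : ℝ))) = 1 := by
    rw [← ee_int (-n)]
    congr 1
    push_cast
    ring
  have e0 : ee (-(n * (0 : ℝ))) = 1 := by
    rw [← ee_int 0]
    congr 1
    push_cast
    ring
  simp only [e1, e0, hp, sub_self] at hi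
  exact sub_eq_zero.1 hi

theorem hkb_one {u u₁ u₂ : ℝ → ℝ} (h0 : ∀ x, HasDerivAt u (u₁ x) x)
    (h1 : ∀ x, HasDerivAt u₁ (u₂ x) x) (c2 : Continuous u₂) (hp : ∀ x, u (x + 1) = u x)
    (hz : ∫ x in (0 : ℝ)..1, u x = 0) {a : ℤ → ℂ}
    (ha : ∀ n : ℤ, a n = ∫ s in (0 : ℝ)..1, (u s : ℂ) * ee (-(n * s))) (x : ℝ) :
    HasSum (fun n : ℕ => 2 * (a n * ee (n * x)).re) (u x) := by
  have c0 : Continuous u := continuous_iff_continuousAt.2 fun x => (h0 x).continuousAt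
  have c1 : Continuous u₁ := continuous_iff_continuousAt.2 fun x => (h1 x).continuousAt
  have p1 : u₁ 1 = u₁ 0 := by
    have h := (h0 (0 + 1)).comp_add_const 0 1
    rw [funext hp, zero_add] at h
    exact h.unique (h0 0)
  have a0 : a 0 = 0 := by
    have e0 : ∀ s : ℝ, ee (-(((0 : ℤ) : ℝ) * s)) = 1 := fun s => by
      rw [← ee_int 0]
      congr 1
      push_cast
      ring
    rw [ha]
    simp only [e0, mul_one]
    rw [intervalIntegral.integral_ofReal, hz, ofReal_zero]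
  obtain ⟨B, hB⟩ := (isCompact_Icc (a := (0 : ℝ)) (b := 1)).exists_bound_of_continuousOn
    c2.continuousOn
  have hb : ∀ n : ℤ, ‖a n‖ ≤ B * (1 / (n : ℝ) ^ 2) := fun n => by
    rcases eq_or_ne n 0 with rfl | hn
    · simp [a0]
    have e := hkb_ibp h1 c2 p1 n
    rw [hkb_ibp h0 c1 (by simpa using hp 0) n, ← ha] at e
    have h2 : ‖∫ s in (0 : ℝ)..1, (u₂ s : ℂ) * ee (-(n * s))‖ ≤ B * |(1 : ℝ) - 0| :=
      intervalIntegral.norm_integral_le_of_norm_le_const fun s hs => by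
        rw [uIoc_of_le zero_le_one] at hs
        rw [norm_mul, norm_ee, mul_one, norm_real]
        exact hB s (Ioc_subset_Icc_self hs)
    simp only [e, norm_mul ((_ : ℝ) : ℂ), norm_mul (_ * I), norm_I, mul_one, norm_real,
      Real.norm_eq_abs, sub_zero, abs_one] at h2
    rw [← mul_assoc, abs_mul_abs_self] at h2
    have h3 : 0 < (n : ℝ) ^ 2 := by positivity
    have h4 : 0 ≤ (n : ℝ) ^ 2 * ‖a n‖ := by positivity
    have h5 : 1 ≤ 4 * Real.pi ^ 2 := by nlinarith only [Real.pi_gt_three]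
    rw [mul_one_div, le_div_iff₀ h3]
    linarith only [mul_le_mul_of_nonneg_right h5 h4, h2]
  have hs : Summable a :=
    Summable.of_norm_bounded ((Real.summable_one_div_int_pow.2 one_lt_two).mul_left B) hb
  have hper : Function.Periodic (fun x : ℝ => (u x : ℂ)) 1 := fun x => by simp only [hp]
  have : Fact ((0 : ℝ) < 1) := ⟨one_pos⟩
  let F : C(AddCircle (1 : ℝ), ℂ) := ⟨hper.lift,
    (QuotientAddGroup.isQuotientMap_mk _).continuous_iff.2 (continuous_ofReal.comp c0)⟩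
  have hF : ∀ x : ℝ, F (x : AddCircle (1 : ℝ)) = u x := fun x => rfl
  have hf : ∀ (n : ℤ) (x : ℝ), fourier n (x : AddCircle (1 : ℝ)) = ee (n * x) := fun n x => by
    rw [fourier_coe_apply, ee, ci]
    congr 1
    push_cast
    ring
  have hco : fourierCoeff F = a := funext fun n => by
    rw [fourierCoeff_eq_intervalIntegral _ _ 0, ha, zero_add, div_one, one_smul]
    refine intervalIntegral.integral_congr fun s _ => ?_
    simp only [hF, hf, smul_eq_mul, Int.cast_neg, neg_mul]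
    ring
  have hS := has_pointwise_sum_fourier_series_of_summable (f := F) (hco ▸ hs) (x : AddCircle (1 : ℝ))
  simp only [hco, hF, hf, smul_eq_mul] at hS
  have hn : ∀ n : ℤ, a (-n) = conj (a n) := fun n => by
    rw [ha, ha, intervalIntegral.integral_of_le zero_le_one,
      intervalIntegral.integral_of_le zero_le_one, ← integral_conj]
    refine integral_congr_ae (.of_forall fun s => ?_)
    simp only [map_mul, conj_ofReal, conj_ee, Int.cast_neg, neg_mul]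
  have hR := reCLM.hasSum hS.nat_add_neg
  simp only [a0, zero_mul, add_zero, reCLM_apply, ofReal_re] at hR
  convert hR using 2 with n
  rw [hn, Int.cast_neg, neg_mul, ← conj_ee, ← map_mul, add_re, conj_re, Int.cast_natCast, two_mul]

/-- HKB.  The coefficients are `O(n ^ (-2))`; `has_pointwise_sum_fourier_series_of_summable`. -/
theorem fc_sum {t : ℝ} {f : ℂ → ℝ} (h : Form t f) (hc : Cusp f) (x : ℝ) {y : ℝ} (hy : 0 < y) :
    HasSum (fun n : ℕ => 2 * (fc f n y * ee (n * x)).re) (f ((x : ℂ) + (y : ℂ) * I)) := by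
  have hU : IsOpen Up := isOpen_lt continuous_const continuous_im
  have hm : ∀ x : ℝ, (x : ℂ) + (y : ℂ) * I ∈ Up := fun x => by simpa [Up] using hy
  have g1 : ContDiffOn ℝ 1 (fderiv ℝ f) Up := h.c2.fderiv_of_isOpen hU (by norm_num)
  have g2 : ContDiffOn ℝ 1 (fun z => fderiv ℝ f z 1) Up := g1.clm_apply contDiffOn_const
  have g3 : ContinuousOn (fun z => fderiv ℝ (fun z => fderiv ℝ f z 1) z 1) Up :=
    (g2.continuousOn_fderiv_of_isOpen hU le_rfl).clm_apply continuousOn_const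
  refine hkb_one (u := fun x : ℝ => f ((x : ℂ) + (y : ℂ) * I))
    (u₁ := fun x : ℝ => fderiv ℝ f ((x : ℂ) + (y : ℂ) * I) 1)
    (u₂ := fun x : ℝ => fderiv ℝ (fun z => fderiv ℝ f z 1) ((x : ℂ) + (y : ℂ) * I) 1)
    (fun x => tail0_dx ((h.c2.contDiffAt (hU.mem_nhds (hm x))).differentiableAt (by norm_num)))
    (fun x => tail0_dx ((g2.contDiffAt (hU.mem_nhds (hm x))).differentiableAt (by norm_num)))
    (g3.comp_continuous (by fun_prop) hm) (fun x => ?_) (hc y hy) (a := fun n => fc f n y)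
    (fun n => rfl) x
  rw [← (h.inv _ (hm x)).1]
  congr 1
  push_cast
  ring

theorem hkc_ee_sum (a : ℕ) (ha : 1 ≤ a) (k : ℤ) :
    ∑ j ∈ Finset.range a, ee (k * j / a) = if (a : ℤ) ∣ k then (a : ℂ) else 0 := by
  have ha0 : (a : ℝ) ≠ 0 := by positivity
  have hp : ∀ j : ℕ, ee (k * j / a) = ee (k / a) ^ j := fun j => by
    induction j with
    | zero => simp [ee, ci_zero]
    | succ j ih => rw [pow_succ, ← ih, ← ee_add]; congr 1; push_cast; ring
  simp only [hp]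
  split_ifs with h
  · obtain ⟨m, rfl⟩ := h
    have : ((((a : ℤ) * m : ℤ) : ℝ) / a) = (m : ℝ) := by push_cast; field_simp
    rw [this, ee_int]; simp
  · have h1 : ee (k / a) ≠ 1 := fun h1 => by
      obtain ⟨n, hn⟩ := Complex.exp_eq_one_iff.1 h1
      have h2 : (2 * Real.pi * ((k : ℝ) / a) : ℝ) = n * (2 * Real.pi) := by
        have := congrArg Complex.im hn
        simpa only [ofReal_mul, ofReal_ofNat, ofReal_div, ofReal_intCast, ofReal_natCast, mul_im, mul_re, re_ofNat, ofReal_re, im_ofNat, ofReal_im, mul_zero, sub_zero, div_natCast_re, intCast_re, zero_mul, add_zero, div_natCast_im, intCast_im, zero_div, I_im, mul_one, I_re, sub_self] using this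
      have h3 : (k : ℝ) = a * n := by
        have := Real.pi_pos
        field_simp at h2
        linarith only [h2]
      exact h ⟨n, by exact_mod_cast h3⟩
    have h2 : ee (k / a) ^ a = 1 := by
      rw [← hp, mul_div_assoc, div_self ha0, mul_one, ee_int]
    rw [geom_sum_eq h1, h2, sub_self, zero_div]

/-- averaging over the shifts -/
theorem hkc_l1 {F : ℝ → ℂ} (hF : Continuous F) {d : ℕ} (hd : 1 ≤ d) (m : ℤ) :
    ∫ x in (0 : ℝ)..1, (∑ b ∈ Finset.range d, F ((x + b) / d)) * ee (-(m * x)) =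
      d * ∫ x in (0 : ℝ)..1, F x * ee (-((d * m : ℤ) * x)) := by
  have hd0 : (d : ℝ) ≠ 0 := by positivity
  have hc : Continuous fun x : ℝ => F x * ee (-((d * m : ℤ) * x)) :=
    hF.mul (continuous_ee.comp (by fun_prop))
  have h1 : ∀ b : ℕ, ∫ x in (0 : ℝ)..1, F ((x + b) / d) * ee (-(m * x)) =
      d * ∫ x in ((b : ℝ) / d)..(((b + 1 : ℕ) : ℝ) / d), F x * ee (-((d * m : ℤ) * x)) := fun b => by
    have e := intervalIntegral.integral_comp_div_add
      (f := fun x : ℝ => F x * ee (-((d * m : ℤ) * x))) (a := 0) (b := 1) hd0 ((b : ℝ) / d)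
    rw [show (b : ℝ) / d = 0 / d + b / d by ring, show (((b + 1 : ℕ) : ℝ)) / d = 1 / d + b / d by
      push_cast; ring, ← Complex.ofReal_natCast, ← real_smul, ← e]
    refine intervalIntegral.integral_congr fun x _ => ?_
    have : -(((d * m : ℤ) : ℝ) * (x / d + b / d)) = -(m * x) + ((-(m * b) : ℤ) : ℝ) := by
      push_cast; field_simp; ring
    simp only [this, ee_add, ee_int, mul_one, add_div]
  simp only [Finset.sum_mul]
  have hb : ∀ b : ℕ, Continuous fun x : ℝ => F ((x + b) / d) * ee (-(m * x)) := fun b =>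
    (hF.comp (by fun_prop)).mul (continuous_ee.comp (by fun_prop))
  rw [intervalIntegral.integral_finsetSum fun b _ => (hb b).intervalIntegrable _ _,
    Finset.sum_congr rfl fun b _ => h1 b, ← Finset.mul_sum,
    intervalIntegral.sum_integral_adjacent_intervals (a := fun b : ℕ => (b : ℝ) / d)
      fun b _ => hc.intervalIntegrable _ _]
  simp only [Int.cast_mul, Int.cast_natCast, CharP.cast_eq_zero, zero_div, div_self hd0]

/-- dilation -/
theorem hkc_l2 {G : ℝ → ℂ} (hG : Continuous G) (hp : ∀ x, G (x + 1) = G x) {a : ℕ} (ha : 1 ≤ a)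
    (k : ℤ) : ∫ x in (0 : ℝ)..1, G (a * x) * ee (-(k * x)) =
      if (a : ℤ) ∣ k then ∫ x in (0 : ℝ)..1, G x * ee (-((k / a : ℤ) * x)) else 0 := by
  have ha0 : (a : ℝ) ≠ 0 := by positivity
  have hn : ∀ (j : ℕ) x, G (x + j) = G x := fun j => by
    induction j with
    | zero => simp
    | succ j ih => intro x; rw [Nat.cast_succ, ← add_assoc, hp, ih]
  have hc : Continuous fun x : ℝ => G (a * x) * ee (-(k * x)) :=
    (hG.comp (by fun_prop)).mul (continuous_ee.comp (by fun_prop))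
  have h1 : ∀ j : ℕ, ∫ x in ((j : ℝ) / a)..(((j + 1 : ℕ) : ℝ) / a), G (a * x) * ee (-(k * x)) =
      ee ((-k : ℤ) * j / a) * ((a : ℂ)⁻¹ * ∫ x in (0 : ℝ)..1, G x * ee (-(k / a * x))) := fun j => by
    have e := intervalIntegral.integral_comp_div_add
      (f := fun x : ℝ => G (a * x) * ee (-(k * x))) (a := 0) (b := 1) ha0 ((j : ℝ) / a)
    have e2 : ∫ x in (0 : ℝ)..1, G (a * (x / a + j / a)) * ee (-(k * (x / a + j / a))) =
        ee ((-k : ℤ) * j / a) * ∫ x in (0 : ℝ)..1, G x * ee (-(k / a * x)) := by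
      rw [← intervalIntegral.integral_const_mul]
      refine intervalIntegral.integral_congr fun x _ => ?_
      have e3 : (a : ℝ) * (x / a + j / a) = x + j := by field_simp
      have e4 : -((k : ℝ) * (x / a + j / a)) = ((-k : ℤ) : ℝ) * j / a + -(k / a * x) := by
        push_cast; ring
      simp only [e3, e4, hn, ee_add]
      ring
    rw [e2, real_smul, Complex.ofReal_natCast] at e
    rw [show (j : ℝ) / a = 0 / a + j / a by ring, show (((j + 1 : ℕ) : ℝ)) / a = 1 / a + j / a by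
      push_cast; ring, mul_left_comm, e, ← mul_assoc, inv_mul_cancel₀ (by exact_mod_cast ha0),
      one_mul]
  have h2 := intervalIntegral.sum_integral_adjacent_intervals (a := fun b : ℕ => (b : ℝ) / a)
    (n := a) (μ := volume) fun b _ => hc.intervalIntegrable _ _
  simp only [Nat.cast_zero, zero_div, div_self ha0] at h2
  rw [← h2, Finset.sum_congr rfl fun j _ => h1 j, ← Finset.sum_mul, hkc_ee_sum a ha]
  by_cases h : (a : ℤ) ∣ k
  · obtain ⟨m, rfl⟩ := h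
    have ha1 : (a : ℤ) ≠ 0 := by exact_mod_cast ha0
    have e : (((a : ℤ) * m : ℤ) : ℝ) / a = m := by push_cast; field_simp
    rw [if_pos (dvd_neg.2 (dvd_mul_right _ _)), if_pos (dvd_mul_right _ _), ← mul_assoc,
      mul_inv_cancel₀ (by exact_mod_cast ha0), one_mul, Int.mul_ediv_cancel_left _ ha1, e]
  · rw [if_neg (mt dvd_neg.1 h), if_neg h, zero_mul]

theorem hkc_cont {f : ℂ → ℝ} (hf : ContinuousOn f Up) {y : ℝ} (hy : 0 < y) :
    Continuous fun x : ℝ => (f ((x : ℂ) + (y : ℂ) * I) : ℂ) :=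
  continuous_ofReal.comp (hf.comp_continuous (by fun_prop) fun x => by
    show 0 < ((x : ℂ) + (y : ℂ) * I).im
    simpa using hy)

/-- one divisor -/
theorem hkc_one {f : ℂ → ℝ} (hf : ContinuousOn f Up) (hi : Inv f) {a d : ℕ} (ha : 1 ≤ a)
    (hd : 1 ≤ d) (k : ℤ) {y : ℝ} (hy : 0 < y) :
    (Continuous fun x : ℝ => ∑ b ∈ Finset.range d,
      (f (((a : ℂ) * ((x : ℂ) + (y : ℂ) * I) + (b : ℂ)) / (d : ℂ)) : ℂ)) ∧
    ∫ x in (0 : ℝ)..1, (∑ b ∈ Finset.range d,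
      (f (((a : ℂ) * ((x : ℂ) + (y : ℂ) * I) + (b : ℂ)) / (d : ℂ)) : ℂ)) * ee (-(k * x)) =
      if (a : ℤ) ∣ k then d * fc f (d * (k / a)) (a * y / d) else 0 := by
  have hd0 : (d : ℝ) ≠ 0 := by positivity
  have hy' : 0 < (a : ℝ) * y / d := by positivity
  obtain ⟨F, hF⟩ : ∃ F : ℝ → ℂ, F = fun x : ℝ => (f ((x : ℂ) + ((a * y / d : ℝ) : ℂ) * I) : ℂ) :=
    ⟨_, rfl⟩
  have hc : Continuous F := hF ▸ hkc_cont hf hy'
  have hp : ∀ x, F (x + 1) = F x := fun x => by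
    have := (hi ((x : ℂ) + ((a * y / d : ℝ) : ℂ) * I) (by
      rw [add_im, ofReal_im, mul_im, ofReal_re, ofReal_im, I_im, I_re]; linarith only [hy'])).1
    simp only [hF]
    rw [← this, ofReal_add, ofReal_one, add_right_comm]
  have hG : Continuous fun v : ℝ => ∑ b ∈ Finset.range d, F ((v + b) / d) :=
    continuous_finsetSum _ fun b _ => hc.comp (by fun_prop)
  have hq : ∀ v : ℝ, ∑ b ∈ Finset.range d, F ((v + 1 + b) / d) =
      ∑ b ∈ Finset.range d, F ((v + b) / d) := fun v => by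
    have e1 := Finset.sum_range_succ (fun b : ℕ => F ((v + b) / d)) d
    have e2 := Finset.sum_range_succ' (fun b : ℕ => F ((v + b) / d)) d
    have e3 : (v + (d : ℝ)) / d = (v + ((0 : ℕ) : ℝ)) / d + 1 := by
      rw [Nat.cast_zero, add_zero, add_div, div_self hd0]
    rw [e3, hp, e2] at e1
    rw [← add_right_cancel e1]
    refine Finset.sum_congr rfl fun b _ => ?_
    rw [Nat.cast_succ, add_right_comm, add_assoc v]
  have e : ∀ x : ℝ, ∑ b ∈ Finset.range d,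
      (f (((a : ℂ) * ((x : ℂ) + (y : ℂ) * I) + (b : ℂ)) / (d : ℂ)) : ℂ) =
      ∑ b ∈ Finset.range d, F ((a * x + b) / d) := fun x => by
    refine Finset.sum_congr rfl fun b _ => ?_
    simp only [hF]
    congr 2
    push_cast
    ring
  simp only [e]
  refine ⟨hG.comp (f := fun x : ℝ => a * x) (by fun_prop), ?_⟩
  rw [hkc_l2 hG hq ha k, hkc_l1 hc hd, hF]
  rfl

/-- HKC.  Paper 1: the Fourier coefficients of the Hecke equation. -/
theorem fc_hecke {f : ℂ → ℝ} (hf : ContinuousOn f Up) (hi : Inv f) {m : ℕ} (hm : 0 < m) {c : ℝ}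
    (h : ∀ z : ℂ, 0 < z.im → ∑ d ∈ m.divisors, ∑ b ∈ Finset.range d,
      f ((((m / d : ℕ) : ℂ) * z + (b : ℂ)) / (d : ℂ)) = c * f z) {k : ℕ} (hk : 1 ≤ k) {y : ℝ}
    (hy : 0 < y) : (c : ℂ) * fc f k y = ∑ a ∈ (Nat.gcd m k).divisors,
      ((m / a : ℕ) : ℂ) * fc f (m * k / a ^ 2 : ℕ) ((a : ℝ) ^ 2 * y / m) := by
  have h1 : (c : ℂ) * fc f k y = ∑ d ∈ m.divisors, ∫ x in (0 : ℝ)..1, (∑ b ∈ Finset.range d,
      (f ((((m / d : ℕ) : ℂ) * ((x : ℂ) + (y : ℂ) * I) + (b : ℂ)) / (d : ℂ)) : ℂ)) *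
        ee (-((k : ℤ) * x)) := by
    have hc : ∀ d ∈ m.divisors, Continuous fun x : ℝ => (∑ b ∈ Finset.range d,
        (f ((((m / d : ℕ) : ℂ) * ((x : ℂ) + (y : ℂ) * I) + (b : ℂ)) / (d : ℂ)) : ℂ)) *
          ee (-((k : ℤ) * x)) := fun d hd =>
      (hkc_one hf hi (Nat.div_pos (Nat.divisor_le hd) (Nat.pos_of_mem_divisors hd))
        (Nat.pos_of_mem_divisors hd) 0 hy).1.mul (continuous_ee.comp (by fun_prop))
    rw [← intervalIntegral.integral_finsetSum fun d hd => (hc d hd).intervalIntegrable _ _,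
      fc, ← intervalIntegral.integral_const_mul]
    refine intervalIntegral.integral_congr fun x _ => ?_
    have e := h ((x : ℂ) + (y : ℂ) * I) (by simpa using hy)
    have e' := congrArg (fun u : ℝ => (u : ℂ)) e
    simp only [ofReal_sum, ofReal_mul] at e'
    simp only [← Finset.sum_mul, e', mul_assoc]
  rw [h1, ← Nat.sum_div_divisors, ← Nat.divisors_filter_dvd_of_dvd hm.ne' (Nat.gcd_dvd_left m k),
    Finset.sum_filter]
  refine Finset.sum_congr rfl fun a ha => ?_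
  have ha1 := Nat.pos_of_mem_divisors ha
  obtain ⟨d, rfl⟩ := Nat.dvd_of_mem_divisors ha
  have hd1 : 0 < d := Nat.pos_of_mul_pos_left hm
  rw [Nat.mul_div_cancel_left d ha1, Nat.mul_div_cancel a hd1, (hkc_one hf hi ha1 hd1 k hy).2]
  by_cases hak : a ∣ k
  · rw [if_pos (Int.natCast_dvd_natCast.2 hak), if_pos (Nat.dvd_gcd (Nat.dvd_mul_right a d) hak)]
    obtain ⟨e, rfl⟩ := hak
    have e1 : a * d * (a * e) / a ^ 2 = d * e := by
      rw [show a * d * (a * e) = a ^ 2 * (d * e) by ring, Nat.mul_div_cancel_left _ (by positivity)]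
    have e2 : ((a * e : ℕ) : ℤ) / a = e := by
      rw [Nat.cast_mul, Int.mul_ediv_cancel_left _ (by exact_mod_cast ha1.ne')]
    have e3 : (a : ℝ) ^ 2 * y / (a * d : ℕ) = a * y / d := by
      have : (a : ℝ) ≠ 0 := by positivity
      have : (d : ℝ) ≠ 0 := by positivity
      push_cast
      field_simp
    rw [e1, e2, e3, Nat.cast_mul]
  · rw [if_neg fun h2 => hak (Int.natCast_dvd_natCast.1 h2),
      if_neg fun h2 => hak (h2.trans (Nat.gcd_dvd_right _ _))]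

theorem hkd_zero {f : ℂ → ℝ} (hc : Cusp f) {y : ℝ} (hy : 0 < y) : fc f 0 y = 0 := by
  have h := hc y hy
  simp only [fc, ee, ci, Int.cast_zero, zero_mul, neg_zero, mul_zero, Complex.ofReal_zero,
    Complex.exp_zero, mul_one]
  rw [intervalIntegral.integral_ofReal, h, Complex.ofReal_zero]

theorem hkd_one {t : ℝ} {f : ℂ → ℝ} (hf : Form t f) {n : ℕ} (hn : 1 ≤ n) {c : ℝ}
    (h : ∀ z : ℂ, 0 < z.im → ∑ d ∈ n.divisors, ∑ b ∈ Finset.range d,
      f ((((n / d : ℕ) : ℂ) * z + (b : ℂ)) / (d : ℂ)) = c * f z) {y : ℝ} (hy : 0 < y) :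
    fc f n y = ((c / n : ℝ) : ℂ) * fc f 1 (n * y) := by
  have hn0 : (0 : ℝ) < n := by exact_mod_cast hn
  have h1 := fc_hecke hf.c2.continuousOn hf.inv hn h (k := 1) le_rfl (mul_pos hn0 hy)
  rw [Nat.gcd_one_right, Nat.divisors_one, Finset.sum_singleton] at h1
  have e1 : ((1 : ℕ) : ℝ) ^ 2 * (n * y) / n = y := by
    rw [Nat.cast_one, one_pow, one_mul, mul_div_cancel_left₀ _ hn0.ne']
  rw [e1, Nat.div_one, mul_one, one_pow, Nat.div_one, Nat.cast_one] at h1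
  have hn1 : (n : ℂ) ≠ 0 := by exact_mod_cast hn0.ne'
  rw [Complex.ofReal_div, Complex.ofReal_natCast, div_mul_eq_mul_div, h1,
    mul_div_cancel_left₀ _ hn1]

theorem hkd_ne {t : ℝ} {f : ℂ → ℝ} (hf : Form t f) (hc : Cusp f) (hh : Hecke f) :
    ∃ y : ℝ, 0 < y ∧ fc f 1 y ≠ 0 := by
  by_contra hne
  push Not at hne
  have h0 : ∀ z : ℂ, 0 < z.im → f z = 0 := by
    intro z hz
    have h1 := fc_sum hf hc z.re hz
    rw [Complex.re_add_im] at h1
    have h2 : (fun n : ℕ => 2 * (fc f n z.im * ee (n * z.re)).re) = fun _ => 0 := by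
      funext n
      rcases Nat.eq_zero_or_pos n with rfl | hn
      · rw [Nat.cast_zero, hkd_zero hc hz, zero_mul, Complex.zero_re, mul_zero]
      · obtain ⟨c, hcn⟩ := hh n hn
        have hn0 : (0 : ℝ) < n := by exact_mod_cast hn
        rw [hkd_one hf hn hcn hz, hne _ (mul_pos hn0 hz), mul_zero, zero_mul, Complex.zero_re,
          mul_zero]
    rw [h2] at h1
    exact h1.unique hasSum_zero
  have h3 : ∫ z in Fd, f z ^ 2 / z.im ^ 2 = 0 := by
    apply setIntegral_eq_zero_of_forall_eq_zero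
    intro z hz
    rw [h0 z hz.1]
    simp
  have h4 := hf.nrm
  rw [h3] at h4
  have := Real.pi_pos
  linarith

theorem hkd_mul {t : ℝ} {f : ℂ → ℝ} (hf : Form t f) {c : ℕ → ℝ}
    (h : ∀ n : ℕ, 0 < n → ∀ z : ℂ, 0 < z.im → ∑ d ∈ n.divisors, ∑ b ∈ Finset.range d,
      f ((((n / d : ℕ) : ℂ) * z + (b : ℂ)) / (d : ℂ)) = c n * f z) {y : ℝ} (hy : 0 < y)
    (hne : fc f 1 y ≠ 0) {m n : ℕ} (hm : 1 ≤ m) (hn : 1 ≤ n) :
    c m / √m * (c n / √n) = ∑ a ∈ (Nat.gcd m n).divisors,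
      c (m * n / a ^ 2) / √((m * n / a ^ 2 : ℕ) : ℝ) := by
  have hm0 : (0 : ℝ) < m := by exact_mod_cast hm
  have hn0 : (0 : ℝ) < n := by exact_mod_cast hn
  have hyn : 0 < y / n := div_pos hy hn0
  have h1 := fc_hecke hf.c2.continuousOn hf.inv hm (h m hm) hn hyn
  rw [hkd_one hf hn (h n hn) hyn, mul_div_cancel₀ _ hn0.ne'] at h1
  have h2 : ∀ a ∈ (Nat.gcd m n).divisors,
      ((m / a : ℕ) : ℂ) * fc f (m * n / a ^ 2 : ℕ) ((a : ℝ) ^ 2 * (y / n) / m) =
        ((√m * √n / n * (c (m * n / a ^ 2) / √((m * n / a ^ 2 : ℕ) : ℝ)) : ℝ) : ℂ) *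
          fc f 1 y := by
    intro a ha
    have hd := Nat.dvd_of_mem_divisors ha
    have ha0 : 0 < a := Nat.pos_of_mem_divisors ha
    obtain ⟨u, hu⟩ := hd.trans (Nat.gcd_dvd_left m n)
    obtain ⟨v, hv⟩ := hd.trans (Nat.gcd_dvd_right m n)
    have hu0 : 0 < u := Nat.pos_of_mul_pos_left (hu ▸ hm)
    have hv0 : 0 < v := Nat.pos_of_mul_pos_left (hv ▸ hn)
    have e1 : m * n / a ^ 2 = u * v := by
      rw [hu, hv]
      exact Nat.div_eq_of_eq_mul_right (by positivity) (by ring)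
    have e2 : m / a = u := by
      rw [hu]
      exact Nat.mul_div_cancel_left _ ha0
    have haR : (0 : ℝ) < a := by exact_mod_cast ha0
    have huR : (0 : ℝ) < u := by exact_mod_cast hu0
    have hvR : (0 : ℝ) < v := by exact_mod_cast hv0
    have hmR : (m : ℝ) = a * u := by exact_mod_cast hu
    have hnR : (n : ℝ) = a * v := by exact_mod_cast hv
    have huv : 0 < u * v := Nat.mul_pos hu0 hv0
    rw [e1, e2, hkd_one hf huv (h _ huv) (by positivity)]
    have e3 : ((u * v : ℕ) : ℝ) * ((a : ℝ) ^ 2 * (y / n) / m) = y := by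
      rw [Nat.cast_mul, hmR, hnR]
      field_simp
    have e4 : √(m : ℝ) * √(n : ℝ) = a * √((u * v : ℕ) : ℝ) := by
      rw [← Real.sqrt_mul hm0.le, hmR, hnR, Nat.cast_mul,
        show (a : ℝ) * u * (a * v) = a ^ 2 * (u * v) by ring, Real.sqrt_mul (by positivity),
        Real.sqrt_sq haR.le]
    have hs : 0 < √((u * v : ℕ) : ℝ) := Real.sqrt_pos.2 (by exact_mod_cast huv)
    have e5 : √(m : ℝ) * √(n : ℝ) / n * (c (u * v) / √((u * v : ℕ) : ℝ)) =
        u * (c (u * v) / ((u * v : ℕ) : ℝ)) := by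
      rw [e4, hnR]
      generalize √((u * v : ℕ) : ℝ) = s at hs
      rw [Nat.cast_mul]
      field_simp
    rw [e3, e5, Complex.ofReal_mul, Complex.ofReal_natCast, mul_assoc]
  rw [Finset.sum_congr rfl h2, ← Finset.sum_mul, ← mul_assoc, ← Complex.ofReal_sum,
    ← Complex.ofReal_mul, ← Finset.mul_sum] at h1
  have h3 := Complex.ofReal_injective (mul_right_cancel₀ hne h1)
  have sm : 0 < √(m : ℝ) := Real.sqrt_pos.2 hm0
  have sn : 0 < √(n : ℝ) := Real.sqrt_pos.2 hn0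
  generalize (∑ a ∈ (Nat.gcd m n).divisors,
      c (m * n / a ^ 2) / √((m * n / a ^ 2 : ℕ) : ℝ)) = S at h3 ⊢
  have h4 : c m * c n = √m * √n * S := by
    have := congrArg (· * (n : ℝ)) h3
    field_simp at this
    linarith only [this]
  rw [div_mul_div_comm, h4]
  field_simp

/-- HKD.  `exists_sol`, `exists_wkb`, `fc_hecke`, `fc_sum`.  If `fc f 1` vanished identically, `f`
would vanish on `Up`, against the normalisation. -/
theorem exists_dat : ∃ k : ℝ, 1 ≤ k ∧ ∀ (t : ℝ) (f : ℂ → ℝ), 3 ≤ t → Form t f → Cusp f → Hecke f →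
    ∃ (lam : ℕ → ℝ) (b : ℝ → ℂ) (Cp Cm : ℂ), Dat k t f lam b Cp Cm := by
  obtain ⟨k, hk, hw⟩ := exists_wkb
  refine ⟨k, hk, fun t f ht hf hc hh => ?_⟩
  have ht0 : 0 < t := by linarith
  obtain ⟨b, b₁, hs, hb⟩ := exists_sol ht0 hf
  obtain ⟨Cp, Cm, hW⟩ := hw t b b₁ ht hs
  obtain ⟨y₀, hy₀, hne⟩ := hkd_ne hf hc hh
  choose! c hcn using hh
  have hcoef : ∀ n : ℕ, 1 ≤ n → ∀ y : ℝ, 0 < y → fc f n y =
      ((c n / √n * √(y / t) : ℝ) : ℂ) * b (Real.log (2 * Real.pi * y / t) + Real.log n) := by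
    intro n hn y hy
    have hn0 : (0 : ℝ) < n := by exact_mod_cast hn
    have hp := Real.pi_pos
    have e1 : Real.log (2 * Real.pi * (n * y) / t) =
        Real.log (2 * Real.pi * y / t) + Real.log n := by
      rw [← Real.log_mul (by positivity) hn0.ne']
      congr 1
      ring
    have e2 : c n / n * √(n * y / t) = c n / √n * √(y / t) := by
      have sn : 0 < √(n : ℝ) := Real.sqrt_pos.2 hn0
      have e3 : (n : ℝ) = √n * √n := (Real.mul_self_sqrt hn0.le).symm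
      rw [mul_div_assoc, Real.sqrt_mul hn0.le]
      generalize √(n : ℝ) = s at sn e3
      rw [e3]
      field_simp
    rw [hkd_one hf hn (hcn n hn) hy, hb _ (mul_pos hn0 hy), e1, ← mul_assoc, ← Complex.ofReal_mul,
      e2]
  refine ⟨fun n => c n / √n, b, Cp, Cm, ⟨?_, ?_, fun m n hm hn => ?_⟩, hW, hcoef, ?_⟩
  · simp
  · have h1 := hkd_one hf le_rfl (hcn 1 one_pos) hy₀
    rw [Nat.cast_one, Nat.cast_one, one_mul, div_one] at h1
    have h2 : ((1 : ℝ) : ℂ) * fc f 1 y₀ = (c 1 : ℂ) * fc f 1 y₀ := by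
      rw [Complex.ofReal_one, one_mul]
      exact h1
    have h3 := Complex.ofReal_injective (mul_right_cancel₀ hne h2)
    simp [← h3]
  · exact hkd_mul hf hcn hy₀ hne hm hn
  · intro x y hy
    have hs0 : 0 < √(y / t) := Real.sqrt_pos.2 (div_pos hy ht0)
    have h1 := (fc_sum hf hc x hy).div_const (√(y / t))
    refine h1.congr_fun ?_
    intro n
    rcases Nat.eq_zero_or_pos n with rfl | hn
    · rw [Nat.cast_zero (R := ℤ), hkd_zero hc hy]
      simp only [CharP.cast_eq_zero, Real.sqrt_zero, div_zero, ofReal_zero, Real.log_zero, add_zero, zero_mul, zero_re, mul_zero, zero_div]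
    · rw [hcoef n hn y hy, eq_div_iff hs0.ne', mul_assoc (2 : ℝ), ← Complex.re_mul_ofReal,
        Complex.ofReal_mul]
      congr 2
      ring

/-! ### The large sieve -/

/-- one wave packet -/
noncomputable def kr1 (T M σ : ℝ) (k : ℕ) (z : ℂ) : ℂ :=
  ((zt z.re * √z.im * zt (M * Real.log (4 * Real.pi * k * z.im / T)) : ℝ) : ℂ) *
    ci (-(σ * Real.log (4 * Real.pi * k * z.im / T))) * ee (-(k * z.re))

noncomputable def kr (T M σ : ℝ) (J : Finset ℕ) (c : ℕ → ℂ) (z : ℂ) : ℂ :=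
  ∑ k ∈ J, c k * kr1 T M σ k z

/-- the integral along a ray from the cusp `- d / c` -/
noncomputable def inn (T M σ : ℝ) (k₁ k₂ : ℕ) (a c d p : ℝ) : ℂ :=
  ∫ r : ℝ, ((zt (p * Real.exp r - d / c) * zt (a / c - p * (Real.exp (-r) / (c ^ 2 * (1 + p ^ 2)))) *
      (1 / (|c| * √(1 + p ^ 2))) * zt (M * Real.log (4 * Real.pi * k₁ * Real.exp r / T)) *
      zt (M * Real.log (4 * Real.pi * k₂ * (Real.exp (-r) / (c ^ 2 * (1 + p ^ 2))) / T)) : ℝ) : ℂ) *
    ci (-(σ * Real.log (4 * Real.pi * k₁ * Real.exp r / T)) +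
      σ * Real.log (4 * Real.pi * k₂ * (Real.exp (-r) / (c ^ 2 * (1 + p ^ 2))) / T) -
      2 * Real.pi * k₁ * (p * Real.exp r - d / c) +
      2 * Real.pi * k₂ * (a / c - p * (Real.exp (-r) / (c ^ 2 * (1 + p ^ 2)))))

theorem sva_sum {G : Type} [Group G] {u : G → ℂ} {T Γ : Finset G} (hT : ∀ γ, γ ∉ T → u γ = 0)
    {γ : G} (hΓ : ∀ δ, δ ∉ Γ → u (δ * γ) = 0) : ∑ δ ∈ T, u δ = ∑ δ ∈ Γ, u (δ * γ) := by
  rw [← tsum_eq_sum (L := .unconditional G) hT, ← tsum_eq_sum (L := .unconditional G) hΓ]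
  exact ((Equiv.mulRight γ).tsum_eq u).symm

/-- SVA.  Paper 4.3; imitate `Dec.gb` (`bessel_abs`, `bessel_unf`, `bessel_finFd`). -/
theorem gb2 {ι : Type} {s : Finset ι} {g : ι → ℂ → ℝ} {t : ι → ℝ} (h : Ort s g t) {k : ℂ → ℂ}
    (hm : Measurable k) {K : Set ℂ} (hK : IsCompact K) (hU : K ⊆ Up)
    (h0 : ∀ w ∈ Up, w ∉ K → k w = 0) (hb : ∃ b : ℝ, ∀ w ∈ K, ‖k w‖ ≤ b) :
    ∃ Γ : Finset SL(2, ℤ), ∑ j ∈ s, ‖∫ w, k w * (g j w : ℂ) ∂muH‖ ^ 2 ≤
      ∑ γ ∈ Γ, ‖∫ w, k w * conj (k (mb (act γ one) w)) ∂muH‖ := by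
  classical
  obtain ⟨b, hb⟩ := hb
  obtain ⟨T, hT⟩ : ∃ T : Finset SL(2, ℤ), ∀ γ, γ ∉ T → ∀ w ∈ Fd, k (mb (act γ one) w) = 0 :=
    ⟨(bessel_finFd hK hU).toFinset, fun γ hγ w hw =>
      h0 _ (mb_mem (act_one_mem γ) (Fd_sub hw)) fun h' =>
        hγ ((Finite.mem_toFinset _).2 ⟨w, hw, h'⟩)⟩
  obtain ⟨Γ, hΓ⟩ : ∃ Γ : Finset SL(2, ℤ), ∀ γ, γ ∉ Γ → ∀ w ∈ K, k (mb (act γ one) w) = 0 :=
    ⟨(bessel_fin hK hU hK hU).toFinset, fun γ hγ w hw =>
      h0 _ (mb_mem (act_one_mem γ) (hU hw)) fun h' =>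
        hγ ((Finite.mem_toFinset _).2 ⟨w, hw, h'⟩)⟩
  refine ⟨Γ, ?_⟩
  have hk2 : Integrable (fun w => ‖k w‖ ^ 2) muH :=
    bessel_int (b := b ^ 2) (hm.norm.pow_const 2).aestronglyMeasurable hK hU subset_rfl
      (fun w hw h' => by simp [h0 w hw h']) fun w hw => by
        rw [Real.norm_of_nonneg (sq_nonneg _)]
        exact pow_le_pow_left₀ (norm_nonneg _) (hb w hw) 2
  have hkL : MemLp k 2 muH := (memLp_two_iff_integrable_sq_norm hm.aestronglyMeasurable).2 hk2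
  have hk' : MemLp (fun w => ∑ γ ∈ T, k (mb (act γ one) w)) 2 (muH.restrict Fd) :=
    memLp_finsetSum _ fun γ _ => (hkL.comp_measurePreserving (mp_mb (act_one_mem γ))).restrict _
  have hs : ∀ F : ℂ → ℝ, ∫ w in Fd, F w ∂muH = ∫ w in Fd, F w / w.im ^ 2 := fun F => by
    rw [setInt_muH F measurableSet_Fd Fd_sub]
    exact integral_congr_ae (.of_forall fun w => by simp only [smul_eq_mul]; ring)
  have hB := bessel_abs (s := s) (g := g) (μ := muH.restrict Fd) (c := Real.pi / 3)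
    (by positivity) (fun j hj => by
      refine (memLp_two_iff_integrable_sq_norm
        (measurable_ofReal.comp (h.form j hj).meas).aestronglyMeasurable).2 ?_
      refine ((integrableOn_muH (F := fun w => g j w ^ 2) measurableSet_Fd Fd_sub).2
        (h.form j hj).int).congr (.of_forall fun w => ?_)
      simp)
    (fun j hj => by simpa only [hs, ← sq] using (h.form j hj).nrm)
    (fun i hi j hj hij => by rw [hs]; exact h.orth i hi j hj hij) hk'
  have e1 : ∀ j ∈ s, ‖∫ w in Fd, (∑ γ ∈ T, k (mb (act γ one) w)) * (g j w : ℂ) ∂muH‖ ^ 2 =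
      4 * ‖∫ w, k w * (g j w : ℂ) ∂muH‖ ^ 2 := fun j hj => by
    obtain ⟨b', hb'⟩ := (h.form j hj).toEig.bd hK hU
    have hi : Integrable (fun w => k w * (g j w : ℂ)) muH :=
      bessel_int (b := b * b') (hm.mul (measurable_ofReal.comp
        (h.form j hj).meas)).aestronglyMeasurable hK hU subset_rfl
        (fun w hw h' => by simp [h0 w hw h']) fun w hw => by
          rw [norm_mul, norm_real, Real.norm_eq_abs]
          exact mul_le_mul (hb w hw) (hb' w hw) (abs_nonneg _) ((norm_nonneg _).trans (hb w hw))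
    have hu := bessel_unf hi (T := T) fun γ hγ w hw => by rw [hT γ hγ w hw, zero_mul]
    have e : ∫ w in Fd, (∑ γ ∈ T, k (mb (act γ one) w)) * (g j w : ℂ) ∂muH =
        (2 : ℝ) • ∫ w, k w * (g j w : ℂ) ∂muH := by
      rw [hu]
      refine setIntegral_congr_fun measurableSet_Fd fun w hw => ?_
      simp only [Finset.sum_mul, (h.form j hj).inv.mb _ (Fd_sub hw)]
    rw [e, norm_smul, mul_pow]
    norm_num
  have hi : ∀ γ : SL(2, ℤ), Integrable (fun w => k w * conj (k (mb (act γ one) w))) muH := fun γ =>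
    hkL.integrable_mul (hkL.comp_measurePreserving (mp_mb (act_one_mem γ))).star
  have hu := bessel_unf (integrable_finsetSum Γ fun γ _ => hi γ) (T := T) fun γ hγ w hw => by
    simp only [hT γ hγ w hw, zero_mul, Finset.sum_const_zero]
  have e2 : ((∫ w in Fd, ‖∑ γ ∈ T, k (mb (act γ one) w)‖ ^ 2 ∂muH : ℝ) : ℂ) =
      (2 : ℝ) • ∑ γ ∈ Γ, ∫ w, k w * conj (k (mb (act γ one) w)) ∂muH := by
    rw [← integral_finsetSum Γ fun γ _ => hi γ, hu, ← integral_complex_ofReal]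
    refine setIntegral_congr_fun measurableSet_Fd fun w hw => ?_
    rw [ofReal_pow, ← mul_conj', Finset.sum_mul]
    refine Finset.sum_congr rfl fun γ _ => ?_
    have hw' := mb_mem (act_one_mem γ) (Fd_sub hw)
    by_cases hγ : mb (act γ one) w ∈ K
    · rw [← Finset.mul_sum, ← map_sum, sva_sum (hT · · w hw) (γ := γ) fun δ hδ => by
        rw [mb_act_act _ _ (Fd_sub hw)]
        exact hΓ δ hδ _ hγ]
      simp only [mb_act_act _ _ (Fd_sub hw)]
    · simp only [h0 _ hw' hγ, zero_mul, Finset.sum_const_zero]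
  have e3 : ∫ w in Fd, ‖∑ γ ∈ T, k (mb (act γ one) w)‖ ^ 2 ∂muH ≤
      2 * ∑ γ ∈ Γ, ‖∫ w, k w * conj (k (mb (act γ one) w)) ∂muH‖ := by
    have e4 := congrArg norm e2
    rw [norm_real, norm_smul, Real.norm_two] at e4
    exact ((le_abs_self _).trans_eq e4).trans
      (mul_le_mul_of_nonneg_left (norm_sum_le _ _) zero_le_two)
  rw [Finset.sum_congr rfl e1, ← Finset.mul_sum] at hB
  have e6 := mul_le_mul (show Real.pi / 3 ≤ 2 by linarith only [Real.pi_le_four]) e3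
    (integral_nonneg fun _ => sq_nonneg _) zero_le_two
  linarith only [hB, e6]

/-- SVB. -/
theorem measurable_kr1 (T M σ : ℝ) (k : ℕ) : Measurable (kr1 T M σ k) := by
  have hz : Measurable zt := contDiff_zt.continuous.measurable
  have hl : Measurable fun z : ℂ => Real.log (4 * Real.pi * k * z.im / T) :=
    Real.measurable_log.comp ((measurable_im.const_mul _).div_const _)
  exact ((measurable_ofReal.comp (((hz.comp measurable_re).mul measurable_im.sqrt).mul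
    (hz.comp (hl.const_mul _)))).mul (continuous_ci.measurable.comp (hl.const_mul _).neg)).mul
      (continuous_ee.measurable.comp (measurable_re.const_mul _).neg)

/-- SVB. -/
theorem kr_supp {T M : ℝ} (hT : 0 < T) (hM : 0 < M) (σ : ℝ) {J : Finset ℕ} (hJ : ∀ k ∈ J, 1 ≤ k) :
    ∃ (K : Set ℂ) (b : ℝ), IsCompact K ∧ K ⊆ Up ∧ ∀ k ∈ J, ∀ w : ℂ,
      ‖kr1 T M σ k w‖ ≤ b ∧ (w ∉ K → kr1 T M σ k w = 0) := by
  have hp := Real.pi_pos
  obtain ⟨N, hN0, hN⟩ : ∃ N : ℝ, 0 < N ∧ ∀ k ∈ J, (k : ℝ) ≤ N :=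
    ⟨∑ k ∈ J, (k : ℝ) + 1, by positivity, fun k hk =>
      (Finset.single_le_sum (f := fun k : ℕ => (k : ℝ)) (fun _ _ => Nat.cast_nonneg _) hk).trans
        (le_add_of_nonneg_right zero_le_one)⟩
  have key : ∀ k ∈ J, ∀ w : ℂ, kr1 T M σ k w ≠ 0 → w ∈ Icc (-1 : ℝ) 1 ×ℂ
      Icc (T * Real.exp (-(1 / M)) / (4 * Real.pi * N)) (T * Real.exp (1 / M) / (4 * Real.pi)) := by
    intro k hk w hw
    have h1 := ofReal_ne_zero.1 (left_ne_zero_of_mul (left_ne_zero_of_mul hw))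
    have h2 := abs_lt.1 (zt_supp (left_ne_zero_of_mul (left_ne_zero_of_mul h1)))
    have h3 : 0 < w.im := Real.sqrt_ne_zero'.1 (right_ne_zero_of_mul (left_ne_zero_of_mul h1))
    have h4 := abs_lt.1 (zt_supp (right_ne_zero_of_mul h1))
    have hk1 : (1 : ℝ) ≤ k := by exact_mod_cast hJ k hk
    have h5 : 0 < 4 * Real.pi * k * w.im / T := by positivity
    have h6 : Real.exp (-(1 / M)) ≤ 4 * Real.pi * k * w.im / T := by
      rw [← Real.le_log_iff_exp_le h5, ← neg_div, div_le_iff₀ hM]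
      linarith only [h4.1]
    have h7 : 4 * Real.pi * k * w.im / T ≤ Real.exp (1 / M) := by
      rw [← Real.log_le_iff_le_exp h5, le_div_iff₀ hM]
      linarith only [h4.2]
    rw [le_div_iff₀ hT] at h6
    rw [div_le_iff₀ hT] at h7
    have h8 : 0 < 4 * Real.pi * w.im := by positivity
    refine ⟨⟨h2.1.le, h2.2.le⟩, ?_, ?_⟩
    · rw [div_le_iff₀ (by positivity)]
      linarith only [mul_le_mul_of_nonneg_left (hN k hk) h8.le, h6]
    · rw [le_div_iff₀ (by positivity)]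
      linarith only [mul_le_mul_of_nonneg_left hk1 h8.le, h7]
  refine ⟨_, √(T * Real.exp (1 / M) / (4 * Real.pi)), isCompact_Icc.reProdIm isCompact_Icc,
    fun w hw => lt_of_lt_of_le (by positivity) hw.2.1, fun k hk w =>
      ⟨?_, fun h => not_not.1 fun h' => h (key k hk w h')⟩⟩
  by_cases h : kr1 T M σ k w = 0
  · rw [h, norm_zero]
    exact Real.sqrt_nonneg _
  · have a := zt_mem w.re
    have a' := zt_mem (M * Real.log (4 * Real.pi * k * w.im / T))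
    rw [kr1, norm_mul, norm_mul, norm_ci, norm_ee, mul_one, mul_one, norm_real,
      Real.norm_of_nonneg (mul_nonneg (mul_nonneg a.1 (Real.sqrt_nonneg _)) a'.1)]
    exact ((mul_le_of_le_one_right (mul_nonneg a.1 (Real.sqrt_nonneg _)) a'.2).trans
      (mul_le_of_le_one_left (Real.sqrt_nonneg _) a.2)).trans
        (Real.sqrt_le_sqrt (key k hk w h).2.2)

theorem svb_fub {F : ℂ → ℂ} (hF : Integrable F muH) : ∫ w, F w ∂muH =
    ∫ y in Ioi (0 : ℝ), (1 / y ^ 2 : ℝ) • ∫ x : ℝ, F ((x : ℂ) + (y : ℂ) * I) := by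
  have hset : Up = measurableEquivRealProd ⁻¹' ((univ : Set ℝ) ×ˢ Ioi (0 : ℝ)) := by
    ext z
    simp [Up]
  let Φ : ℝ × ℝ → ℂ := fun p => (1 / p.2 ^ 2 : ℝ) • F ((p.1 : ℂ) + (p.2 : ℂ) * I)
  have hΦ : (fun z : ℂ => (1 / z.im ^ 2 : ℝ) • F z) = fun z => Φ (measurableEquivRealProd z) := by
    funext z
    simp [Φ]
  have h1 : IntegrableOn (fun z : ℂ => (1 / z.im ^ 2 : ℝ) • F z) Up := by
    refine ((integrable_withDensity_iff_integrable_smul
      (f := fun z : ℂ => Real.toNNReal (1 / z.im ^ 2)) (by fun_prop)).1 hF).congr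
        (.of_forall fun w => ?_)
    simp only
    rw [NNReal.smul_def, Real.coe_toNNReal _ (by positivity)]
  have hint : IntegrableOn Φ ((univ : Set ℝ) ×ˢ Ioi (0 : ℝ)) := by
    rw [← volume_preserving_equiv_real_prod.integrableOn_comp_preimage
      measurableEquivRealProd.measurableEmbedding, ← hset]
    rw [hΦ] at h1
    exact h1
  rw [IntegrableOn, Measure.volume_eq_prod, ← Measure.prod_restrict] at hint
  rw [int_muH, hΦ, hset, volume_preserving_equiv_real_prod.setIntegral_preimage_emb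
    measurableEquivRealProd.measurableEmbedding, Measure.volume_eq_prod,
    ← Measure.prod_restrict, integral_prod_symm _ hint]
  simp only [Φ, integral_smul, Measure.restrict_univ]

theorem svb_sub {a : ℝ} (ha : 0 < a) (g : ℝ → ℂ) :
    ∫ y in Ioi (0 : ℝ), (1 / y : ℝ) • g (Real.log (a * y)) = ∫ τ : ℝ, g τ := by
  have him : (fun τ : ℝ => Real.exp τ / a) '' univ = Ioi 0 := by
    ext y
    constructor
    · rintro ⟨τ, -, rfl⟩
      exact div_pos (Real.exp_pos τ) ha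
    · intro hy
      refine ⟨Real.log (a * y), trivial, ?_⟩
      simp only
      rw [Real.exp_log (mul_pos ha hy), mul_div_cancel_left₀ _ ha.ne']
  rw [← him, integral_image_eq_integral_abs_deriv_smul MeasurableSet.univ
    (f' := fun τ : ℝ => Real.exp τ / a)
    (fun τ _ => ((Real.hasDerivAt_exp τ).div_const a).hasDerivWithinAt)
    (fun τ _ τ' _ h => Real.exp_injective ((div_left_inj' ha.ne').1 h)), Measure.restrict_univ]
  refine integral_congr_ae (.of_forall fun τ => ?_)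
  have h1 := div_pos (Real.exp_pos τ) ha
  simp only
  rw [abs_of_pos h1, smul_smul, mul_one_div_cancel h1.ne', one_smul, mul_div_cancel₀ _ ha.ne',
    Real.log_exp]

/-- SVB.  Paper 4.1: Fubini, `int_zt_mul`, `Dat.coef`, the substitution `τ = log (4 π k y / T)`. -/
theorem kr_pair {T M κ t : ℝ} (hT : 0 < T) (hM : 0 < M) (ht : 0 < t) (σ : ℝ) {f : ℂ → ℝ}
    {lam : ℕ → ℝ} {b : ℝ → ℂ} {Cp Cm : ℂ} (hf : Form t f) (h : Dat κ t f lam b Cp Cm) {k : ℕ}
    (hk : 1 ≤ k) : ∫ w, kr1 T M σ k w * (f w : ℂ) ∂muH = ((lam k / √t : ℝ) : ℂ) *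
      ∫ τ : ℝ, (zt (M * τ) : ℂ) * ci (-(σ * τ)) * b (τ + Real.log (T / (2 * t))) := by
  have hp := Real.pi_pos
  have hk0 : (0 : ℝ) < k := by exact_mod_cast hk
  obtain ⟨K, B, hK, hU, hB⟩ := kr_supp hT hM σ (J := {k}) (by simpa using hk)
  obtain ⟨B', hB'⟩ := hf.toEig.bd hK hU
  have hB1 := hB k (Finset.mem_singleton_self k)
  have hi : Integrable (fun w => kr1 T M σ k w * (f w : ℂ)) muH :=
    bessel_int (b := B * B') ((measurable_kr1 T M σ k).mul
      (measurable_ofReal.comp hf.meas)).aestronglyMeasurable hK hU subset_rfl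
      (fun w _ h' => by rw [(hB1 w).2 h', zero_mul]) fun w hw => by
        rw [norm_mul, norm_real, Real.norm_eq_abs]
        exact mul_le_mul (hB1 w).1 (hB' w hw) (abs_nonneg _) ((norm_nonneg _).trans (hB1 w).1)
  rw [svb_fub hi, ← svb_sub (a := 4 * Real.pi * k / T) (by positivity), ← integral_const_mul]
  refine setIntegral_congr_fun measurableSet_Ioi fun y hy => ?_
  have hy0 : 0 < y := hy
  have hm : ∀ x : ℝ, (x : ℂ) + (y : ℂ) * I ∈ Up := fun x => by simpa [Up] using hy0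
  have hc : Continuous fun x : ℝ => (f ((x : ℂ) + (y : ℂ) * I) : ℂ) * ee (-(((k : ℤ) : ℝ) * x)) :=
    (continuous_ofReal.comp (hf.toEig.cont.comp_continuous (by fun_prop) hm)).mul
      (continuous_ee.comp (by fun_prop))
  have e1 := int_zt_mul hc fun x => by
    have e : -(((k : ℤ) : ℝ) * (x + 1)) = -(((k : ℤ) : ℝ) * x) + ((-(k : ℤ) : ℤ) : ℝ) := by
      push_cast
      ring
    have e' : ((x + 1 : ℝ) : ℂ) + (y : ℂ) * I = (x : ℂ) + (y : ℂ) * I + 1 := by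
      push_cast
      ring
    rw [e, ee_add, ee_int, mul_one, e', (hf.inv _ (hm x)).1]
  have e2 : ∫ x : ℝ, kr1 T M σ k ((x : ℂ) + (y : ℂ) * I) * (f ((x : ℂ) + (y : ℂ) * I) : ℂ) =
      ((√y * zt (M * Real.log (4 * Real.pi * k / T * y)) : ℝ) : ℂ) *
        ci (-(σ * Real.log (4 * Real.pi * k / T * y))) * fc f k y := by
    rw [fc, ← e1, ← integral_const_mul]
    refine integral_congr_ae (.of_forall fun x => ?_)
    have r1 : ((x : ℂ) + (y : ℂ) * I).re = x := by simp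
    have r2 : ((x : ℂ) + (y : ℂ) * I).im = y := by simp
    simp only [kr1, r1, r2, mul_div_right_comm (4 * Real.pi * k) y T, Int.cast_natCast, ofReal_mul]
    ring
  have e3 : Real.log (4 * Real.pi * k / T * y) + Real.log (T / (2 * t)) =
      Real.log (2 * Real.pi * y / t) + Real.log k := by
    rw [← Real.log_mul (by positivity) (by positivity), ← Real.log_mul (by positivity) hk0.ne']
    congr 1
    field_simp
    norm_num
  have e4 : 1 / y ^ 2 * (√y * √(y / t)) = 1 / √t * (1 / y) := by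
    rw [Real.sqrt_div hy0.le, ← mul_div_assoc, Real.mul_self_sqrt hy0.le]
    field_simp
  have e5 := congrArg (fun u : ℝ => (u : ℂ)) e4
  simp only [ofReal_mul] at e5
  rw [e2, h.coef k hk y hy0, e3, real_smul, real_smul, div_eq_mul_one_div (lam k)]
  simp only [ofReal_mul]
  linear_combination (lam k : ℂ) * (zt (M * Real.log (4 * Real.pi * k / T * y)) : ℂ) *
    ci (-(σ * Real.log (4 * Real.pi * k / T * y))) *
      b (Real.log (2 * Real.pi * y / t) + Real.log k) * e5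

theorem svc_meas (T M σ : ℝ) (J : Finset ℕ) (c : ℕ → ℂ) : Measurable (kr T M σ J c) :=
  Finset.measurable_sum _ fun k _ => (measurable_kr1 T M σ k).const_mul _

theorem svc_x (J : Finset ℕ) (a : ℕ → ℂ) :
    ∫⁻ x : ℝ, ENNReal.ofReal (‖(zt x : ℂ) * ∑ k ∈ J, a k * ee (-(k * x))‖ ^ 2) ≤
      ENNReal.ofReal (∑ k ∈ J, ‖a k‖ ^ 2) := by
  have cP : Continuous fun x : ℝ => ‖∑ k ∈ J, a k * ee (-(k * x))‖ ^ 2 :=
    (continuous_finsetSum _ fun k _ =>
      continuous_const.mul (continuous_ee.comp (by fun_prop))).norm.pow 2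
  have per : ∀ x : ℝ, ∑ k ∈ J, a k * ee (-(k * (x + 1))) = ∑ k ∈ J, a k * ee (-(k * x)) :=
    fun x => Finset.sum_congr rfl fun k _ => by
      have h := ee_int (-(k : ℤ))
      rw [show -((k : ℝ) * (x + 1)) = -(k * x) + ((-(k : ℤ) : ℤ) : ℝ) by push_cast; ring, ee_add, h,
        mul_one]
  have h1 := int_zt_mul (G := fun x : ℝ => ((‖∑ k ∈ J, a k * ee (-(k * x))‖ ^ 2 : ℝ) : ℂ))
    (continuous_ofReal.comp cP) (fun x => by simp only [per])
  simp only [← ofReal_mul] at h1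
  rw [integral_complex_ofReal, intervalIntegral.integral_ofReal] at h1
  have h2 : ∫ x in (0 : ℝ)..1, ‖∑ k ∈ J, a k * ee (-(k * x))‖ ^ 2 = ∑ k ∈ J, ‖a k‖ ^ 2 := by
    have inj : Set.InjOn (fun k : ℕ => -(k : ℤ)) J := fun a _ b _ h => by simpa using h
    have := int_sq (K := J.image fun k : ℕ => -(k : ℤ)) fun n => a n.natAbs
    simp only [Finset.sum_image inj, Int.natAbs_neg, Int.natAbs_natCast, Int.cast_neg,
      Int.cast_natCast, neg_mul] at this
    exact this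
  have h3 : ∫ x : ℝ, zt x * ‖∑ k ∈ J, a k * ee (-(k * x))‖ ^ 2 = ∑ k ∈ J, ‖a k‖ ^ 2 := by
    rw [← h2]
    exact_mod_cast h1
  have hi : Integrable fun x : ℝ => zt x * ‖∑ k ∈ J, a k * ee (-(k * x))‖ ^ 2 := by
    refine (contDiff_zt.continuous.mul cP).integrable_of_hasCompactSupport
      (HasCompactSupport.mul_right (HasCompactSupport.intro (isCompact_Icc (a := -1) (b := 1))
        fun x hx => ?_))
    by_contra h
    exact hx (abs_le.1 (zt_supp h).le)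
  rw [← h3, ofReal_integral_eq_lintegral_ofReal hi
    (ae_of_all _ fun x => mul_nonneg (zt_mem x).1 (sq_nonneg _))]
  refine lintegral_mono fun x => ENNReal.ofReal_le_ofReal ?_
  obtain ⟨z0, z1⟩ := zt_mem x
  rw [norm_mul, mul_pow, norm_real, Real.norm_of_nonneg z0]
  exact mul_le_mul_of_nonneg_right (by nlinarith only [z0, z1]) (sq_nonneg _)

theorem svc_y {α M : ℝ} (hα : 0 < α) (hM : 0 < M) :
    ∫⁻ y in Ioi (0 : ℝ), ENNReal.ofReal (1 / y * zt (M * Real.log (α * y)) ^ 2) ≤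
      ENNReal.ofReal (2 / M) := by
  have a0 : 0 < Real.exp (-(1 / M)) / α := by positivity
  have b0 : 0 < Real.exp (1 / M) / α := by positivity
  have ab : Real.exp (-(1 / M)) / α ≤ Real.exp (1 / M) / α := by
    have : 0 < 1 / M := by positivity
    gcongr
    linarith only [this]
  have h1 : ∫ y in Real.exp (-(1 / M)) / α..Real.exp (1 / M) / α, 1 / y = 2 / M := by
    rw [integral_one_div_of_pos a0 b0, div_div_div_cancel_right₀ hα.ne', ← Real.exp_sub,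
      Real.log_exp]
    ring
  have hc : ContinuousOn (fun y : ℝ => 1 / y)
      (Icc (Real.exp (-(1 / M)) / α) (Real.exp (1 / M) / α)) :=
    continuousOn_const.div continuousOn_id fun y hy => (a0.trans_le hy.1).ne'
  rw [← h1, intervalIntegral.integral_of_le ab, ← integral_Icc_eq_integral_Ioc,
    ofReal_integral_eq_lintegral_ofReal (hc.integrableOn_compact isCompact_Icc)
      (ae_restrict_of_forall_mem measurableSet_Icc fun y hy =>
        (one_div_pos.2 (a0.trans_le hy.1)).le),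
    ← lintegral_indicator measurableSet_Icc, ← lintegral_indicator measurableSet_Ioi]
  refine lintegral_mono fun y => ?_
  by_cases hy : y ∈ Ioi (0 : ℝ)
  · have y0 : 0 < y := hy
    rw [indicator_of_mem hy]
    by_cases hz : zt (M * Real.log (α * y)) = 0
    · simp only [one_div, hz, ne_eq, OfNat.ofNat_ne_zero, not_false_eq_true, zero_pow, mul_zero, ENNReal.ofReal_zero, zero_le]
    have h2 := zt_supp hz
    rw [abs_mul, abs_of_pos hM, ← lt_div_iff₀' hM, abs_lt] at h2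
    have ay : 0 < α * y := by positivity
    rw [indicator_of_mem]
    · refine ENNReal.ofReal_le_ofReal (mul_le_of_le_one_right (by positivity) ?_)
      exact pow_le_one₀ (zt_mem _).1 (zt_mem _).2
    · constructor
      · rw [div_le_iff₀' hα]
        exact ((Real.lt_log_iff_exp_lt ay).1 h2.1).le
      · rw [le_div_iff₀' hα]
        exact ((Real.log_lt_iff_lt_exp ay).1 h2.2).le
  · rw [indicator_of_notMem hy]
    exact zero_le

theorem svc_lint {T M : ℝ} (hT : 0 < T) (hM : 0 < M) (σ : ℝ) {J : Finset ℕ} (hJ : ∀ k ∈ J, 1 ≤ k)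
    (c : ℕ → ℂ) : ∫⁻ w, ENNReal.ofReal (‖kr T M σ J c w‖ ^ 2) ∂muH ≤
      ENNReal.ofReal (2 * (∑ k ∈ J, ‖c k‖ ^ 2) / M) := by
  have hm : Measurable fun w => ENNReal.ofReal (‖kr T M σ J c w‖ ^ 2) :=
    ((svc_meas T M σ J c).norm.pow_const 2).ennreal_ofReal
  have hm2 : Measurable fun p : ℝ × ℝ => ENNReal.ofReal (1 / p.2 ^ 2) *
      ENNReal.ofReal (‖kr T M σ J c ⟨p.1, p.2⟩‖ ^ 2) :=
    Measurable.mul (by fun_prop) (hm.comp Complex.measurableEquivRealProd.symm.measurable)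
  rw [tail_lint hm, lintegral_lintegral_swap hm2.aemeasurable]
  have mz : ∀ k : ℕ, Measurable fun y : ℝ =>
      ENNReal.ofReal (1 / y * zt (M * Real.log (4 * Real.pi * k / T * y)) ^ 2) := fun k =>
    (Measurable.mul (by fun_prop) ((contDiff_zt.continuous.measurable.comp
      (by fun_prop)).pow_const 2)).ennreal_ofReal
  calc _ ≤ ∫⁻ y in Ioi (0 : ℝ), ∑ k ∈ J, ENNReal.ofReal (‖c k‖ ^ 2) *
        ENNReal.ofReal (1 / y * zt (M * Real.log (4 * Real.pi * k / T * y)) ^ 2) := by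
        refine setLIntegral_mono' measurableSet_Ioi fun y hy => ?_
        have y0 : 0 < y := hy
        rw [lintegral_const_mul' _ _ ENNReal.ofReal_ne_top]
        have e : ∀ x : ℝ, kr T M σ J c ⟨x, y⟩ = (zt x : ℂ) * ∑ k ∈ J,
            c k * ((√y * zt (M * Real.log (4 * Real.pi * k * y / T)) : ℝ) : ℂ) *
              ci (-(σ * Real.log (4 * Real.pi * k * y / T))) * ee (-(k * x)) := fun x => by
          rw [kr, Finset.mul_sum]
          refine Finset.sum_congr rfl fun k _ => ?_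
          simp only [kr1]
          push_cast
          ring
        simp only [e]
        refine (mul_le_mul_right (svc_x J _) _).trans (le_of_eq ?_)
        rw [← ENNReal.ofReal_mul (by positivity), Finset.mul_sum,
          ENNReal.ofReal_sum_of_nonneg fun k _ => by positivity]
        refine Finset.sum_congr rfl fun k _ => ?_
        rw [← ENNReal.ofReal_mul (by positivity), norm_mul, norm_mul, norm_ci, norm_real, mul_one,
          mul_pow, Real.norm_eq_abs, sq_abs, mul_pow, Real.sq_sqrt y0.le,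
          show 4 * Real.pi * k / T * y = 4 * Real.pi * k * y / T by ring]
        congr 1
        field_simp
    _ ≤ ∑ k ∈ J, ENNReal.ofReal (‖c k‖ ^ 2) * ENNReal.ofReal (2 / M) := by
        rw [lintegral_finsetSum _ fun k _ => (mz k).const_mul _]
        refine Finset.sum_le_sum fun k hk => ?_
        have k0 : (0 : ℝ) < k := by exact_mod_cast hJ k hk
        rw [lintegral_const_mul' _ _ ENNReal.ofReal_ne_top]
        exact mul_le_mul_right (svc_y (by positivity) hM) _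
    _ = _ := by
        rw [← Finset.sum_mul, ← ENNReal.ofReal_sum_of_nonneg fun k _ => by positivity,
          ← ENNReal.ofReal_mul (by positivity)]
        congr 1
        ring

/-- SVC.  Paper 4.4: `int_sq` on two periods. -/
theorem kr_diag {T M : ℝ} (hT : 0 < T) (hM : 0 < M) (σ : ℝ) {J : Finset ℕ} (hJ : ∀ k ∈ J, 1 ≤ k)
    (c : ℕ → ℂ) : ∫ w, ‖kr T M σ J c w‖ ^ 2 ∂muH ≤ 4 * (∑ k ∈ J, ‖c k‖ ^ 2) / M := by
  rw [integral_eq_lintegral_of_nonneg_ae (ae_of_all _ fun w => sq_nonneg _)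
    ((svc_meas T M σ J c).norm.pow_const 2).aestronglyMeasurable]
  refine ENNReal.toReal_le_of_le_ofReal (by positivity) ((svc_lint hT hM σ hJ c).trans ?_)
  refine ENNReal.ofReal_le_ofReal ?_
  gcongr
  norm_num

theorem svc_one {T M : ℝ} (hT : 0 < T) (hM : 0 < M) (σ : ℝ) {J : Finset ℕ} (hJ : ∀ k ∈ J, 1 ≤ k)
    (c : ℕ → ℂ) (γ : SL(2, ℤ)) :
    ‖∫ w, kr T M σ J c w * conj (kr T M σ J c (mb (act γ one) w)) ∂muH‖ ≤
      4 * (∑ k ∈ J, ‖c k‖ ^ 2) / M := by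
  have hm : Measurable fun w => ENNReal.ofReal (‖kr T M σ J c w‖ ^ 2) :=
    ((svc_meas T M σ J c).norm.pow_const 2).ennreal_ofReal
  have h1 := svc_lint hT hM σ hJ c
  have h2 := h1
  rw [← (mp_mb (act_one_mem γ)).lintegral_comp hm] at h2
  refine (norm_integral_le_lintegral_norm _).trans
    (ENNReal.toReal_le_of_le_ofReal (by positivity) ?_)
  calc _ ≤ ∫⁻ w, (ENNReal.ofReal (‖kr T M σ J c w‖ ^ 2) +
        ENNReal.ofReal (‖kr T M σ J c (mb (act γ one) w)‖ ^ 2)) ∂muH := by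
        refine lintegral_mono fun w => ?_
        rw [← ENNReal.ofReal_add (sq_nonneg _) (sq_nonneg _), norm_mul, norm_conj]
        refine ENNReal.ofReal_le_ofReal ?_
        linarith only [sq_nonneg (‖kr T M σ J c w‖ - ‖kr T M σ J c (mb (act γ one) w)‖), sq_nonneg ‖kr T M σ J c w‖, sq_nonneg ‖kr T M σ J c (mb (act γ one) w)‖]
    _ ≤ ENNReal.ofReal (2 * (∑ k ∈ J, ‖c k‖ ^ 2) / M) +
        ENNReal.ofReal (2 * (∑ k ∈ J, ‖c k‖ ^ 2) / M) := by
        rw [lintegral_add_left hm]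
        exact add_le_add h1 h2
    _ = _ := by
        rw [← ENNReal.ofReal_add (by positivity) (by positivity)]
        congr 1
        ring

theorem svc_van (T M σ : ℝ) (J : Finset ℕ) (c : ℕ → ℂ) {w : ℂ} (h : 1 ≤ |w.re|) :
    kr T M σ J c w = 0 := by
  have hz : zt w.re = 0 := by
    by_contra hz
    exact absurd (zt_supp hz) (not_lt.2 h)
  simp [kr, kr1, hz]

theorem svc_shape {γ : SL(2, ℤ)} (h : γ 1 0 = 0) :
    (γ 0 0 = 1 ∧ γ 1 1 = 1) ∨ (γ 0 0 = -1 ∧ γ 1 1 = -1) := by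
  have hd := γ.det_coe
  rw [Matrix.det_fin_two, h, mul_zero, sub_zero] at hd
  exact Int.eq_one_or_neg_one_of_mul_eq_one' hd

theorem svc_far (T M σ : ℝ) (J : Finset ℕ) (c : ℕ → ℂ) {γ : SL(2, ℤ)} (h : γ 1 0 = 0)
    (hb : 2 ≤ |γ 0 1|) (w : ℂ) :
    kr T M σ J c w * conj (kr T M σ J c (mb (act γ one) w)) = 0 := by
  have hb' : (2 : ℝ) ≤ |(γ 0 1 : ℝ)| := by exact_mod_cast hb
  by_cases hw : 1 ≤ |w.re|
  · rw [svc_van T M σ J c hw, zero_mul]
  rw [svc_van T M σ J c (w := mb (act γ one) w), map_zero, mul_zero]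
  rw [hyp_mb_act, h]
  have hw' := abs_lt.1 (not_le.1 hw)
  rcases svc_shape h with ⟨h1, h2⟩ | ⟨h1, h2⟩ <;> rw [h1, h2]
  · have e : ((((1 : ℤ) : ℂ) * w + (γ 0 1 : ℂ)) / (((0 : ℤ) : ℂ) * w + ((1 : ℤ) : ℂ))).re =
        w.re + γ 0 1 := by simp
    rw [e]
    rcases le_abs'.1 hb' with h3 | h3
    · exact le_abs'.2 (Or.inl (by linarith only [hw', h3]))
    · exact le_abs'.2 (Or.inr (by linarith only [hw', h3]))
  · have e : ((((-1 : ℤ) : ℂ) * w + (γ 0 1 : ℂ)) / (((0 : ℤ) : ℂ) * w + ((-1 : ℤ) : ℂ))).re =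
        w.re - γ 0 1 := by
      simp only [Int.reduceNeg, Int.cast_neg, Int.cast_one, neg_mul, one_mul, Fin.isValue, Int.cast_zero, zero_mul, zero_add, div_neg, div_one, neg_add_rev, neg_neg, add_re, neg_re, intCast_re]
      ring
    rw [e]
    rcases le_abs'.1 hb' with h3 | h3
    · exact le_abs'.2 (Or.inr (by linarith only [hw', h3]))
    · exact le_abs'.2 (Or.inl (by linarith only [hw', h3]))

/-- SVC.  Paper 4.4: the elements with `c = 0` are translations by an integer `n`; the integral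
vanishes for `2 ≤ |n|`; Cauchy-Schwarz and `mp_mb`. -/
theorem kr_zero {T M : ℝ} (hT : 0 < T) (hM : 0 < M) (σ : ℝ) {J : Finset ℕ} (hJ : ∀ k ∈ J, 1 ≤ k)
    (c : ℕ → ℂ) (Γ : Finset SL(2, ℤ)) :
    ∑ γ ∈ Γ.filter (fun γ => γ 1 0 = 0),
      ‖∫ w, kr T M σ J c w * conj (kr T M σ J c (mb (act γ one) w)) ∂muH‖ ≤
      40 * (∑ k ∈ J, ‖c k‖ ^ 2) / M := by
  have hs := Finset.sum_filter_of_ne (s := Γ.filter fun γ => γ 1 0 = 0)
    (p := fun γ => |γ 0 1| < 2)
    (f := fun γ => ‖∫ w, kr T M σ J c w * conj (kr T M σ J c (mb (act γ one) w)) ∂muH‖)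
    fun γ hγ hne => by
      by_contra hb
      apply hne
      simp only [svc_far T M σ J c (Finset.mem_filter.1 hγ).2 (not_lt.1 hb), integral_zero,
        norm_zero]
  have hc : ((Γ.filter fun γ => γ 1 0 = 0).filter fun γ => |γ 0 1| < 2).card ≤
      (Finset.Icc (-1 : ℤ) 1 ×ˢ Finset.Icc (-1 : ℤ) 1).card := by
    refine Finset.card_le_card_of_injOn (fun γ => (γ 0 0, γ 0 1)) (fun γ hγ => ?_)
      fun γ hγ γ' hγ' e => ?_
    · simp only [Finset.coe_filter, Finset.mem_filter, mem_ofPred_eq] at hγ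
      have h1 := svc_shape hγ.1.2
      have h2 := abs_lt.1 hγ.2
      simp only [Finset.coe_product, Finset.coe_Icc, mem_prod, mem_Icc]
      omega
    · simp only [Finset.coe_filter, Finset.mem_filter, mem_ofPred_eq] at hγ hγ'
      have h1 := svc_shape hγ.1.2
      have h2 := svc_shape hγ'.1.2
      have h3 := hγ.1.2
      have h4 := hγ'.1.2
      simp only [Prod.mk.injEq] at e
      ext i j
      fin_cases i <;> fin_cases j <;> simp only [Fin.zero_eta, Fin.mk_one, Fin.isValue] <;> omega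
  rw [← hs]
  refine (Finset.sum_le_card_nsmul _ _ _ fun γ _ => svc_one hT hM σ hJ c γ).trans ?_
  have h9 : ((((Γ.filter fun γ => γ 1 0 = 0).filter fun γ => |γ 0 1| < 2).card : ℕ) : ℝ) ≤ 10 := by
    exact_mod_cast hc.trans (by simp)
  rw [nsmul_eq_mul]
  refine (mul_le_mul_of_nonneg_right h9 (by positivity)).trans (le_of_eq ?_)
  ring

theorem svd_change (x₀ : ℝ) (F : ℂ → ℂ) : ∫ w, F w ∂muH =
    ∫ q : ℝ × ℝ, F (((q.1 * Real.exp q.2 - x₀ : ℝ) : ℂ) + (Real.exp q.2 : ℝ) * I) := by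
  have hd : ∀ q ∈ (univ : Set (ℝ × ℝ)), HasFDerivWithinAt
      (fun q : ℝ × ℝ => (q.1 * Real.exp q.2 - x₀, Real.exp q.2))
      (Matrix.toLin (.finTwoProd ℝ) (.finTwoProd ℝ)
        !![Real.exp q.2, q.1 * Real.exp q.2; 0, Real.exp q.2]).toContinuousLinearMap univ q := by
    intro q _
    rw [Matrix.toLin_finTwoProd_toContinuousLinearMap]
    have h1 := (Real.hasDerivAt_exp q.2).comp_hasFDerivAt q (hasFDerivAt_snd (𝕜 := ℝ))
    refine HasFDerivAt.hasFDerivWithinAt ?_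
    convert! HasFDerivAt.prodMk (𝕜 := ℝ) ((hasFDerivAt_fst.mul h1).sub_const x₀) h1 using 2 <;>
      simp [smul_smul, add_comm]
  have hi : InjOn (fun q : ℝ × ℝ => (q.1 * Real.exp q.2 - x₀, Real.exp q.2)) univ := by
    intro q _ q' _ h
    obtain ⟨h1, h2⟩ := Prod.mk.inj h
    have h3 := Real.exp_injective h2
    rw [h3, sub_left_inj] at h1
    exact Prod.ext (mul_right_cancel₀ (Real.exp_pos _).ne' h1) h3
  have him : (fun q : ℝ × ℝ => (q.1 * Real.exp q.2 - x₀, Real.exp q.2)) '' univ =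
      {u : ℝ × ℝ | 0 < u.2} := by
    ext u
    constructor
    · rintro ⟨q, -, rfl⟩
      exact Real.exp_pos _
    · intro hu
      have hu' : 0 < u.2 := hu
      refine ⟨((u.1 + x₀) / u.2, Real.log u.2), mem_univ _, ?_⟩
      simp only [Real.exp_log hu', div_mul_cancel₀ _ hu'.ne', add_sub_cancel_right]
  have h := integral_image_eq_integral_abs_det_fderiv_smul volume MeasurableSet.univ hd hi
    (fun u : ℝ × ℝ => (1 / u.2 ^ 2 : ℝ) • F ((u.1 : ℂ) + (u.2 : ℝ) * I))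
  rw [him, Measure.restrict_univ] at h
  have h2 := Complex.volume_preserving_equiv_real_prod.setIntegral_preimage_emb
    measurableEquivRealProd.measurableEmbedding
    (fun u : ℝ × ℝ => (1 / u.2 ^ 2 : ℝ) • F ((u.1 : ℂ) + (u.2 : ℝ) * I)) {u : ℝ × ℝ | 0 < u.2}
  rw [int_muH]
  refine Eq.trans ?_ (h2.trans (h.trans ?_))
  · simp only [measurableEquivRealProd_apply, re_add_im]
    rfl
  · refine integral_congr_ae (.of_forall fun q => ?_)
    simp only [LinearMap.det_toContinuousLinearMap, LinearMap.det_toLin, Matrix.det_fin_two_of,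
      mul_zero, sub_zero, smul_smul]
    rw [abs_of_pos (by positivity), ← sq, mul_one_div_cancel (by positivity), one_smul]

theorem svd_mb (γ : SL(2, ℤ)) (hγ : γ 1 0 ≠ 0) (p r : ℝ) :
    mb (act γ one) (((p * Real.exp r - (γ 1 1 : ℝ) / (γ 1 0 : ℝ) : ℝ) : ℂ) + (Real.exp r : ℝ) * I) =
      (((γ 0 0 : ℝ) / (γ 1 0 : ℝ) - p * (Real.exp (-r) / ((γ 1 0 : ℝ) ^ 2 * (1 + p ^ 2))) : ℝ) : ℂ) +
        (Real.exp (-r) / ((γ 1 0 : ℝ) ^ 2 * (1 + p ^ 2)) : ℝ) * I := by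
  have hdet : (γ 0 0 : ℂ) * γ 1 1 - γ 0 1 * γ 1 0 = 1 := by
    have := γ.det_coe
    rw [Matrix.det_fin_two] at this
    exact_mod_cast this
  have hc : (γ 1 0 : ℂ) ≠ 0 := by exact_mod_cast hγ
  have he : ((Real.exp r : ℝ) : ℂ) ≠ 0 := ofReal_ne_zero.2 (Real.exp_pos r).ne'
  have hp : (1 + (p : ℂ) ^ 2) ≠ 0 := by
    have : (0 : ℝ) < 1 + p ^ 2 := by positivity
    exact_mod_cast this.ne'
  have hq : (p : ℂ) + I ≠ 0 := fun h => by simpa using congrArg Complex.im h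
  rw [hyp_mb_act, Real.exp_neg]
  simp only [ofReal_sub, ofReal_mul, ofReal_div, ofReal_intCast, ofReal_inv, ofReal_pow,
    ofReal_add, ofReal_one]
  generalize ((Real.exp r : ℝ) : ℂ) = y at he
  generalize (γ 0 0 : ℂ) = a at *
  generalize (γ 0 1 : ℂ) = b at *
  generalize (γ 1 1 : ℂ) = d at *
  generalize (γ 1 0 : ℂ) = c at *
  have h1 : c * ((p : ℂ) * y - d / c + y * I) + d = c * y * (p + I) := by field_simp; ring
  rw [h1, div_eq_iff (mul_ne_zero (mul_ne_zero hc he) hq)]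
  field_simp
  linear_combination (-(1 + (p : ℂ) ^ 2)) * hdet - I_sq

/-- SVD.  Paper 4.5, the coordinates `x + d / c = p y`, `y = exp r`. -/
theorem kr_polar {T M : ℝ} (hT : 0 < T) (hM : 0 < M) (σ : ℝ) {k₁ k₂ : ℕ} (h₁ : 1 ≤ k₁) (h₂ : 1 ≤ k₂)
    (γ : SL(2, ℤ)) (hγ : γ 1 0 ≠ 0) :
    ‖∫ w, kr1 T M σ k₁ w * conj (kr1 T M σ k₂ (mb (act γ one) w)) ∂muH‖ₑ ≤
      ∫⁻ p : ℝ, ‖inn T M σ k₁ k₂ (γ 0 0) (γ 1 0) (γ 1 1) p‖ₑ := by
  rw [svd_change ((γ 1 1 : ℝ) / (γ 1 0 : ℝ))]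
  by_cases hI : Integrable (fun q : ℝ × ℝ => kr1 T M σ k₁
      (((q.1 * Real.exp q.2 - (γ 1 1 : ℝ) / (γ 1 0 : ℝ) : ℝ) : ℂ) + (Real.exp q.2 : ℝ) * I) *
      conj (kr1 T M σ k₂ (mb (act γ one)
      (((q.1 * Real.exp q.2 - (γ 1 1 : ℝ) / (γ 1 0 : ℝ) : ℝ) : ℂ) + (Real.exp q.2 : ℝ) * I))))
      ((volume : Measure ℝ).prod volume)
  swap
  · rw [Measure.volume_eq_prod, integral_undef hI, enorm_zero]
    exact zero_le
  rw [Measure.volume_eq_prod, integral_prod _ hI]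
  refine (enorm_integral_le_lintegral_enorm _).trans (le_of_eq ?_)
  refine lintegral_congr fun p => congrArg _ ?_
  refine integral_congr_ae (.of_forall fun r => ?_)
  have hc : (γ 1 0 : ℝ) ≠ 0 := by exact_mod_cast hγ
  simp only [svd_mb γ hγ]
  generalize (γ 0 0 : ℝ) = a
  generalize (γ 1 1 : ℝ) = d
  generalize (γ 1 0 : ℝ) = c at hc ⊢
  have hs : √(Real.exp r) * √(Real.exp (-r) / (c ^ 2 * (1 + p ^ 2))) =
      1 / (|c| * √(1 + p ^ 2)) := by
    rw [← Real.sqrt_mul (Real.exp_pos r).le, ← mul_div_assoc, ← Real.exp_add, add_neg_cancel,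
      Real.exp_zero, Real.sqrt_div zero_le_one, Real.sqrt_one, Real.sqrt_mul (sq_nonneg c),
      Real.sqrt_sq_eq_abs]
  rw [← hs]
  generalize Real.exp (-r) / (c ^ 2 * (1 + p ^ 2)) = y₂
  generalize p * Real.exp r - d / c = x₁
  generalize a / c - p * y₂ = x₂
  simp only [kr1, add_re, add_im, ofReal_re, ofReal_im, mul_re, mul_im, I_re, I_im, mul_zero,
    mul_one, sub_zero, add_zero, zero_add, zero_mul, sub_self, map_mul, conj_ofReal, conj_ci, ee,
    neg_neg, mul_neg, sub_eq_add_neg, ci_add, mul_assoc, ofReal_mul]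
  ring

theorem sve_form {T L σ a c d p α β : ℝ} {k₁ k₂ : ℕ} (hT : 0 < T) (h₁ : 1 ≤ k₁) (h₂ : 1 ≤ k₂)
    (hc : 1 ≤ |c|) (hα : Real.exp α = 4 * Real.pi * k₁ / T)
    (hβ : Real.exp β = 4 * Real.pi * k₂ / (c ^ 2 * (1 + p ^ 2) * T)) :
    inn T L σ k₁ k₂ a c d p = ∫ r : ℝ,
      ((zt (p * (T / (4 * Real.pi * k₁)) * Real.exp (r + α) - d / c) *
        zt (a / c - p * (T / (4 * Real.pi * k₂)) * Real.exp (-r + β)) *
        (1 / (|c| * √(1 + p ^ 2))) * zt (L * (r + α)) * zt (L * (-r + β)) : ℝ) : ℂ) *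
      ci (-(σ * (r + α)) + σ * (-r + β) - T / 2 * p * (Real.exp (r + α) + Real.exp (-r + β)) +
        (2 * Real.pi * k₁ * (d / c) + 2 * Real.pi * k₂ * (a / c))) := by
  have hc0 : c ≠ 0 := abs_pos.1 (by linarith only [hc])
  have k1 : (0 : ℝ) < k₁ := by exact_mod_cast h₁
  have k2 : (0 : ℝ) < k₂ := by exact_mod_cast h₂
  have hπ := Real.pi_pos
  unfold inn
  congr 1
  funext r
  have e1 : 4 * Real.pi * k₁ * Real.exp r / T = Real.exp (r + α) := by
    rw [Real.exp_add, hα]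
    ring
  have e2 : 4 * Real.pi * k₂ * (Real.exp (-r) / (c ^ 2 * (1 + p ^ 2))) / T =
      Real.exp (-r + β) := by
    rw [Real.exp_add, hβ]
    field_simp
  have e3 : p * Real.exp r = p * (T / (4 * Real.pi * k₁)) * Real.exp (r + α) := by
    rw [← e1]
    field_simp
  have e4 : p * (Real.exp (-r) / (c ^ 2 * (1 + p ^ 2))) =
      p * (T / (4 * Real.pi * k₂)) * Real.exp (-r + β) := by
    rw [← e2]
    field_simp
  rw [e1, e2, Real.log_exp, Real.log_exp, e3, e4]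
  congr 2
  generalize d / c = x
  generalize a / c = y
  field_simp
  ring

theorem sve_exp {L x : ℝ} (hL : 100 ≤ L) (h : |L * x| ≤ 1) :
    |x| ≤ 1 / L ∧ |Real.exp x - 1| ≤ 2 / L ∧ 1 / L ≤ 1 / 100 := by
  have h0 : 0 < L := by linarith
  rw [abs_mul, abs_of_pos h0, mul_comm, ← le_div_iff₀ h0] at h
  have h1 : 1 / L ≤ 1 / 100 := one_div_le_one_div_of_le (by norm_num) hL
  refine ⟨h, (Real.abs_exp_sub_one_le (h.trans (by linarith only [h1]))).trans ?_, h1⟩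
  rw [show 2 / L = 2 * (1 / L) by ring]
  linarith

theorem sve_core {T M σ a c d p α β : ℝ} {k₁ k₂ : ℕ} (hT : 0 < T) (hM : 1 ≤ M) (h₁ : 1 ≤ k₁)
    (h₂ : 1 ≤ k₂) (r₁ : (k₁ : ℝ) ≤ M ^ 2 * k₂) (r₂ : (k₂ : ℝ) ≤ M ^ 2 * k₁) (hc : 1 ≤ |c|)
    (hα : Real.exp α = 4 * Real.pi * k₁ / T)
    (hβ : Real.exp β = 4 * Real.pi * k₂ / (c ^ 2 * (1 + p ^ 2) * T))
    (h : inn T (100 * M) σ k₁ k₂ a c d p ≠ 0) :
    |α + β| ≤ 2 / (100 * M) ∧ |p * (T / (4 * Real.pi * k₁))| ≤ 2 * M ∧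
      |p * (T / (4 * Real.pi * k₂))| ≤ 2 * M ∧ |d / c - p * (T / (4 * Real.pi * k₁))| ≤ 2 ∧
      |a / c - p * (T / (4 * Real.pi * k₂))| ≤ 2 := by
  rw [sve_form hT h₁ h₂ hc hα hβ] at h
  obtain ⟨r, hr⟩ := not_forall.1 fun h0 => h (integral_eq_zero_of_ae (.of_forall h0))
  have hr' := ofReal_ne_zero.1 (left_ne_zero_of_mul hr)
  simp only [ne_eq, mul_eq_zero, not_or] at hr'
  obtain ⟨⟨⟨⟨z1, z2⟩, -⟩, z3⟩, z4⟩ := hr'
  have hL : 100 ≤ 100 * M := by linarith only [hM]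
  obtain ⟨a1, a2, a3⟩ := sve_exp hL (zt_supp z3).le
  obtain ⟨b1, b2, -⟩ := sve_exp hL (zt_supp z4).le
  have z5 := zt_supp z1
  have z6 := zt_supp z2
  have k1 : (0 : ℝ) < k₁ := by exact_mod_cast h₁
  have k2 : (0 : ℝ) < k₂ := by exact_mod_cast h₂
  have hπ := Real.pi_pos
  have hc0 : c ≠ 0 := abs_pos.1 (by linarith only [hc])
  have hs : |α + β| ≤ 2 / (100 * M) := by
    rw [show α + β = r + α + (-r + β) by ring, show 2 / (100 * M) = 1 / (100 * M) + 1 / (100 * M)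
      by ring]
    exact (abs_add_le _ _).trans (add_le_add a1 b1)
  have e1 : T / (4 * Real.pi * k₁) * (T / (4 * Real.pi * k₂)) * (c ^ 2 * (1 + p ^ 2)) *
      Real.exp (α + β) = 1 := by
    rw [Real.exp_add, hα, hβ]
    field_simp
  have e2 : T / (4 * Real.pi * k₁) * k₁ = T / (4 * Real.pi * k₂) * k₂ := by field_simp
  have u1 : 0 < T / (4 * Real.pi * k₁) := by positivity
  have u2 : 0 < T / (4 * Real.pi * k₂) := by positivity
  generalize T / (4 * Real.pi * k₁) = u at *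
  generalize T / (4 * Real.pi * k₂) = v at *
  have e3 : 1 / 2 ≤ Real.exp (α + β) := by
    have := Real.add_one_le_exp (α + β)
    have := (abs_le.1 hs).1
    have : 2 / (100 * M) = 2 * (1 / (100 * M)) := by ring
    linarith
  have e4 : p ^ 2 ≤ c ^ 2 * (1 + p ^ 2) := by
    have := mul_le_mul_of_nonneg_right ((one_le_sq_iff_one_le_abs c).2 hc)
      (by positivity : 0 ≤ 1 + p ^ 2)
    linarith only [this]
  have e5 : u * v * p ^ 2 ≤ 2 := by
    have := mul_le_mul (mul_le_mul_of_nonneg_left e4 (mul_pos u1 u2).le) e3 (by norm_num)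
      (by positivity)
    linarith only [e1, this]
  have key : ∀ u v k k' : ℝ, 0 < u → 0 < v → 0 < k → u * k = v * k' → k' ≤ M ^ 2 * k →
      u * v * p ^ 2 ≤ 2 → |p * u| ≤ 2 * M := fun u v k k' hu hv hk e hk' h => by
    have f1 : u ≤ M ^ 2 * v := le_of_mul_le_mul_right (by
      have := mul_le_mul_of_nonneg_left hk' hv.le
      linarith only [e, this]) hk
    refine abs_le_of_sq_le_sq ?_ (by linarith only [hM])
    have f2 := mul_le_mul_of_nonneg_right f1 (by positivity : 0 ≤ u * p ^ 2)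
    have f3 := mul_le_mul_of_nonneg_left h (sq_nonneg M)
    have f4 := sq_nonneg M
    linarith only [f2, f3, f4]
  have key2 : ∀ x e E : ℝ, |x| ≤ 2 * M → |E - 1| ≤ 2 / (100 * M) → |e - x * E| < 1 →
      |e - x| ≤ 2 := fun x e E h1 h2 h3 => by
    have f1 : |x * (E - 1)| ≤ 2 * M * (2 / (100 * M)) := by
      rw [abs_mul]
      exact mul_le_mul h1 h2 (abs_nonneg _) (by linarith only [hM])
    have f2 : 2 * M * (2 / (100 * M)) = 1 / 25 := by field_simp; norm_num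
    have f3 := abs_add_le (e - x * E) (x * (E - 1))
    rw [show e - x * E + x * (E - 1) = e - x by ring] at f3
    linarith only [h3, f1, f2, f3]
  have x1 := key u v _ _ u1 u2 k1 e2 r₂ e5
  have x2 := key v u _ _ u2 u1 k2 e2.symm r₁ (by linarith only [e5])
  exact ⟨hs, x1, x2, key2 _ _ _ x1 a2 (by rwa [abs_sub_comm]), key2 _ _ _ x2 b2 z6⟩

theorem sve_ab {T c : ℝ} (p : ℝ) {k₁ k₂ : ℕ} (hT : 0 < T) (h₁ : 1 ≤ k₁) (h₂ : 1 ≤ k₂)
    (hc : 1 ≤ |c|) : ∃ α β : ℝ, Real.exp α = 4 * Real.pi * k₁ / T ∧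
      Real.exp β = 4 * Real.pi * k₂ / (c ^ 2 * (1 + p ^ 2) * T) := by
  have k1 : (0 : ℝ) < k₁ := by exact_mod_cast h₁
  have k2 : (0 : ℝ) < k₂ := by exact_mod_cast h₂
  have hc0 : c ≠ 0 := abs_pos.1 (by linarith only [hc])
  exact ⟨_, _, Real.exp_log (by positivity), Real.exp_log (by positivity)⟩

/-- SVE.  Paper 4.5, the support. -/
theorem inn_supp {T M σ a c d p : ℝ} {k₁ k₂ : ℕ} (hT : 0 < T) (hM : 1 ≤ M) (h₁ : 1 ≤ k₁)
    (h₂ : 1 ≤ k₂) (r₁ : (k₁ : ℝ) ≤ M ^ 2 * k₂) (r₂ : (k₂ : ℝ) ≤ M ^ 2 * k₁) (hc : 1 ≤ |c|)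
    (h : inn T (100 * M) σ k₁ k₂ a c d p ≠ 0) :
    |Real.log ((1 + p ^ 2) / (16 * Real.pi ^ 2 * k₁ * k₂ / (c ^ 2 * T ^ 2)))| ≤ 2 / (100 * M) ∧
      |d - c * p * (T / (4 * Real.pi * k₁))| ≤ 2 * |c| ∧
      |a - c * p * (T / (4 * Real.pi * k₂))| ≤ 2 * |c| := by
  obtain ⟨α, β, hα, hβ⟩ := sve_ab p hT h₁ h₂ hc
  obtain ⟨e1, -, -, e2, e3⟩ := sve_core hT hM h₁ h₂ r₁ r₂ hc hα hβ h
  have hc0 : c ≠ 0 := abs_pos.1 (by linarith only [hc])
  have k1 : (0 : ℝ) < k₁ := by exact_mod_cast h₁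
  have k2 : (0 : ℝ) < k₂ := by exact_mod_cast h₂
  have hπ := Real.pi_pos
  have key : ∀ e x : ℝ, |e / c - p * x| ≤ 2 → |e - c * p * x| ≤ 2 * |c| := fun e x h => by
    rw [show e - c * p * x = (e / c - p * x) * c by field_simp, abs_mul]
    exact mul_le_mul_of_nonneg_right h (abs_nonneg c)
  refine ⟨?_, key _ _ e2, key _ _ e3⟩
  have : (1 + p ^ 2) / (16 * Real.pi ^ 2 * k₁ * k₂ / (c ^ 2 * T ^ 2)) = Real.exp (-(α + β)) := by
    rw [Real.exp_neg, Real.exp_add, hα, hβ]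
    field_simp
    norm_num
  rwa [this, Real.log_exp, abs_neg]

theorem sve_sm {k κ : ℝ} {S : Set ℝ} {h h₁ h₂ : ℝ → ℝ} (hk : Sm univ 1 k zt) (hk1 : 1 ≤ k)
    (hκ : 1 ≤ κ) (hh : ContDiff ℝ 2 h) (d0 : ∀ x, HasDerivAt h (h₁ x) x)
    (d1 : ∀ x, HasDerivAt h₁ (h₂ x) x) (b : ∀ x ∈ S, |h₁ x| ≤ κ ∧ |h₂ x| ≤ κ) :
    Sm S 1 (2 * k * κ) fun x => zt (h x) := by
  have e : deriv h = h₁ := funext fun x => (d0 x).deriv
  refine hk.comp hk1 (by linarith) hh (fun x hx => e ▸ (b x hx).1) fun x hx => ?_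
  rw [e, (d1 x).deriv]
  exact (b x hx).2.trans (le_self_pow₀ hκ two_ne_zero)

theorem sve_osc : ∃ C : ℝ, 0 ≤ C ∧ ∀ L T σ α β x₁ x₂ e₁ e₂ w p C₀ : ℝ, 100 ≤ L → 0 < T → 0 ≤ w →
    |σ| = T * √3 / 2 → |x₁| ≤ L / 2 → |x₂| ≤ L / 2 → |p| ≤ L / 2 →
    ‖∫ r : ℝ, ((zt (x₁ * Real.exp (r + α) - e₁) * zt (e₂ - x₂ * Real.exp (-r + β)) * w *
        zt (L * (r + α)) * zt (L * (-r + β)) : ℝ) : ℂ) *
      ci (-(σ * (r + α)) + σ * (-r + β) - T / 2 * p * (Real.exp (r + α) + Real.exp (-r + β)) +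
        C₀)‖ ≤ C * L / T ^ 2 * w := by
  obtain ⟨k, hk1, hk⟩ := sm_zt
  refine ⟨4096 * k ^ 2, by positivity, fun L T σ α β x₁ x₂ e₁ e₂ w p C₀ hL hT hw hσ b₁ b₂ bp => ?_⟩
  have hL0 : 0 < L := by linarith only [hL]
  set S : Set ℝ := Icc (-(1 / L) - α) (1 / L - α) ∩ Icc (β - 1 / L) (β + 1 / L) with hS
  have hm : ∀ x : ℝ, |L * x| ≤ 1 ↔ -(1 / L) ≤ x ∧ x ≤ 1 / L := fun x => by
    rw [abs_mul, abs_of_pos hL0, mul_comm, ← le_div_iff₀ hL0, abs_le]
  have mem : ∀ r, r ∈ S ↔ |L * (r + α)| ≤ 1 ∧ |L * (-r + β)| ≤ 1 := fun r => by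
    rw [hm, hm]
    exact ⟨fun ⟨⟨a, b⟩, c, d⟩ => ⟨⟨by linarith only [a], by linarith only [b]⟩, by linarith only [d], by linarith only [c]⟩,
      fun ⟨⟨a, b⟩, c, d⟩ => ⟨⟨by linarith, by linarith⟩, by linarith, by linarith⟩⟩
  have bx : ∀ x y : ℝ, |x| ≤ L / 2 → |L * y| ≤ 1 → |x * Real.exp y| ≤ L := fun x y h1 h2 => by
    obtain ⟨-, a2, a3⟩ := sve_exp hL h2
    have a4 := (abs_le.1 a2).2
    have : 2 / L = 2 * (1 / L) := by ring
    rw [abs_mul, abs_of_pos (Real.exp_pos y)]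
    calc _ ≤ L / 2 * 2 := mul_le_mul h1 (by linarith only [a3, a4, this]) (Real.exp_pos y).le (by linarith only [hL])
      _ = L := by ring
  have l1 : ∀ r : ℝ, HasDerivAt (fun r => r + α) 1 r := fun r => (hasDerivAt_id' r).add_const α
  have l2 : ∀ r : ℝ, HasDerivAt (fun r => -r + β) (-1) r := fun r =>
    (hasDerivAt_id' r).fun_neg.add_const β
  have d1 : ∀ r, HasDerivAt (fun r => Real.exp (r + α)) (Real.exp (r + α)) r := fun r => by
    simpa using (l1 r).exp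
  have d2 : ∀ r, HasDerivAt (fun r => Real.exp (-r + β)) (-Real.exp (-r + β)) r := fun r => by
    simpa using (l2 r).exp
  have L1 : 1 ≤ L := by linarith only [hL]
  have s1 := sve_sm (S := S) (h := fun r => x₁ * Real.exp (r + α) - e₁) hk hk1 L1 (by fun_prop)
    (fun r => ((d1 r).const_mul x₁).sub_const e₁) (fun r => (d1 r).const_mul x₁)
    fun r hr => ⟨bx _ _ b₁ ((mem r).1 hr).1, bx _ _ b₁ ((mem r).1 hr).1⟩
  have s2 := sve_sm (S := S) (h := fun r => e₂ - x₂ * Real.exp (-r + β)) hk hk1 L1 (by fun_prop)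
    (fun r => ((d2 r).const_mul x₂).const_sub e₂)
    (fun r => ((d2 r).fun_neg.const_mul x₂).fun_neg) fun r hr => by
      simp only [abs_neg, mul_neg, neg_neg, and_self]
      exact bx _ _ b₂ ((mem r).1 hr).2
  have s3 := sve_sm (S := S) (h := fun r => L * (r + α)) hk hk1 L1 (by fun_prop)
    (fun r => (l1 r).const_mul L) (fun r => hasDerivAt_const r _) fun r _ => by
      simp [abs_of_pos hL0, hL0.le]
  have s4 := sve_sm (S := S) (h := fun r => L * (-r + β)) hk hk1 L1 (by fun_prop)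
    (fun r => (l2 r).const_mul L) (fun r => hasDerivAt_const r _) fun r _ => by
      simp [abs_of_pos hL0, hL0.le]
  have hA := ((((s1.mul s2).mul (Sm.const S hw)).mul s3).mul s4).mono subset_rfl (a' := w)
    (κ' := 8 * k * L) (by linarith only []) (by linarith only [])
  have h3 : (8 / 5 : ℝ) ≤ √3 := Real.le_sqrt_of_sq_le (by norm_num)
  have hs1 : 4 / 5 * T ≤ |σ| := by
    have := mul_le_mul_of_nonneg_left h3 hT.le
    linarith only [hσ, this]
  have hκ : 8 * L ≤ 8 * k * L := by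
    have := mul_le_mul_of_nonneg_right hk1 hL0.le
    linarith only [this]
  have := osc (Φ := fun r => -(σ * (r + α)) + σ * (-r + β) -
      T / 2 * p * (Real.exp (r + α) + Real.exp (-r + β)) + C₀)
    (Φ₁ := fun r => -(σ * 1) + σ * -1 - T / 2 * p * (Real.exp (r + α) + -Real.exp (-r + β)))
    (Φ₂ := fun r => -(T / 2 * p * (Real.exp (r + α) + - -Real.exp (-r + β))))
    (Φ₃ := fun r => -(T / 2 * p * (Real.exp (r + α) + - - -Real.exp (-r + β))))
    (x₀ := -(1 / L) - α) (l := 2 * (1 / L)) (m := T / 2) (by positivity) (by positivity)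
    (isClosed_Icc.inter isClosed_Icc) (ordConnected_Icc.inter ordConnected_Icc)
    (inter_subset_left.trans (Icc_subset_Icc le_rfl (by linarith only []))) hA
    (fun r hr => by
      by_contra h0
      exact hr ((mem r).2 ⟨(zt_supp (right_ne_zero_of_mul (left_ne_zero_of_mul h0))).le,
        (zt_supp (right_ne_zero_of_mul h0)).le⟩))
    (fun r _ => ((((l1 r).const_mul σ).fun_neg.fun_add ((l2 r).const_mul σ)).fun_sub
      (((d1 r).fun_add (d2 r)).const_mul _)).add_const C₀)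
    (fun r _ => (((d1 r).fun_add (d2 r).fun_neg).const_mul _).const_sub _)
    (fun r _ => (((d1 r).fun_add (d2 r).fun_neg.fun_neg).const_mul _).fun_neg)
    (by fun_prop) fun r hr => by
      obtain ⟨-, a2, a3⟩ := sve_exp hL ((mem r).1 hr).1
      obtain ⟨-, a4, -⟩ := sve_exp hL ((mem r).1 hr).2
      generalize Real.exp (r + α) = E at a2
      generalize Real.exp (-r + β) = E' at a4
      have e0 : 2 / L = 2 * (1 / L) := by ring
      have a5 := abs_le.1 a2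
      have a6 := abs_le.1 a4
      have f : ∀ x B : ℝ, |x| ≤ B → |T / 2 * p * x| ≤ T / 2 * (L / 2) * B := fun x B h => by
        rw [abs_mul, abs_mul, abs_of_pos (half_pos hT)]
        exact mul_le_mul (mul_le_mul_of_nonneg_left bp (half_pos hT).le) h (abs_nonneg x)
          (by positivity)
      have f1 := f (E + -E') (4 / L) (by
        rw [show 4 / L = 4 * (1 / L) by ring]
        exact abs_le.2 ⟨by linarith only [e0, a5, a6], by linarith only [e0, a5, a6]⟩)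
      have f2 := f (E + E') 3 (abs_le.2 ⟨by linarith only [a3, e0, a5, a6], by linarith only [a3, e0, a5, a6]⟩)
      rw [show T / 2 * (L / 2) * (4 / L) = T by field_simp; norm_num] at f1
      have f3 : T / 2 ≤ |-(σ * 1) + σ * -1 - T / 2 * p * (E + -E')| := by
        have := abs_sub_abs_le_abs_sub (-(σ * 1) + σ * -1) (T / 2 * p * (E + -E'))
        rw [show -(σ * 1) + σ * -1 = -(2 * σ) by ring, abs_neg, abs_mul 2, abs_two] at this
        rw [show -(σ * 1) + σ * -1 = -(2 * σ) by ring]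
        linarith only [hT, hs1, f1, this]
      have f4 := mul_le_mul hκ f3 (half_pos hT).le (by linarith only [hL, hκ])
      have f5 := mul_le_mul ((by linarith only [hL, hκ] : 2 ≤ 8 * k * L).trans
        (le_self_pow₀ (by linarith only [hL, hκ]) two_ne_zero)) f3 (half_pos hT).le (sq_nonneg _)
      have f6 := mul_pos hT hL0
      simp only [neg_neg, abs_neg]
      exact ⟨f3, by linarith only [f2, f4, f6], by linarith only [f1, f5]⟩
  refine this.trans (le_of_eq ?_)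
  field_simp
  ring

/-- SVE.  Paper 4.5: `osc0` and `osc`. -/
theorem inn_le : ∃ C : ℝ, 0 ≤ C ∧ ∀ (T M σ a c d p : ℝ) (k₁ k₂ : ℕ), 0 < T → 1 ≤ M → 1 ≤ k₁ →
    1 ≤ k₂ → (k₁ : ℝ) ≤ M ^ 2 * k₂ → (k₂ : ℝ) ≤ M ^ 2 * k₁ → 1 ≤ |c| → |σ| = T * √3 / 2 →
    ‖inn T (100 * M) σ k₁ k₂ a c d p‖ ≤ 1 / M * (1 / (|c| * √(1 + p ^ 2))) ∧
      (|p| ≤ 50 * M →
        ‖inn T (100 * M) σ k₁ k₂ a c d p‖ ≤ C * M / T ^ 2 * (1 / (|c| * √(1 + p ^ 2)))) := by
  obtain ⟨C, hC, hb⟩ := sve_osc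
  refine ⟨C * 100, by positivity, fun T M σ a c d p k₁ k₂ hT hM h₁ h₂ r₁ r₂ hc hσ => ?_⟩
  obtain ⟨α, β, hα, hβ⟩ := sve_ab p hT h₁ h₂ hc
  have hw : 0 ≤ 1 / (|c| * √(1 + p ^ 2)) := by positivity
  have hL : 100 ≤ 100 * M := by linarith only [hM]
  constructor
  · rw [sve_form hT h₁ h₂ hc hα hβ]
    refine (osc0 (S := Icc (-(1 / (100 * M)) - α) (1 / (100 * M) - α)) (x₀ := -(1 / (100 * M)) - α)
      (l := 2 * (1 / (100 * M))) (by positivity) hw (Icc_subset_Icc le_rfl (by linarith only []))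
      (fun r hr => ?_) fun r _ => ?_).trans (mul_le_mul_of_nonneg_right ?_ hw)
    · by_contra h0
      have := abs_le.1 (sve_exp hL (zt_supp (right_ne_zero_of_mul (left_ne_zero_of_mul h0))).le).1
      exact hr ⟨by linarith only [this], by linarith only [this]⟩
    · have z : ∀ x y B : ℝ, |x| ≤ B → |x * zt y| ≤ B := fun x y B h => by
        rw [abs_mul, abs_of_nonneg (zt_mem y).1]
        exact (mul_le_of_le_one_right (abs_nonneg x) (zt_mem y).2).trans h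
      refine z _ _ _ (z _ _ _ ?_)
      rw [mul_comm, ← mul_assoc]
      exact z _ _ _ (z _ _ _ (abs_of_nonneg hw).le)
    · rw [mul_one_div, div_le_div_iff₀ (by positivity) (by positivity)]
      linarith only [hM]
  · intro hp
    by_cases h : inn T (100 * M) σ k₁ k₂ a c d p = 0
    · rw [h, norm_zero]
      positivity
    obtain ⟨-, e1, e2, -⟩ := sve_core hT hM h₁ h₂ r₁ r₂ hc hα hβ h
    rw [sve_form hT h₁ h₂ hc hα hβ, mul_assoc C]
    exact hb _ _ _ _ _ _ _ _ _ _ _ _ hL hT hw hσ (by linarith only [hM, e1]) (by linarith only [hM, e2]) (by linarith only [hp])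

/-- SVF.  `a` modulo `c` is determined by `d`, and `b` by `a, c, d`. -/
theorem card_sl (Γ : Finset SL(2, ℤ)) {c : ℤ} (hc : c ≠ 0) (x x' : ℝ)
    (h : ∀ γ ∈ Γ, γ 1 0 = c ∧ |(γ 1 1 : ℝ) - x| ≤ 2 * |(c : ℝ)| ∧ |(γ 0 0 : ℝ) - x'| ≤ 2 * |(c : ℝ)|) :
    (Γ.card : ℝ) ≤ 25 * |(c : ℝ)| := by
  classical
  have hc1 : (1 : ℝ) ≤ |(c : ℝ)| := by exact_mod_cast Int.one_le_abs hc
  have hc0 : (c : ℝ) ≠ 0 := by exact_mod_cast hc
  have hdet : ∀ γ : SL(2, ℤ), γ 0 0 * γ 1 1 - γ 0 1 * γ 1 0 = 1 := fun γ => by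
    have := γ.det_coe
    rwa [Matrix.det_fin_two] at this
  have h1 : Γ.card ≤ 5 * (Γ.image fun γ => γ 1 1).card := by
    refine Finset.card_le_mul_card_image Γ 5 fun d hd => ?_
    obtain ⟨γ₀, hγ₀, rfl⟩ := Finset.mem_image.1 hd
    have hk : ∀ γ ∈ Γ.filter (fun γ => γ 1 1 = γ₀ 1 1),
        γ 0 0 - γ₀ 0 0 = c * (γ₀ 0 0 * γ 0 1 - γ 0 0 * γ₀ 0 1) := fun γ hγ => by
      obtain ⟨m, e⟩ := Finset.mem_filter.1 hγ
      have d1 := hdet γ
      have d2 := hdet γ₀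
      rw [(h γ m).1, e] at d1
      rw [(h γ₀ hγ₀).1] at d2
      linear_combination γ₀ 0 0 * d1 - γ 0 0 * d2
    have hinj : Set.InjOn (fun γ : SL(2, ℤ) => γ₀ 0 0 * γ 0 1 - γ 0 0 * γ₀ 0 1)
        (Γ.filter (fun γ => γ 1 1 = γ₀ 1 1) : Finset SL(2, ℤ)) := fun γ hγ γ' hγ' e => by
      have hγ := Finset.mem_coe.1 hγ
      have hγ' := Finset.mem_coe.1 hγ'
      have ea : γ 0 0 = γ' 0 0 := by
        have e1 := hk γ hγ
        have e2 := hk γ' hγ'
        simp only at e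
        rw [e] at e1
        linarith only [e1, e2]
      obtain ⟨m, e3⟩ := Finset.mem_filter.1 hγ
      obtain ⟨m', e4⟩ := Finset.mem_filter.1 hγ'
      have ec : γ 1 0 = γ' 1 0 := (h γ m).1.trans (h γ' m').1.symm
      have ed : γ 1 1 = γ' 1 1 := e3.trans e4.symm
      have eb : γ 0 1 = γ' 0 1 := by
        have d1 := hdet γ
        have d2 := hdet γ'
        rw [ea, ed, (h γ m).1] at d1
        rw [(h γ' m').1] at d2
        exact mul_right_cancel₀ hc (by linarith only [d1, d2])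
      refine Matrix.SpecialLinearGroup.ext _ _ fun i j => ?_
      fin_cases i <;> fin_cases j <;> assumption
    have h5 := card_le_of_abs (J := (Γ.filter (fun γ => γ 1 1 = γ₀ 1 1)).image
      fun γ : SL(2, ℤ) => γ₀ 0 0 * γ 0 1 - γ 0 0 * γ₀ 0 1) (x := (x' - γ₀ 0 0) / c) (L := 2)
      zero_le_two fun n hn => by
        obtain ⟨γ, hγ, rfl⟩ := Finset.mem_image.1 hn
        have e1 : ((γ 0 0 : ℤ) : ℝ) - (γ₀ 0 0 : ℤ) =
            c * ((γ₀ 0 0 * γ 0 1 - γ 0 0 * γ₀ 0 1 : ℤ) : ℝ) := by exact_mod_cast hk γ hγ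
        have e2 : ((γ₀ 0 0 * γ 0 1 - γ 0 0 * γ₀ 0 1 : ℤ) : ℝ) - (x' - γ₀ 0 0) / c =
            ((γ 0 0 : ℤ) - x') / c := by
          rw [eq_div_iff hc0, sub_mul, div_mul_cancel₀ _ hc0]
          linarith
        rw [e2, abs_div, div_le_iff₀ (by linarith only [hc1])]
        exact (h γ (Finset.mem_filter.1 hγ).1).2.2
    rw [Finset.card_image_of_injOn hinj] at h5
    have : (((Γ.filter (fun γ => γ 1 1 = γ₀ 1 1)).card : ℕ) : ℝ) ≤ (5 : ℕ) := by
      push_cast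
      linarith
    exact_mod_cast this
  have h2 := card_le_of_abs (J := Γ.image fun γ => γ 1 1) (x := x) (L := 2 * |(c : ℝ)|)
    (by linarith only [hc1]) fun n hn => by
      obtain ⟨γ, hγ, rfl⟩ := Finset.mem_image.1 hn
      exact (h γ hγ).2.1
  have h3 : (Γ.card : ℝ) ≤ 5 * ((Γ.image fun γ => γ 1 1).card : ℝ) := by exact_mod_cast h1
  linarith only [hc1, h2, h3]

theorem svf_int {S : Set ℝ} {A B L X : ℝ} (hX : 0 ≤ X) (hL : 0 < L) (hA : 0 ≤ A)
    (hLA : L ≤ 1 + A ^ 2) (hB : B - A ≤ X / 2 * √L) (hS : ∀ p ∈ S, A ≤ |p| ∧ |p| ≤ B) :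
    ∫⁻ p in S, ENNReal.ofReal (1 / √(1 + p ^ 2)) ≤ ENNReal.ofReal X := by
  have hs : 0 < √L := Real.sqrt_pos.2 hL
  have key : ∀ u v : ℝ, v - u = B - A → (∀ p ∈ Icc u v, A ≤ |p|) →
      ∫⁻ p in Icc u v, ENNReal.ofReal (1 / √(1 + p ^ 2)) ≤ ENNReal.ofReal (X / 2) := by
    intro u v e hp
    calc _ ≤ ∫⁻ _ in Icc u v, ENNReal.ofReal (1 / √L) := by
          refine setLIntegral_mono' measurableSet_Icc fun p h => ENNReal.ofReal_le_ofReal ?_
          refine one_div_le_one_div_of_le hs (Real.sqrt_le_sqrt ?_)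
          have := pow_le_pow_left₀ hA (hp p h) 2
          rw [sq_abs] at this
          linarith only [hLA, this]
      _ = ENNReal.ofReal (1 / √L * (B - A)) := by
          rw [setLIntegral_const, Real.volume_Icc, e, ENNReal.ofReal_mul (by positivity)]
      _ ≤ _ := by
          refine ENNReal.ofReal_le_ofReal ?_
          rw [one_div, inv_mul_le_iff₀ hs]
          linarith only [hB]
  have hsub : S ⊆ Icc A B ∪ Icc (-B) (-A) := fun p hp => by
    obtain ⟨h1, h2⟩ := hS p hp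
    rcases le_total 0 p with h | h
    · rw [abs_of_nonneg h] at h1 h2
      exact Or.inl ⟨h1, h2⟩
    · rw [abs_of_nonpos h] at h1 h2
      exact Or.inr ⟨by linarith only [h2], by linarith only [h1]⟩
  calc _ ≤ _ := lintegral_mono_set hsub
    _ ≤ _ := lintegral_union_le _ _ _
    _ ≤ ENNReal.ofReal (X / 2) + ENNReal.ofReal (X / 2) :=
        add_le_add (key A B rfl fun p h => h.1.trans (le_abs_self p))
          (key (-B) (-A) (by ring) fun p h => le_trans (by linarith only [h.2]) (neg_le_abs p))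
    _ = _ := by rw [← ENNReal.ofReal_add (by positivity) (by positivity), add_halves]

theorem svf_band {P M : ℝ} (hP : 0 < P) (hM : 100 ≤ M) : ∃ L : ℝ, 0 < L ∧ L ≤ P ∧
    ∀ p : ℝ, |Real.log ((1 + p ^ 2) / P)| ≤ 2 / M →
      L ≤ 1 + p ^ 2 ∧ 1 + p ^ 2 ≤ L + L * (9 / 2 / M) := by
  have hM0 : 0 < M := by linarith
  have hx : 0 < 2 / M := by positivity
  refine ⟨P * Real.exp (-(2 / M)), by positivity, ?_, fun p hp => ?_⟩
  · exact mul_le_of_le_one_right hP.le (Real.exp_le_one_iff.2 (by linarith))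
  have hq : 0 < (1 + p ^ 2) / P := by positivity
  obtain ⟨h1, h2⟩ := abs_le.1 hp
  have a1 := (Real.le_log_iff_exp_le hq).1 h1
  have a2 := (Real.log_le_iff_le_exp hq).1 h2
  rw [le_div_iff₀ hP] at a1
  rw [div_le_iff₀ hP] at a2
  refine ⟨by linarith only [a1], a2.trans ?_⟩
  have e : Real.exp (2 / M) = Real.exp (-(2 / M)) * Real.exp (4 / M) := by
    rw [← Real.exp_add]
    congr 1
    ring
  have hy : 4 / M ≤ 1 / 25 := by
    rw [div_le_iff₀ hM0]
    linarith only [hM]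
  have hy0 : 0 < 4 / M := by positivity
  have b1 : Real.exp (4 / M) ≤ 1 + 9 / 2 / M := by
    have c1 := Real.add_one_le_exp (-(4 / M))
    have c2 : Real.exp (-(4 / M)) * Real.exp (4 / M) = 1 := by rw [← Real.exp_add]; simp
    have c3 := Real.exp_pos (4 / M)
    have c4 : 9 / 2 / M = 9 / 8 * (4 / M) := by ring
    rw [c4]
    by_contra hn
    push Not at hn
    nlinarith only [mul_le_mul_of_nonneg_right c1 c3.le, mul_pos (sub_pos.2 hn) (by linarith only [hy] : 0 < 1 - 4 / M), hy, hy0, c2]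
  have := mul_le_mul_of_nonneg_left b1 (by positivity : 0 ≤ P * Real.exp (-(2 / M)))
  rw [e]
  linarith only [this]

/-- SVF.  The measure of the set of slopes. -/
theorem slope_le {P M : ℝ} (hP : 0 < P) (hM : 100 ≤ M) :
    ∫⁻ p in {p : ℝ | |Real.log ((1 + p ^ 2) / P)| ≤ 2 / M}, ENNReal.ofReal (1 / √(1 + p ^ 2)) ≤
      ENNReal.ofReal (10 / √M) ∧
    ∫⁻ p in {p : ℝ | |Real.log ((1 + p ^ 2) / P)| ≤ 2 / M ∧ M / 2 < |p|},
      ENNReal.ofReal (1 / √(1 + p ^ 2)) ≤ ENNReal.ofReal (10 / M) ∧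
    ∀ p : ℝ, |Real.log ((1 + p ^ 2) / P)| ≤ 2 / M → 1 / 4 ≤ P ∧ (M / 2 < |p| → M ^ 2 / 9 ≤ P) := by
  obtain ⟨L, hL, hLP, hb⟩ := svf_band hP hM
  have hM0 : 0 < M := by linarith
  have hA := Real.sqrt_nonneg (L - 1)
  have hA2 : L - 1 ≤ √(L - 1) ^ 2 := by
    rw [Real.sq_sqrt']
    exact le_max_left _ _
  have hs := Real.sqrt_nonneg L
  have hs2 : √L ^ 2 = L := Real.sq_sqrt hL.le
  have hη : 9 / 2 / M ≤ 9 / 200 := by
    rw [div_le_iff₀ hM0]
    linarith only [hM]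
  have hlow : ∀ p : ℝ, L ≤ 1 + p ^ 2 → √(L - 1) ≤ |p| := fun p h =>
    Real.sqrt_le_iff.2 ⟨abs_nonneg p, by rw [sq_abs]; linarith only [h]⟩
  have hbig : ∀ p : ℝ, M / 2 < |p| → M ^ 2 / 4 ≤ p ^ 2 := fun p h => by
    have := pow_le_pow_left₀ (by positivity) h.le 2
    rw [sq_abs] at this
    linarith only [this]
  have hup : ∀ p : ℝ, |Real.log ((1 + p ^ 2) / P)| ≤ 2 / M → 1 + p ^ 2 ≤ 209 / 200 * L :=
    fun p h => by
      have := mul_le_mul_of_nonneg_left hη hL.le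
      linarith only [(hb p h).2, this]
  refine ⟨?_, ?_, fun p hp => ⟨?_, fun h => ?_⟩⟩
  · have hm : 0 < √M := Real.sqrt_pos.2 hM0
    refine svf_int (B := √(L - 1) + 10 / √M / 2 * √L) (by positivity) hL hA (by linarith only [hA2])
      (by linarith only []) fun p hp => ⟨hlow p (hb p hp).1, ?_⟩
    have hy : 0 ≤ 10 / √M / 2 * √L := by positivity
    refine abs_le_of_sq_le_sq' ?_ (by positivity) |> fun h => abs_le.2 h
    have e : (10 / √M / 2 * √L) ^ 2 = L * (25 / M) := by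
      rw [mul_pow, hs2, div_pow, div_pow, Real.sq_sqrt hM0.le]
      ring
    have h1 : L * (9 / 2 / M) ≤ L * (25 / M) :=
      mul_le_mul_of_nonneg_left (div_le_div_of_nonneg_right (by norm_num) hM0.le) hL.le
    have h2 := mul_nonneg hA hy
    have h3 := (hb p hp).2
    linarith only [hA2, e, h1, h2, h3]
  · refine svf_int (B := √(L - 1) + 10 / M / 2 * √L) (by positivity) hL hA (by linarith only [hA2])
      (by linarith only []) fun p hp => ⟨hlow p (hb p hp.1).1, ?_⟩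
    have hy : 0 ≤ 10 / M / 2 * √L := by positivity
    refine abs_le_of_sq_le_sq' ?_ (by positivity) |> fun h => abs_le.2 h
    have h4 : 2 ≤ L := by nlinarith only [hup p hp.1, hbig p hp.2, hM]
    have h5 : 9 / 20 * √L ≤ √(L - 1) :=
      Real.le_sqrt_of_sq_le (by rw [mul_pow, hs2]; linarith only [h4])
    have h6 := mul_le_mul_of_nonneg_right h5 hy
    have e : 9 / 20 * √L * (10 / M / 2 * √L) = L * (9 / 2 / M) / 2 := by
      rw [show 9 / 20 * √L * (10 / M / 2 * √L) = √L ^ 2 * (9 / 2 / M) / 2 by ring, hs2]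
    have h3 := (hb p hp.1).2
    nlinarith [sq_nonneg (10 / M / 2 * √L)]
  · linarith only [hup p hp, sq_nonneg p, hLP]
  · linarith only [hup p hp, hbig p h, hP, hLP]

theorem svg_lint {ι : Type} (s : Finset ι) (f : ι → ℝ → ℝ≥0∞) :
    ∑ i ∈ s, ∫⁻ p, f i p ≤ ∫⁻ p, ∑ i ∈ s, f i p := by
  classical
  induction s using Finset.induction_on with
  | empty => simp
  | insert a s ha ih =>
    simp only [Finset.sum_insert ha]
    exact (add_le_add le_rfl ih).trans (le_lintegral_add _ _)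

theorem svg_count (S : Finset ℤ) (hS : ∀ c ∈ S, c ≠ 0) {X a : ℝ} (hX : 0 ≤ X) (ha : 0 ≤ a) :
    ∑ c ∈ S, (if |(c : ℝ)| ≤ X then a else 0) ≤ 2 * X * a := by
  rw [← Finset.sum_filter, Finset.sum_const, nsmul_eq_mul]
  refine mul_le_mul_of_nonneg_right ?_ ha
  have h0 : 0 ≤ ⌊X⌋ := Int.floor_nonneg.2 hX
  have h1 : S.filter (fun c : ℤ => |(c : ℝ)| ≤ X) ⊆ (Finset.Icc (-⌊X⌋) ⌊X⌋).erase 0 := by
    intro c hc
    rw [Finset.mem_filter] at hc
    have h2 : |c| ≤ ⌊X⌋ := Int.le_floor.2 (by rw [Int.cast_abs]; exact hc.2)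
    exact Finset.mem_erase.2 ⟨hS c hc.1, Finset.mem_Icc.2 (abs_le.1 h2)⟩
  have h2 := Finset.card_le_card h1
  rw [Finset.card_erase_of_mem (Finset.mem_Icc.2 ⟨by omega, h0⟩), Int.card_Icc] at h2
  have h3 : ((S.filter (fun c : ℤ => |(c : ℝ)| ≤ X)).card : ℤ) ≤ 2 * ⌊X⌋ := by omega
  have h4 : ((S.filter (fun c : ℤ => |(c : ℝ)| ≤ X)).card : ℝ) ≤ 2 * (⌊X⌋ : ℝ) := by
    exact_mod_cast h3
  linarith only [Int.floor_le X, h4]

theorem svg_int {P M A B : ℝ} (hP : 0 < P) (hM : 100 ≤ M) (hA : 0 ≤ A) (hB : 0 ≤ B) {g : ℝ → ℝ}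
    (h0 : ∀ p, ¬ |Real.log ((1 + p ^ 2) / P)| ≤ 2 / M → g p = 0)
    (h1 : ∀ p, |p| ≤ M / 2 → g p ≤ A * (1 / √(1 + p ^ 2)))
    (h2 : ∀ p, g p ≤ B * (1 / √(1 + p ^ 2))) :
    ∫⁻ p, ENNReal.ofReal (g p) ≤ ENNReal.ofReal
      ((if 1 / 4 ≤ P then A * (10 / √M) else 0) + if M ^ 2 / 9 ≤ P then B * (10 / M) else 0) := by
  obtain ⟨s1, s2, s3⟩ := slope_le hP hM
  set E := {p : ℝ | |Real.log ((1 + p ^ 2) / P)| ≤ 2 / M} with hE
  set E' := {p : ℝ | |Real.log ((1 + p ^ 2) / P)| ≤ 2 / M ∧ M / 2 < |p|} with hE'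
  have mE : MeasurableSet E := measurableSet_le (by fun_prop) measurable_const
  have a1 : ∫⁻ p in E, ENNReal.ofReal A * ENNReal.ofReal (1 / √(1 + p ^ 2)) ≤
      ENNReal.ofReal (if 1 / 4 ≤ P then A * (10 / √M) else 0) := by
    split_ifs with h
    · rw [lintegral_const_mul' _ _ ENNReal.ofReal_ne_top, ENNReal.ofReal_mul hA]
      gcongr
    · rw [show E = ∅ from eq_empty_of_forall_notMem fun p hp => h (s3 p hp).1]
      simp only [Measure.restrict_empty, one_div, lintegral_zero_measure, ENNReal.ofReal_zero, Std.le_refl]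
  have a2 : ∫⁻ p in E', ENNReal.ofReal B * ENNReal.ofReal (1 / √(1 + p ^ 2)) ≤
      ENNReal.ofReal (if M ^ 2 / 9 ≤ P then B * (10 / M) else 0) := by
    split_ifs with h
    · rw [lintegral_const_mul' _ _ ENNReal.ofReal_ne_top, ENNReal.ofReal_mul hB]
      gcongr
    · rw [show E' = ∅ from eq_empty_of_forall_notMem fun p hp => h ((s3 p hp.1).2 hp.2)]
      simp only [Measure.restrict_empty, one_div, lintegral_zero_measure, ENNReal.ofReal_zero, Std.le_refl]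
  have M0 : 0 < M := by linarith
  rw [ENNReal.ofReal_add (by split_ifs <;> positivity) (by split_ifs <;> positivity)]
  refine le_trans ?_ (add_le_add ((lintegral_indicator_le _ _).trans a1)
    ((lintegral_indicator_le _ _).trans a2))
  rw [← lintegral_add_left (Measurable.indicator (by fun_prop) mE)]
  refine lintegral_mono fun p => ?_
  by_cases hp : p ∈ E
  · by_cases hq : |p| ≤ M / 2
    · refine le_trans ?_ le_self_add
      rw [indicator_of_mem hp, ← ENNReal.ofReal_mul hA]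
      exact ENNReal.ofReal_le_ofReal (h1 p hq)
    · refine le_trans ?_ le_add_self
      rw [indicator_of_mem (show p ∈ E' from ⟨hp, not_le.1 hq⟩), ← ENNReal.ofReal_mul hB]
      exact ENNReal.ofReal_le_ofReal (h2 p)
  · simp only [h0 p hp, ENNReal.ofReal_zero, one_div, zero_le]

theorem svg_pt {T M σ p A : ℝ} {k₁ k₂ : ℕ} (hT : 0 < T) (hM : 1 ≤ M) (h₁ : 1 ≤ k₁)
    (h₂ : 1 ≤ k₂) (r₁ : (k₁ : ℝ) ≤ M ^ 2 * k₂) (r₂ : (k₂ : ℝ) ≤ M ^ 2 * k₁) {c : ℤ} (hc : c ≠ 0)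
    (Γ : Finset SL(2, ℤ)) (hΓ : ∀ γ ∈ Γ, γ 1 0 = c) (hA : 0 ≤ A)
    (h : ∀ a d : ℝ, ‖inn T (100 * M) σ k₁ k₂ a c d p‖ ≤ A * (1 / (|(c : ℝ)| * √(1 + p ^ 2)))) :
    ∑ γ ∈ Γ, ‖inn T (100 * M) σ k₁ k₂ (γ 0 0) c (γ 1 1) p‖ ≤ 25 * A * (1 / √(1 + p ^ 2)) := by
  classical
  have c1 : (1 : ℝ) ≤ |(c : ℝ)| := by exact_mod_cast Int.one_le_abs hc
  refine (Finset.sum_filter_of_ne (s := Γ)
    (p := fun γ : SL(2, ℤ) => inn T (100 * M) σ k₁ k₂ (γ 0 0) c (γ 1 1) p ≠ 0)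
    fun γ _ hγ => norm_ne_zero_iff.1 hγ).ge.trans ?_
  have h1 := card_sl (Γ.filter fun γ => inn T (100 * M) σ k₁ k₂ (γ 0 0) c (γ 1 1) p ≠ 0) hc
    (c * p * (T / (4 * Real.pi * k₁))) (c * p * (T / (4 * Real.pi * k₂))) fun γ hγ => by
      rw [Finset.mem_filter] at hγ
      exact ⟨hΓ γ hγ.1, (inn_supp hT hM h₁ h₂ r₁ r₂ c1 hγ.2).2⟩
  refine (Finset.sum_le_card_nsmul _ _ _ fun γ _ => h _ _).trans ?_
  rw [nsmul_eq_mul]
  refine (mul_le_mul_of_nonneg_right h1 (by positivity)).trans_eq ?_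
  have : |(c : ℝ)| ≠ 0 := (one_pos.trans_le c1).ne'
  field_simp

theorem svg_cut {T K u c : ℝ} {k₁ k₂ : ℕ} (hT : 0 < T) (hu : 0 < u) (hc : c ≠ 0)
    (h₁ : (k₁ : ℝ) ≤ K) (h₂ : (k₂ : ℝ) ≤ K)
    (h : u ^ 2 ≤ 16 * Real.pi ^ 2 * k₁ * k₂ / (c ^ 2 * T ^ 2)) : |c| ≤ 16 * K / (u * T) := by
  have K0 : 0 ≤ K := (Nat.cast_nonneg _).trans h₁
  rw [le_div_iff₀ (by positivity)] at h ⊢
  refine (pow_le_pow_iff_left₀ (by positivity) (by positivity) two_ne_zero).1 ?_
  calc (|c| * (u * T)) ^ 2 = u ^ 2 * (c ^ 2 * T ^ 2) := by rw [mul_pow, sq_abs]; ring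
    _ ≤ 16 * Real.pi ^ 2 * k₁ * k₂ := h
    _ ≤ 16 * 4 ^ 2 * K * K := by gcongr; exact Real.pi_le_four
    _ = _ := by ring

/-- SVG.  Paper 4.5: `kr_polar`, a finite sum of lower integrals is at most the lower integral of
the sum (`le_lintegral_add`), `inn_supp`, `card_sl`, `inn_le`, `slope_le`; sum over `c`. -/
theorem off_le : ∃ C : ℝ, 0 ≤ C ∧ ∀ (T m σ K : ℝ) (k₁ k₂ : ℕ) (Γ : Finset SL(2, ℤ)), 0 < T → 1 ≤ m →
    1 ≤ k₁ → 1 ≤ k₂ → (k₁ : ℝ) ≤ K → (k₂ : ℝ) ≤ K → (k₁ : ℝ) ≤ m ^ 4 * k₂ → (k₂ : ℝ) ≤ m ^ 4 * k₁ →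
    |σ| = T * √3 / 2 →
    ∑ γ ∈ Γ.filter (fun γ => γ 1 0 ≠ 0), ‖∫ w, kr1 T (100 * m ^ 2) σ k₁ w *
      conj (kr1 T (100 * m ^ 2) σ k₂ (mb (act γ one) w)) ∂muH‖ ≤
      C / m ^ 2 * (K / T ^ 2 * (m ^ 3 / T + T / m ^ 4)) := by
  classical
  obtain ⟨C, C0, hC⟩ := inn_le
  refine ⟨1600 * C + 3, by positivity, fun T m σ K k₁ k₂ Γ hT hm h₁ h₂ K₁ K₂ r₁ r₂ hσ => ?_⟩
  have m0 : 0 < m := by linarith only [hm]
  have hM : 1 ≤ m ^ 2 := one_le_pow₀ hm
  have K0 : 0 ≤ K := (Nat.cast_nonneg _).trans K₁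
  rw [show m ^ 4 = (m ^ 2) ^ 2 by ring] at r₁ r₂
  set F : SL(2, ℤ) → ℝ := fun γ => ‖∫ w, kr1 T (100 * m ^ 2) σ k₁ w *
      conj (kr1 T (100 * m ^ 2) σ k₂ (mb (act γ one) w)) ∂muH‖ with hF
  have one : ∀ c : ℤ, c ≠ 0 → ∀ Δ : Finset SL(2, ℤ), (∀ γ ∈ Δ, γ 1 0 = c) → ∑ γ ∈ Δ, F γ ≤
      (if |(c : ℝ)| ≤ 16 * K / (1 / 2 * T) then 25 * C * m / T ^ 2 else 0) +
        if |(c : ℝ)| ≤ 16 * K / (100 * m ^ 2 / 3 * T) then 5 / 2 / m ^ 4 else 0 := by
    intro c hc Δ hΔ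
    have c0 : (c : ℝ) ≠ 0 := by exact_mod_cast hc
    have c1 : (1 : ℝ) ≤ |(c : ℝ)| := by exact_mod_cast Int.one_le_abs hc
    have k1 : (0 : ℝ) < k₁ := by exact_mod_cast h₁
    have k2 : (0 : ℝ) < k₂ := by exact_mod_cast h₂
    have key := svg_int (P := 16 * Real.pi ^ 2 * k₁ * k₂ / ((c : ℝ) ^ 2 * T ^ 2)) (M := 100 * m ^ 2)
      (A := 25 * (C * m ^ 2 / T ^ 2)) (B := 25 * (1 / m ^ 2))
      (g := fun p => ∑ γ ∈ Δ, ‖inn T (100 * m ^ 2) σ k₁ k₂ (γ 0 0) c (γ 1 1) p‖)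
      (by positivity) (by linarith only [hM]) (by positivity) (by positivity)
      (fun p hp => Finset.sum_eq_zero fun γ _ => norm_eq_zero.2 (by
        by_contra h
        exact hp (inn_supp hT hM h₁ h₂ r₁ r₂ c1 h).1))
      (fun p hp => svg_pt hT hM h₁ h₂ r₁ r₂ hc Δ hΔ (by positivity) fun a d =>
        (hC T (m ^ 2) σ a c d p k₁ k₂ hT hM h₁ h₂ r₁ r₂ c1 hσ).2 (by linarith only [hp]))
      (fun p => svg_pt hT hM h₁ h₂ r₁ r₂ hc Δ hΔ (by positivity) fun a d =>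
        (hC T (m ^ 2) σ a c d p k₁ k₂ hT hM h₁ h₂ r₁ r₂ c1 hσ).1)
    have h3 : ENNReal.ofReal (∑ γ ∈ Δ, F γ) ≤ ∫⁻ p, ENNReal.ofReal
        (∑ γ ∈ Δ, ‖inn T (100 * m ^ 2) σ k₁ k₂ (γ 0 0) c (γ 1 1) p‖) := by
      simp only [ENNReal.ofReal_sum_of_nonneg fun _ _ => norm_nonneg _, hF, ofReal_norm]
      refine le_trans (Finset.sum_le_sum fun γ hγ => ?_) (svg_lint _ _)
      rw [← hΔ γ hγ]
      exact kr_polar hT (by positivity) σ h₁ h₂ γ (hΔ γ hγ ▸ hc)
    have h4 := (ENNReal.ofReal_le_ofReal_iff (add_nonneg (by split_ifs <;> positivity)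
      (by split_ifs <;> positivity))).1 (h3.trans key)
    refine h4.trans (add_le_add ?_ ?_)
    · split_ifs with a b
      · rw [show 100 * m ^ 2 = (10 * m) ^ 2 by ring, Real.sqrt_sq (by positivity)]
        exact le_of_eq (by field_simp)
      · exact absurd (svg_cut hT (by norm_num) c0 K₁ K₂ (by linarith only [a])) b
      · positivity
      · exact le_rfl
    · split_ifs with a b
      · exact le_of_eq (by field_simp; norm_num)
      · exact absurd (svg_cut hT (by positivity) c0 K₁ K₂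
          (le_of_eq_of_le (by ring) a)) b
      · positivity
      · exact le_rfl
  set G := Γ.filter (fun γ => γ 1 0 ≠ 0) with hG
  have hS : ∀ c ∈ G.image (fun γ => γ 1 0), c ≠ 0 := fun c hc => by
    obtain ⟨γ, hγ, rfl⟩ := Finset.mem_image.1 hc
    exact (Finset.mem_filter.1 hγ).2
  rw [← Finset.sum_fiberwise_of_maps_to (g := fun γ : SL(2, ℤ) => γ 1 0)
    fun γ hγ => Finset.mem_image_of_mem _ hγ]
  refine (Finset.sum_le_sum fun c hc => one c (hS c hc) _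
    fun γ hγ => (Finset.mem_filter.1 hγ).2).trans ?_
  rw [Finset.sum_add_distrib]
  refine (add_le_add (svg_count _ hS (by positivity) (by positivity))
    (svg_count _ hS (by positivity) (by positivity))).trans ?_
  have e1 : 2 * (16 * K / (1 / 2 * T)) * (25 * C * m / T ^ 2) = 1600 * C * (K * m / T ^ 3) := by
    field_simp
    ring
  have e2 : 2 * (16 * K / (100 * m ^ 2 / 3 * T)) * (5 / 2 / m ^ 4) =
      12 / 5 * (K / (T * m ^ 6)) := by
    field_simp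
    ring
  have e3 : (1600 * C + 3) / m ^ 2 * (K / T ^ 2 * (m ^ 3 / T + T / m ^ 4)) =
      (1600 * C + 3) * (K * m / T ^ 3) + (1600 * C + 3) * (K / (T * m ^ 6)) := by
    field_simp
  rw [e1, e2, e3]
  gcongr <;> linarith only [C0]

theorem svh_int {F G : ℂ → ℂ} (hF : Measurable F) (hG : Measurable G) {K : Set ℂ} (hK : IsCompact K)
    (hU : K ⊆ Up) {a b : ℝ} (h0 : ∀ w, w ∉ K → F w = 0) (ha : ∀ w, ‖F w‖ ≤ a)
    (hb : ∀ w ∈ K, ‖G w‖ ≤ b) : Integrable (fun w => F w * G w) muH := by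
  have h1 : IntegrableOn (fun w => F w * G w) K muH :=
    Measure.integrableOn_of_bounded (M := a * b) (muH_compact hK hU).ne
      (hF.mul hG).aestronglyMeasurable
      ((ae_restrict_mem hK.measurableSet).mono fun w hw => by
        rw [norm_mul]
        exact mul_le_mul (ha w) (hb w hw) (norm_nonneg _) ((norm_nonneg _).trans (ha w)))
  exact h1.integrable_of_ae_notMem_eq_zero
    (Filter.Eventually.of_forall fun w hw => by rw [h0 w hw, zero_mul])

theorem svh_pair {T M κ t : ℝ} (hT : 0 < T) (hM : 0 < M) (ht : 0 < t) (σ : ℝ) {f : ℂ → ℝ}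
    {lam : ℕ → ℝ} {b : ℝ → ℂ} {Cp Cm : ℂ} (hf : Form t f) (h : Dat κ t f lam b Cp Cm)
    {J : Finset ℕ} (hJ : ∀ k ∈ J, 1 ≤ k) (c : ℕ → ℂ) :
    ‖∫ w, kr T M σ J c w * (f w : ℂ) ∂muH‖ ^ 2 = ‖∑ k ∈ J, c k * (lam k : ℂ)‖ ^ 2 *
      ‖∫ τ : ℝ, (zt (M * τ) : ℂ) * ci (-(σ * τ)) * b (τ + Real.log (T / (2 * t)))‖ ^ 2 / t := by
  obtain ⟨K, a, hK, hU, hk⟩ := kr_supp hT hM σ hJ
  obtain ⟨B, hB⟩ := hK.exists_bound_of_continuousOn (hf.c2.continuousOn.mono hU)
  have hi : ∀ k ∈ J, Integrable (fun w => c k * (kr1 T M σ k w * (f w : ℂ))) muH := fun k hkJ =>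
    (svh_int (measurable_kr1 T M σ k) (measurable_ofReal.comp hf.meas) hK hU
      (fun w => (hk k hkJ w).2) (fun w => (hk k hkJ w).1)
      (fun w hw => (norm_real (f w)).le.trans (hB w hw))).const_mul _
  have e1 : ∫ w, kr T M σ J c w * (f w : ℂ) ∂muH =
      ∑ k ∈ J, ∫ w, c k * (kr1 T M σ k w * (f w : ℂ)) ∂muH := by
    rw [← integral_finsetSum _ hi]
    refine integral_congr_ae (Filter.Eventually.of_forall fun w => ?_)
    simp only [kr, Finset.sum_mul, mul_assoc]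
  set X := ∫ τ : ℝ, (zt (M * τ) : ℂ) * ci (-(σ * τ)) * b (τ + Real.log (T / (2 * t))) with hX
  have e2 : ∑ k ∈ J, ∫ w, c k * (kr1 T M σ k w * (f w : ℂ)) ∂muH =
      (∑ k ∈ J, c k * (lam k : ℂ)) * X * (((√t)⁻¹ : ℝ) : ℂ) := by
    rw [Finset.sum_mul, Finset.sum_mul]
    refine Finset.sum_congr rfl fun k hkJ => ?_
    rw [integral_const_mul, kr_pair hT hM ht σ hf h (hJ k hkJ), div_eq_mul_inv, ofReal_mul]
    ring
  rw [e1, e2, norm_mul, norm_mul, norm_real, Real.norm_eq_abs, mul_pow, mul_pow, sq_abs, inv_pow,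
    Real.sq_sqrt ht.le, div_eq_mul_inv]

theorem svh_off {T M : ℝ} (hT : 0 < T) (hM : 0 < M) (σ : ℝ) {J : Finset ℕ} (hJ : ∀ k ∈ J, 1 ≤ k)
    (c : ℕ → ℂ) (γ : SL(2, ℤ)) :
    ‖∫ w, kr T M σ J c w * conj (kr T M σ J c (mb (act γ one) w)) ∂muH‖ ≤
      ∑ k ∈ J, ∑ k' ∈ J, ‖c k‖ * ‖c k'‖ *
        ‖∫ w, kr1 T M σ k w * conj (kr1 T M σ k' (mb (act γ one) w)) ∂muH‖ := by
  obtain ⟨K, a, hK, hU, hk⟩ := kr_supp hT hM σ hJ
  have hi : ∀ k ∈ J, ∀ k' ∈ J, Integrable (fun w => c k * conj (c k') *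
      (kr1 T M σ k w * conj (kr1 T M σ k' (mb (act γ one) w)))) muH := fun k hkJ k' hk' =>
    (svh_int (measurable_kr1 T M σ k)
      (continuous_conj.measurable.comp ((measurable_kr1 T M σ k').comp (mt_meas_act γ))) hK hU
      (fun w => (hk k hkJ w).2) (fun w => (hk k hkJ w).1)
      (fun w _ => (norm_conj _).le.trans (hk k' hk' _).1)).const_mul _
  have e1 : ∫ w, kr T M σ J c w * conj (kr T M σ J c (mb (act γ one) w)) ∂muH =
      ∑ k ∈ J, ∑ k' ∈ J, c k * conj (c k') *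
        ∫ w, kr1 T M σ k w * conj (kr1 T M σ k' (mb (act γ one) w)) ∂muH := by
    have e2 : ∀ k ∈ J, ∑ k' ∈ J, c k * conj (c k') *
        ∫ w, kr1 T M σ k w * conj (kr1 T M σ k' (mb (act γ one) w)) ∂muH =
        ∫ w, ∑ k' ∈ J, c k * conj (c k') *
          (kr1 T M σ k w * conj (kr1 T M σ k' (mb (act γ one) w))) ∂muH := fun k hkJ => by
      rw [integral_finsetSum _ (hi k hkJ)]
      exact Finset.sum_congr rfl fun k' _ => (integral_const_mul _ _).symm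
    rw [Finset.sum_congr rfl e2,
      ← integral_finsetSum _ fun k hkJ => integrable_finsetSum _ (hi k hkJ)]
    refine integral_congr_ae (Filter.Eventually.of_forall fun w => ?_)
    simp only [kr, map_sum, map_mul, Finset.sum_mul_sum]
    exact Finset.sum_congr rfl fun k _ => Finset.sum_congr rfl fun k' _ => by ring
  rw [e1]
  refine (norm_sum_le _ _).trans (Finset.sum_le_sum fun k _ => (norm_sum_le _ _).trans
    (Finset.sum_le_sum fun k' _ => ?_))
  rw [norm_mul, norm_mul, norm_conj]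

theorem svh_one {ι : Type} {s : Finset ι} {f : ι → ℂ → ℝ} {t : ι → ℝ} (h : Ort s f t) {T M D : ℝ}
    (hT : 0 < T) (hM : 0 < M) (σ : ℝ) {J : Finset ℕ} (hJ : ∀ k ∈ J, 1 ≤ k) (c : ℕ → ℂ)
    (hD : ∀ Γ : Finset SL(2, ℤ), ∀ k ∈ J, ∀ k' ∈ J, ∑ γ ∈ Γ.filter (fun γ => γ 1 0 ≠ 0),
      ‖∫ w, kr1 T M σ k w * conj (kr1 T M σ k' (mb (act γ one) w)) ∂muH‖ ≤ D) :
    ∑ j ∈ s, ‖∫ w, kr T M σ J c w * (f j w : ℂ) ∂muH‖ ^ 2 ≤
      40 * (∑ k ∈ J, ‖c k‖ ^ 2) / M + D * (∑ k ∈ J, ‖c k‖) ^ 2 := by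
  obtain ⟨K, a, hK, hU, hk⟩ := kr_supp hT hM σ hJ
  have hm : Measurable (kr T M σ J c) :=
    Finset.measurable_sum J fun k _ => (measurable_kr1 T M σ k).const_mul _
  obtain ⟨Γ, hΓ⟩ := gb2 h hm hK hU
    (fun w _ hw => Finset.sum_eq_zero fun k hkJ => by rw [(hk k hkJ w).2 hw, mul_zero])
    ⟨∑ k ∈ J, ‖c k‖ * a, fun w _ => (norm_sum_le _ _).trans (Finset.sum_le_sum fun k hkJ => by
      rw [norm_mul]
      exact mul_le_mul_of_nonneg_left (hk k hkJ w).1 (norm_nonneg _))⟩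
  refine hΓ.trans ?_
  rw [← Finset.sum_filter_add_sum_filter_not Γ fun γ => γ 1 0 = 0]
  refine add_le_add (kr_zero hT hM σ hJ c Γ) ?_
  refine (Finset.sum_le_sum fun γ _ => svh_off hT hM σ hJ c γ).trans ?_
  rw [Finset.sum_comm, sq, Finset.sum_mul_sum, Finset.mul_sum]
  refine Finset.sum_le_sum fun k hkJ => ?_
  rw [Finset.sum_comm, Finset.mul_sum]
  refine Finset.sum_le_sum fun k' hk' => ?_
  rw [← Finset.mul_sum, mul_comm D]
  exact mul_le_mul_of_nonneg_left (hD Γ k hkJ k' hk') (by positivity)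

theorem svh_alg {O S x y m T t : ℝ} (hO : 0 ≤ O) (h : O ≤ 400 * m * (x + y)) (ht : 0 < t)
    (ht2 : t ≤ 2 * T) : O ^ 2 * S ^ 2 ≤ 640000 * m ^ 2 * T * (S ^ 2 * x ^ 2 / t + S ^ 2 * y ^ 2 / t) := by
  have h1 : O ^ 2 ≤ (400 * m * (x + y)) ^ 2 := pow_le_pow_left₀ hO h 2
  have h2 : (x + y) ^ 2 ≤ 2 * (x ^ 2 + y ^ 2) := by linarith only [sq_nonneg (x - y)]
  have h3 : O ^ 2 ≤ 320000 * m ^ 2 * (x ^ 2 + y ^ 2) := by
    calc O ^ 2 ≤ 160000 * m ^ 2 * (x + y) ^ 2 := h1.trans_eq (by ring)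
      _ ≤ 160000 * m ^ 2 * (2 * (x ^ 2 + y ^ 2)) := mul_le_mul_of_nonneg_left h2 (by positivity)
      _ = _ := by ring
  have h4 : 1 ≤ 2 * T / t := (one_le_div ht).2 ht2
  calc O ^ 2 * S ^ 2 ≤ 320000 * m ^ 2 * (x ^ 2 + y ^ 2) * S ^ 2 :=
        mul_le_mul_of_nonneg_right h3 (sq_nonneg _)
    _ ≤ 320000 * m ^ 2 * (x ^ 2 + y ^ 2) * S ^ 2 * (2 * T / t) :=
        le_mul_of_one_le_right (by positivity) h4
    _ = _ := by ring

/-- SVH.  `gb2`, `kr_pair`, `test_ge`, `kr_zero`, `off_le`. -/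
theorem sieve0 : ∃ C c₁ : ℝ, 1 ≤ C ∧ 1 ≤ c₁ ∧ ∀ (ι : Type) (s : Finset ι) (f : ι → ℂ → ℝ) (t : ι → ℝ)
    (lam : ι → ℕ → ℝ) (b : ι → ℝ → ℂ) (Cp Cm : ι → ℂ) (κ T m K : ℝ), Win s f t T (m ^ 2) →
    (∀ j ∈ s, Dat κ (t j) (f j) (lam j) (b j) (Cp j) (Cm j)) → 1 ≤ m → T ≤ m ^ 4 → c₁ * m ^ 2 ≤ T →
    ∀ (J : Finset ℕ) (c : ℕ → ℂ), (∀ k ∈ J, 1 ≤ k ∧ (k : ℝ) ≤ K) →
    (∀ k ∈ J, ∀ k' ∈ J, (k : ℝ) ≤ m ^ 4 * k') →
    ∑ j ∈ s, (‖Cp j‖ + ‖Cm j‖) ^ 2 * ‖∑ k ∈ J, c k * (lam j k : ℂ)‖ ^ 2 ≤ C * T * m ^ 2 *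
      (∑ k ∈ J, ‖c k‖ ^ 2 + K / T ^ 2 * (m ^ 3 / T + T / m ^ 4) * (∑ k ∈ J, ‖c k‖) ^ 2) := by
  obtain ⟨c₁, hc₁, h1⟩ := test_ge
  obtain ⟨C, hC, h2⟩ := off_le
  refine ⟨1280000 * (1 + C), c₁, by linarith, hc₁, ?_⟩
  intro ι s f t lam b Cp Cm κ T m K hw hd hm hT4 hT1 J c hJ hr
  have hm2 : 1 ≤ m ^ 2 := one_le_pow₀ hm
  have hmT : m ^ 2 ≤ T := (le_mul_of_one_le_left (by positivity) hc₁).trans hT1
  have hT : 0 < T := by linarith
  have hM : 0 < 100 * m ^ 2 := by positivity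
  have hJ1 : ∀ k ∈ J, 1 ≤ k := fun k hk => (hJ k hk).1
  set ε := K / T ^ 2 * (m ^ 3 / T + T / m ^ 4) with hε
  set A := ∑ k ∈ J, ‖c k‖ ^ 2 with hA
  set B := ∑ k ∈ J, ‖c k‖ with hB
  have hA0 : 0 ≤ A := Finset.sum_nonneg fun k _ => sq_nonneg _
  have hεB : 0 ≤ ε * B ^ 2 := by
    rcases J.eq_empty_or_nonempty with rfl | ⟨k, hk⟩
    · simp [hB]
    · have hK : 0 ≤ K := (Nat.cast_nonneg k).trans (hJ k hk).2
      positivity
  have key : ∀ σ : ℝ, |σ| = T * √3 / 2 → ∑ j ∈ s, ‖∑ k ∈ J, c k * (lam j k : ℂ)‖ ^ 2 *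
      ‖∫ τ : ℝ, (zt (100 * m ^ 2 * τ) : ℂ) * ci (-(σ * τ)) *
        b j (τ + Real.log (T / (2 * t j)))‖ ^ 2 / t j ≤ (1 + C) * (A + ε * B ^ 2) / m ^ 2 := by
    intro σ hσ
    have h3 := svh_one hw.toOrt hT hM σ hJ1 c (D := C / m ^ 2 * ε) fun Γ k hk k' hk' =>
      h2 T m σ K k k' Γ hT hm (hJ1 k hk) (hJ1 k' hk') (hJ k hk).2 (hJ k' hk').2 (hr k hk k' hk')
        (hr k' hk' k hk) hσ
    rw [Finset.sum_congr rfl fun j hj => svh_pair hT hM (hT.trans_le (hw.t1 j hj)) σ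
      (hw.form j hj) (hd j hj) hJ1 c] at h3
    refine h3.trans ?_
    have e : 40 * A / (100 * m ^ 2) + C / m ^ 2 * ε * B ^ 2 =
        (2 / 5 * A + C * (ε * B ^ 2)) / m ^ 2 := by
      field_simp
      ring
    rw [e]
    refine div_le_div_of_nonneg_right ?_ (by positivity)
    linarith only [mul_nonneg hC hA0, hA0, hεB]
  have hσ : 0 ≤ T * √3 / 2 := by positivity
  have k1 := key (T * √3 / 2) (abs_of_nonneg hσ)
  have k2 := key (-(T * √3 / 2)) (by rw [abs_neg, abs_of_nonneg hσ])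
  refine (Finset.sum_le_sum fun j hj => svh_alg (T := T) (t := t j) (by positivity)
    (h1 κ T (m ^ 2) (t j) (b j) (Cp j) (Cm j) hm2 (hT4.trans_eq (by ring)) hT1 (hw.t1 j hj)
      (hw.t2 j hj) (hd j hj).wkb) (hT.trans_le (hw.t1 j hj))
    (by linarith only [hw.t2 j hj, hmT])).trans ?_
  rw [← Finset.mul_sum, Finset.sum_add_distrib]
  refine (mul_le_mul_of_nonneg_left (add_le_add k1 k2) (by positivity)).trans_eq ?_
  field_simp
  ring

/-- SVH.  Paper 4.6. -/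
theorem sieve : ∃ C c₁ : ℝ, 1 ≤ C ∧ 1 ≤ c₁ ∧ ∀ (ι : Type) (s : Finset ι) (f : ι → ℂ → ℝ) (t : ι → ℝ)
    (lam : ι → ℕ → ℝ) (b : ι → ℝ → ℂ) (Cp Cm : ι → ℂ) (κ T m K : ℝ), Win s f t T (m ^ 2) →
    (∀ j ∈ s, Dat κ (t j) (f j) (lam j) (b j) (Cp j) (Cm j)) → 1 ≤ m → T ≤ m ^ 4 → c₁ * m ^ 2 ≤ T →
    0 ≤ K → K ≤ m ^ 8 →
    LS s (fun j => ‖Cp j‖ + ‖Cm j‖) lam (C * T * m ^ 2) (K / T ^ 2 * (m ^ 3 / T + T / m ^ 4)) K ∧
      ∀ j ∈ s, ∀ n : ℕ, (‖Cp j‖ + ‖Cm j‖) * |lam j n| ≤ C * T * n := by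
  obtain ⟨C, c₁, hC, hc₁, h⟩ := sieve0
  refine ⟨2 * C, c₁, by linarith, hc₁, ?_⟩
  intro ι s f t lam b Cp Cm κ T m K hw hd hm hT4 hT1 hK hK8
  have hm2 : 1 ≤ m ^ 2 := one_le_pow₀ hm
  have hm4 : 1 ≤ m ^ 4 := one_le_pow₀ hm
  have hmT : m ^ 2 ≤ T := (le_mul_of_one_le_left (by positivity) hc₁).trans hT1
  have hT1' : 1 ≤ T := hm2.trans hmT
  have hT : 0 < T := by linarith
  refine ⟨fun J c hJ => ?_, fun j hj n => ?_⟩
  · have h1 := h ι s f t lam b Cp Cm κ T m K hw hd hm hT4 hT1 (J.filter fun k => (k : ℝ) ≤ m ^ 4) c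
      (fun k hk => hJ k (Finset.mem_filter.1 hk).1) fun k hk k' hk' =>
        (Finset.mem_filter.1 hk).2.trans (le_mul_of_one_le_right (by positivity)
          (by exact_mod_cast (hJ k' (Finset.mem_filter.1 hk').1).1))
    have h2 := h ι s f t lam b Cp Cm κ T m K hw hd hm hT4 hT1 (J.filter fun k => ¬(k : ℝ) ≤ m ^ 4) c
      (fun k hk => hJ k (Finset.mem_filter.1 hk).1) fun k hk k' hk' =>
        ((hJ k (Finset.mem_filter.1 hk).1).2.trans hK8).trans
          ((by ring : m ^ 8 = m ^ 4 * m ^ 4).trans_le (mul_le_mul_of_nonneg_left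
            (not_le.1 (Finset.mem_filter.1 hk').2).le (by positivity)))
    rw [← Finset.sum_filter_add_sum_filter_not J (fun k => (k : ℝ) ≤ m ^ 4) fun k => ‖c k‖ ^ 2,
      ← Finset.sum_filter_add_sum_filter_not J (fun k => (k : ℝ) ≤ m ^ 4) fun k => ‖c k‖]
    have hε : 0 ≤ K / T ^ 2 * (m ^ 3 / T + T / m ^ 4) := by positivity
    have b1 : 0 ≤ ∑ k ∈ J.filter fun k : ℕ => (k : ℝ) ≤ m ^ 4, ‖c k‖ :=
      Finset.sum_nonneg fun k _ => norm_nonneg _
    have b2 : 0 ≤ ∑ k ∈ J.filter fun k : ℕ => ¬(k : ℝ) ≤ m ^ 4, ‖c k‖ :=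
      Finset.sum_nonneg fun k _ => norm_nonneg _
    have h3 : ∀ j ∈ s, (‖Cp j‖ + ‖Cm j‖) ^ 2 * ‖∑ k ∈ J, c k * (lam j k : ℂ)‖ ^ 2 ≤
        2 * ((‖Cp j‖ + ‖Cm j‖) ^ 2 *
            ‖∑ k ∈ J.filter fun k : ℕ => (k : ℝ) ≤ m ^ 4, c k * (lam j k : ℂ)‖ ^ 2 +
          (‖Cp j‖ + ‖Cm j‖) ^ 2 *
            ‖∑ k ∈ J.filter fun k : ℕ => ¬(k : ℝ) ≤ m ^ 4, c k * (lam j k : ℂ)‖ ^ 2) := by
      intro j _
      rw [← Finset.sum_filter_add_sum_filter_not J (fun k => (k : ℝ) ≤ m ^ 4)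
        fun k => c k * (lam j k : ℂ), ← mul_add, mul_left_comm]
      refine mul_le_mul_of_nonneg_left ?_ (sq_nonneg _)
      have h5 : ∀ x y : ℂ, ‖x + y‖ ^ 2 ≤ 2 * (‖x‖ ^ 2 + ‖y‖ ^ 2) := fun x y => by
        linarith only [pow_le_pow_left₀ (norm_nonneg _) (norm_add_le x y) 2, sq_nonneg (‖x‖ - ‖y‖)]
      exact h5 _ _
    refine (Finset.sum_le_sum h3).trans ?_
    rw [← Finset.mul_sum, Finset.sum_add_distrib]
    refine (mul_le_mul_of_nonneg_left (add_le_add h1 h2) zero_le_two).trans ?_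
    have h4 : 0 ≤ C * T * m ^ 2 := by positivity
    linarith only [mul_nonneg h4 (mul_nonneg hε (mul_nonneg b1 b2))]
  · rcases Nat.eq_zero_or_pos n with rfl | hn
    · simp [(hd j hj).hk.zero]
    have hn1 : (1 : ℝ) ≤ n := by exact_mod_cast hn
    have h1 := h ι s f t lam b Cp Cm κ T m n hw hd hm hT4 hT1 {n} (fun _ => 1)
      (fun k hk => by rw [Finset.mem_singleton.1 hk]; exact ⟨hn, le_rfl⟩) fun k hk k' hk' => by
        rw [Finset.mem_singleton.1 hk, Finset.mem_singleton.1 hk']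
        exact le_mul_of_one_le_left (by positivity) hm4
    simp only [Finset.sum_singleton, one_mul, norm_one, one_pow, mul_one, norm_real,
      Real.norm_eq_abs] at h1
    have h2 := (Finset.single_le_sum (f := fun j => (‖Cp j‖ + ‖Cm j‖) ^ 2 * |lam j n| ^ 2)
      (fun j _ => by positivity) hj).trans h1
    have h3 : m ^ 3 / T ≤ T ^ 2 := by
      rw [div_le_iff₀ hT, ← pow_succ]
      exact pow_le_pow_left₀ (by positivity) ((le_self_pow₀ hm two_ne_zero).trans hmT) 3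
    have h4 : T / m ^ 4 ≤ T ^ 2 := (div_le_self hT.le hm4).trans (le_self_pow₀ hT1' two_ne_zero)
    have h5 : n / T ^ 2 * (m ^ 3 / T + T / m ^ 4) ≤ 2 * n := by
      refine (mul_le_mul_of_nonneg_left (add_le_add h3 h4) (by positivity)).trans_eq ?_
      field_simp
      ring
    have h6 : 1 + n / T ^ 2 * (m ^ 3 / T + T / m ^ 4) ≤ 4 * C * (n : ℝ) ^ 2 := by
      have := le_self_pow₀ hn1 two_ne_zero
      linarith only [mul_le_mul_of_nonneg_right hC (sq_nonneg (n : ℝ)), hn1, h5, this]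
    refine le_of_sq_le_sq ?_ (by positivity)
    calc ((‖Cp j‖ + ‖Cm j‖) * |lam j n|) ^ 2
        ≤ C * T * m ^ 2 * (1 + n / T ^ 2 * (m ^ 3 / T + T / m ^ 4)) := by rw [mul_pow]; exact h2
      _ ≤ C * T * T * (4 * C * (n : ℝ) ^ 2) := by gcongr
      _ = _ := by ring

end Pool.Agent.MP_a28cf0_nt.D4
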