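import Pool.Agent.MP_a28cf0_nt.D4.Core
import Pool.Agent.MP_a28cf0_nt.D4.Hecke
import Pool.Agent.MP_a28cf0_nt.Mg.Four_Main
import Pool.Agent.MP_a28cf0_nt.Mg.Cub_Construct
import Pool.Agent.MP_a28cf0_nt.Cub.Ellip

attribute [-instance] AddQuantale.instAddLeftMono IdemSemiring.toCanonicallyOrderedAdd
  TestFunctionClass.toDFunLike AddQuantale.instAddRightMono NumberField.to_charZero RKHS.instFunLike
  covariant_swap_mul_of_covariant_mul Fintype.decidableForallFintype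
  Topology.IsScott.instClosedIicTopologyOfUnivSet Quantale.instMulRightMono
  IsOrderedMonoid.toMulLeftMono CStarAlgebra.instOrderClosedTopology Valued.toUniformSpace
  CompactSpace.sigmaCompact instCoeHTCTOfCoeTailOfCoeHTC Quantale.instMulLeftMono instCoeOTCOfCoeOut
  instCoeHTCOfCoeHeadOfCoeOTC AlexandrovDiscrete.toLocallyCompactSpace IdemSemiring.toMulLeftMono
  MeasureTheory.instSFiniteOfCountable NonarchimedeanRing.toIsTopologicalRing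
  CanonicallyOrderedAdd.toMulLeftMono instCoeTOfCoeDep Finset.decidableDforallFinset
  Multiset.decidableDforallMultiset decidableEq_of_subsingleton
  ContDiffMapSupportedInClass.toDFunLike Vector.instDecidableForallForallMemOfDecidablePred
  IsTopologicalTorsor.toContinuousSMul

/-!
Assembly.
-/

set_option autoImplicit false
set_option linter.unusedVariables false

namespace Pool.Agent.MP_a28cf0_nt.D4

open MeasureTheory Complex Set
open scoped ComplexConjugate ENNReal MatrixGroups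
open Pool.Agent.MP_a28cf0_nt.Cub Pool.Agent.MP_a28cf0_nt.Dec

/-- test functions on the modular surface -/
structure Ts (ψ : ℂ → ℝ) : Prop where
  smooth : ∀ n : ℕ, ContDiffOn ℝ n ψ Up
  inv : Inv ψ
  van : ∃ Y : ℝ, ∀ z : ℂ, Y ≤ z.im → ψ z = 0

/-- test functions of the height -/
structure Phi (φ : ℝ → ℝ) : Prop where
  smooth : ContDiff ℝ (⊤ : ℕ∞) φ
  nn : ∀ y, 0 ≤ φ y
  supp : ∃ a : ℝ, 1 ≤ a ∧ ∀ y, φ y ≠ 0 → 1 / a ≤ y ∧ y ≤ a

noncomputable def m0 (ψ : ℂ → ℝ) : ℝ := ∫ z in Fd, ψ z / z.im ^ 2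

noncomputable def mk (ψ f : ℂ → ℝ) (k : ℕ) : ℝ := ∫ z in Fd, ψ z * f z ^ k / z.im ^ 2

/-- integrals over the strip -/
noncomputable def St (φ : ℝ → ℝ) (G : ℂ → ℝ) : ℝ :=
  ∫ y in Ioi (0 : ℝ), φ y * (∫ x in (0 : ℝ)..1, G ((x : ℂ) + (y : ℂ) * I)) / y ^ 2

/-- the mass in the cusp -/
noncomputable def Esc (Y : ℝ) (f : ℂ → ℝ) : ℝ := ∫ z in {z | z ∈ Fd ∧ Y < z.im}, f z ^ 2 ∂muH

noncomputable def yy (t r : ℝ) : ℝ := t * Real.exp r / (2 * Real.pi)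

noncomputable def Gf (t : ℝ) (f : ℂ → ℝ) (r x : ℝ) : ℝ :=
  f ((x : ℂ) + (yy t r : ℂ) * I) / √(yy t r / t)

noncomputable def Vf (φ : ℝ → ℝ) (t r : ℝ) : ℝ := Real.exp r ^ 2 * φ (yy t r) / yy t r

open Pool.Agent.MP_a28cf0_nt.Four in
/-- The lower bound. -/
theorem lower {ψ : ℂ → ℝ} (h : Ts ψ) (h0 : ∀ z : ℂ, 0 < z.im → 0 ≤ ψ z) {ε : ℝ} (hε : 0 < ε) :
    ∃ T : ℝ, ∀ (f : ℂ → ℝ) (t : ℝ), T ≤ t → Form t f → 3 * mk ψ f 2 ^ 2 - ε ≤ m0 ψ * mk ψ f 4 := by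
  obtain ⟨Ψ, hΨ, hunf⟩ := unfold_wt ψ h.smooth h.inv h.van h0
  obtain ⟨T, hT⟩ := main4 hΨ hε
  refine ⟨T, fun f t ht hf => ?_⟩
  obtain ⟨Φ, hΦ, hΦ0⟩ := exists_sys f t (smooth_of_eigen f _ hf.c2 hf.eq) hf.eq hf.inv hf.int hf.nrm
  have h1 := hT t Φ ht hΦ fun M hM => by rw [hΦ0 M hM, Complex.conj_ofReal]
  have key : ∀ k : ℕ, Even k → mk ψ f k = ∫ M, Ψ M * ‖Φ 0 M‖ ^ k ∂nu := by
    intro k hk
    rw [mk, hunf (fun z => f z ^ k) (hf.c2.continuousOn.pow k) fun z hz => by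
      simp only [(hf.inv z hz).1, (hf.inv z hz).2, and_self]]
    refine integral_congr_ae (ae_mem_Sh.mono fun M hM => ?_)
    simp only [hΦ0 M (Sh_subset hM), Complex.norm_real, Real.norm_eq_abs, hk.pow_abs]
  have k0 := key 0 (by decide)
  simp only [mk, pow_zero, mul_one] at k0
  rw [← key 2 (by decide), ← key 4 (by decide), ← k0] at h1
  exact h1

/-- MNA.  See `iF` in the proof of `Dec.main` (Mg/Dec_Main.lean, not imported). -/
theorem Ts.int {ψ : ℂ → ℝ} (h : Ts ψ) {G : ℂ → ℝ} (hG : ContinuousOn G Up) :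
    IntegrableOn (fun z => ψ z * G z / z.im ^ 2) Fd := by
  obtain ⟨Y, hY⟩ := h.van
  have cψ : ContinuousOn ψ Up := (h.smooth 0).continuousOn
  refine IntegrableOn.of_forall_sdiff_eq_zero (s := {z | z ∈ Fd ∧ z.im ≤ Y})
    ((((cψ.mul hG).div (continuous_im.pow 2).continuousOn fun z hz =>
      (pow_pos hz 2).ne').mono fun z hz => Fd_sub hz.1).integrableOn_compact
        (isCompact_Fd_le Y)) measurableSet_Fd fun z hz => ?_
  rw [hY z (not_le.1 fun h => hz.2 ⟨hz.1, h⟩).le, zero_mul, zero_div]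

theorem mna_low {a A α β γ Z e : ℝ} (ha : 0 < a) (h1 : a ≤ α) (h2 : α ≤ A) (he : 0 ≤ e)
    (h : 3 * β ^ 2 - e ≤ α * γ) :
    0 ≤ γ - 3 * Z ^ 2 * α - 6 * Z * (β - Z * α) + e / a ∧
      3 * (β - Z * α) ^ 2 ≤ A * (γ - 3 * Z ^ 2 * α - 6 * Z * (β - Z * α) + e / a) := by
  have h3 : e ≤ α * (e / a) := by
    calc e = a * (e / a) := (mul_div_cancel₀ _ ha.ne').symm
      _ ≤ α * (e / a) := mul_le_mul_of_nonneg_right h1 (div_nonneg he ha.le)
  have h4 : 3 * (β - Z * α) ^ 2 ≤ α * (γ - 3 * Z ^ 2 * α - 6 * Z * (β - Z * α) + e / a) := by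
    have : α * (γ - 3 * Z ^ 2 * α - 6 * Z * (β - Z * α) + e / a) =
        α * γ - 3 * β ^ 2 + 3 * (β - Z * α) ^ 2 + α * (e / a) := by ring
    linarith only [h, h3]
  have h5 : 0 ≤ γ - 3 * Z ^ 2 * α - 6 * Z * (β - Z * α) + e / a :=
    nonneg_of_mul_nonneg_right ((by positivity : 0 ≤ 3 * (β - Z * α) ^ 2).trans h4)
      (ha.trans_le h1)
  exact ⟨h5, h4.trans (mul_le_mul_of_nonneg_right h2 h5)⟩

theorem mna_fin {A Z Z₀ u v w x K η ε : ℝ} (hZ : |Z| ≤ |Z₀|) (hη : 0 ≤ η) (w0 : 0 ≤ w)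
    (hw : w ≤ K) (hu : 3 * u ^ 2 ≤ A * w) (hK : |A| * K ≤ η ^ 2) (hv : w = v - 6 * Z * u + x)
    (x0 : 0 ≤ x) (h1 : η ≤ ε) (h2 : 6 * |Z₀| * η ≤ ε / 2) (h3 : K + x ≤ ε / 2) :
    |u| ≤ ε ∧ |v| ≤ ε := by
  have a1 : A * w ≤ |A| * K :=
    (mul_le_mul_of_nonneg_right (le_abs_self A) w0).trans
      (mul_le_mul_of_nonneg_left hw (abs_nonneg A))
  have a2 : |u| ≤ η := abs_le_of_sq_le_sq' (by nlinarith only [hu, hK, a1]) hη |> abs_le.2
  have a3 : |Z * u| ≤ |Z₀| * η := by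
    rw [abs_mul]
    exact mul_le_mul hZ a2 (abs_nonneg _) (abs_nonneg _)
  obtain ⟨a4, a5⟩ := abs_le.1 a3
  exact ⟨a2.trans h1, abs_le.2 ⟨by linarith only [w0, hw, hv, h2, h3, a4], by linarith⟩⟩

/-- MNA.  Paper 9: `3 β² / α = 6 Z β - 3 Z² α + 3 (β - Z α)² / α`. -/
theorem rigid0 {a A B Z₀ ε : ℝ} (ha : 0 < a) (hB : 0 ≤ B) (hε : 0 < ε) : ∃ ε' : ℝ, 0 < ε' ∧
    ∀ α₁ β₁ γ₁ α₂ β₂ γ₂ Z : ℝ, a ≤ α₁ → α₁ ≤ A → a ≤ α₂ → α₂ ≤ A → |Z| ≤ Z₀ →
    3 * β₁ ^ 2 - ε' ≤ α₁ * γ₁ → 3 * β₂ ^ 2 - ε' ≤ α₂ * γ₂ →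
    γ₁ + γ₂ ≤ 3 * Z ^ 2 * (α₁ + α₂) + B * ε' → |β₁ + β₂ - Z * (α₁ + α₂)| ≤ B * ε' →
    |β₁ - Z * α₁| ≤ ε ∧ |β₂ - Z * α₂| ≤ ε ∧ |γ₁ - 3 * Z ^ 2 * α₁| ≤ ε ∧
      |γ₂ - 3 * Z ^ 2 * α₂| ≤ ε := by
  obtain ⟨η, η0, η1, η2⟩ : ∃ η : ℝ, 0 < η ∧ η ≤ ε ∧ 6 * |Z₀| * η ≤ ε / 2 := by
    have hz := abs_nonneg Z₀
    have e : ε / (12 * (|Z₀| + 1)) * (12 * (|Z₀| + 1)) = ε := div_mul_cancel₀ _ (by positivity)
    have p : 0 < ε / (12 * (|Z₀| + 1)) := by positivity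
    generalize ε / (12 * (|Z₀| + 1)) = η at e p
    have := mul_nonneg hz p.le
    exact ⟨η, p, by linarith, by linarith only [e, p]⟩
  obtain ⟨K, K0, hK⟩ : ∃ K : ℝ, 0 < K ∧ K = B + 6 * |Z₀| * B + 2 / a := ⟨_, by positivity, rfl⟩
  obtain ⟨e, e0, e1, e2⟩ : ∃ e : ℝ, 0 < e ∧ |A| * (K * e) ≤ η ^ 2 ∧ K * e + e / a ≤ ε / 2 := by
    have hA := abs_nonneg A
    refine ⟨min (η ^ 2 / (|A| * K + 1)) (ε / 2 / (K + 1 / a)), by positivity, ?_, ?_⟩
    · have h := (le_div_iff₀ (by positivity)).1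
        (min_le_left (η ^ 2 / (|A| * K + 1)) (ε / 2 / (K + 1 / a)))
      have p : 0 < min (η ^ 2 / (|A| * K + 1)) (ε / 2 / (K + 1 / a)) := by positivity
      generalize min (η ^ 2 / (|A| * K + 1)) (ε / 2 / (K + 1 / a)) = e at h p
      linarith only [h, p]
    · have h := (le_div_iff₀ (by positivity)).1
        (min_le_right (η ^ 2 / (|A| * K + 1)) (ε / 2 / (K + 1 / a)))
      generalize min (η ^ 2 / (|A| * K + 1)) (ε / 2 / (K + 1 / a)) = e at h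
      rw [div_eq_mul_one_div e a]
      linarith only [h]
  refine ⟨e, e0, fun α₁ β₁ γ₁ α₂ β₂ γ₂ Z a1 A1 a2 A2 hZ l1 l2 h4 h2 => ?_⟩
  obtain ⟨p1, q1⟩ := mna_low (Z := Z) ha a1 A1 e0.le l1
  obtain ⟨p2, q2⟩ := mna_low (Z := Z) ha a2 A2 e0.le l2
  have hZ' : |Z| ≤ |Z₀| := hZ.trans (le_abs_self _)
  have s1 : |Z * (β₁ + β₂ - Z * (α₁ + α₂))| ≤ |Z₀| * (B * e) := by
    rw [abs_mul]
    exact mul_le_mul hZ' h2 (abs_nonneg _) (abs_nonneg _)
  have s2 := (abs_le.1 s1).1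
  have s3 : K * e = B * e + 6 * (|Z₀| * (B * e)) + 2 * (e / a) := by
    rw [hK]
    ring
  have s4 : (γ₁ - 3 * Z ^ 2 * α₁ - 6 * Z * (β₁ - Z * α₁) + e / a) +
      (γ₂ - 3 * Z ^ 2 * α₂ - 6 * Z * (β₂ - Z * α₂) + e / a) ≤ K * e := by
    linarith only [h4, s2, s3]
  have x0 : 0 ≤ e / a := by positivity
  obtain ⟨r1, r3⟩ := mna_fin hZ' η0.le p1 (by linarith only [h4, p2, s2, s3]) q1 e1 rfl x0 η1 η2 e2
  obtain ⟨r2, r4⟩ := mna_fin hZ' η0.le p2 (by linarith only [h4, p1, s2, s3]) q2 e1 rfl x0 η1 η2 e2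
  exact ⟨r1, r2, r3, r4⟩

theorem mna_ts {E ψ : ℂ → ℝ} (hE : Ts E) (hψ : Ts ψ) (p q : ℝ) : Ts fun z => p * E z + q * ψ z := by
  obtain ⟨Y, hY⟩ := hE.van
  obtain ⟨Y', hY'⟩ := hψ.van
  refine ⟨fun n => (contDiffOn_const.mul (hE.smooth n)).add (contDiffOn_const.mul (hψ.smooth n)),
    fun z hz => ?_, max Y Y', fun z hz => ?_⟩
  · simp only [(hE.inv z hz).1, (hE.inv z hz).2, (hψ.inv z hz).1, (hψ.inv z hz).2, and_self]
  · rw [hY z ((le_max_left _ _).trans hz), hY' z ((le_max_right _ _).trans hz)]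
    ring

theorem mna_lin {E ψ : ℂ → ℝ} (hE : Ts E) (hψ : Ts ψ) (p q : ℝ) {G : ℂ → ℝ}
    (hG : ContinuousOn G Up) : ∫ z in Fd, (p * E z + q * ψ z) * G z / z.im ^ 2 =
      p * (∫ z in Fd, E z * G z / z.im ^ 2) + q * ∫ z in Fd, ψ z * G z / z.im ^ 2 := by
  rw [← integral_const_mul, ← integral_const_mul,
    ← integral_add ((hE.int hG).const_mul p) ((hψ.int hG).const_mul q)]
  congr 1
  funext z
  ring

theorem mna_m0 {E ψ : ℂ → ℝ} (hE : Ts E) (hψ : Ts ψ) (p q : ℝ) :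
    m0 (fun z => p * E z + q * ψ z) = p * m0 E + q * m0 ψ := by
  have h := mna_lin hE hψ p q (G := fun _ => 1) continuousOn_const
  simpa only [m0, mul_one] using h

theorem mna_mk {E ψ f : ℂ → ℝ} (hE : Ts E) (hψ : Ts ψ) (p q : ℝ) (hf : ContinuousOn f Up) (k : ℕ) :
    mk (fun z => p * E z + q * ψ z) f k = p * mk E f k + q * mk ψ f k :=
  mna_lin hE hψ p q (G := fun z => f z ^ k) (hf.pow k)

theorem mna_nn {ψ : ℂ → ℝ} (h : ∀ z ∈ Up, 0 ≤ ψ z) : 0 ≤ m0 ψ :=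
  setIntegral_nonneg measurableSet_Fd fun z hz => div_nonneg (h z (Fd_sub hz)) (sq_nonneg _)

/-- MNA.  `lower` for `(C + 1) E + ψ` and `(C + 1) E - ψ`, `rigid0`. -/
theorem rigid {E ψ : ℂ → ℝ} (hE : Ts E) (hψ : Ts ψ) {C Z₀ ε : ℝ} (hC : 0 ≤ C)
    (h0 : ∀ z ∈ Up, 0 ≤ E z) (h1 : ∀ z ∈ Up, |ψ z| ≤ C * E z) (h2 : 0 < m0 E) (hε : 0 < ε) :
    ∃ ε' T : ℝ, 0 < ε' ∧ ∀ (f : ℂ → ℝ) (t Z : ℝ), T ≤ t → Form t f → |Z| ≤ Z₀ →
    mk E f 4 ≤ 3 * Z ^ 2 * m0 E + ε' → |mk E f 2 - Z * m0 E| ≤ ε' →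
    |mk ψ f 2 - Z * m0 ψ| ≤ ε ∧ |mk ψ f 4 - 3 * Z ^ 2 * m0 ψ| ≤ ε := by
  have b1 : 0 ≤ C * m0 E + 1 * m0 ψ := by
    rw [← mna_m0 hE hψ]
    exact mna_nn fun z hz => by linarith [(abs_le.1 (h1 z hz)).1]
  have b2 : 0 ≤ C * m0 E + (-1) * m0 ψ := by
    rw [← mna_m0 hE hψ]
    exact mna_nn fun z hz => by linarith [(abs_le.1 (h1 z hz)).2]
  obtain ⟨e, e0, he⟩ := rigid0 (a := m0 E) (A := (2 * C + 1) * m0 E) (B := 2 * (C + 1))
    (Z₀ := Z₀) h2 (by positivity) hε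
  obtain ⟨T₁, hT₁⟩ := lower (mna_ts hE hψ (C + 1) 1)
    (fun z hz => by linarith [(abs_le.1 (h1 z hz)).1, h0 z hz]) e0
  obtain ⟨T₂, hT₂⟩ := lower (mna_ts hE hψ (C + 1) (-1))
    (fun z hz => by linarith [(abs_le.1 (h1 z hz)).2, h0 z hz]) e0
  refine ⟨e, max T₁ T₂, e0, fun f t Z ht hf hZ h4 h5 => ?_⟩
  have l1 := hT₁ f t ((le_max_left _ _).trans ht) hf
  have l2 := hT₂ f t ((le_max_right _ _).trans ht) hf
  have cf : ContinuousOn f Up := hf.c2.continuousOn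
  rw [mna_m0 hE hψ, mna_mk hE hψ _ _ cf, mna_mk hE hψ _ _ cf] at l1 l2
  have hC1 : 0 ≤ 2 * (C + 1) := by positivity
  obtain ⟨r1, r2, r3, r4⟩ := he _ _ _ _ _ _ Z (by linarith only [b1]) (by linarith only [b2]) (by linarith only [b2])
    (by linarith only [b1]) hZ l1 l2 (by linarith only [mul_le_mul_of_nonneg_left h4 hC1]) (by
      refine le_trans (le_of_eq ?_) (mul_le_mul_of_nonneg_left h5 hC1)
      rw [← abs_of_nonneg hC1, ← abs_mul]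
      congr 1
      ring)
  obtain ⟨r1, r1'⟩ := abs_le.1 r1
  obtain ⟨r2, r2'⟩ := abs_le.1 r2
  obtain ⟨r3, r3'⟩ := abs_le.1 r3
  obtain ⟨r4, r4'⟩ := abs_le.1 r4
  exact ⟨abs_le.2 ⟨by linarith only [r1, r2'], by linarith only [r1', r2]⟩, abs_le.2 ⟨by linarith only [r3, r4'], by linarith only [r3', r4]⟩⟩

theorem mnb_mb {A : E} (hA : A ∈ Gp) (n : ℕ) : ContDiffOn ℝ n (mb A) Up :=
  (contDiffOn_mb (n := n)).comp (f := fun w : ℂ => (A, w))
    (contDiff_const.prodMk contDiff_id).contDiffOn fun w hw => ⟨hA, hw⟩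

theorem mnb_ts {φ : ℂ → ℝ} (h : Tst φ) : Ts (per φ) := by
  refine ⟨fun n z hz => ?_, inv_per φ, ?_⟩
  · obtain ⟨K, hK, hU, h0⟩ := h.supp
    obtain ⟨K', hK', hz', hU'⟩ := exists_compact_subset isOpen_Up hz
    have hf := per_fin hK hU hK' hU'
    have hc : ContDiffOn ℝ n (fun w => ∑ γ ∈ hf.toFinset, φ (mb (act γ one) w)) Up :=
      ContDiffOn.sum fun γ _ => (h.smooth.of_le (by exact_mod_cast le_top)).comp_contDiffOn
        (mnb_mb (act_one_mem γ) n)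
    refine ((hc.contDiffAt (isOpen_Up.mem_nhds hz)).congr_of_eventuallyEq ?_).contDiffWithinAt
    filter_upwards [mem_interior_iff_mem_nhds.1 hz'] with w hw
    exact tsum_eq_sum fun γ hγ => h0 _ fun hm => hγ (hf.mem_toFinset.2 ⟨w, hw, hm⟩)
  · obtain ⟨B, Y, -, hY, hb⟩ := per_bd h
    exact ⟨Y, fun z hz => (hb z (lt_of_lt_of_le one_pos (hY.trans hz))).2 hz⟩

theorem mnb_le {φ : ℂ → ℝ} (h : Tst φ) (hn : ∀ z, 0 ≤ φ z) {z : ℂ} (hz : z ∈ Up) :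
    φ z ≤ per φ z := by
  obtain ⟨K, hK, hU, h0⟩ := h.supp
  have hf := per_fin hK hU isCompact_singleton (singleton_subset_iff.2 hz)
  have hs : Summable fun γ : SL(2, ℤ) => φ (mb (act γ one) z) :=
    summable_of_ne_finset_zero (s := hf.toFinset) fun γ hγ =>
      h0 _ fun hm => hγ (hf.mem_toFinset.2 ⟨z, rfl, hm⟩)
  have h1 := hs.le_tsum 1 fun γ _ => hn _
  rwa [act_one, mb_one] at h1

theorem mnb_int {φ G : ℂ → ℝ} (h : Tst φ) (hG : ContinuousOn G Up) :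
    Integrable (fun z => φ z * G z) muH := by
  obtain ⟨K, hK, hU, h0⟩ := h.supp
  exact integrable_muH (h.smooth.continuous.continuousOn.mul hG) hK hU fun w _ hw => by
    rw [h0 w hw, zero_mul]

theorem mnb_unf {φ G : ℂ → ℝ} (h : Tst φ) (hG : ContinuousOn G Up) (hi : Inv G) :
    ∫ z in Fd, per φ z * G z / z.im ^ 2 = 2 * ∫ z in Up, φ z * G z / z.im ^ 2 := by
  obtain ⟨K, hK, hU, h0⟩ := h.supp
  have hT : ∀ γ, γ ∉ (bessel_finFd hK hU).toFinset → ∀ w ∈ Fd, φ (mb (act γ one) w) = 0 :=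
    fun γ hγ w hw => h0 _ fun h' => hγ ((Finite.mem_toFinset _).2 ⟨w, hw, h'⟩)
  have hu := bessel_unf (mnb_int h hG) fun γ hγ w hw => by rw [hT γ hγ w hw, zero_mul]
  rw [setInt_muH _ measurableSet_Fd Fd_sub, int_muH] at hu
  simp only [smul_eq_mul, one_div_mul_eq_div] at hu
  rw [hu]
  refine setIntegral_congr_fun measurableSet_Fd fun w hw => ?_
  simp only [per, tsum_eq_sum fun γ hγ => hT γ hγ w hw, Finset.sum_mul, hi.mb _ (Fd_sub hw)]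

theorem mnb_fub {φ₀ : ℝ → ℝ} {G : ℂ → ℝ} (h : Tst fun z : ℂ => zt z.re * φ₀ z.im)
    (hG : ContinuousOn G Up) (hi : Inv G) : ∫ z in Up, zt z.re * φ₀ z.im * G z / z.im ^ 2 =
      ∫ y in Ioi (0 : ℝ), φ₀ y * (∫ x in (0 : ℝ)..1, G ((x : ℂ) + (y : ℂ) * I)) / y ^ 2 := by
  have hset : Up = measurableEquivRealProd ⁻¹' (univ ×ˢ Ioi 0) := by
    ext z
    simp only [Up, mem_ofPred_eq, mem_preimage, measurableEquivRealProd_apply, mem_prod, mem_univ,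
      true_and, mem_Ioi]
  let Φ : ℝ × ℝ → ℝ := fun p => zt p.1 * φ₀ p.2 * G ((p.1 : ℂ) + (p.2 : ℂ) * I) / p.2 ^ 2
  have hΦ : (fun z : ℂ => zt z.re * φ₀ z.im * G z / z.im ^ 2) = Φ ∘ measurableEquivRealProd := by
    funext z
    simp only [Φ, Function.comp_apply, measurableEquivRealProd_apply, re_add_im]
  have hint : IntegrableOn Φ (univ ×ˢ Ioi 0) := by
    rw [← volume_preserving_equiv_real_prod.integrableOn_comp_preimage
      measurableEquivRealProd.measurableEmbedding, ← hΦ, ← hset]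
    exact (integrableOn_muH isOpen_Up.measurableSet subset_rfl).1 (mnb_int h hG).integrableOn
  rw [IntegrableOn, Measure.volume_eq_prod, ← Measure.prod_restrict] at hint
  rw [hΦ, hset]
  refine (volume_preserving_equiv_real_prod.setIntegral_preimage_emb
    measurableEquivRealProd.measurableEmbedding Φ _).trans ?_
  rw [Measure.volume_eq_prod, ← Measure.prod_restrict, integral_prod_symm _ hint,
    Measure.restrict_univ]
  refine setIntegral_congr_fun measurableSet_Ioi fun y hy => ?_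
  have hU : ∀ x : ℝ, (x : ℂ) + (y : ℂ) * I ∈ Up := fun x => by
    show 0 < ((x : ℂ) + y * I).im
    simpa using hy
  have h1 := int_zt_mul (G := fun x : ℝ => (G ((x : ℂ) + (y : ℂ) * I) : ℂ))
    (continuous_ofReal.comp (hG.comp_continuous (by fun_prop) hU)) fun x => by
      rw [← (hi _ (hU x)).1, ofReal_add, ofReal_one, add_right_comm]
  simp only [← ofReal_mul, integral_complex_ofReal, intervalIntegral.integral_ofReal,
    ofReal_inj] at h1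
  simp only [Φ, ← h1]
  rw [← integral_const_mul, ← integral_div]
  exact integral_congr_ae (.of_forall fun x => by ring)

/-- MNB.  `E = per (zt (re z) * φ₀ (im z))`, `φ = 2 φ₀`, `φ₀` constant on `[4 / 5, Y]` (`Fd_im`).
Smoothness as in `per_cont`, `per_bd`, `inv_per`, `bessel_unf`, `bessel_finFd`, `int_zt_mul`. -/
theorem exists_E {Y : ℝ} (hY : 1 ≤ Y) : ∃ (φ : ℝ → ℝ) (E : ℂ → ℝ), Phi φ ∧ Ts E ∧
    (∀ z ∈ Up, 0 ≤ E z) ∧ (∀ z ∈ Fd, z.im ≤ Y → 1 ≤ E z) ∧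
    ∀ G : ℂ → ℝ, ContinuousOn G Up → Inv G → ∫ z in Fd, E z * G z / z.im ^ 2 = St φ G := by
  obtain ⟨x₀, hx₀, hm⟩ := (isCompact_Icc (a := -(1 / 2 : ℝ)) (b := 1 / 2)).exists_isMinOn
    ⟨0, by norm_num⟩ contDiff_zt.continuous.continuousOn
  have hc : 0 < zt x₀ := zt_pos ((abs_le.2 hx₀).trans_lt (by norm_num))
  obtain ⟨φ₀, h1, h2, h3, h4⟩ : ∃ φ₀ : ℝ → ℝ, ContDiff ℝ (⊤ : ℕ∞) φ₀ ∧ (∀ y, 0 ≤ φ₀ y) ∧
      (∀ y, φ₀ y ≠ 0 → 1 / 2 ≤ y ∧ y ≤ Y + 1) ∧ ∀ y, 4 / 5 ≤ y → y ≤ Y → φ₀ y = (zt x₀)⁻¹ := by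
    refine ⟨fun y => (zt x₀)⁻¹ * (Real.smoothTransition (4 * y - 2) *
      Real.smoothTransition (Y + 1 - y)), contDiff_const.mul
      ((Real.smoothTransition.contDiff.comp (by fun_prop)).mul
        (Real.smoothTransition.contDiff.comp (by fun_prop))), fun y => mul_nonneg (inv_pos.2 hc).le
      (mul_nonneg (Real.smoothTransition.nonneg _) (Real.smoothTransition.nonneg _)),
      fun y hy => ?_, fun y hy hy' => ?_⟩
    · have h5 := mul_ne_zero_iff.1 (mul_ne_zero_iff.1 hy).2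
      have h6 := mt Real.smoothTransition.zero_of_nonpos h5.1
      have h7 := mt Real.smoothTransition.zero_of_nonpos h5.2
      constructor <;> linarith [not_le.1 h6, not_le.1 h7]
    · simp only [Real.smoothTransition.one_of_one_le (show 1 ≤ 4 * y - 2 by linarith),
        Real.smoothTransition.one_of_one_le (show 1 ≤ Y + 1 - y by linarith only [hy']), mul_one]
  have hT : Tst fun z : ℂ => zt z.re * φ₀ z.im := by
    refine ⟨(contDiff_zt.comp reCLM.contDiff).mul (h1.comp imCLM.contDiff),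
      Icc (-1) 1 ×ℂ Icc (1 / 2) (Y + 1), isCompact_Icc.reProdIm isCompact_Icc,
      fun z hz => lt_of_lt_of_le (by norm_num) hz.2.1, fun z hz => ?_⟩
    by_contra h5
    have h6 := mul_ne_zero_iff.1 h5
    exact hz ⟨abs_le.1 (zt_supp h6.1).le, h3 _ h6.2⟩
  have hn : ∀ z : ℂ, 0 ≤ zt z.re * φ₀ z.im := fun z => mul_nonneg (zt_mem _).1 (h2 _)
  refine ⟨fun y => 2 * φ₀ y, _, ⟨contDiff_const.mul h1, fun y => mul_nonneg zero_le_two (h2 y),
    Y + 1, by linarith, fun y hy => ?_⟩, mnb_ts hT, fun z _ => tsum_nonneg fun γ => hn _,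
    fun z hz hY' => ?_, fun G hG hi => ?_⟩
  · have h5 := h3 y (mul_ne_zero_iff.1 hy).2
    exact ⟨(one_div_le_one_div_of_le two_pos (by linarith only [hY])).trans h5.1, h5.2⟩
  · refine le_trans ?_ (mnb_le hT hn (Fd_sub hz))
    rw [h4 _ (Fd_im hz) hY', ← div_eq_mul_inv, one_le_div hc]
    exact hm (abs_le.1 hz.2.1)
  · rw [mnb_unf hT hG hi, mnb_fub hT hG hi, St, ← integral_const_mul]
    simp only [mul_assoc, mul_div_assoc]

/-- MNC.  `ψ₀ = smoothTransition ∘ E`, `sm_th`. -/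
theorem exists_psi0 {E : ℂ → ℝ} (hE : Ts E) (h0 : ∀ z ∈ Up, 0 ≤ E z) : ∃ (ψ₀ : ℂ → ℝ) (C : ℝ),
    Ts ψ₀ ∧ 0 ≤ C ∧ (∀ z ∈ Up, |ψ₀ z| ≤ C * E z) ∧ (∀ z, 0 ≤ ψ₀ z ∧ ψ₀ z ≤ 1) ∧
    ∀ z, 1 ≤ E z → ψ₀ z = 1 := by
  obtain ⟨k, hk, hs⟩ := sm_th
  obtain ⟨Y, hY⟩ := hE.van
  refine ⟨fun z => Real.smoothTransition (E z), k,
    ⟨fun n => (Real.smoothTransition.contDiff (n := n)).comp_contDiffOn (hE.smooth n),
      fun z hz => ?_, Y, fun z hz => ?_⟩, by linarith, fun z hz => ?_,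
    fun z => ⟨Real.smoothTransition.nonneg _, Real.smoothTransition.le_one _⟩,
    fun z hz => Real.smoothTransition.one_of_one_le hz⟩
  · simp only [(hE.inv z hz).1, (hE.inv z hz).2, and_self]
  · simp only [hY z hz, Real.smoothTransition.zero]
  · have h := (convex_univ (𝕜 := ℝ) (E := ℝ)).norm_image_sub_le_of_norm_deriv_le
      (f := Real.smoothTransition) (C := 1 * k)
      (fun x _ => hs.c2.differentiable (by norm_num) x) hs.b1 (mem_univ 0) (mem_univ (E z))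
    rwa [Real.smoothTransition.zero, sub_zero, sub_zero, one_mul, Real.norm_eq_abs,
      Real.norm_of_nonneg (h0 z hz)] at h

/-- MNC.  `isCompact_Fd_le`, `exists_fd'`, `Inv.mb`. -/
theorem dom_E {E ψ : ℂ → ℝ} (hE : Ts E) (hψ : Ts ψ) {Y : ℝ} (h0 : ∀ z ∈ Up, 0 ≤ E z)
    (h1 : ∀ z ∈ Fd, z.im ≤ Y → 1 ≤ E z) (h2 : ∀ z : ℂ, Y ≤ z.im → ψ z = 0) :
    ∃ C : ℝ, 0 ≤ C ∧ ∀ z ∈ Up, |ψ z| ≤ C * E z := by
  obtain ⟨C, hC⟩ := (isCompact_Fd_le Y).exists_bound_of_continuousOn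
    ((hψ.smooth 0).continuousOn.mono fun z hz => Fd_sub hz.1)
  refine ⟨|C|, abs_nonneg C, fun z hz => ?_⟩
  obtain ⟨γ, hγ⟩ := exists_fd' hz
  rw [← hψ.inv.mb γ hz, ← hE.inv.mb γ hz]
  rcases le_total (mb (act γ one) z).im Y with h | h
  · exact ((hC _ ⟨hγ, h⟩).trans (le_abs_self C)).trans
      (le_mul_of_one_le_right (abs_nonneg C) (h1 _ hγ h))
  · rw [h2 _ h, abs_zero]
    exact mul_nonneg (abs_nonneg C) (h0 _ (Fd_sub hγ))

theorem mnc_mem {ψ₀ G : ℂ → ℝ} (h : Ts ψ₀) {Y : ℝ} (hG : ContinuousOn G Up) (hG0 : ∀ z, 0 ≤ G z)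
    (hi : IntegrableOn G Fd muH) (h0 : ∀ z, 0 ≤ ψ₀ z ∧ ψ₀ z ≤ 1)
    (h1 : ∀ z ∈ Fd, z.im ≤ Y → ψ₀ z = 1) :
    ∫ z in Fd, G z ∂muH - ∫ z in {z | z ∈ Fd ∧ Y < z.im}, G z ∂muH ≤
        ∫ z in Fd, ψ₀ z * G z / z.im ^ 2 ∧
      ∫ z in Fd, ψ₀ z * G z / z.im ^ 2 ≤ ∫ z in Fd, G z ∂muH := by
  have e : ∫ z in Fd, ψ₀ z * G z / z.im ^ 2 = ∫ z in Fd, ψ₀ z * G z ∂muH := by
    rw [setInt_muH _ measurableSet_Fd Fd_sub]
    exact integral_congr_ae (.of_forall fun z => by simp only [smul_eq_mul]; ring)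
  have hj : IntegrableOn (fun z => ψ₀ z * G z) Fd muH :=
    (integrableOn_muH measurableSet_Fd Fd_sub).2 (h.int hG)
  rw [e]
  refine ⟨?_, setIntegral_mono_on hj hi measurableSet_Fd fun z _ =>
    mul_le_of_le_one_left (hG0 z) (h0 z).2⟩
  have e2 := setIntegral_indicator (μ := muH) (s := Fd) (f := G) (tail_meas Y)
  rw [inter_eq_right.2 fun z hz => hz.1] at e2
  rw [← e2, ← integral_sub hi (hi.indicator (tail_meas Y))]
  refine setIntegral_mono_on (hi.sub (hi.indicator (tail_meas Y))) hj measurableSet_Fd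
    fun z hz => ?_
  by_cases hz' : Y < z.im
  · rw [indicator_of_mem (show z ∈ {z | z ∈ Fd ∧ Y < z.im} from ⟨hz, hz'⟩), sub_self]
    exact mul_nonneg (h0 z).1 (hG0 z)
  · rw [indicator_of_notMem (show z ∉ {z | z ∈ Fd ∧ Y < z.im} from fun a => hz' a.2), sub_zero,
      h1 z hz (not_lt.1 hz'), one_mul]

/-- MNC.  `vol_Fd`, `vol_cusp`. -/
theorem m0_mem {ψ₀ : ℂ → ℝ} (h : Ts ψ₀) {Y : ℝ} (hY : 1 ≤ Y) (h0 : ∀ z, 0 ≤ ψ₀ z ∧ ψ₀ z ≤ 1)
    (h1 : ∀ z ∈ Fd, z.im ≤ Y → ψ₀ z = 1) :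
    Real.pi / 3 - 1 / Y ≤ m0 ψ₀ ∧ m0 ψ₀ ≤ Real.pi / 3 := by
  have a := mnc_mem h (G := fun _ => 1) continuousOn_const (fun _ => zero_le_one)
    (integrableOn_const (by rw [vol_Fd]; exact ENNReal.ofReal_ne_top)) h0 h1
  have b := ENNReal.toReal_le_of_le_ofReal (by positivity) (vol_cusp hY)
  simp only [setIntegral_const, smul_eq_mul, mul_one, measureReal_def, vol_Fd,
    ENNReal.toReal_ofReal (show 0 ≤ Real.pi / 3 by positivity)] at a
  exact ⟨le_trans (by linarith only [b]) a.1, a.2⟩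

/-- MNC.  `Form.int_sq`. -/
theorem mk_mem {ψ₀ : ℂ → ℝ} (h : Ts ψ₀) {Y t : ℝ} {f : ℂ → ℝ} (hf : Form t f)
    (h0 : ∀ z, 0 ≤ ψ₀ z ∧ ψ₀ z ≤ 1) (h1 : ∀ z ∈ Fd, z.im ≤ Y → ψ₀ z = 1) :
    Real.pi / 3 - Esc Y f ≤ mk ψ₀ f 2 ∧ mk ψ₀ f 2 ≤ Real.pi / 3 := by
  have a := mnc_mem h (G := fun z => f z ^ 2) (hf.toEig.cont.pow 2) (fun _ => sq_nonneg _)
    hf.integrableOn h0 h1
  rw [hf.int_sq] at a
  exact a

/-- MNC. -/
theorem m0_pos {E ψ₀ : ℂ → ℝ} (hE : Ts E) (h : Ts ψ₀) {C : ℝ} (h0 : ∀ z ∈ Up, 0 ≤ E z)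
    (h1 : ∀ z ∈ Up, |ψ₀ z| ≤ C * E z) (h2 : 0 < m0 ψ₀) : 0 < m0 E := by
  have i1 := h.int (G := fun _ => 1) continuousOn_const
  have i2 := hE.int (G := fun _ => 1) continuousOn_const
  simp only [mul_one] at i1 i2
  have a : m0 ψ₀ ≤ C * m0 E := by
    rw [m0, m0, ← integral_const_mul]
    refine setIntegral_mono_on i1 (i2.const_mul C) measurableSet_Fd fun z hz => ?_
    rw [← mul_div_assoc]
    exact div_le_div_of_nonneg_right ((le_abs_self _).trans (h1 z (Fd_sub hz))) (sq_nonneg _)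
  have b : 0 ≤ m0 E := setIntegral_nonneg measurableSet_Fd fun z hz =>
    div_nonneg (h0 z (Fd_sub hz)) (sq_nonneg _)
  refine b.lt_of_ne fun e => ?_
  rw [← e, mul_zero] at a
  exact h2.not_ge a

theorem mnd_pos {t : ℝ} (ht : 0 < t) (r : ℝ) : 0 < yy t r := by
  unfold yy; positivity

theorem mnd_exp {t : ℝ} (ht : 0 < t) (r : ℝ) :
    Real.exp (r + Real.log (t / (2 * Real.pi))) = yy t r := by
  rw [Real.exp_add, Real.exp_log (by positivity), yy]; ring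

/-- MND.  `Vf φ t r = (2 π / t)² u (r + log (t / (2 π)))` with `u s = exp s * φ (exp s)`;
`exists_sm`, `Sm.shift`. -/
theorem exists_vw {φ : ℝ → ℝ} (h : Phi φ) : ∃ c : ℝ, 1 ≤ c ∧ ∀ c' T t : ℝ, c ≤ c' → 1 ≤ T →
    T ≤ t → t ≤ 2 * T → Vw c' T (Vf φ t) := by
  obtain ⟨a₀, ha₀, hs⟩ := h.supp
  have h2 : ContDiff ℝ 2 φ := contDiff_infty.1 h.smooth 2
  obtain ⟨a, ha, hu⟩ := exists_sm (A := fun s => Real.exp s * φ (Real.exp s))
    (Real.contDiff_exp.mul (h2.comp Real.contDiff_exp))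
    (HasCompactSupport.intro (isCompact_Icc (a := Real.log (1 / a₀)) (b := Real.log a₀))
      fun s hs' => by
        by_contra h0
        obtain ⟨h3, h4⟩ := hs _ (right_ne_zero_of_mul h0)
        exact hs' ⟨(Real.log_le_iff_le_exp (by positivity)).2 h3,
          (Real.le_log_iff_exp_le (by positivity)).2 h4⟩)
  have p3 := Real.pi_gt_three
  have p4 := Real.pi_lt_d2
  refine ⟨40 * a + 7 * a₀, by linarith only [ha₀, ha], fun c' T t hc hT h1 h3 => ?_⟩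
  have hT0 : 0 < T := by linarith only [p3, p4, hT]
  have ht : 0 < t := by linarith
  have he : ∀ r, Real.exp r = 2 * Real.pi * yy t r / t := fun r => by
    rw [yy]; field_simp
  refine ⟨?_, fun r => div_nonneg (mul_nonneg (sq_nonneg _) (h.nn _)) (mnd_pos ht r).le,
    fun r hr => ?_⟩
  · have h4 := (Sm.const univ (sq_nonneg (2 * Real.pi / t))).mul
      (hu.shift (Real.log (t / (2 * Real.pi))))
    have h5 : Vf φ t = fun x => (2 * Real.pi / t) ^ 2 *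
        (Real.exp (x + Real.log (t / (2 * Real.pi))) *
          φ (Real.exp (x + Real.log (t / (2 * Real.pi))))) := by
      funext r
      have := (mnd_pos ht r).ne'
      rw [mnd_exp ht, Vf, he]
      field_simp
    rw [h5]
    refine h4.mono subset_rfl ?_ (by norm_num)
    rw [div_pow, div_mul_eq_mul_div]
    refine div_le_div₀ (by linarith only [ha₀, ha, p3, p4, hc]) ?_ (by positivity) (pow_le_pow_left₀ hT0.le h1 2)
    have : (2 * Real.pi) ^ 2 ≤ 40 := by nlinarith only [p3, p4]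
    nlinarith only [ha₀, ha, hc, this]
  · obtain ⟨h4, h5⟩ := hs (yy t r) fun h0 => hr (by rw [Vf, h0, mul_zero, zero_div])
    have hy := mnd_pos ht r
    rw [div_le_iff₀ (by linarith only [ha₀, p3, p4])] at h4
    rw [he, div_le_div_iff₀ (mul_pos (by linarith) hT0) ht, one_mul]
    refine ⟨?_, div_le_div₀ (by linarith only [ha₀, ha, hc]) (by nlinarith only [ha₀, ha, p3, p4, hc, h5]) hT0 h1⟩
    have h6 : 1 ≤ yy t r * c' := h4.trans (mul_le_mul_of_nonneg_left (by linarith) hy.le)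
    have h7 : T ≤ yy t r * c' * T := le_mul_of_one_le_left hT0.le h6
    nlinarith only [p3, hT, h3, h7]

/-- MND.  The substitution `y = yy t r`. -/
theorem int_yy {t : ℝ} (ht : 0 < t) {Y : ℝ} (hY : 0 < Y) (h : ℝ → ℝ) :
    (∫ y in Ioi (0 : ℝ), h y = ∫ r, yy t r * h (yy t r)) ∧
      ∫ y in Ioi Y, h y = ∫ r in Ioi (Real.log (2 * Real.pi * Y / t)), yy t r * h (yy t r) := by
  have hp := Real.pi_pos
  have hd : ∀ r, HasDerivAt (yy t) (yy t r) r := fun r =>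
    ((Real.hasDerivAt_exp r).const_mul t).div_const _
  have hm : StrictMono (yy t) := fun r r' hr =>
    div_lt_div_of_pos_right (mul_lt_mul_of_pos_left (Real.exp_lt_exp.2 hr) ht) (by positivity)
  have hl : ∀ y, 0 < y → yy t (Real.log (2 * Real.pi * y / t)) = y := fun y hy => by
    rw [yy, Real.exp_log (by positivity)]; field_simp
  have key : ∀ S : Set ℝ, MeasurableSet S →
      ∫ y in yy t '' S, h y = ∫ r in S, yy t r * h (yy t r) := fun S hS => by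
    rw [integral_image_eq_integral_abs_deriv_smul hS (fun r _ => (hd r).hasDerivWithinAt)
      hm.injective.injOn]
    simp only [abs_of_pos (mnd_pos ht _), smul_eq_mul]
  constructor
  · rw [← setIntegral_univ (f := fun r => yy t r * h (yy t r)), ← key _ MeasurableSet.univ]
    congr 2
    ext y
    exact ⟨fun hy => ⟨_, mem_univ _, hl y hy⟩, fun ⟨r, _, hr⟩ => hr ▸ mnd_pos ht r⟩
  · rw [← key _ measurableSet_Ioi]
    congr 2
    ext y
    refine ⟨fun hy => ⟨_, ?_, hl y (hY.trans hy)⟩, fun ⟨r, h1, hr⟩ => ?_⟩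
    · exact hm.lt_iff_lt.1 (by rw [hl Y hY, hl y (hY.trans hy)]; exact hy)
    · have := hm h1
      rwa [hl Y hY, hr] at this

theorem mnd_two {t : ℝ} (ht : 0 < t) (f : ℂ → ℝ) (r : ℝ) : ∫ x in (0 : ℝ)..1, Gf t f r x ^ 2 =
    (∫ x in (0 : ℝ)..1, f ((x : ℂ) + (yy t r : ℂ) * I) ^ 2) / (yy t r / t) := by
  simp only [Gf, div_pow, Real.sq_sqrt (div_pos (mnd_pos ht r) ht).le,
    intervalIntegral.integral_div]

theorem mnd_four {t : ℝ} (ht : 0 < t) (f : ℂ → ℝ) (r : ℝ) : ∫ x in (0 : ℝ)..1, Gf t f r x ^ 4 =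
    (∫ x in (0 : ℝ)..1, f ((x : ℂ) + (yy t r : ℂ) * I) ^ 4) / (yy t r / t) ^ 2 := by
  have h : √(yy t r / t) ^ 4 = (yy t r / t) ^ 2 := by
    rw [show 4 = 2 * 2 from rfl, pow_mul, Real.sq_sqrt (div_pos (mnd_pos ht r) ht).le]
  simp only [Gf]
  simp only [div_pow _ (√(yy t r / t)), h, intervalIntegral.integral_div]

/-- MND. -/
theorem St_eq (φ : ℝ → ℝ) {t : ℝ} (ht : 0 < t) (f : ℂ → ℝ) :
    St φ (fun z => f z ^ 4) = I4 (Vf φ t) (Gf t f) / (2 * Real.pi) ^ 2 ∧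
      St φ (fun z => f z ^ 2) = I2 (Vf φ t) (Gf t f) / (2 * Real.pi) ∧
      St φ (fun _ => 1) = I0 (Vf φ t) := by
  have hp := Real.pi_pos.ne'
  have he : ∀ r, yy t r / t = Real.exp r / (2 * Real.pi) := fun r => by
    rw [yy]; field_simp
  refine ⟨?_, ?_, ?_⟩
  · rw [St, (int_yy ht one_pos _).1, I4, ← integral_div]
    refine integral_congr_ae (.of_forall fun r => ?_)
    have := (mnd_pos ht r).ne'
    simp only [mnd_four ht, he, Vf]
    field_simp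
  · rw [St, (int_yy ht one_pos _).1, I2, ← integral_div]
    refine integral_congr_ae (.of_forall fun r => ?_)
    have := (mnd_pos ht r).ne'
    simp only [mnd_two ht, he, Vf, Real.exp_neg]
    field_simp
  · rw [St, (int_yy ht one_pos _).1, I0]
    refine integral_congr_ae (.of_forall fun r => ?_)
    have := (mnd_pos ht r).ne'
    simp only [Vf, Real.exp_neg, intervalIntegral.integral_const, sub_zero, smul_eq_mul]
    field_simp

/-- MND.  `tail0_fub`, periodicity, `int_yy`. -/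
theorem Esc_eq {t Y : ℝ} (ht : 0 < t) (hY : 1 ≤ Y) {f : ℂ → ℝ} (h : Form t f) :
    Esc Y f = (∫ r in Ioi (Real.log (2 * Real.pi * Y / t)), ∫ x in (0 : ℝ)..1, Gf t f r x ^ 2) / t := by
  have h1 := (tail0_fub (F := fun z => f z ^ 2) h.int (A := Ioi Y) measurableSet_Ioi
    (Ioi_subset_Ioi hY)).2
  refine h1.trans ?_
  rw [(int_yy ht (by linarith only [hY]) _).2, ← integral_div]
  refine integral_congr_ae (.of_forall fun r => ?_)
  have hy := mnd_pos ht r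
  have hper : Function.Periodic (fun x : ℝ => f ((x : ℂ) + (yy t r : ℂ) * I) ^ 2) 1 := fun x => by
    have h2 := (h.inv ((x : ℂ) + (yy t r : ℂ) * I) (by simpa using hy)).1
    simp only [← h2, ofReal_add, ofReal_one, add_right_comm]
  have h3 := hper.intervalIntegral_add_eq (-(1 / 2)) 0
  rw [zero_add] at h3
  simp only [mnd_two ht, h3]
  field_simp

theorem mne_frm {κ c T t : ℝ} {f : ℂ → ℝ} {lam : ℕ → ℝ} {b : ℝ → ℂ} {Cp Cm : ℂ} (ht : 0 < t)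
    (hf : Form t f) (h : Dat κ t f lam b Cp Cm) (hc : κ ≤ c)
    (hb : ∀ n : ℕ, (‖Cp‖ + ‖Cm‖) * |lam n| ≤ c * T * n) : Frm c T t lam b Cp Cm (Gf t f) := by
  have hy : ∀ r, 0 < yy t r := fun r => by unfold yy; positivity
  have cy : Continuous (yy t) := by unfold yy; fun_prop
  refine ⟨h.wkb.mono ht.le hc, h.hk.zero, hb, ?_, fun r x => ?_⟩
  · refine Continuous.div (hf.c2.continuousOn.comp_continuous
      (f := fun p : ℝ × ℝ => (p.2 : ℂ) + (yy t p.1 : ℂ) * I) (by fun_prop) fun p => ?_)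
      (by fun_prop) fun p => (Real.sqrt_pos.2 (div_pos (hy _) ht)).ne'
    show 0 < ((p.2 : ℂ) + (yy t p.1 : ℂ) * I).im
    simpa using hy p.1
  · have h1 := h.sum x (yy t r) (hy r)
    have e : 2 * Real.pi * yy t r / t = Real.exp r := by
      unfold yy
      field_simp
    rwa [e, Real.log_exp] at h1

theorem mne_eps {c R : ℝ} {k : ℕ} (hc : 1 ≤ c) (hk : 13 ≤ k) (hR : 5 * c ≤ R) :
    9 * c ^ 2 * (R ^ (100 * k)) ^ 2 / (R ^ (100 * k)) ^ 2 *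
      ((R ^ (25 * k + 40)) ^ 3 / R ^ (100 * k) + R ^ (100 * k) / (R ^ (25 * k + 40)) ^ 4) ≤
      1 / R ^ 150 := by
  have h1 : 1 ≤ R := by linarith only [hc, hR]
  have h0 : 0 < R := by linarith only [hc, hR]
  have a1 : (R ^ (25 * k + 40)) ^ 3 / R ^ (100 * k) ≤ 1 / R ^ 160 := by
    rw [div_le_div_iff₀ (by positivity) (by positivity), one_mul, ← pow_mul, ← pow_add]
    exact pow_le_pow_right₀ h1 (by omega)
  have a2 : R ^ (100 * k) / (R ^ (25 * k + 40)) ^ 4 ≤ 1 / R ^ 160 := by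
    rw [div_le_div_iff₀ (by positivity) (by positivity), one_mul, ← pow_mul, ← pow_add]
    exact pow_le_pow_right₀ h1 (by omega)
  have a3 : 18 * c ^ 2 ≤ R ^ 10 := by
    have : (5 * c) ^ 2 ≤ R ^ 2 := pow_le_pow_left₀ (by positivity) hR 2
    have := pow_le_pow_right₀ h1 (show 2 ≤ 10 by norm_num)
    nlinarith [sq_nonneg c]
  rw [mul_div_cancel_right₀ _ (by positivity)]
  calc _ ≤ 9 * c ^ 2 * (1 / R ^ 160 + 1 / R ^ 160) :=
        mul_le_mul_of_nonneg_left (add_le_add a1 a2) (by positivity)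
    _ = 18 * c ^ 2 / R ^ 160 := by ring
    _ ≤ R ^ 10 / R ^ 160 := div_le_div_of_nonneg_right a3 (by positivity)
    _ = _ := by field_simp

/-- MNE.  `exists_dat`, `sieve` with `m = R ^ (25 k + 40)`, `K = 9 c² T²`, `LS.mono`, `Wkb.mono`. -/
theorem exists_data : ∃ c₀ : ℝ, 1 ≤ c₀ ∧ ∀ (c : ℝ) (k : ℕ), 1 ≤ c → 13 ≤ k → ∃ R₀ : ℝ,
    ∀ (R : ℝ) (ι : Type) (s : Finset ι) (f : ι → ℂ → ℝ) (t : ι → ℝ), R₀ ≤ R →
    Win s f t (R ^ (100 * k)) (R ^ (50 * k + 80)) →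
    ∃ (lam : ι → ℕ → ℝ) (b : ι → ℝ → ℂ) (Cp Cm : ι → ℂ),
      (∀ j ∈ s, Hk (lam j) ∧
        Frm c₀ (R ^ (100 * k)) (t j) (lam j) (b j) (Cp j) (Cm j) (Gf (t j) (f j))) ∧
      LS s (fun j => ‖Cp j‖ + ‖Cm j‖) lam (c₀ * (R ^ (100 * k) * R ^ (50 * k + 80))) (1 / R ^ 150)
        (9 * c ^ 2 * (R ^ (100 * k)) ^ 2) := by
  obtain ⟨κ, hκ, hdat⟩ := exists_dat
  obtain ⟨C, c₁, hC, hc₁, hsv⟩ := sieve
  refine ⟨κ + C, by linarith, fun c k hc hk => ⟨max c₁ (5 * c), fun R ι s f t hR hw => ?_⟩⟩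
  have r1 : c₁ ≤ R := (le_max_left _ _).trans hR
  have r5 : 5 * c ≤ R := (le_max_right _ _).trans hR
  have h1 : 1 ≤ R := by linarith only [hc, r5]
  have h0 : 0 < R := by linarith only [hc, r5]
  have hT : R ≤ R ^ (100 * k) := le_self_pow₀ h1 (by omega)
  have ht : ∀ j ∈ s, 3 ≤ t j := fun j hj => by linarith only [hw.t1 j hj, hc, r5, hT]
  choose! lam b Cp Cm hd using fun j (hj : j ∈ s) =>
    hdat (t j) (f j) (ht j hj) (hw.form j hj) (hw.cusp j hj) (hw.hecke j hj)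
  have e2 : (R ^ (25 * k + 40)) ^ 2 = R ^ (50 * k + 80) := by
    rw [← pow_mul]
    congr 1
    ring
  have b1 : c₁ * (R ^ (25 * k + 40)) ^ 2 ≤ R ^ (100 * k) := by
    rw [e2]
    refine (mul_le_mul_of_nonneg_right r1 (by positivity)).trans ?_
    rw [← pow_succ']
    exact pow_le_pow_right₀ h1 (by omega)
  have b2 : 9 * c ^ 2 * (R ^ (100 * k)) ^ 2 ≤ (R ^ (25 * k + 40)) ^ 8 := by
    have a1 : 9 * c ^ 2 ≤ R ^ 2 := by
      have : (5 * c) ^ 2 ≤ R ^ 2 := pow_le_pow_left₀ (by positivity) r5 2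
      nlinarith only [this]
    refine (mul_le_mul_of_nonneg_right a1 (by positivity)).trans ?_
    rw [← pow_mul, ← pow_mul, ← pow_add]
    exact pow_le_pow_right₀ h1 (by omega)
  obtain ⟨l1, l2⟩ := hsv ι s f t lam b Cp Cm κ (R ^ (100 * k)) (R ^ (25 * k + 40))
    (9 * c ^ 2 * (R ^ (100 * k)) ^ 2) (e2.symm ▸ hw) hd (one_le_pow₀ h1)
    (by rw [← pow_mul]; exact pow_le_pow_right₀ h1 (by omega)) b1 (by positivity) b2
  refine ⟨lam, b, Cp, Cm, fun j hj => ⟨(hd j hj).hk, mne_frm (by linarith only [ht j hj])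
    (hw.form j hj) (hd j hj) (by linarith only [hC]) fun n => (l2 j hj n).trans (by gcongr; linarith only [hκ])⟩,
    l1.mono subset_rfl (by positivity) ?_ (by positivity) (mne_eps hc hk r5) le_rfl⟩
  rw [e2, mul_assoc]
  exact mul_le_mul_of_nonneg_right (by linarith only [hκ]) (by positivity)

/-- MNE.  `tau_le` with exponent `1 / (400 k)`. -/
theorem dd_ok {c : ℝ} (hc : 1 ≤ c) {k : ℕ} (hk : 1 ≤ k) : ∃ R₀ : ℝ, ∀ R : ℝ, R₀ ≤ R →
    1 + Real.log (R ^ (100 * k)) ≤ √R ∧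
      ∀ n : ℕ, (n : ℝ) ≤ 3 * c * R ^ (100 * k) → (n.divisors.card : ℝ) ≤ √R := by
  have hk0 : 400 * k ≠ 0 := by omega
  have hk1 : (1 : ℝ) ≤ (400 * k : ℕ) := by exact_mod_cast Nat.one_le_iff_ne_zero.2 hk0
  obtain ⟨C, hC, h⟩ := tau_le (ε := ((400 * k : ℕ) : ℝ)⁻¹) (by positivity)
  have hcC : 0 ≤ 3 * c * C := by positivity
  have hk2 : (0 : ℝ) ≤ 400 * k := by positivity
  refine ⟨(400 * k + 1 + 3 * c * C) ^ 4, fun R hR => ?_⟩
  have h0 : 0 ≤ R := le_trans (by positivity) hR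
  obtain ⟨u, hu0, rfl⟩ : ∃ u : ℝ, 0 ≤ u ∧ R = u ^ 4 :=
    ⟨√(√R), Real.sqrt_nonneg _, by
      rw [show 4 = 2 * 2 from rfl, pow_mul, Real.sq_sqrt (Real.sqrt_nonneg R), Real.sq_sqrt h0]⟩
  have hu : 400 * k + 1 + 3 * c * C ≤ u := le_of_pow_le_pow_left₀ (by norm_num) hu0 hR
  have hu1 : 1 ≤ u := by linarith only [hcC, hu]
  have e1 : √(u ^ 4) = u ^ 2 := by
    rw [show 4 = 2 * 2 from rfl, pow_mul, Real.sqrt_sq (sq_nonneg u)]
  have e2 : (u ^ 4) ^ (100 * k) = u ^ (400 * k) := by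
    rw [← pow_mul]
    congr 1
    ring
  rw [e1, e2]
  refine ⟨?_, fun n hn => ?_⟩
  · rw [Real.log_pow]
    have h1 := Real.log_le_self hu0
    have h2 := mul_le_mul_of_nonneg_left h1 hk2
    push_cast
    nlinarith only [hcC, hu, h2]
  · have h1 : (n : ℝ) ^ ((400 * k : ℕ) : ℝ)⁻¹ ≤ 3 * c * u := by
      refine (Real.rpow_le_rpow (Nat.cast_nonneg n) hn (by positivity)).trans ?_
      rw [Real.mul_rpow (by positivity) (by positivity), Real.pow_rpow_inv_natCast hu0 hk0]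
      exact mul_le_mul_of_nonneg_right
        (Real.rpow_le_self_of_one_le (by linarith only [hc]) (inv_le_one_of_one_le₀ hk1)) hu0
    refine (h n).trans ((mul_le_mul_of_nonneg_left h1 hC).trans ?_)
    nlinarith only [hu0, hu]

theorem mnf_one {Z B c ε η e J x₄ x₂ : ℝ} (hc : 1 ≤ c) (hε : 0 < ε) (h0 : 0 < η) (h1 : η ≤ 1)
    (hB : Z ^ 2 ≤ B) (hη : η * ((99 * B + 12) * (2 * c ^ 4)) ≤ ε / 2) (hJ0 : 0 ≤ J)
    (hJ : J ≤ 2 * c ^ 4) (he : e ≤ ε / 2 * η ^ 4)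
    (h4 : x₄ ≤ 3 * (1 + η) ^ 5 * Z ^ 2 * J + e / η ^ 4)
    (h2 : |x₂ - Z * J| ≤ 6 * η * (1 + |Z|) * J + e / η ^ 4) :
    |Z / (2 * Real.pi)| ≤ 1 + B ∧ x₄ / (2 * Real.pi) ^ 2 ≤ 3 * (Z / (2 * Real.pi)) ^ 2 * J + ε ∧
      |x₂ / (2 * Real.pi) - Z / (2 * Real.pi) * J| ≤ ε := by
  have hp : 1 ≤ 2 * Real.pi := by linarith only [Real.pi_gt_three]
  have a1 : |Z| ≤ 1 + B := by nlinarith only [sq_abs Z, hB]
  have a2 : e / η ^ 4 ≤ ε / 2 := (div_le_iff₀ (by positivity)).2 he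
  have B0 : 0 ≤ B := (sq_nonneg _).trans hB
  have a3 : (1 + η) ^ 5 ≤ 1 + 31 * η := by
    have b2 : η ^ 2 ≤ η := pow_le_of_le_one h0.le h1 (by norm_num)
    have b3 : η ^ 3 ≤ η := pow_le_of_le_one h0.le h1 (by norm_num)
    have b4 : η ^ 4 ≤ η := pow_le_of_le_one h0.le h1 (by norm_num)
    have b5 : η ^ 5 ≤ η := pow_le_of_le_one h0.le h1 (by norm_num)
    linarith only [b2, b3, b4, b5]
  have a4 : (1 + η) ^ 5 * (Z ^ 2 * J) ≤ (1 + 31 * η) * (Z ^ 2 * J) := by gcongr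
  have a5 : η * (Z ^ 2 * J) ≤ η * (B * (2 * c ^ 4)) := by gcongr
  have a6 : η * ((1 + |Z|) * J) ≤ η * ((1 + (1 + B)) * (2 * c ^ 4)) := by gcongr
  have a7 : 0 ≤ η * (B * c ^ 4) := by positivity
  have a8 : 0 ≤ η * c ^ 4 := by positivity
  refine ⟨?_, ?_, ?_⟩
  · rw [abs_div, abs_of_pos (by linarith only [hp] : 0 < 2 * Real.pi)]
    exact (div_le_self (abs_nonneg _) hp).trans a1
  · have b1 : x₄ ≤ 3 * Z ^ 2 * J + ε := by linarith
    have b2 : ε / (2 * Real.pi) ^ 2 ≤ ε := div_le_self hε.le (one_le_pow₀ hp)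
    refine (div_le_div_of_nonneg_right b1 (by positivity)).trans ?_
    rw [add_div, div_pow]
    exact add_le_add (le_of_eq (by ring)) b2
  · rw [div_mul_eq_mul_div, ← sub_div, abs_div, abs_of_pos (by linarith only [hp] : 0 < 2 * Real.pi)]
    exact (div_le_self (abs_nonneg _) hp).trans (by linarith only [hη, h2, a2, a6, a7])

/-- MNF.  Paper 8.  `c = max` of the constants of `exists_data`, `exists_vw`, `pc_am`;
`W = max 1 (6 c₀ / δ)`; the family `F` consists of the forms with `Om² ≤ W` (the large sieve for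
`J = {1}` and `markov` count the others), `N₁ = ⌈2 c T⌉₊`, `DD = √R`; `coreA`, `markov` twice, `I0_le`
to choose `η`, `St_eq`; `Z` is the `Z` of `coreA` divided by `2 π`. -/
theorem core {φ : ℝ → ℝ} (hφ : Phi φ) {k : ℕ} (hk : 13 ≤ k) {δ : ℝ} (hδ : 0 < δ) :
    ∃ Z₀ : ℝ, ∀ ε : ℝ, 0 < ε → ∃ R₀ : ℝ,
    ∀ (R : ℝ) (ι : Type) (s : Finset ι) (f : ι → ℂ → ℝ) (t : ι → ℝ), R₀ ≤ R →
    Win s f t (R ^ (100 * k)) (R ^ (50 * k + 80)) →
    ∃ bad : Finset ι, (bad.card : ℝ) ≤ δ * (R ^ (100 * k) * R ^ (50 * k + 80)) ∧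
      ∀ j ∈ s, j ∉ bad → ∃ Z : ℝ, |Z| ≤ Z₀ ∧
        St φ (fun z => f j z ^ 4) ≤ 3 * Z ^ 2 * St φ (fun _ => 1) + ε ∧
        |St φ (fun z => f j z ^ 2) - Z * St φ (fun _ => 1)| ≤ ε := by
  classical
  obtain ⟨c₀, hc₀, hD⟩ := exists_data
  obtain ⟨c₁, -, hV⟩ := exists_vw hφ
  obtain ⟨c₂, -, hP⟩ := pc_am
  obtain ⟨c, l₀, l₁, l₂⟩ : ∃ c : ℝ, c₀ ≤ c ∧ c₁ ≤ c ∧ c₂ ≤ c := ⟨max c₀ (max c₁ c₂), le_max_left _ _,
    (le_max_left _ _).trans (le_max_right _ _), (le_max_right _ _).trans (le_max_right _ _)⟩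
  have hc : 1 ≤ c := hc₀.trans l₀
  obtain ⟨W, hW, hW'⟩ : ∃ W : ℝ, 1 ≤ W ∧ 6 * c₀ / δ ≤ W := ⟨_, le_max_left _ _, le_max_right _ _⟩
  obtain ⟨B, hB⟩ : ∃ B : ℝ, B = 9600 * c ^ 2 * W * c₀ / δ := ⟨_, rfl⟩
  have B0 : 0 < B := by rw [hB]; positivity
  refine ⟨1 + B, fun ε hε => ?_⟩
  obtain ⟨η, η0, η1, η2⟩ : ∃ η : ℝ, 0 < η ∧ η ≤ 1 ∧ η * ((99 * B + 12) * (2 * c ^ 4)) ≤ ε / 2 :=
    ⟨min 1 (ε / 2 / ((99 * B + 12) * (2 * c ^ 4))), lt_min one_pos (by positivity), min_le_left _ _,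
      (le_div_iff₀ (by positivity)).1 (min_le_right _ _)⟩
  obtain ⟨R₁, h₁⟩ := hD c k hc hk
  obtain ⟨R₂, h₂⟩ := dd_ok hc (le_trans (by norm_num) hk : 1 ≤ k)
  obtain ⟨C, R₃, hC, h₃⟩ := coreA hc k
  obtain ⟨e, he⟩ : ∃ e : ℝ, e = ε / 4 * η ^ 4 := ⟨_, rfl⟩
  have e0 : 0 < e := by rw [he]; positivity
  refine ⟨max (max R₁ (max R₂ R₃)) (max (2 * c) (max (C / e) (3 * C * W * c₀ / (δ * e)))),
    fun R ι s f t hR hw => ?_⟩
  simp only [max_le_iff] at hR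
  obtain ⟨⟨r₁, r₂, r₃⟩, r₄, r₅, r₆⟩ := hR
  have R1 : 1 ≤ R := by linarith only [hc₀, l₀, r₄]
  have R0 : 0 < R := by linarith only [hc₀, l₀, r₄]
  obtain ⟨lam, b, Cp, Cm, hF, hL⟩ := h₁ R ι s f t r₁ hw
  obtain ⟨d₁, d₂⟩ := h₂ R r₂
  have T1 : 1 ≤ R ^ (100 * k) := one_le_pow₀ R1
  have MT : R ^ (50 * k + 80) ≤ R ^ (100 * k) := pow_le_pow_right₀ R1 (by omega)
  have M0 : 0 ≤ R ^ (50 * k + 80) := by positivity
  have ε1 : 1 / R ^ 150 ≤ 1 := (div_le_one (by positivity)).2 (one_le_pow₀ R1)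
  have cT : 1 ≤ c * R ^ (100 * k) := one_le_mul_of_one_le_of_one_le hc T1
  have n1 : (⌈2 * c * R ^ (100 * k)⌉₊ : ℝ) ≤ 3 * c * R ^ (100 * k) := by
    have := Nat.ceil_lt_add_one (by positivity : 0 ≤ 2 * c * R ^ (100 * k))
    linarith only [cT, this]
  let F : Fa ι c :=
    { T := R ^ (100 * k), M := R ^ (50 * k + 80), W := W, DD := √R
      KK := c₀ * (R ^ (100 * k) * R ^ (50 * k + 80)), ε := 1 / R ^ 150
      N₁ := ⌈2 * c * R ^ (100 * k)⌉₊, s := s.filter fun j => (‖Cp j‖ + ‖Cm j‖) ^ 2 ≤ W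
      t := t, lam := lam, Cp := Cp, Cm := Cm, V := fun j => Vf φ (t j)
      hT := T1, hM := M0, hMT := MT, hW := hW, hK := by positivity, e0 := by positivity, e1 := ε1
      t1 := fun j hj => hw.t1 j (Finset.mem_filter.1 hj).1
      t2 := fun j hj => hw.t2 j (Finset.mem_filter.1 hj).1
      hk := fun j hj => (hF j (Finset.mem_filter.1 hj).1).1
      ls := hL.mono (Finset.filter_subset _ _) (by positivity) le_rfl (by positivity) le_rfl
        ((pow_le_pow_left₀ (by positivity) n1 2).trans_eq (by ring))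
      om := fun j hj => (Finset.mem_filter.1 hj).2
      vw := fun j hj => hV c _ _ l₁ T1 (hw.t1 j (Finset.mem_filter.1 hj).1)
        (by linarith only [hw.t2 j (Finset.mem_filter.1 hj).1, MT])
      n0 := Nat.le_ceil _
      n1 := n1
      tau := fun n hn => d₂ n ((Nat.cast_le.2 hn).trans n1)
      lg := d₁ }
  obtain ⟨Z, err, g₀, g₁, g₂, g₃⟩ := h₃ ι F R b (fun j => Gf (t j) (f j)) r₃
    ⟨hk, r₄, rfl, le_rfl, (one_div_mul_cancel (by positivity)).le, (Real.sq_sqrt R0.le).le,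
      fun d d' a1 a2 a3 => (hP d d' a1 a2 a3).mono l₂⟩
    fun j hj => (hF j (Finset.mem_filter.1 hj).1).2.mono (by positivity)
      (by linarith only [hw.t1 j (Finset.mem_filter.1 hj).1, T1]) l₀
  have m₁ := markov s (e := fun j => (‖Cp j‖ + ‖Cm j‖) ^ 2) (fun j _ => sq_nonneg _)
    (by linarith only [hW] : 0 < W)
  have m₂ := markov F.s (e := fun j => Z j ^ 2) (fun j _ => sq_nonneg _) B0
  have m₃ := markov F.s g₀ e0
  have s₁ : ∑ j ∈ s, (‖Cp j‖ + ‖Cm j‖) ^ 2 ≤ 2 * c₀ * (R ^ (100 * k) * R ^ (50 * k + 80)) := by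
    have h := hL {1} (fun _ => 1) fun n hn => by
      rw [Finset.mem_singleton.1 hn]
      exact ⟨le_rfl, by push_cast; nlinarith only [cT]⟩
    simp only [Finset.sum_singleton, norm_one, one_pow, mul_one, one_mul] at h
    rw [Finset.sum_congr rfl fun j hj => by rw [(hF j hj).1.one, ofReal_one, norm_one, one_pow,
      mul_one]] at h
    refine h.trans ?_
    have := mul_le_mul_of_nonneg_left ε1
      (by positivity : 0 ≤ c₀ * (R ^ (100 * k) * R ^ (50 * k + 80)))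
    linarith only [this]
  change ∑ j ∈ F.s, err j ≤ C * (W * (c₀ * (R ^ (100 * k) * R ^ (50 * k + 80))) / R) at g₁
  change ∑ j ∈ F.s, Z j ^ 2 ≤ 3200 * c ^ 2 * (W * (c₀ * (R ^ (100 * k) * R ^ (50 * k + 80)))) at g₂
  have X0 : 0 ≤ R ^ (100 * k) * R ^ (50 * k + 80) := by positivity
  refine ⟨(s.filter fun j => W ≤ (‖Cp j‖ + ‖Cm j‖) ^ 2) ∪ ((F.s.filter fun j => B ≤ Z j ^ 2) ∪
    F.s.filter fun j => e ≤ err j), ?_, fun j hj hb => ?_⟩
  · generalize R ^ (100 * k) * R ^ (50 * k + 80) = X at g₁ g₂ X0 s₁ ⊢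
    have k₁ : (∑ j ∈ s, (‖Cp j‖ + ‖Cm j‖) ^ 2) / W ≤ δ / 3 * X := by
      rw [div_le_iff₀ (by linarith only [hW])]
      have := mul_le_mul_of_nonneg_right ((div_le_iff₀ hδ).1 hW') X0
      linarith only [s₁, this]
    have k₂ : (∑ j ∈ F.s, Z j ^ 2) / B ≤ δ / 3 * X := by
      rw [div_le_iff₀ B0, hB]
      exact g₂.trans_eq (by field_simp; ring)
    have k₃ : (∑ j ∈ F.s, err j) / e ≤ δ / 3 * X := by
      rw [div_le_iff₀ e0]
      refine g₁.trans ?_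
      rw [← mul_div_assoc, div_le_iff₀ R0]
      have := mul_le_mul_of_nonneg_right ((div_le_iff₀ (mul_pos hδ e0)).1 r₆) X0
      linarith only [this]
    have k₄ := (Nat.cast_le (α := ℝ)).2 ((Finset.card_union_le
      (s.filter fun j => W ≤ (‖Cp j‖ + ‖Cm j‖) ^ 2) _).trans (Nat.add_le_add_left
      (Finset.card_union_le (F.s.filter fun j => B ≤ Z j ^ 2) (F.s.filter fun j => e ≤ err j)) _))
    push_cast at k₄
    linarith only [m₁, m₂, m₃, k₁, k₂, k₃, k₄]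
  · simp only [Finset.mem_union, Finset.mem_filter, not_or, not_and, not_le] at hb
    have hj' : j ∈ F.s := Finset.mem_filter.2 ⟨hj, (hb.1 hj).le⟩
    have t0 : 0 < t j := by linarith only [hw.t1 j hj, T1]
    obtain ⟨q₁, q₂, q₃⟩ := St_eq φ t0 (f j)
    obtain ⟨p₁, p₂⟩ := g₃ j hj' η η0 η1
    have p₃ : C / R ≤ e := by
      rw [div_le_iff₀ R0, mul_comm]
      exact (div_le_iff₀ e0).1 r₅
    rw [q₁, q₂, q₃]
    exact ⟨_, mnf_one hc hε η0 η1 (hb.2.1 hj').le η2 (I0_nonneg (F.vw j hj'))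
      (I0_le hc T1 (F.vw j hj')) (by linarith only [hb.2.2 hj', he, p₃]) p₁ p₂⟩

theorem mng_small (c : ℝ) {ε : ℝ} (hε : 0 < ε) :
    ∃ T₁ : ℝ, ∀ T, T₁ ≤ T → c ^ 4 * T ^ 12 * Real.exp (-(T / 960)) ≤ ε := by
  have h := ((Real.tendsto_pow_mul_exp_neg_atTop_nhds_zero 12).comp
    (Filter.tendsto_id.atTop_div_const (r := 960) (by norm_num))).const_mul (c ^ 4 * 960 ^ 12)
  rw [mul_zero] at h
  obtain ⟨T₁, hT⟩ := Filter.eventually_atTop.1 (h.eventually (ge_mem_nhds hε))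
  refine ⟨T₁, fun T h => le_trans (le_of_eq ?_) (hT T h)⟩
  simp only [Function.comp, id]
  ring

/-- MNG.  Paper 8, ESC.  `exists_data` with `c = 1`, `X = T / (π Y)`, `Esc_eq`, `esc_one`, `esc_sum`,
`markov`. -/
theorem esc {ε δ : ℝ} (hε : 0 < ε) (hδ : 0 < δ) : ∃ Y₀ : ℝ, ∀ (Y : ℝ) (k : ℕ), Y₀ ≤ Y → 1 ≤ Y →
    13 ≤ k → ∃ R₀ : ℝ,
    ∀ (R : ℝ) (ι : Type) (s : Finset ι) (f : ι → ℂ → ℝ) (t : ι → ℝ), R₀ ≤ R →
    Win s f t (R ^ (100 * k)) (R ^ (50 * k + 80)) →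
    ∃ bad : Finset ι, (bad.card : ℝ) ≤ δ * (R ^ (100 * k) * R ^ (50 * k + 80)) ∧
      ∀ j ∈ s, j ∉ bad → Esc Y (f j) ≤ ε := by
  classical
  obtain ⟨c, hc, hd⟩ := exists_data
  obtain ⟨T₁, hT₁⟩ := mng_small c (half_pos hε)
  refine ⟨320 * c ^ 2 / (ε * δ), fun Y k hY hY1 hk => ?_⟩
  obtain ⟨R₁, hR₁⟩ := hd 1 k le_rfl hk
  refine ⟨max (max R₁ T₁) (max 160 (4 * Y)), fun R ι s f t hR hw => ?_⟩
  simp only [max_le_iff] at hR
  obtain ⟨⟨r1, r2⟩, r3, r4⟩ := hR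
  obtain ⟨lam, b, Cp, Cm, h1, h2⟩ := hR₁ R ι s f t r1 hw
  have R1 : 1 ≤ R := by linarith only [r3]
  have hRT : R ≤ R ^ (100 * k) := le_self_pow₀ R1 (by omega)
  have hMT : R ^ (50 * k + 80) ≤ R ^ (100 * k) := pow_le_pow_right₀ R1 (by omega)
  have hM0 : 0 < R ^ (50 * k + 80) := by positivity
  have e1 : 1 / R ^ 150 ≤ 1 := (div_le_one (by positivity)).2 (one_le_pow₀ R1)
  have e0 : 0 ≤ 1 / R ^ 150 := by positivity
  generalize R ^ (100 * k) = T at *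
  generalize R ^ (50 * k + 80) = M at *
  have p3 := Real.pi_gt_three
  have p4 := Real.pi_lt_four
  have hT0 : 0 < T := by linarith only [r3, hRT, p3, p4]
  have hY0 : 0 < Y := by linarith only [hY1, p3, p4]
  have q1 : Y ≤ Real.pi * Y := le_mul_of_one_le_left hY0.le (by linarith only [p3, p4])
  have q2 : Real.pi * Y ≤ 4 * Y := mul_le_mul_of_nonneg_right p4.le hY0.le
  have hX : 1 ≤ T / (Real.pi * Y) := (one_le_div (by positivity)).2 (by linarith only [r4, hRT, q2])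
  have hXT : T / (Real.pi * Y) ≤ T := div_le_self hT0.le (by linarith only [hY1, q1])
  have hS := esc_sum h2 (by positivity) e0 e1 hX (by nlinarith only [r3, hRT, hXT])
  have hη : 0 < ε * T / (8 * c) := by positivity
  have hm := markov s (e := fun j => ∑ n ∈ Finset.Icc 1 ⌈2 * (T / (Real.pi * Y))⌉₊,
    (‖Cp j‖ + ‖Cm j‖) ^ 2 * lam j n ^ 2 * (1 + |Real.log (n / (T / (Real.pi * Y)))|))
    (fun j _ => Finset.sum_nonneg fun n _ => by positivity) hη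
  refine ⟨_, hm.trans ((div_le_div_of_nonneg_right hS hη.le).trans ?_), fun j hj hb => ?_⟩
  · rw [div_le_iff₀ (by positivity)] at hY
    have : 40 * (T / (Real.pi * Y)) * (c * (T * M)) / (ε * T / (8 * c)) =
        320 * c ^ 2 / (Real.pi * Y * ε) * (T * M) := by
      field_simp
      norm_num
    rw [this]
    refine mul_le_mul_of_nonneg_right ?_ (by positivity)
    rw [div_le_iff₀ (by positivity)]
    have := mul_le_mul_of_nonneg_right q1 (mul_pos hε hδ).le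
    linarith only [hY, this]
  · have t1 := hw.t1 j hj
    have t2 : t j ≤ 2 * T := (hw.t2 j hj).trans (by linarith only [hMT])
    have t0 : 0 < t j := by linarith only [r3, hRT, p3, p4, t1]
    obtain ⟨i1, i2⟩ := esc_one hc (h1 j hj).2 (by linarith only [r3, hRT]) t1 t2 hX hXT
    have hlt := not_le.1 fun h => hb (Finset.mem_filter.2 ⟨hj, h⟩)
    rw [lt_div_iff₀ (by positivity)] at hlt
    have i3 := hT₁ T (by linarith only [r2, hRT])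
    have i4 : ∫ r in Ioi (Real.log (2 * Real.pi * Y / t j)), ∫ x in (0 : ℝ)..1,
        Gf (t j) (f j) r x ^ 2 ≤ _ := setIntegral_mono_set i1
      (.of_forall fun r => intervalIntegral.integral_nonneg zero_le_one fun x _ => sq_nonneg _)
      (Ioi_subset_Ioi (by
        rw [← Real.log_inv, inv_div]
        refine Real.log_le_log (by positivity) ?_
        rw [div_le_div_iff₀ hT0 t0]
        have := mul_le_mul_of_nonneg_left t2 (by positivity : 0 ≤ Real.pi * Y)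
        linarith only [this])).eventuallyLE
    rw [Esc_eq t0 hY1 (hw.form j hj), div_le_iff₀ t0]
    have i5 := mul_le_mul_of_nonneg_left t1 hε.le
    have i6 := mul_le_mul_of_nonneg_left (show 1 ≤ T by linarith only [r3, hRT, p3, p4]) hε.le
    linarith only [i2, hlt, i3, i4, i5, i6]

/-- MNH.  `Z` is close to one. -/
theorem near_one {Z e a₀ a₂ : ℝ} (he : 0 ≤ e) (he1 : e ≤ 1 / 4) (h0 : Real.pi / 3 - e ≤ a₀)
    (h0' : a₀ ≤ Real.pi / 3) (h2 : Real.pi / 3 - e ≤ a₂) (h2' : a₂ ≤ Real.pi / 3)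
    (h : |a₂ - Z * a₀| ≤ e) : |Z ^ 2 - 1| ≤ 12 * e := by
  have hp := Real.pi_gt_three
  obtain ⟨h3, h4⟩ := abs_le.1 h
  have a0 : 3 / 4 ≤ a₀ := by linarith only [he1, h0, hp]
  have u1 : Z - 1 ≤ 3 * e := by
    by_contra hn
    have := mul_le_mul_of_nonneg_left a0 (show 0 ≤ Z - 1 by linarith only [he, hn])
    linarith only [he, h0, h2', h3, hn, this]
  have u2 : 1 - Z ≤ 3 * e := by
    by_contra hn
    have := mul_le_mul_of_nonneg_left a0 (show 0 ≤ 1 - Z by linarith only [he, hn])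
    linarith only [he, h0', h2, h4, hn, this]
  rw [show Z ^ 2 - 1 = (Z - 1) * (Z + 1) by ring, abs_mul, show 12 * e = 3 * e * 4 by ring]
  exact mul_le_mul (abs_le.2 ⟨by linarith only [u2], u1⟩) (abs_le.2 ⟨by linarith only [he1, u2], by linarith only [he1, u1]⟩)
    (abs_nonneg _) (by linarith only [he])

/-- MNH.  Paper 9, one window.  Choose `e`, then `Y` (`esc`, `1 / Y ≤ e`, `ψ = 0` above `Y`),
`exists_E`, `exists_psi0`, `dom_E`, `core`, `rigid` for `ψ` and for `ψ₀`, `near_one`. -/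
theorem win {ψ : ℂ → ℝ} (hψ : Ts ψ) {k : ℕ} (hk : 13 ≤ k) {ε δ : ℝ} (hε : 0 < ε) (hδ : 0 < δ) :
    ∃ R₀ : ℝ, ∀ (R : ℝ) (ι : Type) (s : Finset ι) (f : ι → ℂ → ℝ) (t : ι → ℝ), R₀ ≤ R →
    Win s f t (R ^ (100 * k)) (R ^ (50 * k + 80)) →
    ((s.filter fun j => ε ≤ |mk ψ (f j) 4 - 3 * m0 ψ|).card : ℝ) ≤
      δ * (R ^ (100 * k) * R ^ (50 * k + 80)) := by
  classical
  have hm := abs_nonneg (m0 ψ)
  obtain ⟨e, e0, e1, e2⟩ : ∃ e : ℝ, 0 < e ∧ e ≤ 1 / 4 ∧ e * (100 * (|m0 ψ| + 1)) ≤ ε :=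
    ⟨min (1 / 4) (ε / (100 * (|m0 ψ| + 1))), lt_min (by norm_num) (by positivity), min_le_left _ _,
      (le_div_iff₀ (by positivity)).1 (min_le_right _ _)⟩
  have hd : 0 < δ / 2 := half_pos hδ
  obtain ⟨Y₀, hesc⟩ := esc e0 hd
  obtain ⟨Y₁, hY₁⟩ := hψ.van
  obtain ⟨Y, y0, y1, y2, y3⟩ : ∃ Y : ℝ, Y₀ ≤ Y ∧ 1 ≤ Y ∧ Y₁ ≤ Y ∧ 1 / e ≤ Y :=
    ⟨max (max Y₀ 1) (max Y₁ (1 / e)), le_max_of_le_left (le_max_left _ _),
      le_max_of_le_left (le_max_right _ _), le_max_of_le_right (le_max_left _ _),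
      le_max_of_le_right (le_max_right _ _)⟩
  have y4 : 1 / Y ≤ e := (one_div_le (by linarith only [e0, e1, y1]) e0).2 y3
  obtain ⟨φ, E, hφ, hE, hE0, hE1, hSt⟩ := exists_E y1
  obtain ⟨ψ₀, C₀, hψ₀, hC₀, hd₀, h01, h1⟩ := exists_psi0 hE hE0
  have h1' : ∀ z ∈ Fd, z.im ≤ Y → ψ₀ z = 1 := fun z hz hy => h1 z (hE1 z hz hy)
  obtain ⟨C₁, hC₁, hd₁⟩ := dom_E hE hψ hE0 hE1 fun z hz => hY₁ z (y2.trans hz)
  obtain ⟨m1, m2⟩ := m0_mem hψ₀ y1 h01 h1'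
  have hp := Real.pi_gt_three
  have hpos := m0_pos hE hψ₀ hE0 hd₀ (by linarith only [e1, y4, m1, hp])
  obtain ⟨Z₀, hcore⟩ := core hφ hk hd
  obtain ⟨ε₁, T₁, p₁, r₁⟩ := rigid (Z₀ := Z₀) hE hψ hC₁ hE0 hd₁ hpos e0
  obtain ⟨ε₂, T₂, p₂, r₂⟩ := rigid (Z₀ := Z₀) hE hψ₀ hC₀ hE0 hd₀ hpos e0
  obtain ⟨R₁, hR₁⟩ := hcore (min ε₁ ε₂) (lt_min p₁ p₂)
  obtain ⟨R₂, hR₂⟩ := hesc Y k y0 y1 hk
  refine ⟨max (max R₁ R₂) (max 1 (max T₁ T₂)), fun R ι s f t hR hw => ?_⟩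
  simp only [max_le_iff] at hR
  obtain ⟨⟨q1, q2⟩, q3, q4, q5⟩ := hR
  obtain ⟨b₁, c₁, g₁⟩ := hR₁ R ι s f t q1 hw
  obtain ⟨b₂, c₂, g₂⟩ := hR₂ R ι s f t q2 hw
  have s0 : m0 E = St φ fun _ => 1 := by
    rw [← hSt (fun _ => 1) continuousOn_const fun _ _ => ⟨rfl, rfl⟩]
    simp only [m0, mul_one]
  have hs : (s.filter fun j => ε ≤ |mk ψ (f j) 4 - 3 * m0 ψ|) ⊆ b₁ ∪ b₂ := by
    intro j hj
    obtain ⟨hj, hb⟩ := Finset.mem_filter.1 hj
    by_contra hn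
    rw [Finset.mem_union, not_or] at hn
    obtain ⟨Z, z0, z4, z2⟩ := g₁ j hj hn.1
    have hf := hw.form j hj
    have sk : ∀ n : ℕ, mk E (f j) n = St φ fun z => f j z ^ n := fun n =>
      hSt (fun z => f j z ^ n) (hf.c2.continuousOn.pow n) fun z hz => by
        simp only [(hf.inv z hz).1, (hf.inv z hz).2, and_self]
    rw [← sk 4, ← s0] at z4
    rw [← sk 2, ← s0] at z2
    have ht : R ≤ t j := (le_self_pow₀ q3 (by omega)).trans (hw.t1 j hj)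
    have l1 := min_le_left ε₁ ε₂
    have l2 := min_le_right ε₁ ε₂
    have a1 := (r₁ (f j) (t j) Z (q4.trans ht) hf z0 (by linarith only [z4, l1]) (z2.trans l1)).2
    have a2 := (r₂ (f j) (t j) Z (q5.trans ht) hf z0 (by linarith only [z4, l2]) (z2.trans l2)).1
    obtain ⟨n1, n2⟩ := mk_mem hψ₀ hf h01 h1'
    have n3 := g₂ j hj hn.2
    have a3 := near_one e0.le e1 (by linarith only [y4, m1]) m2 (by linarith only [n1, n3]) n2 a2
    have a4 : |(Z ^ 2 - 1) * m0 ψ| ≤ 12 * e * |m0 ψ| := by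
      rw [abs_mul]
      exact mul_le_mul_of_nonneg_right a3 hm
    have a5 := mul_nonneg e0.le hm
    have a6 : |mk ψ (f j) 4 - 3 * m0 ψ| ≤ e + 36 * (e * |m0 ψ|) := by
      obtain ⟨u1, u2⟩ := abs_le.1 a1
      obtain ⟨u3, u4⟩ := abs_le.1 a4
      exact abs_le.2 ⟨by linarith only [u1, u3], by linarith only [u2, u4]⟩
    linarith only [e0, e2, hb, a5, a6]
  have hc : ((s.filter fun j => ε ≤ |mk ψ (f j) 4 - 3 * m0 ψ|).card : ℝ) ≤
      (b₁.card : ℝ) + b₂.card := by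
    exact_mod_cast (Finset.card_le_card hs).trans (Finset.card_union_le _ _)
  linarith only [c₁, c₂, hc]

theorem mni_root {x a : ℝ} {n : ℕ} (hn : n ≠ 0) (ha : 0 ≤ a) (h : a ^ n ≤ x) :
    ∃ R : ℝ, a ≤ R ∧ R ^ n = x := by
  have hx : 0 ≤ x := (pow_nonneg ha n).trans h
  have h1 := Real.rpow_inv_natCast_pow hx hn
  exact ⟨_, (pow_le_pow_iff_left₀ ha (Real.rpow_nonneg hx _) hn).1 (h.trans_eq h1.symm), h1⟩

theorem mni_two {S R : ℝ} {a b : ℕ} (hS : 0 < S) (h : S ≤ R) (hab : a ≤ b)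
    (h2 : R ^ b ≤ 2 * S ^ b) : R ^ a ≤ 2 * S ^ a := by
  have h1 : (R / S) ^ a ≤ (R / S) ^ b := pow_le_pow_right₀ ((one_le_div hS).2 h) hab
  rw [div_pow, div_pow] at h1
  rw [← div_le_iff₀ (pow_pos hS _)] at h2 ⊢
  exact h1.trans h2

/-- MNI.  Paper 9, windows: `θ₀ = (50 k + 80) / (100 k) ≤ min θ 1`, `L = T ^ θ₀ ≤ M`, the windows
start at `T + i L`, `i ≤ ⌊M / L⌋₊`, `R = (T + i L) ^ (1 / (100 k))`. -/
theorem main {θ : ℝ} (hθ : 1 / 2 < θ) {ψ : ℂ → ℝ} (hψ : Ts ψ) {ε δ : ℝ} (hε : 0 < ε) (hδ : 0 < δ) :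
    ∃ T₀ : ℝ, ∀ (T M : ℝ) (ι : Type) (s : Finset ι) (f : ι → ℂ → ℝ) (t : ι → ℝ), T₀ ≤ T →
    T ^ θ ≤ M → M ≤ T → Win s f t T M →
    ((s.filter fun j => ε ≤ |mk ψ (f j) 4 - 3 * m0 ψ|).card : ℝ) ≤ δ * (T * M) := by
  obtain ⟨k, hk, hkθ⟩ : ∃ k : ℕ, 13 ≤ k ∧ ((50 * k + 80 : ℕ) : ℝ) ≤ ((100 * k : ℕ) : ℝ) * θ := by
    have h0 : 0 < θ - 1 / 2 := sub_pos.2 hθ
    refine ⟨13 + ⌈1 / (θ - 1 / 2)⌉₊, by omega, ?_⟩
    have h1 := Nat.le_ceil (1 / (θ - 1 / 2))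
    rw [div_le_iff₀ h0] at h1
    push_cast
    linarith only [hθ, h1]
  obtain ⟨R₀, hR⟩ := win hψ hk hε (δ := δ / 8) (by positivity)
  have k0 : 100 * k ≠ 0 := by omega
  refine ⟨max R₀ 1 ^ (100 * k), fun T M ι s f t hT hM hMT hW => ?_⟩
  obtain ⟨S, hS, rfl⟩ := mni_root k0 (zero_le_one.trans (le_max_right _ _)) hT
  have S1 : 1 ≤ S := (le_max_right _ _).trans hS
  have S0 : 0 < S := one_pos.trans_le S1
  have hL : S ^ (50 * k + 80) ≤ M := by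
    refine le_trans ?_ hM
    rw [← Real.rpow_natCast, ← Real.rpow_natCast, ← Real.rpow_mul S0.le]
    exact Real.rpow_le_rpow_of_exponent_le S1 hkθ
  have L0 : 0 < S ^ (50 * k + 80) := pow_pos S0 _
  have T0 : 0 < S ^ (100 * k) := pow_pos S0 _
  set L := S ^ (50 * k + 80) with hLd
  set T := S ^ (100 * k) with hTd
  have M0 : 0 ≤ M / L := div_nonneg (L0.le.trans hL) L0.le
  have hmap : ∀ j ∈ s.filter fun j => ε ≤ |mk ψ (f j) 4 - 3 * m0 ψ|,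
      ⌊(t j - T) / L⌋₊ ∈ Finset.range (⌊M / L⌋₊ + 1) := fun j hj => by
    have := hW.t2 j (Finset.mem_filter.1 hj).1
    exact Finset.mem_range.2 (Nat.lt_succ_of_le (Nat.floor_le_floor (by gcongr; linarith only [this])))
  rw [Finset.card_eq_sum_card_fiberwise hmap, Nat.cast_sum]
  have one : ∀ i ∈ Finset.range (⌊M / L⌋₊ + 1),
      ((((s.filter fun j => ε ≤ |mk ψ (f j) 4 - 3 * m0 ψ|).filter
        fun j => ⌊(t j - T) / L⌋₊ = i).card : ℕ) : ℝ) ≤ δ / 8 * (2 * T * (2 * L)) := by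
    intro i hi
    have i1 : (i : ℝ) ≤ M / L :=
      (Nat.cast_le.2 (Nat.le_of_lt_succ (Finset.mem_range.1 hi))).trans (Nat.floor_le M0)
    rw [le_div_iff₀ L0] at i1
    have i0 : 0 ≤ (i : ℝ) * L := by positivity
    obtain ⟨R, hSR, hRT⟩ := mni_root (x := T + i * L) k0 S0.le (by linarith only [i0])
    have a1 : R ^ (100 * k) ≤ 2 * T := by linarith only [hMT, i1, hRT]
    have a2 : R ^ (50 * k + 80) ≤ 2 * L := mni_two S0 hSR (by omega) a1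
    have a3 : L ≤ R ^ (50 * k + 80) := pow_le_pow_left₀ S0.le hSR _
    have R0 : 0 ≤ R := S0.le.trans hSR
    rw [Finset.filter_comm]
    have hs : ∀ j ∈ s.filter fun j => ⌊(t j - T) / L⌋₊ = i, j ∈ s := fun j hj =>
      (Finset.mem_filter.1 hj).1
    refine (hR R ι _ f t (((le_max_left _ _).trans hS).trans hSR)
      ⟨⟨fun j hj => hW.form j (hs j hj), fun a ha b hb => hW.orth a (hs a ha) b (hs b hb)⟩,
        fun j hj => hW.cusp j (hs j hj), fun j hj => hW.hecke j (hs j hj), fun j hj => ?_,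
        fun j hj => ?_⟩).trans (mul_le_mul_of_nonneg_left
          (mul_le_mul a1 a2 (pow_nonneg R0 _) (mul_pos two_pos T0).le) (div_pos hδ (by norm_num)).le)
    · have h1 := Nat.floor_le (div_nonneg (sub_nonneg.2 (hW.t1 j (hs j hj))) L0.le)
      rw [(Finset.mem_filter.1 hj).2, le_div_iff₀ L0] at h1
      linarith only [hRT, h1]
    · have h1 := Nat.lt_floor_add_one ((t j - T) / L)
      rw [(Finset.mem_filter.1 hj).2, div_lt_iff₀ L0] at h1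
      linarith only [hRT, a3, h1]
  refine (Finset.sum_le_card_nsmul _ _ _ one).trans ?_
  rw [Finset.card_range, nsmul_eq_mul]
  have h1 : ((⌊M / L⌋₊ + 1 : ℕ) : ℝ) ≤ 2 * (M / L) := by
    have := Nat.floor_le M0
    have := (one_le_div L0).2 hL
    push_cast
    linarith
  clear_value L T
  calc _ ≤ 2 * (M / L) * (δ / 8 * (2 * T * (2 * L))) :=
        mul_le_mul_of_nonneg_right h1 (by positivity)
    _ = _ := by field_simp; ring

theorem int_ind (H : ℂ → ℝ → ℝ → ℝ) (f g : ℂ → ℝ) :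
    ∫ z in Fd, H z (Up.indicator f z) (Up.indicator g z) = ∫ z in Fd, H z (f z) (g z) :=
  setIntegral_congr_fun measurableSet_Fd fun z hz => by
    simp only [indicator_of_mem (Fd_sub hz)]

theorem form_ind {t : ℝ} {f : ℂ → ℝ} (h2 : ContDiffOn ℝ 2 f Up)
    (he : ∀ z : ℂ, 0 < z.im →
      -(z.im ^ 2) * (iteratedFDeriv ℝ 2 f z ![(1 : ℂ), 1] + iteratedFDeriv ℝ 2 f z ![I, I])
        = (1 / 4 + t ^ 2) * f z) (hi : Inv f)
    (hint : IntegrableOn (fun z : ℂ => f z ^ 2 / z.im ^ 2) Fd)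
    (hn : ∫ z in Fd, f z ^ 2 / z.im ^ 2 = Real.pi / 3) : Form t (Up.indicator f) := by
  refine ⟨eig_indicator h2 he, fun z hz => ?_, hint.congr_fun (fun z hz => by
    simp only [indicator_of_mem (Fd_sub hz)]) measurableSet_Fd,
    (int_ind (fun z a _ => a ^ 2 / z.im ^ 2) f f).trans hn⟩
  have h1 : z + 1 ∈ Up := by show 0 < (z + 1).im; simpa using hz
  have h3 : -z⁻¹ ∈ Up := by
    show 0 < (-z⁻¹).im
    rw [neg_im, inv_im, neg_div, neg_neg]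
    exact div_pos hz (normSq_pos.2 fun h => by simp [h] at hz)
  rw [indicator_of_mem h1, indicator_of_mem h3, indicator_of_mem (show z ∈ Up from hz)]
  exact hi z hz

theorem cusp_ind {f : ℂ → ℝ} (h : Cusp f) : Cusp (Up.indicator f) := fun y hy => by
  refine Eq.trans (intervalIntegral.integral_congr fun x _ => indicator_of_mem (s := Up) ?_ f)
    (h y hy)
  show 0 < ((x : ℂ) + y * I).im
  simpa using hy

theorem hecke_ind {f : ℂ → ℝ} (h : Hecke f) : Hecke (Up.indicator f) := fun m hm => by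
  obtain ⟨c, hc⟩ := h m hm
  refine ⟨c, fun z hz => ?_⟩
  rw [indicator_of_mem (show z ∈ Up from hz), ← hc z hz]
  refine Finset.sum_congr rfl fun d hd => Finset.sum_congr rfl fun b _ =>
    indicator_of_mem (s := Up) ?_ f
  have h1 := Nat.dvd_of_mem_divisors hd
  have h2 : 0 < d := Nat.pos_of_dvd_of_pos h1 hm
  have h3 : 0 < m / d := Nat.div_pos (Nat.le_of_dvd hm h1) h2
  show 0 < ((((m / d : ℕ) : ℂ) * z + (b : ℂ)) / (d : ℂ)).im
  rw [div_natCast_im, add_im, natCast_im, add_zero, mul_im, natCast_re, natCast_im, zero_mul,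
    add_zero]
  positivity

end Pool.Agent.MP_a28cf0_nt.D4
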