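import Mathlib

attribute [-instance] AddQuantale.instAddLeftMono IdemSemiring.toCanonicallyOrderedAdd
  AddQuantale.instAddRightMono ProperSMul.toContinuousSMul IsTopologicalTorsor.toContinuousSMul
  IdemSemiring.toMulLeftMono NumberField.to_charZero RKHS.instFunLike Quantale.instMulRightMono
  IsOrderedMonoid.toMulLeftMono LieAdmissibleAlgebra.toModule Quantale.instMulLeftMono
  RightPreLieAlgebra.toModule LeftPreLieAlgebra.toModule
  Topology.IsScott.instClosedIicTopologyOfUnivSet instCoeOTCOfCoeOut instCoeHTCOfCoeHeadOfCoeOTC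
  instCoeHTCTOfCoeTailOfCoeHTC Valued.toUniformSpace instCoeTOfCoeDep
  Group.IsPerfect.subsingleton_of_isMulCommutative Fintype.decidableForallFintype
  covariant_swap_mul_of_covariant_mul
  TopologicalSpace.instSecondCountableTopologyOfLindelofSpaceOfPseudoMetrizableSpace instCoeTCOfCoe
  CStarAlgebra.instOrderClosedTopology CanonicallyOrderedAdd.toMulLeftMono
  MonTypeEquivalenceMon.monMonoid NonarchimedeanRing.toIsTopologicalRing NeZero.of_gt'
  continuousSub_of_discreteTopology instIsModuleTopology TestFunctionClass.toDFunLike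
  PolishSpace.toSecondCountableTopology ContDiffMapSupportedInClass.toDFunLike Invertible.toNeZero
  LieAdmissibleRing.toNonUnitalNonAssocRing Valued.isTopologicalDivisionRing
  NonUnitalAlgSemiHomClass.toMulHomClass

/-!
Definitions for the fourth moment of almost all Hecke-Maass forms in short windows.
-/

set_option autoImplicit false
set_option linter.unusedVariables false

namespace Pool.Agent.MP_a28cf0_nt.D4

open MeasureTheory Complex Set
open scoped ComplexConjugate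

/-- `exp (i x)` -/
noncomputable def ci (x : ℝ) : ℂ := Complex.exp ((x : ℂ) * I)

/-- `exp (2 π i x)` -/
noncomputable def ee (x : ℝ) : ℂ := ci (2 * Real.pi * x)

noncomputable def qq (ρ : ℝ) : ℝ := 1 - Real.exp (2 * ρ)

noncomputable def gg (ρ : ℝ) : ℝ := √(qq ρ)

/-- the phase -/
noncomputable def FF (ρ : ℝ) : ℝ := ∫ u in (0 : ℝ)..ρ, gg u

/-- the amplitude `q ^ (-1/4)` -/
noncomputable def pp (ρ : ℝ) : ℝ := (√(gg ρ))⁻¹

noncomputable def wk (t : ℝ) (Cp Cm : ℂ) (ρ : ℝ) : ℂ :=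
  Cp * ci (t * FF ρ) + Cm * ci (-(t * FF ρ))

/-- a bump on `[-1, 1]` whose integer translates add up to one -/
noncomputable def zt (x : ℝ) : ℝ := Real.smoothTransition (x + 1) - Real.smoothTransition x

/-- zero for `q ≤ d ^ 4`, one for `2 d ^ 4 ≤ q` -/
noncomputable def ct (d ρ : ℝ) : ℝ := Real.smoothTransition (qq ρ / d ^ 4 - 1)

/-- zero for `- d ^ 4 ≤ q`, one for `q ≤ - 2 d ^ 4` -/
noncomputable def cm (d ρ : ℝ) : ℝ := Real.smoothTransition (-qq ρ / d ^ 4 - 1)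

/-- the amplitude of a piece -/
noncomputable def am (d d' ρ : ℝ) : ℝ := (ct d ρ - ct d' ρ) * pp ρ

/-- size `a`, varying at the scale `1 / κ` on `S` -/
structure Sm (S : Set ℝ) (a κ : ℝ) (A : ℝ → ℝ) : Prop where
  c2 : ContDiff ℝ 2 A
  a0 : 0 ≤ a
  k0 : 0 ≤ κ
  b0 : ∀ x ∈ S, |A x| ≤ a
  b1 : ∀ x ∈ S, |deriv A x| ≤ a * κ
  b2 : ∀ x ∈ S, |deriv (deriv A) x| ≤ a * κ ^ 2

/-- amplitudes living on `d ^ 4 ≤ q ≤ Δ` -/
structure Pc (c d Δ : ℝ) (A : ℝ → ℝ) : Prop where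
  sm : Sm univ (1 / d) (c / d ^ 4) A
  supp : ∀ ρ, A ρ ≠ 0 → d ^ 4 ≤ qq ρ ∧ qq ρ ≤ Δ

/-- weights living on `exp r ≍ 1 / T` -/
structure Vw (c T : ℝ) (V : ℝ → ℝ) : Prop where
  sm : Sm univ (c / T ^ 2) 1 V
  nn : ∀ r, 0 ≤ V r
  supp : ∀ r, V r ≠ 0 → 1 / (c * T) ≤ Real.exp r ∧ Real.exp r ≤ c / T

/-- the four-linear oscillatory integral -/
noncomputable def JJ (V A : ℝ → ℝ) (t n₁ n₂ n₃ n₄ s₁ s₂ s₃ s₄ : ℝ) : ℂ :=
  ∫ r, ((V r * (A (r + Real.log n₁) * A (r + Real.log n₂) * A (r + Real.log n₃) *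
      A (r + Real.log n₄)) : ℝ) : ℂ) *
    ci (t * (s₁ * FF (r + Real.log n₁) + s₂ * FF (r + Real.log n₂) + s₃ * FF (r + Real.log n₃) +
      s₄ * FF (r + Real.log n₄)))

def Sg (s : ℝ) : Prop := s = 1 ∨ s = -1

/-- real trigonometric polynomials -/
noncomputable def tp (J : Finset ℕ) (c : ℕ → ℂ) (x : ℝ) : ℝ :=
  ∑ n ∈ J, 2 * (c n * ee (n * x)).re

/-- the coefficients of `tp` -/
noncomputable def sx (J : Finset ℕ) (c : ℕ → ℂ) (n : ℤ) : ℂ :=
  if n.natAbs ∈ J then (if 0 < n then c n.natAbs else conj (c n.natAbs)) else 0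

noncomputable def Z3 (N : ℕ) : Finset (ℤ × ℤ × ℤ) :=
  Finset.Icc (-(N : ℤ)) N ×ˢ Finset.Icc (-(N : ℤ)) N ×ˢ Finset.Icc (-(N : ℤ)) N

noncomputable def q4 (J : Finset ℕ) (c : ℕ → ℂ) (x : ℤ × ℤ × ℤ) : ℂ :=
  sx J c x.1 * sx J c x.2.1 * sx J c x.2.2 * sx J c (-x.1 - x.2.1 - x.2.2)

/-- one minus the tent function -/
noncomputable def wt (H x : ℝ) : ℝ := min 1 (|x| / H)

noncomputable def w3 (H : ℝ) (x : ℤ × ℤ × ℤ) : ℝ :=
  wt H (x.1 + x.2.1) * wt H (x.1 + x.2.2) * wt H (x.2.1 + x.2.2)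

/-- the indices `m` with `m` and `m + l` in `J` -/
def sh (J : Finset ℕ) (l : ℕ) : Finset ℕ := J.filter fun m => m + l ∈ J

/-- blocks of length `L` -/
def blk (J : Finset ℕ) (L s : ℕ) : Finset ℕ := J.filter fun m => m ≤ s ∧ s < m + L

noncomputable def bt (J : Finset ℕ) (c : ℕ → ℂ) (l : ℕ) : ℂ :=
  ∑ m ∈ sh J l, c (m + l) * conj (c m)

/-- the Hecke relations -/
structure Hk (lam : ℕ → ℝ) : Prop where
  zero : lam 0 = 0
  one : lam 1 = 1
  mul : ∀ m n : ℕ, 1 ≤ m → 1 ≤ n →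
    lam m * lam n = ∑ d ∈ (Nat.gcd m n).divisors, lam (m * n / d ^ 2)

/-- the large sieve inequality -/
def LS {ι : Type} (s : Finset ι) (Om : ι → ℝ) (lam : ι → ℕ → ℝ) (KK ε K : ℝ) : Prop :=
  ∀ (J : Finset ℕ) (c : ℕ → ℂ), (∀ k ∈ J, 1 ≤ k ∧ (k : ℝ) ≤ K) →
    ∑ j ∈ s, Om j ^ 2 * ‖∑ k ∈ J, c k * (lam j k : ℂ)‖ ^ 2 ≤
      KK * (∑ k ∈ J, ‖c k‖ ^ 2 + ε * (∑ k ∈ J, ‖c k‖) ^ 2)

/-- square integrable solutions of the Whittaker equation -/
structure Sol (t : ℝ) (b b₁ : ℝ → ℂ) : Prop where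
  d0 : ∀ ρ, HasDerivAt b (b₁ ρ) ρ
  d1 : ∀ ρ, HasDerivAt b₁ (-((t ^ 2 * qq ρ : ℝ) : ℂ) * b ρ) ρ
  int : IntegrableOn (fun ρ => ‖b ρ‖ ^ 2) (Ioi 0)

/-- what is used of such a solution -/
structure Wkb (k t : ℝ) (b : ℝ → ℂ) (Cp Cm : ℂ) : Prop where
  cont : Continuous b
  w1 : ∀ d : ℝ, 0 < d → d ^ 4 ≤ 1 / 2 → 1 ≤ t * d ^ 6 → ∀ ρ, d ^ 4 ≤ qq ρ →
    ‖b ρ - pp ρ * wk t Cp Cm ρ‖ ≤ 4 * (‖Cp‖ + ‖Cm‖) * pp ρ / (t * d ^ 6)
  w2 : ∀ d : ℝ, 0 < d → d ^ 4 ≤ 1 / 2 → 1 ≤ t * d ^ 6 → ∀ ρ, qq ρ ≤ 2 * d ^ 4 →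
    ‖b ρ‖ ≤ k * (‖Cp‖ + ‖Cm‖) * t * d ^ 5
  w3 : ∀ d : ℝ, 0 < d → d ^ 4 ≤ 1 / 2 → 1 ≤ t * d ^ 6 → ∀ ρ, d ^ 4 / 3 ≤ ρ →
    ‖b ρ‖ ≤ k * (‖Cp‖ + ‖Cm‖) * t * d ^ 5 * Real.exp (-(t * d ^ 2 * ρ / 5))
  w4 : ∀ ρ₁ : ℝ, IntegrableOn (fun ρ => ‖b ρ‖ ^ 2) (Ioi ρ₁) ∧
    ∫ ρ in Ioi ρ₁, ‖b ρ‖ ^ 2 ≤ k * (‖Cp‖ + ‖Cm‖) ^ 2 * (1 + |ρ₁|)

/-- an abstract family of forms in a window -/
structure Fa (ι : Type) (c : ℝ) where
  T : ℝ
  M : ℝ
  W : ℝ
  DD : ℝ
  KK : ℝ
  ε : ℝ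
  N₁ : ℕ
  s : Finset ι
  t : ι → ℝ
  lam : ι → ℕ → ℝ
  Cp : ι → ℂ
  Cm : ι → ℂ
  V : ι → ℝ → ℝ
  hT : 1 ≤ T
  hM : 0 ≤ M
  hMT : M ≤ T
  hW : 1 ≤ W
  hK : 0 ≤ KK
  e0 : 0 ≤ ε
  e1 : ε ≤ 1
  t1 : ∀ j ∈ s, T ≤ t j
  t2 : ∀ j ∈ s, t j ≤ T + M
  hk : ∀ j ∈ s, Hk (lam j)
  ls : LS s (fun j => ‖Cp j‖ + ‖Cm j‖) lam KK ε ((N₁ : ℝ) ^ 2)
  om : ∀ j ∈ s, (‖Cp j‖ + ‖Cm j‖) ^ 2 ≤ W
  vw : ∀ j ∈ s, Vw c T (V j)
  n0 : 2 * c * T ≤ N₁
  n1 : (N₁ : ℝ) ≤ 3 * c * T
  tau : ∀ n : ℕ, n ≤ N₁ → (n.divisors.card : ℝ) ≤ DD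
  lg : 1 + Real.log T ≤ DD

noncomputable def I4 (V : ℝ → ℝ) (G : ℝ → ℝ → ℝ) : ℝ := ∫ r, V r * ∫ x in (0 : ℝ)..1, G r x ^ 4

noncomputable def I2 (V : ℝ → ℝ) (G : ℝ → ℝ → ℝ) : ℝ :=
  ∫ r, V r * (Real.exp (-r) * ∫ x in (0 : ℝ)..1, G r x ^ 2)

noncomputable def I0 (V : ℝ → ℝ) : ℝ := ∫ r, V r * Real.exp (-r) ^ 2

noncomputable def IV (d : ℝ) : ℝ := ∫ u in (0 : ℝ)..1, am d 1 (Real.log u) ^ 2

namespace Fa

variable {ι : Type} {c : ℝ} (F : Fa ι c)

noncomputable def Om (j : ι) : ℝ := ‖F.Cp j‖ + ‖F.Cm j‖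

noncomputable def om2 (j : ι) : ℝ := ‖F.Cp j‖ ^ 2 + ‖F.Cm j‖ ^ 2

/-- the size of the errors -/
noncomputable def U (Q : ℝ) : ℝ := F.W * F.DD ^ 4 * F.KK / Q

/-- the coefficients of a piece -/
noncomputable def al (A : ℝ → ℝ) (j : ι) (r : ℝ) (n : ℕ) : ℂ :=
  ((F.lam j n * A (r + Real.log n) : ℝ) : ℂ) * wk (F.t j) (F.Cp j) (F.Cm j) (r + Real.log n)

/-- the terms of the fast (`σ = 1`) and of the slow (`σ = -1`) sums -/
noncomputable def xx (A : ℝ → ℝ) (σ : ℝ) (j : ι) (r : ℝ) (l m : ℕ) : ℂ :=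
  ((F.lam j m * F.lam j (m + l) * (A (r + Real.log m) * A (r + Real.log (m + l : ℕ))) : ℝ) : ℂ) *
    ci (F.t j * (FF (r + Real.log (m + l : ℕ)) + σ * FF (r + Real.log m)))

noncomputable def Dm (A : ℝ → ℝ) (J : Finset ℕ) (j : ι) (r : ℝ) : ℝ :=
  ∑ m ∈ J, F.lam j m ^ 2 * A (r + Real.log m) ^ 2

noncomputable def LL (H : ℕ) (j : ι) : ℝ := ∑ k ∈ Finset.Icc 1 H, F.lam j (k ^ 2) / k

/-- the parameters of a piece -/
structure Par (Q d Δ : ℝ) (N H : ℕ) (A : ℝ → ℝ) : Prop where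
  pc : Pc c d Δ A
  d0 : 0 < d
  d1 : d ≤ 1
  D0 : d ^ 4 ≤ Δ
  D2 : Δ ≤ 2
  q2 : 2 ≤ Q
  cq : 4 * c ≤ Q
  ddq : F.DD ≤ Q
  dq : Δ ≤ Q * d ^ 4
  tn : F.T ≤ Q * N
  td : 1 ≤ F.T * d ^ 6
  h1 : Q ^ 14 * F.T ≤ (H : ℝ) ^ 2
  h2 : H * Q ^ 4 ≤ d ^ 2 * F.T
  h3 : F.ε * (H : ℝ) ^ 2 * Q ^ 2 ≤ F.T
  h4 : F.M * (H : ℝ) ^ 2 * Q ^ 2 ≤ d ^ 2 * F.T ^ 2

end Fa

/-! ### Calculus: amplitudes, non-stationary phase, elementary sums -/

theorem norm_ci (x : ℝ) : ‖ci x‖ = 1 := Complex.norm_exp_ofReal_mul_I x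

theorem ci_add (x y : ℝ) : ci (x + y) = ci x * ci y := by
  simp only [ci, ofReal_add, add_mul, Complex.exp_add]

theorem ci_zero : ci 0 = 1 := by simp [ci]

theorem conj_ci (x : ℝ) : conj (ci x) = ci (-x) := by
  simp only [ci, ← Complex.exp_conj, map_mul, conj_ofReal, conj_I, ofReal_neg, mul_neg, neg_mul]

theorem continuous_ci : Continuous ci := by unfold ci; fun_prop

theorem hasDerivAt_ci (x : ℝ) : HasDerivAt ci (ci x * I) x := by
  have h := ((ofRealCLM.hasDerivAt (x := x)).mul_const I).cexp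
  rw [ofRealCLM_apply, ofRealCLM_apply, ofReal_one, one_mul] at h
  exact h

theorem norm_ee (x : ℝ) : ‖ee x‖ = 1 := norm_ci _

theorem ee_add (x y : ℝ) : ee (x + y) = ee x * ee y := by rw [ee, mul_add, ci_add]; rfl

theorem conj_ee (x : ℝ) : conj (ee x) = ee (-x) := by rw [ee, conj_ci, ee, mul_neg]

theorem continuous_ee : Continuous ee := continuous_ci.comp (by fun_prop)

theorem ee_int (n : ℤ) : ee n = 1 := by
  have h := Complex.exp_int_mul_two_pi_mul_I n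
  rw [ee, ci, ← h]
  congr 1
  push_cast
  ring

theorem continuous_qq : Continuous qq := by unfold qq; fun_prop

theorem continuous_gg : Continuous gg := continuous_qq.sqrt

theorem hasDerivAt_FF (ρ : ℝ) : HasDerivAt FF (gg ρ) ρ :=
  (continuous_gg.integral_hasStrictDerivAt 0 ρ).hasDerivAt

theorem continuous_FF : Continuous FF :=
  continuous_iff_continuousAt.2 fun ρ => (hasDerivAt_FF ρ).continuousAt

theorem continuous_wk (t : ℝ) (Cp Cm : ℂ) : Continuous (wk t Cp Cm) :=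
  (continuous_const.mul (continuous_ci.comp (continuous_const.mul continuous_FF))).add
    (continuous_const.mul (continuous_ci.comp (continuous_const.mul continuous_FF).neg))

theorem norm_wk (t : ℝ) (Cp Cm : ℂ) (ρ : ℝ) : ‖wk t Cp Cm ρ‖ ≤ ‖Cp‖ + ‖Cm‖ := by
  refine (norm_add_le _ _).trans ?_
  rw [norm_mul, norm_mul, norm_ci, norm_ci, mul_one, mul_one]

theorem qq_lt (ρ : ℝ) : qq ρ < 1 := by
  have := Real.exp_pos (2 * ρ)
  unfold qq
  linarith

/-- OSA. -/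
theorem hasDerivAt_qq (ρ : ℝ) : HasDerivAt qq (-2 * (1 - qq ρ)) ρ := by
  have h := (((hasDerivAt_id ρ).const_mul 2).exp).const_sub 1
  refine h.congr_deriv ?_
  simp only [qq, id]
  ring

/-- OSA. -/
theorem hasDerivAt_gg {ρ : ℝ} (h : 0 < qq ρ) : HasDerivAt gg (gg ρ - (gg ρ)⁻¹) ρ := by
  refine ((hasDerivAt_qq ρ).sqrt h.ne').congr_deriv ?_
  have h1 : 0 < √(qq ρ) := Real.sqrt_pos.2 h
  have h2 := Real.mul_self_sqrt h.le
  unfold gg
  field_simp
  linarith only [h2]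

/-- OSA. -/
theorem hasDerivAt_pp {ρ : ℝ} (h : 0 < qq ρ) :
    HasDerivAt pp ((1 - qq ρ) / (2 * qq ρ) * pp ρ) ρ := by
  have h1 : 0 < gg ρ := Real.sqrt_pos.2 h
  have h2 : gg ρ * gg ρ = qq ρ := Real.mul_self_sqrt h.le
  have h3 : 0 < √(gg ρ) := Real.sqrt_pos.2 h1
  have h4 := Real.mul_self_sqrt h1.le
  refine (((hasDerivAt_gg h).sqrt h1.ne').inv h3.ne').congr_deriv ?_
  unfold pp
  rw [← h2]
  generalize √(gg ρ) = s at *
  rw [← h4]
  field_simp
  ring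

/-- OSA. -/
theorem pp_pow {ρ : ℝ} (h : 0 < qq ρ) : 0 < pp ρ ∧ pp ρ ^ 2 * gg ρ = 1 ∧ pp ρ ^ 4 * qq ρ = 1 := by
  have h1 : 0 < gg ρ := Real.sqrt_pos.2 h
  have h2 : gg ρ * gg ρ = qq ρ := Real.mul_self_sqrt h.le
  have h3 : 0 < √(gg ρ) := Real.sqrt_pos.2 h1
  have h4 := Real.mul_self_sqrt h1.le
  unfold pp
  rw [← h2]
  generalize √(gg ρ) = s at *
  rw [← h4]
  refine ⟨inv_pos.2 h3, ?_, ?_⟩ <;> field_simp

/-- OSA. -/
theorem pp_le {d ρ : ℝ} (hd : 0 < d) (h : d ^ 4 ≤ qq ρ) : pp ρ ≤ 1 / d := by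
  obtain ⟨h1, -, h3⟩ := pp_pow ((pow_pos hd 4).trans_le h)
  rw [le_div_iff₀ hd, ← pow_le_one_iff_of_nonneg (by positivity) (show 4 ≠ 0 by norm_num), mul_pow,
    ← h3]
  exact mul_le_mul_of_nonneg_left h (by positivity)

/-- OSA. -/
theorem qq_log (r : ℝ) {n : ℝ} (hn : n ≠ 0) : qq (r + Real.log n) = 1 - (n * Real.exp r) ^ 2 := by
  unfold qq
  rw [mul_add, Real.exp_add, two_mul (Real.log n), Real.exp_add, Real.exp_log_eq_abs hn,
    abs_mul_abs_self, two_mul r, Real.exp_add]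
  ring

/-- OSA. -/
theorem Sm.mono {S S' : Set ℝ} {a κ a' κ' : ℝ} {A : ℝ → ℝ} (h : Sm S a κ A) (hS : S' ⊆ S)
    (ha : a ≤ a') (hκ : κ ≤ κ') : Sm S' a' κ' A := by
  have a0 := h.a0
  have k0 := h.k0
  refine ⟨h.c2, a0.trans ha, k0.trans hκ, fun x hx => (h.b0 x (hS hx)).trans ha,
    fun x hx => (h.b1 x (hS hx)).trans ?_, fun x hx => (h.b2 x (hS hx)).trans ?_⟩
  · exact mul_le_mul ha hκ k0 (a0.trans ha)
  · exact mul_le_mul ha (pow_le_pow_left₀ k0 hκ 2) (by positivity) (a0.trans ha)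

theorem osa_d {A : ℝ → ℝ} (h : ContDiff ℝ 2 A) :
    (∀ x, HasDerivAt A (deriv A x) x) ∧ ∀ x, HasDerivAt (deriv A) (deriv (deriv A) x) x := by
  have h1 : ContDiff ℝ 1 (deriv A) := (contDiff_succ_iff_deriv.1 (by exact h)).2.2
  exact ⟨fun x => (h.differentiable (by norm_num) x).hasDerivAt,
    fun x => (h1.differentiable (by norm_num) x).hasDerivAt⟩

theorem osa_m {x y a b : ℝ} (h : |x| ≤ a) (h' : |y| ≤ b) : |x * y| ≤ a * b := by
  rw [abs_mul]
  exact mul_le_mul h h' (abs_nonneg _) ((abs_nonneg _).trans h)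

/-- OSA. -/
theorem Sm.mul {S : Set ℝ} {a κ a' κ' : ℝ} {A A' : ℝ → ℝ} (h : Sm S a κ A) (h' : Sm S a' κ' A') :
    Sm S (a * a') (κ + κ') fun x => A x * A' x := by
  obtain ⟨d0, d1⟩ := osa_d h.c2
  obtain ⟨e0, e1⟩ := osa_d h'.c2
  have a0 := h.a0
  have k0 := h.k0
  have a0' := h'.a0
  have k0' := h'.k0
  have D1 : deriv (fun x => A x * A' x) = fun x => deriv A x * A' x + A x * deriv A' x :=
    funext fun x => ((d0 x).mul (e0 x)).deriv
  have D2 : ∀ x, deriv (fun x => deriv A x * A' x + A x * deriv A' x) x =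
      deriv (deriv A) x * A' x + deriv A x * deriv A' x +
        (deriv A x * deriv A' x + A x * deriv (deriv A') x) :=
    fun x => (((d1 x).mul (e0 x)).add ((d0 x).mul (e1 x))).deriv
  refine ⟨h.c2.mul h'.c2, by positivity, by positivity, fun x hx => ?_, fun x hx => ?_,
    fun x hx => ?_⟩
  · exact osa_m (h.b0 x hx) (h'.b0 x hx)
  · rw [D1]
    refine (abs_add_le _ _).trans ((add_le_add (osa_m (h.b1 x hx) (h'.b0 x hx))
      (osa_m (h.b0 x hx) (h'.b1 x hx))).trans_eq (by ring))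
  · rw [D1, D2]
    refine (abs_add_le _ _).trans ((add_le_add (abs_add_le _ _) (abs_add_le _ _)).trans ?_)
    refine (add_le_add (add_le_add (osa_m (h.b2 x hx) (h'.b0 x hx))
      (osa_m (h.b1 x hx) (h'.b1 x hx))) (add_le_add (osa_m (h.b1 x hx) (h'.b1 x hx))
      (osa_m (h.b0 x hx) (h'.b2 x hx)))).trans_eq (by ring)

/-- OSA. -/
theorem Sm.shift {a κ : ℝ} {A : ℝ → ℝ} (h : Sm univ a κ A) (u : ℝ) :
    Sm univ a κ fun x => A (x + u) := by
  have D1 : deriv (fun x => A (x + u)) = fun x => deriv A (x + u) :=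
    funext fun x => deriv_comp_add_const A u x
  refine ⟨h.c2.comp (contDiff_id.add contDiff_const), h.a0, h.k0, fun x _ => h.b0 _ trivial,
    fun x _ => ?_, fun x _ => ?_⟩
  · rw [D1]
    exact h.b1 _ trivial
  · rw [D1, deriv_comp_add_const (deriv A) u x]
    exact h.b2 _ trivial

/-- OSA. -/
theorem Sm.const (S : Set ℝ) {a : ℝ} (ha : 0 ≤ a) : Sm S a 0 fun _ => a := by
  refine ⟨contDiff_const, ha, le_rfl, fun x _ => (abs_of_nonneg ha).le, fun x _ => ?_,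
    fun x _ => ?_⟩ <;> simp

/-- OSA.  Chain rule. -/
theorem Sm.comp {S : Set ℝ} {a k κ : ℝ} {A h : ℝ → ℝ} (hA : Sm univ a k A) (hk : 1 ≤ k)
    (hκ : 0 ≤ κ) (hh : ContDiff ℝ 2 h) (h1 : ∀ x ∈ S, |deriv h x| ≤ κ)
    (h2 : ∀ x ∈ S, |deriv (deriv h) x| ≤ κ ^ 2) : Sm S a (2 * k * κ) fun x => A (h x) := by
  obtain ⟨d0, d1⟩ := osa_d hA.c2
  obtain ⟨e0, e1⟩ := osa_d hh
  have a0 := hA.a0
  have k0 := hA.k0
  have D1 : deriv (fun x => A (h x)) = fun x => deriv A (h x) * deriv h x :=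
    funext fun x => ((d0 (h x)).comp x (e0 x)).deriv
  have D2 : ∀ x, deriv (fun x => deriv A (h x) * deriv h x) x =
      deriv (deriv A) (h x) * deriv h x * deriv h x + deriv A (h x) * deriv (deriv h) x :=
    fun x => (((d1 (h x)).comp x (e0 x)).mul (e1 x)).deriv
  have p1 : 0 ≤ a * k * κ := by positivity
  have p2 : 0 ≤ a * k * κ ^ 2 := by positivity
  refine ⟨hA.c2.comp hh, a0, by positivity, fun x _ => hA.b0 _ trivial, fun x hx => ?_,
    fun x hx => ?_⟩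
  · rw [D1]
    exact (osa_m (hA.b1 _ trivial) (h1 x hx)).trans (by linarith)
  · rw [D1, D2]
    refine (abs_add_le _ _).trans ((add_le_add (osa_m (osa_m (hA.b2 _ trivial) (h1 x hx)) (h1 x hx))
      (osa_m (hA.b1 _ trivial) (h2 x hx))).trans ?_)
    linarith only [mul_le_mul_of_nonneg_left hk p2, p2]

theorem Pc.mono {c c' d Δ : ℝ} {A : ℝ → ℝ} (h : Pc c d Δ A) (hc : c ≤ c') : Pc c' d Δ A :=
  ⟨h.sm.mono subset_rfl le_rfl (div_le_div_of_nonneg_right hc (by positivity)), h.supp⟩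

theorem osa_b {A : ℝ → ℝ} (h : ContDiff ℝ 2 A) (hc : HasCompactSupport (deriv A)) :
    ∃ b : ℝ, 1 ≤ b ∧ ∀ x, |deriv A x| ≤ b ∧ |deriv (deriv A) x| ≤ b := by
  have h1 : ContDiff ℝ 1 (deriv A) := (contDiff_succ_iff_deriv.1 (by exact h)).2.2
  obtain ⟨b, hb⟩ := hc.exists_bound_of_continuous h1.continuous
  obtain ⟨c, hc'⟩ := hc.deriv.exists_bound_of_continuous (h1.continuous_deriv le_rfl)
  exact ⟨max 1 (max b c), le_max_left _ _, fun x =>
    ⟨(hb x).trans ((le_max_left _ _).trans (le_max_right _ _)),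
      (hc' x).trans ((le_max_right _ _).trans (le_max_right _ _))⟩⟩

theorem osa_k {A : ℝ → ℝ} (h : ContDiff ℝ 2 A) (hc : HasCompactSupport (deriv A))
    (h1 : ∀ x, |A x| ≤ 1) : ∃ k : ℝ, 1 ≤ k ∧ Sm univ 1 k A := by
  obtain ⟨b, b1, hb⟩ := osa_b h hc
  refine ⟨b, b1, h, one_pos.le, by linarith, fun x _ => h1 x, fun x _ => ?_, fun x _ => ?_⟩
  · rw [one_mul]
    exact (hb x).1
  · rw [one_mul]
    exact (hb x).2.trans (by nlinarith only [b1])

/-- OSA.  A smooth function with compact support. -/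
theorem exists_sm {A : ℝ → ℝ} (h : ContDiff ℝ 2 A) (hc : HasCompactSupport A) :
    ∃ a : ℝ, 1 ≤ a ∧ Sm univ a 1 A := by
  obtain ⟨b, b1, hb⟩ := osa_b h hc.deriv
  obtain ⟨c, hc'⟩ := hc.exists_bound_of_continuous h.continuous
  refine ⟨max b c, b1.trans (le_max_left _ _), h, by positivity, one_pos.le,
    fun x _ => (hc' x).trans (le_max_right _ _), fun x _ => ?_, fun x _ => ?_⟩
  · rw [mul_one]
    exact (hb x).1.trans (le_max_left _ _)
  · rw [one_pow, mul_one]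
    exact (hb x).2.trans (le_max_left _ _)

/-- OSA.  The derivatives of `smoothTransition` have compact support. -/
theorem sm_th : ∃ k : ℝ, 1 ≤ k ∧ Sm univ 1 k Real.smoothTransition := by
  refine osa_k Real.smoothTransition.contDiff ?_ fun x => ?_
  · refine HasCompactSupport.intro (isCompact_Icc (a := 0) (b := 1)) fun x hx => ?_
    rcases not_and_or.1 hx with h | h
    · have : Real.smoothTransition =ᶠ[nhds x] fun _ => 0 := by
        filter_upwards [Iio_mem_nhds (not_le.1 h)] with y hy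
        exact Real.smoothTransition.zero_of_nonpos (le_of_lt hy)
      rw [this.deriv_eq, deriv_const]
    · have : Real.smoothTransition =ᶠ[nhds x] fun _ => 1 := by
        filter_upwards [Ioi_mem_nhds (not_le.1 h)] with y hy
        exact Real.smoothTransition.one_of_one_le (le_of_lt hy)
      rw [this.deriv_eq, deriv_const]
  · rw [abs_of_nonneg (Real.smoothTransition.nonneg x)]
    exact Real.smoothTransition.le_one x

theorem osa_mem (x : ℝ) : 0 ≤ zt x ∧ zt x ≤ 1 := by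
  have h1 := Real.smoothTransition.monotone (show x ≤ x + 1 by linarith)
  have h2 := Real.smoothTransition.le_one (x + 1)
  have h3 := Real.smoothTransition.nonneg x
  unfold zt
  constructor <;> linarith

theorem osa_z {x : ℝ} (h : ¬ |x| < 1) : zt x = 0 := by
  unfold zt
  rcases le_abs'.1 (not_lt.1 h) with h | h
  · rw [Real.smoothTransition.zero_of_nonpos (by linarith),
      Real.smoothTransition.zero_of_nonpos (by linarith), sub_zero]
  · rw [Real.smoothTransition.one_of_one_le (by linarith),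
      Real.smoothTransition.one_of_one_le h, sub_self]

/-- OSA. -/
theorem sm_zt : ∃ k : ℝ, 1 ≤ k ∧ Sm univ 1 k zt := by
  refine osa_k ((Real.smoothTransition.contDiff.comp (contDiff_id.add contDiff_const)).sub
    Real.smoothTransition.contDiff) (HasCompactSupport.deriv ?_) fun x => ?_
  · exact HasCompactSupport.intro (isCompact_Icc (a := -1) (b := 1)) fun x hx =>
      osa_z fun h => hx (abs_le.1 h.le)
  · rw [abs_of_nonneg (osa_mem x).1]
    exact (osa_mem x).2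

/-- OSA. -/
theorem contDiff_zt : ContDiff ℝ (⊤ : ℕ∞) zt := by
  exact (Real.smoothTransition.contDiff.comp (contDiff_id.add contDiff_const)).sub
    Real.smoothTransition.contDiff

/-- OSA. -/
theorem zt_mem (x : ℝ) : 0 ≤ zt x ∧ zt x ≤ 1 := by
  exact osa_mem x

/-- OSA. -/
theorem zt_supp {x : ℝ} (h : zt x ≠ 0) : |x| < 1 := by
  by_contra h'
  exact h (osa_z h')

/-- OSA. -/
theorem zt_pos {x : ℝ} (h : |x| < 1) : 0 < zt x := by
  obtain ⟨h1, h2⟩ := abs_lt.1 h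
  unfold zt
  rcases le_total x 0 with h0 | h0
  · rw [Real.smoothTransition.zero_of_nonpos h0, sub_zero]
    exact Real.smoothTransition.pos_of_pos (by linarith)
  · rw [Real.smoothTransition.one_of_one_le (by linarith), sub_pos]
    exact Real.smoothTransition.lt_one_of_lt_one h2

/-- OSA.  Unfolding: on `[0, 1]` one has `zt (x - 1) + zt x = 1`. -/
theorem int_zt_mul {G : ℝ → ℂ} (hG : Continuous G) (hp : ∀ x, G (x + 1) = G x) :
    ∫ x, (zt x : ℂ) * G x = ∫ x in (0 : ℝ)..1, G x := by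
  have c0 : Continuous fun x => (zt x : ℂ) * G x :=
    (continuous_ofReal.comp contDiff_zt.continuous).mul hG
  have c1 : Continuous fun x => (zt (x - 1) : ℂ) * G (x - 1) :=
    c0.comp (continuous_id.sub continuous_const)
  have e1 : ∫ x in (-1 : ℝ)..1, (zt x : ℂ) * G x = ∫ x, (zt x : ℂ) * G x := by
    refine intervalIntegral.integral_eq_integral_of_support_subset fun x hx => ?_
    have : zt x ≠ 0 := fun h => hx (by simp [h])
    have := abs_lt.1 (zt_supp this)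
    exact ⟨this.1, this.2.le⟩
  have e2 : ∫ x in (-1 : ℝ)..0, (zt x : ℂ) * G x =
      ∫ x in (0 : ℝ)..1, (zt (x - 1) : ℂ) * G (x - 1) := by
    rw [intervalIntegral.integral_comp_sub_right (fun x => (zt x : ℂ) * G x) 1, zero_sub, sub_self]
  rw [← e1, ← intervalIntegral.integral_add_adjacent_intervals (b := 0)
    (c0.intervalIntegrable _ _) (c0.intervalIntegrable _ _), e2,
    ← intervalIntegral.integral_add (c1.intervalIntegrable _ _) (c0.intervalIntegrable _ _)]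
  refine intervalIntegral.integral_congr fun x hx => ?_
  rw [uIcc_of_le zero_le_one] at hx
  have g1 : G (x - 1) = G x := by rw [← hp (x - 1), sub_add_cancel]
  have z1 : zt (x - 1) + zt x = 1 := by
    unfold zt
    rw [sub_add_cancel, Real.smoothTransition.zero_of_nonpos (show x - 1 ≤ 0 by linarith [hx.2]),
      Real.smoothTransition.one_of_one_le (show 1 ≤ x + 1 by linarith [hx.1])]
    ring
  simp only [g1]
  rw [← add_mul, ← ofReal_add, z1, ofReal_one, one_mul]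

/-- OSA. -/
theorem int_zt : ∫ x, zt x = 1 := by
  have h := int_zt_mul (G := fun _ => 1) continuous_const fun _ => rfl
  simp only [mul_one, intervalIntegral.integral_const, sub_zero, one_smul] at h
  exact_mod_cast h

/-- OSB.  Trivial bound. -/
theorem osc0 {A Φ : ℝ → ℝ} {S : Set ℝ} {x₀ l a : ℝ} (hl : 0 ≤ l) (ha : 0 ≤ a)
    (hS : S ⊆ Icc x₀ (x₀ + l)) (h0 : ∀ x, x ∉ S → A x = 0) (hb : ∀ x ∈ S, |A x| ≤ a) :
    ‖∫ x, (A x : ℂ) * ci (Φ x)‖ ≤ l * a := by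
  rw [← setIntegral_eq_integral_of_forall_compl_eq_zero (s := Icc x₀ (x₀ + l))
    (fun x hx => by rw [h0 x fun h => hx (hS h), ofReal_zero, zero_mul])]
  refine (norm_setIntegral_le_of_norm_le_const (C := a) measure_Icc_lt_top fun x _ => ?_).trans ?_
  · rw [norm_mul, norm_ci, mul_one, norm_real, Real.norm_eq_abs]
    by_cases h : x ∈ S
    · exact hb x h
    · rwa [h0 x h, abs_zero]
  · rw [Real.volume_real_Icc_of_le (by linarith), add_sub_cancel_left, mul_comm]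

/-- Two integrations by parts on an interval. -/
theorem osb_int (A A1 A2 : ℝ → ℂ) (Φ P1 P2 P3 : ℝ → ℝ) (s l a k m : ℝ) (hl : 0 ≤ l) (hm : 0 < m)
    (hA : ∀ x ∈ Icc s (s + l), HasDerivAt A (A1 x) x)
    (hA1 : ∀ x ∈ Icc s (s + l), HasDerivAt A1 (A2 x) x)
    (hΦ : ∀ x ∈ Icc s (s + l), HasDerivAt Φ (P1 x) x)
    (hP1 : ∀ x ∈ Icc s (s + l), HasDerivAt P1 (P2 x) x)
    (hP2 : ∀ x ∈ Icc s (s + l), HasDerivAt P2 (P3 x) x)
    (e0 : A s = 0) (e1 : A (s + l) = 0) (e2 : A1 s = 0) (e3 : A1 (s + l) = 0)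
    (b0 : ∀ x ∈ Icc s (s + l), ‖A x‖ ≤ a) (b1 : ∀ x ∈ Icc s (s + l), ‖A1 x‖ ≤ a * k)
    (b2 : ∀ x ∈ Icc s (s + l), ‖A2 x‖ ≤ a * k ^ 2)
    (c1 : ∀ x ∈ Icc s (s + l), m ≤ |P1 x|) (c2 : ∀ x ∈ Icc s (s + l), |P2 x| ≤ k * |P1 x|)
    (c3 : ∀ x ∈ Icc s (s + l), |P3 x| ≤ k ^ 2 * |P1 x|) :
    ‖∫ x in s..s + l, A x * cexp (I * Φ x)‖ ≤ 8 * l * a * k ^ 2 / m ^ 2 := by
  have hsl : s ≤ s + l := by linarith
  have hs : s ∈ Icc s (s + l) := ⟨le_rfl, hsl⟩
  have ht : s + l ∈ Icc s (s + l) := ⟨hsl, le_rfl⟩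
  have hE : ∀ x ∈ Icc s (s + l),
      HasDerivAt (fun y => cexp (I * Φ y)) (cexp (I * Φ x) * (I * P1 x)) x := fun x hx =>
    ((hΦ x hx).ofReal_comp.const_mul I).cexp
  have hcont : ContinuousOn (fun x => A x * cexp (I * Φ x)) (Icc s (s + l)) := fun x hx =>
    ((hA x hx).continuousAt.mul (hE x hx).continuousAt).continuousWithinAt
  set G : ℝ → ℂ := fun y =>
    (-I * (A y / P1 y) + (A1 y / (P1 y : ℂ) ^ 2 - A y * P2 y / (P1 y : ℂ) ^ 3)) * cexp (I * Φ y)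
    with hG
  set v : ℝ → ℂ := fun y => A2 y / (P1 y : ℂ) ^ 2 - 3 * A1 y * P2 y / (P1 y : ℂ) ^ 3
    - A y * P3 y / (P1 y : ℂ) ^ 3 + 3 * A y * (P2 y : ℂ) ^ 2 / (P1 y : ℂ) ^ 4 with hv
  have hne : ∀ x ∈ Icc s (s + l), (P1 x : ℂ) ≠ 0 := fun x hx => by
    have := c1 x hx
    have : P1 x ≠ 0 := by
      intro h
      rw [h, abs_zero] at this
      linarith only [hm, this]
    exact_mod_cast this
  have hGd : ∀ x ∈ Icc s (s + l), HasDerivAt G ((A x + v x) * cexp (I * Φ x)) x := by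
    intro x hx
    have p1 := (hP1 x hx).ofReal_comp
    have p2 := (hP2 x hx).ofReal_comp
    have h0 := hne x hx
    have := ((((hA x hx).div p1 h0).const_mul (-I)).add
      (((hA1 x hx).div (p1.pow 2) (pow_ne_zero 2 h0)).sub
        (((hA x hx).mul p2).div (p1.pow 3) (pow_ne_zero 3 h0)))).mul (hE x hx)
    refine HasDerivAt.congr_deriv (f := G) this ?_
    simp only [hv, Pi.pow_apply, Pi.mul_apply, Pi.add_apply, Pi.sub_apply, Pi.div_apply]
    field_simp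
    ring_nf
    simp only [I_sq]
    ring
  have hH : ∀ x ∈ Icc s (s + l), HasDerivWithinAt
      (fun y => (∫ t in s..y, A t * cexp (I * Φ t)) - G y) (-(v x * cexp (I * Φ x)))
      (Icc s (s + l)) x := by
    intro x hx
    have : Fact (x ∈ Icc s (s + l)) := ⟨hx⟩
    have hi : IntervalIntegrable (fun t => A t * cexp (I * Φ t)) volume s x :=
      (hcont.mono (by rw [uIcc_of_le hx.1]; exact Icc_subset_Icc le_rfl hx.2)).intervalIntegrable
    have h1 := intervalIntegral.integral_hasDerivWithinAt_right (s := Icc s (s + l))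
      (t := Icc s (s + l)) hi
      (hcont.stronglyMeasurableAtFilter_nhdsWithin measurableSet_Icc x) (hcont x hx)
    have := h1.sub (hGd x hx).hasDerivWithinAt
    refine HasDerivWithinAt.congr_deriv this ?_
    ring
  have hb : ∀ x ∈ Ico s (s + l), ‖-(v x * cexp (I * Φ x))‖ ≤ 8 * a * k ^ 2 / m ^ 2 := by
    intro x hx'
    have hx : x ∈ Icc s (s + l) := Ico_subset_Icc_self hx'
    have hn : ‖cexp (I * Φ x)‖ = 1 := by
      rw [mul_comm]; exact norm_exp_ofReal_mul_I _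
    rw [norm_neg, norm_mul, hn, mul_one]
    have q1 := c1 x hx
    have q2 := c2 x hx
    have q3 := c3 x hx
    have r0 := b0 x hx
    have r1 := b1 x hx
    have r2 := b2 x hx
    set p := |P1 x| with hp
    have hp0 : 0 < p := lt_of_lt_of_le hm q1
    have ha : 0 ≤ a := (norm_nonneg _).trans r0
    have hk : 0 ≤ k := by
      by_contra h
      push Not at h
      have := mul_neg_of_neg_of_pos h hp0
      have := abs_nonneg (P2 x)
      linarith
    have t1 : ‖A2 x / (P1 x : ℂ) ^ 2‖ ≤ a * k ^ 2 / p ^ 2 := by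
      rw [norm_div, norm_pow, norm_real, Real.norm_eq_abs]
      gcongr
    have t2 : ‖3 * A1 x * P2 x / (P1 x : ℂ) ^ 3‖ ≤ 3 * (a * k ^ 2 / p ^ 2) := by
      rw [norm_div, norm_pow, norm_mul, norm_mul, norm_real, norm_real, Real.norm_eq_abs,
        Real.norm_eq_abs]
      calc ‖(3 : ℂ)‖ * ‖A1 x‖ * |P2 x| / p ^ 3 ≤ 3 * (a * k) * (k * p) / p ^ 3 := by
            rw [show ‖(3 : ℂ)‖ = 3 by simp]
            gcongr
        _ = _ := by field_simp
    have t3 : ‖A x * P3 x / (P1 x : ℂ) ^ 3‖ ≤ a * k ^ 2 / p ^ 2 := by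
      rw [norm_div, norm_pow, norm_mul, norm_real, norm_real, Real.norm_eq_abs, Real.norm_eq_abs]
      calc ‖A x‖ * |P3 x| / p ^ 3 ≤ a * (k ^ 2 * p) / p ^ 3 := by gcongr
        _ = _ := by field_simp
    have t4 : ‖3 * A x * (P2 x : ℂ) ^ 2 / (P1 x : ℂ) ^ 4‖ ≤ 3 * (a * k ^ 2 / p ^ 2) := by
      rw [norm_div, norm_pow, norm_mul, norm_mul, norm_pow, norm_real, norm_real,
        Real.norm_eq_abs, Real.norm_eq_abs]
      calc ‖(3 : ℂ)‖ * ‖A x‖ * |P2 x| ^ 2 / p ^ 4 ≤ 3 * a * (k * p) ^ 2 / p ^ 4 := by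
            rw [show ‖(3 : ℂ)‖ = 3 by simp]
            gcongr
        _ = _ := by field_simp
    have t5 : a * k ^ 2 / p ^ 2 ≤ a * k ^ 2 / m ^ 2 := by gcongr
    have t6 : ‖v x‖ ≤ ‖A2 x / (P1 x : ℂ) ^ 2‖ + ‖3 * A1 x * P2 x / (P1 x : ℂ) ^ 3‖
        + ‖A x * P3 x / (P1 x : ℂ) ^ 3‖ + ‖3 * A x * (P2 x : ℂ) ^ 2 / (P1 x : ℂ) ^ 4‖ :=
      (norm_add_le _ _).trans (add_le_add_left ((norm_sub_le _ _).trans
        (add_le_add_left (norm_sub_le _ _) _)) _)
    have : 8 * a * k ^ 2 / m ^ 2 = 8 * (a * k ^ 2 / m ^ 2) := by ring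
    linarith
  have key := norm_image_sub_le_of_norm_deriv_le_segment' hH hb (s + l) ht
  have g0 : G s = 0 := by simp only [hG, neg_mul, e0, zero_div, mul_zero, neg_zero, e2, zero_mul, sub_self, add_zero]
  have g1 : G (s + l) = 0 := by simp only [hG, neg_mul, e1, zero_div, mul_zero, neg_zero, e3, zero_mul, sub_self, add_zero]
  simp only [g0, g1, intervalIntegral.integral_same, sub_zero] at key
  calc _ ≤ _ := key
    _ = _ := by ring

theorem osb_ends {A A1 : ℝ → ℂ} {s u : ℝ} (hA : ∀ x, HasDerivAt A (A1 x) x)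
    (h0 : ∀ x, x ∉ Icc s u → A x = 0) :
    A s = 0 ∧ A u = 0 ∧ A1 s = 0 ∧ A1 u = 0 := by
  have hc : Continuous A := continuous_iff_continuousAt.2 fun x => (hA x).continuousAt
  have hcl : IsClosed {x | A x = 0} := isClosed_eq hc continuous_const
  have hL : ∀ x ∈ Iic s, A x = 0 := by
    rw [← closure_Iio]
    exact fun x hx => (hcl.closure_subset_iff.2 fun y hy => h0 y fun h => absurd h.1 (not_le.2 hy)) hx
  have hR : ∀ x ∈ Ici u, A x = 0 := by
    rw [← closure_Ioi]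
    exact fun x hx => (hcl.closure_subset_iff.2 fun y hy => h0 y fun h => absurd h.2 (not_le.2 hy)) hx
  refine ⟨hL s (mem_Iic.2 le_rfl), hR u (mem_Ici.2 le_rfl), ?_, ?_⟩
  · have h1 : HasDerivWithinAt A 0 (Iic s) s :=
      (hasDerivWithinAt_const s (Iic s) (0 : ℂ)).congr hL (hL s (mem_Iic.2 le_rfl))
    exact (uniqueDiffWithinAt_Iic s).eq_deriv _ (hA s).hasDerivWithinAt h1
  · have h1 : HasDerivWithinAt A 0 (Ici u) u :=
      (hasDerivWithinAt_const u (Ici u) (0 : ℂ)).congr hR (hR u (mem_Ici.2 le_rfl))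
    exact (uniqueDiffWithinAt_Ici u).eq_deriv _ (hA u).hasDerivWithinAt h1

/-- On the real line: the amplitude is differentiable everywhere and vanishes off the interval,
the phase is only controlled on the interval. -/
theorem osb_line (A A1 A2 : ℝ → ℂ) (Φ P1 P2 P3 : ℝ → ℝ) (s l a k m : ℝ) (hl : 0 ≤ l) (hm : 0 < m)
    (hA : ∀ x, HasDerivAt A (A1 x) x)
    (hA1 : ∀ x ∈ Icc s (s + l), HasDerivAt A1 (A2 x) x)
    (h0 : ∀ x, x ∉ Icc s (s + l) → A x = 0)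
    (hΦ : ∀ x ∈ Icc s (s + l), HasDerivAt Φ (P1 x) x)
    (hP1 : ∀ x ∈ Icc s (s + l), HasDerivAt P1 (P2 x) x)
    (hP2 : ∀ x ∈ Icc s (s + l), HasDerivAt P2 (P3 x) x)
    (b0 : ∀ x ∈ Icc s (s + l), ‖A x‖ ≤ a) (b1 : ∀ x ∈ Icc s (s + l), ‖A1 x‖ ≤ a * k)
    (b2 : ∀ x ∈ Icc s (s + l), ‖A2 x‖ ≤ a * k ^ 2)
    (c1 : ∀ x ∈ Icc s (s + l), m ≤ |P1 x|) (c2 : ∀ x ∈ Icc s (s + l), |P2 x| ≤ k * |P1 x|)
    (c3 : ∀ x ∈ Icc s (s + l), |P3 x| ≤ k ^ 2 * |P1 x|) :
    ‖∫ x, A x * cexp (I * Φ x)‖ ≤ 8 * l * a * k ^ 2 / m ^ 2 := by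
  obtain ⟨e0, e1, e2, e3⟩ := osb_ends hA h0
  have := osb_int A A1 A2 Φ P1 P2 P3 s l a k m hl hm (fun x _ => hA x) hA1 hΦ hP1 hP2 e0 e1 e2 e3
    b0 b1 b2 c1 c2 c3
  rw [intervalIntegral.integral_of_le (by linarith), ← integral_Icc_eq_integral_Ioc,
    setIntegral_eq_integral_of_forall_compl_eq_zero (fun x hx => by simp [h0 x hx])] at this
  exact this

/-- OSB.  Paper 3.  `S` is empty or `Icc (sInf S) (sSup S)`; `A` and `deriv A` vanish at the end
points; integrate by parts twice. -/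
theorem osc {A Φ Φ₁ Φ₂ Φ₃ : ℝ → ℝ} {S : Set ℝ} {x₀ l a κ m : ℝ} (hl : 0 ≤ l) (hm : 0 < m)
    (hc : IsClosed S) (ho : S.OrdConnected) (hS : S ⊆ Icc x₀ (x₀ + l)) (hA : Sm S a κ A)
    (h0 : ∀ x, x ∉ S → A x = 0) (d0 : ∀ x ∈ S, HasDerivAt Φ (Φ₁ x) x)
    (d1 : ∀ x ∈ S, HasDerivAt Φ₁ (Φ₂ x) x) (d2 : ∀ x ∈ S, HasDerivAt Φ₂ (Φ₃ x) x)
    (c3 : ContinuousOn Φ₃ S)
    (hb : ∀ x ∈ S, m ≤ |Φ₁ x| ∧ |Φ₂ x| ≤ κ * |Φ₁ x| ∧ |Φ₃ x| ≤ κ ^ 2 * |Φ₁ x|) :
    ‖∫ x, (A x : ℂ) * ci (Φ x)‖ ≤ 8 * l * a * κ ^ 2 / m ^ 2 := by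
  have ha := hA.a0
  rcases S.eq_empty_or_nonempty with rfl | hne
  · have : (fun x => (A x : ℂ) * ci (Φ x)) = fun _ => 0 :=
      funext fun x => by rw [h0 x (notMem_empty x), ofReal_zero, zero_mul]
    rw [this, integral_zero, norm_zero]
    positivity
  have hk : IsCompact S := isCompact_Icc.of_isClosed_subset hc hS
  have hI : S = Icc (sInf S) (sSup S) :=
    eq_Icc_of_connected_compact ⟨hne, ho.isPreconnected⟩ hk
  have h1 := hS (hk.sInf_mem hne)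
  have h2 := hS (hk.sSup_mem hne)
  have h3 : sInf S ≤ sSup S := csInf_le_csSup hne hk.bddBelow hk.bddAbove
  generalize sInf S = s at hI h1 h3
  generalize sSup S = u at hI h2 h3
  obtain ⟨w, rfl⟩ : ∃ w, u = s + w := ⟨u - s, by ring⟩
  subst hI
  have hD : Differentiable ℝ A := hA.c2.differentiable (by norm_num)
  have hD1 : Differentiable ℝ (deriv A) := hA.c2.differentiable_deriv_two
  have key := osb_line (fun x => (A x : ℂ)) (fun x => ((deriv A x : ℝ) : ℂ))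
    (fun x => ((deriv (deriv A) x : ℝ) : ℂ)) Φ Φ₁ Φ₂ Φ₃ s w a κ m (by linarith) hm
    (fun x => (hD x).hasDerivAt.ofReal_comp) (fun x _ => (hD1 x).hasDerivAt.ofReal_comp)
    (fun x hx => by rw [h0 x hx, ofReal_zero]) d0 d1 d2
    (fun x hx => by rw [norm_real]; exact hA.b0 x hx)
    (fun x hx => by rw [norm_real]; exact hA.b1 x hx)
    (fun x hx => by rw [norm_real]; exact hA.b2 x hx)
    (fun x hx => (hb x hx).1) (fun x hx => (hb x hx).2.1) (fun x hx => (hb x hx).2.2)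
  simp only [ci, mul_comm _ I]
  refine key.trans ?_
  have : w ≤ l := by linarith only [h1.1, h2.2]
  gcongr

/-- OSC. -/
theorem ct_mem (d ρ : ℝ) : 0 ≤ ct d ρ ∧ ct d ρ ≤ 1 ∧ 0 ≤ cm d ρ ∧ cm d ρ ≤ 1 := by
  exact ⟨Real.smoothTransition.nonneg _, Real.smoothTransition.le_one _,
    Real.smoothTransition.nonneg _, Real.smoothTransition.le_one _⟩

/-- OSC. -/
theorem ct_eq {d : ℝ} (hd : 0 < d) (ρ : ℝ) :
    (qq ρ ≤ d ^ 4 → ct d ρ = 0) ∧ (2 * d ^ 4 ≤ qq ρ → ct d ρ = 1) ∧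
      (-d ^ 4 ≤ qq ρ → cm d ρ = 0) ∧ (qq ρ ≤ -(2 * d ^ 4) → cm d ρ = 1) := by
  have h4 : 0 < d ^ 4 := by positivity
  refine ⟨fun h => Real.smoothTransition.zero_of_nonpos ?_,
    fun h => Real.smoothTransition.one_of_one_le ?_,
    fun h => Real.smoothTransition.zero_of_nonpos ?_,
    fun h => Real.smoothTransition.one_of_one_le ?_⟩
  · rw [sub_nonpos, div_le_one h4]; exact h
  · rw [le_sub_iff_add_le, le_div_iff₀ h4]; linarith
  · rw [sub_nonpos, div_le_one h4]; linarith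
  · rw [le_sub_iff_add_le, le_div_iff₀ h4]; linarith

/-- OSC. -/
theorem continuous_ct (d : ℝ) : Continuous (ct d) ∧ Continuous (cm d) := by
  exact ⟨Real.smoothTransition.continuous.comp ((continuous_qq.div_const _).sub continuous_const),
    Real.smoothTransition.continuous.comp ((continuous_qq.neg.div_const _).sub continuous_const)⟩

theorem osc_gt {ρ a : ℝ} (h : a < qq ρ) : ∀ᶠ y in nhds ρ, a < qq y :=
  continuous_qq.continuousAt.eventually (lt_mem_nhds h)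

theorem osc_lt {ρ a : ℝ} (h : qq ρ < a) : ∀ᶠ y in nhds ρ, qq y < a :=
  continuous_qq.continuousAt.eventually (gt_mem_nhds h)

theorem osc_cq : ContDiff ℝ 2 qq := by unfold qq; fun_prop

theorem osc_cpp {ρ : ℝ} (h : 0 < qq ρ) : ContDiffAt ℝ 2 pp ρ :=
  ((osc_cq.contDiffAt.sqrt h.ne').sqrt (Real.sqrt_pos.2 h).ne').inv
    (Real.sqrt_pos.2 (Real.sqrt_pos.2 h)).ne'

theorem osc_d {A : ℝ → ℝ} (h : ContDiff ℝ 2 A) :
    (∀ x, HasDerivAt A (deriv A x) x) ∧ ∀ x, HasDerivAt (deriv A) (deriv (deriv A) x) x := by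
  have h1 : ContDiff ℝ 1 (deriv A) := (contDiff_succ_iff_deriv.1 (by exact h)).2.2
  exact ⟨fun x => (h.differentiable (by norm_num) x).hasDerivAt,
    fun x => (h1.differentiable (by norm_num) x).hasDerivAt⟩

theorem osc_sub {S : Set ℝ} {κ : ℝ} {A B : ℝ → ℝ} (hA : Sm S 1 κ A) (hB : Sm S 1 κ B)
    (h : ∀ x, |A x - B x| ≤ 1) : Sm S 1 (2 * κ) fun x => A x - B x := by
  have k0 := hA.k0
  have e1 : deriv (fun x => A x - B x) = fun x => deriv A x - deriv B x :=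
    funext fun x => (((osc_d hA.c2).1 x).sub ((osc_d hB.c2).1 x)).deriv
  have e2 : ∀ x, deriv (fun x => deriv A x - deriv B x) x =
      deriv (deriv A) x - deriv (deriv B) x :=
    fun x => (((osc_d hA.c2).2 x).sub ((osc_d hB.c2).2 x)).deriv
  refine ⟨hA.c2.sub hB.c2, zero_le_one, by positivity, fun x _ => h x, fun x hx => ?_,
    fun x hx => ?_⟩
  · rw [e1]
    refine (abs_sub _ _).trans ?_
    linarith [hA.b1 x hx, hB.b1 x hx]
  · rw [e1, e2]
    refine (abs_sub _ _).trans ?_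
    linarith only [hA.b2 x hx, hB.b2 x hx, sq_nonneg κ]

theorem osc_ct {k e : ℝ} (hk : 1 ≤ k) (h : Sm univ 1 k Real.smoothTransition) (he : 0 < e)
    (he1 : e ≤ 1) : Sm {ρ | 0 ≤ qq ρ} 1 (2 * k * (2 / e))
      fun ρ => Real.smoothTransition (qq ρ / e - 1) := by
  have e1 : deriv (fun ρ => qq ρ / e - 1) = fun ρ => -2 * (1 - qq ρ) / e :=
    funext fun x => (((hasDerivAt_qq x).div_const e).sub_const 1).deriv
  have e2 : ∀ x, deriv (fun ρ => -2 * (1 - qq ρ) / e) x = -2 * -(-2 * (1 - qq x)) / e :=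
    fun x => ((((hasDerivAt_qq x).const_sub 1).const_mul (-2)).div_const e).deriv
  refine h.comp hk (by positivity) ((osc_cq.div_const e).sub contDiff_const) (fun x hx => ?_)
    fun x hx => ?_
  · have h0 : 0 ≤ qq x := hx
    have h1 := qq_lt x
    rw [e1, abs_div, abs_of_pos he]
    exact div_le_div_of_nonneg_right (abs_le.2 ⟨by linarith, by linarith only [h1]⟩) he.le
  · have h0 : 0 ≤ qq x := hx
    have h1 := qq_lt x
    rw [e1, e2, abs_div, abs_of_pos he]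
    refine (div_le_div_of_nonneg_right (show _ ≤ (4 : ℝ) from abs_le.2
      ⟨by linarith, by linarith⟩) he.le).trans ?_
    rw [div_pow]
    exact div_le_div₀ (by norm_num) (by norm_num) (by positivity) (by nlinarith only [he, he1])

theorem osc_pp {d : ℝ} (hd : 0 < d) : ∃ P : ℝ → ℝ, Sm {ρ | d ^ 4 ≤ qq ρ} (1 / d) (2 / d ^ 4) P ∧
    ∀ ρ, d ^ 4 ≤ qq ρ → P ρ = pp ρ := by
  have h4 : 0 < d ^ 4 := by positivity
  set P : ℝ → ℝ := fun ρ => Real.smoothTransition (qq ρ / (d ^ 4 / 4) - 1) * pp ρ with hP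
  have a1 : ∀ ρ, d ^ 4 / 2 < qq ρ → P ρ = pp ρ := fun ρ h => by
    rw [hP]
    beta_reduce
    rw [Real.smoothTransition.one_of_one_le, one_mul]
    rw [le_sub_iff_add_le, le_div_iff₀ (by positivity)]
    linarith
  have a2 : ∀ ρ, d ^ 4 / 2 < qq ρ → deriv P ρ = (1 - qq ρ) / (2 * qq ρ) * pp ρ := fun ρ h =>
    ((hasDerivAt_pp (by linarith only [h4, h])).congr_of_eventuallyEq ((osc_gt h).mono a1)).deriv
  have a3 : ∀ ρ, d ^ 4 / 2 < qq ρ → deriv (deriv P) ρ =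
      ((1 - qq ρ) / qq ρ ^ 2 + ((1 - qq ρ) / (2 * qq ρ)) ^ 2) * pp ρ := fun ρ h => by
    have q0 : 0 < qq ρ := by linarith only [h4, h]
    have b := ((((hasDerivAt_qq ρ).const_sub 1).div ((hasDerivAt_qq ρ).const_mul 2)
      (by positivity)).mul (hasDerivAt_pp q0)).congr_of_eventuallyEq ((osc_gt h).mono a2)
    rw [b.deriv]
    simp only [Pi.div_apply]
    field_simp
    ring
  refine ⟨P, ⟨contDiff_iff_contDiffAt.2 fun ρ => ?_, by positivity, by positivity,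
    fun x hx => ?_, fun x hx => ?_, fun x hx => ?_⟩, fun ρ h => a1 ρ (by linarith only [h4, h])⟩
  · rcases lt_or_ge 0 (qq ρ) with h | h
    · exact (Real.smoothTransition.contDiffAt.comp ρ
        ((osc_cq.div_const _).sub contDiff_const).contDiffAt).mul (osc_cpp h)
    · refine (contDiffAt_const (c := (0 : ℝ))).congr_of_eventuallyEq
        ((osc_lt (show qq ρ < d ^ 4 / 4 by linarith only [h4, h])).mono fun y hy => ?_)
      rw [hP]
      beta_reduce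
      rw [Real.smoothTransition.zero_of_nonpos, zero_mul]
      rw [sub_nonpos, div_le_one (by positivity)]
      exact hy.le
  all_goals
    have h0 : d ^ 4 ≤ qq x := hx
    have q0 : 0 < qq x := by linarith only [h4, h0]
    have h1 := qq_lt x
    have p0 := (pp_pow q0).1
    have p1 := pp_le hd h0
    have i1 : (1 - qq x) / (2 * qq x) ≤ 1 / d ^ 4 :=
      div_le_div₀ (by norm_num) (by linarith only [h4, h0]) h4 (by linarith only [h4, h0])
    have i0 : 0 ≤ (1 - qq x) / (2 * qq x) := div_nonneg (by linarith only [h1]) (by linarith only [h4, h0])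
  · rw [a1 x (by linarith only [h4, h0]), abs_of_pos p0]
    exact p1
  · rw [a2 x (by linarith only [h4, h0]), abs_of_nonneg (by positivity), mul_comm]
    refine mul_le_mul p1 (i1.trans ?_) i0 (by positivity)
    exact div_le_div_of_nonneg_right (by norm_num) h4.le
  · have i2 : (1 - qq x) / qq x ^ 2 ≤ (1 / d ^ 4) ^ 2 := by
      rw [div_pow]
      exact div_le_div₀ (by norm_num) (by linarith only [h4, h0]) (by positivity) (pow_le_pow_left₀ h4.le h0 2)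
    have i3 : 0 ≤ (1 - qq x) / qq x ^ 2 := div_nonneg (by linarith only [h1]) (by positivity)
    have i4 := pow_le_pow_left₀ i0 i1 2
    rw [a3 x (by linarith only [h4, h0]), abs_of_nonneg (by positivity), mul_comm]
    refine mul_le_mul p1 ?_ (by positivity) (by positivity)
    have i5 : (2 / d ^ 4) ^ 2 = 4 * (1 / d ^ 4) ^ 2 := by ring
    nlinarith only [i2, i4, i5]

/-- OSC.  Paper 5.  `am` vanishes near `q < d ^ 4`; on `d ^ 4 ≤ q` use `sm_th`, the chain rule for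
`q / d ^ 4 - 1` and `hasDerivAt_pp`.  `ct d - ct d'` takes values in `[0, 1]`. -/
theorem pc_am : ∃ k : ℝ, 1 ≤ k ∧ ∀ d d' : ℝ, 0 < d → d ≤ d' → d' ≤ 1 →
    Pc k d (2 * d' ^ 4) (am d d') := by
  obtain ⟨k, hk, h⟩ := sm_th
  refine ⟨8 * k + 2, by linarith, fun d d' hd hdd hd1 => ?_⟩
  have hd' : 0 < d' := hd.trans_le hdd
  have h4 : 0 < d ^ 4 := by positivity
  have h44 : d ^ 4 ≤ d' ^ 4 := pow_le_pow_left₀ hd.le hdd 4
  have h41 : d' ^ 4 ≤ 1 := pow_le_one₀ hd'.le hd1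
  have z : ∀ ρ, qq ρ ≤ d ^ 4 → ct d ρ - ct d' ρ = 0 := fun ρ hρ => by
    rw [(ct_eq hd ρ).1 hρ, (ct_eq hd' ρ).1 (hρ.trans h44), sub_zero]
  have s1 := osc_ct hk h h4 (h44.trans h41)
  have s2 := (osc_ct hk h (h4.trans_le h44) h41).mono subset_rfl le_rfl
    (show _ ≤ 2 * k * (2 / d ^ 4) from mul_le_mul_of_nonneg_left
      (div_le_div_of_nonneg_left (by norm_num) h4 h44) (by linarith))
  have s3 := osc_sub s1 s2 fun x => abs_le.2
    ⟨by linarith [(ct_mem d x).1, (ct_mem d' x).2.1, ct.eq_1 d x, ct.eq_1 d' x],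
      by linarith [(ct_mem d x).2.1, (ct_mem d' x).1, ct.eq_1 d x, ct.eq_1 d' x]⟩
  obtain ⟨P, s4, hP⟩ := osc_pp hd
  have s5 := (s3.mono (S' := {ρ | d ^ 4 ≤ qq ρ}) (fun x hx => h4.le.trans hx) le_rfl le_rfl).mul s4
  have e : (fun x => (Real.smoothTransition (qq x / d ^ 4 - 1) -
      Real.smoothTransition (qq x / d' ^ 4 - 1)) * P x) = am d d' := by
    funext x
    change (ct d x - ct d' x) * P x = (ct d x - ct d' x) * pp x
    rcases le_total (d ^ 4) (qq x) with hx | hx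
    · rw [hP x hx]
    · rw [z x hx, zero_mul, zero_mul]
  rw [e, one_mul, show 2 * (2 * k * (2 / d ^ 4)) + 2 / d ^ 4 = (8 * k + 2) / d ^ 4 by ring] at s5
  have z0 : ∀ ρ, qq ρ < d ^ 4 → am d d' ρ = 0 := fun ρ hρ => by rw [am, z ρ hρ.le, zero_mul]
  have z1 : ∀ ρ, qq ρ < d ^ 4 → deriv (am d d') ρ = 0 := fun ρ hρ =>
    ((hasDerivAt_const ρ (0 : ℝ)).congr_of_eventuallyEq ((osc_lt hρ).mono z0)).deriv
  have z2 : ∀ ρ, qq ρ < d ^ 4 → deriv (deriv (am d d')) ρ = 0 := fun ρ hρ =>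
    ((hasDerivAt_const ρ (0 : ℝ)).congr_of_eventuallyEq ((osc_lt hρ).mono z1)).deriv
  have a0 := s5.a0
  have k0 := s5.k0
  refine ⟨⟨s5.c2, a0, k0, fun x _ => ?_, fun x _ => ?_, fun x _ => ?_⟩, fun ρ hρ => ⟨?_, ?_⟩⟩
  · rcases le_or_gt (d ^ 4) (qq x) with hx | hx
    · exact s5.b0 x hx
    · rw [z0 x hx, abs_zero]; exact a0
  · rcases le_or_gt (d ^ 4) (qq x) with hx | hx
    · exact s5.b1 x hx
    · rw [z1 x hx, abs_zero]; positivity
  · rcases le_or_gt (d ^ 4) (qq x) with hx | hx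
    · exact s5.b2 x hx
    · rw [z2 x hx, abs_zero]; positivity
  · exact le_of_not_gt fun hx => hρ (z0 ρ hx)
  · refine le_of_not_gt fun hx => hρ ?_
    rw [am, (ct_eq hd ρ).2.1 (by linarith only [h44, hx]), (ct_eq hd' ρ).2.1 hx.le, sub_self, zero_mul]

theorem osc_am {d : ℝ} (hd : 0 < d) {u : ℝ} (hu : 0 < u) : am d 1 (Real.log u) ^ 2 =
    Real.smoothTransition ((1 - u ^ 2) / d ^ 4 - 1) ^ 2 * (√(1 - u ^ 2))⁻¹ := by
  have e : qq (Real.log u) = 1 - u ^ 2 := by simpa using qq_log 0 hu.ne'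
  rw [am, (ct_eq one_pos _).1 (by simpa using (qq_lt _).le), sub_zero, mul_pow, pp, inv_pow,
    Real.sq_sqrt (by unfold gg; positivity), gg, ct, e]

theorem osc_lip {k d y z : ℝ} (h : Sm univ 1 k Real.smoothTransition) (hd : 0 < d)
    (hy : d ^ 4 ≤ y) (hz : d ^ 4 ≤ z) :
    |Real.smoothTransition (y / d ^ 4 - 1) ^ 2 * (√y)⁻¹ -
      Real.smoothTransition (z / d ^ 4 - 1) ^ 2 * (√z)⁻¹| ≤ (2 * k + 1) / d ^ 6 * |y - z| := by
  have h4 : 0 < d ^ 4 := by positivity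
  have h2 : 0 < d ^ 2 := by positivity
  have k0 := h.k0
  have l1 : |Real.smoothTransition (y / d ^ 4 - 1) - Real.smoothTransition (z / d ^ 4 - 1)| ≤
      k * (|y - z| / d ^ 4) := by
    have := Convex.norm_image_sub_le_of_norm_deriv_le (𝕜 := ℝ) (s := univ)
      (f := Real.smoothTransition) (C := k) (x := z / d ^ 4 - 1) (y := y / d ^ 4 - 1)
      (fun x _ => ((osc_d h.c2).1 x).differentiableAt)
      (fun x hx => by simpa using h.b1 x hx) convex_univ trivial trivial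
    rwa [Real.norm_eq_abs, Real.norm_eq_abs, sub_sub_sub_cancel_right, ← sub_div, abs_div,
      abs_of_pos h4] at this
  have sy : d ^ 2 ≤ √y := Real.le_sqrt_of_sq_le (by rw [← pow_mul]; exact hy)
  have sz : d ^ 2 ≤ √z := Real.le_sqrt_of_sq_le (by rw [← pow_mul]; exact hz)
  have ey := Real.mul_self_sqrt (h4.le.trans hy)
  have ez := Real.mul_self_sqrt (h4.le.trans hz)
  have l2 : |(√y)⁻¹ - (√z)⁻¹| ≤ |y - z| / d ^ 6 := by
    generalize √y = s at *
    generalize √z = t at *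
    have s0 : 0 < s := h2.trans_le sy
    have t0 : 0 < t := h2.trans_le sz
    have e : s⁻¹ - t⁻¹ = -(y - z) / ((s + t) * (s * t)) := by
      rw [← ey, ← ez]
      field_simp
      ring
    rw [e, abs_div, abs_neg, abs_of_pos (show 0 < (s + t) * (s * t) by positivity)]
    refine div_le_div_of_nonneg_left (abs_nonneg _) (by positivity) ?_
    rw [show d ^ 6 = d ^ 2 * (d ^ 2 * d ^ 2) by ring]
    exact mul_le_mul (by linarith only [h2, sy, sz]) (mul_le_mul sy sz h2.le s0.le) (by positivity) (by positivity)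
  have l3 : |(√y)⁻¹| ≤ (d ^ 2)⁻¹ := by
    rw [abs_of_nonneg (by positivity)]
    exact inv_anti₀ h2 sy
  have a0 := Real.smoothTransition.nonneg (y / d ^ 4 - 1)
  have a1 := Real.smoothTransition.le_one (y / d ^ 4 - 1)
  have b0 := Real.smoothTransition.nonneg (z / d ^ 4 - 1)
  have b1 := Real.smoothTransition.le_one (z / d ^ 4 - 1)
  generalize Real.smoothTransition (y / d ^ 4 - 1) = a at *
  generalize Real.smoothTransition (z / d ^ 4 - 1) = b at *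
  rw [show a ^ 2 * (√y)⁻¹ - b ^ 2 * (√z)⁻¹ =
    (a + b) * (a - b) * (√y)⁻¹ + b ^ 2 * ((√y)⁻¹ - (√z)⁻¹) by ring]
  refine (abs_add_le _ _).trans ?_
  rw [abs_mul, abs_mul, abs_mul, abs_of_nonneg (show 0 ≤ a + b by linarith only [a0, b0]),
    abs_of_nonneg (sq_nonneg b), show (2 * k + 1) / d ^ 6 * |y - z| =
      2 * (k * (|y - z| / d ^ 4)) * (d ^ 2)⁻¹ + 1 * (|y - z| / d ^ 6) by field_simp]
  exact add_le_add (mul_le_mul (mul_le_mul (by linarith only [a1, b1]) l1 (abs_nonneg _) (by norm_num)) l3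
    (abs_nonneg _) (by positivity))
    (mul_le_mul (pow_le_one₀ b0 b1) l2 (abs_nonneg _) (by norm_num))

/-- OSC.  The square of the main amplitude as a function of `s = exp ρ`:
`smoothTransition ((1 - s ^ 2) / d ^ 4 - 1) ^ 2 / √(1 - s ^ 2)`. -/
theorem lip_am : ∃ k : ℝ, 1 ≤ k ∧ ∀ d : ℝ, 0 < d → d ≤ 1 → ∃ VV : ℝ → ℝ,
    (∀ u, 0 < u → VV u = am d 1 (Real.log u) ^ 2) ∧ (∀ u, 1 ≤ u → VV u = 0) ∧
    (∀ u, 0 ≤ VV u ∧ VV u ≤ 1 / d ^ 2) ∧ ∀ u v, |VV u - VV v| ≤ k / d ^ 6 * |u - v| := by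
  obtain ⟨k, hk, h⟩ := sm_th
  refine ⟨2 * (2 * k + 1), by linarith, fun d hd hd1 => ?_⟩
  have h4 : 0 < d ^ 4 := by positivity
  have h2 : 0 < d ^ 2 := by positivity
  have z : ∀ y, y ≤ d ^ 4 → Real.smoothTransition (y / d ^ 4 - 1) = 0 := fun y hy =>
    Real.smoothTransition.zero_of_nonpos (by rw [sub_nonpos, div_le_one h4]; exact hy)
  refine ⟨fun u => Real.smoothTransition (max (1 - max (min u 1) 0 ^ 2) (d ^ 4) / d ^ 4 - 1) ^ 2 *
    (√(max (1 - max (min u 1) 0 ^ 2) (d ^ 4)))⁻¹, fun u hu => ?_, fun u hu => ?_, fun u => ?_,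
    fun u v => ?_⟩
  · beta_reduce
    rw [osc_am hd hu]
    rcases le_total u 1 with h1 | h1
    · rw [min_eq_left h1, max_eq_left hu.le]
      rcases le_total (d ^ 4) (1 - u ^ 2) with h3 | h3
      · rw [max_eq_left h3]
      · rw [max_eq_right h3, z _ le_rfl, z _ h3]
        simp
    · rw [min_eq_right h1, max_eq_left zero_le_one, max_eq_right (by linarith), z _ le_rfl,
        z _ (by nlinarith only [h4, h1])]
      simp
  · beta_reduce
    rw [min_eq_right hu, max_eq_left zero_le_one, max_eq_right (by linarith), z _ le_rfl]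
    simp
  · refine ⟨by positivity, ?_⟩
    beta_reduce
    rw [one_div, ← one_mul (d ^ 2)⁻¹]
    exact mul_le_mul (pow_le_one₀ (Real.smoothTransition.nonneg _) (Real.smoothTransition.le_one _))
      (inv_anti₀ h2 (Real.le_sqrt_of_sq_le (by rw [← pow_mul]; exact le_max_right _ _)))
      (by positivity) zero_le_one
  · refine (osc_lip h hd (le_max_right _ _) (le_max_right _ _)).trans ?_
    rw [show 2 * (2 * k + 1) / d ^ 6 * |u - v| = (2 * k + 1) / d ^ 6 * (2 * |u - v|) by ring]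
    refine mul_le_mul_of_nonneg_left ((abs_max_sub_max_le_abs _ _ _).trans ?_) (by positivity)
    have c1 : |max (min u 1) 0 - max (min v 1) 0| ≤ |u - v| :=
      (abs_max_sub_max_le_abs _ _ _).trans ((abs_min_sub_min_le_max _ _ _ _).trans (by simp))
    have c2 : ∀ w : ℝ, 0 ≤ max (min w 1) 0 ∧ max (min w 1) 0 ≤ 1 := fun w =>
      ⟨le_max_right _ _, max_le (min_le_right _ _) zero_le_one⟩
    have c3 := c2 u
    have c4 := c2 v
    generalize max (min u 1) 0 = a at *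
    generalize max (min v 1) 0 = b at *
    rw [show 1 - a ^ 2 - (1 - b ^ 2) = -((a + b) * (a - b)) by ring, abs_neg, abs_mul,
      abs_of_nonneg (show 0 ≤ a + b by linarith)]
    exact mul_le_mul (by linarith) c1 (abs_nonneg _) (by norm_num)

/-- OSC.  `am d 1 (log u) ^ 2 ≤ (1 - u) ^ (-1/2)`. -/
theorem IV_mem {d : ℝ} (hd : 0 < d) (hd1 : d ≤ 1) : 0 ≤ IV d ∧ IV d ≤ 2 := by
  refine ⟨intervalIntegral.integral_nonneg zero_le_one fun u _ => sq_nonneg _, ?_⟩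
  have i1 : IntervalIntegrable (fun u : ℝ => (1 - u) ^ (-1 / 2 : ℝ)) volume 0 1 := by
    have := (intervalIntegral.intervalIntegrable_rpow' (a := 1) (b := 0)
      (show (-1 : ℝ) < -1 / 2 by norm_num)).comp_sub_left 1
    simpa using this
  have i2 : ∫ u in (0 : ℝ)..1, (1 - u) ^ (-1 / 2 : ℝ) = 2 := by
    rw [intervalIntegral.integral_comp_sub_left (fun u : ℝ => u ^ (-1 / 2 : ℝ)) 1,
      integral_rpow (Or.inl (by norm_num))]
    norm_num
  refine (Real.le_norm_self _).trans (le_of_le_of_eq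
    (intervalIntegral.norm_integral_le_of_norm_le (f := fun u => am d 1 (Real.log u) ^ 2)
      zero_le_one (Filter.Eventually.of_forall fun u hu => ?_) i1) i2)
  rw [Real.norm_of_nonneg (sq_nonneg _), osc_am hd hu.1]
  rcases hu.2.eq_or_lt with h1 | h1
  · rw [h1]
    simp
  · have h2 : 0 < 1 - u := by linarith only [h1]
    rw [neg_div, Real.rpow_neg h2.le, ← Real.sqrt_eq_rpow, ← one_mul (√(1 - u))⁻¹]
    exact mul_le_mul (pow_le_one₀ (Real.smoothTransition.nonneg _) (Real.smoothTransition.le_one _))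
      (inv_anti₀ (Real.sqrt_pos.2 h2) (Real.sqrt_le_sqrt (by nlinarith only [hu.1, h1])))
      (by positivity) zero_le_one

/-- OSD. -/
theorem sum_inv_le (N : ℕ) : ∑ n ∈ Finset.Icc 1 N, (1 / n : ℝ) ≤ 1 + Real.log N := by
  have h := harmonic_le_one_add_log N
  rw [harmonic_eq_sum_Icc] at h
  push_cast at h
  simpa only [one_div] using h

theorem osd_sym (f : ℤ → ℝ) (N : ℕ) : ∑ n ∈ Finset.Icc (-(N : ℤ)) N, f n =
    f 0 + ∑ n ∈ Finset.Icc 1 N, (f n + f (-n)) := by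
  induction N with
  | zero => simp
  | succ N ih =>
    have h : Finset.Icc (-((N + 1 : ℕ) : ℤ)) (N + 1 : ℕ) =
        insert ((N + 1 : ℕ) : ℤ) (insert (-((N + 1 : ℕ) : ℤ)) (Finset.Icc (-(N : ℤ)) N)) := by
      ext n
      simp only [Finset.mem_insert, Finset.mem_Icc]
      omega
    rw [h, Finset.sum_insert (by simp only [Finset.mem_insert, Finset.mem_Icc]; omega),
      Finset.sum_insert (by simp only [Finset.mem_Icc]; omega), ih,
      Finset.sum_Icc_succ_top (by omega)]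
    ring

/-- OSD. -/
theorem sum_inv_abs (N : ℕ) :
    ∑ n ∈ Finset.Icc (-(N : ℤ)) N, (1 / |(n : ℝ)|) ≤ 2 * (1 + Real.log N) := by
  rw [osd_sym fun n => 1 / |(n : ℝ)|]
  have h : ∑ n ∈ Finset.Icc 1 N, (1 / |(((n : ℕ) : ℤ) : ℝ)| + 1 / |((-((n : ℕ) : ℤ) : ℤ) : ℝ)|) =
      2 * ∑ n ∈ Finset.Icc 1 N, (1 / n : ℝ) := by
    rw [Finset.mul_sum]
    refine Finset.sum_congr rfl fun n _ => ?_
    rw [Int.cast_neg, abs_neg, Int.cast_natCast, Nat.abs_cast]
    ring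
  rw [h, Int.cast_zero, abs_zero, div_zero, zero_add]
  have := sum_inv_le N
  linarith only [this]

/-- OSD.  Counting integers in an interval. -/
theorem card_le_of_abs {J : Finset ℤ} {x L : ℝ} (hL : 0 ≤ L) (h : ∀ n ∈ J, |(n : ℝ) - x| ≤ L) :
    (J.card : ℝ) ≤ 2 * L + 1 := by
  have h1 : J ⊆ Finset.Icc ⌈x - L⌉ ⌊x + L⌋ := fun n hn => by
    have := abs_le.1 (h n hn)
    exact Finset.mem_Icc.2 ⟨Int.ceil_le.2 (by linarith), Int.le_floor.2 (by linarith)⟩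
  have h2 := Finset.card_le_card h1
  rw [Int.card_Icc] at h2
  have h3 := Int.le_ceil (x - L)
  have h4 := Int.floor_le (x + L)
  rcases le_total (⌊x + L⌋ + 1 - ⌈x - L⌉) 0 with h5 | h5
  · rw [Int.toNat_of_nonpos h5, Nat.le_zero] at h2
    rw [h2, Nat.cast_zero]
    linarith only [hL]
  · have h6 : (J.card : ℤ) ≤ ⌊x + L⌋ + 1 - ⌈x - L⌉ := by omega
    have h7 : ((J.card : ℤ) : ℝ) ≤ ((⌊x + L⌋ + 1 - ⌈x - L⌉ : ℤ) : ℝ) := Int.cast_le.2 h6
    push_cast at h7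
    linarith only [h3, h4, h7]

/-- OSD.  The active modes: `n exp r ∈ [√(1 - Δ), √(1 + Δ)]`. -/
theorem card_active {J : Finset ℕ} {r Δ : ℝ} (hΔ : 0 ≤ Δ)
    (h : ∀ n ∈ J, 1 ≤ n ∧ |qq (r + Real.log n)| ≤ Δ) :
    (J.card : ℝ) ≤ 2 * Δ * Real.exp (-r) + 1 := by
  have he := Real.exp_pos (-r)
  have h1 := card_le_of_abs (J := J.image fun n : ℕ => (n : ℤ)) (x := Real.exp (-r))
    (L := Δ * Real.exp (-r)) (by positivity) fun m hm => by
      obtain ⟨n, hn, rfl⟩ := Finset.mem_image.1 hm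
      obtain ⟨h1, h2⟩ := h n hn
      have h3 : (0 : ℝ) < n := by exact_mod_cast h1
      rw [qq_log r h3.ne'] at h2
      have h4 : 0 < n * Real.exp r := by positivity
      have h5 : |n * Real.exp r - 1| ≤ Δ := by
        refine le_trans ?_ h2
        rw [show 1 - (n * Real.exp r) ^ 2 = (n * Real.exp r - 1) * -(n * Real.exp r + 1) by ring,
          abs_mul, abs_neg, abs_of_pos (a := n * Real.exp r + 1) (by linarith only [h4])]
        exact le_mul_of_one_le_right (abs_nonneg _) (by linarith only [h4])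
      have h6 : ((n : ℤ) : ℝ) - Real.exp (-r) = (n * Real.exp r - 1) * Real.exp (-r) := by
        rw [sub_mul, mul_assoc, ← Real.exp_add, add_neg_cancel, Real.exp_zero, Int.cast_natCast]
        ring
      rw [h6, abs_mul, abs_of_pos he]
      exact mul_le_mul_of_nonneg_right h5 he.le
  rw [Finset.card_image_of_injective _ Nat.cast_injective] at h1
  linarith

/-- OSD.  The map `x ↦ (x₁ + x₂, x₁ + x₃, x₂ + x₃)` is injective.  Division by zero is zero. -/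
theorem sum_Z3 (N : ℕ) :
    ∑ x ∈ Z3 N, (1 / |((x.1 + x.2.1 : ℝ)) * (x.1 + x.2.2)| + 1 / |((x.1 + x.2.1 : ℝ)) * (x.2.1 + x.2.2)| +
      1 / |((x.1 + x.2.2 : ℝ)) * (x.2.1 + x.2.2)|) ≤
      12 * (4 * N + 1) * (1 + Real.log (2 * N : ℕ)) ^ 2 := by
  let φ : ℤ × ℤ × ℤ → ℤ × ℤ × ℤ := fun x => (x.1 + x.2.1, x.1 + x.2.2, x.2.1 + x.2.2)
  let e : ℤ → ℝ := fun n => 1 / |(n : ℝ)|
  let g : ℤ × ℤ × ℤ → ℝ := fun y => e y.1 * e y.2.1 + e y.1 * e y.2.2 + e y.2.1 * e y.2.2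
  have e0 : ∀ n, 0 ≤ e n := fun n => by positivity
  have hi : Function.Injective φ := fun x y h => by
    simp only [φ, Prod.mk.injEq] at h
    refine Prod.ext ?_ (Prod.ext ?_ ?_) <;> omega
  have hs : (Z3 N).image φ ⊆ Z3 (2 * N) := fun y hy => by
    obtain ⟨x, hx, rfl⟩ := Finset.mem_image.1 hy
    simp only [Z3, φ, Finset.mem_product, Finset.mem_Icc] at hx ⊢
    omega
  have h1 := sum_inv_abs (2 * N)
  have h0 : 0 ≤ ∑ n ∈ Finset.Icc (-((2 * N : ℕ) : ℤ)) (2 * N : ℕ), e n :=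
    Finset.sum_nonneg fun n _ => e0 n
  have hc : ((Finset.Icc (-((2 * N : ℕ) : ℤ)) (2 * N : ℕ)).card : ℝ) = 4 * N + 1 := by
    rw [Int.card_Icc, show (((2 * N : ℕ) : ℤ) + 1 - -((2 * N : ℕ) : ℤ)).toNat = 4 * N + 1 by omega]
    push_cast
    ring
  calc _ = ∑ x ∈ Z3 N, g (φ x) := by
        refine Finset.sum_congr rfl fun x _ => ?_
        simp only [g, e, φ, Int.cast_add, abs_mul, one_div, mul_inv]
    _ = ∑ y ∈ (Z3 N).image φ, g y := (Finset.sum_image fun x _ y _ h => hi h).symm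
    _ ≤ ∑ y ∈ Z3 (2 * N), g y :=
        Finset.sum_le_sum_of_subset_of_nonneg hs fun y _ _ => add_nonneg
          (add_nonneg (mul_nonneg (e0 _) (e0 _)) (mul_nonneg (e0 _) (e0 _))) (mul_nonneg (e0 _) (e0 _))
    _ = 3 * (4 * N + 1) * (∑ n ∈ Finset.Icc (-((2 * N : ℕ) : ℤ)) (2 * N : ℕ), e n) ^ 2 := by
        simp only [Z3, g, Finset.sum_product, Finset.sum_add_distrib, Finset.sum_const, nsmul_eq_mul,
          hc, ← Finset.mul_sum, ← Finset.sum_mul]
        ring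
    _ ≤ 3 * (4 * N + 1) * (2 * (1 + Real.log (2 * N : ℕ))) ^ 2 := by gcongr
    _ = _ := by ring

/-- OSD.  Degenerate triples. -/
theorem card_Z3 (N : ℕ) :
    (((Z3 N).filter fun x => x.1 + x.2.1 = 0 ∨ x.1 + x.2.2 = 0 ∨ x.2.1 + x.2.2 = 0).card : ℝ) ≤
      3 * (2 * N + 1) ^ 2 := by
  let K := Finset.Icc (-(N : ℤ)) N ×ˢ Finset.Icc (-(N : ℤ)) N
  have hK : K.card = (2 * N + 1) ^ 2 := by
    rw [Finset.card_product, Int.card_Icc, show ((N : ℤ) + 1 - -(N : ℤ)).toNat = 2 * N + 1 by omega, sq]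
  have hs : ((Z3 N).filter fun x => x.1 + x.2.1 = 0 ∨ x.1 + x.2.2 = 0 ∨ x.2.1 + x.2.2 = 0) ⊆
      K.image (fun y => (y.1, -y.1, y.2)) ∪ K.image (fun y => (y.1, y.2, -y.1)) ∪
        K.image (fun y => (y.1, y.2, -y.2)) := fun x hx => by
    obtain ⟨a, b, c⟩ := x
    simp only [Z3, Finset.mem_filter, Finset.mem_product, Finset.mem_Icc] at hx
    simp only [K, Finset.mem_union, Finset.mem_image, Finset.mem_product, Finset.mem_Icc,
      Prod.mk.injEq]
    rcases hx.2 with h | h | h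
    · exact Or.inl (Or.inl ⟨(a, c), ⟨hx.1.1, hx.1.2.2⟩, rfl, by dsimp only; omega, rfl⟩)
    · exact Or.inl (Or.inr ⟨(a, b), ⟨hx.1.1, hx.1.2.1⟩, rfl, rfl, by dsimp only; omega⟩)
    · exact Or.inr ⟨(a, b), ⟨hx.1.1, hx.1.2.1⟩, rfl, rfl, by dsimp only; omega⟩
  have h1 := (Finset.card_le_card hs).trans ((Finset.card_union_le _ _).trans
    (add_le_add ((Finset.card_union_le _ _).trans
      (add_le_add Finset.card_image_le Finset.card_image_le)) Finset.card_image_le))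
  rw [hK] at h1
  have h2 := (Nat.cast_le (α := ℝ)).2 h1
  push_cast at h2
  linarith only [h2]

theorem osd_tau (s : ℕ) : ∃ C : ℕ, 1 ≤ C ∧ ∀ n : ℕ, n ≠ 0 → n.divisors.card ^ s ≤ C * n := by
  refine ⟨(s.factorial * 2 ^ s) ^ 2 ^ s, Nat.one_le_iff_ne_zero.2 (by positivity), fun n hn => ?_⟩
  have h1 : ∀ p ∈ n.primeFactors, (n.factorization p + 1) ^ s ≤
      (if p < 2 ^ s then s.factorial * 2 ^ s else 1) * p ^ n.factorization p := by
    intro p hp
    have hp2 := (Nat.prime_of_mem_primeFactors hp).two_le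
    generalize n.factorization p = a
    split_ifs with h
    · calc (a + 1) ^ s ≤ (a + 1).ascFactorial s := Nat.pow_succ_le_ascFactorial _ _
        _ = s.factorial * (a + s).choose s := Nat.ascFactorial_eq_factorial_mul_choose _ _
        _ ≤ s.factorial * 2 ^ (a + s) := Nat.mul_le_mul_left _ (Nat.choose_le_two_pow _ _)
        _ = s.factorial * 2 ^ s * 2 ^ a := by ring
        _ ≤ _ := Nat.mul_le_mul_left _ (Nat.pow_le_pow_left hp2 _)
    · calc (a + 1) ^ s ≤ (2 ^ a) ^ s := Nat.pow_le_pow_left Nat.lt_two_pow_self _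
        _ = (2 ^ s) ^ a := by rw [← pow_mul, ← pow_mul, mul_comm]
        _ ≤ _ := by rw [one_mul]; exact Nat.pow_le_pow_left (not_lt.1 h) _
  have h2 : ∏ p ∈ n.primeFactors, p ^ n.factorization p = n :=
    Nat.prod_factorization_pow_eq_self hn
  rw [Nat.card_divisors hn, ← Finset.prod_pow]
  refine (Finset.prod_le_prod' h1).trans ?_
  rw [Finset.prod_mul_distrib, h2]
  refine Nat.mul_le_mul_right _ ?_
  rw [Finset.prod_ite, Finset.prod_const, Finset.prod_const_one, mul_one]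
  refine Nat.pow_le_pow_right (by positivity) ?_
  calc _ ≤ (Finset.range (2 ^ s)).card :=
        Finset.card_le_card fun p hp => Finset.mem_range.2 (Finset.mem_filter.1 hp).2
    _ = _ := Finset.card_range _

/-- OSD.  The divisor bound (other copies in the repository: grep `divisor_bound`; do not import
them, copy). -/
theorem tau_le {ε : ℝ} (hε : 0 < ε) :
    ∃ C : ℝ, 0 ≤ C ∧ ∀ n : ℕ, (n.divisors.card : ℝ) ≤ C * (n : ℝ) ^ ε := by
  obtain ⟨s, hs⟩ := exists_nat_ge (1 / ε)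
  have hs0 : s ≠ 0 := by
    rintro rfl
    have : 0 < 1 / ε := by positivity
    rw [Nat.cast_zero] at hs
    linarith
  obtain ⟨C, h1, h2⟩ := osd_tau s
  refine ⟨C, by positivity, fun n => ?_⟩
  rcases eq_or_ne n 0 with rfl | hn
  · rw [Nat.divisors_zero, Finset.card_empty, Nat.cast_zero]
    positivity
  have h3 : (1 : ℝ) ≤ n := by exact_mod_cast Nat.one_le_iff_ne_zero.2 hn
  have h4 : (1 : ℝ) ≤ C := by exact_mod_cast h1
  refine le_of_pow_le_pow_left₀ hs0 (by positivity) ?_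
  have h5 : ((n.divisors.card : ℝ)) ^ s ≤ C * n := by exact_mod_cast h2 n hn
  refine h5.trans ?_
  rw [mul_pow, ← Real.rpow_mul_natCast (by positivity)]
  refine mul_le_mul (le_self_pow₀ h4 hs0) ?_ (by positivity) (by positivity)
  refine Real.self_le_rpow_of_one_le h3 ?_
  rw [div_le_iff₀ hε] at hs
  linarith only [hs]

theorem osd_riem {VV : ℝ → ℝ} {L x : ℝ} (hL : 0 ≤ L) (hx : 0 < x) (hc : Continuous VV)
    (hl : ∀ u v, |VV u - VV v| ≤ L * |u - v|) (M : ℕ) :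
    |x * ∑ a ∈ Finset.Icc 1 M, VV (a * x) - ∫ u in (0 : ℝ)..M * x, VV u| ≤ M * (L * x * x) := by
  induction M with
  | zero => simp
  | succ M ih =>
    have h1 : ‖∫ u in (M * x)..((M + 1 : ℕ) * x), (VV ((M + 1 : ℕ) * x) - VV u)‖ ≤
        L * x * |(M + 1 : ℕ) * x - M * x| := by
      refine intervalIntegral.norm_integral_le_of_norm_le_const fun u hu => ?_
      refine (hl _ _).trans (mul_le_mul_of_nonneg_left ?_ hL)
      rw [uIoc_of_le (by push_cast; linarith)] at hu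
      have h2 := hu.1
      have h3 := hu.2
      push_cast at h3 ⊢
      rw [abs_le]
      constructor <;> linarith
    have h2 : ((M + 1 : ℕ) : ℝ) * x - M * x = x := by push_cast; ring
    rw [intervalIntegral.integral_sub (by simp) (hc.intervalIntegrable _ _),
      intervalIntegral.integral_const, h2, abs_of_pos hx, smul_eq_mul, Real.norm_eq_abs] at h1
    rw [Finset.sum_Icc_succ_top (by omega), ← intervalIntegral.integral_add_adjacent_intervals
      (hc.intervalIntegrable 0 (M * x)) (hc.intervalIntegrable _ _), mul_add, add_sub_add_comm]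
    refine (abs_add_le _ _).trans ?_
    have h3 : ((M + 1 : ℕ) : ℝ) * (L * x * x) = M * (L * x * x) + L * x * x := by push_cast; ring
    rw [h3]
    exact add_le_add ih h1

/-- OSD.  Riemann sums of a Lipschitz function vanishing on `[1, ∞)`. -/
theorem riemann {VV : ℝ → ℝ} {L x : ℝ} {N : ℕ} (hL : 0 ≤ L) (hx : 0 < x) (hx1 : x ≤ 1)
    (h0 : ∀ u, 1 ≤ u → VV u = 0) (hl : ∀ u v, |VV u - VV v| ≤ L * |u - v|) (hN : 1 ≤ (N + 1) * x) :
    |x * ∑ a ∈ Finset.Icc 1 N, VV (a * x) - ∫ u in (0 : ℝ)..1, VV u| ≤ 2 * L * x := by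
  have hc : Continuous VV := (LipschitzWith.of_dist_le_mul (K := ⟨L, hL⟩) hl).continuous
  have h1 := osd_riem hL hx hc hl ⌈1 / x⌉₊
  have h2 : 1 ≤ (⌈1 / x⌉₊ : ℝ) * x := (div_le_iff₀ hx).1 (Nat.le_ceil _)
  have h3 : ⌈1 / x⌉₊ ≤ N + 1 := Nat.ceil_le.2 (by rw [div_le_iff₀ hx]; exact_mod_cast hN)
  have h4 : (⌈1 / x⌉₊ : ℝ) * x ≤ 2 := by
    have := (Nat.ceil_lt_add_one (a := 1 / x) (by positivity)).le
    calc _ ≤ (1 / x + 1) * x := by gcongr
      _ = 1 + x := by field_simp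
      _ ≤ 2 := by linarith only [hx1]
  generalize ⌈1 / x⌉₊ = M at h1 h2 h3 h4
  have h5 : ∑ a ∈ Finset.Icc 1 N, VV (a * x) = ∑ a ∈ Finset.Icc 1 M, VV (a * x) := by
    have h6 := Finset.sum_subset (f := fun a : ℕ => VV (a * x))
      (Finset.Icc_subset_Icc_right (a := 1) h3) fun a ha hb => h0 _ (h2.trans (by
        rw [Finset.mem_Icc] at ha hb
        exact mul_le_mul_of_nonneg_right (Nat.cast_le.2 (by omega)) hx.le))
    rw [h6, Finset.sum_Icc_succ_top (by omega), h0 _ (by exact_mod_cast hN), add_zero]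
  have h6 : ∫ u in (0 : ℝ)..M * x, VV u = ∫ u in (0 : ℝ)..1, VV u := by
    rw [← intervalIntegral.integral_add_adjacent_intervals (hc.intervalIntegrable 0 1)
      (hc.intervalIntegrable _ _), intervalIntegral.integral_congr (g := fun _ => 0) (a := 1)
        fun u hu => h0 u (by rw [uIcc_of_le h2] at hu; exact hu.1), intervalIntegral.integral_zero,
      add_zero]
  rw [h5, ← h6]
  refine h1.trans ?_
  have h7 : 0 ≤ L * x := by positivity
  nlinarith only [h4, h7]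

theorem osd_sqrt (N : ℕ) : ∑ n ∈ Finset.Icc 1 N, (1 / √n : ℝ) ≤ 2 * √N := by
  induction N with
  | zero => simp
  | succ N ih =>
    rw [Finset.sum_Icc_succ_top (by omega)]
    have h1 : (0 : ℝ) < √(N + 1 : ℕ) := Real.sqrt_pos.2 (by positivity)
    have h2 : √(N + 1 : ℕ) ^ 2 = √N ^ 2 + 1 := by
      rw [Real.sq_sqrt (by positivity), Real.sq_sqrt (by positivity)]
      push_cast
      ring
    have h3 : 1 / √(N + 1 : ℕ) ≤ 2 * √(N + 1 : ℕ) - 2 * √N := by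
      rw [div_le_iff₀ h1]
      linarith only [sq_nonneg (√(N + 1 : ℕ) - √N), h2]
    linarith

/-- OSD. -/
theorem sum_log_le {X : ℝ} (hX : 1 ≤ X) {N : ℕ} (hN : (N : ℝ) ≤ 4 * X) :
    ∑ n ∈ Finset.Icc 1 N, (1 + |Real.log (n / X)|) ≤ 20 * X := by
  have hX0 : 0 < X := by linarith
  have hs : 0 < √X := Real.sqrt_pos.2 hX0
  have hN2 : √N ≤ 2 * √X := by
    rw [Real.sqrt_le_left (by positivity), mul_pow, Real.sq_sqrt hX0.le]
    linarith
  have h1 : ∀ n ∈ Finset.Icc 1 N, 1 + |Real.log (n / X)| ≤ 3 + 2 * √X * (1 / √n) := fun n hn => by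
    obtain ⟨h1, h2⟩ := Finset.mem_Icc.1 hn
    have h3 : (0 : ℝ) < n := by exact_mod_cast h1
    have h4 : 0 < √n := Real.sqrt_pos.2 h3
    have h5 : √n ≤ 2 * √X := (Real.sqrt_le_sqrt (by exact_mod_cast h2)).trans hN2
    have h6 : Real.log (n / X) = 2 * Real.log (√n / √X) := by
      rw [← Real.sqrt_div h3.le, Real.log_sqrt (by positivity)]
      ring
    have h7 := Real.log_le_sub_one_of_pos (div_pos h4 hs)
    have h8 := Real.log_le_sub_one_of_pos (div_pos hs h4)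
    rw [← inv_div, Real.log_inv, inv_div] at h8
    have h9 : √n / √X ≤ 2 := (div_le_iff₀ hs).2 h5
    have h10 : 0 < √X / √n := div_pos hs h4
    rw [h6, mul_assoc, mul_one_div, ← le_sub_iff_add_le', abs_le]
    constructor <;> linarith only [h8, h7, h9, h10]
  refine (Finset.sum_le_sum h1).trans ?_
  rw [Finset.sum_add_distrib, ← Finset.mul_sum, Finset.sum_const, Nat.card_Icc, nsmul_eq_mul,
    Nat.add_sub_cancel]
  have h2 := mul_le_mul_of_nonneg_left ((osd_sqrt N).trans (by linarith : 2 * √N ≤ 4 * √X))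
    (by positivity : 0 ≤ 2 * √X)
  have h3 := Real.mul_self_sqrt hX0.le
  linarith only [hN, h2, h3]

/-- OSD.  Markov. -/
theorem markov {ι : Type} (s : Finset ι) {e : ι → ℝ} (he : ∀ j ∈ s, 0 ≤ e j) {η : ℝ} (hη : 0 < η) :
    ((s.filter fun j => η ≤ e j).card : ℝ) ≤ (∑ j ∈ s, e j) / η := by
  rw [le_div_iff₀ hη, ← nsmul_eq_mul]
  exact (Finset.card_nsmul_le_sum _ _ _ fun j hj => (Finset.mem_filter.1 hj).2).trans
    (Finset.sum_le_sum_of_subset_of_nonneg (Finset.filter_subset _ _) fun j hj _ => he j hj)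

end Pool.Agent.MP_a28cf0_nt.D4
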