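import Pool.Agent.MP_a28cf0_nt.D4.Geo

attribute [-instance] IdemSemiring.toCanonicallyOrderedAdd AddQuantale.instAddLeftMono
  covariant_swap_mul_of_covariant_mul IsOrderedMonoid.toMulLeftMono AddQuantale.instAddRightMono
  IdemSemiring.toMulLeftMono Quantale.instMulLeftMono NumberField.to_charZero
  LinearOrderedCommMonoidWithZero.toPosMulStrictMono Quantale.instMulRightMono RKHS.instFunLike
  instCoeTOfCoeDep CanonicallyOrderedAdd.toMulLeftMono IsScalarTower.complexToReal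
  NonarchimedeanRing.toIsTopologicalRing LieRinehartAlgebra.toIsScalarTower
  ProperSMul.toContinuousSMul instCoeOTCOfCoeOut Group.IsPerfect.subsingleton_of_isMulCommutative
  instCoeHTCOfCoeHeadOfCoeOTC Fintype.decidableForallFintype Valued.toUniformSpace
  instCoeHTCTOfCoeTailOfCoeHTC AlgHom.instNonUnitalAlgHomClassOfAlgHomClass
  LieAdmissibleRing.toNonUnitalNonAssocRing Valued.isTopologicalDivisionRing
  LeftPreLieAlgebra.toModule RightPreLieAlgebra.toModule IsTopologicalTorsor.toContinuousSMul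
  instCoeTCOfCoe CanonicallyOrderedMul.toMulLeftMono AddMonoidWithOne.toAddMonoid
  CompletePartialOrder.toPartialOrder Unique.instSubsingleton littleWedderburn NeZero.of_gt'
  CStarAlgebra.instOrderClosedTopology ContDiffMapSupportedInClass.toDFunLike
  TestFunctionClass.toDFunLike IsModuleTopology.toContinuousSMul NonUnitalNonAssocRing.toAddCommGroup
  NonUnitalNonAssocSemiring.toMulZeroClass NonUnitalNonAssocSemiring.toAddCommMonoid
  instNonUnitalAlgHomClassOfNonUnitalAlgEquivClass MulSemiringAction.toDistribMulAction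
  EquivLike.toFunLike GrpTypeEquivalenceGrp.grpGroup AddGroupWithOne.toIntCast Invertible.toNeZero
  RightPreLieRing.toNonUnitalNonAssocRing LeftPreLieRing.toNonUnitalNonAssocRing
  LinearOrderedCommGroupWithZero.toCommGroupWithZero instCoeHTCT Multiset.decidableDforallMultiset
  instCoeHTC instCoeOTC

/-!
Averages over a family with a large sieve inequality.
-/

set_option autoImplicit false
set_option linter.unusedVariables false

namespace Pool.Agent.MP_a28cf0_nt.D4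

open MeasureTheory Complex Set
open scoped ComplexConjugate

/-- PAA.  The large sieve along an injective map. -/
theorem LS.inj {ι : Type} {s : Finset ι} {Om : ι → ℝ} {lam : ι → ℕ → ℝ} {KK ε K : ℝ}
    (h : LS s Om lam KK ε K) (J : Finset ℕ) (κ : ℕ → ℕ) (hκ : Set.InjOn κ J)
    (hb : ∀ m ∈ J, 1 ≤ κ m ∧ (κ m : ℝ) ≤ K) (c : ℕ → ℂ) :
    ∑ j ∈ s, Om j ^ 2 * ‖∑ m ∈ J, c m * (lam j (κ m) : ℂ)‖ ^ 2 ≤
      KK * (∑ m ∈ J, ‖c m‖ ^ 2 + ε * (∑ m ∈ J, ‖c m‖) ^ 2) := by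
  classical
  have key : ∀ {E : Type} [AddCommMonoid E] (f : ℕ → ℂ → E),
      ∑ k ∈ J.image κ, f k (c (Function.invFunOn κ J k)) = ∑ m ∈ J, f (κ m) (c m) := by
    intro E _ f
    rw [Finset.sum_image hκ]
    exact Finset.sum_congr rfl fun m hm => by rw [hκ.leftInvOn_invFunOn hm]
  have h1 := h (J.image κ) (fun k => c (Function.invFunOn κ J k)) (by
    intro k hk
    obtain ⟨m, hm, rfl⟩ := Finset.mem_image.1 hk
    exact hb m hm)
  have e1 := key fun _ z => ‖z‖ ^ 2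
  have e2 := key fun _ z => ‖z‖
  have e3 := fun j => key fun k z => z * (lam j k : ℂ)
  simp only [e1, e2, e3] at h1
  exact h1

/-- PAA. -/
theorem LS.mono {ι : Type} {s s' : Finset ι} {Om : ι → ℝ} {lam : ι → ℕ → ℝ} {KK KK' ε ε' K K' : ℝ}
    (h : LS s Om lam KK ε K) (hs : s' ⊆ s) (h0 : 0 ≤ KK) (h1 : KK ≤ KK') (h2 : 0 ≤ ε) (h3 : ε ≤ ε')
    (h4 : K' ≤ K) : LS s' Om lam KK' ε' K' := by
  intro J c hJ
  have h5 := h J c fun k hk => ⟨(hJ k hk).1, (hJ k hk).2.trans h4⟩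
  have p1 : 0 ≤ ∑ k ∈ J, ‖c k‖ ^ 2 := Finset.sum_nonneg fun _ _ => sq_nonneg _
  have p2 : 0 ≤ (∑ k ∈ J, ‖c k‖) ^ 2 := sq_nonneg _
  refine le_trans (Finset.sum_le_sum_of_subset_of_nonneg hs fun _ _ _ =>
    mul_nonneg (sq_nonneg _) (sq_nonneg _)) (h5.trans ?_)
  exact mul_le_mul h1 (add_le_add le_rfl (mul_le_mul_of_nonneg_right h3 p2))
    (add_nonneg p1 (mul_nonneg h2 p2)) (h0.trans h1)

theorem paa_mem {c T : ℝ} (hc : 1 ≤ c) (hT : 1 ≤ T) (r : ℝ) :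
    r ∈ Icc (Real.log (1 / (c * T))) (Real.log (c / T)) ↔
      1 / (c * T) ≤ Real.exp r ∧ Real.exp r ≤ c / T := by
  have h1 : 0 < 1 / (c * T) := by positivity
  have h2 : 0 < c / T := by positivity
  rw [mem_Icc, Real.log_le_iff_le_exp h1, Real.le_log_iff_exp_le h2]

theorem paa_bound {c T B : ℝ} {f : ℝ → ℝ} (hc : 1 ≤ c) (hT : 1 ≤ T) (hB : 0 ≤ B)
    (h0 : ∀ r, ¬ (1 / (c * T) ≤ Real.exp r ∧ Real.exp r ≤ c / T) → f r = 0)
    (hb : ∀ r, 1 / (c * T) ≤ Real.exp r → Real.exp r ≤ c / T → |f r| ≤ c / T ^ 2 * B) :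
    |∫ r, f r| ≤ 2 * c ^ 2 * B / T ^ 2 := by
  have c0 : 0 < c := by linarith
  have T0 : 0 < T := by linarith
  have hl : Real.log (c / T) - Real.log (1 / (c * T)) = 2 * Real.log c := by
    rw [one_div, Real.log_inv, Real.log_div c0.ne' T0.ne', Real.log_mul c0.ne' T0.ne']
    ring
  have l0 := Real.log_nonneg hc
  have l1 := Real.log_le_sub_one_of_pos c0
  rw [← setIntegral_eq_integral_of_forall_compl_eq_zero
    (s := Icc (Real.log (1 / (c * T))) (Real.log (c / T)))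
    fun r hr => h0 r fun h => hr ((paa_mem hc hT r).2 h)]
  have h1 := norm_setIntegral_le_of_norm_le_const (μ := volume) (f := f) (C := c / T ^ 2 * B)
    (s := Icc (Real.log (1 / (c * T))) (Real.log (c / T))) measure_Icc_lt_top
    fun r hr => hb r ((paa_mem hc hT r).1 hr).1 ((paa_mem hc hT r).1 hr).2
  rw [Real.volume_real_Icc, hl, max_eq_left (by linarith only [l0])] at h1
  refine le_trans h1 ?_
  have p : 0 ≤ c / T ^ 2 * B := by positivity
  calc c / T ^ 2 * B * (2 * Real.log c) ≤ c / T ^ 2 * B * (2 * c) :=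
        mul_le_mul_of_nonneg_left (by linarith only [l1]) p
    _ = 2 * c ^ 2 * B / T ^ 2 := by ring

/-- PAA. -/
theorem Vw.int {c T : ℝ} {V : ℝ → ℝ} (hc : 1 ≤ c) (hT : 1 ≤ T) (h : Vw c T V) {E : Type}
    [NormedAddCommGroup E] [NormedSpace ℝ E] {g : ℝ → E} (hg : Continuous g) :
    Integrable fun r => V r • g r := by
  refine (h.sm.c2.continuous.smul hg).integrable_of_hasCompactSupport ?_
  refine HasCompactSupport.intro
    (isCompact_Icc (a := Real.log (1 / (c * T))) (b := Real.log (c / T))) fun r hr => ?_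
  have : V r = 0 := by
    by_contra h0
    exact hr ((paa_mem hc hT r).2 (h.supp r h0))
  show V r • g r = 0
  rw [this, zero_smul]

/-- PAA.  The support has length `2 log c`. -/
theorem Vw.int_le {c T B : ℝ} {V g : ℝ → ℝ} (hc : 1 ≤ c) (hT : 1 ≤ T) (h : Vw c T V) (hB : 0 ≤ B)
    (hb : ∀ r, 1 / (c * T) ≤ Real.exp r → Real.exp r ≤ c / T → |g r| ≤ B) :
    |∫ r, V r * g r| ≤ 2 * c ^ 2 * B / T ^ 2 := by
  refine paa_bound hc hT hB (fun r hr => ?_) fun r h1 h2 => ?_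
  · have : V r = 0 := by
      by_contra h0
      exact hr (h.supp r h0)
    rw [this, zero_mul]
  · rw [abs_mul]
    exact mul_le_mul (h.sm.b0 r (mem_univ r)) (hb r h1 h2) (abs_nonneg _) h.sm.a0

theorem I0_nonneg {c T : ℝ} {V : ℝ → ℝ} (h : Vw c T V) : 0 ≤ I0 V :=
  integral_nonneg fun r => mul_nonneg (h.nn r) (sq_nonneg _)

/-- PAA. -/
theorem I0_le {c T : ℝ} {V : ℝ → ℝ} (hc : 1 ≤ c) (hT : 1 ≤ T) (h : Vw c T V) :
    I0 V ≤ 2 * c ^ 4 := by
  have c0 : 0 < c := by linarith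
  have T0 : 0 < T := by linarith
  have h1 := h.int_le (g := fun r => Real.exp (-r) ^ 2) (B := (c * T) ^ 2) hc hT (sq_nonneg _)
    fun r h1 _ => by
      rw [abs_of_nonneg (sq_nonneg _)]
      refine pow_le_pow_left₀ (Real.exp_pos _).le ?_ 2
      rw [Real.exp_neg]
      rw [one_div] at h1
      exact (inv_le_comm₀ (Real.exp_pos r) (by positivity)).2 h1
  refine le_trans (le_abs_self _) (h1.trans (le_of_eq ?_))
  field_simp

namespace Fa

variable {ι : Type} {c : ℝ}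

theorem Om_nonneg (F : Fa ι c) (j : ι) : 0 ≤ F.Om j := add_nonneg (norm_nonneg _) (norm_nonneg _)

theorem om2_le (F : Fa ι c) (j : ι) : 0 ≤ F.om2 j ∧ F.om2 j ≤ F.Om j ^ 2 := by
  have h1 := norm_nonneg (F.Cp j)
  have h2 := norm_nonneg (F.Cm j)
  unfold om2 Om
  constructor <;> nlinarith only [mul_nonneg h1 h2]

theorem one_le_DD (F : Fa ι c) : 1 ≤ F.DD :=
  le_trans (le_add_of_nonneg_right (Real.log_nonneg F.hT)) F.lg

/-- PAA.  `log (12 c T) ≤ 12 c + log T`. -/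
theorem log_le (hc : 1 ≤ c) (F : Fa ι c) {N : ℕ} (hN : N ≤ 4 * F.N₁) :
    1 + Real.log N ≤ 13 * c * F.DD := by
  have c0 : 0 < c := by linarith only [hc]
  have hT := F.hT
  have T0 : 0 < F.T := by linarith only [hT]
  have hD := F.one_le_DD
  have l0 := Real.log_nonneg hT
  have h1 : (N : ℝ) ≤ 12 * c * F.T := by
    have h2 : (N : ℝ) ≤ 4 * (F.N₁ : ℝ) := by exact_mod_cast hN
    have := F.n1
    linarith only [h2, this]
  have h2 : Real.log N ≤ Real.log (12 * c * F.T) := by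
    rcases Nat.eq_zero_or_pos N with h | h
    · rw [h, Nat.cast_zero, Real.log_zero]
      exact Real.log_nonneg (by nlinarith only [hc, hT])
    · exact Real.log_le_log (by exact_mod_cast h) h1
  rw [Real.log_mul (by positivity) T0.ne'] at h2
  have h3 := Real.log_le_sub_one_of_pos (show 0 < 12 * c by positivity)
  have h4 := F.lg
  have h5 : c ≤ c * F.DD := le_mul_of_one_le_right c0.le hD
  have h6 : F.DD ≤ c * F.DD := le_mul_of_one_le_left (by linarith only [hD]) hc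
  linarith only [h2, h3, h4, h5, h6]

/-- PAA. -/
theorem continuous_al (F : Fa ι c) {A : ℝ → ℝ} (hA : Continuous A) (j : ι) (n : ℕ) :
    Continuous fun r => F.al A j r n := by
  have h1 : Continuous fun r : ℝ => r + Real.log n := continuous_id.add continuous_const
  exact (continuous_ofReal.comp (continuous_const.mul (hA.comp h1))).mul
    ((continuous_wk _ _ _).comp h1)

/-- PAA. -/
theorem continuous_xx (F : Fa ι c) {A : ℝ → ℝ} (hA : Continuous A) (σ : ℝ) (j : ι) (l m : ℕ) :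
    Continuous fun r => F.xx A σ j r l m := by
  have h1 : ∀ u : ℝ, Continuous fun r : ℝ => r + u := fun u => continuous_id.add continuous_const
  exact (continuous_ofReal.comp (continuous_const.mul ((hA.comp (h1 _)).mul (hA.comp (h1 _))))).mul
    (continuous_ci.comp (continuous_const.mul ((continuous_FF.comp (h1 _)).add
      (continuous_const.mul (continuous_FF.comp (h1 _))))))

/-- PAA.  Pointwise bounds for the sum over the family are integrated against the majorant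
`c / T ^ 2` of all the weights. -/
theorem int_sum_le (hc : 1 ≤ c) (F : Fa ι c) {h : ι → ℝ → ℝ} {B : ℝ} (hB : 0 ≤ B)
    (hh : ∀ j ∈ F.s, Continuous (h j)) (h0 : ∀ j ∈ F.s, ∀ r, 0 ≤ h j r)
    (hb : ∀ r, 1 / (c * F.T) ≤ Real.exp r → Real.exp r ≤ c / F.T → ∑ j ∈ F.s, h j r ≤ B) :
    ∑ j ∈ F.s, ∫ r, F.V j r * h j r ≤ 2 * c ^ 2 * B / F.T ^ 2 := by
  rw [← integral_finsetSum (f := fun j r => F.V j r * h j r) _
    fun j hj => (F.vw j hj).int hc F.hT (hh j hj)]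
  refine le_trans (le_abs_self _) (paa_bound hc F.hT hB (fun r hr => ?_) fun r h1 h2 => ?_)
  · refine Finset.sum_eq_zero fun j hj => ?_
    have : F.V j r = 0 := by
      by_contra h3
      exact hr ((F.vw j hj).supp r h3)
    rw [this, zero_mul]
  · have p : 0 ≤ c / F.T ^ 2 := div_nonneg (by linarith) (sq_nonneg _)
    rw [abs_of_nonneg (Finset.sum_nonneg fun j hj => mul_nonneg ((F.vw j hj).nn r) (h0 j hj r))]
    refine le_trans ?_ (mul_le_mul_of_nonneg_left (hb r h1 h2) p)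
    rw [Finset.mul_sum]
    exact Finset.sum_le_sum fun j hj => mul_le_mul_of_nonneg_right
      ((le_abs_self _).trans ((F.vw j hj).sm.b0 r (mem_univ r))) (h0 j hj r)

theorem pab_norm_sq {α : Type} (S : Finset α) (z : α → ℂ) :
    ‖∑ d ∈ S, z d‖ ^ 2 ≤ S.card * ∑ d ∈ S, ‖z d‖ ^ 2 :=
  le_trans (pow_le_pow_left₀ (norm_nonneg _) (norm_sum_le _ _) 2) sq_sum_le_card_mul_sum_sq

theorem pab_hecke {lam : ℕ → ℝ} (h : Hk lam) {l m : ℕ} (hl : 1 ≤ l) (hm : 1 ≤ m) :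
    lam m * lam (m + l) =
      ∑ d ∈ l.divisors, if d ∣ m then lam (m * (m + l) / d ^ 2) else 0 := by
  rw [h.mul m (m + l) hm (by omega), ← Finset.sum_filter]
  refine Finset.sum_congr ?_ fun _ _ => rfl
  ext d
  simp only [Nat.mem_divisors, Finset.mem_filter, Nat.dvd_gcd_iff, ne_eq, Nat.gcd_eq_zero_iff]
  constructor
  · rintro ⟨⟨h1, h2⟩, -⟩
    exact ⟨⟨(Nat.dvd_add_right h1).1 h2, by omega⟩, h1⟩
  · rintro ⟨⟨h1, -⟩, h2⟩
    exact ⟨⟨h2, Nat.dvd_add h2 h1⟩, by omega⟩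

theorem pab_div {m n d N : ℕ} (hm : 1 ≤ m) (hn : 1 ≤ n) (h1 : d ∣ m) (h2 : d ∣ n) (hmN : m ≤ N)
    (hnN : n ≤ N) : 1 ≤ m * n / d ^ 2 ∧ ((m * n / d ^ 2 : ℕ) : ℝ) ≤ (N : ℝ) ^ 2 := by
  have hd : d ^ 2 ∣ m * n := by rw [sq]; exact Nat.mul_dvd_mul h1 h2
  have hp : 0 < m * n := Nat.mul_pos hm hn
  refine ⟨Nat.div_pos (Nat.le_of_dvd hp hd) (Nat.pos_of_dvd_of_pos hd hp), ?_⟩
  have : m * n / d ^ 2 ≤ N ^ 2 :=
    le_trans (Nat.div_le_self _ _) (by rw [sq]; exact Nat.mul_le_mul hmN hnN)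
  exact_mod_cast this

theorem pab_card (F : Fa ι c) {n : ℕ} (hn : n ≤ F.N₁) :
    (n.divisors.card : ℝ) * n.divisors.card ≤ F.DD ^ 2 := by
  have h := F.tau n hn
  rw [sq]
  exact mul_self_le_mul_self (Nat.cast_nonneg _) h

/-- PAB.  Paper 7, P1. -/
theorem p1 (F : Fa ι c) {l : ℕ} (hl : 1 ≤ l) (J : Finset ℕ) (hJ : ∀ m ∈ J, 1 ≤ m ∧ m + l ≤ F.N₁)
    (a : ℕ → ℂ) :
    ∑ j ∈ F.s, F.Om j ^ 2 * ‖∑ m ∈ J, a m * ((F.lam j m * F.lam j (m + l) : ℝ) : ℂ)‖ ^ 2 ≤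
      F.DD ^ 2 * F.KK * (∑ m ∈ J, ‖a m‖ ^ 2 + F.ε * (∑ m ∈ J, ‖a m‖) ^ 2) := by
  rcases J.eq_empty_or_nonempty with rfl | ⟨m₀, hm₀⟩
  · simp
  have hlN : l ≤ F.N₁ := by have := (hJ m₀ hm₀).2; omega
  set R : ℝ := ∑ m ∈ J, ‖a m‖ ^ 2 + F.ε * (∑ m ∈ J, ‖a m‖) ^ 2 with hR
  have hR0 : 0 ≤ R := add_nonneg (Finset.sum_nonneg fun _ _ => sq_nonneg _)
    (mul_nonneg F.e0 (sq_nonneg _))
  have e : ∀ j ∈ F.s, ∑ m ∈ J, a m * ((F.lam j m * F.lam j (m + l) : ℝ) : ℂ) =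
      ∑ d ∈ l.divisors, ∑ m ∈ J.filter (d ∣ ·), a m * (F.lam j (m * (m + l) / d ^ 2) : ℂ) := by
    intro j hj
    simp only [Finset.sum_filter]
    rw [Finset.sum_comm]
    refine Finset.sum_congr rfl fun m hm => ?_
    rw [pab_hecke (F.hk j hj) hl (hJ m hm).1, Complex.ofReal_sum, Finset.mul_sum]
    refine Finset.sum_congr rfl fun d _ => ?_
    split_ifs <;> simp
  have b : ∀ d ∈ l.divisors, ∑ j ∈ F.s, F.Om j ^ 2 *
      ‖∑ m ∈ J.filter (d ∣ ·), a m * (F.lam j (m * (m + l) / d ^ 2) : ℂ)‖ ^ 2 ≤ F.KK * R := by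
    intro d hd
    have hdl : d ∣ l := Nat.dvd_of_mem_divisors hd
    refine le_trans (LS.inj F.ls (J.filter (d ∣ ·)) (fun m => m * (m + l) / d ^ 2) ?_ ?_ a) ?_
    · intro m hm m' hm' hh
      have h1 : d ∣ m := (Finset.mem_filter.1 (Finset.mem_coe.1 hm)).2
      have h2 : d ∣ m' := (Finset.mem_filter.1 (Finset.mem_coe.1 hm')).2
      have g1 : d ^ 2 ∣ m * (m + l) := by rw [sq]; exact Nat.mul_dvd_mul h1 (Nat.dvd_add h1 hdl)
      have g2 : d ^ 2 ∣ m' * (m' + l) := by rw [sq]; exact Nat.mul_dvd_mul h2 (Nat.dvd_add h2 hdl)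
      have hh' : m * (m + l) = m' * (m' + l) := by
        rw [← Nat.div_mul_cancel g1, ← Nat.div_mul_cancel g2]
        exact congrArg (· * d ^ 2) hh
      rcases lt_trichotomy m m' with h | h | h
      · exact absurd hh' (ne_of_lt (Nat.mul_lt_mul'' h (by omega)))
      · exact h
      · exact absurd hh' (ne_of_gt (Nat.mul_lt_mul'' h (by omega)))
    · intro m hm
      obtain ⟨hm1, hm2⟩ := Finset.mem_filter.1 hm
      have := hJ m hm1
      exact pab_div this.1 (by omega) hm2 (Nat.dvd_add hm2 hdl) (by omega) this.2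
    · refine mul_le_mul_of_nonneg_left (add_le_add ?_ (mul_le_mul_of_nonneg_left ?_ F.e0)) F.hK
      · exact Finset.sum_le_sum_of_subset_of_nonneg (Finset.filter_subset _ _)
          fun _ _ _ => sq_nonneg _
      · exact pow_le_pow_left₀ (Finset.sum_nonneg fun _ _ => norm_nonneg _)
          (Finset.sum_le_sum_of_subset_of_nonneg (Finset.filter_subset _ _)
            fun _ _ _ => norm_nonneg _) 2
  calc _ ≤ ∑ j ∈ F.s, (l.divisors.card : ℝ) * ∑ d ∈ l.divisors, F.Om j ^ 2 *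
        ‖∑ m ∈ J.filter (d ∣ ·), a m * (F.lam j (m * (m + l) / d ^ 2) : ℂ)‖ ^ 2 := by
        refine Finset.sum_le_sum fun j hj => ?_
        rw [e j hj, ← Finset.mul_sum, mul_left_comm]
        exact mul_le_mul_of_nonneg_left (pab_norm_sq _ _) (sq_nonneg _)
    _ = (l.divisors.card : ℝ) * ∑ d ∈ l.divisors, ∑ j ∈ F.s, F.Om j ^ 2 *
        ‖∑ m ∈ J.filter (d ∣ ·), a m * (F.lam j (m * (m + l) / d ^ 2) : ℂ)‖ ^ 2 := by
        rw [← Finset.mul_sum, Finset.sum_comm]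
    _ ≤ (l.divisors.card : ℝ) * (l.divisors.card * (F.KK * R)) := by
        refine mul_le_mul_of_nonneg_left ?_ (Nat.cast_nonneg _)
        have := Finset.sum_le_card_nsmul _ _ _ b
        rwa [nsmul_eq_mul] at this
    _ ≤ F.DD ^ 2 * F.KK * R := by
        rw [← mul_assoc, mul_assoc (F.DD ^ 2)]
        exact mul_le_mul_of_nonneg_right (F.pab_card hlN) (mul_nonneg F.hK hR0)

theorem pab_one (F : Fa ι c) {k : ℕ} (h1 : 1 ≤ k) (h2 : (k : ℝ) ≤ (F.N₁ : ℝ) ^ 2) :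
    ∑ j ∈ F.s, F.Om j ^ 2 * F.lam j k ^ 2 ≤ 2 * F.KK := by
  have h := F.ls {k} (fun _ => 1) (by simpa only [Finset.mem_singleton, forall_eq] using ⟨h1, h2⟩)
  simp only [Finset.sum_singleton, one_mul, Complex.norm_real, Real.norm_eq_abs, sq_abs, norm_one,
    one_pow, mul_one] at h
  refine le_trans h ?_
  have := mul_le_mul_of_nonneg_left F.e1 F.hK
  linarith only [this]

/-- PAB.  Paper 7, P2 (also for `n = 0`). -/
theorem p2 (F : Fa ι c) {m n : ℕ} (hm : m ≤ F.N₁) (hn : n ≤ F.N₁) :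
    ∑ j ∈ F.s, F.Om j ^ 2 * (F.lam j m * F.lam j n) ^ 2 ≤ 2 * F.DD ^ 2 * F.KK := by
  have h0 : 0 ≤ 2 * F.DD ^ 2 * F.KK := mul_nonneg (by positivity) F.hK
  rcases Nat.eq_zero_or_pos m with rfl | hm0
  · refine le_trans (le_of_eq (Finset.sum_eq_zero fun j hj => ?_)) h0
    rw [(F.hk j hj).zero]; ring
  rcases Nat.eq_zero_or_pos n with rfl | hn0
  · refine le_trans (le_of_eq (Finset.sum_eq_zero fun j hj => ?_)) h0
    rw [(F.hk j hj).zero]; ring
  have hg : Nat.gcd m n ≤ F.N₁ := le_trans (Nat.gcd_le_left n hm0) hm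
  calc _ ≤ ∑ j ∈ F.s, ((Nat.gcd m n).divisors.card : ℝ) * ∑ d ∈ (Nat.gcd m n).divisors,
        F.Om j ^ 2 * F.lam j (m * n / d ^ 2) ^ 2 := by
        refine Finset.sum_le_sum fun j hj => ?_
        rw [(F.hk j hj).mul m n hm0 hn0, ← Finset.mul_sum, mul_left_comm]
        exact mul_le_mul_of_nonneg_left sq_sum_le_card_mul_sum_sq (sq_nonneg _)
    _ = ((Nat.gcd m n).divisors.card : ℝ) * ∑ d ∈ (Nat.gcd m n).divisors, ∑ j ∈ F.s,
        F.Om j ^ 2 * F.lam j (m * n / d ^ 2) ^ 2 := by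
        rw [← Finset.mul_sum, Finset.sum_comm]
    _ ≤ ((Nat.gcd m n).divisors.card : ℝ) * ((Nat.gcd m n).divisors.card * (2 * F.KK)) := by
        refine mul_le_mul_of_nonneg_left ?_ (Nat.cast_nonneg _)
        have := Finset.sum_le_card_nsmul (Nat.gcd m n).divisors (fun d => ∑ j ∈ F.s,
          F.Om j ^ 2 * F.lam j (m * n / d ^ 2) ^ 2) (2 * F.KK) fun d hd => by
            have hd' := Nat.dvd_gcd_iff.1 (Nat.dvd_of_mem_divisors hd)
            have := pab_div hm0 hn0 hd'.1 hd'.2 hm hn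
            exact F.pab_one this.1 this.2
        rwa [nsmul_eq_mul] at this
    _ ≤ F.DD ^ 2 * (2 * F.KK) := by
        rw [← mul_assoc]
        exact mul_le_mul_of_nonneg_right (F.pab_card hg) (mul_nonneg zero_le_two F.hK)
    _ = _ := by ring

/-- PAB. -/
theorem p4 (F : Fa ι c) {n₁ n₂ n₃ n₄ : ℕ} (h₁ : n₁ ≤ F.N₁) (h₂ : n₂ ≤ F.N₁) (h₃ : n₃ ≤ F.N₁)
    (h₄ : n₄ ≤ F.N₁) :
    ∑ j ∈ F.s, F.Om j ^ 4 * |F.lam j n₁ * F.lam j n₂ * F.lam j n₃ * F.lam j n₄| ≤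
      2 * F.W * F.DD ^ 2 * F.KK := by
  have hW : 0 ≤ F.W := le_trans zero_le_one F.hW
  have a := F.p2 h₁ h₂
  have b := F.p2 h₃ h₄
  calc _ ≤ ∑ j ∈ F.s, F.W / 2 * (F.Om j ^ 2 * (F.lam j n₁ * F.lam j n₂) ^ 2 +
        F.Om j ^ 2 * (F.lam j n₃ * F.lam j n₄) ^ 2) := by
        refine Finset.sum_le_sum fun j hj => ?_
        have ho : F.Om j ^ 2 ≤ F.W := F.om j hj
        have e : |F.lam j n₁ * F.lam j n₂ * F.lam j n₃ * F.lam j n₄| ≤
            ((F.lam j n₁ * F.lam j n₂) ^ 2 + (F.lam j n₃ * F.lam j n₄) ^ 2) / 2 := by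
          rw [mul_assoc (F.lam j n₁ * F.lam j n₂), abs_le]
          constructor
          · linarith only [sq_nonneg (F.lam j n₁ * F.lam j n₂ + F.lam j n₃ * F.lam j n₄)]
          · linarith only [sq_nonneg (F.lam j n₁ * F.lam j n₂ - F.lam j n₃ * F.lam j n₄)]
        calc _ = F.Om j ^ 2 * (F.Om j ^ 2 *
              |F.lam j n₁ * F.lam j n₂ * F.lam j n₃ * F.lam j n₄|) := by ring
          _ ≤ F.W * (F.Om j ^ 2 *
              (((F.lam j n₁ * F.lam j n₂) ^ 2 + (F.lam j n₃ * F.lam j n₄) ^ 2) / 2)) :=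
            mul_le_mul ho (mul_le_mul_of_nonneg_left e (sq_nonneg _))
              (mul_nonneg (sq_nonneg _) (abs_nonneg _)) hW
          _ = _ := by ring
    _ ≤ F.W / 2 * (2 * F.DD ^ 2 * F.KK + 2 * F.DD ^ 2 * F.KK) := by
        rw [← Finset.mul_sum, Finset.sum_add_distrib]
        exact mul_le_mul_of_nonneg_left (add_le_add a b) (by positivity)
    _ = _ := by ring

/-- PAB.  Sums of squares with small coefficients. -/
theorem p5 (F : Fa ι c) (J : Finset ℕ) (hJ : ∀ m ∈ J, m ≤ F.N₁) {e : ℝ} (he : 0 ≤ e)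
    {a : ι → ℕ → ℝ} (h0 : ∀ j ∈ F.s, ∀ m ∈ J, 0 ≤ a j m)
    (ha : ∀ j ∈ F.s, ∀ m ∈ J, a j m ≤ F.Om j ^ 2 * F.lam j m ^ 2 * e) :
    ∑ j ∈ F.s, (∑ m ∈ J, a j m) ^ 2 ≤ 2 * F.W * F.DD ^ 2 * F.KK * (J.card * e) ^ 2 := by
  calc _ ≤ ∑ j ∈ F.s, (J.card : ℝ) * ∑ m ∈ J, e ^ 2 *
        (F.Om j ^ 4 * |F.lam j m * F.lam j m * F.lam j m * F.lam j m|) := by
        refine Finset.sum_le_sum fun j hj => le_trans sq_sum_le_card_mul_sum_sq ?_
        refine mul_le_mul_of_nonneg_left (Finset.sum_le_sum fun m hm => ?_) (Nat.cast_nonneg _)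
        refine le_trans (pow_le_pow_left₀ (h0 j hj m hm) (ha j hj m hm) 2) (le_of_eq ?_)
        have : 0 ≤ F.lam j m * F.lam j m * F.lam j m * F.lam j m := by
          rw [mul_assoc (F.lam j m * F.lam j m)]; exact mul_self_nonneg _
        rw [abs_of_nonneg this]; ring
    _ = (J.card : ℝ) * ∑ m ∈ J, e ^ 2 * ∑ j ∈ F.s,
        F.Om j ^ 4 * |F.lam j m * F.lam j m * F.lam j m * F.lam j m| := by
        rw [← Finset.mul_sum, Finset.sum_comm]
        simp only [Finset.mul_sum]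
    _ ≤ (J.card : ℝ) * (J.card * (e ^ 2 * (2 * F.W * F.DD ^ 2 * F.KK))) := by
        refine mul_le_mul_of_nonneg_left ?_ (Nat.cast_nonneg _)
        have := Finset.sum_le_card_nsmul J (fun m => e ^ 2 * ∑ j ∈ F.s,
          F.Om j ^ 4 * |F.lam j m * F.lam j m * F.lam j m * F.lam j m|)
          (e ^ 2 * (2 * F.W * F.DD ^ 2 * F.KK)) fun m hm =>
            mul_le_mul_of_nonneg_left (F.p4 (hJ m hm) (hJ m hm) (hJ m hm) (hJ m hm)) (sq_nonneg _)
        rwa [nsmul_eq_mul] at this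
    _ = _ := by ring

theorem pab_basel (n : ℕ) : ∑ k ∈ Finset.Icc 1 (n + 1), (1 / (k : ℝ)) ^ 2 ≤ 2 - 1 / (n + 1 : ℝ) := by
  induction n with
  | zero => norm_num
  | succ n ih =>
    rw [Finset.sum_Icc_succ_top (by omega)]
    have h : (0 : ℝ) < n + 1 := by positivity
    have e : (1 / ((n + 1 + 1 : ℕ) : ℝ)) ^ 2 ≤ 1 / (n + 1 : ℝ) - 1 / ((n + 1 : ℕ) + 1 : ℝ) := by
      push_cast
      rw [div_sub_div _ _ h.ne' (by positivity), div_pow, div_le_div_iff₀ (by positivity)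
        (by positivity)]
      linarith only []
    linarith

/-- PAB.  `LS.inj` for `k ↦ k ^ 2`. -/
theorem p9b (hc : 1 ≤ c) (F : Fa ι c) {Q d Δ : ℝ} {N H : ℕ} {A : ℝ → ℝ} (h : F.Par Q d Δ N H A) :
    ∑ j ∈ F.s, F.Om j ^ 4 * F.LL H j ^ 2 ≤ 200 * c ^ 2 * F.W * F.KK := by
  have hW : 0 ≤ F.W := le_trans zero_le_one F.hW
  have hT := F.hT
  have hQ := h.q2
  have hQ4 : (1 : ℝ) ≤ Q ^ 4 := one_le_pow₀ (by linarith)
  have hd2 : d ^ 2 ≤ 1 := pow_le_one₀ h.d0.le h.d1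
  have hH0 : (0 : ℝ) ≤ H := Nat.cast_nonneg _
  have hHT : (H : ℝ) ≤ F.T := by
    have a1 : (H : ℝ) ≤ H * Q ^ 4 := le_mul_of_one_le_right hH0 hQ4
    have a2 : d ^ 2 * F.T ≤ F.T := mul_le_of_le_one_left (by linarith) hd2
    linarith [h.h2]
  have hHN : (H : ℝ) ≤ F.N₁ := by
    have : F.T ≤ 2 * c * F.T := le_mul_of_one_le_left (by linarith) (by linarith)
    linarith [F.n0]
  have hQ0 : 0 < Q := by linarith
  have hH1 : 1 ≤ H := by
    rcases Nat.eq_zero_or_pos H with rfl | h1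
    · have := h.h1
      have : 0 < Q ^ 14 * F.T := mul_pos (pow_pos hQ0 _) (by linarith)
      simp only [Nat.cast_zero] at *
      linarith
    · exact h1
  have hε : F.ε * Q ^ 2 ≤ 1 := by
    have a1 : F.T ≤ (H : ℝ) ^ 2 :=
      le_trans (le_mul_of_one_le_left (by linarith only [hT]) (one_le_pow₀ (by linarith only [hQ]))) h.h1
    have a2 : F.ε * Q ^ 2 * F.T ≤ F.ε * Q ^ 2 * (H : ℝ) ^ 2 :=
      mul_le_mul_of_nonneg_left a1 (mul_nonneg F.e0 (sq_nonneg _))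
    have a3 : F.ε * Q ^ 2 * F.T ≤ 1 * F.T := by linarith only [h.h3, a2]
    exact le_of_mul_le_mul_right a3 (by linarith only [hT])
  have hS : ∑ k ∈ Finset.Icc 1 H, (1 / k : ℝ) ≤ Q := by
    have a1 : Real.log H ≤ Real.log F.T :=
      Real.log_le_log (by exact_mod_cast hH1) hHT
    linarith only [sum_inv_le H, F.lg, h.ddq, a1]
  have hB : ∑ k ∈ Finset.Icc 1 H, (1 / (k : ℝ)) ^ 2 ≤ 2 := by
    obtain ⟨n, rfl⟩ : ∃ n, H = n + 1 := ⟨H - 1, by omega⟩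
    have : (0 : ℝ) ≤ 1 / (n + 1 : ℝ) := by positivity
    linarith only [pab_basel n, this]
  have L := LS.inj F.ls (Finset.Icc 1 H) (fun k => k ^ 2)
    (fun a _ b _ hab => Nat.pow_left_injective two_ne_zero hab)
    (fun k hk => by
      obtain ⟨h1, h2⟩ := Finset.mem_Icc.1 hk
      refine ⟨Nat.one_le_pow _ _ h1, ?_⟩
      push_cast
      exact pow_le_pow_left₀ (Nat.cast_nonneg _) (le_trans (by exact_mod_cast h2) hHN) 2)
    (fun k => ((1 / k : ℝ) : ℂ))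
  have n1 : ∀ k : ℕ, ‖((1 / k : ℝ) : ℂ)‖ = 1 / (k : ℝ) := fun k => by
    rw [Complex.norm_real, Real.norm_eq_abs, abs_of_nonneg (by positivity)]
  have n2 : ∀ j, ‖∑ k ∈ Finset.Icc 1 H, ((1 / k : ℝ) : ℂ) * (F.lam j (k ^ 2) : ℂ)‖ ^ 2 =
      F.LL H j ^ 2 := fun j => by
    have : ∑ k ∈ Finset.Icc 1 H, ((1 / k : ℝ) : ℂ) * (F.lam j (k ^ 2) : ℂ) = (F.LL H j : ℝ) := by
      rw [LL, Complex.ofReal_sum]
      refine Finset.sum_congr rfl fun k _ => ?_
      rw [← Complex.ofReal_mul]; congr 1; ring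
    rw [this, Complex.norm_real, Real.norm_eq_abs, sq_abs]
  simp only [n1, n2] at L
  have hE : F.ε * (∑ k ∈ Finset.Icc 1 H, (1 / k : ℝ)) ^ 2 ≤ 1 :=
    le_trans (mul_le_mul_of_nonneg_left
      (pow_le_pow_left₀ (Finset.sum_nonneg fun _ _ => by positivity) hS 2) F.e0) hε
  calc _ ≤ ∑ j ∈ F.s, F.W * (F.Om j ^ 2 * F.LL H j ^ 2) := by
        refine Finset.sum_le_sum fun j hj => ?_
        have ho : F.Om j ^ 2 ≤ F.W := F.om j hj
        calc _ = F.Om j ^ 2 * (F.Om j ^ 2 * F.LL H j ^ 2) := by ring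
          _ ≤ _ := mul_le_mul_of_nonneg_right ho (by positivity)
    _ ≤ F.W * (F.KK * 3) := by
        rw [← Finset.mul_sum]
        refine mul_le_mul_of_nonneg_left (le_trans L ?_) hW
        exact mul_le_mul_of_nonneg_left (by linarith only [hB, hE]) F.hK
    _ = 3 * (F.W * F.KK) := by ring
    _ ≤ 200 * c ^ 2 * (F.W * F.KK) :=
        mul_le_mul_of_nonneg_right (by nlinarith only [hc]) (mul_nonneg hW F.hK)
    _ = _ := by ring

theorem pac_sx (F : Fa ι c) (A : ℝ → ℝ) {J : Finset ℕ} (j : ι) {n : ℤ} (hn : n.natAbs ∈ J) :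
    ∃ C : Bool → ℂ, ‖C true‖ + ‖C false‖ = F.Om j ∧ ∀ r, sx J (F.al A j r) n =
      ((F.lam j n.natAbs * A (r + Real.log n) : ℝ) : ℂ) *
        (C true * ci (F.t j * (1 * FF (r + Real.log n))) +
          C false * ci (F.t j * (-1 * FF (r + Real.log n)))) := by
  have hl : Real.log (n.natAbs : ℝ) = Real.log n := by
    rw [Nat.cast_natAbs, Int.cast_abs, Real.log_abs]
  by_cases h : 0 < n
  · refine ⟨fun b => if b then F.Cp j else F.Cm j, rfl, fun r => ?_⟩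
    rw [sx, if_pos hn, if_pos h, al, wk, hl, one_mul, neg_one_mul, mul_neg]
    rfl
  · refine ⟨fun b => if b then conj (F.Cm j) else conj (F.Cp j), ?_, fun r => ?_⟩
    · change ‖conj (F.Cm j)‖ + ‖conj (F.Cp j)‖ = _
      rw [Complex.norm_conj, Complex.norm_conj, Om, add_comm]
    · rw [sx, if_pos hn, if_neg h, al, wk, hl, one_mul, neg_one_mul, mul_neg, map_mul, map_add,
        map_mul, map_mul, conj_ofReal, conj_ci, conj_ci, neg_neg, add_comm (conj (F.Cp j) * _)]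
      rfl

theorem pac_four {T : ℝ} {V A : ℝ → ℝ} (hc : 1 ≤ c) (hT : 1 ≤ T) (hV : Vw c T V)
    (hA : Continuous A) (t n₁ n₂ n₃ n₄ l₁ l₂ l₃ l₄ : ℝ) (C₁ C₂ C₃ C₄ : Bool → ℂ) {B : ℝ}
    (hb : ∀ s₁ s₂ s₃ s₄ : ℝ, Sg s₁ → Sg s₂ → Sg s₃ → Sg s₄ →
      ‖JJ V A t n₁ n₂ n₃ n₄ s₁ s₂ s₃ s₄‖ ≤ B) :
    ‖∫ r, (V r : ℂ) *
      (((l₁ * A (r + Real.log n₁) : ℝ) : ℂ) * (C₁ true * ci (t * (1 * FF (r + Real.log n₁))) +
          C₁ false * ci (t * (-1 * FF (r + Real.log n₁)))) *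
        (((l₂ * A (r + Real.log n₂) : ℝ) : ℂ) * (C₂ true * ci (t * (1 * FF (r + Real.log n₂))) +
          C₂ false * ci (t * (-1 * FF (r + Real.log n₂))))) *
        (((l₃ * A (r + Real.log n₃) : ℝ) : ℂ) * (C₃ true * ci (t * (1 * FF (r + Real.log n₃))) +
          C₃ false * ci (t * (-1 * FF (r + Real.log n₃))))) *
        (((l₄ * A (r + Real.log n₄) : ℝ) : ℂ) * (C₄ true * ci (t * (1 * FF (r + Real.log n₄))) +
          C₄ false * ci (t * (-1 * FF (r + Real.log n₄))))))‖ ≤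
      (‖C₁ true‖ + ‖C₁ false‖) * (‖C₂ true‖ + ‖C₂ false‖) * (‖C₃ true‖ + ‖C₃ false‖) *
        (‖C₄ true‖ + ‖C₄ false‖) * |l₁ * l₂ * l₃ * l₄| * B := by
  let sg : Bool → ℝ := fun b => if b then 1 else -1
  have hsg : ∀ b, Sg (sg b) := fun b => by
    cases b
    · exact Or.inr rfl
    · exact Or.inl rfl
  have s1 : sg true = 1 := rfl
  have s0 : sg false = -1 := rfl
  let K : Bool × Bool × Bool × Bool → ℂ := fun p =>
    ((l₁ * l₂ * l₃ * l₄ : ℝ) : ℂ) * (C₁ p.1 * C₂ p.2.1 * C₃ p.2.2.1 * C₄ p.2.2.2)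
  let f : Bool × Bool × Bool × Bool → ℝ → ℂ := fun p r =>
    ((V r * (A (r + Real.log n₁) * A (r + Real.log n₂) * A (r + Real.log n₃) *
      A (r + Real.log n₄)) : ℝ) : ℂ) *
    ci (t * (sg p.1 * FF (r + Real.log n₁) + sg p.2.1 * FF (r + Real.log n₂) +
      sg p.2.2.1 * FF (r + Real.log n₃) + sg p.2.2.2 * FF (r + Real.log n₄)))
  have hF := continuous_FF
  have hci := continuous_ci
  have hf : ∀ p, Integrable (f p) := fun p => by
    have hg : Continuous fun r => ((A (r + Real.log n₁) * A (r + Real.log n₂) *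
        A (r + Real.log n₃) * A (r + Real.log n₄) : ℝ) : ℂ) *
        ci (t * (sg p.1 * FF (r + Real.log n₁) + sg p.2.1 * FF (r + Real.log n₂) +
        sg p.2.2.1 * FF (r + Real.log n₃) + sg p.2.2.2 * FF (r + Real.log n₄))) := by fun_prop
    refine (hV.int hc hT hg).congr (Filter.Eventually.of_forall fun r => ?_)
    change _ • _ = _ * _
    rw [real_smul, ← mul_assoc, ← ofReal_mul]
  have hJ : ∀ p, ‖∫ r, f p r‖ ≤ B := fun p => hb _ _ _ _ (hsg _) (hsg _) (hsg _) (hsg _)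
  have e : (fun r => (V r : ℂ) *
      (((l₁ * A (r + Real.log n₁) : ℝ) : ℂ) * (C₁ true * ci (t * (1 * FF (r + Real.log n₁))) +
          C₁ false * ci (t * (-1 * FF (r + Real.log n₁)))) *
        (((l₂ * A (r + Real.log n₂) : ℝ) : ℂ) * (C₂ true * ci (t * (1 * FF (r + Real.log n₂))) +
          C₂ false * ci (t * (-1 * FF (r + Real.log n₂))))) *
        (((l₃ * A (r + Real.log n₃) : ℝ) : ℂ) * (C₃ true * ci (t * (1 * FF (r + Real.log n₃))) +
          C₃ false * ci (t * (-1 * FF (r + Real.log n₃))))) *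
        (((l₄ * A (r + Real.log n₄) : ℝ) : ℂ) * (C₄ true * ci (t * (1 * FF (r + Real.log n₄))) +
          C₄ false * ci (t * (-1 * FF (r + Real.log n₄))))))) =
      fun r => ∑ p, K p * f p r := by
    funext r
    simp only [K, f, Fintype.sum_prod_type, Fintype.sum_bool, s1, s0, mul_add t, ci_add,
      ofReal_mul]
    ring
  rw [e, integral_finsetSum _ fun p _ => (hf p).const_mul _]
  refine (norm_sum_le _ _).trans ?_
  have h2 : ∀ p ∈ (Finset.univ : Finset (Bool × Bool × Bool × Bool)),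
      ‖∫ r, K p * f p r‖ ≤ ‖K p‖ * B := fun p _ => by
    rw [integral_const_mul, norm_mul]
    exact mul_le_mul_of_nonneg_left (hJ p) (norm_nonneg _)
  refine (Finset.sum_le_sum h2).trans (le_of_eq ?_)
  have h3 : ∀ p, ‖K p‖ = |l₁ * l₂ * l₃ * l₄| *
      (‖C₁ p.1‖ * ‖C₂ p.2.1‖ * ‖C₃ p.2.2.1‖ * ‖C₄ p.2.2.2‖) := fun p => by
    change ‖_ * (_ * _ * _ * _)‖ = _
    rw [norm_mul, norm_mul, norm_mul, norm_mul, norm_real, Real.norm_eq_abs]
  simp only [h3, Fintype.sum_prod_type, Fintype.sum_bool]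
  ring

/-- PAC.  A four-fold product of coefficients is a sum of sixteen integrals `JJ`: for `n ≠ 0`,
`sx J (al A j r) n = lam |n| * A (r + log n) * (C₁ ci (t FF) + C₂ ci (- t FF))` with
`‖C₁‖, ‖C₂‖ ≤ Om`, `‖C₁‖ + ‖C₂‖ = Om`. -/
theorem q4_le (hc : 1 ≤ c) (F : Fa ι c) {A : ℝ → ℝ} (hA : Continuous A) {J : Finset ℕ}
    (hJ : ∀ n ∈ J, 1 ≤ n) {j : ι} (hj : j ∈ F.s) (x : ℤ × ℤ × ℤ) {B : ℝ} (hB : 0 ≤ B)
    (hb : x.1.natAbs ∈ J → x.2.1.natAbs ∈ J → x.2.2.natAbs ∈ J →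
      (-x.1 - x.2.1 - x.2.2).natAbs ∈ J → ∀ s₁ s₂ s₃ s₄ : ℝ, Sg s₁ → Sg s₂ → Sg s₃ → Sg s₄ →
      ‖JJ (F.V j) A (F.t j) x.1 x.2.1 x.2.2 (-x.1 - x.2.1 - x.2.2) s₁ s₂ s₃ s₄‖ ≤ B) :
    ‖∫ r, (F.V j r : ℂ) * q4 J (F.al A j r) x‖ ≤
      if (-x.1 - x.2.1 - x.2.2).natAbs ∈ J then
        F.Om j ^ 4 * |F.lam j x.1.natAbs * F.lam j x.2.1.natAbs * F.lam j x.2.2.natAbs *
          F.lam j (-x.1 - x.2.1 - x.2.2).natAbs| * B else 0 := by
  by_cases hall : x.1.natAbs ∈ J ∧ x.2.1.natAbs ∈ J ∧ x.2.2.natAbs ∈ J ∧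
      (-x.1 - x.2.1 - x.2.2).natAbs ∈ J
  · obtain ⟨h1, h2, h3, h4⟩ := hall
    obtain ⟨C₁, o₁, e₁⟩ := pac_sx F A j h1
    obtain ⟨C₂, o₂, e₂⟩ := pac_sx F A j h2
    obtain ⟨C₃, o₃, e₃⟩ := pac_sx F A j h3
    obtain ⟨C₄, o₄, e₄⟩ := pac_sx F A j h4
    have ec : ((-x.1 - x.2.1 - x.2.2 : ℤ) : ℝ) = -x.1 - x.2.1 - x.2.2 := by push_cast; rfl
    rw [ec] at e₄
    have h := pac_four hc F.hT (F.vw j hj) hA (F.t j) x.1 x.2.1 x.2.2 (-x.1 - x.2.1 - x.2.2)
      (F.lam j x.1.natAbs) (F.lam j x.2.1.natAbs) (F.lam j x.2.2.natAbs)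
      (F.lam j (-x.1 - x.2.1 - x.2.2).natAbs) C₁ C₂ C₃ C₄ (hb h1 h2 h3 h4)
    rw [o₁, o₂, o₃, o₄] at h
    rw [if_pos h4]
    simp only [q4, e₁, e₂, e₃, e₄]
    refine h.trans (le_of_eq ?_)
    ring
  · have h0 : ∀ r, q4 J (F.al A j r) x = 0 := fun r => by
      by_contra hne
      rw [q4] at hne
      have h : ∀ n : ℤ, sx J (F.al A j r) n ≠ 0 → n.natAbs ∈ J := fun n hn => by
        by_contra h'
        exact hn (by rw [sx, if_neg h'])
      exact hall ⟨h _ (left_ne_zero_of_mul (left_ne_zero_of_mul (left_ne_zero_of_mul hne))),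
        h _ (right_ne_zero_of_mul (left_ne_zero_of_mul (left_ne_zero_of_mul hne))),
        h _ (right_ne_zero_of_mul (left_ne_zero_of_mul hne)), h _ (right_ne_zero_of_mul hne)⟩
    simp only [h0, mul_zero, integral_zero, norm_zero]
    split_ifs
    · exact mul_nonneg (mul_nonneg (pow_nonneg (F.Om_nonneg j) _) (abs_nonneg _)) hB
    · exact le_rfl

/-- PAC.  A product of two terms `xx` is one integral `JJ`. -/
theorem xx_eq (F : Fa ι c) (A : ℝ → ℝ) (σ : ℝ) (j : ι) (l m m' : ℕ) :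
    ∫ r, (F.V j r : ℂ) * (F.xx A σ j r l m * conj (F.xx A σ j r l m')) =
      ((F.lam j m * F.lam j (m + l) * F.lam j m' * F.lam j (m' + l) : ℝ) : ℂ) *
        JJ (F.V j) A (F.t j) (m + l) (-m) (-(m' + l)) m' 1 σ (-1) (-σ) := by
  rw [JJ, ← integral_const_mul]
  refine integral_congr_ae (Filter.Eventually.of_forall fun r => ?_)
  have e : ci (F.t j * (1 * FF (r + Real.log (m + l)) + σ * FF (r + Real.log m) +
      -1 * FF (r + Real.log (m' + l)) + -σ * FF (r + Real.log m'))) =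
      ci (F.t j * (FF (r + Real.log (m + l)) + σ * FF (r + Real.log m))) *
        ci (-(F.t j * (FF (r + Real.log (m' + l)) + σ * FF (r + Real.log m')))) := by
    rw [← ci_add]
    congr 1
    ring
  simp only [xx, map_mul, conj_ofReal, conj_ci, Real.log_neg_eq_log, Nat.cast_add, e, ofReal_mul]
  ring

theorem pac_bt (F : Fa ι c) (A : ℝ → ℝ) (J : Finset ℕ) (j : ι) (r : ℝ) (l : ℕ) :
    bt J (F.al A j r) l =
      F.Cp j * conj (F.Cp j) * (∑ m ∈ sh J l, F.xx A (-1) j r l m) +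
      F.Cm j * conj (F.Cm j) * conj (∑ m ∈ sh J l, F.xx A (-1) j r l m) +
      (F.Cp j * conj (F.Cm j) * (∑ m ∈ sh J l, F.xx A 1 j r l m) +
      F.Cm j * conj (F.Cp j) * conj (∑ m ∈ sh J l, F.xx A 1 j r l m)) := by
  rw [bt, map_sum, map_sum, Finset.mul_sum, Finset.mul_sum, Finset.mul_sum, Finset.mul_sum,
    ← Finset.sum_add_distrib, ← Finset.sum_add_distrib, ← Finset.sum_add_distrib]
  refine Finset.sum_congr rfl fun m _ => ?_
  simp only [al, xx, wk, map_mul, map_add, conj_ofReal, conj_ci, mul_add (F.t j), ci_add, one_mul,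
    neg_one_mul, mul_neg, neg_neg, ofReal_mul]
  ring

theorem pac_norm (u v z : ℂ) :
    ‖u * conj v * z‖ = ‖u‖ * ‖v‖ * ‖z‖ ∧ ‖u * conj v * conj z‖ = ‖u‖ * ‖v‖ * ‖z‖ := by
  constructor <;> simp only [norm_mul, Complex.norm_conj]

theorem pac_fast (F : Fa ι c) (j : ι) (z : ℂ) :
    ‖F.Cp j * conj (F.Cm j) * z + F.Cm j * conj (F.Cp j) * conj z‖ ≤ F.Om j ^ 2 * ‖z‖ := by
  refine (norm_add_le _ _).trans ?_
  rw [(pac_norm _ _ _).1, (pac_norm _ _ _).2, ← add_mul, Om]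
  refine mul_le_mul_of_nonneg_right ?_ (norm_nonneg _)
  linarith only [sq_nonneg ‖F.Cp j‖, sq_nonneg ‖F.Cm j‖]

/-- PAC.  `bt` in terms of the fast and the slow sums. -/
theorem bt_le (F : Fa ι c) (A : ℝ → ℝ) (J : Finset ℕ) (j : ι) (r : ℝ) (l : ℕ) :
    ‖bt J (F.al A j r) l‖ ^ 2 ≤ 2 * F.Om j ^ 4 *
      (‖∑ m ∈ sh J l, F.xx A 1 j r l m‖ ^ 2 + ‖∑ m ∈ sh J l, F.xx A (-1) j r l m‖ ^ 2) := by
  rw [pac_bt]
  generalize (∑ m ∈ sh J l, F.xx A 1 j r l m) = X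
  generalize (∑ m ∈ sh J l, F.xx A (-1) j r l m) = Y
  have h1 := pac_fast F j X
  have h2 : ‖F.Cp j * conj (F.Cp j) * Y + F.Cm j * conj (F.Cm j) * conj Y‖ ≤
      F.Om j ^ 2 * ‖Y‖ := by
    refine (norm_add_le _ _).trans ?_
    rw [(pac_norm _ _ _).1, (pac_norm _ _ _).2, ← add_mul, ← sq, ← sq]
    exact mul_le_mul_of_nonneg_right (F.om2_le j).2 (norm_nonneg _)
  have h3 := (norm_add_le _ _).trans (add_le_add h2 h1)
  refine (pow_le_pow_left₀ (norm_nonneg _) h3 2).trans ?_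
  have h4 : 0 ≤ F.Om j ^ 4 * (‖X‖ - ‖Y‖) ^ 2 :=
    mul_nonneg (pow_nonneg (F.Om_nonneg j) _) (sq_nonneg _)
  have h5 : 2 * F.Om j ^ 4 * (‖X‖ ^ 2 + ‖Y‖ ^ 2) - (F.Om j ^ 2 * ‖Y‖ + F.Om j ^ 2 * ‖X‖) ^ 2 =
      F.Om j ^ 4 * (‖X‖ - ‖Y‖) ^ 2 := by ring
  linarith only [h4]

/-- PAC. -/
theorem sq_sub_le (F : Fa ι c) (A : ℝ → ℝ) (J : Finset ℕ) (j : ι) (r : ℝ) :
    |∑ n ∈ J, ‖F.al A j r n‖ ^ 2 - F.om2 j * F.Dm A J j r| ≤
      F.Om j ^ 2 * ‖∑ m ∈ sh J 0, F.xx A 1 j r 0 m‖ := by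
  have hs : sh J 0 = J := Finset.filter_true_of_mem fun m hm => hm
  have h := pac_bt F A J j r 0
  have h1 : bt J (F.al A j r) 0 = ((∑ n ∈ J, ‖F.al A j r n‖ ^ 2 : ℝ) : ℂ) := by
    rw [bt, hs, ofReal_sum]
    refine Finset.sum_congr rfl fun m _ => ?_
    rw [add_zero, mul_conj, normSq_eq_norm_sq]
  have h2 : ∑ m ∈ sh J 0, F.xx A (-1) j r 0 m = ((F.Dm A J j r : ℝ) : ℂ) := by
    rw [hs, Dm, ofReal_sum]
    refine Finset.sum_congr rfl fun m _ => ?_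
    rw [xx, add_zero, neg_one_mul, add_neg_cancel, mul_zero, ci_zero, mul_one, sq, sq]
  rw [h1, h2, conj_ofReal, mul_conj, mul_conj, normSq_eq_norm_sq, normSq_eq_norm_sq] at h
  refine le_trans (le_of_eq ?_) (pac_fast F j _)
  rw [← Real.norm_eq_abs, ← norm_real, ofReal_sub, h, om2]
  congr 1
  push_cast
  ring

end Fa

/-- PAD.  `X min (X / H², (Y / X)²)`, split at `X = Q ^ 6 T`. -/
theorem wt_split {Q T H X w : ℝ} (hQ : 1 ≤ Q) (hT : 1 ≤ T) (hH : 0 < H) (h1 : Q ^ 14 * T ≤ H ^ 2)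
    (hX : 0 < X) (hw : w ≤ X / H ^ 2) (hw1 : w ≤ 1) {B : ℝ} (hB0 : 0 ≤ B) (hB : B ≤ 1)
    (hB' : B ≤ (Q ^ 2 * T / X) ^ 2) : w * B ≤ T / Q ^ 2 / X := by
  have hQ0 : 0 < Q := lt_of_lt_of_le one_pos hQ
  have hT0 : 0 < T := lt_of_lt_of_le one_pos hT
  rcases le_total X (Q ^ 6 * T) with h | h
  · have e1 : w * B ≤ X / H ^ 2 :=
      (mul_le_mul_of_nonneg_right hw hB0).trans (mul_le_of_le_one_right (by positivity) hB)
    refine e1.trans ?_
    rw [div_div, div_le_div_iff₀ (by positivity) (by positivity)]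
    calc X * (Q ^ 2 * X) ≤ (Q ^ 6 * T) * (Q ^ 2 * (Q ^ 6 * T)) := by gcongr
      _ = T * (Q ^ 14 * T) := by ring
      _ ≤ T * H ^ 2 := by gcongr
  · have e1 : w * B ≤ (Q ^ 2 * T / X) ^ 2 := (mul_le_of_le_one_left hB0 hw1).trans hB'
    refine e1.trans ?_
    rw [div_pow, div_div, div_le_div_iff₀ (by positivity) (by positivity)]
    calc (Q ^ 2 * T) ^ 2 * (Q ^ 2 * X) = T * ((Q ^ 6 * T) * X) := by ring
      _ ≤ T * (X * X) := by gcongr
      _ = T * X ^ 2 := by ring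

theorem pad_wt {H : ℝ} (hH : 0 < H) (x : ℝ) : 0 ≤ wt H x ∧ wt H x ≤ 1 ∧ wt H x ≤ |x| / H :=
  ⟨le_min zero_le_one (div_nonneg (abs_nonneg _) hH.le), min_le_left _ _, min_le_right _ _⟩

theorem pad_two {H u v a b e : ℝ} (ha : 0 ≤ a) (hb : 0 ≤ b) (he : e ≤ 1)
    (hu : a ≤ |u| / H) (hv : b ≤ |v| / H) : a * b * e ≤ |u * v| / H ^ 2 := by
  refine (mul_le_of_le_one_right (mul_nonneg ha hb) he).trans ?_
  rw [abs_mul, sq, ← div_mul_div_comm]
  exact mul_le_mul hu hv hb (ha.trans hu)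

/-- the weight times the smaller of the two bounds -/
theorem pad_pt {Q T H u v w : ℝ} (hQ : 1 ≤ Q) (hT : 1 ≤ T) (hH : 0 < H) (h1 : Q ^ 14 * T ≤ H ^ 2)
    (hP : 0 < min |u * v| (min |u * w| |v * w|)) :
    wt H u * wt H v * wt H w * min 1 ((Q ^ 2 * T / min |u * v| (min |u * w| |v * w|)) ^ 2) ≤
      T / Q ^ 2 * (1 / |u * v| + 1 / |u * w| + 1 / |v * w|) := by
  obtain ⟨u0, u1, u2⟩ := pad_wt hH u
  obtain ⟨v0, v1, v2⟩ := pad_wt hH v
  obtain ⟨w0, w1, w2⟩ := pad_wt hH w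
  have a1 : wt H u * wt H v * wt H w ≤ |u * v| / H ^ 2 := pad_two u0 v0 w1 u2 v2
  have a2 : wt H u * wt H v * wt H w ≤ |u * w| / H ^ 2 := by
    rw [mul_right_comm]; exact pad_two u0 w0 v1 u2 w2
  have a3 : wt H u * wt H v * wt H w ≤ |v * w| / H ^ 2 := by
    rw [mul_rotate]; exact pad_two v0 w0 u1 v2 w2
  have a4 : wt H u * wt H v * wt H w ≤ 1 :=
    mul_le_one₀ (mul_le_one₀ u1 v0 v1) w0 w1
  have b1 : 0 ≤ 1 / |u * v| := by positivity
  have b2 : 0 ≤ 1 / |u * w| := by positivity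
  have b3 : 0 ≤ 1 / |v * w| := by positivity
  have key : wt H u * wt H v * wt H w ≤ min |u * v| (min |u * w| |v * w|) / H ^ 2 ∧
      1 / min |u * v| (min |u * w| |v * w|) ≤ 1 / |u * v| + 1 / |u * w| + 1 / |v * w| := by
    rcases min_choice |u * v| (min |u * w| |v * w|) with e | e
    · rw [e]; exact ⟨a1, by linarith only [b2, b3]⟩
    · rw [e]
      rcases min_choice |u * w| |v * w| with e' | e'
      · rw [e']; exact ⟨a2, by linarith only [b1, b3]⟩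
      · rw [e']; exact ⟨a3, by linarith only [b1, b2]⟩
  refine (wt_split hQ hT hH h1 hP key.1 a4 (le_min zero_le_one (sq_nonneg _)) (min_le_left _ _)
    (min_le_right _ _)).trans ?_
  rw [div_eq_mul_one_div (T / Q ^ 2)]
  exact mul_le_mul_of_nonneg_left key.2 (by positivity)

theorem pad_zero {H u v w : ℝ} (hP : ¬ 0 < min |u * v| (min |u * w| |v * w|)) :
    wt H u * wt H v * wt H w = 0 := by
  have h0 : wt H 0 = 0 := by simp only [wt, abs_zero, zero_div, zero_le_one, inf_of_le_right]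
  by_cases hu : u = 0
  · rw [hu, h0, zero_mul, zero_mul]
  by_cases hv : v = 0
  · rw [hv, h0, mul_zero, zero_mul]
  by_cases hw : w = 0
  · rw [hw, h0, mul_zero]
  exact absurd (lt_min (abs_pos.2 (mul_ne_zero hu hv))
    (lt_min (abs_pos.2 (mul_ne_zero hu hw)) (abs_pos.2 (mul_ne_zero hv hw)))) hP

theorem pad_sx {J : Finset ℕ} {a : ℝ → ℕ → ℂ} (h : ∀ n, Continuous fun r => a r n) (n : ℤ) :
    Continuous fun r => sx J (a r) n := by
  unfold sx
  split_ifs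
  · exact h _
  · exact Complex.continuous_conj.comp (h _)
  · exact continuous_const

theorem pad_q4 {J : Finset ℕ} {a : ℝ → ℕ → ℂ} (h : ∀ n, Continuous fun r => a r n)
    (x : ℤ × ℤ × ℤ) : Continuous fun r => q4 J (a r) x :=
  (((pad_sx h _).mul (pad_sx h _)).mul (pad_sx h _)).mul (pad_sx h _)

theorem pad_abs {N N₁ : ℕ} {n : ℤ} (h : n.natAbs ∈ Finset.Icc N N₁) : (N : ℝ) ≤ |(n : ℝ)| := by
  have h1 : (N : ℝ) ≤ (n.natAbs : ℝ) := by exact_mod_cast (Finset.mem_Icc.1 h).1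
  rwa [Nat.cast_natAbs, Int.cast_abs] at h1

/-- one quadruple, summed over the family -/
theorem pad_one {c : ℝ} (hc : 1 ≤ c) : ∃ C : ℝ, 0 ≤ C ∧ ∀ (ι : Type) (F : Fa ι c) (Q d Δ : ℝ)
    (N H : ℕ) (A : ℝ → ℝ), F.Par Q d Δ N H A → ∀ x ∈ Z3 F.N₁,
    ∑ j ∈ F.s, w3 H x * ‖∫ r, (F.V j r : ℂ) * q4 (Finset.Icc N F.N₁) (F.al A j r) x‖ ≤
      2 * F.W * F.DD ^ 2 * F.KK * (C / (F.T * Q)) *
        (1 / |((x.1 + x.2.1 : ℝ)) * (x.1 + x.2.2)| + 1 / |((x.1 + x.2.1 : ℝ)) * (x.2.1 + x.2.2)| +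
          1 / |((x.1 + x.2.2 : ℝ)) * (x.2.1 + x.2.2)|) := by
  obtain ⟨C₀, hC₀, h₀⟩ := J0 hc
  obtain ⟨C₁, hC₁, h₁⟩ := JA hc
  refine ⟨C₀ + C₁, add_nonneg hC₀ hC₁, fun ι F Q d Δ N H A h x hx => ?_⟩
  have hT := F.hT
  have hT0 : 0 < F.T := lt_of_lt_of_le one_pos hT
  have hQ : 1 ≤ Q := le_trans one_le_two h.q2
  have hQ0 : 0 < Q := lt_of_lt_of_le one_pos hQ
  have hW : 0 ≤ F.W := le_trans zero_le_one F.hW
  have hK := F.hK
  have hH : (0 : ℝ) < H := by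
    have : (0 : ℝ) < (H : ℝ) ^ 2 := lt_of_lt_of_le (by positivity) h.h1
    exact lt_of_le_of_ne (Nat.cast_nonneg _) fun e => by rw [← e] at this; simp at this
  have hN : 1 ≤ N := by
    by_contra hn
    have e : N = 0 := by omega
    have := h.tn
    rw [e] at this
    simp at this
    linarith only [hT, this]
  have hΔ : 0 < Δ := lt_of_lt_of_le (pow_pos h.d0 4) h.D0
  set u : ℝ := x.1 + x.2.1 with hu
  set v : ℝ := x.1 + x.2.2 with hv
  set w : ℝ := x.2.1 + x.2.2 with hw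
  have hw3 : w3 H x = wt H u * wt H v * wt H w := rfl
  have hR : 0 ≤ 2 * F.W * F.DD ^ 2 * F.KK * ((C₀ + C₁) / (F.T * Q)) *
      (1 / |u * v| + 1 / |u * w| + 1 / |v * w|) := by positivity
  by_cases hP : 0 < min |u * v| (min |u * w| |v * w|)
  swap
  · rw [hw3, pad_zero hP]
    simpa only [zero_mul, Finset.sum_const_zero, abs_mul, one_div, mul_inv_rev, ge_iff_le] using hR
  have hpt := pad_pt hQ hT hH h.h1 hP
  set P : ℝ := min |u * v| (min |u * w| |v * w|) with hPd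
  set m : ℝ := min 1 ((Q ^ 2 * F.T / P) ^ 2) with hm
  have hm0 : 0 ≤ m := le_min zero_le_one (sq_nonneg _)
  have hw0 : 0 ≤ w3 H x := by
    rw [hw3]
    exact mul_nonneg (mul_nonneg (pad_wt hH u).1 (pad_wt hH v).1) (pad_wt hH w).1
  have hB : 0 ≤ (C₀ + C₁) * Q / F.T ^ 2 * m := by positivity
  have hq : ∀ j ∈ F.s, ‖∫ r, (F.V j r : ℂ) * q4 (Finset.Icc N F.N₁) (F.al A j r) x‖ ≤
      if (-x.1 - x.2.1 - x.2.2).natAbs ∈ Finset.Icc N F.N₁ then
        F.Om j ^ 4 * |F.lam j x.1.natAbs * F.lam j x.2.1.natAbs * F.lam j x.2.2.natAbs *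
          F.lam j (-x.1 - x.2.1 - x.2.2).natAbs| * ((C₀ + C₁) * Q / F.T ^ 2 * m) else 0 := by
    intro j hj
    refine F.q4_le hc h.pc.sm.c2.continuous (fun n hn => hN.trans (Finset.mem_Icc.1 hn).1) hj x hB
      fun m₁ m₂ m₃ m₄ s₁ s₂ s₃ s₄ g₁ g₂ g₃ g₄ => ?_
    have n₄ := pad_abs m₄
    push_cast at n₄
    rcases min_choice 1 ((Q ^ 2 * F.T / P) ^ 2) with e | e
    · rw [hm, e, mul_one]
      refine (h₀ F.T Q d Δ _ _ _ _ _ _ _ _ _ _ _ hT h.d0 hQ0.le h.dq (F.vw j hj) h.pc).trans ?_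
      gcongr
      linarith only [hC₁]
    · rw [hm, e]
      refine (h₁ F.T Q d Δ _ N P _ _ _ _ _ _ _ _ _ _ hT h.d0 h.d1 hΔ h.dq (F.vw j hj) h.pc
        (F.t1 j hj) h.tn (pad_abs m₁) (pad_abs m₂) (pad_abs m₃) n₄ (by ring) g₁ g₂ g₃ g₄ hP
        (min_le_left _ _) ?_ ?_).trans ?_
      · refine ((min_le_right _ _).trans (min_le_left _ _)).trans (le_of_eq ?_)
        rw [← abs_neg]
        congr 1
        rw [hu, hw]
        ring
      · refine ((min_le_right _ _).trans (min_le_right _ _)).trans (le_of_eq ?_)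
        rw [← abs_neg]
        congr 1
        rw [hv, hw]
        ring
      · gcongr
        linarith only [hC₀]
  by_cases h4 : (-x.1 - x.2.1 - x.2.2).natAbs ∈ Finset.Icc N F.N₁
  swap
  · refine le_trans (Finset.sum_nonpos fun j hj => ?_) hR
    have := hq j hj
    rw [if_neg h4] at this
    exact mul_nonpos_of_nonneg_of_nonpos hw0 this
  simp only [Z3, Finset.mem_product, Finset.mem_Icc] at hx
  have hp := F.p4 (n₁ := x.1.natAbs) (n₂ := x.2.1.natAbs) (n₃ := x.2.2.natAbs)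
    (n₄ := (-x.1 - x.2.1 - x.2.2).natAbs) (by omega) (by omega) (by omega) (Finset.mem_Icc.1 h4).2
  have hb : w3 H x * ((C₀ + C₁) * Q / F.T ^ 2 * m) ≤
      (C₀ + C₁) / (F.T * Q) * (1 / |u * v| + 1 / |u * w| + 1 / |v * w|) := by
    calc w3 H x * ((C₀ + C₁) * Q / F.T ^ 2 * m) = (C₀ + C₁) * Q / F.T ^ 2 * (w3 H x * m) := by ring
      _ ≤ (C₀ + C₁) * Q / F.T ^ 2 * (F.T / Q ^ 2 * (1 / |u * v| + 1 / |u * w| + 1 / |v * w|)) :=
        mul_le_mul_of_nonneg_left hpt (by positivity)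
      _ = _ := by
        rw [← mul_assoc]
        congr 1
        field_simp
  calc ∑ j ∈ F.s, w3 H x * ‖∫ r, (F.V j r : ℂ) * q4 (Finset.Icc N F.N₁) (F.al A j r) x‖
      ≤ ∑ j ∈ F.s, F.Om j ^ 4 * |F.lam j x.1.natAbs * F.lam j x.2.1.natAbs * F.lam j x.2.2.natAbs *
          F.lam j (-x.1 - x.2.1 - x.2.2).natAbs| * (w3 H x * ((C₀ + C₁) * Q / F.T ^ 2 * m)) := by
        refine Finset.sum_le_sum fun j hj => ?_
        have := hq j hj
        rw [if_pos h4] at this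
        refine (mul_le_mul_of_nonneg_left this hw0).trans (le_of_eq ?_)
        ring
    _ ≤ 2 * F.W * F.DD ^ 2 * F.KK *
          ((C₀ + C₁) / (F.T * Q) * (1 / |u * v| + 1 / |u * w| + 1 / |v * w|)) := by
        rw [← Finset.sum_mul]
        exact mul_le_mul hp hb (mul_nonneg hw0 hB) (by positivity)
    _ = _ := by ring

/-- PAD.  Paper 7, P4: `q4_le`, `J0`, `JA`, `wt_split`, `p4`, `sum_Z3`. -/
theorem pc_rem {c : ℝ} (hc : 1 ≤ c) : ∃ C : ℝ, 0 ≤ C ∧ ∀ (ι : Type) (F : Fa ι c) (Q d Δ : ℝ)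
    (N H : ℕ) (A : ℝ → ℝ), F.Par Q d Δ N H A →
    ∑ j ∈ F.s, ‖∫ r, (F.V j r : ℂ) * ∑ x ∈ Z3 F.N₁,
      (w3 H x : ℂ) * q4 (Finset.Icc N F.N₁) (F.al A j r) x‖ ≤ C * F.U Q := by
  obtain ⟨C, hC, h₀⟩ := pad_one hc
  have hc0 : 0 ≤ c := le_trans zero_le_one hc
  refine ⟨24 * (13 * c) ^ 3 * C, by positivity, fun ι F Q d Δ N H A h => ?_⟩
  have hT := F.hT
  have hT0 : 0 < F.T := lt_of_lt_of_le one_pos hT
  have hQ0 : 0 < Q := lt_of_lt_of_le two_pos h.q2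
  have hW : 0 ≤ F.W := le_trans zero_le_one F.hW
  have hK := F.hK
  have hD : 0 ≤ F.DD := le_trans zero_le_one F.one_le_DD
  have hw0 : ∀ x, 0 ≤ w3 H x := fun x => by
    have : ∀ y : ℝ, 0 ≤ wt H y := fun y =>
      le_min zero_le_one (div_nonneg (abs_nonneg _) (Nat.cast_nonneg _))
    exact mul_nonneg (mul_nonneg (this _) (this _)) (this _)
  have h1 : ∀ j ∈ F.s, ‖∫ r, (F.V j r : ℂ) * ∑ x ∈ Z3 F.N₁,
      (w3 H x : ℂ) * q4 (Finset.Icc N F.N₁) (F.al A j r) x‖ ≤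
      ∑ x ∈ Z3 F.N₁, w3 H x * ‖∫ r, (F.V j r : ℂ) * q4 (Finset.Icc N F.N₁) (F.al A j r) x‖ := by
    intro j hj
    have e : ∀ r, (F.V j r : ℂ) * ∑ x ∈ Z3 F.N₁,
        (w3 H x : ℂ) * q4 (Finset.Icc N F.N₁) (F.al A j r) x =
        ∑ x ∈ Z3 F.N₁, (w3 H x : ℂ) * ((F.V j r : ℂ) * q4 (Finset.Icc N F.N₁) (F.al A j r) x) :=
      fun r => by
        rw [Finset.mul_sum]
        exact Finset.sum_congr rfl fun x _ => mul_left_comm _ _ _
    simp only [e]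
    rw [integral_finsetSum]
    · refine (norm_sum_le _ _).trans (le_of_eq (Finset.sum_congr rfl fun x _ => ?_))
      rw [integral_const_mul, norm_mul, Complex.norm_real, Real.norm_of_nonneg (hw0 x)]
    · intro x _
      refine Integrable.const_mul ?_ _
      have := (F.vw j hj).int hc hT
        (pad_q4 (J := Finset.Icc N F.N₁) (F.continuous_al h.pc.sm.c2.continuous j) x)
      simpa only [Complex.real_smul] using this
  have hl : 1 + Real.log (2 * F.N₁ : ℕ) ≤ 13 * c * F.DD := F.log_le hc (by omega)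
  have hl0 : 0 ≤ 1 + Real.log (2 * F.N₁ : ℕ) :=
    add_nonneg zero_le_one (Real.log_natCast_nonneg _)
  have hn : (4 * F.N₁ + 1 : ℝ) ≤ 13 * c * F.T := by
    have := F.n1
    have := one_le_mul_of_one_le_of_one_le hc hT
    linarith
  refine (Finset.sum_le_sum h1).trans ?_
  rw [Finset.sum_comm]
  refine (Finset.sum_le_sum (h₀ ι F Q d Δ N H A h)).trans ?_
  rw [← Finset.mul_sum]
  calc _ ≤ 2 * F.W * F.DD ^ 2 * F.KK * (C / (F.T * Q)) *
        (12 * (13 * c * F.T) * (13 * c * F.DD) ^ 2) := by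
        refine mul_le_mul_of_nonneg_left ((sum_Z3 F.N₁).trans ?_) (by positivity)
        gcongr
    _ = _ := by
        unfold Fa.U
        field_simp
        ring

theorem pae_cont {ι : Type} {c : ℝ} (F : Fa ι c) {A : ℝ → ℝ} (hA : Continuous A) (J : Finset ℕ)
    (j : ι) (x : ℤ × ℤ × ℤ) : Continuous fun r => q4 J (F.al A j r) x := by
  have h : ∀ n : ℤ, Continuous fun r => sx J (F.al A j r) n := by
    intro n
    unfold sx
    split_ifs
    · exact F.continuous_al hA j _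
    · exact continuous_conj.comp (F.continuous_al hA j _)
    · exact continuous_const
  exact (((h _).mul (h _)).mul (h _)).mul (h _)

theorem pae_I4 {ι : Type} {c : ℝ} (hc : 1 ≤ c) (F : Fa ι c) {A : ℝ → ℝ} (hA : Continuous A)
    {J : Finset ℕ} {N : ℕ} (hJ : ∀ n ∈ J, 1 ≤ n ∧ n ≤ N) {j : ι} (hj : j ∈ F.s) :
    I4 (F.V j) (fun r => tp J (F.al A j r)) ≤
      ∑ x ∈ Z3 N, ‖∫ r, (F.V j r : ℂ) * q4 J (F.al A j r) x‖ := by
  have hi : ∀ x ∈ Z3 N, Integrable fun r => (F.V j r : ℂ) * q4 J (F.al A j r) x := by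
    intro x _
    have h := Vw.int hc F.hT (F.vw j hj) (pae_cont F hA J j x)
    simpa only [Complex.real_smul] using h
  have h1 : I4 (F.V j) (fun r => tp J (F.al A j r)) =
      ∫ r, (∑ x ∈ Z3 N, (F.V j r : ℂ) * q4 J (F.al A j r) x).re := by
    unfold I4
    refine integral_congr_ae (Filter.Eventually.of_forall fun r => ?_)
    beta_reduce
    rw [tp_four hJ, ← Finset.mul_sum, re_ofReal_mul]
  have h2 := integral_re (integrable_finsetSum (Z3 N) hi)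
  simp only [RCLike.re_to_complex] at h2
  rw [h1, h2, integral_finsetSum _ hi]
  exact (re_le_norm _).trans (norm_sum_le _ _)

theorem pae_min {K₀ K₁ T B u v w : ℝ} (hK₀ : 0 ≤ K₀) (hK₁ : 0 ≤ K₁) (hT : 0 < T) (hu : 0 < u)
    (hv : 0 < v) (hw : 0 < w) (h0 : B ≤ K₀ / T ^ 2)
    (h1 : B ≤ K₁ / T ^ 2 * (T / min u (min v w)) ^ 2) :
    B ≤ (K₀ + K₁) / T ^ 2 * (T * (1 / u + 1 / v + 1 / w)) := by
  have hP : 0 < min u (min v w) := lt_min hu (lt_min hv hw)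
  have hy : T / min u (min v w) ≤ T * (1 / u + 1 / v + 1 / w) := by
    rw [div_eq_mul_one_div]
    refine mul_le_mul_of_nonneg_left ?_ hT.le
    have a1 := one_div_pos.2 hu
    have a2 := one_div_pos.2 hv
    have a3 := one_div_pos.2 hw
    rcases min_choice u (min v w) with h | h
    · rw [h]; linarith only [a2, a3]
    · rw [h]
      rcases min_choice v w with h' | h'
      · rw [h']; linarith only [a1, a3]
      · rw [h']; linarith only [a1, a2]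
  refine le_trans ?_ (mul_le_mul_of_nonneg_left hy (by positivity))
  have hy0 : 0 < T / min u (min v w) := div_pos hT hP
  generalize T / min u (min v w) = y at h1 hy0
  have a0 : 0 ≤ K₀ / T ^ 2 := by positivity
  have a1 : 0 ≤ K₁ / T ^ 2 := by positivity
  rw [add_div]
  generalize K₀ / T ^ 2 = a at h0 a0
  generalize K₁ / T ^ 2 = b at h1 a1
  rcases le_total y 1 with h | h
  · linarith only [mul_nonneg a0 hy0.le, mul_nonneg (mul_nonneg a1 hy0.le) (sub_nonneg.2 h), h1]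
  · linarith only [mul_nonneg a1 hy0.le, mul_nonneg a0 (sub_nonneg.2 h), h0]

/-- the majorant of the four-linear integrals -/
noncomputable def pae_B (T : ℝ) (x : ℤ × ℤ × ℤ) : ℝ :=
  (if x.1 + x.2.1 = 0 ∨ x.1 + x.2.2 = 0 ∨ x.2.1 + x.2.2 = 0 then 1 else 0) +
    T * (1 / |((x.1 + x.2.1 : ℝ)) * (x.1 + x.2.2)| + 1 / |((x.1 + x.2.1 : ℝ)) * (x.2.1 + x.2.2)| +
      1 / |((x.1 + x.2.2 : ℝ)) * (x.2.1 + x.2.2)|)

theorem pae_B_nonneg {T : ℝ} (hT : 0 ≤ T) (x : ℤ × ℤ × ℤ) : 0 ≤ pae_B T x := by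
  unfold pae_B
  refine add_nonneg ?_ (by positivity)
  split_ifs <;> norm_num

theorem pae_JJ {c : ℝ} (hc : 1 ≤ c) : ∃ K : ℝ, 0 ≤ K ∧ ∀ (T t : ℝ) (V A : ℝ → ℝ) (N : ℕ)
    (x : ℤ × ℤ × ℤ) (s₁ s₂ s₃ s₄ : ℝ), 1 ≤ T → Vw c T V → Pc c (1 / 2) 2 A → T ≤ t →
    2 * c * N ≤ T → x.1.natAbs ∈ Finset.Ico 1 N → x.2.1.natAbs ∈ Finset.Ico 1 N →
    x.2.2.natAbs ∈ Finset.Ico 1 N → (-x.1 - x.2.1 - x.2.2).natAbs ∈ Finset.Ico 1 N →
    Sg s₁ → Sg s₂ → Sg s₃ → Sg s₄ →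
    ‖JJ V A t x.1 x.2.1 x.2.2 (-x.1 - x.2.1 - x.2.2) s₁ s₂ s₃ s₄‖ ≤ K / T ^ 2 * pae_B T x := by
  obtain ⟨C0, hC0, h0⟩ := J0 hc
  obtain ⟨C1, hC1, h1⟩ := JV hc
  refine ⟨C0 * 32 + C1, by positivity, ?_⟩
  intro T t V A N x s₁ s₂ s₃ s₄ hT hV hA ht hN m1 m2 m3 m4 g1 g2 g3 g4
  have hT0 : 0 < T := by linarith
  have b0 := h0 T 32 (1 / 2) 2 t x.1 x.2.1 x.2.2 (-x.1 - x.2.1 - x.2.2) s₁ s₂ s₃ s₄ V A hT
    (by norm_num) (by norm_num) (by norm_num) hV hA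
  have key : ∀ n : ℤ, n.natAbs ∈ Finset.Ico 1 N → (n : ℝ) ≠ 0 ∧ 2 * c * |(n : ℝ)| ≤ T := by
    intro n hn
    rw [Finset.mem_Ico] at hn
    refine ⟨Int.cast_ne_zero.2 (by omega), le_trans ?_ hN⟩
    have h : |n| ≤ (N : ℤ) := by rw [Int.abs_eq_natAbs]; omega
    have h' : |(n : ℝ)| ≤ N := by exact_mod_cast h
    exact mul_le_mul_of_nonneg_left h' (by linarith only [hc])
  have k4 := key _ m4
  push_cast at k4
  unfold pae_B
  split_ifs with hd
  · refine b0.trans ?_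
    have a : 0 ≤ T * (1 / |((x.1 + x.2.1 : ℝ)) * (x.1 + x.2.2)| +
        1 / |((x.1 + x.2.1 : ℝ)) * (x.2.1 + x.2.2)| +
        1 / |((x.1 + x.2.2 : ℝ)) * (x.2.1 + x.2.2)|) := by positivity
    refine le_trans ?_ (le_mul_of_one_le_right (by positivity) (by linarith))
    exact div_le_div_of_nonneg_right (by linarith only [hC1]) (by positivity)
  · rw [not_or, not_or] at hd
    have hu : ((x.1 + x.2.1 : ℝ)) ≠ 0 := by exact_mod_cast hd.1
    have hv : ((x.1 + x.2.2 : ℝ)) ≠ 0 := by exact_mod_cast hd.2.1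
    have hw : ((x.2.1 + x.2.2 : ℝ)) ≠ 0 := by exact_mod_cast hd.2.2
    have p1 := abs_pos.2 (mul_ne_zero hu hv)
    have p2 := abs_pos.2 (mul_ne_zero hu hw)
    have p3 := abs_pos.2 (mul_ne_zero hv hw)
    have e4 : (x.1 : ℝ) + (-x.1 - x.2.1 - x.2.2) = -(x.2.1 + x.2.2) := by ring
    rw [zero_add]
    refine pae_min (by positivity) hC1 hT0 p1 p2 p3 b0 ?_
    refine h1 T t _ _ _ _ _ s₁ s₂ s₃ s₄ V A hT hV hA ht (key _ m1).1 (key _ m2).1 (key _ m3).1 k4.1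
      (key _ m1).2 (key _ m2).2 (key _ m3).2 k4.2 (by ring) g1 g2 g3 g4
      (lt_min p1 (lt_min p2 p3)) (min_le_left _ _) ?_ ?_
    · rw [e4, mul_neg, abs_neg]
      exact (min_le_right _ _).trans (min_le_left _ _)
    · rw [e4, mul_neg, abs_neg]
      exact (min_le_right _ _).trans (min_le_right _ _)

theorem pae_sum {c T Q D : ℝ} {N : ℕ} (hc : 1 ≤ c) (hT : 1 ≤ T) (hQ : 4 * c ≤ Q) (hN1 : 1 ≤ N)
    (hN : N * Q ≤ 2 * T) (hD : 1 ≤ D) (hl : 1 + Real.log (2 * N : ℕ) ≤ 13 * c * D) :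
    ∑ x ∈ Z3 N, pae_B T x ≤ (27 + 20280 * c ^ 2) * D ^ 2 * T ^ 2 / Q := by
  have hT0 : 0 < T := by linarith only [hT]
  have hQ4 : 4 ≤ Q := by linarith only [hc, hQ]
  have hQ0 : 0 < Q := by linarith only [hc, hQ]
  have hn : (1 : ℝ) ≤ N := by exact_mod_cast hN1
  have h1 := card_Z3 N
  have h2 := sum_Z3 N
  have hl0 : 0 ≤ 1 + Real.log (2 * N : ℕ) := add_nonneg zero_le_one (Real.log_natCast_nonneg _)
  have h3 : (1 + Real.log (2 * N : ℕ)) ^ 2 ≤ (13 * c * D) ^ 2 := pow_le_pow_left₀ hl0 hl 2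
  unfold pae_B
  rw [Finset.sum_add_distrib, ← Finset.mul_sum, Finset.sum_boole]
  have h4 : 12 * (4 * (N : ℝ) + 1) * (1 + Real.log (2 * N : ℕ)) ^ 2 ≤
      60 * N * (13 * c * D) ^ 2 :=
    mul_le_mul (by linarith only [hn]) h3 (by positivity) (by positivity)
  have h5 := mul_le_mul_of_nonneg_left (h2.trans h4) hT0.le
  refine (add_le_add h1 h5).trans ?_
  rw [le_div_iff₀ hQ0]
  have hD2 : 1 ≤ D ^ 2 := one_le_pow₀ hD
  have a1 : (N : ℝ) * 2 ≤ T := by nlinarith only [hc, hQ, hN]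
  have a2 : (N : ℝ) * (N * Q) ≤ T ^ 2 := by nlinarith only [hN, a1]
  have a3 : 3 * (2 * (N : ℝ) + 1) ^ 2 * Q ≤ 27 * (N * (N * Q)) := by
    have : (2 * (N : ℝ) + 1) ^ 2 ≤ 9 * N ^ 2 := by nlinarith only [hn]
    nlinarith only [hc, hQ, this]
  have a4 : T ^ 2 ≤ D ^ 2 * T ^ 2 := le_mul_of_one_le_left (by positivity) hD2
  have a5 : T * (60 * N * (13 * c * D) ^ 2) * Q ≤ 20280 * c ^ 2 * D ^ 2 * T ^ 2 := by
    have := mul_le_mul_of_nonneg_left hN (show 0 ≤ T * 60 * (13 * c * D) ^ 2 by positivity)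
    linarith only [this]
  linarith only [a2, a3, a4, a5]

/-- PAE.  Paper 7, PV: `tp_four`, `q4_le`, `J0`, `JV`, `card_Z3`, `sum_Z3` (with `N` for `N₁`). -/
theorem pc_vert {c : ℝ} (hc : 1 ≤ c) : ∃ C : ℝ, 0 ≤ C ∧ ∀ (ι : Type) (F : Fa ι c) (Q : ℝ)
    (N : ℕ) (A : ℝ → ℝ), Pc c (1 / 2) 2 A → 4 * c ≤ Q → N * Q ≤ 2 * F.T →
    ∑ j ∈ F.s, I4 (F.V j) (fun r => tp (Finset.Ico 1 N) (F.al A j r)) ≤ C * F.U Q := by
  obtain ⟨K, hK, hJJ⟩ := pae_JJ hc
  refine ⟨2 * K * (27 + 20280 * c ^ 2), by positivity, ?_⟩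
  intro ι F Q N A hA hQ hN
  have hT := F.hT
  have hT0 : 0 < F.T := by linarith
  have hQ0 : 0 < Q := by linarith
  have hW : 0 ≤ F.W := le_trans zero_le_one F.hW
  have hKK := F.hK
  have hD := F.one_le_DD
  have hD0 : 0 ≤ F.DD := by linarith
  rcases Nat.eq_zero_or_pos N with rfl | hN1
  · have h : ∀ j ∈ F.s, I4 (F.V j) (fun r => tp (Finset.Ico 1 0) (F.al A j r)) = 0 := by
      intro j _
      simp [I4, tp]
    rw [Finset.sum_eq_zero h]
    unfold Fa.U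
    positivity
  have hn0 : (0 : ℝ) ≤ N := Nat.cast_nonneg N
  have h2c : 2 * c * N ≤ F.T := by linarith only [mul_le_mul_of_nonneg_left hQ hn0, hN]
  have hNN : N ≤ F.N₁ := by
    have h1 := F.n0
    have h2 : (N : ℝ) ≤ F.N₁ := by nlinarith only [hc, hT, h2c, h1]
    exact_mod_cast h2
  have hAc : Continuous A := hA.sm.c2.continuous
  have hJ : ∀ n ∈ Finset.Ico 1 N, 1 ≤ n ∧ n ≤ N := fun n hn =>
    ⟨(Finset.mem_Ico.1 hn).1, (Finset.mem_Ico.1 hn).2.le⟩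
  have hB : ∀ x, 0 ≤ K / F.T ^ 2 * pae_B F.T x := fun x =>
    mul_nonneg (by positivity) (pae_B_nonneg hT0.le x)
  have hs := pae_sum hc hT hQ hN1 hN hD (F.log_le hc (by omega))
  refine (Finset.sum_le_sum fun j hj => pae_I4 hc F hAc hJ hj).trans ?_
  rw [Finset.sum_comm]
  have h1 : ∀ x ∈ Z3 N, ∑ j ∈ F.s, ‖∫ r, (F.V j r : ℂ) * q4 (Finset.Ico 1 N) (F.al A j r) x‖ ≤
      2 * F.W * F.DD ^ 2 * F.KK * (K / F.T ^ 2) * pae_B F.T x := by
    intro x hx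
    refine (Finset.sum_le_sum fun j hj => F.q4_le hc hAc (fun n hn => (hJ n hn).1) hj x (hB x)
      fun m1 m2 m3 m4 s₁ s₂ s₃ s₄ g1 g2 g3 g4 => hJJ F.T (F.t j) (F.V j) A N x s₁ s₂ s₃ s₄ hT
        (F.vw j hj) hA (F.t1 j hj) h2c m1 m2 m3 m4 g1 g2 g3 g4).trans ?_
    rw [mul_assoc _ (K / F.T ^ 2)]
    split_ifs with h4
    · rw [← Finset.sum_mul]
      refine mul_le_mul_of_nonneg_right ?_ (hB x)
      simp only [Z3, Finset.mem_product, Finset.mem_Icc] at hx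
      have h5 := (hJ _ h4).2
      exact F.p4 (by omega) (by omega) (by omega) (by omega)
    · rw [Finset.sum_const_zero]
      exact mul_nonneg (by positivity) (hB x)
  refine (Finset.sum_le_sum h1).trans ?_
  rw [← Finset.mul_sum]
  refine (mul_le_mul_of_nonneg_left hs (by positivity)).trans (le_of_eq ?_)
  unfold Fa.U
  field_simp

theorem paf_int {ι : Type} {c : ℝ} (hc : 1 ≤ c) (F : Fa ι c) {A : ℝ → ℝ} (hA : Continuous A) (σ : ℝ)
    {j : ι} (hj : j ∈ F.s) (l : ℕ) (J : Finset ℕ) :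
    ∫ r, F.V j r * ‖∑ m ∈ J, F.xx A σ j r l m‖ ^ 2 ≤ ∑ m ∈ J, ∑ m' ∈ J,
      |F.lam j m * F.lam j (m + l) * F.lam j m' * F.lam j (m' + l)| *
        ‖JJ (F.V j) A (F.t j) (m + l) (-m) (-(m' + l)) m' 1 σ (-1) (-σ)‖ := by
  have hi : ∀ m m' : ℕ, Integrable fun r =>
      (F.V j r : ℂ) * (F.xx A σ j r l m * conj (F.xx A σ j r l m')) := by
    intro m m'
    have := Vw.int hc F.hT (F.vw j hj) ((F.continuous_xx hA σ j l m).mul
      (continuous_conj.comp (F.continuous_xx hA σ j l m')))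
    simp only [Complex.real_smul] at this
    exact this
  have e : ((∫ r, F.V j r * ‖∑ m ∈ J, F.xx A σ j r l m‖ ^ 2 : ℝ) : ℂ) = ∑ m ∈ J, ∑ m' ∈ J,
      ∫ r, (F.V j r : ℂ) * (F.xx A σ j r l m * conj (F.xx A σ j r l m')) := by
    rw [← integral_complex_ofReal]
    have e1 : ∀ r, ((F.V j r * ‖∑ m ∈ J, F.xx A σ j r l m‖ ^ 2 : ℝ) : ℂ) = ∑ m ∈ J, ∑ m' ∈ J,
        (F.V j r : ℂ) * (F.xx A σ j r l m * conj (F.xx A σ j r l m')) := by
      intro r
      rw [Complex.ofReal_mul, Complex.ofReal_pow, ← Complex.mul_conj', map_sum, Finset.sum_mul_sum,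
        Finset.mul_sum]
      exact Finset.sum_congr rfl fun m _ => Finset.mul_sum _ _ _
    simp_rw [e1]
    rw [integral_finsetSum _ fun m _ => integrable_finsetSum _ fun m' _ => hi m m']
    exact Finset.sum_congr rfl fun m _ => integral_finsetSum _ fun m' _ => hi m m'
  refine (le_abs_self _).trans ?_
  rw [← Real.norm_eq_abs, ← Complex.norm_real, e]
  refine (norm_sum_le _ _).trans (Finset.sum_le_sum fun m _ => ?_)
  refine (norm_sum_le _ _).trans (Finset.sum_le_sum fun m' _ => ?_)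
  rw [F.xx_eq, norm_mul, Complex.norm_real, Real.norm_eq_abs]

theorem paf_sum {J : Finset ℕ} {N m : ℕ} (hJ : ∀ n ∈ J, n ≤ N) (hm : m ≤ N) :
    ∑ m' ∈ J, (1 / |(m : ℝ) - m'|) ≤ 2 * (1 + Real.log N) := by
  refine le_trans ?_ (sum_inv_abs N)
  have hinj : Set.InjOn (fun m' : ℕ => (m : ℤ) - m') J := fun a _ b _ h => by
    simp only at h; omega
  have e : ∑ m' ∈ J, (1 / |(m : ℝ) - m'|)
      = ∑ n ∈ J.image (fun m' : ℕ => (m : ℤ) - m'), (1 / |(n : ℝ)|) := by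
    rw [Finset.sum_image hinj]
    refine Finset.sum_congr rfl fun m' _ => ?_
    push_cast; rfl
  rw [e]
  refine Finset.sum_le_sum_of_subset_of_nonneg (fun n hn => ?_) fun n _ _ => by positivity
  obtain ⟨a, ha, rfl⟩ := Finset.mem_image.1 hn
  have := hJ a ha
  rw [Finset.mem_Icc]; omega

/-- PAF.  Paper 7, P5: `xx_eq`, `J0`, `JF`, `p4`, `min 1 (x ^ 2) ≤ x`, `sum_inv_abs`. -/
theorem pc_fast {c : ℝ} (hc : 1 ≤ c) : ∃ C : ℝ, 0 ≤ C ∧ ∀ (ι : Type) (F : Fa ι c) (Q d Δ : ℝ)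
    (N H : ℕ) (A : ℝ → ℝ), F.Par Q d Δ N H A →
    ∑ j ∈ F.s, F.Om j ^ 4 * ∑ l ∈ Finset.range H,
      ∫ r, F.V j r * ‖∑ m ∈ sh (Finset.Icc N F.N₁) l, F.xx A 1 j r l m‖ ^ 2 ≤ C * F.U Q := by
  obtain ⟨C0, hC0, h0⟩ := J0 hc
  obtain ⟨C1, hC1, h1⟩ := JF hc
  refine ⟨216 * c ^ 2 * (C0 + C1), by positivity, fun ι F Q d Δ N H A h => ?_⟩
  have hT := F.hT
  have hT0 : 0 < F.T := by linarith
  have hd := h.d0
  have hQ : 1 ≤ Q := by linarith [h.q2]
  have hQ0 : 0 < Q := by linarith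
  have hΔ : 0 < Δ := lt_of_lt_of_le (by positivity) h.D0
  have hDD := F.one_le_DD
  have hW : 0 ≤ F.W := by linarith [F.hW]
  have hK := F.hK
  have hA : Continuous A := h.pc.sm.c2.continuous
  set Y : ℝ := Q ^ 2 / d ^ 2 with hY
  have hY1 : 1 ≤ Y := by
    rw [hY, one_le_div (by positivity)]
    exact pow_le_pow_left₀ hd.le (h.d1.trans hQ) 2
  set B : ℝ := (C0 + C1) * Q / F.T ^ 2 with hB
  have hB0 : 0 ≤ B := by positivity
  set g : ℕ → ℕ → ℝ := fun m m' => (if m = m' then 1 else 0) + Y * (1 / |(m : ℝ) - m'|) with hg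
  have hg0 : ∀ m m', 0 ≤ g m m' := fun m m' => by
    simp only [hg]
    split_ifs <;> positivity
  have hmem : ∀ l m, m ∈ sh (Finset.Icc N F.N₁) l → N ≤ m ∧ m + l ≤ F.N₁ := by
    intro l m hm
    simp only [sh, Finset.mem_filter, Finset.mem_Icc] at hm
    omega
  have hJ : ∀ j ∈ F.s, ∀ l : ℕ, ∀ m ∈ sh (Finset.Icc N F.N₁) l, ∀ m' ∈ sh (Finset.Icc N F.N₁) l,
      ‖JJ (F.V j) A (F.t j) (m + l) (-m) (-(m' + l)) m' 1 1 (-1) (-1)‖ ≤ B * g m m' := by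
    intro j hj l m hm m' hm'
    have a0 := h0 F.T Q d Δ (F.t j) (m + l) (-m) (-(m' + l)) m' 1 1 (-1) (-1) (F.V j) A hT hd hQ0.le
      h.dq (F.vw j hj) h.pc
    have b0 : C0 * Q / F.T ^ 2 ≤ B := by rw [hB]; gcongr; linarith only [hC1]
    by_cases e : m = m'
    · have : g m m' = 1 := by simp [hg, e]
      rw [this, mul_one]; exact a0.trans b0
    · have e' : (m : ℝ) ≠ m' := fun h => e (by exact_mod_cast h)
      have a1 := h1 F.T Q d Δ (F.t j) N m m' l (F.V j) A hT hd h.d1 hQ hΔ h.dq (F.vw j hj) h.pc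
        (F.t1 j hj) h.tn (by exact_mod_cast (hmem l m hm).1) (by exact_mod_cast (hmem l m' hm').1)
        (Nat.cast_nonneg l) e'
      have b1 : C1 * Q / F.T ^ 2 ≤ B := by rw [hB]; gcongr; linarith only [hC0]
      have e2 : g m m' = Q ^ 2 / (d ^ 2 * |(m : ℝ) - m'|) := by
        simp only [hg, hY]
        rw [if_neg e, zero_add, div_mul_div_comm, mul_one]
      rw [← e2] at a1
      have hx := hg0 m m'
      rcases le_total 1 (g m m') with hx1 | hx1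
      · exact a0.trans (b0.trans (le_mul_of_one_le_right hB0 hx1))
      · refine a1.trans (mul_le_mul b1 ?_ (sq_nonneg _) hB0)
        rw [sq]; exact mul_le_of_le_one_left hx hx1
  have hgs : ∀ l : ℕ, ∀ m ∈ sh (Finset.Icc N F.N₁) l,
      ∑ m' ∈ sh (Finset.Icc N F.N₁) l, g m m' ≤ 27 * c * Y * F.DD := by
    intro l m hm
    simp only [hg]
    rw [Finset.sum_add_distrib, Finset.sum_ite_eq, if_pos hm, ← Finset.mul_sum]
    have s1 := paf_sum (J := sh (Finset.Icc N F.N₁) l) (N := F.N₁) (m := m)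
      (fun n hn => by have := hmem l n hn; omega) (by have := hmem l m hm; omega)
    have s2 := F.log_le hc (N := F.N₁) (by omega)
    have s3 : Y * ∑ m' ∈ sh (Finset.Icc N F.N₁) l, (1 / |(m : ℝ) - m'|) ≤ Y * (26 * c * F.DD) :=
      mul_le_mul_of_nonneg_left (by linarith only [s1, s2]) (by linarith only [hY1])
    have s4 : 1 ≤ c * Y * F.DD :=
      one_le_mul_of_one_le_of_one_le (one_le_mul_of_one_le_of_one_le hc hY1) hDD
    linarith only [s3, s4]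
  have hcard : ∀ l : ℕ, ((sh (Finset.Icc N F.N₁) l).card : ℝ) ≤ 4 * c * F.T := by
    intro l
    have s1 : (sh (Finset.Icc N F.N₁) l).card ≤ F.N₁ + 1 := by
      refine (Finset.card_filter_le _ _).trans ?_
      rw [Nat.card_Icc]; omega
    have s2 : ((sh (Finset.Icc N F.N₁) l).card : ℝ) ≤ F.N₁ + 1 := by exact_mod_cast s1
    have s3 : 1 ≤ c * F.T := one_le_mul_of_one_le_of_one_le hc hT
    linarith only [F.n1, s2, s3]
  set E : ℝ := 2 * F.W * F.DD ^ 2 * F.KK with hE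
  have hE0 : 0 ≤ E := by positivity
  calc ∑ j ∈ F.s, F.Om j ^ 4 * ∑ l ∈ Finset.range H,
        ∫ r, F.V j r * ‖∑ m ∈ sh (Finset.Icc N F.N₁) l, F.xx A 1 j r l m‖ ^ 2
      ≤ ∑ j ∈ F.s, ∑ l ∈ Finset.range H, ∑ m ∈ sh (Finset.Icc N F.N₁) l,
          ∑ m' ∈ sh (Finset.Icc N F.N₁) l, (B * g m m') * (F.Om j ^ 4 *
            |F.lam j m * F.lam j (m + l) * F.lam j m' * F.lam j (m' + l)|) := by
        refine Finset.sum_le_sum fun j hj => ?_
        have hO : 0 ≤ F.Om j ^ 4 := pow_nonneg (F.Om_nonneg j) 4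
        rw [Finset.mul_sum]
        refine Finset.sum_le_sum fun l _ => ?_
        refine (mul_le_mul_of_nonneg_left (paf_int hc F hA 1 hj l _) hO).trans ?_
        rw [Finset.mul_sum]
        refine Finset.sum_le_sum fun m hm => ?_
        rw [Finset.mul_sum]
        refine Finset.sum_le_sum fun m' hm' => ?_
        rw [← mul_assoc, mul_comm (B * g m m')]
        exact mul_le_mul_of_nonneg_left (hJ j hj l m hm m' hm') (mul_nonneg hO (abs_nonneg _))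
    _ ≤ ∑ l ∈ Finset.range H, ∑ m ∈ sh (Finset.Icc N F.N₁) l,
          ∑ m' ∈ sh (Finset.Icc N F.N₁) l, (B * E) * g m m' := by
        rw [Finset.sum_comm]
        refine Finset.sum_le_sum fun l _ => ?_
        rw [Finset.sum_comm]
        refine Finset.sum_le_sum fun m hm => ?_
        rw [Finset.sum_comm]
        refine Finset.sum_le_sum fun m' hm' => ?_
        have s1 := hmem l m hm
        have s2 := hmem l m' hm'
        rw [← Finset.mul_sum, mul_right_comm B E]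
        exact mul_le_mul_of_nonneg_left (F.p4 (by omega) s1.2 (by omega) s2.2)
          (mul_nonneg hB0 (hg0 m m'))
    _ ≤ ∑ l ∈ Finset.range H, (4 * c * F.T) * ((B * E) * (27 * c * Y * F.DD)) := by
        refine Finset.sum_le_sum fun l _ => ?_
        have s1 : ∀ m ∈ sh (Finset.Icc N F.N₁) l, ∑ m' ∈ sh (Finset.Icc N F.N₁) l,
            (B * E) * g m m' ≤ (B * E) * (27 * c * Y * F.DD) := fun m hm => by
          rw [← Finset.mul_sum]
          exact mul_le_mul_of_nonneg_left (hgs l m hm) (mul_nonneg hB0 hE0)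
        refine (Finset.sum_le_card_nsmul _ _ _ s1).trans ?_
        rw [nsmul_eq_mul]
        exact mul_le_mul_of_nonneg_right (hcard l) (by positivity)
    _ = 216 * c ^ 2 * (C0 + C1) * (F.W * F.DD ^ 3 * F.KK / Q) * (H * Q ^ 4 / (d ^ 2 * F.T)) := by
        rw [Finset.sum_const, Finset.card_range, nsmul_eq_mul, hB, hE, hY]
        field_simp
        ring
    _ ≤ 216 * c ^ 2 * (C0 + C1) * (F.W * F.DD ^ 4 * F.KK / Q) * 1 := by
        have s1 : H * Q ^ 4 / (d ^ 2 * F.T) ≤ 1 := (div_le_one (by positivity)).2 h.h2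
        have s2 : F.DD ^ 3 ≤ F.DD ^ 4 := pow_le_pow_right₀ hDD (by norm_num)
        gcongr
    _ = _ := by rw [mul_one]; rfl

theorem pag_wt {H l : ℕ} (hl : 1 ≤ l) (hH : 0 < H) (x : ℝ) :
    0 ≤ wt (H ^ 2 / l + 1 : ℕ) x ∧ wt (H ^ 2 / l + 1 : ℕ) x ≤ 1 ∧
      wt (H ^ 2 / l + 1 : ℕ) x ≤ l * |x| / (H : ℝ) ^ 2 := by
  refine ⟨le_min zero_le_one (by positivity), min_le_left _ _, (min_le_right _ _).trans ?_⟩
  have h1 : H ^ 2 ≤ l * (H ^ 2 / l + 1) := (Nat.lt_mul_div_succ _ hl).le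
  have h2 : (H : ℝ) ^ 2 ≤ l * ((H ^ 2 / l + 1 : ℕ) : ℝ) := by exact_mod_cast h1
  rw [div_le_div_iff₀ (by positivity) (by positivity)]
  calc |x| * (H : ℝ) ^ 2 ≤ |x| * (l * ((H ^ 2 / l + 1 : ℕ) : ℝ)) := by gcongr
    _ = _ := by ring

theorem pag_one {c : ℝ} (hc : 1 ≤ c) : ∃ C : ℝ, 0 ≤ C ∧ ∀ (ι : Type) (F : Fa ι c) (Q d Δ : ℝ)
    (N H : ℕ) (A : ℝ → ℝ), F.Par Q d Δ N H A → ∀ j ∈ F.s, ∀ l m m' : ℕ, 1 ≤ l → 0 < H → N ≤ m →
    N ≤ m' → wt (H ^ 2 / l + 1 : ℕ) (m - m') *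
      ‖JJ (F.V j) A (F.t j) (m + l) (-m) (-(m' + l)) m' 1 (-1) (-1) (- -1)‖ ≤
      C / (F.T * Q) * (1 / l * (1 / |(m : ℝ) - m'|)) := by
  obtain ⟨C₀, h0, H0⟩ := J0 hc
  obtain ⟨C₁, h1, H1⟩ := JA hc
  refine ⟨C₀ + C₁ + 1, by positivity, fun ι F Q d Δ N H A h j hj l m m' hl hH hm hm' => ?_⟩
  have hT := F.hT
  have hQ := h.q2
  have T0 : 0 < F.T := by linarith only [hT]
  have Q0 : 0 < Q := by linarith only [hQ]
  obtain ⟨w0, w1, w2⟩ := pag_wt hl hH ((m : ℝ) - m')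
  have l0 : (1 : ℝ) ≤ l := by exact_mod_cast hl
  rcases eq_or_ne ((m : ℝ) - m') 0 with e | e
  · rw [e] at w0 w2 ⊢
    rw [abs_zero, mul_zero, zero_div] at w2
    rw [le_antisymm w2 w0, zero_mul]
    positivity
  have a0 : 0 < |(m : ℝ) - m'| := abs_pos.2 e
  have m0 : (0 : ℝ) ≤ m := Nat.cast_nonneg _
  have m1 : (0 : ℝ) ≤ m' := Nat.cast_nonneg _
  have n0 : (N : ℝ) ≤ m := by exact_mod_cast hm
  have n1 : (N : ℝ) ≤ m' := by exact_mod_cast hm'
  have a1 : |(m : ℝ) - m'| ≤ m + l + m' := abs_le.2 ⟨by linarith only [l0], by linarith only [l0]⟩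
  have X0 : 0 < l * |(m : ℝ) - m'| := by positivity
  have b0 := H0 F.T Q d Δ (F.t j) (m + l) (-m) (-(m' + l)) m' 1 (-1) (-1) (- -1) (F.V j) A hT h.d0
    Q0.le h.dq (F.vw j hj) h.pc
  have b1 := H1 F.T Q d Δ (F.t j) N (l * |(m : ℝ) - m'|) (m + l) (-m) (-(m' + l)) m' 1 (-1) (-1)
    (- -1) (F.V j) A hT h.d0 h.d1 (lt_of_lt_of_le (pow_pos h.d0 4) h.D0) h.dq (F.vw j hj) h.pc
    (F.t1 j hj) h.tn (by rw [abs_of_nonneg (by linarith only [l0])]; linarith only [l0, n0])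
    (by rw [abs_neg, abs_of_nonneg m0]; exact n0)
    (by rw [abs_neg, abs_of_nonneg (by linarith only [l0])]; linarith only [l0, n1])
    (by rw [abs_of_nonneg m1]; exact n1) (by ring) (Or.inl rfl) (Or.inr rfl) (Or.inr rfl)
    (Or.inl (neg_neg 1)) X0
    (by
      rw [show (m + l + -m : ℝ) = l by ring, show (m + l + -(m' + l) : ℝ) = m - m' by ring, abs_mul,
        abs_of_nonneg (by linarith only [l0] : (0 : ℝ) ≤ l)])
    (by
      rw [show (m + l + -m : ℝ) = l by ring, abs_mul, abs_of_nonneg (by linarith only [l0] : (0 : ℝ) ≤ l),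
        abs_of_nonneg (by linarith only [l0] : (0 : ℝ) ≤ m + l + m')]
      gcongr)
    (by
      rw [show (m + l + -(m' + l) : ℝ) = m - m' by ring, abs_mul,
        abs_of_nonneg (by linarith only [l0] : (0 : ℝ) ≤ m + l + m'), mul_comm]
      gcongr
      linarith only [])
  set J := ‖JJ (F.V j) A (F.t j) (m + l) (-m) (-(m' + l)) m' 1 (-1) (-1) (- -1)‖ with hJ
  have K0 : 0 < (C₀ + C₁ + 1) * Q / F.T ^ 2 := by positivity
  have hs := wt_split (B := J / ((C₀ + C₁ + 1) * Q / F.T ^ 2)) (by linarith only [hQ] : 1 ≤ Q) hT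
    (by exact_mod_cast hH : (0 : ℝ) < H) h.h1 X0 w2 w1 (by positivity)
    (by
      rw [div_le_one K0]
      refine b0.trans ?_
      gcongr
      linarith only [h1])
    (by
      rw [div_le_iff₀ K0, mul_comm]
      refine b1.trans ?_
      gcongr
      linarith only [h0])
  rw [← mul_div_assoc, div_le_iff₀ K0] at hs
  refine hs.trans (le_of_eq ?_)
  field_simp

theorem pag_sum {N₁ : ℕ} {J : Finset ℕ} (hJ : ∀ m ∈ J, 1 ≤ m ∧ m ≤ N₁) :
    ∑ m ∈ J, ∑ m' ∈ J, (1 / |(m : ℝ) - m'|) ≤ N₁ * (2 * (1 + Real.log N₁)) := by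
  have h0 : 0 ≤ Real.log N₁ := Real.log_natCast_nonneg _
  have h1 : ∀ m ∈ J, ∑ m' ∈ J, (1 / |(m : ℝ) - m'|) ≤ 2 * (1 + Real.log N₁) := fun m hm => by
    refine le_trans ?_ (sum_inv_abs N₁)
    have e : ∑ m' ∈ J, (1 / |(m : ℝ) - m'|) =
        ∑ n ∈ J.image (fun m' : ℕ => (m : ℤ) - m'), (1 / |(n : ℝ)|) := by
      rw [Finset.sum_image (fun a _ b _ hab => by simpa using hab)]
      simp only [Int.cast_sub, Int.cast_natCast]
    rw [e]
    refine Finset.sum_le_sum_of_subset_of_nonneg (fun n hn => ?_) (fun _ _ _ => by positivity)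
    obtain ⟨a, ha, rfl⟩ := Finset.mem_image.1 hn
    have := hJ a ha
    have := hJ m hm
    rw [Finset.mem_Icc]
    omega
  have h2 : J.card ≤ N₁ := by
    have := Finset.card_le_card (s := J) (t := Finset.Icc 1 N₁)
      fun m hm => Finset.mem_Icc.2 (hJ m hm)
    simpa only [ge_iff_le, Nat.card_Icc, add_tsub_cancel_right] using this
  calc _ ≤ J.card • (2 * (1 + Real.log N₁)) := Finset.sum_le_card_nsmul _ _ _ h1
    _ ≤ _ := by
      rw [nsmul_eq_mul]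
      gcongr

/-- PAG.  Paper 7, P6: `xx_eq`, `J0`, `JA` with `P = l |m - m'|`, `wt_split`. -/
theorem pc_far {c : ℝ} (hc : 1 ≤ c) : ∃ C : ℝ, 0 ≤ C ∧ ∀ (ι : Type) (F : Fa ι c) (Q d Δ : ℝ)
    (N H : ℕ) (A : ℝ → ℝ), F.Par Q d Δ N H A →
    ∑ j ∈ F.s, F.Om j ^ 4 * ∑ l ∈ Finset.Ico 1 H,
      ‖∫ r, (F.V j r : ℂ) * ∑ m ∈ sh (Finset.Icc N F.N₁) l, ∑ m' ∈ sh (Finset.Icc N F.N₁) l,
        (wt (H ^ 2 / l + 1 : ℕ) (m - m') : ℂ) *
          (F.xx A (-1) j r l m * conj (F.xx A (-1) j r l m'))‖ ≤ C * F.U Q := by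
  obtain ⟨C, C0, hC⟩ := pag_one hc
  refine ⟨2 * C * (13 * c) * (3 * c * (2 * (13 * c))), by positivity, fun ι F Q d Δ N H A h => ?_⟩
  have hT := F.hT
  have hQ := h.q2
  have T0 : 0 < F.T := by linarith
  have Q0 : 0 < Q := by linarith
  have hW := F.hW
  have hK := F.hK
  have hD := F.one_le_DD
  have hA : Continuous A := h.pc.sm.c2.continuous
  have N0 : 1 ≤ N := by
    rcases Nat.eq_zero_or_pos N with e | e
    · have := h.tn
      rw [e, Nat.cast_zero, mul_zero] at this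
      linarith only [hT, this]
    · exact e
  have hmem : ∀ l, ∀ m ∈ sh (Finset.Icc N F.N₁) l, N ≤ m ∧ m ≤ F.N₁ ∧ m + l ≤ F.N₁ :=
    fun l m hm => by
      simp only [sh, Finset.mem_filter, Finset.mem_Icc] at hm
      exact ⟨hm.1.1, hm.1.2, hm.2.2⟩
  have HN : H ≤ 4 * F.N₁ := by
    have h1 := h.h2
    have h2 : d ^ 2 ≤ 1 := pow_le_one₀ h.d0.le h.d1
    have h3 : (1 : ℝ) ≤ Q ^ 4 := one_le_pow₀ (by linarith only [hQ])
    have h4 := F.n0
    have h5 : (H : ℝ) ≤ H * Q ^ 4 := le_mul_of_one_le_right (Nat.cast_nonneg _) h3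
    have h6 : d ^ 2 * F.T ≤ F.T := mul_le_of_le_one_left T0.le h2
    have h7 : F.T ≤ c * F.T := le_mul_of_one_le_left T0.le hc
    have h8 : (H : ℝ) ≤ 4 * F.N₁ := by linarith only [hT, h1, h4, h5, h6, h7]
    exact_mod_cast h8
  have s1 : ∀ j ∈ F.s, ∀ l ∈ Finset.Ico 1 H,
      ‖∫ r, (F.V j r : ℂ) * ∑ m ∈ sh (Finset.Icc N F.N₁) l, ∑ m' ∈ sh (Finset.Icc N F.N₁) l,
        (wt (H ^ 2 / l + 1 : ℕ) (m - m') : ℂ) *
          (F.xx A (-1) j r l m * conj (F.xx A (-1) j r l m'))‖ ≤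
      ∑ m ∈ sh (Finset.Icc N F.N₁) l, ∑ m' ∈ sh (Finset.Icc N F.N₁) l,
        |F.lam j m * F.lam j (m + l) * F.lam j m' * F.lam j (m' + l)| *
          (C / (F.T * Q) * (1 / l * (1 / |(m : ℝ) - m'|))) := fun j hj l hl => by
    rw [Finset.mem_Ico] at hl
    have hi : ∀ m m' : ℕ, Integrable fun r => (wt (H ^ 2 / l + 1 : ℕ) (m - m') : ℂ) *
        ((F.V j r : ℂ) * (F.xx A (-1) j r l m * conj (F.xx A (-1) j r l m'))) := fun m m' => by
      have := (F.vw j hj).int hc hT (E := ℂ) ((F.continuous_xx hA (-1) j l m).mul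
        (continuous_conj.comp (F.continuous_xx hA (-1) j l m')))
      exact Integrable.const_mul this _
    simp only [Finset.mul_sum, mul_left_comm (F.V j _ : ℂ) (wt _ _ : ℂ)]
    rw [integral_finsetSum _ fun m _ => integrable_finsetSum _ fun m' _ => hi m m']
    refine (norm_sum_le _ _).trans (Finset.sum_le_sum fun m hm => ?_)
    rw [integral_finsetSum _ fun m' _ => hi m m']
    refine (norm_sum_le _ _).trans (Finset.sum_le_sum fun m' hm' => ?_)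
    rw [integral_const_mul, F.xx_eq, norm_mul, norm_mul, norm_real, norm_real,
      Real.norm_of_nonneg (pag_wt hl.1 (by omega) _).1, Real.norm_eq_abs, mul_left_comm]
    exact mul_le_mul_of_nonneg_left (hC ι F Q d Δ N H A h j hj l m m' hl.1 (by omega)
      (hmem l m hm).1 (hmem l m' hm').1) (abs_nonneg _)
  have L1 := Fa.log_le hc F HN
  have L2 := Fa.log_le hc F (by omega : F.N₁ ≤ 4 * F.N₁)
  have s2 : ∑ l ∈ Finset.Ico 1 H, (1 / l : ℝ) ≤ 13 * c * F.DD := by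
    refine le_trans ?_ ((sum_inv_le H).trans L1)
    exact Finset.sum_le_sum_of_subset_of_nonneg Finset.Ico_subset_Icc_self
      fun _ _ _ => by positivity
  calc _ ≤ ∑ j ∈ F.s, ∑ l ∈ Finset.Ico 1 H, ∑ m ∈ sh (Finset.Icc N F.N₁) l,
        ∑ m' ∈ sh (Finset.Icc N F.N₁) l,
          F.Om j ^ 4 * |F.lam j m * F.lam j (m + l) * F.lam j m' * F.lam j (m' + l)| *
            (C / (F.T * Q) * (1 / l * (1 / |(m : ℝ) - m'|))) := by
        refine Finset.sum_le_sum fun j hj => ?_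
        rw [Finset.mul_sum]
        refine Finset.sum_le_sum fun l hl => ?_
        refine (mul_le_mul_of_nonneg_left (s1 j hj l hl) (pow_nonneg (F.Om_nonneg j) 4)).trans
          (le_of_eq ?_)
        simp only [Finset.mul_sum, mul_assoc]
    _ ≤ ∑ l ∈ Finset.Ico 1 H, 2 * F.W * F.DD ^ 2 * F.KK * (C / (F.T * Q)) *
          (3 * c * F.T * (2 * (13 * c * F.DD))) * (1 / l) := by
        rw [Finset.sum_comm]
        refine Finset.sum_le_sum fun l hl => ?_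
        have s3 := pag_sum (N₁ := F.N₁) (J := sh (Finset.Icc N F.N₁) l)
          fun m hm => ⟨N0.trans (hmem l m hm).1, (hmem l m hm).2.1⟩
        have s4 : (F.N₁ : ℝ) * (2 * (1 + Real.log F.N₁)) ≤
            3 * c * F.T * (2 * (13 * c * F.DD)) := by
          have h0 : 0 ≤ Real.log F.N₁ := Real.log_natCast_nonneg _
          gcongr
          exact F.n1
        calc _ ≤ ∑ m ∈ sh (Finset.Icc N F.N₁) l, ∑ m' ∈ sh (Finset.Icc N F.N₁) l,
              2 * F.W * F.DD ^ 2 * F.KK * (C / (F.T * Q) * (1 / l)) * (1 / |(m : ℝ) - m'|) := by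
              rw [Finset.sum_comm]
              refine Finset.sum_le_sum fun m hm => ?_
              rw [Finset.sum_comm]
              refine Finset.sum_le_sum fun m' hm' => ?_
              rw [← Finset.sum_mul]
              refine (mul_le_mul_of_nonneg_right (F.p4 (hmem l m hm).2.1 (hmem l m hm).2.2
                (hmem l m' hm').2.1 (hmem l m' hm').2.2) (by positivity)).trans (le_of_eq ?_)
              ring
          _ = 2 * F.W * F.DD ^ 2 * F.KK * (C / (F.T * Q) * (1 / l)) *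
              ∑ m ∈ sh (Finset.Icc N F.N₁) l, ∑ m' ∈ sh (Finset.Icc N F.N₁) l,
                (1 / |(m : ℝ) - m'|) := by simp only [Finset.mul_sum]
          _ ≤ 2 * F.W * F.DD ^ 2 * F.KK * (C / (F.T * Q) * (1 / l)) *
              (3 * c * F.T * (2 * (13 * c * F.DD))) :=
              mul_le_mul_of_nonneg_left (s3.trans s4) (by positivity)
          _ = _ := by ring
    _ ≤ 2 * F.W * F.DD ^ 2 * F.KK * (C / (F.T * Q)) *
          (3 * c * F.T * (2 * (13 * c * F.DD))) * (13 * c * F.DD) := by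
        rw [← Finset.mul_sum]
        exact mul_le_mul_of_nonneg_left s2 (by positivity)
    _ = _ := by
        unfold Fa.U
        field_simp

theorem pah_cs {g : ℝ → ℝ} (hg : Continuous g) (T : ℝ) {M : ℝ} (hM : 0 ≤ M) :
    (∫ u in T..(T + M), g u) ^ 2 ≤ M * ∫ u in T..(T + M), g u ^ 2 := by
  rcases hM.eq_or_lt with h | h
  · subst h
    simp
  set I₁ := ∫ u in T..(T + M), g u with hI
  have h0 : 0 ≤ ∫ u in T..(T + M), (M * g u - I₁) ^ 2 :=
    intervalIntegral.integral_nonneg (by linarith) fun u _ => sq_nonneg _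
  have e : ∀ u, (M * g u - I₁) ^ 2 = M ^ 2 * g u ^ 2 - 2 * M * I₁ * g u + I₁ ^ 2 := fun u => by ring
  have i1 : IntervalIntegrable (fun u => M ^ 2 * g u ^ 2) volume T (T + M) :=
    (continuous_const.mul (hg.pow 2)).intervalIntegrable _ _
  have i2 : IntervalIntegrable (fun u => 2 * M * I₁ * g u) volume T (T + M) :=
    (continuous_const.mul hg).intervalIntegrable _ _
  simp only [e] at h0
  rw [intervalIntegral.integral_add (i1.sub i2) intervalIntegrable_const,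
    intervalIntegral.integral_sub i1 i2, intervalIntegral.integral_const_mul,
    intervalIntegral.integral_const_mul, intervalIntegral.integral_const, ← hI, smul_eq_mul,
    add_sub_cancel_left] at h0
  refine le_of_mul_le_mul_left ?_ h
  linarith

/-- PAH.  `Y t₁ = Y T + ∫ Y'`, Cauchy-Schwarz. -/
theorem sobolev {Y Y' : ℝ → ℂ} (hY : ∀ t, HasDerivAt Y (Y' t) t) (hc : Continuous Y')
    {T M t : ℝ} (h1 : T ≤ t) (h2 : t ≤ T + M) :
    ‖Y t‖ ^ 2 ≤ 2 * ‖Y T‖ ^ 2 + 2 * M * ∫ u in T..(T + M), ‖Y' u‖ ^ 2 := by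
  have hM : 0 ≤ M := by linarith
  have e : ∫ u in T..t, Y' u = Y t - Y T :=
    intervalIntegral.integral_eq_sub_of_hasDerivAt (fun u _ => hY u) (hc.intervalIntegrable _ _)
  have a1 : ‖Y t - Y T‖ ≤ ∫ u in T..t, ‖Y' u‖ := by
    rw [← e]
    exact intervalIntegral.norm_integral_le_integral_norm h1
  have a2 : ∫ u in T..t, ‖Y' u‖ ≤ ∫ u in T..(T + M), ‖Y' u‖ :=
    intervalIntegral.integral_mono_interval le_rfl h1 h2
      (Filter.Eventually.of_forall fun u => norm_nonneg _) (hc.norm.intervalIntegrable _ _)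
  have a3 := pah_cs hc.norm T hM
  have a4 : ‖Y t‖ ≤ ‖Y T‖ + ‖Y t - Y T‖ := by
    have := norm_add_le (Y T) (Y t - Y T)
    rwa [add_sub_cancel] at this
  have a5 : ‖Y t‖ ≤ ‖Y T‖ + ∫ u in T..(T + M), ‖Y' u‖ := by linarith
  have a6 := pow_le_pow_left₀ (norm_nonneg _) a5 2
  linarith only [sq_nonneg (‖Y T‖ - ∫ u in T..(T + M), ‖Y' u‖), a3, a6]

theorem Fa.pah_p1 {ι : Type} {c : ℝ} (F : Fa ι c) {l : ℕ} (hl : 1 ≤ l) (J : Finset ℕ)
    (hJ : ∀ m ∈ J, 1 ≤ m ∧ m + l ≤ F.N₁) (a : ℕ → ℝ) (b : ℕ → ℂ) {μ : ℝ} (hμ : 0 ≤ μ)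
    (hb : ∀ m ∈ J, ‖b m‖ ≤ μ * |a m|) :
    ∑ j ∈ F.s, F.Om j ^ 2 * ‖∑ m ∈ J, b m * ((F.lam j m * F.lam j (m + l) : ℝ) : ℂ)‖ ^ 2 ≤
      μ ^ 2 * (F.DD ^ 2 * F.KK * (∑ m ∈ J, a m ^ 2 + F.ε * (∑ m ∈ J, |a m|) ^ 2)) := by
  refine (F.p1 hl J hJ b).trans ?_
  have h1 : ∑ m ∈ J, ‖b m‖ ^ 2 ≤ μ ^ 2 * ∑ m ∈ J, a m ^ 2 := by
    rw [Finset.mul_sum]
    refine Finset.sum_le_sum fun m hm => ?_
    have := pow_le_pow_left₀ (norm_nonneg _) (hb m hm) 2
    rwa [mul_pow, sq_abs] at this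
  have h2 : ∑ m ∈ J, ‖b m‖ ≤ μ * ∑ m ∈ J, |a m| := by
    rw [Finset.mul_sum]
    exact Finset.sum_le_sum hb
  have h3 := pow_le_pow_left₀ (Finset.sum_nonneg fun m _ => norm_nonneg (b m)) h2 2
  rw [mul_pow] at h3
  have h4 := mul_le_mul_of_nonneg_left h3 F.e0
  have h5 : 0 ≤ F.DD ^ 2 * F.KK := mul_nonneg (sq_nonneg _) F.hK
  calc _ ≤ F.DD ^ 2 * F.KK * (μ ^ 2 * ∑ m ∈ J, a m ^ 2 + F.ε * (μ ^ 2 * (∑ m ∈ J, |a m|) ^ 2)) :=
        mul_le_mul_of_nonneg_left (add_le_add h1 h4) h5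
    _ = _ := by ring

/-- PAH.  `p1` with coefficients that depend slowly on the spectral parameter. -/
theorem Fa.p1t {ι : Type} {c : ℝ} (F : Fa ι c) {l : ℕ} (hl : 1 ≤ l) (J : Finset ℕ)
    (hJ : ∀ m ∈ J, 1 ≤ m ∧ m + l ≤ F.N₁) (a ν : ℕ → ℝ) {ν₀ μ : ℝ} (hμ : 0 ≤ μ)
    (hν : ∀ m ∈ J, a m ≠ 0 → |ν m - ν₀| ≤ μ) :
    ∑ j ∈ F.s, F.Om j ^ 2 *
      ‖∑ m ∈ J, ((F.lam j m * F.lam j (m + l) * a m : ℝ) : ℂ) * ci (F.t j * ν m)‖ ^ 2 ≤
      2 * (1 + (F.M * μ) ^ 2) * F.DD ^ 2 * F.KK *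
        (∑ m ∈ J, a m ^ 2 + F.ε * (∑ m ∈ J, |a m|) ^ 2) := by
  set B := F.DD ^ 2 * F.KK * (∑ m ∈ J, a m ^ 2 + F.ε * (∑ m ∈ J, |a m|) ^ 2) with hB
  let Y : ι → ℝ → ℂ := fun j u =>
    ∑ m ∈ J, ((a m : ℂ) * ci (u * (ν m - ν₀))) * ((F.lam j m * F.lam j (m + l) : ℝ) : ℂ)
  let Y' : ι → ℝ → ℂ := fun j u =>
    ∑ m ∈ J, ((a m : ℂ) * ((ν m - ν₀ : ℝ) • (ci (u * (ν m - ν₀)) * I))) *
      ((F.lam j m * F.lam j (m + l) : ℝ) : ℂ)
  have hd : ∀ j u, HasDerivAt (Y j) (Y' j u) u := fun j u => by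
    refine HasDerivAt.fun_sum fun m _ => HasDerivAt.mul_const (HasDerivAt.const_mul _ ?_) _
    have h := (hasDerivAt_ci (u * (ν m - ν₀))).scomp u ((hasDerivAt_id u).mul_const (ν m - ν₀))
    rw [one_mul] at h
    exact h
  have hc : ∀ j, Continuous (Y' j) := fun j => by
    refine continuous_finsetSum _ fun m _ => ?_
    have h : Continuous fun u : ℝ => ci (u * (ν m - ν₀)) :=
      continuous_ci.comp (continuous_id.mul continuous_const)
    fun_prop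
  have e : ∀ j, ‖∑ m ∈ J, ((F.lam j m * F.lam j (m + l) * a m : ℝ) : ℂ) * ci (F.t j * ν m)‖ =
      ‖Y j (F.t j)‖ := fun j => by
    rw [← mul_one ‖Y j (F.t j)‖, ← norm_ci (F.t j * ν₀), ← norm_mul, Finset.sum_mul]
    refine congrArg _ (Finset.sum_congr rfl fun m _ => ?_)
    have : F.t j * ν m = F.t j * (ν m - ν₀) + F.t j * ν₀ := by ring
    rw [this, ci_add]
    push_cast
    ring
  have b0 : ∑ j ∈ F.s, F.Om j ^ 2 * ‖Y j F.T‖ ^ 2 ≤ B := by
    have := F.pah_p1 hl J hJ a (fun m => (a m : ℂ) * ci (F.T * (ν m - ν₀))) zero_le_one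
      fun m _ => by rw [norm_mul, norm_ci, norm_real, Real.norm_eq_abs, mul_one, one_mul]
    rwa [one_pow, one_mul] at this
  have b1 : ∀ u, ∑ j ∈ F.s, F.Om j ^ 2 * ‖Y' j u‖ ^ 2 ≤ μ ^ 2 * B := fun u =>
    F.pah_p1 hl J hJ a (fun m => (a m : ℂ) * ((ν m - ν₀ : ℝ) • (ci (u * (ν m - ν₀)) * I))) hμ
      fun m hm => by
        rw [norm_mul, norm_smul, norm_mul, norm_ci, norm_I, norm_real, Real.norm_eq_abs,
          Real.norm_eq_abs, mul_one, mul_one, mul_comm]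
        by_cases h : a m = 0
        · simp [h]
        · exact mul_le_mul_of_nonneg_right (hν m hm h) (abs_nonneg _)
  have ii : ∀ j ∈ F.s, IntervalIntegrable (fun u => F.Om j ^ 2 * ‖Y' j u‖ ^ 2) volume F.T
      (F.T + F.M) := fun j _ => (continuous_const.mul ((hc j).norm.pow 2)).intervalIntegrable _ _
  have b2 : ∑ j ∈ F.s, F.Om j ^ 2 * ∫ u in F.T..(F.T + F.M), ‖Y' j u‖ ^ 2 ≤ F.M * (μ ^ 2 * B) := by
    simp only [← intervalIntegral.integral_const_mul]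
    rw [← intervalIntegral.integral_finsetSum ii]
    have := intervalIntegral.integral_mono_on (μ := volume) (a := F.T) (b := F.T + F.M)
      (f := fun u => ∑ j ∈ F.s, F.Om j ^ 2 * ‖Y' j u‖ ^ 2) (g := fun _ => μ ^ 2 * B)
      (by linarith only [F.hM]) ((continuous_finsetSum _ fun j _ =>
        continuous_const.mul ((hc j).norm.pow 2)).intervalIntegrable _ _)
      intervalIntegrable_const fun u _ => b1 u
    rwa [intervalIntegral.integral_const, smul_eq_mul, add_sub_cancel_left] at this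
  calc _ ≤ ∑ j ∈ F.s, (2 * (F.Om j ^ 2 * ‖Y j F.T‖ ^ 2) +
        2 * F.M * (F.Om j ^ 2 * ∫ u in F.T..(F.T + F.M), ‖Y' j u‖ ^ 2)) := by
        refine Finset.sum_le_sum fun j hj => ?_
        rw [e]
        have := mul_le_mul_of_nonneg_left (sobolev (hd j) (hc j) (F.t1 j hj) (F.t2 j hj))
          (sq_nonneg (F.Om j))
        linarith only [this]
    _ ≤ 2 * B + 2 * F.M * (F.M * (μ ^ 2 * B)) := by
        rw [Finset.sum_add_distrib, ← Finset.mul_sum, ← Finset.mul_sum]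
        have := mul_le_mul_of_nonneg_left b2 (mul_nonneg zero_le_two F.hM)
        linarith
    _ = _ := by rw [hB]; ring

theorem pai_nu {r d : ℝ} {N m m' l : ℕ} (hN : 1 ≤ N) (hd : 0 < d) (hm : N ≤ m) (hm' : N ≤ m')
    (b₁ : d ^ 4 ≤ qq (r + Real.log (m + l : ℕ))) (b₂ : d ^ 4 ≤ qq (r + Real.log (m' + l : ℕ))) :
    |(FF (r + Real.log (m + l : ℕ)) + -1 * FF (r + Real.log m)) -
      (FF (r + Real.log (m' + l : ℕ)) + -1 * FF (r + Real.log m'))| ≤
      l * |(m : ℝ) - m'| / (d ^ 2 * (N : ℝ) ^ 2) := by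
  have hE := Real.exp_pos r
  have hN0 : (0 : ℝ) < N := by exact_mod_cast hN
  have e : ∀ n : ℕ, N ≤ n → Real.log (n * Real.exp r) = r + Real.log n := fun n hn => by
    have : (0 : ℝ) < n := by exact_mod_cast hN.trans hn
    rw [Real.log_mul this.ne' hE.ne', Real.log_exp, add_comm]
  have e' : ∀ n : ℕ, (n : ℝ) * Real.exp r + l * Real.exp r = (n + l : ℕ) * Real.exp r := fun n => by
    push_cast
    ring
  have p : ∀ n : ℕ, N ≤ n → ((n + l : ℕ) : ℝ) ≠ 0 := fun n hn => by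
    have : 0 < n + l := by omega
    exact_mod_cast this.ne'
  rw [qq_log r (p m hm), ← e'] at b₁
  rw [qq_log r (p m' hm'), ← e'] at b₂
  have key := nu_diff (ν := N * Real.exp r) (by positivity) hd
    (mul_le_mul_of_nonneg_right (by exact_mod_cast hm) hE.le)
    (mul_le_mul_of_nonneg_right (by exact_mod_cast hm') hE.le) (by positivity) b₁ b₂
  rw [e', e', e _ hm, e _ hm', e _ (hm.trans (Nat.le_add_right _ _)),
    e _ (hm'.trans (Nat.le_add_right _ _)), ← sub_mul, abs_mul, abs_of_pos hE] at key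
  rw [neg_one_mul, neg_one_mul, ← sub_eq_add_neg, ← sub_eq_add_neg]
  refine key.trans (le_of_eq ?_)
  field_simp

theorem pai_pos {ι : Type} {c : ℝ} {F : Fa ι c} {Q d Δ : ℝ} {N H : ℕ} {A : ℝ → ℝ}
    (h : F.Par Q d Δ N H A) : 1 ≤ N := by
  rcases Nat.eq_zero_or_pos N with h0 | h0
  · have := h.tn
    rw [h0, Nat.cast_zero, mul_zero] at this
    linarith [F.hT]
  · exact h0

/-- one block -/
theorem pai_blk {ι : Type} {c : ℝ} (F : Fa ι c) {Q d Δ : ℝ} {N H : ℕ} {A : ℝ → ℝ}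
    (h : F.Par Q d Δ N H A) {l : ℕ} (hl : 1 ≤ l) (r : ℝ) (s : ℕ) :
    ∑ j ∈ F.s, F.Om j ^ 2 *
      ‖∑ m ∈ blk (sh (Finset.Icc N F.N₁) l) (H ^ 2 / l + 1) s, F.xx A (-1) j r l m‖ ^ 2 ≤
      4 * F.DD ^ 2 * F.KK * ((1 + F.ε * (H ^ 2 / l + 1 : ℕ)) *
        ∑ m ∈ blk (sh (Finset.Icc N F.N₁) l) (H ^ 2 / l + 1) s,
          (A (r + Real.log m) * A (r + Real.log (m + l : ℕ))) ^ 2) := by
  have hN := pai_pos h
  have hN0 : (0 : ℝ) < N := by exact_mod_cast hN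
  have hd := h.d0
  set B := blk (sh (Finset.Icc N F.N₁) l) (H ^ 2 / l + 1) s with hB
  have hmem : ∀ m ∈ B, N ≤ m ∧ m + l ≤ F.N₁ ∧ m ≤ s ∧ s < m + (H ^ 2 / l + 1) := fun m hm => by
    simp only [hB, blk, sh, Finset.mem_filter, Finset.mem_Icc] at hm
    exact ⟨hm.1.1.1, hm.1.2.2, hm.2.1, hm.2.2⟩
  set μ : ℝ := (H : ℝ) ^ 2 / (d ^ 2 * (N : ℝ) ^ 2) with hμ
  have hμ0 : 0 ≤ μ := by positivity
  obtain ⟨ν₀, hν⟩ : ∃ ν₀ : ℝ, ∀ m ∈ B, A (r + Real.log m) * A (r + Real.log (m + l : ℕ)) ≠ 0 →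
      |(FF (r + Real.log (m + l : ℕ)) + -1 * FF (r + Real.log m)) - ν₀| ≤ μ := by
    by_cases hex : ∃ m' ∈ B, A (r + Real.log m') * A (r + Real.log (m' + l : ℕ)) ≠ 0
    · obtain ⟨m', hm', ha'⟩ := hex
      refine ⟨_, fun m hm ha => (pai_nu hN hd (hmem m hm).1 (hmem m' hm').1
        (h.pc.supp _ (right_ne_zero_of_mul ha)).1 (h.pc.supp _ (right_ne_zero_of_mul ha')).1).trans
        (div_le_div_of_nonneg_right ?_ (by positivity))⟩
      have h1 : m ≤ m' + H ^ 2 / l := by have := hmem m hm; have := hmem m' hm'; omega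
      have h2 : m' ≤ m + H ^ 2 / l := by have := hmem m hm; have := hmem m' hm'; omega
      have h1' : (m : ℝ) ≤ m' + (H ^ 2 / l : ℕ) := by exact_mod_cast h1
      have h2' : (m' : ℝ) ≤ m + (H ^ 2 / l : ℕ) := by exact_mod_cast h2
      have h3 : |(m : ℝ) - m'| ≤ (H ^ 2 / l : ℕ) := abs_le.2 ⟨by linarith only [h2'], by linarith only [h1']⟩
      have h4 : (l : ℝ) * (H ^ 2 / l : ℕ) ≤ (H : ℝ) ^ 2 := by
        exact_mod_cast Nat.mul_div_le (H ^ 2) l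
      exact (mul_le_mul_of_nonneg_left h3 (Nat.cast_nonneg l)).trans h4
    · exact ⟨0, fun m hm ha => absurd ⟨m, hm, ha⟩ hex⟩
  have key := F.p1t hl B (fun m hm => ⟨hN.trans (hmem m hm).1, (hmem m hm).2.1⟩)
    (fun m => A (r + Real.log m) * A (r + Real.log (m + l : ℕ)))
    (fun m => FF (r + Real.log (m + l : ℕ)) + -1 * FF (r + Real.log m)) hμ0 hν
  refine key.trans ?_
  have hQ : 0 < Q := by linarith only [h.q2]
  have hMμ : F.M * μ ≤ 1 := by
    have h1 : F.T ^ 2 ≤ (Q * N) ^ 2 := pow_le_pow_left₀ (by linarith only [F.hT]) h.tn 2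
    have h2 : F.M * (H : ℝ) ^ 2 * Q ^ 2 ≤ d ^ 2 * (N : ℝ) ^ 2 * Q ^ 2 :=
      h.h4.trans ((mul_le_mul_of_nonneg_left h1 (sq_nonneg d)).trans (le_of_eq (by ring)))
    rw [hμ, ← mul_div_assoc, div_le_one (by positivity)]
    exact le_of_mul_le_mul_right h2 (by positivity)
  have h2 : (F.M * μ) ^ 2 ≤ 1 := pow_le_one₀ (mul_nonneg F.hM hμ0) hMμ
  have h3 : (∑ m ∈ B, |A (r + Real.log m) * A (r + Real.log (m + l : ℕ))|) ^ 2 ≤
      (H ^ 2 / l + 1 : ℕ) * ∑ m ∈ B, (A (r + Real.log m) * A (r + Real.log (m + l : ℕ))) ^ 2 := by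
    refine sq_sum_le_card_mul_sum_sq.trans ?_
    simp only [sq_abs]
    exact mul_le_mul_of_nonneg_right (by exact_mod_cast card_blk _ _ s)
      (Finset.sum_nonneg fun _ _ => sq_nonneg _)
  have hK := F.hK
  have he := F.e0
  refine mul_le_mul (by nlinarith only [mul_nonneg (sq_nonneg F.DD) hK, h2]) ?_ (by positivity)
    (by positivity)
  rw [add_mul, one_mul, mul_assoc]
  gcongr

/-- the active indices -/
theorem pai_act {ι : Type} {c : ℝ} (hc : 1 ≤ c) (F : Fa ι c) {Q d Δ : ℝ} {N H : ℕ} {A : ℝ → ℝ}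
    (h : F.Par Q d Δ N H A) (l : ℕ) {r : ℝ} (hr : 1 / (c * F.T) ≤ Real.exp r) :
    ∑ m ∈ sh (Finset.Icc N F.N₁) l, (A (r + Real.log m) * A (r + Real.log (m + l : ℕ))) ^ 2 ≤
      3 * c * Q * F.T := by
  have hN := pai_pos h
  have hd := h.d0
  have hd4 : 0 < d ^ 4 := pow_pos hd 4
  have hΔ : 0 ≤ Δ := hd4.le.trans h.D0
  have hT := F.hT
  rw [← Finset.sum_filter_ne_zero]
  have h1 := card_active (r := r) hΔ (J := (sh (Finset.Icc N F.N₁) l).filter fun m =>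
    (A (r + Real.log m) * A (r + Real.log (m + l : ℕ))) ^ 2 ≠ 0) fun n hn => by
      simp only [sh, Finset.mem_filter, Finset.mem_Icc] at hn
      have := h.pc.supp _ (left_ne_zero_of_mul (ne_zero_pow two_ne_zero hn.2))
      exact ⟨hN.trans hn.1.1.1, by rw [abs_of_pos (hd4.trans_le this.1)]; exact this.2⟩
  have h2 : ∀ u v : ℝ, (A u * A v) ^ 2 ≤ 1 / d ^ 4 := fun u v => by
    have hu := h.pc.sm.b0 u trivial
    have hv := h.pc.sm.b0 v trivial
    calc (A u * A v) ^ 2 = (|A u| * |A v|) ^ 2 := by rw [← abs_mul, sq_abs]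
      _ ≤ (1 / d * (1 / d)) ^ 2 := by gcongr
      _ = 1 / d ^ 4 := by field_simp
  refine (Finset.sum_le_card_nsmul _ _ _ fun m _ => h2 _ _).trans ?_
  rw [nsmul_eq_mul, mul_one_div, div_le_iff₀ hd4]
  have h3 : Real.exp (-r) ≤ c * F.T := by
    rw [Real.exp_neg]
    exact inv_le_of_inv_le₀ (by positivity) (by rwa [← one_div])
  have h4 : 1 ≤ Δ * (c * F.T) := by
    have h5 : d ^ 6 ≤ d ^ 4 := pow_le_pow_of_le_one hd.le h.d1 (by norm_num)
    calc (1 : ℝ) ≤ F.T * d ^ 6 := h.td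
      _ ≤ F.T * Δ := mul_le_mul_of_nonneg_left (h5.trans h.D0) (by linarith only [hT])
      _ = Δ * (1 * F.T) := by ring
      _ ≤ Δ * (c * F.T) := by gcongr
  have h5 : Δ * (c * F.T) ≤ Q * d ^ 4 * (c * F.T) :=
    mul_le_mul_of_nonneg_right h.dq (by positivity)
  have h6 : Δ * Real.exp (-r) ≤ Δ * (c * F.T) := mul_le_mul_of_nonneg_left h3 hΔ
  linarith only [h1, h4, h5, h6]

/-- all blocks at a fixed point -/
theorem pai_fix {ι : Type} {c : ℝ} (hc : 1 ≤ c) (F : Fa ι c) {Q d Δ : ℝ} {N H : ℕ} {A : ℝ → ℝ}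
    (h : F.Par Q d Δ N H A) {l : ℕ} (hl : 1 ≤ l) {r : ℝ} (hr : 1 / (c * F.T) ≤ Real.exp r) :
    ∑ j ∈ F.s, F.Om j ^ 4 * ((∑ s ∈ Finset.range (F.N₁ + (H ^ 2 / l + 1)),
        ‖∑ m ∈ blk (sh (Finset.Icc N F.N₁) l) (H ^ 2 / l + 1) s, F.xx A (-1) j r l m‖ ^ 2) /
          (H ^ 2 / l + 1 : ℕ)) ≤
      12 * c * F.W * F.DD ^ 2 * F.KK * Q * F.T * (1 + F.ε * (H ^ 2 / l + 1 : ℕ)) := by
  have hL : (0 : ℝ) < (H ^ 2 / l + 1 : ℕ) := by exact_mod_cast Nat.succ_pos _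
  have hW : 0 ≤ F.W := by linarith only [F.hW]
  have hK := F.hK
  have he := F.e0
  calc _ ≤ ∑ j ∈ F.s, F.W / (H ^ 2 / l + 1 : ℕ) * ∑ s ∈ Finset.range (F.N₁ + (H ^ 2 / l + 1)),
        F.Om j ^ 2 *
          ‖∑ m ∈ blk (sh (Finset.Icc N F.N₁) l) (H ^ 2 / l + 1) s, F.xx A (-1) j r l m‖ ^ 2 := by
        refine Finset.sum_le_sum fun j hj => ?_
        rw [← Finset.mul_sum]
        have h1 : F.Om j ^ 2 ≤ F.W := F.om j hj
        calc _ = F.Om j ^ 2 / (H ^ 2 / l + 1 : ℕ) * (F.Om j ^ 2 *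
              ∑ s ∈ Finset.range (F.N₁ + (H ^ 2 / l + 1)), ‖∑ m ∈ blk (sh (Finset.Icc N F.N₁) l)
                (H ^ 2 / l + 1) s, F.xx A (-1) j r l m‖ ^ 2) := by ring
          _ ≤ _ := by gcongr
    _ ≤ F.W / (H ^ 2 / l + 1 : ℕ) * ∑ s ∈ Finset.range (F.N₁ + (H ^ 2 / l + 1)),
        4 * F.DD ^ 2 * F.KK * ((1 + F.ε * (H ^ 2 / l + 1 : ℕ)) *
          ∑ m ∈ blk (sh (Finset.Icc N F.N₁) l) (H ^ 2 / l + 1) s,
            (A (r + Real.log m) * A (r + Real.log (m + l : ℕ))) ^ 2) := by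
        rw [← Finset.mul_sum, Finset.sum_comm]
        exact mul_le_mul_of_nonneg_left (Finset.sum_le_sum fun s _ => pai_blk F h hl r s)
          (by positivity)
    _ = 4 * F.W * F.DD ^ 2 * F.KK * (1 + F.ε * (H ^ 2 / l + 1 : ℕ)) *
        ∑ m ∈ sh (Finset.Icc N F.N₁) l,
          (A (r + Real.log m) * A (r + Real.log (m + l : ℕ))) ^ 2 := by
        rw [← Finset.mul_sum, ← Finset.mul_sum, sum_blk (sh (Finset.Icc N F.N₁) l) (N := F.N₁)
          (fun n hn => (Finset.mem_Icc.1 (Finset.mem_filter.1 hn).1).2)]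
        field_simp
    _ ≤ 4 * F.W * F.DD ^ 2 * F.KK * (1 + F.ε * (H ^ 2 / l + 1 : ℕ)) * (3 * c * Q * F.T) :=
        mul_le_mul_of_nonneg_left (pai_act hc F h l hr) (by positivity)
    _ = _ := by ring

theorem pai_sum {ι : Type} {c : ℝ} (hc : 1 ≤ c) (F : Fa ι c) {Q d Δ : ℝ} {N H : ℕ} {A : ℝ → ℝ}
    (h : F.Par Q d Δ N H A) :
    Q ^ 2 * ∑ l ∈ Finset.Ico 1 H, (1 + F.ε * (H ^ 2 / l + 1 : ℕ)) ≤ 15 * c * F.DD * F.T := by
  have hQ : 1 ≤ Q := by linarith [h.q2]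
  have hT := F.hT
  have he := F.e0
  have hD := F.one_le_DD
  have hH0 : (0 : ℝ) ≤ H := Nat.cast_nonneg H
  have hHQ : Q ^ 2 * H ≤ F.T := by
    have h1 : Q ^ 2 ≤ Q ^ 4 := pow_le_pow_right₀ hQ (by norm_num)
    have h2 : d ^ 2 ≤ 1 := pow_le_one₀ h.d0.le h.d1
    calc Q ^ 2 * H ≤ Q ^ 4 * H := by gcongr
      _ ≤ d ^ 2 * F.T := by rw [mul_comm]; exact h.h2
      _ ≤ 1 * F.T := by gcongr
      _ = F.T := one_mul _
  have hH : H ≤ 4 * F.N₁ := by
    have h1 : (H : ℝ) ≤ Q ^ 2 * H := le_mul_of_one_le_left hH0 (one_le_pow₀ hQ)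
    have h2 : F.T ≤ c * F.T := le_mul_of_one_le_left (by linarith) hc
    have h3 : (H : ℝ) ≤ 4 * F.N₁ := by linarith [F.n0]
    exact_mod_cast h3
  have h1 : ∑ l ∈ Finset.Ico 1 H, (1 + F.ε * (H ^ 2 / l + 1 : ℕ)) ≤
      ∑ l ∈ Finset.Icc 1 H, (2 + F.ε * (H : ℝ) ^ 2 * (1 / l)) := by
    refine (Finset.sum_le_sum fun l _ => ?_).trans (Finset.sum_le_sum_of_subset_of_nonneg
      Finset.Ico_subset_Icc_self fun l _ _ => by positivity)
    have h2 : ((H ^ 2 / l : ℕ) : ℝ) ≤ (H : ℝ) ^ 2 * (1 / l) := by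
      rw [mul_one_div]
      exact_mod_cast Nat.cast_div_le (α := ℝ) (m := H ^ 2) (n := l)
    have h3 := mul_le_mul_of_nonneg_left h2 he
    rw [Nat.cast_add, Nat.cast_one, mul_add, mul_assoc]
    linarith only [F.e1, h3]
  rw [Finset.sum_add_distrib (s := Finset.Icc 1 H), ← Finset.mul_sum, Finset.sum_const,
    Nat.card_Icc, Nat.add_sub_cancel, nsmul_eq_mul] at h1
  have h2 := (sum_inv_le H).trans (F.log_le hc hH)
  have h3 : 1 ≤ c * F.DD := one_le_mul_of_one_le_of_one_le hc hD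
  calc _ ≤ Q ^ 2 * (H * 2 + F.ε * (H : ℝ) ^ 2 * (13 * c * F.DD)) :=
        mul_le_mul_of_nonneg_left (h1.trans (by gcongr)) (sq_nonneg Q)
    _ = 2 * (Q ^ 2 * H) * 1 + F.ε * (H : ℝ) ^ 2 * Q ^ 2 * (13 * c * F.DD) := by ring
    _ ≤ 2 * F.T * (c * F.DD) + F.T * (13 * c * F.DD) := by
        have := h.h3
        gcongr
    _ = _ := by ring

/-- PAI.  Paper 7, P7: `int_sum_le`; at fixed `r`: `p1t` in every block (`nu_diff` with
`ν = N exp r`, `ν₀` the value at an active index of the block), `sum_blk`, `card_blk`,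
`card_active`. -/
theorem pc_near {c : ℝ} (hc : 1 ≤ c) : ∃ C : ℝ, 0 ≤ C ∧ ∀ (ι : Type) (F : Fa ι c) (Q d Δ : ℝ)
    (N H : ℕ) (A : ℝ → ℝ), F.Par Q d Δ N H A →
    ∑ j ∈ F.s, F.Om j ^ 4 * ∑ l ∈ Finset.Ico 1 H,
      ∫ r, F.V j r * ((∑ s ∈ Finset.range (F.N₁ + (H ^ 2 / l + 1)),
        ‖∑ m ∈ blk (sh (Finset.Icc N F.N₁) l) (H ^ 2 / l + 1) s, F.xx A (-1) j r l m‖ ^ 2) /
          (H ^ 2 / l + 1 : ℕ)) ≤ C * F.U Q := by
  refine ⟨360 * c ^ 4, by positivity, fun ι F Q d Δ N H A h => ?_⟩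
  have hQ : 0 < Q := by linarith [h.q2]
  have hT : 0 < F.T := by linarith [F.hT]
  have hc0 : 0 < c := by linarith
  have hW : 0 ≤ F.W := by linarith [F.hW]
  have hK := F.hK
  have he := F.e0
  have hD := F.one_le_DD
  have hA : Continuous A := h.pc.sm.c2.continuous
  simp only [Finset.mul_sum (Finset.Ico 1 H)]
  rw [Finset.sum_comm]
  calc _ ≤ ∑ l ∈ Finset.Ico 1 H, 2 * c ^ 2 * (12 * c * F.W * F.DD ^ 2 * F.KK * Q * F.T *
        (1 + F.ε * (H ^ 2 / l + 1 : ℕ))) / F.T ^ 2 := by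
        refine Finset.sum_le_sum fun l hl => ?_
        refine le_of_eq_of_le (Finset.sum_congr rfl fun j _ => ?_) (F.int_sum_le hc (by positivity)
          (fun j _ => ?_) (fun j _ r => ?_)
          fun r hr _ => pai_fix hc F h (Finset.mem_Ico.1 hl).1 hr)
        · rw [← integral_const_mul]
          exact integral_congr_ae (.of_forall fun r => mul_left_comm _ _ _)
        · exact continuous_const.mul ((continuous_finsetSum _ fun s _ =>
            (continuous_finsetSum _ fun m _ => F.continuous_xx hA _ j l m).norm.pow 2).div_const _)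
        · positivity
    _ = 24 * c ^ 3 * (F.W * F.DD ^ 2 * F.KK / Q) / F.T *
        (Q ^ 2 * ∑ l ∈ Finset.Ico 1 H, (1 + F.ε * (H ^ 2 / l + 1 : ℕ))) := by
        rw [← Finset.sum_div, ← Finset.mul_sum, ← Finset.mul_sum]
        field_simp
        ring
    _ ≤ 24 * c ^ 3 * (F.W * F.DD ^ 2 * F.KK / Q) / F.T * (15 * c * F.DD * F.T) :=
        mul_le_mul_of_nonneg_left (pai_sum hc F h) (by positivity)
    _ = 360 * c ^ 4 * (F.W * F.DD ^ 3 * F.KK / Q) := by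
        field_simp
        ring
    _ ≤ _ := by
        have : F.DD ^ 3 ≤ F.DD ^ 4 := pow_le_pow_right₀ hD (by norm_num)
        unfold Fa.U
        gcongr

theorem paj_int {c T : ℝ} {V : ℝ → ℝ} (hc : 1 ≤ c) (hT : 1 ≤ T) (h : Vw c T V) {g : ℝ → ℝ}
    (hg : Continuous g) : Integrable fun r => V r * g r := h.int hc hT hg

theorem paj_re {c T : ℝ} {V : ℝ → ℝ} (hc : 1 ≤ c) (hT : 1 ≤ T) (h : Vw c T V) {g : ℝ → ℂ}
    (hg : Continuous g) : ∫ r, V r * (g r).re ≤ ‖∫ r, (V r : ℂ) * g r‖ := by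
  have h1 : Integrable fun r => (V r : ℂ) * g r := by
    simpa only [Complex.real_smul] using h.int hc hT hg
  have h2 := integral_re h1
  simp only [RCLike.re_to_complex, re_ofReal_mul] at h2
  rw [h2]
  exact re_le_norm _

theorem paj_nn {c T : ℝ} {V : ℝ → ℝ} (h : Vw c T V) (g : ℝ → ℂ) : 0 ≤ ∫ r, V r * ‖g r‖ ^ 2 :=
  integral_nonneg fun r => mul_nonneg (h.nn r) (sq_nonneg _)

theorem paj_cont {ι : Type} {c : ℝ} (F : Fa ι c) {A : ℝ → ℝ} (hA : Continuous A) (σ : ℝ) (j : ι)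
    (l : ℕ) (K : Finset ℕ) : Continuous fun r => ‖∑ m ∈ K, F.xx A σ j r l m‖ ^ 2 :=
  (continuous_finsetSum _ fun m _ => F.continuous_xx hA σ j l m).norm.pow 2

theorem paj_slow {ι : Type} {c : ℝ} (hc : 1 ≤ c) (F : Fa ι c) {A : ℝ → ℝ} (hA : Continuous A)
    {j : ι} (hj : j ∈ F.s) (l : ℕ) {L : ℕ} (hL : 1 ≤ L) {K : Finset ℕ} (hK : ∀ n ∈ K, n ≤ F.N₁) :
    ∫ r, F.V j r * ‖∑ m ∈ K, F.xx A (-1) j r l m‖ ^ 2 ≤
      (∫ r, F.V j r * ((∑ s ∈ Finset.range (F.N₁ + L),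
        ‖∑ m ∈ blk K L s, F.xx A (-1) j r l m‖ ^ 2) / L)) +
      ‖∫ r, (F.V j r : ℂ) * ∑ m ∈ K, ∑ m' ∈ K, (wt L (m - m') : ℂ) *
        (F.xx A (-1) j r l m * conj (F.xx A (-1) j r l m'))‖ := by
  have c1 : Continuous fun r => (∑ s ∈ Finset.range (F.N₁ + L),
      ‖∑ m ∈ blk K L s, F.xx A (-1) j r l m‖ ^ 2) / L :=
    (continuous_finsetSum _ fun s _ => paj_cont F hA (-1) j l _).div_const _
  have c2 : Continuous fun r => ∑ m ∈ K, ∑ m' ∈ K, (wt L (m - m') : ℂ) *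
      (F.xx A (-1) j r l m * conj (F.xx A (-1) j r l m')) :=
    continuous_finsetSum _ fun m _ => continuous_finsetSum _ fun m' _ =>
      continuous_const.mul ((F.continuous_xx hA (-1) j l m).mul
        (continuous_conj.comp (F.continuous_xx hA (-1) j l m')))
  refine le_trans (le_of_eq ?_) (add_le_add le_rfl (paj_re hc F.hT (F.vw j hj) c2))
  refine Eq.trans (integral_congr_ae (Filter.Eventually.of_forall fun r => ?_))
    (integral_add (paj_int hc F.hT (F.vw j hj) c1)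
      (paj_int hc F.hT (F.vw j hj) (continuous_re.comp c2)))
  beta_reduce
  rw [tent hL hK, mul_add]

/-- PAJ.  `tent`, `pc_far`, `pc_near`. -/
theorem pc_slow {c : ℝ} (hc : 1 ≤ c) : ∃ C : ℝ, 0 ≤ C ∧ ∀ (ι : Type) (F : Fa ι c) (Q d Δ : ℝ)
    (N H : ℕ) (A : ℝ → ℝ), F.Par Q d Δ N H A →
    ∑ j ∈ F.s, F.Om j ^ 4 * ∑ l ∈ Finset.Ico 1 H,
      ∫ r, F.V j r * ‖∑ m ∈ sh (Finset.Icc N F.N₁) l, F.xx A (-1) j r l m‖ ^ 2 ≤ C * F.U Q := by
  obtain ⟨C₁, h₁, k₁⟩ := pc_near hc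
  obtain ⟨C₂, h₂, k₂⟩ := pc_far hc
  refine ⟨C₁ + C₂, add_nonneg h₁ h₂, fun ι F Q d Δ N H A h => ?_⟩
  rw [add_mul]
  refine le_trans ?_ (add_le_add (k₁ ι F Q d Δ N H A h) (k₂ ι F Q d Δ N H A h))
  rw [← Finset.sum_add_distrib]
  refine Finset.sum_le_sum fun j hj => ?_
  rw [← mul_add, ← Finset.sum_add_distrib]
  refine mul_le_mul_of_nonneg_left (Finset.sum_le_sum fun l _ => ?_)
    (pow_nonneg (F.Om_nonneg j) 4)
  exact paj_slow hc F h.pc.sm.c2.continuous hj l (Nat.le_add_left 1 _) fun n hn =>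
    (Finset.mem_Icc.1 (Finset.mem_filter.1 hn).1).2

theorem paj_sx (J : Finset ℕ) {a : ℝ → ℕ → ℂ} (h : ∀ n, Continuous fun r => a r n) (n : ℤ) :
    Continuous fun r => sx J (a r) n := by
  unfold sx
  split_ifs
  · exact h _
  · exact continuous_conj.comp (h _)
  · exact continuous_const

theorem paj_par {ι : Type} {c : ℝ} {F : Fa ι c} {Q d Δ : ℝ} {N H : ℕ} {A : ℝ → ℝ}
    (h : F.Par Q d Δ N H A) : 1 ≤ H ∧ 3 * H ≤ 2 * N := by
  have hQ : 0 < Q := by linarith [h.q2]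
  have hT := F.hT
  constructor
  · rcases Nat.eq_zero_or_pos H with rfl | h0
    · have h1 := h.h1
      have h2 : 0 < Q ^ 14 * F.T := by positivity
      simp only [Nat.cast_zero] at h1
      linarith
    · exact h0
  · have h1 : d ^ 2 * F.T ≤ F.T :=
      mul_le_of_le_one_left (by linarith) (pow_le_one₀ h.d0.le h.d1)
    have h2 : Q * (H * Q ^ 3) ≤ Q * N := by linarith [h.h2, h.tn]
    have h3 := le_of_mul_le_mul_left h2 hQ
    have h4 : (H : ℝ) * 2 ^ 3 ≤ H * Q ^ 3 :=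
      mul_le_mul_of_nonneg_left (pow_le_pow_left₀ (by norm_num) h.q2 3) (Nat.cast_nonneg _)
    have h5 : ((8 * H : ℕ) : ℝ) ≤ N := by push_cast; linarith
    have h6 : 8 * H ≤ N := by exact_mod_cast h5
    omega

theorem paj_sq {S D E η : ℝ} (h0 : 0 < η) (h1 : η ≤ 1) (h : |S - D| ≤ E) :
    S ^ 2 ≤ (1 + η) * D ^ 2 + 2 * (E ^ 2 / η) ∧
      ∀ u : ℝ, |u * (2 * S) - 2 * (u * D)| ≤ η * u ^ 2 + E ^ 2 / η := by
  have h2 : (S - D) ^ 2 ≤ E ^ 2 := by
    rw [← sq_abs]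
    exact pow_le_pow_left₀ (abs_nonneg _) h 2
  have key : ∀ u : ℝ, |2 * u * (S - D)| ≤ η * u ^ 2 + E ^ 2 / η := fun u => by
    have h3 : (S - D) ^ 2 / η ≤ E ^ 2 / η := div_le_div_of_nonneg_right h2 h0.le
    obtain ⟨w, hw⟩ : ∃ w, S - D = η * w := ⟨(S - D) / η, by field_simp⟩
    have h4 : (η * w) ^ 2 / η = η * w ^ 2 := by field_simp
    rw [hw] at h3 ⊢
    rw [h4] at h3
    have h5 := mul_nonneg h0.le (sq_nonneg (u - w))
    have h6 := mul_nonneg h0.le (sq_nonneg (u + w))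
    rw [abs_le]
    constructor <;> linarith only [h3, h6, h5]
  constructor
  · have h3 := (abs_le.1 (key D)).2
    have h4 : E ^ 2 ≤ E ^ 2 / η := le_div_self (sq_nonneg _) h0 h1
    linarith
  · intro u
    convert key u using 2
    ring

/-- PAJ.  `fej`, `bt_le`, `sq_sub_le`, `tp_two`, `pc_rem`, `pc_fast`, `pc_slow`. -/
theorem piece {c : ℝ} (hc : 1 ≤ c) : ∃ C : ℝ, 0 ≤ C ∧ ∀ (ι : Type) (F : Fa ι c) (Q d Δ : ℝ)
    (N H : ℕ) (A : ℝ → ℝ), F.Par Q d Δ N H A → ∃ err : ι → ℝ, (∀ j ∈ F.s, 0 ≤ err j) ∧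
    ∑ j ∈ F.s, err j ≤ C * F.U Q ∧ ∀ j ∈ F.s, ∀ η : ℝ, 0 < η → η ≤ 1 →
      I4 (F.V j) (fun r => tp (Finset.Icc N F.N₁) (F.al A j r)) ≤
        12 * (1 + η) * (∫ r, F.V j r * (F.om2 j * F.Dm A (Finset.Icc N F.N₁) j r) ^ 2) + err j / η ∧
      |I2 (F.V j) (fun r => tp (Finset.Icc N F.N₁) (F.al A j r)) -
        2 * ∫ r, F.V j r * (Real.exp (-r) * (F.om2 j * F.Dm A (Finset.Icc N F.N₁) j r))| ≤
        η * I0 (F.V j) + err j / η := by
  obtain ⟨C₁, h₁, k₁⟩ := pc_fast hc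
  obtain ⟨C₂, h₂, k₂⟩ := pc_slow hc
  obtain ⟨C₃, h₃, k₃⟩ := pc_rem hc
  refine ⟨48 * C₁ + 48 * C₂ + C₃, by positivity, fun ι F Q d Δ N H A h => ?_⟩
  have k₁ := k₁ ι F Q d Δ N H A h
  have k₂ := k₂ ι F Q d Δ N H A h
  have k₃ := k₃ ι F Q d Δ N H A h
  obtain ⟨hH, hN⟩ := paj_par h
  have hA : Continuous A := h.pc.sm.c2.continuous
  have hJ : ∀ n ∈ Finset.Icc N F.N₁, N ≤ n ∧ n ≤ F.N₁ := fun n hn => Finset.mem_Icc.1 hn
  have hJ1 : ∀ n ∈ Finset.Icc N F.N₁, 1 ≤ n := fun n hn => by have := (hJ n hn).1; omega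
  generalize Finset.Icc N F.N₁ = J at *
  obtain ⟨f, hf⟩ : ∃ f : ℝ → ι → ℕ → ℝ → ℝ,
      ∀ σ j l r, ‖∑ m ∈ sh J l, F.xx A σ j r l m‖ ^ 2 = f σ j l r := ⟨_, fun _ _ _ _ => rfl⟩
  obtain ⟨g, hg⟩ : ∃ g : ι → ℝ → ℂ,
      ∀ j r, ∑ x ∈ Z3 F.N₁, (w3 H x : ℂ) * q4 J (F.al A j r) x = g j r := ⟨_, fun _ _ => rfl⟩
  have cf : ∀ σ j l, Continuous (f σ j l) := fun σ j l => by
    simpa only [hf] using paj_cont F hA σ j l (sh J l)
  have cg : ∀ j, Continuous (g j) := fun j => by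
    have hs := paj_sx J (F.continuous_al hA j)
    have : Continuous fun r => ∑ x ∈ Z3 F.N₁, (w3 H x : ℂ) * q4 J (F.al A j r) x :=
      continuous_finsetSum _ fun x _ =>
        continuous_const.mul ((((hs _).mul (hs _)).mul (hs _)).mul (hs _))
    simpa only [hg] using this
  have nf : ∀ σ, ∀ j ∈ F.s, ∀ l, 0 ≤ ∫ r, F.V j r * f σ j l r := fun σ j hj l => by
    simpa only [hf] using paj_nn (F.vw j hj) fun r => ∑ m ∈ sh J l, F.xx A σ j r l m
  simp only [hf, hg] at k₁ k₂ k₃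
  have n1 : ∀ j ∈ F.s, ∀ σ (K : Finset ℕ),
      0 ≤ F.Om j ^ 4 * ∑ l ∈ K, ∫ r, F.V j r * f σ j l r := fun j hj σ K =>
    mul_nonneg (pow_nonneg (F.Om_nonneg j) 4) (Finset.sum_nonneg fun l _ => nf σ j hj l)
  refine ⟨fun j => 48 * (F.Om j ^ 4 * ∑ l ∈ Finset.range H, ∫ r, F.V j r * f 1 j l r) +
    48 * (F.Om j ^ 4 * ∑ l ∈ Finset.Ico 1 H, ∫ r, F.V j r * f (-1) j l r) +
    ‖∫ r, (F.V j r : ℂ) * g j r‖, fun j hj => ?_, ?_, fun j hj η h0 h1 => ?_⟩
  · have := n1 j hj 1 (Finset.range H)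
    have := n1 j hj (-1) (Finset.Ico 1 H)
    positivity
  · rw [Finset.sum_add_distrib, Finset.sum_add_distrib, ← Finset.mul_sum, ← Finset.mul_sum]
    linarith only [k₁, k₂, k₃]
  have hV := F.vw j hj
  have ii : ∀ {u : ℝ → ℝ}, Continuous u → Integrable fun r => F.V j r * u r :=
    fun hu => paj_int hc F.hT hV hu
  have cD : Continuous fun r => F.om2 j * F.Dm A J j r :=
    continuous_const.mul (continuous_finsetSum _ fun m _ =>
      continuous_const.mul ((hA.comp (continuous_id.add continuous_const)).pow 2))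
  have cS : Continuous fun r => ∑ n ∈ J, ‖F.al A j r n‖ ^ 2 :=
    continuous_finsetSum _ fun n _ => (F.continuous_al hA j n).norm.pow 2
  have ce : Continuous fun r : ℝ => Real.exp (-r) := Real.continuous_exp.comp continuous_neg
  have hsq := fun r => paj_sq h0 h1 (F.sq_sub_le A J j r)
  simp only [mul_pow (F.Om j ^ 2), hf] at hsq
  have e4 : (F.Om j ^ 2) ^ 2 = F.Om j ^ 4 := by ring
  rw [e4] at hsq
  have hb : ∀ r, ∑ l ∈ Finset.Ico 1 H, ‖bt J (F.al A j r) l‖ ^ 2 ≤ 2 * F.Om j ^ 4 *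
      (∑ l ∈ Finset.Ico 1 H, f 1 j l r + ∑ l ∈ Finset.Ico 1 H, f (-1) j l r) := fun r => by
    rw [← Finset.sum_add_distrib, Finset.mul_sum]
    refine Finset.sum_le_sum fun l _ => ?_
    rw [← hf, ← hf]
    exact F.bt_le A J j r l
  have hfej := fun r => fej (c := F.al A j r) hH hN hJ
  have htwo := fun r => tp_two (c := F.al A j r) hJ1
  simp only [hg] at hfej
  have e0 : ∑ l ∈ Finset.range H, ∫ r, F.V j r * f 1 j l r =
      (∫ r, F.V j r * f 1 j 0 r) + ∑ l ∈ Finset.Ico 1 H, ∫ r, F.V j r * f 1 j l r := by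
    rw [Finset.range_eq_Ico, Finset.sum_eq_sum_Ico_succ_bot hH]
  have es : ∀ σ, ∑ l ∈ Finset.Ico 1 H, ∫ r, F.V j r * f σ j l r =
      ∫ r, F.V j r * ∑ l ∈ Finset.Ico 1 H, f σ j l r := fun σ => by
    rw [← integral_finsetSum _ fun l _ => ii (cf σ j l)]
    simp only [Finset.mul_sum]
  have m0 := mul_nonneg (pow_nonneg (F.Om_nonneg j) 4) (nf 1 j hj 0)
  have m1 := n1 j hj 1 (Finset.Ico 1 H)
  have m2 := n1 j hj (-1) (Finset.Ico 1 H)
  have m3 := paj_re hc F.hT hV (cg j)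
  have m4 := norm_nonneg (∫ r, (F.V j r : ℂ) * g j r)
  have c1 : Continuous fun r => ∑ l ∈ Finset.Ico 1 H, f 1 j l r :=
    continuous_finsetSum _ fun l _ => cf 1 j l
  have c2 : Continuous fun r => ∑ l ∈ Finset.Ico 1 H, f (-1) j l r :=
    continuous_finsetSum _ fun l _ => cf (-1) j l
  have c3 : Continuous fun r => (g j r).re := continuous_re.comp (cg j)
  have c0 := cf 1 j 0
  beta_reduce
  rw [e0, es, es] at *
  unfold I4 I2 I0
  simp only [htwo]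
  generalize F.Om j ^ 4 = O at *
  generalize ‖∫ r, (F.V j r : ℂ) * g j r‖ = R at *
  have dv : ∀ z : ℝ, 0 ≤ z → z ≤ z / η := fun z hz => le_div_self hz h0 h1
  constructor
  · have i1 := (ii (cD.pow 2)).const_mul (12 * (1 + η))
    have i2 := (ii c0).const_mul (24 * O / η)
    have i3 := (ii c1).const_mul (48 * O)
    have i4 := (ii c2).const_mul (48 * O)
    have i5 := ii c3
    refine (integral_mono_of_nonneg (Filter.Eventually.of_forall fun r => ?_)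
      ((((i1.add i2).add i3).add i4).add i5) (Filter.Eventually.of_forall fun r => ?_)).trans ?_
    · exact mul_nonneg (hV.nn r) (intervalIntegral.integral_nonneg zero_le_one fun x _ => by
        positivity)
    · have a1 : ∫ x in (0 : ℝ)..1, tp J (F.al A j r) x ^ 4 ≤
          12 * (1 + η) * (F.om2 j * F.Dm A J j r) ^ 2 + 24 * O / η * f 1 j 0 r +
            48 * O * ∑ l ∈ Finset.Ico 1 H, f 1 j l r +
            48 * O * ∑ l ∈ Finset.Ico 1 H, f (-1) j l r + (g j r).re := by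
        have a2 := hfej r
        have a3 := (hsq r).1
        have a4 := hb r
        have a5 : 24 * O / η * f 1 j 0 r = 24 * (O * f 1 j 0 r / η) := by ring
        linarith only [a2, a3, a4, a5]
      have a2 := mul_le_mul_of_nonneg_left a1 (hV.nn r)
      simp only [Pi.add_apply, Pi.pow_apply]
      linarith only [a2]
    · rw [integral_add' (((i1.add i2).add i3).add i4) i5, integral_add' ((i1.add i2).add i3) i4,
        integral_add' (i1.add i2) i3, integral_add' i1 i2, integral_const_mul, integral_const_mul,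
        integral_const_mul, integral_const_mul]
      simp only [Pi.pow_apply]
      have a1 := dv _ m1
      have a2 := dv _ m2
      have a3 := dv _ m4
      have a4 := div_nonneg m0 h0.le
      simp only [div_eq_mul_inv] at *
      linarith only [m3, a1, a2, a3, a4]
  · have i1 := ii (ce.mul (cS.const_mul 2))
    have i2 := (ii (ce.mul cD)).const_mul 2
    have i3 := (ii (ce.pow 2)).const_mul η
    have i4 := (ii c0).const_mul (O / η)
    simp only [Pi.mul_apply, Pi.pow_apply] at i1 i2 i3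
    rw [← integral_const_mul, ← integral_sub i1 i2]
    refine (abs_integral_le_integral_abs.trans (integral_mono (i1.sub i2).abs (i3.add i4)
      fun r => ?_)).trans ?_
    · have a1 := mul_le_mul_of_nonneg_left ((hsq r).2 (Real.exp (-r))) (hV.nn r)
      rw [← abs_of_nonneg (hV.nn r), ← abs_mul, abs_of_nonneg (hV.nn r)] at a1
      simp only [Pi.add_apply, Pi.sub_apply]
      refine le_trans (le_of_eq (congrArg abs (by ring))) (a1.trans (le_of_eq (by ring)))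
    · rw [integral_add' i3 i4, integral_const_mul, integral_const_mul]
      have a1 := div_nonneg m1 h0.le
      have a2 := div_nonneg m2 h0.le
      have a3 := div_nonneg m4 h0.le
      have a4 := div_nonneg m0 h0.le
      simp only [div_eq_mul_inv] at *
      linarith

theorem pak_card {c : ℝ} (hc : 1 ≤ c) {T r Δ : ℝ} (hT : 1 ≤ T) (hΔ : 1 ≤ Δ * T) {J : Finset ℕ}
    (hr : 1 / (c * T) ≤ Real.exp r) (h : ∀ n ∈ J, 1 ≤ n ∧ |qq (r + Real.log n)| ≤ Δ) :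
    (J.card : ℝ) ≤ 3 * c * (Δ * T) := by
  have hT0 : 0 < T := by linarith
  have hc0 : 0 < c := by linarith only [hc]
  have hΔ0 : 0 ≤ Δ := by
    by_contra hn
    have := mul_neg_of_neg_of_pos (not_le.1 hn) hT0
    linarith
  have h1 := card_active hΔ0 h
  have h2 : Real.exp (-r) ≤ c * T := by
    rw [Real.exp_neg]
    rw [one_div] at hr
    exact inv_le_of_inv_le₀ (mul_pos hc0 hT0) hr
  have h3 : 2 * Δ * Real.exp (-r) ≤ 2 * Δ * (c * T) := by gcongr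
  have h4 : 1 * 1 ≤ c * (Δ * T) := by gcongr
  linarith only [h1, h3, h4]

/-- PAK.  Paper 7, P8: `int_sum_le`, `p5`, `card_active`. -/
theorem pc_side {c : ℝ} (hc : 1 ≤ c) : ∃ C : ℝ, 0 ≤ C ∧ ∀ (ι : Type) (F : Fa ι c) (Q d Δ : ℝ)
    (N H : ℕ) (A : ℝ → ℝ), F.Par Q d Δ N H A →
    ∑ j ∈ F.s, ∫ r, F.V j r * (F.om2 j * F.Dm A (Finset.Icc N F.N₁) j r) ^ 2 ≤
      C * (F.W * F.DD ^ 2 * F.KK) * (Δ ^ 2 / d ^ 4) := by
  refine ⟨36 * c ^ 4, by positivity, fun ι F Q d Δ N H A h => ?_⟩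
  have hT := F.hT
  have hT0 : 0 < F.T := by linarith
  have hd := h.d0
  have hW : 0 ≤ F.W := le_trans zero_le_one F.hW
  have hK := F.hK
  have hA : Continuous A := h.pc.sm.c2.continuous
  have hΔT : 1 ≤ Δ * F.T := by
    have h1 : d ^ 6 ≤ d ^ 4 := pow_le_pow_of_le_one hd.le h.d1 (by norm_num)
    have h2 : F.T * d ^ 6 ≤ F.T * Δ := by
      have := h.D0
      gcongr
      linarith
    have := h.td
    linarith [mul_comm Δ F.T]
  have key := Fa.int_sum_le hc F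
    (h := fun j r => (F.om2 j * F.Dm A (Finset.Icc N F.N₁) j r) ^ 2)
    (B := 2 * F.W * F.DD ^ 2 * F.KK * (3 * c * (Δ * F.T) * (1 / d) ^ 2) ^ 2) (by positivity)
    (fun j _ => by
      unfold Fa.Dm
      refine (continuous_const.mul (continuous_finsetSum _ fun m _ => ?_)).pow 2
      exact continuous_const.mul ((hA.comp (continuous_id.add continuous_const)).pow 2))
    (fun j _ r => sq_nonneg _) (fun r hr1 hr2 => ?_)
  · refine key.trans (le_of_eq ?_)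
    field_simp
    ring
  · set J := (Finset.Icc N F.N₁).filter fun m : ℕ => 1 ≤ m ∧ A (r + Real.log m) ≠ 0 with hJ
    have hcard : (J.card : ℝ) ≤ 3 * c * (Δ * F.T) := by
      refine pak_card hc hT hΔT hr1 fun n hn => ?_
      obtain ⟨-, h1, h2⟩ := Finset.mem_filter.1 hn
      obtain ⟨h3, h4⟩ := h.pc.supp _ h2
      refine ⟨h1, ?_⟩
      rw [abs_of_nonneg (le_trans (by positivity) h3)]
      exact h4
    have hp := F.p5 J (fun m hm => (Finset.mem_Icc.1 (Finset.mem_filter.1 hm).1).2)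
      (e := (1 / d) ^ 2) (by positivity)
      (a := fun j m => F.om2 j * (F.lam j m ^ 2 * A (r + Real.log m) ^ 2))
      (fun j _ m _ => mul_nonneg (F.om2_le j).1 (by positivity))
      (fun j _ m _ => by
        have h1 := (F.om2_le j).2
        have h2 : A (r + Real.log m) ^ 2 ≤ (1 / d) ^ 2 := by
          rw [← sq_abs (A _)]
          exact pow_le_pow_left₀ (abs_nonneg _) (h.pc.sm.b0 _ (mem_univ _)) 2
        rw [mul_assoc]
        gcongr)
    have he : ∀ j ∈ F.s, F.om2 j * F.Dm A (Finset.Icc N F.N₁) j r =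
        ∑ m ∈ J, F.om2 j * (F.lam j m ^ 2 * A (r + Real.log m) ^ 2) := by
      intro j hj
      rw [← Finset.mul_sum, Fa.Dm, hJ, Finset.sum_filter_of_ne]
      intro m _ hm
      refine ⟨?_, fun h0 => hm (by rw [h0]; ring)⟩
      rcases Nat.eq_zero_or_pos m with rfl | h0
      · exact absurd (by rw [(F.hk j hj).zero]; ring) hm
      · exact h0
    rw [Finset.sum_congr rfl fun j hj => by rw [he j hj]]
    refine hp.trans ?_
    gcongr

/-- PAK.  Paper 7, PT: restrict to the active indices, `tp_triv`, `p5`, `card_active`,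
`int_sum_le`. -/
theorem pc_triv {c : ℝ} (hc : 1 ≤ c) : ∃ C : ℝ, 0 ≤ C ∧ ∀ (ι : Type) (F : Fa ι c) (Δ e : ℝ)
    (a : ι → ℝ → ℕ → ℂ), 0 ≤ e → 1 ≤ Δ * F.T → (∀ j ∈ F.s, ∀ n, Continuous fun r => a j r n) →
    (∀ j ∈ F.s, ∀ r, ∀ n : ℕ, 1 ≤ n → ‖a j r n‖ ≤ F.Om j * |F.lam j n| * e ∧
      (a j r n ≠ 0 → |qq (r + Real.log n)| ≤ Δ)) →
    ∑ j ∈ F.s, I4 (F.V j) (fun r => tp (Finset.Icc 1 F.N₁) (a j r)) ≤
      C * (F.W * F.DD ^ 2 * F.KK) * (Δ ^ 3 * F.T * e ^ 4) := by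
  refine ⟨864 * c ^ 5, by positivity, fun ι F Δ e a he hΔT hca hb => ?_⟩
  have hT := F.hT
  have hT0 : 0 < F.T := by linarith
  have hW : 0 ≤ F.W := le_trans zero_le_one F.hW
  have hK := F.hK
  have hX : 0 ≤ Δ * F.T := le_trans zero_le_one hΔT
  have key := Fa.int_sum_le hc F
    (h := fun j r => ∫ x in (0 : ℝ)..1, tp (Finset.Icc 1 F.N₁) (a j r) x ^ 4)
    (B := 8 * (3 * c * (Δ * F.T)) *
      (2 * F.W * F.DD ^ 2 * F.KK * (3 * c * (Δ * F.T) * e ^ 2) ^ 2)) (by positivity)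
    (fun j hj => intervalIntegral.continuous_parametric_intervalIntegral_of_continuous'
      (f := fun r x => tp (Finset.Icc 1 F.N₁) (a j r) x ^ 4)
      ((continuous_pow 4).comp
        (continuous_tp₂ (Finset.Icc 1 F.N₁) (c := a j) fun n _ => hca j hj n)) 0 1)
    (fun j _ r => intervalIntegral.integral_nonneg zero_le_one fun x _ => by positivity)
    (fun r hr1 hr2 => ?_)
  · refine key.trans (le_of_eq ?_)
    field_simp
    ring
  · set J := (Finset.Icc 1 F.N₁).filter fun m : ℕ => |qq (r + Real.log m)| ≤ Δ with hJ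
    have hJ1 : ∀ n ∈ J, 1 ≤ n := fun n hn => (Finset.mem_Icc.1 (Finset.mem_filter.1 hn).1).1
    have hcard : (J.card : ℝ) ≤ 3 * c * (Δ * F.T) :=
      pak_card hc hT hΔT hr1 fun n hn => ⟨hJ1 n hn, (Finset.mem_filter.1 hn).2⟩
    have hp := F.p5 J (fun m hm => (Finset.mem_Icc.1 (Finset.mem_filter.1 hm).1).2)
      (e := e ^ 2) (by positivity) (a := fun j m => ‖a j r m‖ ^ 2)
      (fun j _ m _ => sq_nonneg _)
      (fun j hj m hm => by
        have h1 := pow_le_pow_left₀ (norm_nonneg _) (hb j hj r m (hJ1 m hm)).1 2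
        rwa [mul_pow, mul_pow, sq_abs] at h1)
    have he' : ∀ j ∈ F.s, tp (Finset.Icc 1 F.N₁) (a j r) = tp J (a j r) := by
      intro j hj
      funext x
      rw [tp, tp, hJ, Finset.sum_filter_of_ne]
      intro m hm h0
      refine (hb j hj r m (Finset.mem_Icc.1 hm).1).2 fun h1 => h0 ?_
      rw [h1]
      simp
    calc ∑ j ∈ F.s, ∫ x in (0 : ℝ)..1, tp (Finset.Icc 1 F.N₁) (a j r) x ^ 4
        ≤ ∑ j ∈ F.s, 8 * (J.card : ℝ) * (∑ n ∈ J, ‖a j r n‖ ^ 2) ^ 2 :=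
          Finset.sum_le_sum fun j hj => by rw [he' j hj]; exact tp_triv hJ1
      _ = 8 * (J.card : ℝ) * ∑ j ∈ F.s, (∑ n ∈ J, ‖a j r n‖ ^ 2) ^ 2 := by rw [Finset.mul_sum]
      _ ≤ 8 * (J.card : ℝ) * (2 * F.W * F.DD ^ 2 * F.KK * (J.card * e ^ 2) ^ 2) := by gcongr
      _ ≤ _ := by gcongr

/-- PAL.  `lam m ^ 2 = ∑ a ∣ m, lam ((m / a) ^ 2)`. -/
theorem Hk.sum_sq {lam : ℕ → ℝ} (h : Hk lam) (N : ℕ) (g : ℕ → ℝ) (hg : ∀ m, N < m → g m = 0) :
    ∑ m ∈ Finset.Icc 1 N, lam m ^ 2 * g m =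
      ∑ k ∈ Finset.Icc 1 N, lam (k ^ 2) * ∑ a ∈ Finset.Icc 1 N, g (k * a) := by
  have h1 : ∀ m ∈ Finset.Icc 1 N, lam m ^ 2 * g m =
      ∑ p ∈ m.divisorsAntidiagonal, lam (p.1 ^ 2) * g (p.1 * p.2) := by
    intro m hm
    have hm1 : 1 ≤ m := (Finset.mem_Icc.1 hm).1
    rw [Nat.sum_divisorsAntidiagonal' (fun a b => lam (a ^ 2) * g (a * b)), sq, h.mul m m hm1 hm1,
      Nat.gcd_self, Finset.sum_mul]
    refine Finset.sum_congr rfl fun a ha => ?_
    obtain ⟨k, rfl⟩ := Nat.dvd_of_mem_divisors ha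
    have ha0 : 0 < a := Nat.pos_of_mem_divisors ha
    have e1 : a * k * (a * k) / a ^ 2 = k ^ 2 := by
      rw [show a * k * (a * k) = a ^ 2 * k ^ 2 by ring]
      exact Nat.mul_div_cancel_left _ (by positivity)
    rw [e1, Nat.mul_div_cancel_left _ ha0, mul_comm k a]
  rw [Finset.sum_congr rfl h1]
  have h2 : ∑ k ∈ Finset.Icc 1 N, lam (k ^ 2) * ∑ a ∈ Finset.Icc 1 N, g (k * a) =
      ∑ p ∈ (Finset.Icc 1 N ×ˢ Finset.Icc 1 N).filter (fun p : ℕ × ℕ => p.1 * p.2 ≤ N),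
        lam (p.1 ^ 2) * g (p.1 * p.2) := by
    rw [Finset.sum_filter, Finset.sum_product]
    refine Finset.sum_congr rfl fun k _ => ?_
    rw [Finset.mul_sum]
    refine Finset.sum_congr rfl fun a _ => ?_
    split_ifs with hh
    · rfl
    · rw [hg _ (not_le.1 hh), mul_zero]
  rw [h2, ← Finset.sum_fiberwise_of_maps_to (t := Finset.Icc 1 N) (g := fun p : ℕ × ℕ => p.1 * p.2)]
  · refine Finset.sum_congr rfl fun m hm => Finset.sum_congr ?_ fun _ _ => rfl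
    obtain ⟨hm1, hm2⟩ := Finset.mem_Icc.1 hm
    ext ⟨k, a⟩
    simp only [Nat.mem_divisorsAntidiagonal, Finset.mem_filter, Finset.mem_product, Finset.mem_Icc]
    constructor
    · rintro ⟨rfl, h0⟩
      have hk : 1 ≤ k := Nat.pos_of_ne_zero fun e => h0 (by rw [e, zero_mul])
      have ha : 1 ≤ a := Nat.pos_of_ne_zero fun e => h0 (by rw [e, mul_zero])
      exact ⟨⟨⟨⟨hk, le_trans (Nat.le_mul_of_pos_right _ ha) hm2⟩,
        ⟨ha, le_trans (Nat.le_mul_of_pos_left _ hk) hm2⟩⟩, hm2⟩, rfl⟩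
    · rintro ⟨_, e⟩
      exact ⟨e, by omega⟩
  · intro p hp
    obtain ⟨hp1, hp2⟩ := Finset.mem_filter.1 hp
    obtain ⟨a1, a2⟩ := Finset.mem_product.1 hp1
    exact Finset.mem_Icc.2 ⟨Nat.mul_pos (Finset.mem_Icc.1 a1).1 (Finset.mem_Icc.1 a2).1, hp2⟩

theorem pal_ite (n H : ℕ) {a : ℝ} (ha : 0 ≤ a) :
    ∑ k ∈ Finset.Icc 1 n, (if k ≤ H then a else 0) ≤ H * a := by
  rw [← Finset.sum_filter, Finset.sum_const, nsmul_eq_mul]
  refine mul_le_mul_of_nonneg_right ?_ ha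
  have : ((Finset.Icc 1 n).filter fun k => k ≤ H) ⊆ Finset.Icc 1 H := fun k hk => by
    obtain ⟨h1, h2⟩ := Finset.mem_filter.1 hk
    exact Finset.mem_Icc.2 ⟨(Finset.mem_Icc.1 h1).1, h2⟩
  have h3 := Finset.card_le_card this
  rw [Nat.card_Icc] at h3
  exact_mod_cast h3

theorem pal_sums {γ : ℕ → ℝ} {n H : ℕ} {a G Λ : ℝ} (ha : 0 ≤ a) (hG : 0 ≤ G) (hH : 1 ≤ H)
    (hΛ : 1 + Real.log n ≤ Λ) (h1 : ∀ k ∈ Finset.Icc 1 n, k ≤ H → |γ k| ≤ a)
    (h2 : ∀ k ∈ Finset.Icc 1 n, H < k → |γ k| ≤ G / k) :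
    ∑ k ∈ Finset.Icc 1 n, |γ k| ≤ H * a + G * Λ ∧
      ∑ k ∈ Finset.Icc 1 n, |γ k| ^ 2 ≤ H * a ^ 2 + G ^ 2 / H * Λ := by
  have hs := (sum_inv_le n).trans hΛ
  have hH0 : (0 : ℝ) < H := by exact_mod_cast hH
  constructor
  · calc ∑ k ∈ Finset.Icc 1 n, |γ k|
        ≤ ∑ k ∈ Finset.Icc 1 n, ((if k ≤ H then a else 0) + G * (1 / k : ℝ)) := by
          refine Finset.sum_le_sum fun k hk => ?_
          have : 0 ≤ G * (1 / k : ℝ) := by positivity
          split_ifs with hh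
          · linarith only [h1 k hk hh, this]
          · rw [zero_add, mul_one_div]; exact h2 k hk (not_le.1 hh)
      _ ≤ H * a + G * Λ := by
          rw [Finset.sum_add_distrib, ← Finset.mul_sum]
          exact add_le_add (pal_ite n H ha) (mul_le_mul_of_nonneg_left hs hG)
  · calc ∑ k ∈ Finset.Icc 1 n, |γ k| ^ 2
        ≤ ∑ k ∈ Finset.Icc 1 n, ((if k ≤ H then a ^ 2 else 0) + G ^ 2 / H * (1 / k : ℝ)) := by
          refine Finset.sum_le_sum fun k hk => ?_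
          have : 0 ≤ G ^ 2 / H * (1 / k : ℝ) := by positivity
          split_ifs with hh
          · linarith only [pow_le_pow_left₀ (abs_nonneg _) (h1 k hk hh) 2, this]
          · have hk' : (H : ℝ) ≤ k := by exact_mod_cast (not_le.1 hh).le
            have hk0 : (0 : ℝ) < k := lt_of_lt_of_le hH0 hk'
            refine (pow_le_pow_left₀ (abs_nonneg _) (h2 k hk (not_le.1 hh)) 2).trans ?_
            rw [zero_add, div_pow, div_mul_div_comm, mul_one]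
            refine div_le_div_of_nonneg_left (sq_nonneg _) (by positivity) ?_
            rw [sq]; exact mul_le_mul_of_nonneg_right hk' hk0.le
      _ ≤ H * a ^ 2 + G ^ 2 / H * Λ := by
          rw [Finset.sum_add_distrib, ← Finset.mul_sum]
          exact add_le_add (pal_ite n H (sq_nonneg a)) (mul_le_mul_of_nonneg_left hs (by positivity))

theorem pal_tail {VV : ℝ → ℝ} {e y : ℝ} (hy : 0 < y) (he : 0 ≤ e) (h0 : ∀ u, 1 ≤ u → VV u = 0)
    (hb : ∀ u, 0 ≤ VV u ∧ VV u ≤ e) (n : ℕ) :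
    |∑ a ∈ Finset.Icc 1 n, VV (a * y)| ≤ e / y := by
  rw [abs_of_nonneg (Finset.sum_nonneg fun a _ => (hb _).1)]
  calc ∑ a ∈ Finset.Icc 1 n, VV (a * y)
      ≤ ∑ a ∈ Finset.Icc 1 n, (if a ≤ ⌊1 / y⌋₊ then e else 0) := by
        refine Finset.sum_le_sum fun a _ => ?_
        split_ifs with hh
        · exact (hb _).2
        · have h1 : 1 / y < a := Nat.lt_of_floor_lt (not_le.1 hh)
          rw [div_lt_iff₀ hy] at h1
          exact (h0 _ h1.le).le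
    _ ≤ (⌊1 / y⌋₊ : ℝ) * e := pal_ite n _ he
    _ ≤ 1 / y * e := mul_le_mul_of_nonneg_right (Nat.floor_le (by positivity)) he
    _ = e / y := by ring

theorem pal_num {c k T Q D d H ε : ℝ} (hc : 1 ≤ c) (hk : 1 ≤ k) (hT : 1 ≤ T) (hQ : 2 ≤ Q)
    (hD : 1 ≤ D) (hd : 0 < d) (hd1 : d ≤ 1) (hH : 1 ≤ H) (hε : 0 ≤ ε) (dq : 2 ≤ Q * d ^ 4)
    (h1 : Q ^ 14 * T ≤ H ^ 2) (h2 : H * Q ^ 4 ≤ d ^ 2 * T) (h3 : ε * H ^ 2 * Q ^ 2 ≤ T) :
    (H * (2 * (k / d ^ 6)) ^ 2 + (c * T / d ^ 2) ^ 2 / H * (13 * c * D)) +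
      ε * (H * (2 * (k / d ^ 6)) + c * T / d ^ 2 * (13 * c * D)) ^ 2 ≤
      (2 * k ^ 2 + 200 * c ^ 4) * (T ^ 2 * D ^ 4 / Q) := by
  have hQ0 : 0 < Q := by linarith
  have hH0 : 0 < H := by linarith only [hH]
  have hT0 : 0 < T := by linarith
  obtain ⟨u, hu⟩ : ∃ u : ℝ, u = 1 / d ^ 2 := ⟨_, rfl⟩
  have hu0 : 0 < u := by rw [hu]; positivity
  have hu2 : u ^ 2 ≤ Q / 2 := by
    rw [hu, div_pow, one_pow, ← pow_mul, div_le_div_iff₀ (by positivity) (by norm_num)]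
    show 1 * 2 ≤ Q * d ^ 4
    linarith only [dq]
  have e1 : k / d ^ 6 = k * u ^ 3 := by rw [hu]; field_simp
  have e2 : c * T / d ^ 2 = c * T * u := by rw [hu]; field_simp
  rw [e1, e2]
  have hu6 : (u ^ 3) ^ 2 ≤ Q ^ 3 / 8 := by
    calc (u ^ 3) ^ 2 = (u ^ 2) ^ 3 := by ring
      _ ≤ (Q / 2) ^ 3 := pow_le_pow_left₀ (sq_nonneg u) hu2 3
      _ = Q ^ 3 / 8 := by ring
  have hHT : H * Q ^ 4 ≤ T := h2.trans (mul_le_of_le_one_left hT0.le (pow_le_one₀ hd.le hd1))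
  have hQ1 : 1 ≤ Q := by linarith only [hQ]
  have hQT : Q ^ 2 ≤ T := by
    calc Q ^ 2 ≤ Q ^ 4 := pow_le_pow_right₀ hQ1 (by norm_num)
      _ ≤ H * Q ^ 4 := le_mul_of_one_le_left (by positivity) hH
      _ ≤ T := hHT
  have hQH : Q ^ 2 ≤ H := by
    refine (pow_le_pow_iff_left₀ (by positivity) hH0.le two_ne_zero).1 ?_
    calc (Q ^ 2) ^ 2 = Q ^ 4 := by ring
      _ ≤ Q ^ 14 := pow_le_pow_right₀ hQ1 (by norm_num)
      _ ≤ Q ^ 14 * T := le_mul_of_one_le_right (by positivity) hT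
      _ ≤ H ^ 2 := h1
  have hεQ : ε * Q ^ 2 ≤ 1 := by
    have a1 : ε * Q ^ 2 * T ≤ ε * Q ^ 2 * H ^ 2 := by
      refine mul_le_mul_of_nonneg_left (le_trans ?_ h1) (by positivity)
      exact le_mul_of_one_le_left hT0.le (one_le_pow₀ hQ1)
    have a2 : ε * Q ^ 2 * T ≤ 1 * T := by linarith only [h3, a1]
    exact le_of_mul_le_mul_right a2 hT0
  obtain ⟨R, hR⟩ : ∃ R : ℝ, R = T ^ 2 / Q := ⟨_, rfl⟩
  have hR0 : 0 ≤ R := by rw [hR]; positivity
  have hD4 : 1 ≤ D ^ 4 := one_le_pow₀ hD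
  have b1 : H * (u ^ 3) ^ 2 ≤ R / 8 := by
    have : H * Q ^ 3 ≤ R := by
      rw [hR, le_div_iff₀ hQ0]
      calc H * Q ^ 3 * Q = H * Q ^ 4 := by ring
        _ ≤ T := hHT
        _ ≤ T ^ 2 := le_self_pow₀ hT (by norm_num)
    linarith only [mul_le_mul_of_nonneg_left hu6 hH0.le, this]
  have b2 : T ^ 2 * u ^ 2 / H ≤ R := by
    rw [hR, div_le_div_iff₀ hH0 hQ0, mul_assoc]
    refine mul_le_mul_of_nonneg_left ?_ (sq_nonneg T)
    linarith only [mul_le_mul_of_nonneg_right hu2 hQ0.le, hH, hQH]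
  have b3 : ε * H ^ 2 * (u ^ 3) ^ 2 ≤ R / 8 := by
    have a1 : ε * H ^ 2 * Q ^ 3 ≤ R := by
      rw [hR, le_div_iff₀ hQ0]
      calc ε * H ^ 2 * Q ^ 3 * Q = ε * H ^ 2 * Q ^ 2 * Q ^ 2 := by ring
        _ ≤ T * T := mul_le_mul h3 hQT (by positivity) hT0.le
        _ = T ^ 2 := by ring
    linarith only [mul_le_mul_of_nonneg_left hu6 (show 0 ≤ ε * H ^ 2 by positivity), a1]
  have b4 : ε * (T ^ 2 * u ^ 2) ≤ R / 2 := by
    have a1 : ε * u ^ 2 ≤ 1 / Q / 2 := by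
      rw [div_div, le_div_iff₀ (by positivity)]
      linarith only [mul_le_mul_of_nonneg_left hu2 (show 0 ≤ ε * Q by positivity), hεQ]
    calc ε * (T ^ 2 * u ^ 2) = T ^ 2 * (ε * u ^ 2) := by ring
      _ ≤ T ^ 2 * (1 / Q / 2) := mul_le_mul_of_nonneg_left a1 (sq_nonneg T)
      _ = R / 2 := by rw [hR]; ring
  have hRD : R ≤ R * D ^ 4 := le_mul_of_one_le_right hR0 hD4
  have c1 : H * (2 * (k * u ^ 3)) ^ 2 ≤ k ^ 2 / 2 * (R * D ^ 4) := by
    calc H * (2 * (k * u ^ 3)) ^ 2 = 4 * k ^ 2 * (H * (u ^ 3) ^ 2) := by ring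
      _ ≤ 4 * k ^ 2 * (R * D ^ 4 / 8) := mul_le_mul_of_nonneg_left (by linarith only [b1, hRD]) (by positivity)
      _ = _ := by ring
  have c2 : (c * T * u) ^ 2 / H * (13 * c * D) ≤ 13 * c ^ 4 * (R * D ^ 4) := by
    calc (c * T * u) ^ 2 / H * (13 * c * D) = 13 * c ^ 3 * (T ^ 2 * u ^ 2 / H * D) := by ring
      _ ≤ 13 * c ^ 4 * (R * D ^ 4) := by
        refine mul_le_mul (mul_le_mul_of_nonneg_left (pow_le_pow_right₀ hc (by norm_num))
          (by norm_num)) (mul_le_mul b2 (le_self_pow₀ hD (by norm_num)) (by positivity) hR0)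
          (by positivity) (by positivity)
  have c3 : ε * (H * (2 * (k * u ^ 3))) ^ 2 ≤ k ^ 2 / 2 * (R * D ^ 4) := by
    calc ε * (H * (2 * (k * u ^ 3))) ^ 2 = 4 * k ^ 2 * (ε * H ^ 2 * (u ^ 3) ^ 2) := by ring
      _ ≤ 4 * k ^ 2 * (R * D ^ 4 / 8) := mul_le_mul_of_nonneg_left (by linarith only [b3, hRD]) (by positivity)
      _ = _ := by ring
  have c4 : ε * (c * T * u * (13 * c * D)) ^ 2 ≤ 169 / 2 * c ^ 4 * (R * D ^ 4) := by
    calc ε * (c * T * u * (13 * c * D)) ^ 2 = 169 * c ^ 4 * (ε * (T ^ 2 * u ^ 2) * D ^ 2) := by ring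
      _ ≤ 169 * c ^ 4 * (R / 2 * D ^ 4) := by
        refine mul_le_mul_of_nonneg_left (mul_le_mul b4 (pow_le_pow_right₀ hD (by norm_num))
          (by positivity) (by positivity)) (by positivity)
      _ = _ := by ring
  have c5 : ∀ x y : ℝ, ε * (x + y) ^ 2 ≤ 2 * (ε * x ^ 2) + 2 * (ε * y ^ 2) := fun x y => by
    linarith only [mul_nonneg hε (sq_nonneg (x - y))]
  have e3 : T ^ 2 * D ^ 4 / Q = R * D ^ 4 := by rw [hR]; ring
  have hX : 0 ≤ R * D ^ 4 := by positivity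
  have p1 : 0 ≤ k ^ 2 * (R * D ^ 4) := by positivity
  have p2 : 0 ≤ c ^ 4 * (R * D ^ 4) := by positivity
  rw [e3]
  have := c5 (H * (2 * (k * u ^ 3))) (c * T * u * (13 * c * D))
  linarith only [c1, c2, c3, c4, p1, p2, this]

theorem pal_dm {ι : Type} {c : ℝ} (F : Fa ι c) {A VV : ℝ → ℝ}
    (hV : ∀ u, 0 < u → VV u = A (Real.log u) ^ 2) (J : Finset ℕ) (hJ : ∀ m ∈ J, 1 ≤ m) (j : ι)
    (r : ℝ) : F.Dm A J j r = ∑ m ∈ J, F.lam j m ^ 2 * VV (m * Real.exp r) := by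
  refine Finset.sum_congr rfl fun m hm => ?_
  have hm0 : (0 : ℝ) < m := by exact_mod_cast hJ m hm
  rw [hV _ (mul_pos hm0 (Real.exp_pos r)), Real.log_mul hm0.ne' (Real.exp_pos r).ne', Real.log_exp,
    add_comm]

/-- PAL.  Paper 7, P9: `lip_am`, `riemann`, `Hk.sum_sq`, `LS.inj`, `p5` for the modes below `N`,
`int_sum_le`.  The constant of `lip_am` goes into `C`. -/
theorem pc_main {c : ℝ} (hc : 1 ≤ c) : ∃ C : ℝ, 0 ≤ C ∧ ∀ (ι : Type) (F : Fa ι c) (Q d : ℝ)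
    (N H : ℕ), F.Par Q d 2 N H (am d 1) → N * Q ≤ 2 * F.T →
    ∑ j ∈ F.s, ∫ r, F.V j r * (F.om2 j *
      (F.Dm (am d 1) (Finset.Icc N F.N₁) j r - Real.exp (-r) * (IV d * F.LL H j))) ^ 2 ≤
      C * F.U Q := by
  obtain ⟨k, hk, hlip⟩ := lip_am
  obtain ⟨C₁, hC₁⟩ : ∃ C₁ : ℝ, C₁ = 2 * k ^ 2 + 200 * c ^ 4 := ⟨_, rfl⟩
  have hC₁0 : 0 ≤ C₁ := by rw [hC₁]; positivity
  refine ⟨2 * c ^ 2 * (2 * C₁ + 8), by positivity, fun ι F Q d N H h hN => ?_⟩
  obtain ⟨VV, hV, hV0, hVb, hVl⟩ := hlip d h.d0 h.d1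
  have hd := h.d0
  have hT := F.hT
  have hT0 : 0 < F.T := by linarith
  have hc0 : 0 < c := by linarith
  have hQ := h.q2
  have hQ0 : 0 < Q := by linarith
  have hQ1 : 1 ≤ Q := by linarith
  have hD := F.one_le_DD
  have hW : 0 ≤ F.W := le_trans zero_le_one F.hW
  have hK := F.hK
  have hU : 0 ≤ F.U Q := by unfold Fa.U; positivity
  have hH1 : 1 ≤ H := by
    rcases Nat.eq_zero_or_pos H with e | e
    · have a := h.h1
      have b : 0 < Q ^ 14 * F.T := by positivity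
      rw [e] at a
      norm_num at a
      linarith only [b, a]
    · exact e
  have hH1' : (1 : ℝ) ≤ H := by exact_mod_cast hH1
  have hHT : H * Q ^ 4 ≤ F.T := h.h2.trans (mul_le_of_le_one_left hT0.le (pow_le_one₀ hd.le h.d1))
  have hTN : F.T ≤ F.N₁ := by nlinarith only [F.n0, hc]
  have hHN : H ≤ F.N₁ := by
    have : (H : ℝ) ≤ F.N₁ :=
      (le_mul_of_one_le_right (by positivity) (one_le_pow₀ hQ1)).trans (hHT.trans hTN)
    exact_mod_cast this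
  have hN1 : 1 ≤ N := by
    rcases Nat.eq_zero_or_pos N with e | e
    · have a := h.tn
      rw [e] at a
      norm_num at a
      linarith only [hT, a]
    · exact e
  have hNN : N ≤ F.N₁ := by
    have a : (N : ℝ) * 2 ≤ N * Q := mul_le_mul_of_nonneg_left hQ (by positivity)
    have : (N : ℝ) ≤ F.N₁ := by linarith only [hN, hTN, a]
    exact_mod_cast this
  have hIV : ∫ u in (0 : ℝ)..1, VV u = IV d := by
    refine intervalIntegral.integral_congr_ae (Filter.Eventually.of_forall fun u hu => hV u ?_)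
    rw [Set.uIoc_of_le zero_le_one] at hu
    exact hu.1
  have hA : Continuous (am d 1) := h.pc.sm.c2.continuous
  refine (F.int_sum_le hc (B := (2 * C₁ + 8) * (F.T ^ 2 * F.U Q)) (by positivity) (fun j _ => ?_)
    (fun j _ r => sq_nonneg _) fun r hr1 hr2 => ?_).trans (le_of_eq (by field_simp))
  · unfold Fa.Dm
    fun_prop
  obtain ⟨x, hx⟩ : ∃ x : ℝ, x = Real.exp r := ⟨_, rfl⟩
  have hx0 : 0 < x := hx ▸ Real.exp_pos r
  rw [← hx] at hr1 hr2
  have hx1 : 1 ≤ c * F.T * x := by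
    rw [div_le_iff₀ (by positivity)] at hr1
    linarith only [hr1]
  have hx2 : x * F.T ≤ c := (le_div_iff₀ hT0).1 hr2
  obtain ⟨γ, hγ⟩ : ∃ γ : ℕ → ℝ, ∀ n, γ n = ∑ a ∈ Finset.Icc 1 F.N₁, VV (a * (n * x)) -
    if n ≤ H then IV d / (n * x) else 0 := ⟨_, fun _ => rfl⟩
  have hg1 : ∀ n ∈ Finset.Icc 1 F.N₁, n ≤ H → |γ n| ≤ 2 * (k / d ^ 6) := by
    intro n hn hnH
    have hn1 : (1 : ℝ) ≤ n := by exact_mod_cast (Finset.mem_Icc.1 hn).1
    have hnH' : (n : ℝ) ≤ H := by exact_mod_cast hnH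
    have hy0 : 0 < n * x := by positivity
    have hy1 : n * x ≤ 1 := by
      have a1 : (H : ℝ) * Q ≤ F.T :=
        (mul_le_mul_of_nonneg_left (le_self_pow₀ hQ1 (by norm_num)) (by positivity)).trans hHT
      have a2 : n * x * Q ≤ 1 * Q := by
        calc n * x * Q = x * (n * Q) := by ring
          _ ≤ x * F.T := mul_le_mul_of_nonneg_left
            ((mul_le_mul_of_nonneg_right hnH' hQ0.le).trans a1) hx0.le
          _ ≤ 1 * Q := by linarith only [h.cq, hQ, hx2]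
      exact le_of_mul_le_mul_right a2 hQ0
    have hy2 : 1 ≤ ((F.N₁ : ℝ) + 1) * (n * x) := by
      have a1 : c * F.T ≤ (F.N₁ : ℝ) + 1 := by linarith only [F.n0, hT, hTN]
      exact hx1.trans (mul_le_mul a1 (le_mul_of_one_le_left hx0.le hn1) hx0.le (by positivity))
    have a := riemann (by positivity) hy0 hy1 hV0 hVl hy2
    rw [hIV] at a
    have e : γ n = (n * x * ∑ a ∈ Finset.Icc 1 F.N₁, VV (a * (n * x)) - IV d) / (n * x) := by
      rw [hγ, if_pos hnH, sub_div, mul_div_cancel_left₀ _ hy0.ne']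
    rw [e, abs_div, abs_of_pos hy0, div_le_iff₀ hy0]
    exact a
  have hg2 : ∀ n ∈ Finset.Icc 1 F.N₁, H < n → |γ n| ≤ c * F.T / d ^ 2 / n := by
    intro n hn hnH
    have hn1 : (0 : ℝ) < n := by exact_mod_cast (Finset.mem_Icc.1 hn).1
    rw [hγ, if_neg (not_le.2 hnH), sub_zero]
    refine (pal_tail (by positivity) (by positivity) hV0 hVb _).trans ?_
    rw [div_le_div_iff₀ (by positivity) hn1]
    calc 1 / d ^ 2 * n = 1 * (n / d ^ 2) := by ring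
      _ ≤ c * F.T * x * (n / d ^ 2) := mul_le_mul_of_nonneg_right hx1 (by positivity)
      _ = _ := by ring
  obtain ⟨s1, s2⟩ := pal_sums (by positivity) (by positivity) hH1
    (F.log_le hc (N := F.N₁) (by omega)) hg1 hg2
  have hnum := pal_num hc hk hT hQ hD hd h.d1 hH1' F.e0 h.dq h.h1 h.h2 h.h3
  rw [← hC₁] at hnum
  have hls := F.ls.inj (Finset.Icc 1 F.N₁) (fun n => n ^ 2)
    (fun a _ b _ e => Nat.pow_left_injective two_ne_zero e)
    (fun n hn => ⟨Nat.one_le_pow _ _ (Finset.mem_Icc.1 hn).1, by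
      have : (n : ℝ) ≤ F.N₁ := by exact_mod_cast (Finset.mem_Icc.1 hn).2
      push_cast
      exact pow_le_pow_left₀ (by positivity) this 2⟩) fun n => (γ n : ℂ)
  obtain ⟨X, hX⟩ : ∃ X : ι → ℝ, ∀ j, X j = ∑ n ∈ Finset.Icc 1 F.N₁, γ n * F.lam j (n ^ 2) :=
    ⟨_, fun _ => rfl⟩
  have hls2 : ∑ j ∈ F.s, F.Om j ^ 2 * X j ^ 2 ≤ F.KK * (C₁ * (F.T ^ 2 * F.DD ^ 4 / Q)) := by
    refine le_trans (le_of_eq (Finset.sum_congr rfl fun j _ => ?_)) (hls.trans ?_)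
    · rw [hX, ← sq_abs (∑ n ∈ _, _), ← Real.norm_eq_abs, ← Complex.norm_real]
      push_cast
      rfl
    · simp only [Complex.norm_real, Real.norm_eq_abs]
      refine mul_le_mul_of_nonneg_left (le_trans (add_le_add s2 (mul_le_mul_of_nonneg_left
        (pow_le_pow_left₀ (Finset.sum_nonneg fun _ _ => abs_nonneg _) s1 2) F.e0)) hnum) hK
  have hp5 := F.p5 (Finset.Ico 1 N) (fun m hm => (Finset.mem_Ico.1 hm).2.le.trans hNN)
    (e := 1 / d ^ 2) (by positivity) (a := fun j m => F.om2 j * (F.lam j m ^ 2 * VV (m * x)))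
    (fun j _ m _ => mul_nonneg (F.om2_le j).1 (mul_nonneg (sq_nonneg _) (hVb _).1))
    (fun j _ m _ => by
      rw [mul_assoc]
      exact mul_le_mul (F.om2_le j).2 (mul_le_mul_of_nonneg_left (hVb _).2 (sq_nonneg _))
        (mul_nonneg (sq_nonneg _) (hVb _).1) (sq_nonneg _))
  have hcard : (((Finset.Ico 1 N).card : ℝ) * (1 / d ^ 2)) ^ 2 ≤ 2 * F.T ^ 2 / Q := by
    have a1 : ((Finset.Ico 1 N).card : ℝ) ≤ N := by
      rw [Nat.card_Ico]
      exact_mod_cast Nat.sub_le N 1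
    have a2 : (1 / d ^ 2) ^ 2 ≤ Q / 2 := by
      rw [div_pow, one_pow, ← pow_mul, div_le_div_iff₀ (by positivity) (by norm_num)]
      show 1 * 2 ≤ Q * d ^ 4
      linarith only [h.dq]
    have a3 : (N : ℝ) ≤ 2 * F.T / Q := (le_div_iff₀ hQ0).2 hN
    calc _ = ((Finset.Ico 1 N).card : ℝ) ^ 2 * (1 / d ^ 2) ^ 2 := by ring
      _ ≤ (2 * F.T / Q) ^ 2 * (Q / 2) :=
        mul_le_mul (pow_le_pow_left₀ (by positivity) (a1.trans a3) 2) a2 (by positivity)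
          (by positivity)
      _ = 2 * F.T ^ 2 / Q := by field_simp
  have key : ∀ j ∈ F.s, F.Dm (am d 1) (Finset.Icc N F.N₁) j r - Real.exp (-r) * (IV d * F.LL H j) =
      X j - ∑ m ∈ Finset.Ico 1 N, F.lam j m ^ 2 * VV (m * x) := by
    intro j hj
    rw [pal_dm F hV _ (fun m hm => hN1.trans (Finset.mem_Icc.1 hm).1), ← hx]
    have a1 : ∑ m ∈ Finset.Icc 1 F.N₁, F.lam j m ^ 2 * VV (m * x) =
        ∑ m ∈ Finset.Ico 1 N, F.lam j m ^ 2 * VV (m * x) +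
          ∑ m ∈ Finset.Icc N F.N₁, F.lam j m ^ 2 * VV (m * x) := by
      rw [← Finset.Ico_add_one_right_eq_Icc, ← Finset.Ico_add_one_right_eq_Icc]
      exact (Finset.sum_Ico_consecutive _ hN1 (by omega)).symm
    have a2 := (F.hk j hj).sum_sq F.N₁ (fun m => VV (m * x)) fun m hm => hV0 _ (by
      have b1 : (F.N₁ : ℝ) ≤ m := by exact_mod_cast hm.le
      have b2 : c * F.T ≤ m := by linarith only [F.n0, hT, hTN, b1]
      exact hx1.trans (mul_le_mul_of_nonneg_right b2 hx0.le))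
    have a3 : Real.exp (-r) * (IV d * F.LL H j) = ∑ n ∈ Finset.Icc 1 F.N₁,
        (if n ≤ H then IV d / (n * x) else 0) * F.lam j (n ^ 2) := by
      have e : Finset.Icc 1 H = (Finset.Icc 1 F.N₁).filter fun n => n ≤ H := by
        ext n
        simp only [Finset.mem_filter, Finset.mem_Icc]
        omega
      rw [Real.exp_neg, ← hx, Fa.LL, e, Finset.sum_filter, Finset.mul_sum, Finset.mul_sum]
      refine Finset.sum_congr rfl fun n _ => ?_
      split_ifs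
      · ring
      · ring
    have a4 : X j = ∑ m ∈ Finset.Icc 1 F.N₁, F.lam j m ^ 2 * VV (m * x) -
        Real.exp (-r) * (IV d * F.LL H j) := by
      rw [hX, a2, a3, ← Finset.sum_sub_distrib]
      refine Finset.sum_congr rfl fun n _ => ?_
      have e : ∑ a ∈ Finset.Icc 1 F.N₁, VV (((n * a : ℕ) : ℝ) * x) =
          ∑ a ∈ Finset.Icc 1 F.N₁, VV (a * (n * x)) :=
        Finset.sum_congr rfl fun a _ => by push_cast; congr 1; ring
      rw [hγ, e]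
      ring
    rw [a4, a1]
    ring
  calc _ ≤ ∑ j ∈ F.s, (2 * F.W * (F.Om j ^ 2 * X j ^ 2) +
        2 * (∑ m ∈ Finset.Ico 1 N, F.om2 j * (F.lam j m ^ 2 * VV (m * x))) ^ 2) := by
        refine Finset.sum_le_sum fun j hj => ?_
        rw [key j hj, ← Finset.mul_sum, mul_sub]
        have a1 : F.om2 j ^ 2 ≤ F.W * F.Om j ^ 2 := by
          rw [sq (F.om2 j)]
          exact mul_le_mul ((F.om2_le j).2.trans (F.om j hj)) (F.om2_le j).2 (F.om2_le j).1 hW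
        have a2 : (F.om2 j * X j) ^ 2 ≤ F.W * (F.Om j ^ 2 * X j ^ 2) := by
          rw [mul_pow, ← mul_assoc]
          exact mul_le_mul_of_nonneg_right a1 (sq_nonneg _)
        have a3 : ∀ u v : ℝ, (u - v) ^ 2 ≤ 2 * u ^ 2 + 2 * v ^ 2 := fun u v => by
          linarith only [sq_nonneg (u + v)]
        linarith only [a3 (F.om2 j * X j)
          (F.om2 j * ∑ m ∈ Finset.Ico 1 N, F.lam j m ^ 2 * VV (m * x)), a2]
    _ ≤ 2 * F.W * (F.KK * (C₁ * (F.T ^ 2 * F.DD ^ 4 / Q))) +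
        2 * (2 * F.W * F.DD ^ 4 * F.KK * (2 * F.T ^ 2 / Q)) := by
        rw [Finset.sum_add_distrib, ← Finset.mul_sum, ← Finset.mul_sum]
        refine add_le_add (mul_le_mul_of_nonneg_left hls2 (by positivity))
          (mul_le_mul_of_nonneg_left (hp5.trans ?_) (by norm_num))
        exact mul_le_mul (mul_le_mul_of_nonneg_right (mul_le_mul_of_nonneg_left
          (pow_le_pow_right₀ hD (by norm_num)) (by positivity)) hK) hcard (sq_nonneg _)
          (by positivity)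
    _ = _ := by unfold Fa.U; ring

end Pool.Agent.MP_a28cf0_nt.D4
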